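import Pool.Agent.Lib.MP_a17b09_nt.MRS.PrimG7
import Pool.Agent.Lib.MP_a17b09_nt.MRS.NuA12

/-!
MRSG (MP_a17b09_nt), sieve majorant for a binary form, part A: the Kronecker character and the
sieve product. helper12.
-/

set_option autoImplicit false

namespace Pool.Agent.Lib.MP_a17b09_nt.MRSG.NugA12

open Finset Filter Topology
open scoped Classical
open Pool.Agent.Lib.TwinAll (PP)
open Pool.Agent.Lib.MP_a17b09_nt.CH.DsC86 (mem_PP prod_PP)

instance (D : ℤ) [hD : NeZero D] : NeZero (4 * D.natAbs) :=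
  ⟨by
    have := Int.natAbs_ne_zero.2 hD.out
    omega⟩

theorem odd_val (D : ℤ) (u : (ZMod (4 * D.natAbs))ˣ) : Odd (u : ZMod (4 * D.natAbs)).val := by
  have h := ZMod.val_coe_unit_coprime u
  rw [Nat.coprime_mul_iff_right] at h
  have h2 : Nat.Coprime (u : ZMod (4 * D.natAbs)).val (2 * 2) := h.1
  rw [Nat.coprime_mul_iff_right] at h2
  exact Nat.Coprime.odd_of_right h2.1

/-- the Kronecker symbol on the units -/
noncomputable def kh (D : ℤ) [NeZero D] : (ZMod (4 * D.natAbs))ˣ →* ℂ where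
  toFun u := ((jacobiSym D (u : ZMod (4 * D.natAbs)).val : ℤ) : ℂ)
  map_one' := by
    have h1 : 1 < 4 * D.natAbs := by
      have := Int.natAbs_ne_zero.2 (NeZero.ne D)
      omega
    have : Fact (1 < 4 * D.natAbs) := ⟨h1⟩
    rw [Units.val_one, ZMod.val_one, jacobiSym.one_right]
    norm_num
  map_mul' := by
    intro u v
    have hu := odd_val D u
    have hv := odd_val D v
    rw [Units.val_mul, ZMod.val_mul, ← jacobiSym.mod_right D (hu.mul hv),
      jacobiSym.mul_right' D (by rintro h; rw [h] at hu; exact absurd hu (by decide))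
        (by rintro h; rw [h] at hv; exact absurd hv (by decide))]
    push_cast
    rfl

/-- the Kronecker character -/
noncomputable def kro (D : ℤ) [NeZero D] : DirichletCharacter ℂ (4 * D.natAbs) :=
  MulChar.ofUnitHom (MonoidHom.toHomUnits (kh D))

theorem kro_nat (D : ℤ) [NeZero D] (n : ℕ) (hn : Nat.Coprime n (4 * D.natAbs)) :
    kro D (n : ZMod (4 * D.natAbs)) = ((jacobiSym D n : ℤ) : ℂ) := by
  have h1 : (n : ZMod (4 * D.natAbs)) = ((ZMod.unitOfCoprime n hn : (ZMod (4 * D.natAbs))ˣ) :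
      ZMod (4 * D.natAbs)) := (ZMod.coe_unitOfCoprime n hn).symm
  rw [h1]
  unfold kro
  rw [MulChar.ofUnitHom_coe]
  change ((jacobiSym D ((ZMod.unitOfCoprime n hn : (ZMod (4 * D.natAbs))ˣ) :
      ZMod (4 * D.natAbs)).val : ℤ) : ℂ) = _
  rw [ZMod.coe_unitOfCoprime, ZMod.val_natCast]
  have hodd : Odd n := by
    rw [Nat.coprime_mul_iff_right] at hn
    have h2 : Nat.Coprime n (2 * 2) := hn.1
    rw [Nat.coprime_mul_iff_right] at h2
    exact Nat.Coprime.odd_of_right h2.1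
  rw [← jacobiSym.mod_right D hodd]

/-- the character is not trivial for negative discriminants -/
theorem kro_ne (d : ℕ) (hd : 0 < d) (D : ℤ) [NeZero D] (hD : D = -(d : ℤ)) : kro D ≠ 1 := by
  intro h
  have hna : D.natAbs = d := by rw [hD, Int.natAbs_neg, Int.natAbs_natCast]
  have hcop : Nat.Coprime (4 * d - 1) (4 * D.natAbs) := by
    rw [hna]
    have h1 : 4 * d = (4 * d - 1) + 1 := by omega
    rw [Nat.coprime_comm]
    nth_rewrite 1 [h1]
    rw [Nat.coprime_self_add_left]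
    exact Nat.coprime_one_left _
  have h1 := kro_nat D (4 * d - 1) hcop
  have hodd : Odd (4 * d - 1) := by
    rw [Nat.odd_iff]
    omega
  have hu : IsUnit (((4 * d - 1 : ℕ)) : ZMod (4 * D.natAbs)) :=
    (ZMod.isUnit_iff_coprime _ _).2 hcop
  rw [h, MulChar.one_apply hu] at h1
  have hJ : jacobiSym D (4 * d - 1) = -1 := by
    rw [hD, show -(d : ℤ) = (-1) * (d : ℤ) by ring, jacobiSym.mul_left,
      jacobiSym.at_neg_one hodd]
    have e1 : (ZMod.χ₄ ((4 * d - 1 : ℕ) : ZMod 4) : ℤ) = -1 := by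
      have : ((4 * d - 1 : ℕ) : ZMod 4) = 3 := by
        rw [Nat.cast_sub (by omega)]
        push_cast
        rw [show (4 : ZMod 4) = 0 from rfl]
        rw [zero_mul]
        rfl
      rw [this]
      rfl
    have e2 : jacobiSym (d : ℤ) (4 * d - 1) = 1 := by
      have e3 : jacobiSym (4 * (d : ℤ)) (4 * d - 1) = 1 := by
        have e4 : (4 * (d : ℤ)) % ((4 * d - 1 : ℕ) : ℤ) = (1 : ℤ) % ((4 * d - 1 : ℕ) : ℤ) := by
          have : (4 * (d : ℤ)) = 1 + ((4 * d - 1 : ℕ) : ℤ) := by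
            rw [Nat.cast_sub (by omega)]
            push_cast
            ring
          rw [this, Int.add_emod_right]
        rw [jacobiSym.mod_left' e4, jacobiSym.one_left]
      have e5 : jacobiSym (4 : ℤ) (4 * d - 1) = 1 := by
        rw [show (4 : ℤ) = 2 ^ 2 by norm_num]
        apply jacobiSym.sq_one'
        have : Nat.Coprime 2 (4 * d - 1) := by
          rw [Nat.coprime_comm]
          exact hodd.coprime_two_right
        exact this
      rw [jacobiSym.mul_left, e5, one_mul] at e3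
      exact e3
    rw [e1, e2]
    norm_num
  rw [hJ] at h1
  norm_num at h1

/-- the main local factors -/
noncomputable def ww (D : ℤ) (p : ℕ) : ℝ := if jacobiSym D p = 1 then (1 - 1 / (p : ℝ)) ^ 2 else 1

theorem ww_pos (D : ℤ) {p : ℕ} (hp : p.Prime) : 0 < ww D p := by
  have := Pool.Agent.MRS.NuA12.one_sub_inv_pos p hp
  unfold ww
  split_ifs
  · positivity
  · norm_num

/-- the product over the split primes -/
theorem prod_ww (D : ℤ) [NeZero D] (hD : kro D ≠ 1) (z0 : ℕ) (h0 : 1 ≤ z0)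
    (hz0 : 4 * D.natAbs ≤ z0) :
    ∃ C : ℝ, 0 < C ∧ ∀ z : ℕ, z0 ≤ z → 2 ≤ z → ∏ p ∈ PP z0 z, ww D p ≤ C / Real.log z := by
  obtain ⟨C1, hC1, hprod⟩ := prod_PP z0 h0
  obtain ⟨B, hB0, hB⟩ := H7.sum_chi_p hD
  refine ⟨2 * C1 * Real.exp B, by positivity, fun z hz hz2 => ?_⟩
  have hlog : 0 < Real.log z := Real.log_pos (by exact_mod_cast hz2)
  have h1 := hprod z hz hz2
  have hcop : ∀ p ∈ PP z0 z, Nat.Coprime p (4 * D.natAbs) := by
    intro p hp
    rw [mem_PP] at hp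
    rw [hp.2.coprime_iff_not_dvd]
    intro h
    have h2 : 0 < 4 * D.natAbs := by
      have := Int.natAbs_ne_zero.2 (NeZero.ne D)
      omega
    have := Nat.le_of_dvd h2 h
    omega
  have hJ : ∀ p ∈ PP z0 z, jacobiSym D p = 1 ∨ jacobiSym D p = -1 := by
    intro p hp
    have h2 := hcop p hp
    have h3 : Int.gcd D p = 1 := by
      rw [Int.gcd_comm]
      exact Nat.Coprime.coprime_mul_left_right h2
    exact jacobiSym.eq_one_or_neg_one h3
  -- the sum of the character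
  have h2 := hB z0 z h0 hz
  have h3 : ∑ p ∈ (Ioc z0 z).filter Nat.Prime, kro D (p : ZMod (4 * D.natAbs)) / (p : ℂ) =
      ((∑ p ∈ PP z0 z, ((jacobiSym D p : ℤ) : ℝ) / p : ℝ) : ℂ) := by
    push_cast
    refine sum_congr rfl (fun p hp => ?_)
    rw [kro_nat D p (hcop p hp)]
  rw [h3, Complex.norm_real, Real.norm_eq_abs, abs_le] at h2
  -- factor by factor
  have h4 : ∀ p ∈ PP z0 z, ww D p ≤ (1 - 1 / (p : ℝ)) *
      Real.exp (-(((jacobiSym D p : ℤ) : ℝ) / p)) * (1 - 1 / (p : ℝ) ^ 2)⁻¹ := by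
    intro p hp
    have hpp := (mem_PP.1 hp).2
    have e1 := Pool.Agent.MRS.NuA12.one_sub_inv_pos p hpp
    have e2 := Pool.Agent.MRS.NuA12.one_sub_sq_pos p hpp.two_le
    have e3 : (0 : ℝ) ≤ 1 / (p : ℝ) ^ 2 := by positivity
    rw [← div_eq_mul_inv, le_div_iff₀ e2]
    unfold ww
    rcases hJ p hp with h | h
    · rw [if_pos h, h]
      have e4 := Real.add_one_le_exp (-(((1 : ℤ) : ℝ) / (p : ℝ)))
      have e5 : (1 - 1 / (p : ℝ)) ≤ Real.exp (-(((1 : ℤ) : ℝ) / (p : ℝ))) := by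
        push_cast at e4 ⊢
        linarith
      calc (1 - 1 / (p : ℝ)) ^ 2 * (1 - 1 / (p : ℝ) ^ 2)
          ≤ (1 - 1 / (p : ℝ)) ^ 2 * 1 := mul_le_mul_of_nonneg_left (by linarith) (by positivity)
        _ = (1 - 1 / (p : ℝ)) * (1 - 1 / (p : ℝ)) := by ring
        _ ≤ (1 - 1 / (p : ℝ)) * Real.exp (-(((1 : ℤ) : ℝ) / (p : ℝ))) :=
          mul_le_mul_of_nonneg_left e5 e1.le
    · rw [if_neg (by rw [h]; norm_num), h, one_mul]
      have e4 := Real.add_one_le_exp (-(((-1 : ℤ) : ℝ) / (p : ℝ)))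
      have e5 : (1 + 1 / (p : ℝ)) ≤ Real.exp (-(((-1 : ℤ) : ℝ) / (p : ℝ))) := by
        push_cast at e4 ⊢
        have e6 : -(-1 / (p : ℝ)) = 1 / (p : ℝ) := by ring
        rw [e6] at e4 ⊢
        linarith
      calc (1 - 1 / (p : ℝ) ^ 2) = (1 - 1 / (p : ℝ)) * (1 + 1 / (p : ℝ)) := by
            rw [← one_div_pow]
            ring
        _ ≤ (1 - 1 / (p : ℝ)) * Real.exp (-(((-1 : ℤ) : ℝ) / (p : ℝ))) :=
          mul_le_mul_of_nonneg_left e5 e1.le
  have h5 : ∏ p ∈ PP z0 z, ww D p ≤ (∏ p ∈ PP z0 z, (1 - 1 / (p : ℝ))) *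
      Real.exp (-(∑ p ∈ PP z0 z, ((jacobiSym D p : ℤ) : ℝ) / p)) *
        ∏ p ∈ PP z0 z, (1 - 1 / (p : ℝ) ^ 2)⁻¹ := by
    refine (Finset.prod_le_prod (fun p hp => (ww_pos D (mem_PP.1 hp).2).le) h4).trans
      (le_of_eq ?_)
    rw [prod_mul_distrib, prod_mul_distrib, ← sum_neg_distrib, Real.exp_sum]
  have h6 : ∏ p ∈ PP z0 z, (1 - 1 / (p : ℝ) ^ 2)⁻¹ ≤ 2 := by
    refine le_trans ?_ (Pool.Agent.MRS.NuA12.prod_sq z (by omega))
    apply Finset.prod_le_prod_of_subset_of_one_le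
    · intro p hp
      rw [mem_PP] at hp
      exact mem_Ioc.2 ⟨by omega, hp.1.2⟩
    · intro p hp
      exact (inv_pos.2 (Pool.Agent.MRS.NuA12.one_sub_sq_pos p (mem_PP.1 hp).2.two_le)).le
    · intro n hn _
      rw [mem_Ioc] at hn
      apply one_le_inv_iff₀.2
      refine ⟨Pool.Agent.MRS.NuA12.one_sub_sq_pos n (by omega), ?_⟩
      have : (0 : ℝ) ≤ 1 / (n : ℝ) ^ 2 := by positivity
      linarith
  have h7 : Real.exp (-(∑ p ∈ PP z0 z, ((jacobiSym D p : ℤ) : ℝ) / p)) ≤ Real.exp B :=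
    Real.exp_le_exp.2 (by linarith [h2.1])
  have h8 : 0 ≤ ∏ p ∈ PP z0 z, (1 - 1 / (p : ℝ)) :=
    prod_nonneg (fun p hp => (Pool.Agent.MRS.NuA12.one_sub_inv_pos p (mem_PP.1 hp).2).le)
  calc ∏ p ∈ PP z0 z, ww D p ≤ _ := h5
    _ ≤ (C1 / Real.log z) * Real.exp B * 2 :=
        mul_le_mul (mul_le_mul h1 h7 (Real.exp_pos _).le (by positivity)) h6
          (prod_nonneg (fun p hp =>
            (inv_pos.2 (Pool.Agent.MRS.NuA12.one_sub_sq_pos p (mem_PP.1 hp).2.two_le)).le)) (by positivity)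
    _ = 2 * C1 * Real.exp B / Real.log z := by ring

end Pool.Agent.Lib.MP_a17b09_nt.MRSG.NugA12
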