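import Pool.Agent.Lib.MP_a17b09_nt.MRSG.StmtsG29
import Pool.Agent.Lib.MP_a17b09_nt.MRSG.NugA12

/-!
Project MRSG, modules MER and CHEB: the sum of `1/p` over the primes `P = (p, ±)` is
`log (log b / log a) + O(1)`.
-/

set_option autoImplicit false

open Filter Topology Finset

namespace Pool.Agent.Lib.MP_a17b09_nt.MRSG.Mer7

open MRSG MRSG.NugA12

/-- the primes of a half open interval -/
noncomputable def PR7 (a b : ℝ) : Finset ℕ :=
  (Ioc (⌈a⌉₊ - 1) (⌈b⌉₊ - 1)).filter Nat.Prime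

theorem mem_PR7 {a b : ℝ} (ha : 2 ≤ a) (hab : a ≤ b) {p : ℕ} :
    p ∈ PR7 a b ↔ p.Prime ∧ a ≤ p ∧ (p : ℝ) < b := by
  have h1 : 2 ≤ ⌈a⌉₊ := by
    have : (2 : ℝ) ≤ ⌈a⌉₊ := ha.trans (Nat.le_ceil a)
    exact_mod_cast this
  have h2 : ⌈a⌉₊ ≤ ⌈b⌉₊ := Nat.ceil_mono hab
  unfold PR7
  rw [Finset.mem_filter, Finset.mem_Ioc]
  constructor
  · rintro ⟨⟨h3, h4⟩, h5⟩
    exact ⟨h5, Nat.ceil_le.1 (by omega), Nat.lt_ceil.1 (by omega)⟩
  · rintro ⟨h3, h4, h5⟩
    have h6 := Nat.ceil_le.2 h4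
    have h7 := Nat.lt_ceil.2 h5
    exact ⟨⟨by omega, by omega⟩, h3⟩

theorem PR7_eq {a b : ℝ} (ha : 2 ≤ a) (hab : a ≤ b) : PR7 a b = PA7 1 0 a b := by
  ext p
  rw [mem_PR7 ha hab, mem_PA7]
  constructor
  · rintro ⟨h1, h2, h3⟩
    exact ⟨h1, Nat.modEq_one, h2, h3⟩
  · rintro ⟨h1, -, h2, h3⟩
    exact ⟨h1, h2, h3⟩

open Classical in
/-- the sum over the primes `P` as a sum over the primes `p` -/
theorem LLg_eq (d K : ℕ) {a b : ℝ} (ha : 2 ≤ a) (hab : a ≤ b) :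
    LLg d K a b = ∑ p ∈ PR7 a b, if Spl d K p then (2 : ℝ) / p else 0 := by
  have h1 : slg d K a b = ((PR7 a b).filter (fun p => Spl d K p)) ×ˢ (Finset.univ : Finset Bool) := by
    ext P
    rw [mem_slg, Finset.mem_product, Finset.mem_filter, mem_PR7 ha hab]
    constructor
    · rintro ⟨h2, h3, h4⟩
      exact ⟨⟨⟨h2.prime, h3, h4⟩, h2⟩, Finset.mem_univ _⟩
    · rintro ⟨⟨⟨-, h3, h4⟩, h2⟩, -⟩
      exact ⟨h2, h3, h4⟩
  unfold LLg
  rw [h1, Finset.sum_product, ← Finset.sum_filter]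
  refine Finset.sum_congr rfl fun p _ => ?_
  rw [Fintype.sum_bool]
  ring

theorem spl_iff (d K p : ℕ) (hp : p.Prime) (hn : ¬ p ∣ 2 * d * K) :
    Spl d K p ↔ jacobiSym (-(d : ℤ)) p = 1 := by
  have : Fact p.Prime := ⟨hp⟩
  constructor
  · rintro ⟨-, hnd, r, hr⟩
    rw [← jacobiSym.legendreSym.to_jacobiSym, legendreSym.eq_one_iff]
    · refine ⟨(r : ZMod p), ?_⟩
      have h1 : ((r ^ 2 + d : ℤ) : ZMod p) = 0 := (ZMod.intCast_zmod_eq_zero_iff_dvd _ p).2 hr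
      push_cast at h1 ⊢
      linear_combination -h1
    · intro h0
      have h1 : (p : ℤ) ∣ -(d : ℤ) := (ZMod.intCast_zmod_eq_zero_iff_dvd _ p).1 h0
      rw [dvd_neg] at h1
      apply hnd
      have h2 : p ∣ d := by exact_mod_cast h1
      exact Dvd.dvd.mul_right (Dvd.dvd.mul_left h2 2) K
  · intro hJ
    refine ⟨hp, hn, ?_⟩
    have h1 : IsSquare ((-(d : ℤ) : ℤ) : ZMod p) := ZMod.isSquare_of_jacobiSym_eq_one hJ
    obtain ⟨y, hy⟩ := h1
    obtain ⟨r, rfl⟩ := ZMod.intCast_surjective y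
    refine ⟨r, ?_⟩
    rw [← ZMod.intCast_zmod_eq_zero_iff_dvd]
    push_cast at hy ⊢
    rw [sq, ← hy]; ring

/-- two sided: the sum over `P` is `log (log b / log a) + O(1)` -/
theorem LLg_two (d K : ℕ) (hd : 0 < d) (hK : 0 < K) : ∃ C : ℝ, 0 < C ∧ ∀ a b : ℝ, 2 ≤ a → a ≤ b →
    |LLg d K a b - Real.log (Real.log b / Real.log a)| ≤ C := by
  classical
  have hD0 : (-(d : ℤ)) ≠ 0 := by
    have : (d : ℤ) ≠ 0 := by exact_mod_cast hd.ne'
    exact neg_ne_zero.2 this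
  have : NeZero (-(d : ℤ)) := ⟨hD0⟩
  obtain ⟨C1, hC1, h1⟩ := merG_7 1 one_pos 0 (Nat.coprime_one_right 0)
  obtain ⟨B, hB0, hB⟩ := H7.sum_chi_p (kro_ne d hd (-(d : ℤ)) rfl)
  set m : ℕ := 2 * d * K with hm
  have hm0 : m ≠ 0 := by rw [hm]; positivity
  refine ⟨C1 + B + m.primeFactors.card, by positivity, fun a b ha hab => ?_⟩
  have h2 := h1 a b ha hab
  rw [Nat.totient_one, Nat.cast_one, div_one, one_mul, ← PR7_eq ha hab] at h2
  have ha1 : 2 ≤ ⌈a⌉₊ := by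
    have : (2 : ℝ) ≤ ⌈a⌉₊ := ha.trans (Nat.le_ceil a)
    exact_mod_cast this
  have hab1 : ⌈a⌉₊ ≤ ⌈b⌉₊ := Nat.ceil_mono hab
  have h3 := hB (⌈a⌉₊ - 1) (⌈b⌉₊ - 1) (by omega) (by omega)
  have h4 : ‖∑ p ∈ PR7 a b, kro (-(d : ℤ)) (p : ZMod (4 * (-(d : ℤ)).natAbs)) / (p : ℂ)‖ ≤ B := h3
  set X : ℕ → ℝ := fun p => (kro (-(d : ℤ)) (p : ZMod (4 * (-(d : ℤ)).natAbs))).re with hX
  have h5 : |∑ p ∈ PR7 a b, X p / (p : ℝ)| ≤ B := by
    have h6 : ∑ p ∈ PR7 a b, X p / (p : ℝ) =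
        (∑ p ∈ PR7 a b, kro (-(d : ℤ)) (p : ZMod (4 * (-(d : ℤ)).natAbs)) / (p : ℂ)).re := by
      rw [Complex.re_sum]
      refine Finset.sum_congr rfl fun p _ => ?_
      rw [hX, ← Complex.ofReal_natCast, Complex.div_ofReal_re]
    rw [h6]
    exact (Complex.abs_re_le_norm _).trans h4
  have hna : (-(d : ℤ)).natAbs = d := by rw [Int.natAbs_neg, Int.natAbs_natCast]
  -- comparison of the terms
  have h7 : ∀ p ∈ PR7 a b, |(if Spl d K p then (2 : ℝ) / p else 0) - (1 / (p : ℝ) + X p / p)| ≤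
      if p ∣ m then 1 else 0 := by
    intro p hp
    rw [mem_PR7 ha hab] at hp
    have hp0 : (0 : ℝ) < p := by exact_mod_cast hp.1.pos
    have hp2 : (2 : ℝ) ≤ p := by exact_mod_cast hp.1.two_le
    by_cases hpm : p ∣ m
    · rw [if_pos hpm]
      have h8 : ¬ Spl d K p := fun h => h.2.1 hpm
      rw [if_neg h8, zero_sub, abs_neg]
      have h9 : |X p| ≤ 1 := by
        rw [hX]
        refine (Complex.abs_re_le_norm _).trans ?_
        exact DirichletCharacter.norm_le_one _ _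
      have h10 : |1 / (p : ℝ) + X p / p| = |1 + X p| / p := by
        rw [← add_div, abs_div, abs_of_pos hp0]
      rw [h10, div_le_one hp0]
      refine (abs_add_le _ _).trans ?_
      rw [abs_one]
      linarith
    · rw [if_neg hpm]
      have hcop : Nat.Coprime p (4 * (-(d : ℤ)).natAbs) := by
        rw [hna, Nat.Prime.coprime_iff_not_dvd hp.1]
        intro h8
        apply hpm
        have h9 : p ∣ 2 * (2 * d) := by rwa [show 2 * (2 * d) = 4 * d by ring]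
        rcases (Nat.Prime.dvd_mul hp.1).1 h9 with h10 | h10
        · rw [hm, mul_assoc]; exact Dvd.dvd.mul_right h10 _
        · rw [hm]; exact Dvd.dvd.mul_right h10 _
      have h8 : X p = ((jacobiSym (-(d : ℤ)) p : ℤ) : ℝ) := by
        rw [hX]
        simp only
        rw [kro_nat _ p hcop, Complex.intCast_re]
      have h9 : jacobiSym (-(d : ℤ)) p = 1 ∨ jacobiSym (-(d : ℤ)) p = -1 := by
        apply jacobiSym.eq_one_or_neg_one
        rw [Int.gcd_comm]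
        exact Nat.Coprime.coprime_mul_left_right hcop
      rcases h9 with h9 | h9
      · rw [if_pos ((spl_iff d K p hp.1 hpm).2 h9), h8, h9]
        push_cast
        rw [show (2 : ℝ) / p - (1 / p + 1 / p) = 0 by ring, abs_zero]
      · have h10 : ¬ Spl d K p := by
          intro h11
          rw [spl_iff d K p hp.1 hpm, h9] at h11
          norm_num at h11
        rw [if_neg h10, h8, h9]
        push_cast
        rw [show (0 : ℝ) - (1 / p + -1 / p) = 0 by ring, abs_zero]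
  have h8 : |LLg d K a b - (∑ p ∈ PR7 a b, 1 / (p : ℝ) + ∑ p ∈ PR7 a b, X p / (p : ℝ))| ≤
      m.primeFactors.card := by
    rw [LLg_eq d K ha hab, ← Finset.sum_add_distrib, ← Finset.sum_sub_distrib]
    refine (Finset.abs_sum_le_sum_abs _ _).trans ((Finset.sum_le_sum h7).trans ?_)
    rw [← Finset.sum_filter, Finset.sum_const, nsmul_eq_mul, mul_one]
    have : ((PR7 a b).filter (fun p => p ∣ m)) ⊆ m.primeFactors := by
      intro p hp
      rw [Finset.mem_filter, mem_PR7 ha hab] at hp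
      exact Nat.mem_primeFactors.2 ⟨hp.1.1, hp.2, hm0⟩
    exact_mod_cast Finset.card_le_card this
  rw [abs_le] at h2 h5 h8 ⊢
  constructor <;> linarith [h2.1, h2.2, h5.1, h5.2, h8.1, h8.2]

end Pool.Agent.Lib.MP_a17b09_nt.MRSG.Mer7

namespace Pool.Agent.Lib.MP_a17b09_nt.MRSG

open Mer7

/-- MER -/
theorem stMerG_7 (d K : ℕ) [NeZero K] (hd : 0 < d) : StMerG d K := by
  obtain ⟨C, hC, h⟩ := LLg_two d K hd (NeZero.pos K)
  refine ⟨1, C, one_pos, hC, fun a b ha hab => ?_⟩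
  have := (abs_le.1 (h a b ha hab)).1
  linarith

/-- CHEB -/
theorem stChebG_7 (d K : ℕ) [NeZero K] (hd : 0 < d) : StChebG d K := by
  classical
  obtain ⟨C, hC, h⟩ := LLg_two d K hd (NeZero.pos K)
  have hl4 : 0 < Real.log 4 := Real.log_pos (by norm_num)
  refine ⟨C + 4 * Real.log 4, by positivity, ?_, fun a b ha hab => ?_⟩
  · intro y hy
    have hl : 0 < Real.log y := Real.log_pos (by linarith)
    have h1 := chebG_7 1 0 y hy
    have hyy : y ≤ 2 * y := by linarith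
    rw [← PR7_eq hy hyy] at h1
    have h2 : LLg d K y (2 * y) ≤ 2 * ∑ p ∈ PR7 y (2 * y), (1 : ℝ) / p := by
      rw [LLg_eq d K hy hyy, Finset.mul_sum]
      refine Finset.sum_le_sum fun p _ => ?_
      split_ifs
      · exact le_of_eq (by ring)
      · positivity
    have h3 : 2 * (2 * Real.log 4 / Real.log y) ≤ (C + 4 * Real.log 4) / Real.log y := by
      rw [show 2 * (2 * Real.log 4 / Real.log y) = 4 * Real.log 4 / Real.log y by ring]
      exact div_le_div_of_nonneg_right (by linarith) hl.le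
    linarith
  · have := (abs_le.1 (h a b ha hab)).2
    linarith

end Pool.Agent.Lib.MP_a17b09_nt.MRSG
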