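import Pool.Agent.Lib.MP_a17b09_nt.MRSG.StructB17

/-!
Project MRSG: the commuting similitudes of the classes of forms of discriminant `-d`.
Part C: images of the matrices, shells, the vectors of a shell.
-/

set_option autoImplicit false

open Finset Module

namespace Pool.Agent.Lib.MP_a17b09_nt.MRSG

open CH CH.PE

/-! ### images -/

/-- the image of the matrix of a relation is the set of eigenvectors -/
theorem eig_iff {p r : ℤ} (hp : Prime p) (hr : ¬ p ∣ 2 * r) {Q Q' : Form} {M : Mat}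
    (h : Rel p r Q Q' M) {v : V} : Eig p r Q v ↔ ∃ w, M.app w = v := by
  constructor
  · intro hv
    have h1 := Eig.wd_dvd hp hr (h.eig (1, 0)) hv
    have h2 := Eig.wd_dvd hp hr (h.eig (0, 1)) hv
    obtain ⟨a, ha⟩ := h1
    obtain ⟨b, hb⟩ := h2
    refine ⟨(-b, a), ?_⟩
    have hd := h.det
    unfold Mat.det at hd
    simp only [Mat.app, wd, mul_zero, mul_one, zero_add, add_zero] at ha hb
    apply Prod.ext
    · apply mul_left_cancel₀ hp.ne_zero
      simp only [Mat.app]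
      linear_combination (-M.a) * hb.symm + M.b * ha.symm + v.1 * hd
    · apply mul_left_cancel₀ hp.ne_zero
      simp only [Mat.app]
      linear_combination (-M.c) * hb.symm + M.d * ha.symm + v.2 * hd
  · rintro ⟨w, rfl⟩
    exact h.eig w

/-- both eigenspaces meet in the multiples of `p` -/
theorem eig_both {p r : ℤ} (hp : Prime p) (hr : ¬ p ∣ 2 * r) {Q : Form} {v : V} :
    (Eig p r Q v ∧ Eig p (-r) Q v) ↔ p ∣ v.1 ∧ p ∣ v.2 := by
  constructor
  · rintro ⟨h1, h2⟩
    have key : ∀ w, p ∣ wd w v := by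
      intro w
      have h3 := dvd_sub (h2 w) (h1 w)
      have h4 : Q.B w v - -r * wd w v - (Q.B w v - r * wd w v) = 2 * r * wd w v := by ring
      rw [h4] at h3
      exact (hp.dvd_or_dvd h3).resolve_left hr
    have k1 := key (1, 0)
    have k2 := key (0, 1)
    unfold wd at k1 k2
    simp only [one_mul, zero_mul, sub_zero, zero_sub] at k1 k2
    exact ⟨(dvd_neg).mp k2, k1⟩
  · rintro ⟨⟨a, ha⟩, ⟨b, hb⟩⟩
    have hv : v = p • ((a, b) : V) := by
      apply Prod.ext
      · simp [ha]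
      · simp [hb]
    have key : ∀ r : ℤ, Eig p r Q v := by
      intro r w
      rw [hv, Form.B_smul_right, wd_smul_right]
      exact ⟨Q.B w (a, b) - r * wd w (a, b), by ring⟩
    exact ⟨key r, key (-r)⟩

/-- the values divisible by `p` -/
theorem dvd_q_iff {p r : ℤ} (hp : Prime p) (hr : ¬ p ∣ 2 * r) {Q : Form}
    (hD : p ∣ r ^ 2 + Q.D) {v : V} : p ∣ Q.q v ↔ Eig p r Q v ∨ Eig p (-r) Q v := by
  have hp2 : ¬ p ∣ 2 := fun h => hr (Dvd.dvd.mul_right h _)
  constructor
  · intro hq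
    by_cases h0 : p ∣ v.1 ∧ p ∣ v.2
    · exact Or.inl ((eig_both hp hr).mpr h0).1
    -- a vector `e` with `wd e v` prime to `p`
    have hsq : ∀ w, p ∣ (Q.B w v - r * wd w v) * (Q.B w v - -r * wd w v) := by
      intro w
      have h1 := Q.key w v
      have h2 : (Q.B w v - r * wd w v) * (Q.B w v - -r * wd w v) =
          4 * Q.q w * Q.q v - (r ^ 2 + Q.D) * wd w v ^ 2 := by
        rw [h1]; ring
      rw [h2]
      exact dvd_sub (Dvd.dvd.mul_left hq _) (Dvd.dvd.mul_right hD _)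
    have hlin : ∀ e : V, ¬ p ∣ wd e v → ∀ s : ℤ, p ∣ Q.B e v - s * wd e v → Eig p s Q v := by
      intro e he s hs w
      -- `wd e v • w = wd w v • e + wd e w • v`
      have h3 : wd e v * Q.B w v = wd w v * Q.B e v + wd e w * (2 * Q.q v) := by
        unfold wd Form.B Form.q; ring
      have h4 : p ∣ wd e v * (Q.B w v - s * wd w v) := by
        have h5 : wd e v * (Q.B w v - s * wd w v) =
            wd w v * (Q.B e v - s * wd e v) + 2 * wd e w * Q.q v := by
          linear_combination h3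
        rw [h5]
        exact dvd_add (Dvd.dvd.mul_left hs _) (Dvd.dvd.mul_left hq _)
      exact (hp.dvd_or_dvd h4).resolve_left he
    have hex : ∃ e : V, ¬ p ∣ wd e v := by
      by_contra hcon
      push Not at hcon
      apply h0
      have k1 := hcon (1, 0)
      have k2 := hcon (0, 1)
      unfold wd at k1 k2
      simp only [one_mul, zero_mul, sub_zero, zero_sub] at k1 k2
      exact ⟨(dvd_neg).mp k2, k1⟩
    obtain ⟨e, he⟩ := hex
    rcases hp.dvd_or_dvd (hsq e) with h6 | h6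
    · exact Or.inl (hlin e he r h6)
    · exact Or.inr (hlin e he (-r) h6)
  · have key : ∀ s : ℤ, Eig p s Q v → p ∣ Q.q v := by
      intro s hs
      have h1 := hs v
      have h2 : wd v v = 0 := by unfold wd; ring
      rw [h2, mul_zero, sub_zero, Q.B_self] at h1
      exact (hp.dvd_or_dvd h1).resolve_left hp2
    rintro (h | h)
    · exact key _ h
    · exact key _ h

section main

variable {d K : ℕ}

theorem adm_eig_iff {P : ℕ × Bool} (h : Adm d K P) (i : Cl d) {v : V} :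
    Eig P.1 (rg d P) (rep i) v ↔ ∃ w, (Mg d P i).app w = v :=
  eig_iff (Nat.prime_iff_prime_int.1 h.1) (rel_g h i).1 (rel_g h i).2

theorem adm_dvd_iff {P : ℕ × Bool} (h : Adm d K P) (i : Cl d) {v : V} :
    (P.1 : ℤ) ∣ (rep i).q v ↔ Eig P.1 (rg d P) (rep i) v ∨ Eig P.1 (-rg d P) (rep i) v :=
  dvd_q_iff (Nat.prime_iff_prime_int.1 h.1) (rel_g h i).1 (by rw [rep_D]; exact rg_sq h)

theorem app_inj {A : Mat} (h : A.det ≠ 0) : Function.Injective A.app := by
  intro v w hvw
  have h1 := Mat.adj_app A v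
  rw [hvw, Mat.adj_app] at h1
  exact (smul_right_injective V h h1).symm

/-- the image of a primitive vector is primitive iff the vector is not in the conjugate image -/
theorem prim_app_iff {P : ℕ × Bool} (h : Adm d K P) (i : Cl d) {w : V} :
    Prim ((Mg d P i).app w) ↔ Prim w ∧ ¬ Eig P.1 (-rg d P) (rep (sg d P i)) w := by
  obtain ⟨hr, R⟩ := rel_g h i
  have hp : Prime (P.1 : ℤ) := Nat.prime_iff_prime_int.1 h.1
  have hdet := R.det
  have hRi := R.inv hp.ne_zero
  have hei : Eig P.1 (-rg d P) (rep (sg d P i)) w ↔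
      (P.1 : ℤ) ∣ ((Mg d P i).app w).1 ∧ (P.1 : ℤ) ∣ ((Mg d P i).app w).2 := by
    rw [eig_iff hp (neg_nd hr) hRi]
    constructor
    · rintro ⟨u, rfl⟩
      rw [Mat.app_adj, hdet]
      exact ⟨⟨u.1, by simp⟩, ⟨u.2, by simp⟩⟩
    · rintro ⟨⟨a, ha⟩, ⟨b, hb⟩⟩
      refine ⟨(a, b), ?_⟩
      apply app_inj (det_ne h i)
      rw [Mat.app_adj, hdet]
      apply Prod.ext
      · rw [ha]; simp
      · rw [hb]; simp
  rw [hei]
  unfold Prim
  set u := (Mg d P i).app w with hu
  have hadj : (Mg d P i).adj.app u = (P.1 : ℤ) • w := by rw [hu, Mat.adj_app, hdet]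
  constructor
  · intro hpr
    constructor
    · -- a common divisor of `w` divides `u`
      rw [← Int.isCoprime_iff_gcd_eq_one] at hpr ⊢
      obtain ⟨x, y, hxy⟩ := hpr
      have e1 : u.1 = (Mg d P i).a * w.1 + (Mg d P i).b * w.2 := rfl
      have e2 : u.2 = (Mg d P i).c * w.1 + (Mg d P i).d * w.2 := rfl
      rw [e1, e2] at hxy
      exact ⟨x * (Mg d P i).a + y * (Mg d P i).c, x * (Mg d P i).b + y * (Mg d P i).d, by
        linear_combination hxy⟩
    · rintro ⟨h1, h2⟩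
      have h3 : (P.1 : ℤ) ∣ (Int.gcd u.1 u.2 : ℤ) := Int.dvd_coe_gcd h1 h2
      rw [hpr] at h3
      exact hp.not_unit (isUnit_of_dvd_one (by exact_mod_cast h3))
  · rintro ⟨hpr, hnd⟩
    by_contra hg
    obtain ⟨q, hq, hqd⟩ := Nat.exists_prime_and_dvd hg
    have hqi : Prime (q : ℤ) := Nat.prime_iff_prime_int.1 hq
    have h1 : (q : ℤ) ∣ u.1 := (Int.natCast_dvd_natCast.mpr hqd).trans (Int.gcd_dvd_left _ _)
    have h2 : (q : ℤ) ∣ u.2 := (Int.natCast_dvd_natCast.mpr hqd).trans (Int.gcd_dvd_right _ _)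
    have a1 : (P.1 : ℤ) * w.1 = (Mg d P i).d * u.1 + -(Mg d P i).b * u.2 := by
      have := congrArg Prod.fst hadj
      simpa [Mat.app, Mat.adj] using this.symm
    have a2 : (P.1 : ℤ) * w.2 = -(Mg d P i).c * u.1 + (Mg d P i).a * u.2 := by
      have := congrArg Prod.snd hadj
      simpa [Mat.app, Mat.adj] using this.symm
    have h3 : (q : ℤ) ∣ (P.1 : ℤ) * w.1 := by
      rw [a1]; exact dvd_add (Dvd.dvd.mul_left h1 _) (Dvd.dvd.mul_left h2 _)
    have h4 : (q : ℤ) ∣ (P.1 : ℤ) * w.2 := by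
      rw [a2]; exact dvd_add (Dvd.dvd.mul_left h1 _) (Dvd.dvd.mul_left h2 _)
    rcases hqi.dvd_or_dvd h3 with h5 | h5
    · have h6 : q = P.1 := (Nat.prime_dvd_prime_iff_eq hq h.1).mp (by exact_mod_cast h5)
      rw [h6] at h1 h2
      exact hnd ⟨h1, h2⟩
    · rcases hqi.dvd_or_dvd h4 with h6 | h6
      · have h7 : q = P.1 := (Nat.prime_dvd_prime_iff_eq hq h.1).mp (by exact_mod_cast h6)
        rw [h7] at h1 h2
        exact hnd ⟨h1, h2⟩
      · have h7 : (q : ℤ) ∣ (Int.gcd w.1 w.2 : ℤ) := Int.dvd_coe_gcd h5 h6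
        rw [hpr] at h7
        exact hqi.not_unit (isUnit_of_dvd_one (by exact_mod_cast h7))

end main

theorem smul_div {p : ℤ} (hp : p ≠ 0) (w : V) : (((p • w).1 / p, (p • w).2 / p) : V) = w := by
  apply Prod.ext
  · show p * w.1 / p = w.1
    exact Int.mul_ediv_cancel_left _ hp
  · show p * w.2 / p = w.2
    exact Int.mul_ediv_cancel_left _ hp

/-! ### shells -/

/-- nonzero vectors with `a < Q(v) ≤ b` -/
noncomputable def shQ (Q : Form) (a b : ℝ) : Finset V :=
  (Q.ball ⌈b⌉₊).filter (fun v => v ≠ 0 ∧ a < (Q.q v : ℝ) ∧ (Q.q v : ℝ) ≤ b)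

theorem mem_shQ {Q : Form} (hQ : Q.Pos) {a b : ℝ} {v : V} :
    v ∈ shQ Q a b ↔ v ≠ 0 ∧ a < (Q.q v : ℝ) ∧ (Q.q v : ℝ) ≤ b := by
  unfold shQ
  rw [Finset.mem_filter, Form.mem_ball hQ]
  refine ⟨fun h => h.2, fun h => ⟨?_, h⟩⟩
  have h1 : (Q.q v : ℝ) ≤ ((⌈b⌉₊ : ℤ) : ℝ) := by
    push_cast
    exact h.2.2.trans (Nat.le_ceil b)
  exact_mod_cast h1

section main2

variable {d K : ℕ}

open Classical in
/-- sums over the image of a similitude -/
theorem sum_eig {P : ℕ × Bool} (h : Adm d K P) (i : Cl d) (a b : ℝ) (f : V → ℂ) :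
    ∑ v ∈ (shQ (rep i) a b).filter (fun v => Eig P.1 (rg d P) (rep i) v), f v =
      ∑ w ∈ shQ (rep (sg d P i)) (a / P.1) (b / P.1), f ((Mg d P i).app w) := by
  have hp0 : (0 : ℝ) < P.1 := by exact_mod_cast h.1.pos
  obtain ⟨-, R⟩ := rel_g h i
  have hval : ∀ w, ((rep i).q ((Mg d P i).app w) : ℝ) = P.1 * ((rep (sg d P i)).q w : ℝ) := by
    intro w
    rw [R.sim]; push_cast; ring
  symm
  refine Finset.sum_bij' (fun w _ => (Mg d P i).app w)
    (fun v _ => (((Mg d P i).adj.app v).1 / P.1, ((Mg d P i).adj.app v).2 / P.1)) ?_ ?_ ?_ ?_ ?_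
  · intro w hw
    rw [mem_shQ (rep_pos _)] at hw
    rw [Finset.mem_filter, mem_shQ (rep_pos _), hval]
    refine ⟨⟨app_ne (det_ne h i) hw.1, ?_, ?_⟩, R.eig w⟩
    · have := (div_lt_iff₀ hp0).mp hw.2.1
      linarith
    · have := (le_div_iff₀ hp0).mp hw.2.2
      linarith
  · intro v hv
    rw [Finset.mem_filter, mem_shQ (rep_pos _), adm_eig_iff h i] at hv
    obtain ⟨⟨h1, h2, h3⟩, w, rfl⟩ := hv
    have e : ((((Mg d P i).adj.app ((Mg d P i).app w)).1 / P.1,
        ((Mg d P i).adj.app ((Mg d P i).app w)).2 / P.1) : V) = w := by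
      rw [Mat.adj_app, R.det]
      exact smul_div (by exact_mod_cast h.1.ne_zero) w
    rw [e, mem_shQ (rep_pos _)]
    rw [hval] at h2 h3
    refine ⟨?_, ?_, ?_⟩
    · rintro rfl
      apply h1
      unfold Mat.app; simp
    · rw [div_lt_iff₀ hp0]; linarith
    · rw [le_div_iff₀ hp0]; linarith
  · intro w _
    show ((((Mg d P i).adj.app ((Mg d P i).app w)).1 / P.1,
        ((Mg d P i).adj.app ((Mg d P i).app w)).2 / P.1) : V) = w
    rw [Mat.adj_app, R.det]
    exact smul_div (by exact_mod_cast h.1.ne_zero) w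
  · intro v hv
    rw [Finset.mem_filter, adm_eig_iff h i] at hv
    obtain ⟨-, w, rfl⟩ := hv
    show (Mg d P i).app ((((Mg d P i).adj.app ((Mg d P i).app w)).1 / P.1,
        ((Mg d P i).adj.app ((Mg d P i).app w)).2 / P.1) : V) = (Mg d P i).app w
    rw [Mat.adj_app, R.det, smul_div (by exact_mod_cast h.1.ne_zero) w]
  · intro w _
    rfl

/-- the function `z ^ Ω(Q(v)) (direction)^j` -/
noncomputable def gj (z : ℂ) (j : ℤ) (Q : Form) (v : V) : ℂ := gz z Q v * uu Q v ^ j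

theorem gz_app {P : ℕ × Bool} (h : Adm d K P) (z : ℂ) (i : Cl d) {w : V} (hw : w ≠ 0) :
    gz z (rep i) ((Mg d P i).app w) = z * gz z (rep (sg d P i)) w := by
  obtain ⟨-, R⟩ := rel_g h i
  unfold gz
  have hq : (rep (sg d P i)).q w ≠ 0 := ((rep_pos (sg d P i)).q_pos hw).ne'
  rw [R.sim, Int.natAbs_mul, Int.natAbs_natCast,
    ArithmeticFunction.cardFactors_mul h.1.ne_zero (Int.natAbs_ne_zero.mpr hq),
    ArithmeticFunction.cardFactors_apply_prime h.1, pow_add, pow_one]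

theorem gj_app {P : ℕ × Bool} (h : Adm d K P) (z : ℂ) (j : ℤ) (i : Cl d) {w : V} (hw : w ≠ 0) :
    gj z j (rep i) ((Mg d P i).app w) =
      z * uu (rep i) ((Mg d P i).app (1, 0)) ^ j * gj z j (rep (sg d P i)) w := by
  unfold gj
  rw [gz_app h z i hw, uu_M h i hw, mul_zpow]
  ring

theorem gj_auto (z : ℂ) (j : ℤ) {Q : Form} (hQ : Q.Pos) {γ : Mat} (h1 : γ.det = 1)
    (h : Q.comp γ = Q) {v : V} (hv : v ≠ 0) :
    gj z j Q (γ.app v) = uu Q (γ.app (1, 0)) ^ j * gj z j Q v := by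
  unfold gj
  have h2 : Q.q (γ.app v) = Q.q v := by rw [← Form.comp_q, h]
  rw [uu_auto hQ h1 h hv, mul_zpow]
  unfold gz
  rw [h2]
  ring

theorem prim_auto {γ : Mat} (h1 : γ.det = 1) (v : V) : Prim (γ.app v) ↔ Prim v := by
  have key : ∀ (γ : Mat) (v : V), Prim (γ.app v) → Prim v := by
    intro γ v hpr
    unfold Prim at hpr ⊢
    rw [← Int.isCoprime_iff_gcd_eq_one] at hpr ⊢
    obtain ⟨x, y, hxy⟩ := hpr
    have e1 : (γ.app v).1 = γ.a * v.1 + γ.b * v.2 := rfl
    have e2 : (γ.app v).2 = γ.c * v.1 + γ.d * v.2 := rfl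
    rw [e1, e2] at hxy
    exact ⟨x * γ.a + y * γ.c, x * γ.b + y * γ.d, by linear_combination hxy⟩
  refine ⟨key γ v, fun h => key γ.adj (γ.app v) ?_⟩
  rw [Mat.adj_app, h1, one_smul]
  exact h

end main2

section vectors

variable {d K : ℕ} [NeZero K]

/-- the vector of the sums of a function over the shell in the classes modulo `K` -/
noncomputable def VW (d K : ℕ) [NeZero K] (w : Form → V → ℂ) (a b : ℝ) : Hs d K :=
  WithLp.toLp 2 (fun ia => ∑ v ∈ (shQ (rep ia.1) a b).filter (fun v => cl K v = ia.2),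
    w (rep ia.1) v)

theorem VW_apply (w : Form → V → ℂ) (a b : ℝ) (i : Cl d) (α : ZMod K × ZMod K) :
    VW d K w a b (i, α) = ∑ v ∈ (shQ (rep i) a b).filter (fun v => cl K v = α), w (rep i) v := rfl

/-- sums with the symmetry of the automorphisms belong to `E_j` -/
theorem VW_mem {j : ℤ} {w : Form → V → ℂ}
    (hw : ∀ (i : Cl d) (γ : Mat), γ.det = 1 → (rep i).comp γ = rep i → ∀ v, v ≠ 0 →
      w (rep i) (γ.app v) = uu (rep i) (γ.app (1, 0)) ^ j * w (rep i) v) (a b : ℝ) :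
    VW d K w a b ∈ Ej d K j := by
  intro i γ h1 h2 α
  rw [VW_apply, VW_apply, Finset.mul_sum]
  have hdet : γ.det ≠ 0 := by rw [h1]; exact one_ne_zero
  have hu : IsUnit ((γ.det : ℤ) : ZMod K) := by rw [h1, Int.cast_one]; exact isUnit_one
  have hq : ∀ v, (rep i).q (γ.app v) = (rep i).q v := fun v => by rw [← Form.comp_q, h2]
  symm
  refine Finset.sum_bij' (fun v _ => γ.app v) (fun v _ => γ.adj.app v) ?_ ?_ ?_ ?_ ?_
  · intro v hv
    rw [Finset.mem_filter, mem_shQ (rep_pos i)] at hv ⊢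
    rw [hq, cl_app', hv.2]
    exact ⟨⟨app_ne hdet hv.1.1, hv.1.2⟩, rfl⟩
  · intro v hv
    rw [Finset.mem_filter, mem_shQ (rep_pos i)] at hv ⊢
    have e : γ.app (γ.adj.app v) = v := by rw [Mat.app_adj, h1, one_smul]
    have hqv : (rep i).q (γ.adj.app v) = (rep i).q v := by rw [← hq, e]
    rw [hqv]
    refine ⟨⟨app_ne (by rw [Mat.det_adj]; exact hdet) hv.1.1, hv.1.2⟩, ?_⟩
    apply az_inj hu
    rw [← cl_app', e, hv.2]
  · intro v _
    rw [Mat.adj_app, h1, one_smul]
  · intro v _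
    rw [Mat.app_adj, h1, one_smul]
  · intro v hv
    rw [Finset.mem_filter, mem_shQ (rep_pos i)] at hv
    exact (hw i γ h1 h2 v hv.1.1).symm

open Classical in
/-- the sum over the image of a similitude, for functions which are multiplied by a constant -/
theorem VW_img {P : ℕ × Bool} (h : Adm d K P) {j : ℤ} {w : Form → V → ℂ} {z : ℂ}
    (hw : ∀ (i : Cl d) (v : V), v ≠ 0 → w (rep i) ((Mg d P i).app v) =
      z * uu (rep i) ((Mg d P i).app (1, 0)) ^ j * w (rep (sg d P i)) v) (a b : ℝ) (i : Cl d)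
    (α : ZMod K × ZMod K) :
    ∑ v ∈ (shQ (rep i) a b).filter (fun v => cl K v = α ∧ Eig P.1 (rg d P) (rep i) v),
      w (rep i) v = z * Ug d K P j (VW d K w (a / P.1) (b / P.1)) (i, α) := by
  have h1 : ∑ v ∈ (shQ (rep i) a b).filter (fun v => cl K v = α ∧ Eig P.1 (rg d P) (rep i) v),
      w (rep i) v = ∑ v ∈ (shQ (rep i) a b).filter (fun v => Eig P.1 (rg d P) (rep i) v),
        if cl K v = α then w (rep i) v else 0 := by
    rw [← Finset.sum_filter, Finset.filter_filter]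
    refine Finset.sum_congr ?_ fun _ _ => rfl
    ext v
    simp only [Finset.mem_filter]
    tauto
  rw [h1, sum_eig h i a b, Ug_apply, VW_apply, Finset.sum_filter, Finset.mul_sum, Finset.mul_sum]
  refine Finset.sum_congr rfl fun v hv => ?_
  rw [mem_shQ (rep_pos _)] at hv
  have hcl : cl K ((Mg d P i).app v) = α ↔ cl K v = ai (Mg d P i) α := by
    rw [cl_app']
    constructor
    · intro h2
      rw [← h2, ai_az (unit_M h i)]
    · intro h2
      rw [h2, az_ai (unit_M h i)]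
  by_cases h2 : cl K v = ai (Mg d P i) α
  · rw [if_pos (hcl.mpr h2), if_pos h2, hw i v hv.1]
    ring
  · rw [if_neg (fun h3 => h2 (hcl.mp h3)), if_neg h2]
    ring

/-- all vectors of the shell -/
noncomputable def VS (d K : ℕ) [NeZero K] (z : ℂ) (j : ℤ) (a b : ℝ) : Hs d K :=
  VW d K (gj z j) a b

open Classical in
/-- the primitive vectors of the shell -/
noncomputable def VP (d K : ℕ) [NeZero K] (z : ℂ) (j : ℤ) (a b : ℝ) : Hs d K :=
  VW d K (fun Q v => if Prim v then gj z j Q v else 0) a b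

theorem VS_mem (z : ℂ) (j : ℤ) (a b : ℝ) : VS d K z j a b ∈ Ej d K j :=
  VW_mem (fun i γ h1 h2 v hv => gj_auto z j (rep_pos i) h1 h2 hv) a b

theorem VP_mem (z : ℂ) (j : ℤ) (a b : ℝ) : VP d K z j a b ∈ Ej d K j := by
  refine VW_mem (fun i γ h1 h2 v hv => ?_) a b
  simp only [prim_auto h1 v]
  split_ifs
  · exact gj_auto z j (rep_pos i) h1 h2 hv
  · rw [mul_zero]

open Classical in
/-- the exact identity for all vectors -/
theorem VS_img {P : ℕ × Bool} (h : Adm d K P) (z : ℂ) (j : ℤ) (a b : ℝ) (i : Cl d)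
    (α : ZMod K × ZMod K) :
    ∑ v ∈ (shQ (rep i) a b).filter (fun v => cl K v = α ∧ Eig P.1 (rg d P) (rep i) v),
      gj z j (rep i) v = z * Ug d K P j (VS d K z j (a / P.1) (b / P.1)) (i, α) :=
  VW_img h (fun i v hv => gj_app h z j i hv) a b i α

/-- a coordinate of a vector of sums is a sum -/
theorem co_VW (j : ℤ) (k : Fin (mm d K j)) (w : Form → V → ℂ) (a b : ℝ) :
    co d K j k (VW d K w a b) = ∑ i : Cl d, ∑ v ∈ shQ (rep i) a b,
      (starRingEnd ℂ) ((bv d K j k : Hs d K) (i, cl K v)) * w (rep i) v := by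
  rw [co_eq, Fintype.sum_prod_type]
  refine Finset.sum_congr rfl fun i _ => ?_
  have h1 : ∀ α : ZMod K × ZMod K, (starRingEnd ℂ) ((bv d K j k : Hs d K) (i, α)) *
      VW d K w a b (i, α) = ∑ v ∈ shQ (rep i) a b, if cl K v = α then
        (starRingEnd ℂ) ((bv d K j k : Hs d K) (i, cl K v)) * w (rep i) v else 0 := by
    intro α
    rw [VW_apply, Finset.mul_sum, ← Finset.sum_filter]
    refine Finset.sum_congr rfl fun v hv => ?_
    rw [(Finset.mem_filter.mp hv).2]
  rw [Finset.sum_congr rfl fun α _ => h1 α, Finset.sum_comm]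
  refine Finset.sum_congr rfl fun v _ => ?_
  rw [Finset.sum_ite_eq Finset.univ (cl K v), if_pos (Finset.mem_univ _)]

end vectors

end Pool.Agent.Lib.MP_a17b09_nt.MRSG
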