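import Pool.Agent.Lib.MP_a17b09_nt.MRSG.StructD29
import Pool.Agent.Lib.MP_a17b09_nt.CH.C027
import Pool.Agent.Lib.MP_a17b09_nt.MRS.Exc70

/-!
Project MRSG, helper70: (UPRIM) from all vectors to primitive vectors on the set `U`, for every
negative discriminant.
-/

set_option autoImplicit false

open Filter Topology Finset

namespace Pool.Agent.Lib.MP_a17b09_nt.MRSG

open CH CH.PE

namespace UpG70

variable {d K : ℕ}

/-! ### Moebius -/

theorem dvd_gcd_iff {D : ℕ} {v : V} : D ∣ Int.gcd v.1 v.2 ↔ ∃ w : V, v = (D : ℤ) • w := by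
  constructor
  · intro h
    have h4 : (D : ℤ) ∣ (Int.gcd v.1 v.2 : ℤ) := by exact_mod_cast h
    obtain ⟨a, ha⟩ := h4.trans (Int.gcd_dvd_left _ _)
    obtain ⟨b, hb⟩ := h4.trans (Int.gcd_dvd_right _ _)
    exact ⟨(a, b), Prod.ext ha hb⟩
  · rintro ⟨w, rfl⟩
    have := Int.dvd_coe_gcd (dvd_mul_right (D : ℤ) w.1) (dvd_mul_right (D : ℤ) w.2)
    exact_mod_cast this

/-- the shell and multiples of `D` -/
theorem sum_mult (i : Cl d) (a b : ℝ) {D : ℕ} (hD : 0 < D) (G : V → ℂ) :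
    ∑ v ∈ (Shg i a b).filter (fun v => D ∣ Int.gcd v.1 v.2), G v =
      ∑ w ∈ Shg i (a / (D : ℝ) ^ 2) (b / (D : ℝ) ^ 2), G ((D : ℤ) • w) := by
  have hd0 : (0 : ℝ) < (D : ℝ) ^ 2 := by positivity
  have hD0 : (D : ℤ) ≠ 0 := by exact_mod_cast hD.ne'
  have key : ∀ w : V, ((rep i).q ((D : ℤ) • w) : ℝ) = (D : ℝ) ^ 2 * (rep i).q w := by
    intro w
    rw [Form.q_smul]
    push_cast
    ring
  symm
  refine Finset.sum_nbij (fun w => (D : ℤ) • w) ?_ ?_ ?_ ?_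
  · intro w hw
    rw [mem_Shg] at hw
    rw [Finset.mem_filter, mem_Shg, key]
    refine ⟨⟨smul_ne_zero hD0 hw.1, ?_, ?_⟩, dvd_gcd_iff.2 ⟨w, rfl⟩⟩
    · rw [← div_lt_iff₀' hd0]
      exact hw.2.1
    · rw [← le_div_iff₀' hd0]
      exact hw.2.2
  · intro w _ w' _ h
    exact smul_right_injective _ hD0 h
  · intro v hv
    rw [Finset.mem_coe, Finset.mem_filter, mem_Shg] at hv
    obtain ⟨⟨h1, h2, h3⟩, h4⟩ := hv
    obtain ⟨w, hw⟩ := dvd_gcd_iff.1 h4
    refine ⟨w, ?_, hw.symm⟩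
    rw [Finset.mem_coe, mem_Shg]
    rw [hw, key] at h2 h3
    refine ⟨?_, ?_, ?_⟩
    · rintro rfl
      rw [smul_zero] at hw
      exact h1 hw
    · rw [div_lt_iff₀' hd0]
      exact h2
    · rw [le_div_iff₀' hd0]
      exact h3
  · intro w _
    rfl

/-- Moebius inversion for sums over the primitive vectors of the shell -/
theorem prim_sum (i : Cl d) (a b : ℝ) (E : ℕ) (hE : b ≤ E) (G : V → ℂ) :
    ∑ v ∈ (Shg i a b).filter Prim, G v = ∑ D ∈ Finset.Icc 1 E,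
      (ArithmeticFunction.moebius D : ℂ) *
        ∑ w ∈ Shg i (a / (D : ℝ) ^ 2) (b / (D : ℝ) ^ 2), G ((D : ℤ) • w) := by
  have e1 : ∀ v ∈ Shg i a b, (if Prim v then G v else 0) =
      ∑ D ∈ Finset.Icc 1 E, if D ∣ Int.gcd v.1 v.2 then
        (ArithmeticFunction.moebius D : ℂ) * G v else 0 := by
    intro v hv
    rw [mem_Shg] at hv
    set g := Int.gcd v.1 v.2 with hg
    have hg0 : 0 < g := by
      rw [hg, Int.gcd_pos_iff]
      by_contra h
      push Not at h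
      exact hv.1 (Prod.ext h.1 h.2)
    have hgE : g ≤ E := by
      have h1 : (g : ℕ) ∣ Int.gcd v.1 v.2 := dvd_rfl
      obtain ⟨w, hw⟩ := dvd_gcd_iff.1 h1
      have h2 : (rep i).q v = (g : ℤ) ^ 2 * (rep i).q w := by
        conv_lhs => rw [hw]
        rw [Form.q_smul]
      have h3 : 0 < (rep i).q w := by
        apply (rep_pos i).q_pos
        rintro rfl
        rw [smul_zero] at hw
        exact hv.1 hw
      have hg1 : (1 : ℤ) ≤ g := by exact_mod_cast hg0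
      have h4 : (g : ℤ) ≤ (rep i).q v := by
        rw [h2]
        nlinarith
      have h5 : ((rep i).q v : ℝ) ≤ E := hv.2.2.trans hE
      have h6 : (rep i).q v ≤ E := by exact_mod_cast h5
      have h7 := h4.trans h6
      exact_mod_cast h7
    have h7 : (Finset.Icc 1 E).filter (fun D => D ∣ g) = g.divisors := by
      ext D
      rw [Finset.mem_filter, Finset.mem_Icc, Nat.mem_divisors]
      constructor
      · rintro ⟨_, h⟩
        exact ⟨h, hg0.ne'⟩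
      · rintro ⟨h, _⟩
        exact ⟨⟨Nat.pos_of_dvd_of_pos h hg0, (Nat.le_of_dvd hg0 h).trans hgE⟩, h⟩
    rw [← Finset.sum_filter, h7, ← Finset.sum_mul]
    have h8 : ∑ D ∈ g.divisors, (ArithmeticFunction.moebius D : ℂ) = if g = 1 then 1 else 0 := by
      have h9 := congrArg (fun f : ArithmeticFunction ℤ => f g)
        (ArithmeticFunction.moebius_mul_coe_zeta)
      simp only [ArithmeticFunction.coe_mul_zeta_apply, ArithmeticFunction.one_apply] at h9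
      have h10 : ((∑ D ∈ g.divisors, ArithmeticFunction.moebius D : ℤ) : ℂ) =
          ((if g = 1 then 1 else 0 : ℤ) : ℂ) := by rw [h9]
      push_cast at h10
      exact h10
    rw [h8]
    have h11 : Prim v ↔ g = 1 := Iff.rfl
    simp only [h11]
    split_ifs
    · rw [one_mul]
    · rw [zero_mul]
  rw [Finset.sum_filter, Finset.sum_congr rfl e1, Finset.sum_comm]
  refine Finset.sum_congr rfl fun D hD => ?_
  have hd1 : 0 < D := (Finset.mem_Icc.1 hD).1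
  rw [← Finset.sum_filter, sum_mult i _ _ hd1, Finset.mul_sum]

theorem gz_smul {z : ℂ} (i : Cl d) {D : ℕ} (hD : 0 < D) {v : V} (hv : v ≠ 0) :
    gz z (rep i) ((D : ℤ) • v) = z ^ (ArithmeticFunction.cardFactors (D ^ 2)) * gz z (rep i) v := by
  have h1 := (rep_pos i).q_pos hv
  unfold gz
  have h2 : ((rep i).q ((D : ℤ) • v)).natAbs = D ^ 2 * ((rep i).q v).natAbs := by
    rw [Form.q_smul, Int.natAbs_mul, Int.natAbs_pow, Int.natAbs_natCast]
  rw [h2, ArithmeticFunction.cardFactors_mul (by positivity) (by omega), pow_add]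

theorem norm_gz {z : ℂ} (hz : ‖z‖ = 1) (Q : Form) (v : V) : ‖gz z Q v‖ = 1 := by
  unfold gz
  rw [norm_pow, hz, one_pow]

section

variable [NeZero K]

/-- the coordinates of the vector of the primitive sums -/
theorem vp_le {z : ℂ} (hz : ‖z‖ = 1) (r1 r2 N : ℝ) (j : ℤ) (hN : 0 < N) (E : ℕ)
    (hE : r2 * N ≤ E) (ia : Cl d × (ZMod K × ZMod K)) :
    ‖VPg d K z r1 r2 N j ia‖ ≤ ∑ D ∈ Finset.Icc 1 E, (1 / (D : ℝ) ^ 2) *
      ∑ ib, ‖VAg d K z r1 r2 (N / (D : ℝ) ^ 2) j ib‖ := by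
  classical
  obtain ⟨i, α⟩ := ia
  have h0 : VPg d K z r1 r2 N j (i, α) = ∑ v ∈ (Shg i (r1 * N) (r2 * N)).filter Prim,
      if cl K v = α then (1 / (N : ℂ)) * gz z (rep i) v * uu (rep i) v ^ j else 0 := by
    unfold VPg
    rw [vec_apply, Finset.sum_filter]
  rw [h0, prim_sum i _ _ E hE]
  refine (norm_sum_le _ _).trans (Finset.sum_le_sum fun D hD => ?_)
  have hd1 : 0 < D := (Finset.mem_Icc.1 hD).1
  have hd0 : (0 : ℝ) < D := by exact_mod_cast hd1
  have h1 : ‖(ArithmeticFunction.moebius D : ℂ)‖ ≤ 1 := by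
    rcases ArithmeticFunction.moebius_eq_or D with h | h | h
    · rw [h]; simp
    · rw [h]; simp
    · rw [h]; simp
  rw [norm_mul]
  refine (mul_le_of_le_one_left (norm_nonneg _) h1).trans ?_
  have hN0 : (N : ℂ) ≠ 0 := by exact_mod_cast hN.ne'
  have hdc : (D : ℂ) ≠ 0 := by exact_mod_cast hd1.ne'
  -- the sum by the classes
  have h2 : ∀ w ∈ Shg i (r1 * N / (D : ℝ) ^ 2) (r2 * N / (D : ℝ) ^ 2),
      (if cl K ((D : ℤ) • w) = α then
        (1 / (N : ℂ)) * gz z (rep i) ((D : ℤ) • w) * uu (rep i) ((D : ℤ) • w) ^ j else 0) =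
      z ^ (ArithmeticFunction.cardFactors (D ^ 2)) * (1 / (D : ℂ) ^ 2) *
        ∑ β : ZMod K × ZMod K, if sc (D : ZMod K) β = α then
        (if cl K w = β then (1 / ((N / (D : ℝ) ^ 2 : ℝ) : ℂ)) * gz z (rep i) w *
          uu (rep i) w ^ j else 0) else 0 := by
    intro w hw
    rw [mem_Shg] at hw
    rw [Finset.sum_eq_single (cl K w)]
    · rw [if_pos rfl, cl_smul', gz_smul i hd1 hw.1, uu_smul _ (by exact_mod_cast hd1)]
      push_cast
      split_ifs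
      · field_simp
      · rw [mul_zero]
    · intro β _ hβ
      rw [if_neg (Ne.symm hβ)]
      split_ifs <;> rfl
    · intro h
      exact absurd (Finset.mem_univ _) h
  rw [Finset.sum_congr rfl h2, ← Finset.mul_sum, norm_mul, norm_mul, norm_pow, hz, one_pow,
    one_mul, norm_div, norm_one, norm_pow, Complex.norm_natCast]
  refine mul_le_mul_of_nonneg_left ?_ (by positivity)
  rw [Finset.sum_comm]
  have h3 : ∀ β : ZMod K × ZMod K,
      ‖∑ w ∈ Shg i (r1 * N / (D : ℝ) ^ 2) (r2 * N / (D : ℝ) ^ 2),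
        (if sc (D : ZMod K) β = α then
        (if cl K w = β then (1 / ((N / (D : ℝ) ^ 2 : ℝ) : ℂ)) * gz z (rep i) w *
          uu (rep i) w ^ j else 0) else 0)‖ ≤
      ‖VAg d K z r1 r2 (N / (D : ℝ) ^ 2) j (i, β)‖ := by
    intro β
    by_cases h : sc (D : ZMod K) β = α
    · refine le_of_eq ?_
      congr 1
      unfold VAg
      rw [vec_apply, Finset.sum_filter, mul_div_assoc, mul_div_assoc]
      refine Finset.sum_congr rfl fun w _ => ?_
      rw [if_pos h]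
    · rw [Finset.sum_eq_zero]
      · rw [norm_zero]
        exact norm_nonneg _
      · intro w _
        rw [if_neg h]
  refine (norm_sum_le _ _).trans ((Finset.sum_le_sum fun β _ => h3 β).trans ?_)
  rw [Fintype.sum_prod_type (fun ib : Cl d × (ZMod K × ZMod K) =>
    ‖VAg d K z r1 r2 (N / (D : ℝ) ^ 2) j ib‖)]
  exact Finset.single_le_sum
    (f := fun i => ∑ β, ‖VAg d K z r1 r2 (N / (D : ℝ) ^ 2) j (i, β)‖)
    (fun _ _ => Finset.sum_nonneg fun _ _ => norm_nonneg _) (Finset.mem_univ i)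

end

/-! ### elementary bounds -/

/-- number of vectors of norm at most `b` -/
theorem card_Shg (i : Cl d) {a b : ℝ} (hb : 0 ≤ b) :
    ((Shg i a b).card : ℝ) ≤ 36 * ((rep i).a + (rep i).c) * b := by
  have ha : (0 : ℝ) < (rep i).a := by exact_mod_cast (rep_pos i).1
  have hc : (0 : ℝ) < (rep i).c := by exact_mod_cast (rep_pos i).c_pos
  rcases lt_or_ge b 1 with h | h
  · have h1 : Shg i a b = ∅ := by
      rw [Finset.eq_empty_iff_forall_notMem]
      intro v hv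
      rw [mem_Shg] at hv
      have h2 := (rep_pos i).q_pos hv.1
      have h3 : (1 : ℝ) ≤ (rep i).q v := by exact_mod_cast h2
      linarith [hv.2.2]
    rw [h1, Finset.card_empty]
    push_cast
    positivity
  · exact C27.card_ball (rep_pos i) h _ fun w hw => (mem_Shg.1 hw).2.2

/-- the trivial bound -/
noncomputable def CT (d : ℕ) : ℝ := ∑ i : Cl d, 36 * (((rep i).a : ℝ) + (rep i).c)

theorem CT_nonneg (d : ℕ) : 0 ≤ CT d := by
  refine Finset.sum_nonneg fun i _ => ?_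
  have ha : (0 : ℝ) < (rep i).a := by exact_mod_cast (rep_pos i).1
  have hc : (0 : ℝ) < (rep i).c := by exact_mod_cast (rep_pos i).c_pos
  positivity

theorem ma_le [NeZero K] {z : ℂ} (hz : ‖z‖ = 1) (r1 r2 N : ℝ) (w : Fq d K) (hN : 0 < N)
    (hr : 0 ≤ r2) : ‖Mag z r1 r2 N w‖ ≤ CT d * r2 := by
  unfold Mag
  rw [norm_mul, norm_div, norm_one, Complex.norm_real, Real.norm_eq_abs, abs_of_pos hN]
  have h1 : ‖∑ i, ∑ v ∈ Shg i (r1 * N) (r2 * N), gz z (rep i) v * ch w i v‖ ≤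
      CT d * (r2 * N) := by
    refine (norm_sum_le _ _).trans ?_
    unfold CT
    rw [Finset.sum_mul]
    refine Finset.sum_le_sum fun i _ => ?_
    refine (norm_sum_le _ _).trans ?_
    refine (Finset.sum_le_sum (g := fun _ => (1 : ℝ)) fun v hv => ?_).trans ?_
    · rw [norm_mul, norm_gz hz, one_mul]
      exact norm_ch_le w i (mem_Shg.1 hv).1
    · rw [Finset.sum_const, nsmul_eq_mul, mul_one]
      exact card_Shg i (by positivity)
  calc 1 / N * ‖∑ i, ∑ v ∈ Shg i (r1 * N) (r2 * N), gz z (rep i) v * ch w i v‖ ≤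
        1 / N * (CT d * (r2 * N)) := mul_le_mul_of_nonneg_left h1 (by positivity)
    _ = CT d * r2 := by field_simp

theorem tail (m D : ℕ) (hm : 0 < m) :
    ∑ d ∈ Finset.Icc 1 D, (if m < d then (1 : ℝ) / (d : ℝ) ^ 2 else 0) ≤ (1 : ℝ) / m := by
  rw [← Finset.sum_filter]
  have h1 : (Finset.Icc 1 D).filter (fun d => m < d) ⊆ Finset.Ioc m (max m D) := by
    intro d hd
    rw [Finset.mem_filter, Finset.mem_Icc] at hd
    rw [Finset.mem_Ioc]
    exact ⟨hd.2, hd.1.2.trans (le_max_right _ _)⟩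
  have h2 := sum_Ioc_inv_sq_le_sub (α := ℝ) hm.ne' (le_max_left m D)
  calc ∑ d ∈ (Finset.Icc 1 D).filter (fun d => m < d), 1 / (d : ℝ) ^ 2 ≤
        ∑ d ∈ Finset.Ioc m (max m D), 1 / (d : ℝ) ^ 2 :=
        Finset.sum_le_sum_of_subset_of_nonneg h1 fun _ _ _ => by positivity
    _ = ∑ d ∈ Finset.Ioc m (max m D), ((d : ℝ) ^ 2)⁻¹ := by simp only [one_div]
    _ ≤ (m : ℝ)⁻¹ - ((max m D : ℕ) : ℝ)⁻¹ := h2
    _ ≤ 1 / m := by
        rw [one_div]
        have : (0 : ℝ) ≤ ((max m D : ℕ) : ℝ)⁻¹ := by positivity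
        linarith

theorem total (D : ℕ) : ∑ d ∈ Finset.Icc 1 D, (1 : ℝ) / (d : ℝ) ^ 2 ≤ 2 := by
  have h1 := tail 1 D one_pos
  have h2 : ∑ d ∈ Finset.Icc 1 D, 1 / (d : ℝ) ^ 2 ≤
      ∑ d ∈ Finset.Icc 1 D, ((if 1 < d then (1 : ℝ) / (d : ℝ) ^ 2 else 0) +
        if d = 1 then (1 : ℝ) else 0) := by
    refine Finset.sum_le_sum fun d hd => ?_
    have := (Finset.mem_Icc.1 hd).1
    rcases Nat.lt_or_ge 1 d with h | h
    · rw [if_pos h, if_neg (by omega)]
      linarith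
    · have h3 : d = 1 := by omega
      rw [h3]
      norm_num
  rw [Finset.sum_add_distrib] at h2
  have h3 : ∑ d ∈ Finset.Icc 1 D, (if d = 1 then (1 : ℝ) else 0) ≤ 1 := by
    rw [Finset.sum_ite_eq']
    split_ifs
    · exact le_rfl
    · exact zero_le_one
  have h4 : (1 : ℝ) / ((1 : ℕ) : ℝ) = 1 := by norm_num
  rw [h4] at h1
  linarith

/-- the size of the index set -/
noncomputable def nI (d K : ℕ) [NeZero K] : ℝ :=
  (Fintype.card (Cl d × (ZMod K × ZMod K)) : ℝ) + 1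

theorem nI_pos (d K : ℕ) [NeZero K] : 1 ≤ nI d K := by
  unfold nI
  have : (0 : ℝ) ≤ (Fintype.card (Cl d × (ZMod K × ZMod K)) : ℝ) := by positivity
  linarith

/-- one frequency -/
theorem one_freq [NeZero K] {z : ℂ} (hz : ‖z‖ = 1) (r1 r2 N : ℝ) (j : ℤ) (hN : 0 < N) (E : ℕ)
    (hE : r2 * N ≤ E) : ∑ ia, ‖VPg d K z r1 r2 N j ia‖ ^ 2 ≤
      2 * nI d K ^ 2 * ∑ D ∈ Finset.Icc 1 E, (1 / (D : ℝ) ^ 2) *
        ∑ ib, ‖VAg d K z r1 r2 (N / (D : ℝ) ^ 2) j ib‖ ^ 2 := by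
  set A : ℕ → ℝ := fun D => ∑ ib, ‖VAg d K z r1 r2 (N / (D : ℝ) ^ 2) j ib‖ ^ 2 with hA
  have hA0 : ∀ D, 0 ≤ A D := fun D => Finset.sum_nonneg fun _ _ => by positivity
  have hn0 := nI_pos d K
  have h1 : ∀ ia, ‖VPg d K z r1 r2 N j ia‖ ^ 2 ≤
      2 * nI d K * ∑ D ∈ Finset.Icc 1 E, (1 / (D : ℝ) ^ 2) * A D := by
    intro ia
    have h2 := MRS.Exc70.cs (Finset.Icc 1 E) (fun D : ℕ => 1 / (D : ℝ) ^ 2)
      (fun D : ℕ => ∑ ib, ‖VAg d K z r1 r2 (N / (D : ℝ) ^ 2) j ib‖) (fun D _ => by positivity)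
    have h3 : ∀ D : ℕ, (∑ ib, ‖VAg d K z r1 r2 (N / (D : ℝ) ^ 2) j ib‖) ^ 2 ≤
        nI d K * A D := by
      intro D
      have h4 := sq_sum_le_card_mul_sum_sq
        (s := (Finset.univ : Finset (Cl d × (ZMod K × ZMod K))))
        (f := fun ib => ‖VAg d K z r1 r2 (N / (D : ℝ) ^ 2) j ib‖)
      refine h4.trans (mul_le_mul_of_nonneg_right ?_ (hA0 D))
      unfold nI
      rw [Finset.card_univ]
      linarith
    calc ‖VPg d K z r1 r2 N j ia‖ ^ 2 ≤ (∑ D ∈ Finset.Icc 1 E, (1 / (D : ℝ) ^ 2) *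
          ∑ ib, ‖VAg d K z r1 r2 (N / (D : ℝ) ^ 2) j ib‖) ^ 2 :=
          pow_le_pow_left₀ (norm_nonneg _) (vp_le hz r1 r2 N j hN E hE ia) 2
      _ ≤ (∑ D ∈ Finset.Icc 1 E, 1 / (D : ℝ) ^ 2) * ∑ D ∈ Finset.Icc 1 E, (1 / (D : ℝ) ^ 2) *
          (∑ ib, ‖VAg d K z r1 r2 (N / (D : ℝ) ^ 2) j ib‖) ^ 2 := h2
      _ ≤ 2 * ∑ D ∈ Finset.Icc 1 E, (1 / (D : ℝ) ^ 2) * (nI d K * A D) := by
          refine mul_le_mul (total E) ?_ (Finset.sum_nonneg fun _ _ => by positivity)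
            (by norm_num)
          exact Finset.sum_le_sum fun D _ => mul_le_mul_of_nonneg_left (h3 D) (by positivity)
      _ = _ := by
          rw [mul_assoc, Finset.mul_sum]
          rw [Finset.mul_sum, Finset.mul_sum]
          refine Finset.sum_congr rfl fun D _ => by ring
  have hS0 : 0 ≤ ∑ D ∈ Finset.Icc 1 E, (1 / (D : ℝ) ^ 2) * A D :=
    Finset.sum_nonneg fun D _ => mul_nonneg (by positivity) (hA0 D)
  calc ∑ ia, ‖VPg d K z r1 r2 N j ia‖ ^ 2 ≤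
        ∑ ia : Cl d × (ZMod K × ZMod K), 2 * nI d K * ∑ D ∈ Finset.Icc 1 E,
          (1 / (D : ℝ) ^ 2) * A D := Finset.sum_le_sum fun ia _ => h1 ia
    _ = (Fintype.card (Cl d × (ZMod K × ZMod K)) : ℝ) * (2 * nI d K * ∑ D ∈ Finset.Icc 1 E,
          (1 / (D : ℝ) ^ 2) * A D) := by
        rw [Finset.sum_const, nsmul_eq_mul, Finset.card_univ]
    _ ≤ nI d K * (2 * nI d K * ∑ D ∈ Finset.Icc 1 E, (1 / (D : ℝ) ^ 2) * A D) := by
        refine mul_le_mul_of_nonneg_right ?_ (by positivity)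
        unfold nI
        linarith
    _ = _ := by ring

end UpG70

open UpG70 in
theorem stUpG_70 (d K : ℕ) [NeZero K] (hU : StUallG d K) (hH : StHmuG d K) : StUpG d K := by
  classical
  intro z hz r1 r2 hr1 hr2
  have hPar := stParG_29 (d := d) (K := K)
  have hr20 : 0 < r2 := lt_of_le_of_lt hr1 hr2
  obtain ⟨cu, hcu, hUa⟩ := hU z hz r1 r2 hr1 hr2
  obtain ⟨ch', C, N1, hch, hC, hN1, hHm⟩ := hH r1 r2 hr1 hr2
  set c := min (min (cu / 2) (ch' / 2)) (1 / 8 : ℝ) with hc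
  have hc0 : 0 < c := by positivity
  have hc1 : c ≤ cu / 2 := (min_le_left _ _).trans (min_le_left _ _)
  have hc2 : c ≤ ch' / 2 := (min_le_left _ _).trans (min_le_right _ _)
  have hc3 : c ≤ 1 / 8 := min_le_right _ _
  refine ⟨c / 2, by positivity, fun ε0 hε0 => ?_⟩
  have hn1 := nI_pos d K
  set n := nI d K with hn
  -- work with `ε`
  set ε := ε0 / n ^ 2 with hεd
  have hε : 0 < ε := by positivity
  obtain ⟨N2, hN2⟩ := hUa (ε / 16) (by positivity)
  obtain ⟨D0, hD0⟩ := exists_nat_gt (16 * C / ε)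
  have hD00 : (0 : ℝ) < D0 := lt_trans (by positivity) hD0
  have hD0n : 0 < D0 := by exact_mod_cast hD00
  have hCD : C / D0 ≤ ε / 16 := by
    rw [div_lt_iff₀ hε] at hD0
    rw [div_le_iff₀ hD00]
    linarith
  set T := (CT d * r2) ^ 2 with hT
  have hT0 : 0 ≤ T := by positivity
  have hev : ∀ᶠ N : ℝ in atTop, max N1 N2 ≤ N ^ (1 / 2 : ℝ) ∧ (D0 : ℝ) ≤ N ^ (1 / 4 : ℝ) ∧
      1 ≤ N ∧ 2 * T * 16 / ε ≤ N ^ (1 / 8 : ℝ) ∧ n ≤ N ^ (c / 2) := by
    have t1 := (tendsto_rpow_atTop (show (0 : ℝ) < 1 / 2 by norm_num)).eventually_ge_atTop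
      (max N1 N2)
    have t2 := (tendsto_rpow_atTop (show (0 : ℝ) < 1 / 4 by norm_num)).eventually_ge_atTop
      (D0 : ℝ)
    have t3 := (tendsto_rpow_atTop (show (0 : ℝ) < 1 / 8 by norm_num)).eventually_ge_atTop
      (2 * T * 16 / ε)
    have t4 := (tendsto_rpow_atTop (show (0 : ℝ) < c / 2 by positivity)).eventually_ge_atTop n
    filter_upwards [t1, t2, t3, t4, eventually_ge_atTop (1 : ℝ)] with N a1 a2 a3 a4 a5
    exact ⟨a1, a2, a5, a3, a4⟩
  obtain ⟨N0, hN0⟩ := eventually_atTop.1 hev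
  refine ⟨N0, fun N hN U0 hU0c h00 hU0j => ?_⟩
  obtain ⟨g1, g2, g3, g4, g5⟩ := hN0 N hN
  have hNp : 0 < N := by linarith
  -- full fibres
  set J : Finset ℤ := U0.image Sigma.fst with hJ
  set U : Finset (Fq d K) := J.sigma (fun _ => Finset.univ) with hUd
  have hUsub : U0 ⊆ U := by
    intro w hw
    rw [hUd, Finset.mem_sigma]
    exact ⟨Finset.mem_image_of_mem _ hw, Finset.mem_univ _⟩
  have hUfst : ∀ w ∈ U, ∃ w' ∈ U0, w'.1 = w.1 := by
    intro w hw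
    rw [hUd, Finset.mem_sigma] at hw
    exact Finset.mem_image.1 hw.1
  have h0 : ∀ w ∈ U, w.1 ≠ 0 := by
    intro w hw
    obtain ⟨w', h1, h2⟩ := hUfst w hw
    rw [← h2]
    exact h00 w' h1
  have hUj : ∀ w ∈ U, |(w.1 : ℝ)| ≤ N := by
    intro w hw
    obtain ⟨w', h1, h2⟩ := hUfst w hw
    rw [← h2]
    exact hU0j w' h1
  have hUc : (U.card : ℝ) ≤ N ^ c := by
    have h1 : U.card ≤ J.card * Fintype.card (Cl d × (ZMod K × ZMod K)) := by
      rw [hUd, Finset.card_sigma]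
      refine (Finset.sum_le_card_nsmul J _ (Fintype.card (Cl d × (ZMod K × ZMod K)))
        fun j _ => ?_).trans (le_of_eq (smul_eq_mul _ _))
      rw [Finset.card_univ, Fintype.card_fin]
      have := mm_le (d := d) (K := K) j
      rw [Fintype.card_prod, Fintype.card_prod, ZMod.card]
      exact this
    have h2 : J.card ≤ U0.card := Finset.card_image_le
    have h3 : (U.card : ℝ) ≤ U0.card * n := by
      have h4 : U.card ≤ U0.card * Fintype.card (Cl d × (ZMod K × ZMod K)) :=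
        h1.trans (Nat.mul_le_mul_right _ h2)
      have h5 : (U.card : ℝ) ≤ U0.card * (Fintype.card (Cl d × (ZMod K × ZMod K)) : ℝ) := by
        exact_mod_cast h4
      refine h5.trans (mul_le_mul_of_nonneg_left ?_ (by positivity))
      rw [hn]
      unfold nI
      linarith
    calc (U.card : ℝ) ≤ U0.card * n := h3
      _ ≤ N ^ (c / 2) * N ^ (c / 2) := mul_le_mul hU0c g5 (by positivity) (by positivity)
      _ = N ^ c := by
          rw [← Real.rpow_add hNp]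
          congr 1
          ring
  set E := ⌊N ^ (1 / 4 : ℝ)⌋₊ with hE
  have hE1 : (E : ℝ) ≤ N ^ (1 / 4 : ℝ) := Nat.floor_le (by positivity)
  have h14 : 1 ≤ N ^ (1 / 4 : ℝ) := Real.one_le_rpow g3 (by norm_num)
  have hE2 : N ^ (1 / 4 : ℝ) / 2 ≤ E := by
    have h1 : N ^ (1 / 4 : ℝ) < E + 1 := Nat.lt_floor_add_one _
    have h2 : (1 : ℝ) ≤ E := by
      have : 1 ≤ E := Nat.le_floor (by exact_mod_cast h14)
      exact_mod_cast this
    linarith
  have hE0 : (0 : ℝ) < E := lt_of_lt_of_le (by positivity) hE2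
  have hEn : 0 < E := by exact_mod_cast hE0
  -- small `D`
  have hsq : N ^ (1 / 4 : ℝ) * N ^ (1 / 4 : ℝ) = N ^ (1 / 2 : ℝ) := by
    rw [← Real.rpow_add hNp]
    norm_num
  have hsq2 : N ^ (1 / 2 : ℝ) * N ^ (1 / 2 : ℝ) = N := by
    rw [← Real.rpow_add hNp]
    norm_num
  have hsmall : ∀ D : ℕ, 1 ≤ D → D ≤ E → N ^ (1 / 2 : ℝ) ≤ N / (D : ℝ) ^ 2 := by
    intro D hd1 hd2
    have hd0 : (0 : ℝ) < D := by exact_mod_cast hd1
    have h1 : (D : ℝ) ≤ N ^ (1 / 4 : ℝ) := le_trans (by exact_mod_cast hd2) hE1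
    rw [le_div_iff₀ (by positivity)]
    calc N ^ (1 / 2 : ℝ) * (D : ℝ) ^ 2 ≤ N ^ (1 / 2 : ℝ) * N ^ (1 / 2 : ℝ) := by
          refine mul_le_mul_of_nonneg_left ?_ (by positivity)
          rw [sq, ← hsq]
          exact mul_le_mul h1 h1 hd0.le (by positivity)
      _ = N := hsq2
  have h12 : 1 ≤ N ^ (1 / 2 : ℝ) := Real.one_le_rpow g3 (by norm_num)
  have hpow : ∀ x : ℝ, N ^ (1 / 2 : ℝ) ≤ x → ∀ e : ℝ, 0 < e → c ≤ e / 2 →
      (U.card : ℝ) ≤ x ^ e := by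
    intro x hx e he hce
    calc (U.card : ℝ) ≤ N ^ c := hUc
      _ ≤ N ^ (e / 2) := Real.rpow_le_rpow_of_exponent_le g3 hce
      _ = (N ^ (1 / 2 : ℝ)) ^ e := by
          rw [← Real.rpow_mul hNp.le]
          congr 1
          ring
      _ ≤ x ^ e := Real.rpow_le_rpow (by positivity) hx he.le
  set S : ℕ → ℝ := fun D => ∑ w ∈ U, ‖Mag z r1 r2 (N / (D : ℝ) ^ 2) w‖ ^ 2 with hS
  have hS0 : ∀ D, 0 ≤ S D := fun D => Finset.sum_nonneg fun _ _ => by positivity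
  -- the three ranges
  have hS1 : ∀ D : ℕ, 1 ≤ D → D ≤ D0 → S D ≤ ε / 16 := by
    intro D hd1 hd2
    have hdE : D ≤ E := hd2.trans (Nat.le_floor g2)
    have h1 := hsmall D hd1 hdE
    refine hN2 _ (((le_max_right _ _).trans g1).trans h1) U (hpow _ h1 cu hcu hc1) h0 ?_
    intro j hj
    refine (hUj j hj).trans ?_
    calc N = N ^ (1 / 2 : ℝ) * N ^ (1 / 2 : ℝ) := hsq2.symm
      _ ≤ (N / (D : ℝ) ^ 2) * (N / (D : ℝ) ^ 2) := mul_le_mul h1 h1 (by positivity)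
          (by positivity)
      _ = (N / (D : ℝ) ^ 2) ^ 2 := by ring
  have hS2 : ∀ D : ℕ, 1 ≤ D → D ≤ E → S D ≤ C := by
    intro D hd1 hdE
    have h1 := hsmall D hd1 hdE
    have h2 : 1 ≤ N / (D : ℝ) ^ 2 := h12.trans h1
    exact hHm _ (((le_max_left _ _).trans g1).trans h1) U (hpow _ h1 ch' hch hc2)
      (fun j hj => by
        refine (hUj j hj).trans ?_
        calc N = N ^ (1 / 2 : ℝ) * N ^ (1 / 2 : ℝ) := hsq2.symm
          _ ≤ (N / (D : ℝ) ^ 2) * (N / (D : ℝ) ^ 2) := mul_le_mul h1 h1 (by positivity)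
              (by positivity)
          _ = (N / (D : ℝ) ^ 2) ^ 2 := by ring
          _ ≤ (N / (D : ℝ) ^ 2) ^ 4 := pow_le_pow_right₀ h2 (by norm_num))
      (fun i v => gz z (rep i) v) (fun i v => (norm_gz hz _ _).le)
  have hS3 : ∀ D : ℕ, 1 ≤ D → S D ≤ N ^ (1 / 8 : ℝ) * T := by
    intro D hd1
    have hd0 : (0 : ℝ) < D := by exact_mod_cast hd1
    calc S D ≤ ∑ w ∈ U, T := Finset.sum_le_sum fun w _ =>
          pow_le_pow_left₀ (norm_nonneg _) (ma_le hz r1 r2 _ w (by positivity) hr20.le) 2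
      _ = (U.card : ℝ) * T := by
          rw [Finset.sum_const, nsmul_eq_mul]
      _ ≤ N ^ (1 / 8 : ℝ) * T := by
          refine mul_le_mul_of_nonneg_right ?_ hT0
          exact hUc.trans (Real.rpow_le_rpow_of_exponent_le g3 hc3)
  -- the sum
  set Dm := ⌈r2 * N⌉₊ with hDd
  have hDle : r2 * N ≤ Dm := Nat.le_ceil _
  have hterm : ∀ D ∈ Finset.Icc 1 Dm, (1 / (D : ℝ) ^ 2) * S D ≤ (1 / (D : ℝ) ^ 2) * (ε / 16) +
      (if D0 < D then 1 / (D : ℝ) ^ 2 else 0) * C +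
      (if E < D then 1 / (D : ℝ) ^ 2 else 0) * (N ^ (1 / 8 : ℝ) * T) := by
    intro D hd
    have hd1 := (Finset.mem_Icc.1 hd).1
    have hd0 : (0 : ℝ) < D := by exact_mod_cast hd1
    have p1 : 0 ≤ (1 / (D : ℝ) ^ 2) * (ε / 16) := by positivity
    have p2 : 0 ≤ (if D0 < D then 1 / (D : ℝ) ^ 2 else 0) * C := by
      split_ifs
      · positivity
      · rw [zero_mul]
    have p3 : 0 ≤ (if E < D then 1 / (D : ℝ) ^ 2 else 0) * (N ^ (1 / 8 : ℝ) * T) := by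
      split_ifs
      · positivity
      · rw [zero_mul]
    rcases Nat.lt_or_ge D0 D with h1 | h1
    · rcases Nat.lt_or_ge E D with h2 | h2
      · rw [if_pos h2] at p3 ⊢
        have := mul_le_mul_of_nonneg_left (hS3 D hd1) (show 0 ≤ 1 / (D : ℝ) ^ 2 by positivity)
        linarith
      · rw [if_pos h1] at p2 ⊢
        have := mul_le_mul_of_nonneg_left (hS2 D hd1 h2) (show 0 ≤ 1 / (D : ℝ) ^ 2 by positivity)
        linarith
    · have := mul_le_mul_of_nonneg_left (hS1 D hd1 h1) (show 0 ≤ 1 / (D : ℝ) ^ 2 by positivity)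
      linarith
  have hsum : ∑ D ∈ Finset.Icc 1 Dm, (1 / (D : ℝ) ^ 2) * S D ≤ ε / 2 := by
    refine (Finset.sum_le_sum hterm).trans ?_
    rw [Finset.sum_add_distrib, Finset.sum_add_distrib, ← Finset.sum_mul, ← Finset.sum_mul,
      ← Finset.sum_mul]
    have q1 := mul_le_mul_of_nonneg_right (total Dm) (show 0 ≤ ε / 16 by positivity)
    have q2 : (∑ D ∈ Finset.Icc 1 Dm, if D0 < D then 1 / (D : ℝ) ^ 2 else 0) * C ≤ ε / 16 := by
      have := mul_le_mul_of_nonneg_right (tail D0 Dm hD0n) hC.le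
      refine this.trans (le_trans (le_of_eq ?_) hCD)
      ring
    have q3 : (∑ D ∈ Finset.Icc 1 Dm, if E < D then 1 / (D : ℝ) ^ 2 else 0) *
        (N ^ (1 / 8 : ℝ) * T) ≤ ε / 16 := by
      have := mul_le_mul_of_nonneg_right (tail E Dm hEn)
        (show 0 ≤ N ^ (1 / 8 : ℝ) * T by positivity)
      refine this.trans ?_
      have h1 : (1 : ℝ) / E ≤ 2 / N ^ (1 / 4 : ℝ) := by
        rw [div_le_div_iff₀ hE0 (by positivity)]
        linarith
      have h2 : N ^ (1 / 8 : ℝ) * N ^ (1 / 8 : ℝ) = N ^ (1 / 4 : ℝ) := by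
        rw [← Real.rpow_add hNp]
        norm_num
      have h3 : (0 : ℝ) < N ^ (1 / 8 : ℝ) := by positivity
      calc 1 / (E : ℝ) * (N ^ (1 / 8 : ℝ) * T) ≤
            2 / N ^ (1 / 4 : ℝ) * (N ^ (1 / 8 : ℝ) * T) :=
            mul_le_mul_of_nonneg_right h1 (by positivity)
        _ = 2 * T / N ^ (1 / 8 : ℝ) := by
            rw [← h2]
            field_simp
        _ ≤ ε / 16 := by
            rw [div_le_div_iff₀ h3 (by norm_num)]
            rw [div_le_iff₀ hε] at g4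
            linarith
    linarith
  -- all together
  have e1 : ∀ (F : Fq d K → ℝ), ∑ w ∈ U, F w = ∑ j ∈ J, ∑ k, F ⟨j, k⟩ := by
    intro F
    rw [hUd, Finset.sum_sigma]
  have e2 : ∀ D : ℕ, S D = ∑ j ∈ J, ∑ ib, ‖VAg d K z r1 r2 (N / (D : ℝ) ^ 2) j ib‖ ^ 2 := by
    intro D
    rw [hS]
    simp only []
    rw [e1]
    exact Finset.sum_congr rfl fun j _ => (hPar z r1 r2 (N / (D : ℝ) ^ 2) j).2.2.1
  calc ∑ w ∈ U0, ‖Mpg z r1 r2 N w‖ ^ 2 ≤ ∑ w ∈ U, ‖Mpg z r1 r2 N w‖ ^ 2 :=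
        Finset.sum_le_sum_of_subset_of_nonneg hUsub fun _ _ _ => by positivity
    _ = ∑ j ∈ J, ∑ ia, ‖VPg d K z r1 r2 N j ia‖ ^ 2 := by
        rw [e1]
        exact Finset.sum_congr rfl fun j _ => (hPar z r1 r2 N j).2.2.2
    _ ≤ ∑ j ∈ J, 2 * n ^ 2 * ∑ D ∈ Finset.Icc 1 Dm, (1 / (D : ℝ) ^ 2) *
        ∑ ib, ‖VAg d K z r1 r2 (N / (D : ℝ) ^ 2) j ib‖ ^ 2 :=
        Finset.sum_le_sum fun j _ => one_freq hz r1 r2 N j hNp Dm hDle
    _ = 2 * n ^ 2 * ∑ D ∈ Finset.Icc 1 Dm, (1 / (D : ℝ) ^ 2) * S D := by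
        rw [← Finset.mul_sum, Finset.sum_comm]
        congr 1
        refine Finset.sum_congr rfl fun D _ => ?_
        rw [e2, Finset.mul_sum]
    _ ≤ 2 * n ^ 2 * (ε / 2) := mul_le_mul_of_nonneg_left hsum (by positivity)
    _ = ε0 := by
        rw [hεd]
        field_simp

end Pool.Agent.Lib.MP_a17b09_nt.MRSG
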