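import Pool.Agent.Lib.MP_a17b09_nt.MRSG.StructC17
import Pool.Agent.Lib.MP_a17b09_nt.MRS.TkG84

/-!
MRSG (MP_a17b09_nt): the inequality of Turan and Kubilius for the primes `(p, ±)` of a class of
forms, and its consequence (PWTG) for the vectors of shells.
-/

set_option autoImplicit false

open Finset

namespace Pool.Agent.Lib.MP_a17b09_nt.MRSG.PwtG84

open CH CH.PE

theorem im_iff {d K : ℕ} {P : ℕ × Bool} (h : Adm d K P) (i : Cl d) (v : V) :
    MRS.LatU84.Im (Mg d P i) v ↔ Eig P.1 (rg d P) (rep i) v := by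
  rw [adm_eig_iff h i]
  constructor
  · rintro ⟨u, hu⟩
    exact ⟨u, hu.symm⟩
  · rintro ⟨u, hu⟩
    exact ⟨u, hu.symm⟩

/-- the images of a prime and of its conjugate are different -/
theorem img_ne {d K : ℕ} {P P' : ℕ × Bool} (h : Adm d K P) (h' : Adm d K P') (hne : P ≠ P')
    (hp : P.1 = P'.1) (i : Cl d) : ∃ u, ¬ MRS.LatU84.Im (Mg d P' i) ((Mg d P i).app u) := by
  by_contra hcon
  push Not at hcon
  have hb : P.2 ≠ P'.2 := fun hb => hne (Prod.ext hp hb)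
  have hrr : rg d P' = -rg d P := by
    unfold rg
    rw [← hp]
    cases h1 : P.2 <;> cases h2 : P'.2 <;> simp_all
  obtain ⟨hr, R⟩ := rel_g h i
  have hpp : Prime (P.1 : ℤ) := Nat.prime_iff_prime_int.1 h.1
  have key : ∀ u, (P.1 : ℤ) ∣ ((Mg d P i).app u).1 ∧ (P.1 : ℤ) ∣ ((Mg d P i).app u).2 := by
    intro u
    have h1 := R.eig u
    have h2 := (im_iff h' i ((Mg d P i).app u)).1 (hcon u)
    rw [← hp, hrr] at h2
    exact (eig_both hpp hr).1 ⟨h1, h2⟩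
  have k1 := key (1, 0)
  have k2 := key (0, 1)
  unfold Mat.app at k1 k2
  simp only [mul_one, mul_zero, add_zero, zero_add] at k1 k2
  obtain ⟨⟨a, ha⟩, ⟨c, hc⟩⟩ := k1
  obtain ⟨⟨b, hb'⟩, ⟨e, he⟩⟩ := k2
  have hdet := R.det
  unfold Mat.det at hdet
  rw [ha, hc, hb', he] at hdet
  have h3 : (P.1 : ℤ) * 1 = P.1 * (P.1 * (a * e - b * c)) := by
    rw [mul_one]
    linear_combination -hdet
  have h4 := mul_left_cancel₀ hpp.ne_zero h3
  exact hpp.not_isUnit (isUnit_of_dvd_one ⟨_, h4⟩)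

theorem fib_le (PP : Finset (ℕ × Bool)) (n : ℕ) : (PP.filter (fun P => P.1 = n)).card ≤ 2 := by
  have h1 : PP.filter (fun P => P.1 = n) ⊆ {(n, true), (n, false)} := by
    rintro ⟨p, b⟩ hP
    rw [Finset.mem_filter] at hP
    obtain ⟨-, h2⟩ := hP
    simp only at h2
    subst h2
    cases b <;> simp
  exact (Finset.card_le_card h1).trans Finset.card_le_two

open Classical in
/-- **Turan and Kubilius for the primes of a class** -/
theorem tkE {d K : ℕ} (i : Cl d) (X : ℕ) (hX : 1 ≤ X) (PP : Finset (ℕ × Bool))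
    (hPP : ∀ P ∈ PP, Adm d K P ∧ P.1 ^ 2 ≤ X) (c : ℕ × Bool → ℂ) :
    ∑ v ∈ (rep i).ball X, ‖∑ P ∈ PP, c P *
      ((if Eig P.1 (rg d P) (rep i) v then 1 else 0) - 1 / (P.1 : ℂ))‖ ^ 2 ≤
      4000 * X * ∑ P ∈ PP, ‖c P‖ ^ 2 / (P.1 : ℝ) := by
  have h := MRS.TkG84.tkG (rep i) (rep_pos i) X hX PP (fun P => P.1) (fun P => Mg d P i)
    (fun P hP => (hPP P hP).1.1) (fun P hP => (rel_g (hPP P hP).1 i).2.det)
    (fun P hP u => by
      rw [(rel_g (hPP P hP).1 i).2.sim]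
      exact Dvd.intro _ rfl)
    (fun P hP => (hPP P hP).2)
    (fun P hP P' hP' hne hp => img_ne (hPP P hP).1 (hPP P' hP').1 hne hp i)
    (fun n => fib_le PP n) c
  refine le_trans (le_of_eq ?_) h
  refine Finset.sum_congr rfl fun v _ => ?_
  congr 2
  refine Finset.sum_congr rfl fun P hP => ?_
  congr 2
  have h1 := im_iff (hPP P hP).1 i v
  by_cases h2 : Eig P.1 (rg d P) (rep i) v
  · rw [if_pos h2, if_pos (h1.2 h2)]
  · rw [if_neg h2, if_neg (fun h3 => h2 (h1.1 h3))]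

theorem ball_le (Q : Form) (hQ : Q.Pos) (X : ℕ) (hX : 1 ≤ X) : ((Q.ball X).card : ℝ) ≤ 38 * X := by
  have h1 := MRS.LatU84.latU Q hQ X
  have h2 := MRS.LatU84.kap_le Q hQ
  rw [abs_le] at h1
  have hx : (1 : ℝ) ≤ X := by exact_mod_cast hX
  have h3 : √(X : ℝ) ≤ X := by
    rw [Real.sqrt_le_left (by linarith)]
    nlinarith
  nlinarith [h1.2]

theorem phase (z : ℂ) : ∃ w : ℂ, ‖w‖ ≤ 1 ∧ w * z = (‖z‖ : ℂ) := by
  rcases eq_or_ne z 0 with h0 | h0
  · refine ⟨0, by simp, by rw [h0]; simp⟩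
  · have hz : (‖z‖ : ℂ) ≠ 0 := by exact_mod_cast (norm_ne_zero_iff.2 h0)
    refine ⟨(starRingEnd ℂ) z / ‖z‖, ?_, ?_⟩
    · rw [norm_div, Complex.norm_conj, Complex.norm_real, norm_norm, div_self]
      exact norm_ne_zero_iff.2 h0
    · have h1 : (starRingEnd ℂ) z * z = (‖z‖ : ℂ) ^ 2 := by
        rw [mul_comm, Complex.mul_conj, Complex.normSq_eq_norm_sq]
        push_cast
        rfl
      rw [div_mul_eq_mul_div, h1]
      field_simp

open Classical in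
/-- bounded functions on any set of vectors and the images of the primes -/
theorem pwt_set {d K : ℕ} (i : Cl d) (X : ℕ) (hX : 1 ≤ X) (PP : Finset (ℕ × Bool))
    (hPP : ∀ P ∈ PP, Adm d K P ∧ P.1 ^ 2 ≤ X) (S : Finset V) (hS : S ⊆ (rep i).ball X)
    (G : V → ℂ) (hG : ∀ v ∈ S, ‖G v‖ ≤ 1) :
    ∑ P ∈ PP, ‖(1 / (P.1 : ℂ)) * ∑ v ∈ S, G v -
      ∑ v ∈ S.filter (fun v => Eig P.1 (rg d P) (rep i) v), G v‖ ≤
      400 * X * √(∑ P ∈ PP, 1 / (P.1 : ℝ)) := by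
  choose w hw1 hw2 using phase
  set D : ℕ × Bool → ℂ := fun P => (1 / (P.1 : ℂ)) * ∑ v ∈ S, G v -
      ∑ v ∈ S.filter (fun v => Eig P.1 (rg d P) (rep i) v), G v with hD
  set c : ℕ × Bool → ℂ := fun P => w (D P) with hc
  set T : V → ℂ := fun v => ∑ P ∈ PP, c P *
      ((if Eig P.1 (rg d P) (rep i) v then 1 else 0) - 1 / (P.1 : ℂ)) with hT
  set L : ℝ := ∑ P ∈ PP, 1 / (P.1 : ℝ) with hL
  have hL0 : 0 ≤ L := Finset.sum_nonneg fun _ _ => by positivity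
  have hid : ((∑ P ∈ PP, ‖D P‖ : ℝ) : ℂ) = - ∑ v ∈ S, G v * T v := by
    have h1 : ∀ P ∈ PP, (‖D P‖ : ℂ) = - ∑ v ∈ S, G v * (c P *
        ((if Eig P.1 (rg d P) (rep i) v then 1 else 0) - 1 / (P.1 : ℂ))) := by
      intro P _
      rw [← hw2 (D P)]
      have h2 : D P = - ∑ v ∈ S, G v *
          ((if Eig P.1 (rg d P) (rep i) v then 1 else 0) - 1 / (P.1 : ℂ)) := by
        rw [hD]
        simp only
        rw [Finset.sum_filter, Finset.mul_sum, ← Finset.sum_neg_distrib, ← Finset.sum_sub_distrib]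
        refine Finset.sum_congr rfl fun v _ => ?_
        split_ifs <;> ring
      rw [show w (D P) * D P = c P * D P by rfl]
      conv_lhs => rw [h2]
      rw [mul_neg, Finset.mul_sum]
      congr 1
      refine Finset.sum_congr rfl fun v _ => ?_
      ring
    push_cast
    rw [Finset.sum_congr rfl h1, Finset.sum_neg_distrib, Finset.sum_comm]
    congr 1
    refine Finset.sum_congr rfl fun v _ => ?_
    rw [hT]
    simp only
    rw [Finset.mul_sum]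
  have hnn : 0 ≤ ∑ P ∈ PP, ‖D P‖ := Finset.sum_nonneg fun _ _ => norm_nonneg _
  have h1 : ∑ P ∈ PP, ‖D P‖ ≤ ∑ v ∈ (rep i).ball X, 1 * ‖T v‖ := by
    have h2 : ∑ P ∈ PP, ‖D P‖ = ‖((∑ P ∈ PP, ‖D P‖ : ℝ) : ℂ)‖ := by
      rw [Complex.norm_real, Real.norm_of_nonneg hnn]
    rw [h2, hid, norm_neg]
    calc _ ≤ ∑ v ∈ S, ‖G v * T v‖ := norm_sum_le _ _
      _ ≤ ∑ v ∈ S, 1 * ‖T v‖ := by
          refine Finset.sum_le_sum fun v hv => ?_
          rw [norm_mul]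
          exact mul_le_mul_of_nonneg_right (hG v hv) (norm_nonneg _)
      _ ≤ _ := Finset.sum_le_sum_of_subset_of_nonneg hS fun _ _ _ => by positivity
  have hcs := Finset.sum_mul_sq_le_sq_mul_sq ((rep i).ball X) (fun _ => (1 : ℝ))
    (fun v => ‖T v‖)
  have hcard : ∑ v ∈ (rep i).ball X, (1 : ℝ) ^ 2 ≤ 38 * X := by
    simp only [one_pow, Finset.sum_const, nsmul_eq_mul, mul_one]
    exact ball_le _ (rep_pos i) X hX
  have htk := tkE i X hX PP hPP c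
  have h3 : ∑ P ∈ PP, ‖c P‖ ^ 2 / (P.1 : ℝ) ≤ L := by
    refine Finset.sum_le_sum fun P _ => ?_
    have h4 : ‖c P‖ ^ 2 ≤ 1 := by
      have := hw1 (D P)
      have h5 := norm_nonneg (c P)
      have h6 : ‖c P‖ ≤ 1 := this
      nlinarith
    gcongr
  have hX0 : (0 : ℝ) ≤ X := Nat.cast_nonneg X
  have h5 : (∑ P ∈ PP, ‖D P‖) ^ 2 ≤ (400 * X * √L) ^ 2 := by
    calc (∑ P ∈ PP, ‖D P‖) ^ 2 ≤ (∑ v ∈ (rep i).ball X, 1 * ‖T v‖) ^ 2 :=
          pow_le_pow_left₀ hnn h1 2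
      _ ≤ (∑ v ∈ (rep i).ball X, (1 : ℝ) ^ 2) * ∑ v ∈ (rep i).ball X, ‖T v‖ ^ 2 := hcs
      _ ≤ (38 * X) * (4000 * X * L) := by
          apply mul_le_mul hcard (htk.trans _) (Finset.sum_nonneg fun _ _ => by positivity)
            (by positivity)
          gcongr
      _ = 152000 * X ^ 2 * L := by ring
      _ ≤ 160000 * X ^ 2 * L := by gcongr; norm_num
      _ = (400 * X * √L) ^ 2 := by
          rw [mul_pow, Real.sq_sqrt hL0]
          ring
  exact (abs_le_of_sq_le_sq' h5 (by positivity)).2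

section vectors

variable {d K : ℕ} [NeZero K]

theorem norm_gz {z : ℂ} (hz : ‖z‖ = 1) (Q : Form) (v : V) : ‖gz z Q v‖ = 1 := by
  unfold gz
  rw [norm_pow, hz, one_pow]

theorem norm_gj {z : ℂ} (hz : ‖z‖ = 1) (j : ℤ) {Q : Form} (hQ : Q.Pos) {v : V} (hv : v ≠ 0) :
    ‖gj z j Q v‖ = 1 := by
  unfold gj
  rw [norm_mul, norm_gz hz, norm_zpow, norm_uu hQ hv, one_zpow, one_mul]

/-- **(PWTG), entries**, any frequency, any shell -/
theorem pwt_entry {z : ℂ} (hz : ‖z‖ = 1) (j : ℤ) (X : ℝ) (hX : 1 ≤ X) (PP : Finset (ℕ × Bool))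
    (hPP : ∀ P ∈ PP, Adm d K P ∧ (P.1 : ℝ) ^ 2 ≤ X) (a b : ℝ) (hb : b ≤ X)
    (i : Cl d) (α : ZMod K × ZMod K) :
    ∑ P ∈ PP, ‖(1 / (P.1 : ℂ)) * VS d K z j a b (i, α) -
      z * Ug d K P j (VS d K z j (a / P.1) (b / P.1)) (i, α)‖ ≤
      400 * X * √(∑ P ∈ PP, 1 / (P.1 : ℝ)) := by
  classical
  have hX0 : 0 ≤ X := by linarith
  have hfl : (⌊X⌋₊ : ℝ) ≤ X := Nat.floor_le hX0
  have h1 := pwt_set (d := d) (K := K) i ⌊X⌋₊ (Nat.le_floor (by simpa using hX)) PP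
    (fun P hP => ⟨(hPP P hP).1, Nat.le_floor (by push_cast; exact (hPP P hP).2)⟩)
    ((shQ (rep i) a b).filter (fun v => cl K v = α)) (fun v hv => ?_) (gj z j (rep i))
    (fun v hv => ?_)
  · refine le_trans (le_of_eq ?_) (h1.trans (by gcongr))
    refine Finset.sum_congr rfl fun P hP => ?_
    rw [← VS_img (hPP P hP).1 z j a b i α, Finset.filter_filter]
    rfl
  · rw [Finset.mem_filter, mem_shQ (rep_pos i)] at hv
    rw [Form.mem_ball (rep_pos i)]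
    have h2 : ((rep i).q v : ℝ) ≤ X := hv.1.2.2.trans hb
    have h3 : (rep i).q v ≤ ⌊X⌋ := Int.le_floor.2 h2
    rwa [← Int.natCast_floor_eq_floor hX0] at h3
  · rw [Finset.mem_filter, mem_shQ (rep_pos i)] at hv
    exact (norm_gj hz j (rep_pos i) hv.1.1).le

theorem norm_bv_entry (j : ℤ) (k : Fin (mm d K j)) (ia : Cl d × (ZMod K × ZMod K)) :
    ‖(bv d K j k : Hs d K) ia‖ ≤ 1 := by
  have h1 := norm_bv (d := d) (K := K) j k
  have h2 := EuclideanSpace.norm_sq_eq (bv d K j k : Hs d K)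
  rw [h1, one_pow] at h2
  have h3 : ‖(bv d K j k : Hs d K) ia‖ ^ 2 ≤ 1 := by
    rw [h2]
    exact Finset.single_le_sum (f := fun ia => ‖(bv d K j k : Hs d K) ia‖ ^ 2)
      (fun _ _ => sq_nonneg _) (Finset.mem_univ ia)
  have h4 := norm_nonneg ((bv d K j k : Hs d K) ia)
  nlinarith

theorem norm_co_le (j : ℤ) (k : Fin (mm d K j)) (x : Hs d K) : ‖co d K j k x‖ ≤ ∑ ia, ‖x ia‖ := by
  rw [co_eq]
  refine (norm_sum_le _ _).trans (Finset.sum_le_sum fun ia _ => ?_)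
  rw [norm_mul, Complex.norm_conj]
  have h1 := norm_bv_entry j k ia
  have h2 := norm_nonneg (x ia)
  nlinarith

/-- **(PWTG), coordinates**, any frequency, any shell -/
theorem pwt_co {z : ℂ} (hz : ‖z‖ = 1) (j : ℤ) (X : ℝ) (hX : 1 ≤ X) (PP : Finset (ℕ × Bool))
    (hPP : ∀ P ∈ PP, Adm d K P ∧ (P.1 : ℝ) ^ 2 ≤ X) (a b : ℝ) (hb : b ≤ X)
    (k : Fin (mm d K j)) :
    ∑ P ∈ PP, ‖(1 / (P.1 : ℂ)) * co d K j k (VS d K z j a b) -
      z * cv d K P j k * co d K j k (VS d K z j (a / P.1) (b / P.1))‖ ≤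
      (Fintype.card (Cl d) * (K * K) : ℕ) * (400 * X * √(∑ P ∈ PP, 1 / (P.1 : ℝ))) := by
  have h1 : ∀ P ∈ PP, ‖(1 / (P.1 : ℂ)) * co d K j k (VS d K z j a b) -
      z * cv d K P j k * co d K j k (VS d K z j (a / P.1) (b / P.1))‖ ≤
      ∑ ia : Cl d × (ZMod K × ZMod K), ‖(1 / (P.1 : ℂ)) * VS d K z j a b ia -
        z * Ug d K P j (VS d K z j (a / P.1) (b / P.1)) ia‖ := by
    intro P hP
    have h2 := norm_co_le j k ((1 / (P.1 : ℂ)) • VS d K z j a b -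
      z • Ug d K P j (VS d K z j (a / P.1) (b / P.1)))
    rw [co_sub, co_smul, co_smul, co_Ug (hPP P hP).1] at h2
    rw [mul_assoc]
    exact h2
  refine (Finset.sum_le_sum h1).trans ?_
  rw [Finset.sum_comm]
  have h3 : ∀ ia : Cl d × (ZMod K × ZMod K), ∑ P ∈ PP,
      ‖(1 / (P.1 : ℂ)) * VS d K z j a b ia -
        z * Ug d K P j (VS d K z j (a / P.1) (b / P.1)) ia‖ ≤
      400 * X * √(∑ P ∈ PP, 1 / (P.1 : ℝ)) := fun ia =>
    pwt_entry hz j X hX PP hPP a b hb ia.1 ia.2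
  refine (Finset.sum_le_sum fun ia _ => h3 ia).trans (le_of_eq ?_)
  rw [Finset.sum_const, Finset.card_univ, Fintype.card_prod, Fintype.card_prod, ZMod.card,
    nsmul_eq_mul]

end vectors

end Pool.Agent.Lib.MP_a17b09_nt.MRSG.PwtG84
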