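import Pool.Agent.Lib.MP_a17b09_nt.MRSG.StructB17
import Pool.Agent.Lib.MP_a17b09_nt.MRS.Glue90

/-!
Project MRSG (Matomaki-Radziwill in thin sectors for every negative discriminant): statements.
The general form of `MRS/Stmts3`.  The frequencies are the pairs `w = (j, k)`, `k` the index of a
joint eigenvector of `E_j` (`StructB17`); `ch w i v` is the eigenfunction on the vectors of the class
`i`, with `ch w i (M_P u) = cw P w * ch w (s_P i) u` (`ch_M`).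
-/

set_option autoImplicit false

open Filter Topology Finset

namespace Pool.Agent.Lib.MP_a17b09_nt.MRSG

open CH CH.PE

section defs

variable {d K : ℕ} [NeZero K]

/-- frequencies -/
abbrev Fq (d K : ℕ) [NeZero K] : Type := Σ j : ℤ, Fin (mm d K j)

/-- frequencies with `|j| ≤ J` -/
noncomputable def SJ (d K : ℕ) [NeZero K] (J : ℕ) : Finset (Fq d K) :=
  (Finset.Icc (-(J : ℤ)) J).sigma fun _ => Finset.univ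

theorem mem_SJ {J : ℕ} {w : Fq d K} : w ∈ SJ d K J ↔ -(J : ℤ) ≤ w.1 ∧ w.1 ≤ J := by
  unfold SJ
  rw [Finset.mem_sigma, Finset.mem_Icc]
  simp

/-- sums over frequencies -/
theorem sum_SJ (J : ℕ) (f : Fq d K → ℝ) :
    ∑ w ∈ SJ d K J, f w = ∑ j ∈ Finset.Icc (-(J : ℤ)) J, ∑ k : Fin (mm d K j), f ⟨j, k⟩ := by
  unfold SJ
  rw [Finset.sum_sigma]

/-- the eigenfunction of the frequency `w` -/
noncomputable def ch (w : Fq d K) (i : Cl d) (v : V) : ℂ :=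
  (starRingEnd ℂ) ((bv d K w.1 w.2 : Hs d K) (i, cl K v)) * uu (rep i) v ^ w.1

/-- the eigenvalue of the prime `P` -/
noncomputable def cw (P : ℕ × Bool) (w : Fq d K) : ℂ := cv d K P w.1 w.2

/-- the eigenvalue of the scalar `n` -/
noncomputable def sw (n : (ZMod K)ˣ) (w : Fq d K) : ℂ := sv d K n w.1 w.2

theorem norm_cw {P : ℕ × Bool} (h : Adm d K P) (w : Fq d K) : ‖cw P w‖ = 1 := (bv_spec h w.1 w.2).1

theorem norm_sw (n : (ZMod K)ˣ) (w : Fq d K) : ‖sw n w‖ = 1 := (bv_spec_sc n w.1 w.2).1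

theorem cw_conj {p : ℕ} {b : Bool} (h : Adm d K (p, b)) (w : Fq d K) :
    cw (p, b) w * cw (p, !b) w = sw (ZMod.unitOfCoprime p h.cop) w := cv_conj h w.1 w.2

theorem bv_le (w : Fq d K) (ia : Cl d × (ZMod K × ZMod K)) :
    ‖(bv d K w.1 w.2 : Hs d K) ia‖ ≤ 1 := by
  have h1 := norm_bv (d := d) (K := K) w.1 w.2
  have h2 := EuclideanSpace.norm_sq_eq (bv d K w.1 w.2 : Hs d K)
  rw [h1] at h2
  have h3 : ‖(bv d K w.1 w.2 : Hs d K) ia‖ ^ 2 ≤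
      ∑ x, ‖(bv d K w.1 w.2 : Hs d K) x‖ ^ 2 :=
    Finset.single_le_sum (f := fun x => ‖(bv d K w.1 w.2 : Hs d K) x‖ ^ 2)
      (fun _ _ => by positivity) (Finset.mem_univ ia)
  have h4 := norm_nonneg ((bv d K w.1 w.2 : Hs d K) ia)
  nlinarith

theorem norm_ch_le (w : Fq d K) (i : Cl d) {v : V} (hv : v ≠ 0) : ‖ch w i v‖ ≤ 1 := by
  unfold ch
  rw [norm_mul, norm_zpow, norm_uu (rep_pos i) hv, one_zpow, mul_one, RCLike.norm_conj]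
  exact bv_le w _

/-- the eigenfunction equation -/
theorem ch_M {P : ℕ × Bool} (h : Adm d K P) (w : Fq d K) (i : Cl d) {v : V} (hv : v ≠ 0) :
    ch w i ((Mg d P i).app v) = cw P w * ch w (sg d P i) v := by
  obtain ⟨h1, h2⟩ := bv_spec h w.1 w.2
  have h3 : Ug d K P w.1 (bv d K w.1 w.2 : Hs d K) (i, cl K ((Mg d P i).app v)) =
      cw P w * (bv d K w.1 w.2 : Hs d K) (i, cl K ((Mg d P i).app v)) := by
    rw [h2]; rfl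
  rw [Ug_apply, cl_app', ai_az (unit_M h i)] at h3
  unfold ch
  rw [uu_M h i hv, cl_app', mul_zpow]
  set c := cw P w with hc
  set p := uu (rep i) ((Mg d P i).app (1, 0)) ^ w.1 with hp
  have hcc : c * (starRingEnd ℂ) c = 1 := by
    rw [Complex.mul_conj, Complex.normSq_eq_norm_sq, norm_cw h w]; norm_num
  have hpp : p * (starRingEnd ℂ) p = 1 := by
    rw [Complex.mul_conj, Complex.normSq_eq_norm_sq, hp, norm_phase h i w.1]; norm_num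
  have h4 := congrArg (starRingEnd ℂ) h3
  rw [map_mul, map_mul] at h4
  set A := (starRingEnd ℂ) ((bv d K w.1 w.2 : Hs d K) (i, az (Mg d P i) (cl K v))) with hA
  set B := (starRingEnd ℂ) ((bv d K w.1 w.2 : Hs d K) (sg d P i, cl K v)) with hB
  have h5 : A * p = c * B := by
    calc A * p = (c * (starRingEnd ℂ) c) * A * p := by rw [hcc, one_mul]
      _ = c * p * ((starRingEnd ℂ) c * A) := by ring
      _ = c * p * ((starRingEnd ℂ) p * B) := by rw [← h4]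
      _ = c * B * (p * (starRingEnd ℂ) p) := by ring
      _ = c * B := by rw [hpp, mul_one]
  calc A * (p * uu (rep (sg d P i)) v ^ w.1) = (A * p) * uu (rep (sg d P i)) v ^ w.1 := by ring
    _ = c * (B * uu (rep (sg d P i)) v ^ w.1) := by rw [h5]; ring

/-- scalars prime to `K` -/
theorem ch_smul {n : ℕ} (hn : 0 < n) (hc : Nat.Coprime n K) (w : Fq d K) (i : Cl d) (v : V) :
    ch w i ((n : ℤ) • v) = sw (ZMod.unitOfCoprime n hc) w * ch w i v := by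
  obtain ⟨h1, h2⟩ := bv_spec_sc (d := d) (ZMod.unitOfCoprime n hc) w.1 w.2
  have h3 : Rn d K (ZMod.unitOfCoprime n hc) (bv d K w.1 w.2 : Hs d K) (i, cl K ((n : ℤ) • v)) =
      sw (ZMod.unitOfCoprime n hc) w * (bv d K w.1 w.2 : Hs d K) (i, cl K ((n : ℤ) • v)) := by
    rw [h2]; rfl
  have h6 : sc (((ZMod.unitOfCoprime n hc)⁻¹ : (ZMod K)ˣ) : ZMod K) (cl K ((n : ℤ) • v)) =
      cl K v := by
    rw [cl_smul', sc_sc]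
    have : (((ZMod.unitOfCoprime n hc)⁻¹ : (ZMod K)ˣ) : ZMod K) * ((n : ℤ) : ZMod K) = 1 := by
      have h7 := Units.inv_mul (ZMod.unitOfCoprime n hc)
      rwa [ZMod.coe_unitOfCoprime, ← Int.cast_natCast] at h7
    rw [this, sc_one]
  rw [Rn_apply, h6] at h3
  unfold ch
  rw [uu_smul _ (by exact_mod_cast hn)]
  set s := sw (ZMod.unitOfCoprime n hc) w with hs
  have hss : s * (starRingEnd ℂ) s = 1 := by
    rw [Complex.mul_conj, Complex.normSq_eq_norm_sq, hs, norm_sw]; norm_num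
  have h4 := congrArg (starRingEnd ℂ) h3
  rw [map_mul] at h4
  rw [h4]
  linear_combination (-(starRingEnd ℂ) ((bv d K w.1 w.2 : Hs d K) (i, cl K ((n : ℤ) • v))) *
    uu (rep i) v ^ w.1) * hss

/-- the vector of the sums `∑ a_i(v) uu_i(v)^j` over the classes modulo `K` -/
noncomputable def vec (K : ℕ) [NeZero K] (S : Cl d → Finset V) (a : Cl d → V → ℂ) (j : ℤ) :
    Hs d K :=
  WithLp.toLp 2 (fun ia => ∑ v ∈ (S ia.1).filter (fun v => cl K v = ia.2),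
    a ia.1 v * uu (rep ia.1) v ^ j)

theorem vec_apply (S : Cl d → Finset V) (a : Cl d → V → ℂ) (j : ℤ) (i : Cl d)
    (α : ZMod K × ZMod K) : vec K S a j (i, α) =
    ∑ v ∈ (S i).filter (fun v => cl K v = α), a i v * uu (rep i) v ^ j := rfl

/-- the coordinate of `vec` -/
theorem co_vec (S : Cl d → Finset V) (a : Cl d → V → ℂ) (j : ℤ) (k : Fin (mm d K j)) :
    co d K j k (vec K S a j) = ∑ i, ∑ v ∈ S i, a i v * ch ⟨j, k⟩ i v := by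
  rw [co_eq, Fintype.sum_prod_type]
  refine Finset.sum_congr rfl fun i _ => ?_
  have h1 : ∀ α : ZMod K × ZMod K, (starRingEnd ℂ) ((bv d K j k : Hs d K) (i, α)) *
      vec K S a j (i, α) = ∑ v ∈ (S i).filter (fun v => cl K v = α), a i v * ch ⟨j, k⟩ i v := by
    intro α
    rw [vec_apply, Finset.mul_sum]
    refine Finset.sum_congr rfl fun v hv => ?_
    have h2 := (Finset.mem_filter.1 hv).2
    unfold ch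
    rw [h2]
    ring
  rw [Finset.sum_congr rfl fun α _ => h1 α]
  exact Finset.sum_fiberwise (S i) (fun v => cl K v) (fun v => a i v * ch ⟨j, k⟩ i v)

/-- nonzero vectors of the class `i` with `a < Q_i(v) ≤ b` -/
noncomputable def Shg (i : Cl d) (a b : ℝ) : Finset V :=
  ((rep i).ball ⌊b⌋₊).filter (fun v => v ≠ 0 ∧ a < (rep i).q v)

theorem mem_Shg {i : Cl d} {a b : ℝ} {v : V} :
    v ∈ Shg i a b ↔ v ≠ 0 ∧ a < (rep i).q v ∧ ((rep i).q v : ℝ) ≤ b := by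
  unfold Shg
  rw [Finset.mem_filter, Form.mem_ball (rep_pos i)]
  constructor
  · rintro ⟨h1, h2, h3⟩
    refine ⟨h2, h3, ?_⟩
    have h4 := (rep_pos i).q_pos h2
    have h5 : 0 < ⌊b⌋₊ := by
      by_contra h6
      have : ⌊b⌋₊ = 0 := by omega
      rw [this] at h1
      push_cast at h1
      omega
    have h6 : (0 : ℝ) ≤ b := by
      by_contra h7
      rw [Nat.floor_of_nonpos (by linarith)] at h5
      omega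
    have h8 : ((rep i).q v : ℝ) ≤ (⌊b⌋₊ : ℝ) := by exact_mod_cast h1
    exact h8.trans (Nat.floor_le h6)
  · rintro ⟨h1, h2, h3⟩
    refine ⟨?_, h1, h2⟩
    have h4 := (rep_pos i).q_pos h1
    obtain ⟨m, hm⟩ := Int.eq_ofNat_of_zero_le h4.le
    rw [hm] at h3 ⊢
    have h5 : m ≤ ⌊b⌋₊ := Nat.le_floor (by exact_mod_cast h3)
    exact_mod_cast h5

/-- the vector of the shell sums over all vectors -/
noncomputable def VAg (d K : ℕ) [NeZero K] (z : ℂ) (r1 r2 N : ℝ) (j : ℤ) : Hs d K :=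
  vec K (fun i => Shg i (r1 * N) (r2 * N)) (fun i v => (1 / (N : ℂ)) * gz z (rep i) v) j

/-- the vector of the shell sums over the primitive vectors -/
noncomputable def VPg (d K : ℕ) [NeZero K] (z : ℂ) (r1 r2 N : ℝ) (j : ℤ) : Hs d K :=
  vec K (fun i => (Shg i (r1 * N) (r2 * N)).filter Prim)
    (fun i v => (1 / (N : ℂ)) * gz z (rep i) v) j

/-- all vectors of the shell -/
noncomputable def Mag (z : ℂ) (r1 r2 N : ℝ) (w : Fq d K) : ℂ :=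
  (1 / (N : ℂ)) * ∑ i, ∑ v ∈ Shg i (r1 * N) (r2 * N), gz z (rep i) v * ch w i v

/-- primitive vectors of the shell -/
noncomputable def Mpg (z : ℂ) (r1 r2 N : ℝ) (w : Fq d K) : ℂ :=
  (1 / (N : ℂ)) * ∑ i, ∑ v ∈ (Shg i (r1 * N) (r2 * N)).filter Prim, gz z (rep i) v * ch w i v

theorem co_VAg (z : ℂ) (r1 r2 N : ℝ) (j : ℤ) (k : Fin (mm d K j)) :
    co d K j k (VAg d K z r1 r2 N j) = Mag z r1 r2 N ⟨j, k⟩ := by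
  unfold VAg Mag
  rw [co_vec, Finset.mul_sum]
  refine Finset.sum_congr rfl fun i _ => ?_
  rw [Finset.mul_sum]
  exact Finset.sum_congr rfl fun v _ => by ring

theorem co_VPg (z : ℂ) (r1 r2 N : ℝ) (j : ℤ) (k : Fin (mm d K j)) :
    co d K j k (VPg d K z r1 r2 N j) = Mpg z r1 r2 N ⟨j, k⟩ := by
  unfold VPg Mpg
  rw [co_vec, Finset.mul_sum]
  refine Finset.sum_congr rfl fun i _ => ?_
  rw [Finset.mul_sum]
  exact Finset.sum_congr rfl fun v _ => by ring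

end defs

section primes

open Classical in
/-- the primes `P = (p, ±)` in use, `a ≤ p < b` -/
noncomputable def slg (d K : ℕ) (a b : ℝ) : Finset (ℕ × Bool) :=
  ((Finset.range ⌈b⌉₊) ×ˢ (Finset.univ : Finset Bool)).filter
    (fun P => Adm d K P ∧ a ≤ (P.1 : ℝ) ∧ (P.1 : ℝ) < b)

theorem mem_slg {d K : ℕ} {a b : ℝ} {P : ℕ × Bool} :
    P ∈ slg d K a b ↔ Adm d K P ∧ a ≤ (P.1 : ℝ) ∧ (P.1 : ℝ) < b := by
  classical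
  unfold slg
  rw [Finset.mem_filter, Finset.mem_product, Finset.mem_range]
  refine ⟨fun h => h.2, fun h => ⟨⟨?_, Finset.mem_univ _⟩, h⟩⟩
  exact_mod_cast h.2.2.trans_le (Nat.le_ceil b)

/-- `∑ 1/p` -/
noncomputable def LLg (d K : ℕ) (a b : ℝ) : ℝ := ∑ P ∈ slg d K a b, 1 / (P.1 : ℝ)

variable {d K : ℕ} [NeZero K]

/-- the slice polynomials -/
noncomputable def Qsg (z : ℂ) (h u : ℕ) (w : Fq d K) : ℂ :=
  ∑ P ∈ slg d K (Real.exp (u / h)) (Real.exp ((u + 1) / h)), z * cw P w / (P.1 : ℂ)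

end primes

section props

variable (d K : ℕ) [NeZero K]

/-! ### Part 0: structure -/

/-- STRUCT: the shell vectors are in `E_j`; Parseval -/
def StParG : Prop := ∀ (z : ℂ) (r1 r2 N : ℝ) (j : ℤ),
  VAg d K z r1 r2 N j ∈ Ej d K j ∧ VPg d K z r1 r2 N j ∈ Ej d K j ∧
  ∑ k, ‖Mag z r1 r2 N (⟨j, k⟩ : Fq d K)‖ ^ 2 = ∑ ia, ‖VAg d K z r1 r2 N j ia‖ ^ 2 ∧
  ∑ k, ‖Mpg z r1 r2 N (⟨j, k⟩ : Fq d K)‖ ^ 2 = ∑ ia, ‖VPg d K z r1 r2 N j ia‖ ^ 2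

open Classical in
/-- IDENT: the exact identity for the vectors `M_P u` -/
def StIdG : Prop := ∀ (z : ℂ) (a b : ℝ) (P : ℕ × Bool) (w : Fq d K), Adm d K P →
  (∀ f : Cl d → V → ℂ, ∀ i, ∑ v ∈ (Shg i a b).filter (fun v => Im (Mg d P i) v), f i v =
    ∑ u ∈ Shg (sg d P i) (a / P.1) (b / P.1), f i ((Mg d P i).app u)) ∧
  ∑ i, ∑ v ∈ (Shg i a b).filter (fun v => Im (Mg d P i) v), gz z (rep i) v * ch w i v =
    z * cw P w * ∑ i, ∑ u ∈ Shg i (a / P.1) (b / P.1), gz z (rep i) u * ch w i u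

/-! ### Part 1: levels (captain 38) -/

/-- LSP: large sieve for primitive vectors (from LSG22.lsp_22) -/
def StLspG : Prop := ∃ C : ℝ, 0 < C ∧ ∀ (X : ℝ) (J : ℕ), 1 ≤ X →
  ∀ S : Cl d → Finset V, (∀ i, ∀ v ∈ S i, Prim v ∧ ((rep i).q v : ℝ) ≤ X) →
  ∀ a : Cl d → V → ℂ, ∑ w ∈ SJ d K J, ‖∑ i, ∑ v ∈ S i, a i v * ch w i v‖ ^ 2 ≤
    C * (X + J) * ∑ i, ∑ v ∈ S i, ‖a i v‖ ^ 2

/-- LS: large sieve, all vectors (from LSG22.ls_22) -/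
def StLsG : Prop := ∃ C : ℝ, 0 < C ∧ ∀ (N B : ℝ) (J : ℕ), 1 ≤ N → 1 ≤ B →
  ∀ S : Cl d → Finset V, (∀ i, ∀ v ∈ S i, N ≤ (rep i).q v ∧ ((rep i).q v : ℝ) ≤ B * N) →
  ∀ a : Cl d → V → ℂ, ∑ w ∈ SJ d K J, ‖∑ i, ∑ v ∈ S i, a i v * ch w i v‖ ^ 2 ≤
    C * B ^ 2 * ∑ i, ∑ v ∈ S i, ‖a i v‖ ^ 2 * (N + (J + 1) * Int.gcd v.1 v.2)

/-- MER (7) -/
def StMerG : Prop := ∃ κ C : ℝ, 0 < κ ∧ 0 < C ∧ ∀ a b : ℝ, 2 ≤ a → a ≤ b →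
  κ * Real.log (Real.log b / Real.log a) - C ≤ LLg d K a b

/-- CHEB, upper bound for short windows (7) -/
def StChebG : Prop := ∃ C : ℝ, 0 < C ∧ (∀ y : ℝ, 2 ≤ y → LLg d K y (2 * y) ≤ C / Real.log y) ∧
  ∀ a b : ℝ, 2 ≤ a → a ≤ b → LLg d K a b ≤ Real.log (Real.log b / Real.log a) + C

/-- DEC (21), hypothesis `hDec` of `LevAbs.lev_abs` -/
def StDecG : Prop := ∀ z : ℂ, ‖z‖ = 1 → ∀ r1 r2 : ℝ, 0 < r1 → r1 < r2 →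
  ∃ C N0 : ℝ, 0 < C ∧ 1 ≤ N0 ∧ ∀ (h u0 u1 : ℕ) (N : ℝ), 0 < h → 3 * h ≤ u0 → u0 < u1 →
  N0 ≤ N → (h : ℝ) ≤ N ^ (1 / 8 : ℝ) → Real.exp (u1 / h) ≤ N ^ (1 / 8 : ℝ) →
  1 ≤ LLg d K (Real.exp (u0 / h)) (Real.exp (u1 / h)) → ∀ J : ℕ, (J : ℝ) ≤ N →
  ∑ w ∈ SJ d K J, ‖Mpg z r1 r2 N w -
    (1 / (LLg d K (Real.exp (u0 / h)) (Real.exp (u1 / h)) : ℂ)) *
    ∑ u ∈ Finset.Ico u0 u1, Qsg z h u w * Mpg z r1 r2 (N * Real.exp (-(u / h))) w‖ ^ 2 ≤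
  C * (1 / LLg d K (Real.exp (u0 / h)) (Real.exp (u1 / h)) + 1 / h + h / u0)

/-- MOM (16, 22), hypothesis `hMom` of `LevAbs.lev_abs`, `r = r1` -/
def StMomG : Prop := ∀ z : ℂ, ‖z‖ = 1 → ∀ r1 r2 : ℝ, 0 < r1 → r1 < r2 →
  ∃ C : ℝ, 1 ≤ C ∧ ∀ (h u l J : ℕ) (N : ℝ), 0 < h → 3 * h ≤ u → 1 ≤ r1 * N →
  (J : ℝ) ≤ Real.exp (l * (u / h)) * (r1 * N) →
  ∑ w ∈ SJ d K J, ‖Qsg z h u w ^ l * Mpg z r1 r2 N w‖ ^ 2 ≤ C ^ (l + 1) * (l.factorial : ℝ) ^ 2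

/-- MOM1 (16, 22), hypothesis `hMom1` of `LevAbs.lev_abs` -/
def StMom1G : Prop := ∀ z : ℂ, ‖z‖ = 1 → ∃ C : ℝ, 1 ≤ C ∧ ∀ (h u l J : ℕ), 0 < h → 3 * h ≤ u →
  (J : ℝ) ≤ Real.exp (l * (u / h)) →
  ∑ w ∈ SJ d K J, ‖Qsg z h u w ^ l‖ ^ 2 ≤ C ^ (l + 1) * (l.factorial : ℝ) ^ 2

/-- LEV (38) -/
def StLevG : Prop := ∀ z : ℂ, ‖z‖ = 1 → ∀ r1 r2 : ℝ, 0 < r1 → r1 < r2 → ∀ ε c : ℝ, 0 < ε →
  0 < c → ∃ H0 : ℝ, 1 ≤ H0 ∧ ∀ H : ℝ, H0 ≤ H → ∃ N0 : ℝ, ∀ N : ℝ, N0 ≤ N →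
  ∃ U ⊆ SJ d K ⌊N / H⌋₊, (U.card : ℝ) ≤ N ^ c ∧
    ∑ w ∈ SJ d K ⌊N / H⌋₊ \ U, ‖Mpg z r1 r2 N w‖ ^ 2 ≤ ε

/-! ### Part 2: the set `U` (captain 86) -/

/-- TKH -/
def StTkhG : Prop := ∀ z : ℂ, ‖z‖ = 1 → ∀ r1 r2 : ℝ, 0 ≤ r1 → r1 < r2 → ∃ c C N0 : ℝ,
  0 < c ∧ c ≤ 1 / 8 ∧ 0 < C ∧ 1 ≤ N0 ∧ ∀ N : ℝ, N0 ≤ N → ∀ U : Finset (Fq d K),
  (U.card : ℝ) ≤ N ^ c → (∀ w ∈ U, |(w.1 : ℝ)| ≤ N ^ 2) →
  ∑ w ∈ U, ∑ P ∈ slg d K 3 (N ^ c), (1 / (P.1 : ℝ)) *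
    ‖Mag z r1 r2 N w - z * cw P w * Mag z r1 r2 (N / P.1) w‖ ^ 2 ≤ C

/-- HMU -/
def StHmuG : Prop := ∀ r1 r2 : ℝ, 0 ≤ r1 → r1 < r2 → ∃ c C N0 : ℝ, 0 < c ∧ 0 < C ∧ 1 ≤ N0 ∧
  ∀ N : ℝ, N0 ≤ N → ∀ U : Finset (Fq d K), (U.card : ℝ) ≤ N ^ c →
  (∀ w ∈ U, |(w.1 : ℝ)| ≤ N ^ 4) → ∀ a : Cl d → V → ℂ, (∀ i v, ‖a i v‖ ≤ 1) →
    ∑ w ∈ U, ‖(1 / (N : ℂ)) * ∑ i, ∑ v ∈ Shg i (r1 * N) (r2 * N), a i v * ch w i v‖ ^ 2 ≤ C

/-- DJ (40, with 3, 12, 63): only `j ≠ 0`; the primes `1` modulo `4 d K` are enough -/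
def StDjG : Prop := ∀ c B : ℝ, 0 < c → ∃ N0 : ℝ, 1 ≤ N0 ∧ ∀ N : ℝ, N0 ≤ N → ∀ w : Fq d K,
  w.1 ≠ 0 → |(w.1 : ℝ)| ≤ N ^ 2 →
  B ≤ ∑ P ∈ slg d K 3 (N ^ c), (1 / (P.1 : ℝ)) * ‖cw P w - cw (P.1, !P.2) w‖ ^ 2

/-- UALL (39), from StTkhG, StDjG -/
def StUallG : Prop := ∀ z : ℂ, ‖z‖ = 1 → ∀ r1 r2 : ℝ, 0 ≤ r1 → r1 < r2 → ∃ c : ℝ, 0 < c ∧
  ∀ ε : ℝ, 0 < ε → ∃ N0 : ℝ, ∀ N : ℝ, N0 ≤ N → ∀ U : Finset (Fq d K), (U.card : ℝ) ≤ N ^ c →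
  (∀ w ∈ U, w.1 ≠ 0) → (∀ w ∈ U, |(w.1 : ℝ)| ≤ N ^ 2) → ∑ w ∈ U, ‖Mag z r1 r2 N w‖ ^ 2 ≤ ε

/-- UPRIM (70), from StUallG, StHmuG, StParG; Moebius for the vectors: for `D > 0`
`VPg N = ∑_D μ(D) z^(2 Ω(D)) D⁻² T_D (VAg (N / D²))`, `(T_D x)(i, α) = ∑_{D β = α} x(i, β)`,
a map of `E_j` of norm at most `K²` -/
def StUpG : Prop := ∀ z : ℂ, ‖z‖ = 1 → ∀ r1 r2 : ℝ, 0 ≤ r1 → r1 < r2 → ∃ c : ℝ, 0 < c ∧
  ∀ ε : ℝ, 0 < ε → ∃ N0 : ℝ, ∀ N : ℝ, N0 ≤ N → ∀ U : Finset (Fq d K), (U.card : ℝ) ≤ N ^ c →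
  (∀ w ∈ U, w.1 ≠ 0) → (∀ w ∈ U, |(w.1 : ℝ)| ≤ N) → ∑ w ∈ U, ‖Mpg z r1 r2 N w‖ ^ 2 ≤ ε

/-! ### Part 3: frequency `0` (captain 91) -/

/-- PWT (84): all split primes, both roots -/
def StPwtG : Prop := ∀ z : ℂ, ‖z‖ = 1 → ∃ C : ℝ, 0 < C ∧ ∀ (w : Fq d K) (x : ℝ), 1 ≤ x →
  ∀ R : Finset (ℕ × Bool), (∀ P ∈ R, Adm d K P ∧ (P.1 : ℝ) ^ 2 ≤ x) →
  ∑ P ∈ R, (1 / (P.1 : ℝ)) * ‖Mag z 0 1 x w - z * cw P w * Mag z 0 1 (x / P.1) w‖ ≤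
    C * (1 + √(∑ P ∈ R, 1 / (P.1 : ℝ)))

/-- LIP (42) -/
def StLipG : Prop := ∀ z : ℂ, ‖z‖ = 1 → ∃ C : ℝ, 0 < C ∧ ∀ (w : Fq d K) (x y : ℝ), 1 ≤ x →
  x ≤ y → ‖Mag z 0 1 x w - Mag z 0 1 y w‖ ≤ C * (Real.log (y / x) + 1 / √x)

/-- all vectors of the ball, frequency `0` (91) -/
def StPa0G : Prop := ∀ (z : ℂ) (k : ℕ), 0 < k → z ^ k = 1 → z ≠ 1 → ∀ w : Fq d K, w.1 = 0 →
  Tendsto (fun N : ℝ => Mag z 0 1 N w) atTop (𝓝 0)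

/-- PW0 (from StPa0G, StParG and Moebius: 71) -/
def StPw0G : Prop := ∀ (z : ℂ) (k : ℕ), 0 < k → z ^ k = 1 → z ≠ 1 → ∀ r1 r2 : ℝ, 0 ≤ r1 →
  r1 < r2 → ∀ w : Fq d K, w.1 = 0 → Tendsto (fun N : ℝ => Mpg z r1 r2 N w) atTop (𝓝 0)

/-! ### Part 4: assembly -/

/-- CORE (29), from StLevG, StUpG, StPw0G -/
def StCoreG : Prop := ∀ (z : ℂ) (k : ℕ), 0 < k → z ^ k = 1 → z ≠ 1 → ∀ r1 r2 : ℝ, 0 < r1 →
  r1 < r2 → ∀ ε : ℝ, 0 < ε → ∃ H0 : ℝ, 1 ≤ H0 ∧ ∀ H : ℝ, H0 ≤ H → ∃ N0 : ℝ, ∀ N : ℝ, N0 ≤ N →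
  ∑ w ∈ SJ d K ⌊N / H⌋₊, ‖Mpg z r1 r2 N w‖ ^ 2 ≤ ε

end props

/-- the end product (90), from StCoreG, StParG: every positive form of discriminant `-d` -/
def StMrsG (d : ℕ) : Prop := ∀ Q : Form, Q.Pos → Q.D = d → ∀ (z : ℂ) (k : ℕ), 0 < k → z ^ k = 1 →
  z ≠ 1 → ∀ K : ℕ, 0 < K → MRS.MrsQ Q z K

end Pool.Agent.Lib.MP_a17b09_nt.MRSG
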