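import Pool.Agent.Lib.MP_a17b09_nt.MRSG.DecGC21
import Pool.Agent.Lib.MP_a17b09_nt.MRSG.StmtsG29
import Pool.Agent.Lib.MP_a17b09_nt.MRSG.PwtG84

/-!
MRSG, decomposition by slices: `stDecG_21`.
-/

set_option autoImplicit false

open Finset

namespace Pool.Agent.Lib.MP_a17b09_nt.MRSG.Dec21

open CH CH.PE

section slices

variable {d K : ℕ}

/-- the primes between two ends of slices -/
theorem slice_iff {h : ℕ} (hh : 0 < h) {u0 u1 : ℕ} {P : ℕ × Bool} :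
    P ∈ slg d K (Real.exp (u0 / h)) (Real.exp (u1 / h)) ↔
      Adm d K P ∧ u0 ≤ uslN h P.1 ∧ uslN h P.1 < u1 := by
  rw [mem_slg]
  constructor
  · rintro ⟨h1, h2, h3⟩
    refine ⟨h1, (exp_le_iffN hh h1.1.pos u0).1 h2, ?_⟩
    by_contra hcon
    rw [not_lt] at hcon
    have := (exp_le_iffN hh h1.1.pos u1).2 hcon
    linarith
  · rintro ⟨h1, h2, h3⟩
    refine ⟨h1, (exp_le_iffN hh h1.1.pos u0).2 h2, ?_⟩
    by_contra hcon
    rw [not_lt] at hcon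
    have := (exp_le_iffN hh h1.1.pos u1).1 hcon
    omega

/-- sums over the slices -/
theorem sum_slices {h : ℕ} (hh : 0 < h) (u0 u1 : ℕ) (f : ℕ → ℕ × Bool → ℂ) :
    ∑ u ∈ Finset.Ico u0 u1,
      ∑ P ∈ slg d K (Real.exp (u / h)) (Real.exp ((u + 1) / h)), f u P =
      ∑ P ∈ slg d K (Real.exp (u0 / h)) (Real.exp (u1 / h)), f (uslN h P.1) P := by
  classical
  have hmaps : ∀ P ∈ slg d K (Real.exp (u0 / h)) (Real.exp (u1 / h)),
      uslN h P.1 ∈ Finset.Ico u0 u1 := by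
    intro P hP
    rw [slice_iff hh] at hP
    exact Finset.mem_Ico.2 hP.2
  rw [← Finset.sum_fiberwise_of_maps_to hmaps]
  refine Finset.sum_congr rfl fun u hu => ?_
  rw [Finset.mem_Ico] at hu
  have hset : slg d K (Real.exp (u / h)) (Real.exp ((u + 1) / h)) =
      (slg d K (Real.exp (u0 / h)) (Real.exp (u1 / h))).filter (fun P => uslN h P.1 = u) := by
    ext P
    have h1 := slice_iff (d := d) (K := K) hh (u0 := u) (u1 := u + 1) (P := P)
    push_cast at h1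
    rw [Finset.mem_filter, h1, slice_iff hh]
    constructor
    · rintro ⟨h2, h3, h4⟩
      exact ⟨⟨h2, by omega, by omega⟩, by omega⟩
    · rintro ⟨⟨h2, _⟩, h3⟩
      exact ⟨h2, by omega, by omega⟩
  rw [hset]
  refine Finset.sum_congr rfl fun P hP => ?_
  rw [(Finset.mem_filter.1 hP).2]

/-- the family of the similitudes of a class -/
theorem famG (PP : Finset (ℕ × Bool)) (hPP : ∀ P ∈ PP, Adm d K P) (i : Cl d) :
    Fam (rep i) PP Prod.fst (fun P => Mg d P i) (fun P => rep (sg d P i)) where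
  prime P hP := (hPP P hP).1
  det P hP := (rel_g (hPP P hP) i).2.det
  sim P hP := (rel_g (hPP P hP) i).2.sim
  pos P _ := rep_pos _
  ne P hP P' hP' hne hp := PwtG84.img_ne (hPP P hP) (hPP P' hP') hne hp i
  fib n := PwtG84.fib_le PP n

end slices

section vectors

variable {d K : ℕ} [NeZero K]

/-- the vector of the differences -/
noncomputable def yv (d K : ℕ) [NeZero K] (z : ℂ) (h : ℕ) (r1 r2 N L : ℝ)
    (PP : Finset (ℕ × Bool)) (j : ℤ) : Hs d K :=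
  VPg d K z r1 r2 N j - (1 / (L : ℂ)) • ∑ P ∈ PP, (z / (P.1 : ℂ)) •
    Ug d K P j (VPg d K z r1 r2 (N * Real.exp (-(uslN h P.1 / h))) j)

theorem co_yv (z : ℂ) (h : ℕ) (r1 r2 N L : ℝ) (PP : Finset (ℕ × Bool))
    (hPP : ∀ P ∈ PP, Adm d K P) (j : ℤ) (k : Fin (mm d K j)) :
    co d K j k (yv d K z h r1 r2 N L PP j) = Mpg z r1 r2 N ⟨j, k⟩ -
      (1 / (L : ℂ)) * ∑ P ∈ PP, z * cw P (⟨j, k⟩ : Fq d K) / (P.1 : ℂ) *
        Mpg z r1 r2 (N * Real.exp (-(uslN h P.1 / h))) ⟨j, k⟩ := by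
  unfold yv
  rw [co_sub, co_smul, co_sum, co_VPg]
  congr 2
  refine Finset.sum_congr rfl fun P hP => ?_
  rw [co_smul, co_Ug (hPP P hP), co_VPg]
  unfold cw
  ring

theorem Hs_sum {ι : Type} (s : Finset ι) (x : ι → Hs d K) (ia : Cl d × (ZMod K × ZMod K)) :
    (∑ P ∈ s, x P) ia = ∑ P ∈ s, x P ia := by
  rw [WithLp.ofLp_sum, Finset.sum_apply]

open Classical in
/-- the coefficient of a vector -/
noncomputable def fcl (K : ℕ) (z : ℂ) (Q : Form) (α : ZMod K × ZMod K) (v : V) : ℂ :=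
  if cl K v = α then gz z Q v else 0

omit [NeZero K] in
theorem norm_fcl {z : ℂ} (hz : ‖z‖ = 1) (Q : Form) (α : ZMod K × ZMod K) (v : V) :
    ‖fcl K z Q α v‖ ≤ 1 := by
  unfold fcl
  split_ifs
  · exact (PwtG84.norm_gz hz Q v).le
  · rw [norm_zero]
    exact zero_le_one

theorem VPg_comp (z : ℂ) (r1 r2 N : ℝ) (j : ℤ) (i : Cl d) (α : ZMod K × ZMod K) :
    VPg d K z r1 r2 N j (i, α) = (1 / (N : ℂ)) *
      ∑ v ∈ (Shg i (r1 * N) (r2 * N)).filter Prim, fcl K z (rep i) α v * uu (rep i) v ^ j := by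
  classical
  unfold VPg
  rw [vec_apply, Finset.sum_filter, Finset.mul_sum]
  refine Finset.sum_congr rfl fun v _ => ?_
  unfold fcl
  split_ifs <;> ring

open Classical in
/-- the component of the image under `U_P` -/
theorem Ug_comp {P : ℕ × Bool} (hP : Adm d K P) (z : ℂ) {h : ℕ} {r1 r2 N : ℝ} (hr2 : 0 < r2)
    (hN : 0 < N) (j : ℤ) (i : Cl d) (α : ZMod K × ZMod K) (G : Finset V)
    (hG : ∀ m, m ∈ G ↔ Prim m ∧ ((rep (sg d P i)).q m : ℝ) ≤ r2 * N) :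
    (z / (P.1 : ℂ)) * Ug d K P j (VPg d K z r1 r2 (N * Real.exp (-(uslN h P.1 / h))) j) (i, α) =
      (1 / (N : ℂ)) * ∑ m ∈ G, (bwN h r1 r2 N P.1 ((rep (sg d P i)).q m) : ℂ) *
        (fcl K z (rep i) α ((Mg d P i).app m) * uu (rep i) ((Mg d P i).app m) ^ j) := by
  set Nu : ℝ := N * Real.exp (-(uslN h P.1 / h)) with hNu
  have hNu0 : 0 < Nu := by positivity
  have hNuN : Nu ≤ N := by
    rw [hNu]
    apply mul_le_of_le_one_right hN.le
    rw [Real.exp_le_one_iff, neg_nonpos]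
    positivity
  have hset : (Shg (sg d P i) (r1 * Nu) (r2 * Nu)).filter Prim =
      G.filter (fun m => r1 * Nu < ((rep (sg d P i)).q m : ℝ) ∧
        ((rep (sg d P i)).q m : ℝ) ≤ r2 * Nu) := by
    ext m
    rw [Finset.mem_filter, Finset.mem_filter, mem_Shg, hG]
    constructor
    · rintro ⟨⟨_, h2, h3⟩, h4⟩
      exact ⟨⟨h4, h3.trans (mul_le_mul_of_nonneg_left hNuN hr2.le)⟩, h2, h3⟩
    · rintro ⟨⟨h2, _⟩, h3, h4⟩
      exact ⟨⟨LSG22.prim_ne h2, h3, h4⟩, h2⟩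
  have hpc : (P.1 : ℂ) ≠ 0 := by exact_mod_cast hP.1.ne_zero
  rw [Ug_apply, VPg_comp, hset, Finset.sum_filter, Finset.mul_sum, Finset.mul_sum,
    Finset.mul_sum, Finset.mul_sum]
  refine Finset.sum_congr rfl fun m hm => ?_
  have hm0 : m ≠ 0 := LSG22.prim_ne ((hG m).1 hm).1
  have hb : (bwN h r1 r2 N P.1 ((rep (sg d P i)).q m) : ℂ) =
      if r1 * Nu < ((rep (sg d P i)).q m : ℝ) ∧ ((rep (sg d P i)).q m : ℝ) ≤ r2 * Nu then
      ((Real.exp (uslN h P.1 / h) / P.1 : ℝ) : ℂ) else 0 := by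
    unfold bwN
    split_ifs <;> simp
  have hf : fcl K z (rep i) α ((Mg d P i).app m) =
      z * fcl K z (rep (sg d P i)) (ai (Mg d P i) α) m := by
    unfold fcl
    have h1 : cl K ((Mg d P i).app m) = α ↔ cl K m = ai (Mg d P i) α := by
      rw [cl_app']
      constructor
      · intro h2
        rw [← h2, ai_az (unit_M hP i)]
      · intro h2
        rw [h2, az_ai (unit_M hP i)]
    by_cases h2 : cl K m = ai (Mg d P i) α
    · rw [if_pos h2, if_pos (h1.2 h2), gz_app hP z i hm0]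
    · rw [if_neg h2, if_neg (fun h3 => h2 (h1.1 h3)), mul_zero]
  have hu : uu (rep i) ((Mg d P i).app m) ^ j =
      uu (rep i) ((Mg d P i).app (1, 0)) ^ j * uu (rep (sg d P i)) m ^ j := by
    rw [uu_M hP i hm0, mul_zpow]
  rw [hb, hf, hu]
  have h5 : Real.exp (-(uslN h P.1 / h : ℝ)) * Real.exp (uslN h P.1 / h) = 1 := by
    rw [← Real.exp_add, neg_add_cancel, Real.exp_zero]
  have hN1 : (1 : ℂ) / (Nu : ℂ) = (1 / (N : ℂ)) * ((Real.exp (uslN h P.1 / h) : ℝ) : ℂ) := by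
    have h6 : (Nu : ℂ) ≠ 0 := by exact_mod_cast hNu0.ne'
    have h7 : (N : ℂ) ≠ 0 := by exact_mod_cast hN.ne'
    have h8 : (N : ℂ) = (Nu : ℂ) * ((Real.exp (uslN h P.1 / h) : ℝ) : ℂ) := by
      rw [← Complex.ofReal_mul, hNu, mul_assoc, h5, mul_one]
    rw [div_eq_iff h6]
    have h9 : (1 / (N : ℂ)) * ((Real.exp (uslN h P.1 / h) : ℝ) : ℂ) * (Nu : ℂ) =
        (1 / (N : ℂ)) * ((Nu : ℂ) * ((Real.exp (uslN h P.1 / h) : ℝ) : ℂ)) := by ring
    rw [h9, ← h8, one_div_mul_cancel h7]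
  rw [hN1]
  split_ifs
  · rw [Complex.ofReal_div, Complex.ofReal_natCast]
    ring
  · ring

/-- the component of the difference -/
theorem yv_comp (z : ℂ) {h : ℕ} {r1 r2 N L : ℝ} (hr2 : 0 < r2) (hN : 0 < N)
    (PP : Finset (ℕ × Bool)) (hPP : ∀ P ∈ PP, Adm d K P) (j : ℤ) (i : Cl d)
    (α : ZMod K × ZMod K) (G : ℕ × Bool → Finset V)
    (hG : ∀ P ∈ PP, ∀ m, m ∈ G P ↔ Prim m ∧ ((rep (sg d P i)).q m : ℝ) ≤ r2 * N) :
    yv d K z h r1 r2 N L PP j (i, α) =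
      (1 / (N : ℂ)) * ∑ v ∈ (Shg i (r1 * N) (r2 * N)).filter Prim,
        fcl K z (rep i) α v * uu (rep i) v ^ j -
      (1 / (L : ℂ)) * ((1 / (N : ℂ)) * ∑ P ∈ PP, ∑ m ∈ G P,
        (bwN h r1 r2 N P.1 ((rep (sg d P i)).q m) : ℂ) *
          (fcl K z (rep i) α ((Mg d P i).app m) * uu (rep i) ((Mg d P i).app m) ^ j)) := by
  unfold yv
  rw [PiLp.sub_apply, PiLp.smul_apply, Hs_sum, VPg_comp, smul_eq_mul]
  congr 2
  rw [Finset.mul_sum]
  refine Finset.sum_congr rfl fun P hP => ?_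
  rw [PiLp.smul_apply, smul_eq_mul]
  exact Ug_comp (hPP P hP) z hr2 hN j i α (G P) (hG P hP)

/-- **DECG** -/
theorem stDecG_21 : StDecG d K := by
  classical
  intro z hz r1 r2 hr1 hr
  have hr2 : 0 < r2 := hr1.trans hr
  have hco : ∀ i : Cl d, _ := fun i => coordG (rep_pos i) hr1 hr
  choose C N0 hC hN0 hmain using hco
  refine ⟨1 + ∑ i : Cl d, ∑ _α : ZMod K × ZMod K, C i, 1 + ∑ i : Cl d, N0 i, ?_, ?_, ?_⟩
  · have : 0 ≤ ∑ i : Cl d, ∑ _α : ZMod K × ZMod K, C i :=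
      Finset.sum_nonneg fun i _ => Finset.sum_nonneg fun _ _ => (hC i).le
    linarith
  · have : 0 ≤ ∑ i : Cl d, N0 i :=
      Finset.sum_nonneg fun i _ => zero_le_one.trans (hN0 i)
    linarith
  intro h u0 u1 N hh hu0 hu01 hN hhN hyN hLL J hJ
  have hNi : ∀ i : Cl d, N0 i ≤ N := by
    intro i
    have h1 : N0 i ≤ ∑ i : Cl d, N0 i :=
      Finset.single_le_sum (f := fun i => N0 i) (fun i _ => zero_le_one.trans (hN0 i))
        (Finset.mem_univ i)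
    linarith
  have hNpos : 0 < N := by
    have : 0 ≤ ∑ i : Cl d, N0 i :=
      Finset.sum_nonneg fun i _ => zero_le_one.trans (hN0 i)
    linarith
  set PP := slg d K (Real.exp (u0 / h)) (Real.exp (u1 / h)) with hPP
  set L := LLg d K (Real.exp (u0 / h)) (Real.exp (u1 / h)) with hL
  have hLdef : L = ∑ P ∈ PP, 1 / (P.1 : ℝ) := rfl
  have hAdm : ∀ P ∈ PP, Adm d K P := fun P hP => (mem_slg.1 hP).1
  have hpN : ∀ P ∈ PP, (P.1 : ℝ) ≤ N ^ (1 / 8 : ℝ) := fun P hP =>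
    (mem_slg.1 hP).2.2.le.trans hyN
  have hG : ∀ (i : Cl d) (P : ℕ × Bool), ∃ G : Finset V,
      ∀ m, m ∈ G ↔ Prim m ∧ ((rep (sg d P i)).q m : ℝ) ≤ r2 * N := by
    intro i P
    refine ⟨((rep (sg d P i)).ball ⌊r2 * N⌋₊).filter Prim, fun w => ?_⟩
    rw [Finset.mem_filter, mem_ball_real (rep_pos _) (by positivity), and_comm]
  choose G hG using hG
  have hS : ∀ (i : Cl d) (v : V), v ∈ (Shg i (r1 * N) (r2 * N)).filter Prim ↔
      Prim v ∧ r1 * N < ((rep i).q v : ℝ) ∧ ((rep i).q v : ℝ) ≤ r2 * N := by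
    intro i v
    rw [Finset.mem_filter, mem_Shg]
    constructor
    · rintro ⟨⟨_, h2, h3⟩, h4⟩
      exact ⟨h4, h2, h3⟩
    · rintro ⟨h4, h2, h3⟩
      exact ⟨⟨LSG22.prim_ne h4, h2, h3⟩, h4⟩
  have hL0 : 0 < L := by linarith
  have hh0 : (0 : ℝ) < h := by exact_mod_cast hh
  have hkey : ∀ (i : Cl d) (α : ZMod K × ZMod K),
      ∑ j ∈ Finset.Icc (-(J : ℤ)) J, ‖yv d K z h r1 r2 N L PP j (i, α)‖ ^ 2 ≤
        C i * (1 / L + 1 / h) := by
    intro i α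
    refine le_trans (le_of_eq ?_) (hmain i PP Prod.fst (fun P => Mg d P i)
      (fun P => rep (sg d P i)) (famG PP hAdm i) h N L hh (hNi i) hhN hpN hLdef hLL J hJ
      ((Shg i (r1 * N) (r2 * N)).filter Prim) (G i) (hS i) (fun P _ => hG i P)
      (fcl K z (rep i) α) (norm_fcl hz (rep i) α))
    refine Finset.sum_congr rfl fun j _ => ?_
    rw [yv_comp z hr2 hNpos PP hAdm j i α (G i) (fun P _ => hG i P)]
  have hid : ∀ (j : ℤ) (k : Fin (mm d K j)), Mpg z r1 r2 N (⟨j, k⟩ : Fq d K) -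
      (1 / (L : ℂ)) * ∑ u ∈ Finset.Ico u0 u1, Qsg z h u (⟨j, k⟩ : Fq d K) *
        Mpg z r1 r2 (N * Real.exp (-(u / h))) ⟨j, k⟩ =
      co d K j k (yv d K z h r1 r2 N L PP j) := by
    intro j k
    rw [co_yv z h r1 r2 N L PP hAdm j k]
    congr 2
    rw [hPP, ← sum_slices (d := d) (K := K) hh u0 u1 (fun u P =>
      z * cw P (⟨j, k⟩ : Fq d K) / (P.1 : ℂ) *
        Mpg z r1 r2 (N * Real.exp (-(u / h))) (⟨j, k⟩ : Fq d K))]
    refine Finset.sum_congr rfl fun u _ => ?_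
    unfold Qsg
    rw [Finset.sum_mul]
  rw [sum_SJ]
  calc ∑ j ∈ Finset.Icc (-(J : ℤ)) J, ∑ k : Fin (mm d K j),
        ‖Mpg z r1 r2 N (⟨j, k⟩ : Fq d K) - (1 / (L : ℂ)) * ∑ u ∈ Finset.Ico u0 u1,
          Qsg z h u (⟨j, k⟩ : Fq d K) * Mpg z r1 r2 (N * Real.exp (-(u / h))) ⟨j, k⟩‖ ^ 2
      = ∑ j ∈ Finset.Icc (-(J : ℤ)) J, ∑ k : Fin (mm d K j),
        ‖co d K j k (yv d K z h r1 r2 N L PP j)‖ ^ 2 := by
        refine Finset.sum_congr rfl fun j _ => Finset.sum_congr rfl fun k _ => ?_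
        rw [hid j k]
    _ ≤ ∑ j ∈ Finset.Icc (-(J : ℤ)) J, ∑ ia, ‖yv d K z h r1 r2 N L PP j ia‖ ^ 2 :=
        Finset.sum_le_sum fun j _ => co_bessel j _
    _ = ∑ i : Cl d, ∑ α : ZMod K × ZMod K, ∑ j ∈ Finset.Icc (-(J : ℤ)) J,
        ‖yv d K z h r1 r2 N L PP j (i, α)‖ ^ 2 := by
        rw [Finset.sum_comm, Fintype.sum_prod_type]
    _ ≤ ∑ i : Cl d, ∑ _α : ZMod K × ZMod K, C i * (1 / L + 1 / h) :=
        Finset.sum_le_sum fun i _ => Finset.sum_le_sum fun α _ => hkey i α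
    _ = (∑ i : Cl d, ∑ _α : ZMod K × ZMod K, C i) * (1 / L + 1 / h) := by
        rw [Finset.sum_mul]
        refine Finset.sum_congr rfl fun i _ => ?_
        rw [Finset.sum_mul]
    _ ≤ (1 + ∑ i : Cl d, ∑ _α : ZMod K × ZMod K, C i) * (1 / L + 1 / h + h / u0) := by
        have e1 : 0 ≤ ∑ i : Cl d, ∑ _α : ZMod K × ZMod K, C i :=
          Finset.sum_nonneg fun i _ => Finset.sum_nonneg fun _ _ => (hC i).le
        have e2 : 0 ≤ (h : ℝ) / u0 := by positivity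
        have e3 : 0 ≤ 1 / L + 1 / h := by positivity
        apply mul_le_mul (by linarith) (by linarith) e3 (by linarith)

end vectors

end Pool.Agent.Lib.MP_a17b09_nt.MRSG.Dec21
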