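import Pool.Agent.Lib.MP_a17b09_nt.MR.VGf63
import Pool.Agent.Lib.MP_a17b09_nt.MRSG.PwtG84

/-!
Project MRSG: exponential sums over the vectors of a residue class in a shell, for every positive
form (from `StVF` by a dyadic decomposition), and the number of such vectors.
-/

set_option autoImplicit false

open Finset

namespace Pool.Agent.Lib.MP_a17b09_nt.MRSG.ExpG96

open CH CH.PE

/-- vectors of a class modulo `q` with `Q v ≤ x` -/
def IsDisc (Q : Form) (x : ℝ) (q : ℕ) (α : V) (S : Finset V) : Prop :=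
  ∀ v : V, v ∈ S ↔ (q : ℤ) ∣ v.1 - α.1 ∧ (q : ℤ) ∣ v.2 - α.2 ∧ (Q.q v : ℝ) ≤ x

theorem q_nonneg {Q : Form} (hQ : Q.Pos) (v : V) : 0 ≤ Q.q v := by
  by_cases hv : v = 0
  · rw [hv]
    simp [Form.q]
  · exact (hQ.q_pos hv).le

theorem exists_disc {Q : Form} (hQ : Q.Pos) (x : ℝ) (q : ℕ) (α : V) :
    ∃ S, IsDisc Q x q α S := by
  classical
  refine ⟨(Q.ball ⌊x⌋₊).filter (fun v => (q : ℤ) ∣ v.1 - α.1 ∧ (q : ℤ) ∣ v.2 - α.2 ∧
    (Q.q v : ℝ) ≤ x), fun v => ?_⟩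
  rw [Finset.mem_filter, Form.mem_ball hQ]
  refine ⟨fun h => h.2, fun h => ⟨?_, h⟩⟩
  obtain ⟨m, hm⟩ := Int.eq_ofNat_of_zero_le (q_nonneg hQ v)
  have h1 := h.2.2
  rw [hm] at h1 ⊢
  have h2 : m ≤ ⌊x⌋₊ := Nat.le_floor (by exact_mod_cast h1)
  exact_mod_cast h2

/-- the number of vectors of a class -/
theorem card_disc {Q : Form} (hQ : Q.Pos) {x : ℝ} (hx : 0 ≤ x) {q : ℕ} (hq : 0 < q) {α : V}
    {S : Finset V} (hS : IsDisc Q x q α S) : (S.card : ℝ) ≤ 38 * (4 * (x / q ^ 2) + 1) := by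
  classical
  have hq0 : (0 : ℝ) < q := by exact_mod_cast hq
  have hqz : (q : ℤ) ≠ 0 := by exact_mod_cast hq.ne'
  rcases S.eq_empty_or_nonempty with h0 | ⟨w, hw⟩
  · rw [h0, Finset.card_empty, Nat.cast_zero]
    positivity
  · set X : ℕ := ⌊4 * (x / q ^ 2)⌋₊ + 1 with hX
    set f : V → V := fun v => ((v.1 - w.1) / (q : ℤ), (v.2 - w.2) / (q : ℤ)) with hf
    have hdiv : ∀ v ∈ S, (q : ℤ) * (f v).1 = v.1 - w.1 ∧ (q : ℤ) * (f v).2 = v.2 - w.2 := by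
      intro v hv
      have h1 := (hS v).1 hv
      have h2 := (hS w).1 hw
      have h3 : (q : ℤ) ∣ v.1 - w.1 := by
        have := dvd_sub h1.1 h2.1
        rwa [sub_sub_sub_cancel_right] at this
      have h4 : (q : ℤ) ∣ v.2 - w.2 := by
        have := dvd_sub h1.2.1 h2.2.1
        rwa [sub_sub_sub_cancel_right] at this
      exact ⟨Int.mul_ediv_cancel' h3, Int.mul_ediv_cancel' h4⟩
    have hmaps : ∀ v ∈ S, f v ∈ Q.ball X := by
      intro v hv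
      obtain ⟨e1, e2⟩ := hdiv v hv
      rw [Form.mem_ball hQ]
      have h1 := ((hS v).1 hv).2.2
      have h2 := ((hS w).1 hw).2.2
      have h3 : (q : ℤ) ^ 2 * Q.q (f v) + Q.q (v + w) = 2 * Q.q v + 2 * Q.q w := by
        have h4 : (q : ℤ) ^ 2 * Q.q (f v) = Q.a * ((q : ℤ) * (f v).1) ^ 2 +
            Q.b * ((q : ℤ) * (f v).1) * ((q : ℤ) * (f v).2) + Q.c * ((q : ℤ) * (f v).2) ^ 2 := by
          unfold Form.q
          ring
        rw [h4, e1, e2]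
        unfold Form.q
        simp only [Prod.fst_add, Prod.snd_add]
        ring
      have h5 : ((q : ℝ)) ^ 2 * (Q.q (f v) : ℝ) ≤ 4 * x := by
        have h6 : (((q : ℤ) ^ 2 * Q.q (f v) + Q.q (v + w) : ℤ) : ℝ) =
            ((2 * Q.q v + 2 * Q.q w : ℤ) : ℝ) := by rw [h3]
        have h7 : (0 : ℝ) ≤ Q.q (v + w) := by exact_mod_cast q_nonneg hQ (v + w)
        push_cast at h6
        linarith
      have h6 : (Q.q (f v) : ℝ) ≤ 4 * (x / q ^ 2) := by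
        rw [← mul_div_assoc, le_div_iff₀ (by positivity)]
        linarith
      have h7 : (Q.q (f v) : ℝ) ≤ (X : ℝ) := by
        rw [hX]
        push_cast
        exact h6.trans (Nat.lt_floor_add_one _).le
      exact_mod_cast h7
    have hinj : Set.InjOn f S := by
      intro v hv v' hv' h
      obtain ⟨e1, e2⟩ := hdiv v hv
      obtain ⟨e1', e2'⟩ := hdiv v' hv'
      rw [h] at e1 e2
      ext
      · linarith
      · linarith
    have h1 := Finset.card_le_card_of_injOn f hmaps hinj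
    have h2 := PwtG84.ball_le Q hQ X (by omega)
    have h3 : (S.card : ℝ) ≤ (Q.ball X).card := by exact_mod_cast h1
    have h4 : (X : ℝ) ≤ 4 * (x / q ^ 2) + 1 := by
      rw [hX]
      push_cast
      have := Nat.floor_le (show (0 : ℝ) ≤ 4 * (x / q ^ 2) by positivity)
      linarith
    linarith

/-- the directions of `tq` and `lam` agree -/
theorem uu_tq {Q : Form} (hQ : Q.Pos) (v : V) : uu Q v = tq Q v / (‖tq Q v‖ : ℂ) := by
  have ha : (0 : ℝ) < Q.a := by exact_mod_cast hQ.1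
  have hs : 0 < √(Q.a : ℝ) := Real.sqrt_pos.2 ha
  have hs2 : √(Q.a : ℝ) * √(Q.a : ℝ) = Q.a := Real.mul_self_sqrt ha.le
  have h1 : lam Q v = ((2 * √(Q.a : ℝ) : ℝ) : ℂ) * tq Q v := by
    apply Complex.ext
    · rw [Complex.re_ofReal_mul]
      unfold lam tq
      simp only [Complex.add_re, Complex.ofReal_re, Complex.mul_re, Complex.I_re, mul_zero,
        Complex.ofReal_im, Complex.I_im, mul_one, sub_self, add_zero]
      push_cast
      field_simp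
      linear_combination (-2 * (v.1 : ℝ)) * hs2
    · rw [Complex.im_ofReal_mul]
      unfold lam tq
      simp only [Complex.add_im, Complex.ofReal_re, Complex.mul_im, Complex.I_re, mul_zero,
        Complex.ofReal_im, Complex.I_im, mul_one, zero_add, add_zero]
      field_simp
  have h2 : (0 : ℝ) < 2 * √(Q.a : ℝ) := by positivity
  unfold uu
  rw [h1, norm_mul, Complex.norm_real, Real.norm_of_nonneg h2.le,
    Complex.ofReal_mul (2 * √(Q.a : ℝ)) ‖tq Q v‖]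
  exact mul_div_mul_left _ _ (Complex.ofReal_ne_zero.2 h2.ne')

theorem norm_uu_le {Q : Form} (hQ : Q.Pos) (v : V) {h : ℤ} (hh : h ≠ 0) : ‖uu Q v ^ h‖ ≤ 1 := by
  by_cases hv : v = 0
  · have h1 : uu Q v = 0 := by
      rw [hv]
      unfold uu lam
      simp
    rw [h1, zero_zpow h hh, norm_zero]
    exact zero_le_one
  · rw [norm_zpow, norm_uu hQ hv, one_zpow]

theorem norm_sum_card {Q : Form} (hQ : Q.Pos) (S : Finset V) {h : ℤ} (hh : h ≠ 0) :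
    ‖∑ v ∈ S, uu Q v ^ h‖ ≤ S.card := by
  refine (norm_sum_le _ _).trans ((Finset.sum_le_sum fun v _ => norm_uu_le hQ v hh).trans ?_)
  rw [Finset.sum_const, nsmul_eq_mul, mul_one]

/-- discs -/
theorem disc_bound {Q : Form} (hQ : Q.Pos) {c0 C0 B : ℝ} (hc1 : c0 ≤ 1 / 2)
    (hC0 : 0 < C0) (hB : 1 ≤ B) {q : ℕ} (hq : 0 < q) {h : ℤ} (hh : h ≠ 0) (α : V)
    (H : ∀ Y : ℝ, (q : ℝ) ^ 2 * B ≤ Y → ∀ S : Finset V,
      (∀ v : V, v ∈ S ↔ (q : ℤ) ∣ v.1 - α.1 ∧ (q : ℤ) ∣ v.2 - α.2 ∧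
        Y < (Q.q v : ℝ) ∧ (Q.q v : ℝ) ≤ 2 * Y) →
      ‖∑ v ∈ S, uu Q v ^ h‖ ≤ C0 * (Y / q ^ 2) ^ (1 - c0)) :
    ∀ n : ℕ, ∀ x : ℝ, 0 ≤ x → x ≤ 2 ^ n → ∀ S, IsDisc Q x q α S →
      ‖∑ v ∈ S, uu Q v ^ h‖ ≤ 342 * B + 4 * C0 * (x / q ^ 2) ^ (1 - c0) := by
  classical
  have hq0 : (0 : ℝ) < q := by exact_mod_cast hq
  have hq1 : (1 : ℝ) ≤ (q : ℝ) ^ 2 := one_le_pow₀ (by exact_mod_cast hq)
  have hq2 : (0 : ℝ) < (q : ℝ) ^ 2 := by positivity
  intro n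
  induction n with
  | zero =>
    intro x hx hx1 S hS
    rw [pow_zero] at hx1
    refine (norm_sum_card hQ S hh).trans ((card_disc hQ hx hq hS).trans ?_)
    have h1 : x / (q : ℝ) ^ 2 ≤ 1 := by
      rw [div_le_one hq2]
      linarith
    have h3 : 0 ≤ (x / (q : ℝ) ^ 2) ^ (1 - c0) := Real.rpow_nonneg (by positivity) _
    nlinarith [mul_nonneg hC0.le h3]
  | succ n ih =>
    intro x hx hx1 S hS
    have h3 : 0 ≤ (x / (q : ℝ) ^ 2) ^ (1 - c0) := Real.rpow_nonneg (by positivity) _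
    rcases lt_or_ge x (2 * ((q : ℝ) ^ 2 * B)) with hxB | hxB
    · refine (norm_sum_card hQ S hh).trans ((card_disc hQ hx hq hS).trans ?_)
      have h1 : x / (q : ℝ) ^ 2 ≤ 2 * B := by
        rw [div_le_iff₀ hq2]
        linarith
      nlinarith [mul_nonneg hC0.le h3]
    · obtain ⟨S1, hS1⟩ := exists_disc hQ (x / 2) q α
      have hx2 : x / 2 ≤ 2 ^ n := by
        rw [pow_succ] at hx1
        linarith
      have h1 := ih (x / 2) (by linarith) hx2 S1 hS1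
      have hsub : S1 ⊆ S := by
        intro m hm
        have := (hS1 m).1 hm
        exact (hS m).2 ⟨this.1, this.2.1, this.2.2.trans (by linarith)⟩
      have h2 := H (x / 2) (by linarith) (S \ S1) (fun v => by
        rw [Finset.mem_sdiff, hS v, hS1 v]
        constructor
        · rintro ⟨⟨h3, h4, h5⟩, h6⟩
          refine ⟨h3, h4, ?_, by linarith⟩
          by_contra h7
          exact h6 ⟨h3, h4, not_lt.1 h7⟩
        · rintro ⟨h3, h4, h5, h6⟩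
          exact ⟨⟨h3, h4, by linarith⟩, fun h7 => absurd h7.2.2 (not_le.2 h5)⟩)
      rw [← Finset.sum_sdiff hsub]
      refine (norm_add_le _ _).trans ?_
      have h4 : (x / 2 / (q : ℝ) ^ 2) ^ (1 - c0) ≤ (x / (q : ℝ) ^ 2) ^ (1 - c0) * (3 / 4) := by
        rw [div_right_comm, Real.div_rpow (by positivity) (by norm_num)]
        have h4 : (4 / 3 : ℝ) ≤ 2 ^ (1 - c0) := by
          have h5 : (2 : ℝ) ^ (1 / 2 : ℝ) ≤ 2 ^ (1 - c0) :=
            Real.rpow_le_rpow_of_exponent_le (by norm_num) (by linarith)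
          have h6 : (4 / 3 : ℝ) ≤ 2 ^ (1 / 2 : ℝ) := by
            rw [← Real.sqrt_eq_rpow]
            apply Real.le_sqrt_of_sq_le
            norm_num
          exact h6.trans h5
        rw [div_le_iff₀ (by linarith)]
        nlinarith
      have h5 : 0 ≤ (x / 2 / (q : ℝ) ^ 2) ^ (1 - c0) := Real.rpow_nonneg (by positivity) _
      have h6 : C0 * (x / 2 / (q : ℝ) ^ 2) ^ (1 - c0) ≤
          C0 * ((x / (q : ℝ) ^ 2) ^ (1 - c0) * (3 / 4)) :=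
        mul_le_mul_of_nonneg_left h4 hC0.le
      nlinarith [mul_nonneg hC0.le h3]

/-- **exponential sums over a class modulo `q` of a shell** -/
theorem exp96 (Q : Form) (hQ : Q.Pos) (κ : ℝ) (hκ : 0 < κ) : ∃ c C : ℝ, 0 < c ∧ c ≤ 1 / 2 ∧
    0 < C ∧ ∀ T : ℝ, 1 ≤ T → ∀ h : ℤ, h ≠ 0 → |(h : ℝ)| ≤ T → ∀ (q : ℕ) (α : V), 0 < q →
    ∀ a b : ℝ, 0 ≤ a → a ≤ b → ∀ S : Finset V,
    (∀ v : V, v ∈ S ↔ (q : ℤ) ∣ v.1 - α.1 ∧ (q : ℤ) ∣ v.2 - α.2 ∧ a < (Q.q v : ℝ) ∧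
      (Q.q v : ℝ) ≤ b) →
    ‖∑ v ∈ S, uu Q v ^ h‖ ≤ C * (T ^ κ + (b / q ^ 2) ^ (1 - c)) := by
  classical
  obtain ⟨c1, hc1, C1, hC1, HV⟩ := MR.stVF_63 Q hQ κ hκ
  set c0 : ℝ := min c1 (1 / 2) with hc0def
  have hc0 : 0 < c0 := lt_min hc1 (by norm_num)
  have hc02 : c0 ≤ 1 / 2 := min_le_right _ _
  refine ⟨c0, 2 * (342 + 4 * C1), hc0, hc02, by positivity, ?_⟩
  intro T hT h hh hhT q α hq a b ha hab S hS
  have hq0 : (0 : ℝ) < q := by exact_mod_cast hq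
  have hq2 : (0 : ℝ) < (q : ℝ) ^ 2 := by positivity
  have hB : 1 ≤ T ^ κ := Real.one_le_rpow hT hκ.le
  have H : ∀ Y : ℝ, (q : ℝ) ^ 2 * T ^ κ ≤ Y → ∀ S : Finset V,
      (∀ v : V, v ∈ S ↔ (q : ℤ) ∣ v.1 - α.1 ∧ (q : ℤ) ∣ v.2 - α.2 ∧
        Y < (Q.q v : ℝ) ∧ (Q.q v : ℝ) ≤ 2 * Y) →
      ‖∑ v ∈ S, uu Q v ^ h‖ ≤ C1 * (Y / q ^ 2) ^ (1 - c0) := by
    intro Y hY S' hS'
    have hY1 : 1 ≤ Y / (q : ℝ) ^ 2 := by
      rw [le_div_iff₀ hq2]
      nlinarith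
    have hY0 : 0 ≤ Y := by
      have : 0 ≤ (q : ℝ) ^ 2 * T ^ κ := by positivity
      linarith
    have h1 := HV T hT h hh hhT q α hq Y Y (2 * Y) hY le_rfl (by linarith) le_rfl S' hS'
    have e1 : ∑ v ∈ S', uu Q v ^ h = ∑ v ∈ S', (tq Q v / (‖tq Q v‖ : ℂ)) ^ h :=
      Finset.sum_congr rfl fun v _ => by rw [uu_tq hQ]
    rw [e1]
    refine h1.trans (mul_le_mul_of_nonneg_left ?_ hC1.le)
    exact Real.rpow_le_rpow_of_exponent_le hY1 (by linarith [min_le_left c1 (1 / 2)])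
  have HD : ∀ x : ℝ, 0 ≤ x → x ≤ b → ∀ S', IsDisc Q x q α S' →
      ‖∑ v ∈ S', uu Q v ^ h‖ ≤ (342 + 4 * C1) * (T ^ κ + (b / q ^ 2) ^ (1 - c0)) := by
    intro x hx hxb S' hS'
    obtain ⟨n, hn⟩ := pow_unbounded_of_one_lt x (by norm_num : (1 : ℝ) < 2)
    refine (disc_bound hQ hc02 hC1 hB hq hh α H n x hx hn.le S' hS').trans ?_
    have h1 : (x / (q : ℝ) ^ 2) ^ (1 - c0) ≤ (b / (q : ℝ) ^ 2) ^ (1 - c0) :=
      Real.rpow_le_rpow (by positivity) (by gcongr) (by linarith)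
    have h2 : 0 ≤ (x / (q : ℝ) ^ 2) ^ (1 - c0) := Real.rpow_nonneg (by positivity) _
    nlinarith [mul_le_mul_of_nonneg_left h1 hC1.le, mul_nonneg hC1.le (zero_le_one.trans hB)]
  obtain ⟨S2, hS2⟩ := exists_disc hQ b q α
  obtain ⟨S1, hS1⟩ := exists_disc hQ a q α
  have hsub : S1 ⊆ S2 := by
    intro m hm
    have := (hS1 m).1 hm
    exact (hS2 m).2 ⟨this.1, this.2.1, this.2.2.trans hab⟩
  have hSe : S = S2 \ S1 := by
    ext m
    rw [Finset.mem_sdiff, hS m, hS1 m, hS2 m]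
    constructor
    · rintro ⟨h1, h2, h3, h4⟩
      exact ⟨⟨h1, h2, h4⟩, fun h5 => absurd h5.2.2 (not_le.2 h3)⟩
    · rintro ⟨⟨h1, h2, h3⟩, h4⟩
      refine ⟨h1, h2, ?_, h3⟩
      by_contra h5
      exact h4 ⟨h1, h2, not_lt.1 h5⟩
  have e1 : ∑ v ∈ S, uu Q v ^ h = ∑ v ∈ S2, uu Q v ^ h - ∑ v ∈ S1, uu Q v ^ h := by
    rw [hSe, ← Finset.sum_sdiff hsub]
    ring
  rw [e1]
  refine (norm_sub_le _ _).trans ?_
  have h1 := HD b (ha.trans hab) le_rfl S2 hS2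
  have h2 := HD a ha hab S1 hS1
  linarith

end Pool.Agent.Lib.MP_a17b09_nt.MRSG.ExpG96
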