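import Pool.Agent.Lib.MP_a17b09_nt.MRSG.StmtsG29
import Pool.Agent.Lib.MP_a17b09_nt.MRSG.ExpG96
import Pool.Agent.Lib.MP_a17b09_nt.MRS.HM96

/-!
Project MRSG: Halasz-Montgomery on the set `U` (StHmuG).
-/

set_option autoImplicit false

open Filter Topology Finset

namespace Pool.Agent.Lib.MP_a17b09_nt.MRSG

open CH CH.PE

namespace HmuG96

theorem cl_iff96 {K : ℕ} [NeZero K] (v : V) (α : ZMod K × ZMod K) :
    cl K v = α ↔ (K : ℤ) ∣ v.1 - (rz α).1 ∧ (K : ℤ) ∣ v.2 - (rz α).2 := by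
  have key : ∀ (x : ℤ) (t : ZMod K), (x : ZMod K) = t ↔ (K : ℤ) ∣ x - (t.val : ℤ) := by
    intro x t
    rw [← ZMod.intCast_zmod_eq_zero_iff_dvd, ← sub_eq_zero]
    push_cast
    rw [ZMod.natCast_zmod_val]
  unfold cl rz
  rw [Prod.ext_iff]
  exact and_congr (key v.1 α.1) (key v.2 α.2)

variable {d K : ℕ} [NeZero K]

/-- uniform constants for all classes of forms -/
theorem unif96 (d : ℕ) (κ : ℝ) (hκ : 0 < κ) : ∃ c C : ℝ, 0 < c ∧ c ≤ 1 / 2 ∧ 0 < C ∧
    ∀ i : Cl d, ∀ T : ℝ, 1 ≤ T → ∀ h : ℤ, h ≠ 0 → |(h : ℝ)| ≤ T → ∀ (q : ℕ) (α : V), 0 < q →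
    ∀ a b : ℝ, 0 ≤ a → a ≤ b → ∀ S : Finset V,
    (∀ v : V, v ∈ S ↔ (q : ℤ) ∣ v.1 - α.1 ∧ (q : ℤ) ∣ v.2 - α.2 ∧ a < ((rep i).q v : ℝ) ∧
      ((rep i).q v : ℝ) ≤ b) →
    ‖∑ v ∈ S, uu (rep i) v ^ h‖ ≤ C * (T ^ κ + (b / q ^ 2) ^ (1 - c)) := by
  have h1 := fun i : Cl d => ExpG96.exp96 (rep i) (rep_pos i) κ hκ
  choose ci Ci hci hci2 hCi H using h1
  set c : ℝ := 1 / 2 * ∏ i, ci i with hcdef
  have hprod0 : 0 < ∏ i, ci i := Finset.prod_pos fun i _ => hci i
  have hprod1 : ∀ i, ∏ j, ci j ≤ ci i := by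
    classical
    intro i
    rw [← Finset.mul_prod_erase Finset.univ ci (Finset.mem_univ i)]
    refine mul_le_of_le_one_right (hci i).le (Finset.prod_le_one (fun j _ => (hci j).le)
      fun j _ => (hci2 j).trans (by norm_num))
  have hprod2 : ∏ j, ci j ≤ 1 :=
    Finset.prod_le_one (fun j _ => (hci j).le) fun j _ => (hci2 j).trans (by norm_num)
  refine ⟨c, 2 * (∑ i, Ci i + 1), by positivity, by rw [hcdef]; linarith, ?_, ?_⟩
  · have : 0 ≤ ∑ i, Ci i := Finset.sum_nonneg fun i _ => (hCi i).le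
    positivity
  · intro i T hT h hh hhT q α hq a b ha hab S hS
    have h2 := H i T hT h hh hhT q α hq a b ha hab S hS
    have hq2 : (0 : ℝ) < (q : ℝ) ^ 2 := by
      have : (0 : ℝ) < q := by exact_mod_cast hq
      positivity
    have hx : 0 ≤ b / (q : ℝ) ^ 2 := div_nonneg (ha.trans hab) hq2.le
    have hT1 : 1 ≤ T ^ κ := Real.one_le_rpow hT hκ.le
    have h3 : (b / (q : ℝ) ^ 2) ^ (1 - ci i) ≤ 1 + (b / (q : ℝ) ^ 2) ^ (1 - c) := by
      have h5 : 0 ≤ (b / (q : ℝ) ^ 2) ^ (1 - c) := Real.rpow_nonneg hx _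
      rcases le_total (b / (q : ℝ) ^ 2) 1 with h4 | h4
      · have h6 : (b / (q : ℝ) ^ 2) ^ (1 - ci i) ≤ 1 :=
          Real.rpow_le_one hx h4 (by linarith [hci2 i])
        linarith
      · have h6 : (b / (q : ℝ) ^ 2) ^ (1 - ci i) ≤ (b / (q : ℝ) ^ 2) ^ (1 - c) := by
          apply Real.rpow_le_rpow_of_exponent_le h4
          have := hprod1 i
          rw [hcdef]
          linarith
        linarith
    have h4 : Ci i ≤ ∑ j, Ci j + 1 := by
      have := Finset.single_le_sum (f := Ci) (fun j _ => (hCi j).le) (Finset.mem_univ i)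
      linarith
    have h5 : 0 ≤ (b / (q : ℝ) ^ 2) ^ (1 - c) := Real.rpow_nonneg hx _
    refine h2.trans ?_
    calc Ci i * (T ^ κ + (b / (q : ℝ) ^ 2) ^ (1 - ci i))
        ≤ Ci i * (2 * (T ^ κ + (b / (q : ℝ) ^ 2) ^ (1 - c))) := by
          refine mul_le_mul_of_nonneg_left ?_ (hCi i).le
          linarith
      _ ≤ (∑ j, Ci j + 1) * (2 * (T ^ κ + (b / (q : ℝ) ^ 2) ^ (1 - c))) :=
          mul_le_mul_of_nonneg_right h4 (by positivity)
      _ = 2 * (∑ j, Ci j + 1) * (T ^ κ + (b / (q : ℝ) ^ 2) ^ (1 - c)) := by ring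

/-- the number of vectors of a shell -/
theorem card_Shg96 (i : Cl d) {a b R N : ℝ} (hb : b ≤ R * N) (hRN : 1 ≤ R * N) :
    ((Shg i a b).card : ℝ) ≤ 38 * (R * N) := by
  have h1 : Shg i a b ⊆ (rep i).ball ⌊R * N⌋₊ := by
    intro v hv
    unfold Shg at hv
    rw [Finset.mem_filter, Form.mem_ball (rep_pos i)] at hv
    rw [Form.mem_ball (rep_pos i)]
    refine hv.1.trans ?_
    exact_mod_cast Nat.floor_le_floor hb
  have h2 := PwtG84.ball_le (rep i) (rep_pos i) ⌊R * N⌋₊ (Nat.le_floor (by exact_mod_cast hRN))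
  have h3 : ((Shg i a b).card : ℝ) ≤ ((rep i).ball ⌊R * N⌋₊).card := by
    exact_mod_cast Finset.card_le_card h1
  have h4 : (⌊R * N⌋₊ : ℝ) ≤ R * N := Nat.floor_le (by linarith)
  linarith

/-- product of two eigenfunctions -/
theorem ch_conj96 (w w' : Fq d K) (i : Cl d) {v : V} (hv : v ≠ 0) :
    ch w i v * (starRingEnd ℂ) (ch w' i v) =
      ((starRingEnd ℂ) ((bv d K w.1 w.2 : Hs d K) (i, cl K v)) *
        (bv d K w'.1 w'.2 : Hs d K) (i, cl K v)) * uu (rep i) v ^ (w.1 - w'.1) := by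
  have hu := uu_ne (rep_pos i) hv
  have h1 : (starRingEnd ℂ) (uu (rep i) v) = (uu (rep i) v)⁻¹ := by
    have h2 : uu (rep i) v * (starRingEnd ℂ) (uu (rep i) v) = 1 := by
      rw [Complex.mul_conj, Complex.normSq_eq_norm_sq, norm_uu (rep_pos i) hv]
      simp
    exact eq_inv_of_mul_eq_one_right h2
  unfold ch
  rw [map_mul, Complex.conj_conj, map_zpow₀, h1, inv_zpow, zpow_sub₀ hu]
  ring

/-- two different frequencies -/
theorem off96 {c C T κ a b : ℝ}
    (H : ∀ i : Cl d, ∀ h : ℤ, h ≠ 0 → |(h : ℝ)| ≤ T → ∀ (q : ℕ) (α : V), 0 < q →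
      ∀ S : Finset V, (∀ v : V, v ∈ S ↔ (q : ℤ) ∣ v.1 - α.1 ∧ (q : ℤ) ∣ v.2 - α.2 ∧
        a < ((rep i).q v : ℝ) ∧ ((rep i).q v : ℝ) ≤ b) →
      ‖∑ v ∈ S, uu (rep i) v ^ h‖ ≤ C * (T ^ κ + (b / q ^ 2) ^ (1 - c)))
    (ha : 0 ≤ a) (w w' : Fq d K) (hne : w.1 ≠ w'.1) (hT : |((w.1 - w'.1 : ℤ) : ℝ)| ≤ T) :
    ‖∑ i, ∑ v ∈ Shg i a b, ch w i v * (starRingEnd ℂ) (ch w' i v)‖ ≤
      Fintype.card (Cl d) * ((K : ℝ) * K) * (C * (T ^ κ + (b / K ^ 2) ^ (1 - c))) := by
  classical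
  have hterm : ∀ i : Cl d, ‖∑ v ∈ Shg i a b, ch w i v * (starRingEnd ℂ) (ch w' i v)‖ ≤
      ((K : ℝ) * K) * (C * (T ^ κ + (b / K ^ 2) ^ (1 - c))) := by
    intro i
    rw [← Finset.sum_fiberwise (Shg i a b) (fun v => cl K v)
      (fun v => ch w i v * (starRingEnd ℂ) (ch w' i v))]
    have h1 : ∀ α : ZMod K × ZMod K, ‖∑ v ∈ (Shg i a b).filter (fun v => cl K v = α),
        ch w i v * (starRingEnd ℂ) (ch w' i v)‖ ≤ C * (T ^ κ + (b / K ^ 2) ^ (1 - c)) := by
      intro α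
      have h2 : ∑ v ∈ (Shg i a b).filter (fun v => cl K v = α),
          ch w i v * (starRingEnd ℂ) (ch w' i v) =
          ((starRingEnd ℂ) ((bv d K w.1 w.2 : Hs d K) (i, α)) *
            (bv d K w'.1 w'.2 : Hs d K) (i, α)) *
          ∑ v ∈ (Shg i a b).filter (fun v => cl K v = α), uu (rep i) v ^ (w.1 - w'.1) := by
        rw [Finset.mul_sum]
        refine Finset.sum_congr rfl fun v hv => ?_
        rw [Finset.mem_filter, mem_Shg] at hv
        rw [ch_conj96 w w' i hv.1.1, hv.2]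
      rw [h2, norm_mul, norm_mul, RCLike.norm_conj]
      have h3 := H i (w.1 - w'.1) (sub_ne_zero.2 hne) hT K (rz α) (Nat.pos_of_neZero K)
        ((Shg i a b).filter (fun v => cl K v = α)) (fun v => by
          rw [Finset.mem_filter, mem_Shg, cl_iff96]
          constructor
          · rintro ⟨⟨_, h4, h5⟩, h6, h7⟩
            exact ⟨h6, h7, h4, h5⟩
          · rintro ⟨h4, h5, h6, h7⟩
            refine ⟨⟨?_, h6, h7⟩, h4, h5⟩
            rintro rfl
            have : (rep i).q (0 : V) = 0 := by simp [Form.q]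
            rw [this, Int.cast_zero] at h6
            linarith)
      have h4 := bv_le w (i, α)
      have h5 := bv_le w' (i, α)
      calc _ ≤ 1 * 1 * (C * (T ^ κ + (b / K ^ 2) ^ (1 - c))) := by
            refine mul_le_mul (mul_le_mul h4 h5 (norm_nonneg _) zero_le_one) h3
              (norm_nonneg _) (by norm_num)
        _ = _ := by ring
    refine (norm_sum_le _ _).trans ((Finset.sum_le_sum fun α _ => h1 α).trans ?_)
    rw [Finset.sum_const, Finset.card_univ, Fintype.card_prod, ZMod.card, nsmul_eq_mul]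
    push_cast
    exact le_rfl
  refine (norm_sum_le _ _).trans ((Finset.sum_le_sum fun i _ => hterm i).trans ?_)
  rw [Finset.sum_const, Finset.card_univ, nsmul_eq_mul]
  exact le_of_eq (by ring)

/-- the frequencies with a given first coordinate -/
theorem card_fib96 (U : Finset (Fq d K)) (j : ℤ) :
    ((U.filter (fun w => w.1 = j)).card : ℝ) ≤ Fintype.card (Cl d) * ((K : ℝ) * K) := by
  classical
  have h1 : U.filter (fun w => w.1 = j) ⊆
      ({j} : Finset ℤ).sigma (fun j => (Finset.univ : Finset (Fin (mm d K j)))) := by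
    intro w hw
    rw [Finset.mem_filter] at hw
    rw [Finset.mem_sigma, Finset.mem_singleton]
    exact ⟨hw.2, Finset.mem_univ _⟩
  have h2 := Finset.card_le_card h1
  rw [Finset.card_sigma, Finset.sum_singleton, Finset.card_univ, Fintype.card_fin] at h2
  have h3 := h2.trans (mm_le (d := d) (K := K) j)
  exact_mod_cast h3

end HmuG96

open HmuG96

theorem stHmuG_96 (d K : ℕ) [NeZero K] : StHmuG d K := by
  classical
  intro r1 r2 hr1 hr12
  obtain ⟨c, C, hc, hc2, hC, H⟩ := unif96 d (1 / 16) (by norm_num)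
  set R : ℝ := max r2 1 with hR
  have hR1 : 1 ≤ R := le_max_right _ _
  have hR2 : r2 ≤ R := le_max_left _ _
  set n0 : ℝ := ((Fintype.card (Cl d) : ℕ) : ℝ) with hn0
  have hn00 : 0 ≤ n0 := Nat.cast_nonneg _
  set kk : ℝ := (K : ℝ) * K with hkk
  have hkk0 : 0 ≤ kk := by positivity
  set M0 : ℝ := n0 * (38 * R) with hM0
  have hM00 : 0 ≤ M0 := by positivity
  set C' : ℝ := n0 * kk * (C * (2 + R)) with hC'
  have hC'0 : 0 ≤ C' := by positivity
  refine ⟨c, M0 * (n0 * kk * M0 + C') + 1, 1, hc, by positivity, le_rfl, ?_⟩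
  intro N hN U hU hUs a ha
  have hN0 : (0 : ℝ) < N := by linarith
  have hRN : 1 ≤ R * N := by nlinarith
  have hb : r2 * N ≤ R * N := by gcongr
  set Sg : Finset (Σ _ : Cl d, V) := Finset.univ.sigma (fun i => Shg i (r1 * N) (r2 * N)) with hSg
  have hcard : (Sg.card : ℝ) ≤ M0 * N := by
    rw [hSg, Finset.card_sigma]
    push_cast
    refine (Finset.sum_le_sum fun i _ => card_Shg96 i hb hRN).trans ?_
    rw [Finset.sum_const, Finset.card_univ, nsmul_eq_mul, hM0]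
    exact le_of_eq (by ring)
  have hne : ∀ x ∈ Sg, x.2 ≠ 0 := by
    intro x hx
    rw [hSg, Finset.mem_sigma, mem_Shg] at hx
    exact hx.2.1
  have hNc : (0 : ℝ) ≤ N ^ (1 - c) := by positivity
  have hG : ∀ w ∈ U, ∑ w' ∈ U, ‖∑ x ∈ Sg, (((fun _ => 1) x : ℝ) : ℂ) *
      (ch w x.1 x.2 * (starRingEnd ℂ) (ch w' x.1 x.2))‖ ≤ (n0 * kk * M0 + C') * N := by
    intro w hw
    have h1 : ∀ w' ∈ U, ‖∑ x ∈ Sg, (((fun _ => 1) x : ℝ) : ℂ) *
        (ch w x.1 x.2 * (starRingEnd ℂ) (ch w' x.1 x.2))‖ ≤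
        (if w'.1 = w.1 then M0 * N else 0) + C' * N ^ (1 - c) := by
      intro w' hw'
      have h2 : ∑ x ∈ Sg, (((fun _ => 1) x : ℝ) : ℂ) *
          (ch w x.1 x.2 * (starRingEnd ℂ) (ch w' x.1 x.2)) =
          ∑ i, ∑ v ∈ Shg i (r1 * N) (r2 * N), ch w i v * (starRingEnd ℂ) (ch w' i v) := by
        rw [hSg, Finset.sum_sigma]
        refine Finset.sum_congr rfl fun i _ => Finset.sum_congr rfl fun v _ => ?_
        simp
      by_cases hj : w'.1 = w.1
      · rw [if_pos hj]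
        have h3 : ‖∑ x ∈ Sg, (((fun _ => 1) x : ℝ) : ℂ) *
            (ch w x.1 x.2 * (starRingEnd ℂ) (ch w' x.1 x.2))‖ ≤ M0 * N := by
          refine (norm_sum_le _ _).trans ?_
          have h4 : ∀ x ∈ Sg, ‖(((fun _ => 1) x : ℝ) : ℂ) *
              (ch w x.1 x.2 * (starRingEnd ℂ) (ch w' x.1 x.2))‖ ≤ 1 := by
            intro x hx
            have h5 := norm_ch_le w x.1 (hne x hx)
            have h6 := norm_ch_le w' x.1 (hne x hx)
            rw [norm_mul, norm_mul, RCLike.norm_conj]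
            have h7 : ‖(((fun _ => 1) x : ℝ) : ℂ)‖ = 1 := by simp
            rw [h7, one_mul]
            exact mul_le_one₀ h5 (norm_nonneg _) h6
          refine (Finset.sum_le_sum h4).trans ?_
          rw [Finset.sum_const, nsmul_eq_mul, mul_one]
          exact hcard
        have h4 : 0 ≤ C' * N ^ (1 - c) := by positivity
        linarith
      · rw [if_neg hj, zero_add, h2]
        have hT1 : (1 : ℝ) ≤ 2 * N ^ 4 := by
          have : (1 : ℝ) ≤ N ^ 4 := one_le_pow₀ hN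
          linarith
        have hr2N : 0 ≤ r2 * N := mul_nonneg (hr1.trans hr12.le) hN0.le
        have hKK : (1 : ℝ) ≤ (K : ℝ) ^ 2 := by
          have : 1 ≤ K := Nat.pos_of_neZero K
          exact one_le_pow₀ (by exact_mod_cast this)
        have h3 := off96 (c := c) (C := C) (T := 2 * N ^ 4) (κ := 1 / 16) (a := r1 * N)
          (b := r2 * N) (fun i h hh hhT q α hq S hS =>
            H i (2 * N ^ 4) hT1 h hh hhT q α hq (r1 * N) (r2 * N) (by positivity) (by gcongr) S hS)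
          (by positivity) w w' (Ne.symm hj) (by
            push_cast
            have h5 := (abs_sub (w.1 : ℝ) w'.1).trans (add_le_add (hUs w hw) (hUs w' hw'))
            linarith)
        refine h3.trans ?_
        have h4 : ((2 : ℝ) * N ^ 4) ^ (1 / 16 : ℝ) ≤ 2 * N ^ (1 - c) := by
          rw [Real.mul_rpow (by norm_num) (by positivity)]
          have h5 : (2 : ℝ) ^ (1 / 16 : ℝ) ≤ 2 := by
            calc (2 : ℝ) ^ (1 / 16 : ℝ) ≤ 2 ^ (1 : ℝ) :=
                  Real.rpow_le_rpow_of_exponent_le (by norm_num) (by norm_num)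
              _ = 2 := Real.rpow_one 2
          have h6 : (N ^ 4) ^ (1 / 16 : ℝ) ≤ N ^ (1 - c) := by
            rw [← Real.rpow_natCast, ← Real.rpow_mul hN0.le]
            exact Real.rpow_le_rpow_of_exponent_le hN (by push_cast; linarith)
          exact mul_le_mul h5 h6 (by positivity) (by norm_num)
        have h5 : (r2 * N / (K : ℝ) ^ 2) ^ (1 - c) ≤ R * N ^ (1 - c) := by
          calc (r2 * N / (K : ℝ) ^ 2) ^ (1 - c) ≤ (R * N) ^ (1 - c) := by
                refine Real.rpow_le_rpow (by positivity) ?_ (by linarith)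
                exact (div_le_self hr2N hKK).trans hb
            _ = R ^ (1 - c) * N ^ (1 - c) := Real.mul_rpow (by linarith) hN0.le
            _ ≤ R * N ^ (1 - c) := by
                refine mul_le_mul_of_nonneg_right ?_ hNc
                calc R ^ (1 - c) ≤ R ^ (1 : ℝ) :=
                      Real.rpow_le_rpow_of_exponent_le hR1 (by linarith)
                  _ = R := Real.rpow_one R
        have h6 : C * ((2 * N ^ 4) ^ (1 / 16 : ℝ) + (r2 * N / (K : ℝ) ^ 2) ^ (1 - c)) ≤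
            C * ((2 + R) * N ^ (1 - c)) := by
          refine mul_le_mul_of_nonneg_left ?_ hC.le
          linarith
        calc n0 * kk * (C * ((2 * N ^ 4) ^ (1 / 16 : ℝ) + (r2 * N / (K : ℝ) ^ 2) ^ (1 - c)))
            ≤ n0 * kk * (C * ((2 + R) * N ^ (1 - c))) :=
              mul_le_mul_of_nonneg_left h6 (by positivity)
          _ = C' * N ^ (1 - c) := by
              rw [hC']
              ring
    refine (Finset.sum_le_sum h1).trans ?_
    rw [Finset.sum_add_distrib, Finset.sum_const, nsmul_eq_mul, ← Finset.sum_filter,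
      Finset.sum_const, nsmul_eq_mul]
    have h2 := card_fib96 U w.1
    have h3 : ((U.filter (fun w' => w'.1 = w.1)).card : ℝ) * (M0 * N) ≤ n0 * kk * (M0 * N) :=
      mul_le_mul_of_nonneg_right h2 (by positivity)
    have h4 : (U.card : ℝ) * (C' * N ^ (1 - c)) ≤ C' * N := by
      calc (U.card : ℝ) * (C' * N ^ (1 - c)) ≤ N ^ c * (C' * N ^ (1 - c)) :=
            mul_le_mul_of_nonneg_right hU (by positivity)
        _ = C' * (N ^ c * N ^ (1 - c)) := by ring
        _ = C' * N := by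
            rw [← Real.rpow_add hN0]
            norm_num
    calc _ ≤ n0 * kk * (M0 * N) + C' * N := add_le_add h3 h4
      _ = _ := by ring
  have h := MRS.hm_96 Sg U (fun _ => 1) (fun _ _ => zero_le_one)
    (fun w x => ch w x.1 x.2) (fun x => a x.1 x.2) ((n0 * kk * M0 + C') * N) (by positivity) hG
  have h1 : ∀ w ∈ U, ‖(1 / (N : ℂ)) * ∑ i, ∑ v ∈ Shg i (r1 * N) (r2 * N), a i v * ch w i v‖ ^ 2 =
      (1 / N) ^ 2 * ‖∑ x ∈ Sg, (((fun _ => 1) x : ℝ) : ℂ) * a x.1 x.2 * ch w x.1 x.2‖ ^ 2 := by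
    intro w _
    rw [norm_mul, mul_pow]
    congr 1
    · rw [norm_div, norm_one, Complex.norm_real, Real.norm_of_nonneg hN0.le]
    · congr 2
      rw [hSg, Finset.sum_sigma]
      refine Finset.sum_congr rfl fun i _ => Finset.sum_congr rfl fun v _ => ?_
      simp
  rw [Finset.sum_congr rfl h1, ← Finset.mul_sum]
  have h2 : ∑ x ∈ Sg, ((fun _ => 1) x : ℝ) * ‖a x.1 x.2‖ ^ 2 ≤ M0 * N := by
    calc ∑ x ∈ Sg, ((fun _ => 1) x : ℝ) * ‖a x.1 x.2‖ ^ 2 ≤ ∑ x ∈ Sg, (1 : ℝ) := by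
          refine Finset.sum_le_sum fun x _ => ?_
          have h3 : ‖a x.1 x.2‖ ^ 2 ≤ 1 := pow_le_one₀ (norm_nonneg _) (ha x.1 x.2)
          simpa using h3
      _ = (Sg.card : ℝ) := by simp
      _ ≤ M0 * N := hcard
  calc (1 / N) ^ 2 * ∑ w ∈ U, ‖∑ x ∈ Sg, (((fun _ => 1) x : ℝ) : ℂ) * a x.1 x.2 *
        ch w x.1 x.2‖ ^ 2
      ≤ (1 / N) ^ 2 * ((M0 * N) * ((n0 * kk * M0 + C') * N)) := by
        refine mul_le_mul_of_nonneg_left (h.trans ?_) (by positivity)
        exact mul_le_mul_of_nonneg_right h2 (by positivity)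
    _ = M0 * (n0 * kk * M0 + C') := by field_simp
    _ ≤ M0 * (n0 * kk * M0 + C') + 1 := by linarith

end Pool.Agent.Lib.MP_a17b09_nt.MRSG
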