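import Pool.Agent.Lib.MP_a17b09_nt.CH.Coord70
import Pool.Agent.Lib.MP_a17b09_nt.MRS.LSB19

/-!
MRSG: the large sieve for the directions of lattice vectors with respect to a positive form
(helper22).
-/

set_option autoImplicit false

open Finset

namespace Pool.Agent.Lib.MP_a17b09_nt.MRSG

open CH CH.PE

/-- direction of a vector with respect to `Q` -/
noncomputable def ud (Q : Form) (v : V) : ℂ := tq Q v / (‖tq Q v‖ : ℂ)

namespace LSG22

theorem norm_tq_sq {Q : Form} (hQ : Q.Pos) (v : V) : ‖tq Q v‖ ^ 2 = Q.q v := by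
  rw [← tq_q70 hQ v, ← Complex.normSq_eq_norm_sq, Complex.normSq_apply]
  ring

theorem tq_ne {Q : Form} (hQ : Q.Pos) {v : V} (hv : v ≠ 0) : tq Q v ≠ 0 := by
  have ha : (0 : ℝ) < Q.a := by exact_mod_cast hQ.1
  have hD : (0 : ℝ) < Q.D := by exact_mod_cast hQ.2
  have hsa := Real.sqrt_pos.2 ha
  have hsD := Real.sqrt_pos.2 hD
  intro h
  apply hv
  have h1 := congrArg Complex.re h
  have h2 := congrArg Complex.im h
  unfold tq at h1 h2
  simp only [Complex.zero_re, Complex.zero_im] at h1 h2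
  have h3 : (v.2 : ℝ) = 0 := by
    rw [div_eq_zero_iff] at h2
    rcases h2 with h2 | h2
    · rcases mul_eq_zero.1 h2 with h2 | h2
      · exact absurd h2 hsD.ne'
      · exact h2
    · exfalso; linarith
  rw [h3, mul_zero, zero_div, add_zero] at h1
  have h4 : (v.1 : ℝ) = 0 := by
    rcases mul_eq_zero.1 h1 with h1 | h1
    · exact absurd h1 hsa.ne'
    · exact h1
  exact Prod.ext (by exact_mod_cast h4) (by exact_mod_cast h3)

theorem tq_sub (Q : Form) (v w : V) : tq Q (v - w) = tq Q v - tq Q w := by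
  apply Complex.ext
  · simp only [tq, Prod.fst_sub, Prod.snd_sub, Complex.sub_re]
    push_cast
    ring
  · simp only [tq, Prod.snd_sub, Complex.sub_im]
    push_cast
    ring

theorem tq_smul (Q : Form) (t : ℤ) (v : V) : tq Q (t * v.1, t * v.2) = (t : ℂ) * tq Q v := by
  apply Complex.ext
  · simp only [tq, Complex.mul_re, Complex.intCast_re, Complex.intCast_im]
    push_cast
    ring
  · simp only [tq, Complex.mul_im, Complex.intCast_re, Complex.intCast_im]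
    push_cast
    ring

theorem norm_ud {Q : Form} (hQ : Q.Pos) {v : V} (hv : v ≠ 0) : ‖ud Q v‖ = 1 := by
  unfold ud
  have h : ‖tq Q v‖ ≠ 0 := norm_ne_zero_iff.mpr (tq_ne hQ hv)
  rw [norm_div, Complex.norm_real, norm_norm, div_self h]

/-- the wedge of two vectors and the distance of their directions -/
theorem wd_le {Q : Form} (hQ : Q.Pos) {v w : V} (hv : v ≠ 0) (hw : w ≠ 0) :
    √(Q.D : ℝ) / 2 * |(wd v w : ℝ)| ≤ ‖tq Q v‖ * ‖tq Q w‖ * ‖ud Q v - ud Q w‖ := by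
  have hv' : (0:ℝ) < ‖tq Q v‖ := norm_pos_iff.mpr (tq_ne hQ hv)
  have hw' : (0:ℝ) < ‖tq Q w‖ := norm_pos_iff.mpr (tq_ne hQ hw)
  have h1 : ((starRingEnd ℂ) (tq Q v) * tq Q w).im = √(Q.D : ℝ) / 2 * wd v w := by
    rw [Complex.mul_im, Complex.conj_re, Complex.conj_im, ← tq_wd70 hQ v w]
    ring
  have h2 : (starRingEnd ℂ) (tq Q v) * tq Q w
      = ((‖tq Q v‖ * ‖tq Q w‖ : ℝ) : ℂ) * ((starRingEnd ℂ) (ud Q v) * ud Q w) := by
    unfold ud
    rw [map_div₀, Complex.conj_ofReal]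
    have e1 : (‖tq Q v‖ : ℂ) ≠ 0 := by exact_mod_cast hv'.ne'
    have e2 : (‖tq Q w‖ : ℂ) ≠ 0 := by exact_mod_cast hw'.ne'
    push_cast
    field_simp
  have h3 : (starRingEnd ℂ) (ud Q v) * ud Q w = 1 + (starRingEnd ℂ) (ud Q v) * (ud Q w - ud Q v) := by
    rw [mul_sub, mul_comm ((starRingEnd ℂ) (ud Q v)) (ud Q v), Complex.mul_conj', norm_ud hQ hv]
    simp
  have h4 : |((starRingEnd ℂ) (ud Q v) * ud Q w).im| ≤ ‖ud Q v - ud Q w‖ := by
    rw [h3, Complex.add_im, Complex.one_im, zero_add]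
    refine (Complex.abs_im_le_norm _).trans ?_
    rw [norm_mul, RCLike.norm_conj, norm_ud hQ hv, one_mul, norm_sub_rev]
  have h5 : √(Q.D : ℝ) / 2 * |(wd v w : ℝ)| = |√(Q.D : ℝ) / 2 * wd v w| := by
    rw [abs_mul, abs_of_nonneg (by positivity : (0:ℝ) ≤ √(Q.D : ℝ) / 2)]
  rw [h5, ← h1, h2, Complex.im_ofReal_mul, abs_mul, abs_of_pos (mul_pos hv' hw')]
  exact mul_le_mul_of_nonneg_left h4 (mul_pos hv' hw').le

theorem prim_ne {v : V} (hv : Prim v) : v ≠ 0 := by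
  rintro rfl
  unfold Prim at hv
  simp at hv

theorem collinear {v w : V} (hv : Prim v) (hw : Prim w) (h : wd v w = 0) : w = v ∨ w = -v :=
  MRS19.prim_collinear (Int.isCoprime_iff_gcd_eq_one.2 hv) (Int.isCoprime_iff_gcd_eq_one.2 hw) h

theorem norm_tq_le {Q : Form} (hQ : Q.Pos) {v : V} {X : ℝ} (h : (Q.q v : ℝ) ≤ X) :
    ‖tq Q v‖ ≤ √X := by
  apply Real.le_sqrt_of_sq_le
  rw [norm_tq_sq hQ]
  exact h

/-- separation of the directions of primitive vectors -/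
theorem ud_sep {Q : Form} (hQ : Q.Pos) : ∃ c : ℝ, 0 < c ∧ ∀ X : ℝ, 1 ≤ X → ∀ v w : V, Prim v →
    Prim w → (Q.q v : ℝ) ≤ X → (Q.q w : ℝ) ≤ X → v ≠ w → c / X ≤ ‖ud Q v - ud Q w‖ := by
  have hD : (0 : ℝ) < Q.D := by exact_mod_cast hQ.2
  have hsD := Real.sqrt_pos.2 hD
  refine ⟨min (√(Q.D : ℝ) / 2) 1, by positivity, ?_⟩
  intro X hX v w hv hw hvX hwX hne
  have hX0 : 0 < X := by linarith
  have hv0 := prim_ne hv
  have hw0 := prim_ne hw
  by_cases h : wd v w = 0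
  · rcases collinear hv hw h with h1 | h1
    · exact absurd h1.symm hne
    · have h2 : ud Q w = - ud Q v := by
        rw [h1]
        unfold ud
        have : tq Q (-v) = - tq Q v := by
          have := tq_sub Q 0 v
          have h0 : tq Q 0 = 0 := by
            have := tq_sub Q 0 0
            simpa using this
          rw [zero_sub, h0, zero_sub] at this
          exact this
        rw [this, norm_neg, neg_div]
      rw [h2, sub_neg_eq_add, ← two_mul, norm_mul, norm_ud hQ hv0]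
      have h4 : ‖(2:ℂ)‖ = 2 := by simp
      rw [h4, div_le_iff₀ hX0]
      have := min_le_right (√(Q.D : ℝ) / 2) 1
      linarith
  · have h1 : (1:ℝ) ≤ |(wd v w : ℝ)| := by
      rw [← Int.cast_abs]
      exact_mod_cast Int.one_le_abs h
    have h2 := wd_le hQ hv0 hw0
    have h3 : ‖tq Q v‖ * ‖tq Q w‖ ≤ X := by
      have e1 := norm_tq_le hQ hvX
      have e2 := norm_tq_le hQ hwX
      calc ‖tq Q v‖ * ‖tq Q w‖ ≤ √X * √X := by gcongr
        _ = X := Real.mul_self_sqrt hX0.le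
    rw [div_le_iff₀ hX0]
    calc min (√(Q.D : ℝ) / 2) 1 ≤ √(Q.D : ℝ) / 2 := min_le_left _ _
      _ ≤ √(Q.D : ℝ) / 2 * |(wd v w : ℝ)| := by nlinarith
      _ ≤ ‖tq Q v‖ * ‖tq Q w‖ * ‖ud Q v - ud Q w‖ := h2
      _ ≤ X * ‖ud Q v - ud Q w‖ := mul_le_mul_of_nonneg_right h3 (norm_nonneg _)
      _ = ‖ud Q v - ud Q w‖ * X := mul_comm _ _

/-- **Large sieve for primitive vectors.** -/
theorem lsp_22 {Q : Form} (hQ : Q.Pos) : ∃ C : ℝ, 0 < C ∧ ∀ (X : ℝ) (J : ℕ), 1 ≤ X →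
    ∀ S : Finset V, (∀ v ∈ S, Prim v ∧ (Q.q v : ℝ) ≤ X) → ∀ a : V → ℂ,
    ∑ j ∈ Finset.Icc (-(J:ℤ)) J, ‖∑ v ∈ S, a v * ud Q v ^ j‖ ^ 2 ≤
      C * (X + J) * ∑ v ∈ S, ‖a v‖ ^ 2 := by
  obtain ⟨c, hc, hsep⟩ := ud_sep hQ
  refine ⟨800 * (1 / c + 1), by positivity, ?_⟩
  intro X J hX S hS a
  have hX0 : 0 < X := by linarith
  have h := MRS19.ls_sep S (ud Q) (fun v hv => norm_ud hQ (prim_ne (hS v hv).1)) (c / X)
    (by positivity) (fun v hv w hw hne => hsep X hX v w (hS v hv).1 (hS w hw).1 (hS v hv).2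
      (hS w hw).2 hne) J a
  refine h.trans ?_
  apply mul_le_mul_of_nonneg_right _ (Finset.sum_nonneg fun _ _ => by positivity)
  have hJ : (0 : ℝ) ≤ J := Nat.cast_nonneg J
  have h1 : 1 / (c / X) = 1 / c * X := by field_simp
  rw [h1]
  have h2 : 0 ≤ 1 / c * (J : ℝ) := by positivity
  nlinarith

/-- **Large sieve, collinear vectors grouped by rays.** -/
theorem lsr_22 {Q : Form} (hQ : Q.Pos) : ∃ C : ℝ, 0 < C ∧ ∀ (X : ℝ) (J : ℕ), 1 ≤ X →
    ∀ S : Finset V, (∀ v ∈ S, v ≠ 0 ∧ (Q.q v : ℝ) ≤ X) → ∀ a : V → ℂ,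
    ∑ j ∈ Finset.Icc (-(J:ℤ)) J, ‖∑ v ∈ S, a v * ud Q v ^ j‖ ^ 2 ≤
      C * (X + J) * ∑ u ∈ S.image MRS19.pr, ‖∑ v ∈ S with MRS19.pr v = u, a v‖ ^ 2 := by
  classical
  obtain ⟨C, hC, h⟩ := lsp_22 hQ
  refine ⟨C, hC, ?_⟩
  intro X J hX S hS a
  have htq : ∀ v : V, v ≠ 0 → tq Q v = ((Int.gcd v.1 v.2 : ℤ) : ℂ) * tq Q (MRS19.pr v) := by
    intro v hv
    obtain ⟨e1, e2⟩ := MRS19.eq_gcd_mul v
    rw [← tq_smul]
    congr 1
    exact Prod.ext e1 e2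
  have hud : ∀ v : V, v ≠ 0 → ud Q (MRS19.pr v) = ud Q v := by
    intro v hv
    have hg : (0:ℝ) < (Int.gcd v.1 v.2 : ℝ) := by exact_mod_cast MRS19.gcd_pos hv
    unfold ud
    rw [htq v hv, norm_mul]
    have hg' : (((Int.gcd v.1 v.2 : ℤ) : ℂ)) ≠ 0 := by exact_mod_cast hg.ne'
    have hn : ‖(((Int.gcd v.1 v.2 : ℤ) : ℂ))‖ = (Int.gcd v.1 v.2 : ℝ) := by
      rw [Int.cast_natCast, Complex.norm_natCast]
    have hz : (‖tq Q (MRS19.pr v)‖ : ℂ) ≠ 0 := by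
      have := norm_pos_iff.mpr (tq_ne hQ (MRS19.prim_ne_zero (MRS19.pr_coprime hv)))
      exact_mod_cast this.ne'
    rw [hn]
    push_cast
    push_cast at hg'
    field_simp
  have h1 : ∀ j : ℤ, ∑ v ∈ S, a v * ud Q v ^ j
      = ∑ u ∈ S.image MRS19.pr, (∑ v ∈ S with MRS19.pr v = u, a v) * ud Q u ^ j := by
    intro j
    rw [← sum_fiberwise_of_maps_to (fun v hv => mem_image_of_mem MRS19.pr hv)]
    refine sum_congr rfl fun u _ => ?_
    rw [sum_mul]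
    refine sum_congr rfl fun v hv => ?_
    rw [mem_filter] at hv
    rw [← hv.2, hud v (hS v hv.1).1]
  simp_rw [h1]
  apply h X J hX (S.image MRS19.pr)
  intro u hu
  rw [mem_image] at hu
  obtain ⟨v, hv, rfl⟩ := hu
  refine ⟨Int.isCoprime_iff_gcd_eq_one.1 (MRS19.pr_coprime (hS v hv).1), ?_⟩
  refine le_trans ?_ (hS v hv).2
  rw [← norm_tq_sq hQ, ← norm_tq_sq hQ, htq v (hS v hv).1, norm_mul, mul_pow]
  have hg : (1:ℝ) ≤ (Int.gcd v.1 v.2 : ℝ) := by exact_mod_cast MRS19.gcd_pos (hS v hv).1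
  have hn : ‖(((Int.gcd v.1 v.2 : ℤ) : ℂ))‖ = (Int.gcd v.1 v.2 : ℝ) := by
    rw [Int.cast_natCast, Complex.norm_natCast]
  rw [hn]
  have h3 : 0 ≤ ‖tq Q (MRS19.pr v)‖ ^ 2 := by positivity
  have h4 : (1 : ℝ) ≤ (Int.gcd v.1 v.2 : ℝ) ^ 2 := one_le_pow₀ hg
  nlinarith

/-- vectors with the same wedge with a primitive vector, close to each other -/
theorem line_card {Q : Form} (hQ : Q.Pos) {u : V} (hu : Prim u) (R : ℝ) (hR : 0 ≤ R)
    (W : Finset V) (m : ℤ) (hW : ∀ w ∈ W, wd u w = m ∧ ‖tq Q w‖ ≤ R) :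
    (W.card : ℝ) ≤ 4 * R / ‖tq Q u‖ + 1 := by
  have hu0 := tq_ne hQ (prim_ne hu)
  have hun : 0 < ‖tq Q u‖ := norm_pos_iff.2 hu0
  rcases W.eq_empty_or_nonempty with he | ⟨w0, hw0⟩
  · rw [he]
    simp only [card_empty, Nat.cast_zero]
    positivity
  obtain ⟨x, y, hxy⟩ := Int.isCoprime_iff_gcd_eq_one.2 hu
  set t : V → ℤ := fun w => x * (w.1 - w0.1) + y * (w.2 - w0.2) with ht
  have hline : ∀ w ∈ W, w - w0 = (t w * u.1, t w * u.2) := by
    intro w hw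
    have h0 : wd u w - wd u w0 = 0 := by rw [(hW w hw).1, (hW w0 hw0).1, sub_self]
    unfold wd at h0
    have e1 : w.1 - w0.1 = t w * u.1 := by
      rw [ht]; linear_combination (-(w.1 - w0.1)) * hxy - y * h0
    have e2 : w.2 - w0.2 = t w * u.2 := by
      rw [ht]; linear_combination (-(w.2 - w0.2)) * hxy + x * h0
    exact Prod.ext e1 e2
  have hT : ∀ w ∈ W, (|t w| : ℝ) ≤ 2 * R / ‖tq Q u‖ := by
    intro w hw
    rw [le_div_iff₀ hun]
    have h1 : ‖tq Q (w - w0)‖ = |(t w : ℝ)| * ‖tq Q u‖ := by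
      rw [hline w hw, tq_smul, norm_mul, Complex.norm_intCast]
    rw [← h1, tq_sub]
    have := norm_sub_le (tq Q w) (tq Q w0)
    have h2 := (hW w hw).2
    have h3 := (hW w0 hw0).2
    linarith
  set T : ℤ := ⌊2 * R / ‖tq Q u‖⌋ with hTd
  have hT0 : 0 ≤ T := by rw [hTd]; exact Int.floor_nonneg.2 (by positivity)
  have hmaps : ∀ w ∈ W, t w ∈ Finset.Icc (-T) T := by
    intro w hw
    have h1 : |t w| ≤ T := by
      rw [hTd, Int.le_floor]
      push_cast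
      exact hT w hw
    rw [Finset.mem_Icc]
    exact abs_le.1 h1
  have hinj : Set.InjOn t W := by
    intro w hw w' hw' h
    have h1 := hline w hw
    have h2 := hline w' hw'
    have h3 : w - w0 = w' - w0 := by rw [h1, h2, h]
    exact sub_left_injective h3
  have hcard := Finset.card_le_card_of_injOn t hmaps hinj
  rw [Int.card_Icc] at hcard
  have h5 : ((T + 1 - -T).toNat : ℝ) = 2 * T + 1 := by
    have h6 : ((T + 1 - -T).toNat : ℤ) = 2 * T + 1 := by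
      rw [Int.toNat_of_nonneg (by omega)]; ring
    exact_mod_cast h6
  have h7 : (T : ℝ) ≤ 2 * R / ‖tq Q u‖ := Int.floor_le _
  calc (W.card : ℝ) ≤ ((T + 1 - -T).toNat : ℝ) := by exact_mod_cast hcard
    _ = 2 * T + 1 := h5
    _ ≤ 2 * (2 * R / ‖tq Q u‖) + 1 := by linarith
    _ = 4 * R / ‖tq Q u‖ + 1 := by ring

/-- the primitive part -/
theorem pr_prim {v : V} (hv : v ≠ 0) : Prim (MRS19.pr v) :=
  Int.isCoprime_iff_gcd_eq_one.1 (MRS19.pr_coprime hv)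

theorem tq_pr (Q : Form) (v : V) :
    tq Q v = ((Int.gcd v.1 v.2 : ℤ) : ℂ) * tq Q (MRS19.pr v) := by
  obtain ⟨e1, e2⟩ := MRS19.eq_gcd_mul v
  rw [← tq_smul]
  congr 1
  exact Prod.ext e1 e2

theorem norm_tq_pr (Q : Form) (v : V) :
    ‖tq Q v‖ = (Int.gcd v.1 v.2 : ℝ) * ‖tq Q (MRS19.pr v)‖ := by
  conv_lhs => rw [tq_pr Q v]
  rw [norm_mul, Int.cast_natCast, Complex.norm_natCast]

theorem wd_pr (v w : V) : wd v w = (Int.gcd v.1 v.2 : ℤ) * wd (MRS19.pr v) w := by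
  obtain ⟨e1, e2⟩ := MRS19.eq_gcd_mul v
  unfold wd
  linear_combination w.2 * e1 - w.1 * e2

/-- **Large sieve, weighted by the gcd.** -/
theorem ls_22 {Q : Form} (hQ : Q.Pos) : ∃ C : ℝ, 0 < C ∧ ∀ (N B : ℝ) (J : ℕ), 1 ≤ N → 1 ≤ B →
    ∀ S : Finset V, (∀ v ∈ S, N ≤ Q.q v ∧ (Q.q v : ℝ) ≤ B * N) → ∀ a : V → ℂ,
    ∑ j ∈ Finset.Icc (-(J:ℤ)) J, ‖∑ v ∈ S, a v * ud Q v ^ j‖ ^ 2 ≤
      C * B ^ 2 * ∑ v ∈ S, ‖a v‖ ^ 2 * (N + (J + 1) * Int.gcd v.1 v.2) := by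
  classical
  have hD : (0 : ℝ) < Q.D := by exact_mod_cast hQ.2
  have hsD := Real.sqrt_pos.2 hD
  set E : ℝ := 5 * (1 + 4 / √(Q.D : ℝ)) with hE
  have hE0 : 0 < E := by positivity
  refine ⟨200 * E, by positivity, ?_⟩
  intro N B J hN hB S hS a
  have hN0 : 0 < N := by linarith
  have hB0 : 0 < B := by linarith
  have hBN : 0 < B * N := by positivity
  have hne : ∀ v ∈ S, v ≠ 0 := by
    intro v hv h0
    have h1 := (hS v hv).1
    rw [h0] at h1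
    have : Q.q 0 = 0 := by unfold Form.q; simp
    rw [this] at h1
    push_cast at h1
    linarith
  have hnv : ∀ v ∈ S, √N ≤ ‖tq Q v‖ ∧ ‖tq Q v‖ ≤ √(B * N) := by
    intro v hv
    refine ⟨?_, norm_tq_le hQ (hS v hv).2⟩
    rw [← Real.sqrt_sq (norm_nonneg (tq Q v)), norm_tq_sq hQ]
    exact Real.sqrt_le_sqrt (hS v hv).1
  have hsB : √B ≤ B := by
    rw [Real.sqrt_le_left (by linarith)]
    nlinarith
  have hsB1 : 1 ≤ √B := Real.one_le_sqrt.2 hB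
  have hsBN : √(B * N) = √B * √N := Real.sqrt_mul hB0.le N
  have hsN : 0 < √N := Real.sqrt_pos.2 hN0
  have h := MRS19.ls_abs S (ud Q) (fun v hv => norm_ud hQ (hne v hv)) (E * B ^ 2) N
    (fun v => (Int.gcd v.1 v.2 : ℝ)) (by positivity) hN0.le (fun v _ => by positivity) ?_ J a
  · refine h.trans (le_of_eq ?_)
    ring
  intro v hv φ hφ
  set g : ℝ := (Int.gcd v.1 v.2 : ℝ) with hg
  have hg1 : 1 ≤ g := by rw [hg]; exact_mod_cast MRS19.gcd_pos (hne v hv)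
  set u := MRS19.pr v with hu
  have hup : Prim u := pr_prim (hne v hv)
  have hun : 0 < ‖tq Q u‖ := norm_pos_iff.2 (tq_ne hQ (prim_ne hup))
  have hvu : ‖tq Q v‖ = g * ‖tq Q u‖ := norm_tq_pr Q v
  set W := S.filter (fun k => ‖ud Q v - ud Q k‖ ≤ φ) with hW
  set M : ℝ := 2 / √(Q.D : ℝ) * (B * N) * φ / g with hM
  have hM0 : 0 ≤ M := by positivity
  have hwd : ∀ w ∈ W, (|wd u w| : ℝ) ≤ M := by
    intro w hw
    rw [hW, mem_filter] at hw
    have h1 := wd_le hQ (hne v hv) (hne w hw.1)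
    have h2 : (wd v w : ℝ) = g * wd u w := by
      rw [wd_pr v w]; push_cast; rfl
    rw [h2, abs_mul, abs_of_nonneg (by linarith : 0 ≤ g)] at h1
    have h3 : ‖tq Q v‖ * ‖tq Q w‖ * ‖ud Q v - ud Q w‖ ≤ B * N * φ := by
      have h4 : ‖tq Q v‖ * ‖tq Q w‖ ≤ B * N := by
        calc ‖tq Q v‖ * ‖tq Q w‖ ≤ √(B * N) * √(B * N) := by
              gcongr
              · exact (hnv v hv).2
              · exact (hnv w hw.1).2
          _ = B * N := Real.mul_self_sqrt hBN.le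
      exact mul_le_mul h4 hw.2 (norm_nonneg _) hBN.le
    have h5 : √(Q.D : ℝ) / 2 * (g * |(wd u w : ℝ)|) ≤ B * N * φ := h1.trans h3
    rw [hM, le_div_iff₀ (by linarith)]
    have h6 : |(wd u w : ℝ)| * g = 2 / √(Q.D : ℝ) * (√(Q.D : ℝ) / 2 * (g * |(wd u w : ℝ)|)) := by
      field_simp
    rw [h6, mul_assoc (2 / √(Q.D : ℝ))]
    gcongr
  set m0 : ℤ := ⌊M⌋ with hm0
  have hm00 : 0 ≤ m0 := Int.floor_nonneg.2 hM0
  have hmaps : ∀ w ∈ W, wd u w ∈ Finset.Icc (-m0) m0 := by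
    intro w hw
    have h1 : |wd u w| ≤ m0 := by
      rw [hm0, Int.le_floor]
      push_cast
      exact hwd w hw
    rw [Finset.mem_Icc]
    exact abs_le.1 h1
  have hfib : ∀ b ∈ Finset.Icc (-m0) m0, (W.filter (fun w => wd u w = b)).card ≤
      ⌊5 * √B * g⌋₊ := by
    intro b _
    apply Nat.le_floor
    have h1 := line_card hQ hup (√(B * N)) (Real.sqrt_nonneg _) (W.filter (fun w => wd u w = b)) b
      (by
        intro w hw
        rw [mem_filter, hW, mem_filter] at hw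
        exact ⟨hw.2, (hnv w hw.1.1).2⟩)
    refine h1.trans ?_
    have h2 : √N ≤ g * ‖tq Q u‖ := by rw [← hvu]; exact (hnv v hv).1
    have h3 : 4 * √(B * N) / ‖tq Q u‖ ≤ 4 * √B * g := by
      rw [div_le_iff₀ hun, hsBN]
      calc 4 * (√B * √N) = 4 * √B * √N := by ring
        _ ≤ 4 * √B * (g * ‖tq Q u‖) := by gcongr
        _ = 4 * √B * g * ‖tq Q u‖ := by ring
    nlinarith
  have hcard := Finset.card_le_mul_card_image_of_maps_to hmaps ⌊5 * √B * g⌋₊ hfib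
  rw [Int.card_Icc] at hcard
  have h5 : ((m0 + 1 - -m0).toNat : ℝ) = 2 * m0 + 1 := by
    have h6 : ((m0 + 1 - -m0).toNat : ℤ) = 2 * m0 + 1 := by
      rw [Int.toNat_of_nonneg (by omega)]; ring
    exact_mod_cast h6
  have h7 : (m0 : ℝ) ≤ M := Int.floor_le _
  have h8 : (⌊5 * √B * g⌋₊ : ℝ) ≤ 5 * √B * g := Nat.floor_le (by positivity)
  calc (W.card : ℝ) ≤ (⌊5 * √B * g⌋₊ : ℝ) * ((m0 + 1 - -m0).toNat : ℝ) := by exact_mod_cast hcard
    _ = (⌊5 * √B * g⌋₊ : ℝ) * (2 * m0 + 1) := by rw [h5]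
    _ ≤ (5 * √B * g) * (2 * M + 1) := by
        have : (0 : ℝ) ≤ m0 := by exact_mod_cast hm00
        gcongr
    _ = 5 * √B * (g + 4 / √(Q.D : ℝ) * B * N * φ) := by
        rw [hM]
        field_simp
        ring
    _ ≤ 5 * B * (g * B * (1 + 4 / √(Q.D : ℝ)) + (1 + 4 / √(Q.D : ℝ)) * B * (N * φ)) := by
        have e1 : 0 ≤ 4 / √(Q.D : ℝ) := by positivity
        have e2 : g ≤ g * B * (1 + 4 / √(Q.D : ℝ)) := by
          have e3 : 1 ≤ B * (1 + 4 / √(Q.D : ℝ)) := by nlinarith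
          nlinarith
        have e4 : 4 / √(Q.D : ℝ) * B * N * φ ≤ (1 + 4 / √(Q.D : ℝ)) * B * (N * φ) := by
          have e5 : 0 ≤ B * (N * φ) := by positivity
          nlinarith
        have e6 : g + 4 / √(Q.D : ℝ) * B * N * φ ≤
            g * B * (1 + 4 / √(Q.D : ℝ)) + (1 + 4 / √(Q.D : ℝ)) * B * (N * φ) := add_le_add e2 e4
        have e7 : 0 ≤ g + 4 / √(Q.D : ℝ) * B * N * φ := by positivity
        calc 5 * √B * (g + 4 / √(Q.D : ℝ) * B * N * φ)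
            ≤ 5 * B * (g + 4 / √(Q.D : ℝ) * B * N * φ) := by gcongr
          _ ≤ _ := by gcongr
    _ = E * B ^ 2 * (g + N * φ) := by rw [hE]; ring

end LSG22

end Pool.Agent.Lib.MP_a17b09_nt.MRSG
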