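import Pool.Agent.Lib.MP_a17b09_nt.MRSG.StructB17
import Pool.Agent.Lib.MP_a17b09_nt.MRSG.LSG22
import Pool.Agent.Lib.MP_a17b09_nt.MRS.TkG84

/-!
MRSG, decomposition by slices for one positive form and a family of similitudes: counting, the
large sieve, Turan-Kubilius, and the pairs `(A, m)` with `m` primitive and `A m` not primitive.
-/

set_option autoImplicit false

open Finset

namespace Pool.Agent.Lib.MP_a17b09_nt.MRSG.Dec21

open CH CH.PE MRS.LatG84 MRS.LatU84 MRS.TkG84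

/-! ### directions and primitive vectors -/

theorem uu_eq_ud {Q : Form} (hQ : Q.Pos) (v : V) : uu Q v = ud Q v := by
  have ha : (0 : ℝ) < Q.a := by exact_mod_cast hQ.1
  have hs : 0 < √(Q.a : ℝ) := Real.sqrt_pos.2 ha
  have hss : √(Q.a : ℝ) * √(Q.a : ℝ) = Q.a := Real.mul_self_sqrt ha.le
  have h1 : lam Q v = ((2 * √(Q.a : ℝ) : ℝ) : ℂ) * tq Q v := by
    unfold lam tq
    apply Complex.ext
    · simp only [Complex.add_re, Complex.ofReal_re, Complex.mul_re, Complex.I_re, mul_zero,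
        Complex.ofReal_im, Complex.I_im, mul_one, sub_zero, zero_mul, sub_self, add_zero]
      push_cast
      field_simp
      rw [sq, hss]
      ring
    · simp only [Complex.add_im, Complex.ofReal_im, Complex.mul_im, Complex.I_im,
        Complex.ofReal_re, Complex.I_re, mul_one, mul_zero, zero_add, add_zero, zero_mul]
      field_simp
  unfold uu ud
  rw [h1, norm_mul, Complex.norm_real, Real.norm_of_nonneg (by positivity)]
  have h2 : ((2 * √(Q.a : ℝ) : ℝ) : ℂ) ≠ 0 := by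
    have : (2 * √(Q.a : ℝ)) ≠ 0 := by positivity
    exact_mod_cast this
  rw [Complex.ofReal_mul (2 * √(Q.a : ℝ)) ‖tq Q v‖, mul_div_mul_left _ _ h2]

theorem dvd_app (A : Mat) (v : V) (g : ℤ) (h1 : g ∣ v.1) (h2 : g ∣ v.2) :
    g ∣ (A.app v).1 ∧ g ∣ (A.app v).2 := by
  unfold Mat.app
  exact ⟨dvd_add (h1.mul_left _) (h2.mul_left _), dvd_add (h1.mul_left _) (h2.mul_left _)⟩

theorem prim_of_app {A : Mat} {v : V} (h : Prim (A.app v)) : Prim v := by
  unfold Prim at h ⊢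
  have h1 := dvd_app A v (Int.gcd v.1 v.2) (Int.gcd_dvd_left ..) (Int.gcd_dvd_right ..)
  have h2 : ((Int.gcd v.1 v.2 : ℕ) : ℤ) ∣ ((Int.gcd (A.app v).1 (A.app v).2 : ℕ) : ℤ) :=
    Int.dvd_coe_gcd h1.1 h1.2
  rw [h] at h2
  have h3 : Int.gcd v.1 v.2 ∣ 1 := by exact_mod_cast h2
  exact Nat.dvd_one.1 h3

theorem app_smul (A : Mat) (c : ℤ) (v : V) : A.app (c • v) = c • A.app v := by
  unfold Mat.app
  ext <;> simp <;> ring

/-- `m` primitive, `A m` not primitive -/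
theorem conj_dvdG {A : Mat} {p : ℕ} (hp : p.Prime) (hA : A.det = p) {m : V} (hm : Prim m)
    (h : ¬ Prim (A.app m)) : ∃ w, m = A.adj.app w ∧ Prim w := by
  have hg : Int.gcd (A.app m).1 (A.app m).2 ≠ 1 := h
  obtain ⟨q, hq, hqg⟩ := Nat.exists_prime_and_dvd hg
  have hqg' : (q : ℤ) ∣ ((Int.gcd (A.app m).1 (A.app m).2 : ℕ) : ℤ) := by exact_mod_cast hqg
  have h1 : (q : ℤ) ∣ (A.app m).1 := hqg'.trans (Int.gcd_dvd_left ..)
  have h2 : (q : ℤ) ∣ (A.app m).2 := hqg'.trans (Int.gcd_dvd_right ..)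
  have hadj := Mat.adj_app A m
  rw [hA] at hadj
  have h3 := dvd_app A.adj (A.app m) q h1 h2
  rw [hadj] at h3
  simp only [Prod.smul_fst, Prod.smul_snd, smul_eq_mul] at h3
  have hqp : q = p := by
    by_contra hne
    have hco : IsCoprime (q : ℤ) (p : ℤ) := by
      rw [Nat.isCoprime_iff_coprime]
      exact (Nat.coprime_primes hq hp).2 hne
    have h4 := hco.dvd_of_dvd_mul_left h3.1
    have h5 := hco.dvd_of_dvd_mul_left h3.2
    have h6 : (q : ℤ) ∣ ((Int.gcd m.1 m.2 : ℕ) : ℤ) := Int.dvd_coe_gcd h4 h5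
    have h7 : Int.gcd m.1 m.2 = 1 := hm
    rw [h7] at h6
    have h8 : q ∣ 1 := by exact_mod_cast h6
    exact hq.one_lt.ne' (Nat.dvd_one.1 h8)
  rw [hqp] at h1 h2
  obtain ⟨w1, hw1⟩ := h1
  obtain ⟨w2, hw2⟩ := h2
  have hp0 : (p : ℤ) ≠ 0 := by exact_mod_cast hp.ne_zero
  have hw : A.app m = (p : ℤ) • ((w1, w2) : V) := by
    ext
    · simpa using hw1
    · simpa using hw2
  have hmw : m = A.adj.app (w1, w2) := by
    rw [hw, app_smul] at hadj
    exact (smul_right_injective V hp0 hadj).symm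
  refine ⟨(w1, w2), hmw, ?_⟩
  rw [hmw] at hm
  exact prim_of_app hm

/-! ### families of similitudes -/

/-- a family of similitudes of `Q` -/
structure Fam {ι : Type} (Q : Form) (P : Finset ι) (p : ι → ℕ) (A : ι → Mat) (Q' : ι → Form) :
    Prop where
  prime : ∀ a ∈ P, (p a).Prime
  det : ∀ a ∈ P, (A a).det = p a
  sim : ∀ a ∈ P, ∀ u, Q.q ((A a).app u) = p a * (Q' a).q u
  pos : ∀ a ∈ P, (Q' a).Pos
  ne : ∀ a ∈ P, ∀ b ∈ P, a ≠ b → p a = p b → ∃ u, ¬ MRS.LatU84.Im (A b) ((A a).app u)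
  fib : ∀ n : ℕ, (P.filter (fun a => p a = n)).card ≤ 2

/-! ### counting -/

theorem mem_ball_real {Q : Form} (hQ : Q.Pos) {x : ℝ} (hx : 0 ≤ x) {v : V} :
    v ∈ Q.ball ⌊x⌋₊ ↔ (Q.q v : ℝ) ≤ x := by
  rw [Form.mem_ball hQ]
  have h1 : ((⌊x⌋₊ : ℕ) : ℤ) = ⌊x⌋ := Int.natCast_floor_eq_floor hx
  rw [h1, Int.le_floor]

theorem card_le_ball {Q : Form} (hQ : Q.Pos) (U : Finset V) (T : ℝ) (hT : 0 ≤ T)
    (hU : ∀ u ∈ U, u ≠ 0 ∧ (Q.q u : ℝ) ≤ T) : (U.card : ℝ) ≤ 38 * T := by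
  classical
  rcases U.eq_empty_or_nonempty with h | ⟨u0, hu0⟩
  · rw [h]; simp; linarith
  have hT1 : 1 ≤ T := by
    have h1 : (1 : ℝ) ≤ Q.q u0 := by
      have := hQ.q_pos (hU u0 hu0).1
      exact_mod_cast this
    exact h1.trans (hU u0 hu0).2
  have hsub : U ⊆ Q.ball ⌊T⌋₊ := fun u hu => (mem_ball_real hQ hT).2 (hU u hu).2
  have h1 : (U.card : ℝ) ≤ (Q.ball ⌊T⌋₊).card := by exact_mod_cast Finset.card_le_card hsub
  have h2 := (abs_le.1 (latU Q hQ ⌊T⌋₊)).2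
  have h3 : ((⌊T⌋₊ : ℕ) : ℝ) ≤ T := Nat.floor_le hT
  have h4 : √((⌊T⌋₊ : ℕ) : ℝ) ≤ T := by
    rw [Real.sqrt_le_left hT]
    nlinarith
  have hk := kap_le Q hQ
  have h5 : kap Q * ((⌊T⌋₊ : ℕ) : ℝ) ≤ 4 * T := by
    apply mul_le_mul hk h3 (Nat.cast_nonneg _) (by norm_num)
  linarith

theorem card_shell {Q : Form} (hQ : Q.Pos) (U : Finset V) (a b : ℝ) (ha : 0 ≤ a) (hab : a ≤ b)
    (hU : ∀ u ∈ U, a < (Q.q u : ℝ) ∧ (Q.q u : ℝ) ≤ b) :
    (U.card : ℝ) ≤ 4 * (b - a + 1) + 34 * (√b + 1) := by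
  classical
  have hb : 0 ≤ b := ha.trans hab
  have hsub : U ⊆ Q.ball ⌊b⌋₊ \ Q.ball ⌊a⌋₊ := by
    intro u hu
    rw [Finset.mem_sdiff, mem_ball_real hQ hb, mem_ball_real hQ ha, not_le]
    exact ⟨(hU u hu).2, (hU u hu).1⟩
  have hsub2 : Q.ball ⌊a⌋₊ ⊆ Q.ball ⌊b⌋₊ := by
    intro u hu
    rw [mem_ball_real hQ ha] at hu
    rw [mem_ball_real hQ hb]
    exact hu.trans hab
  have h0 : (U.card : ℝ) ≤ (Q.ball ⌊b⌋₊).card - (Q.ball ⌊a⌋₊).card := by
    have h1 := Finset.card_le_card hsub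
    rw [Finset.card_sdiff_of_subset hsub2] at h1
    have h2 := Finset.card_le_card hsub2
    have h3 : ((U.card : ℕ) : ℝ) ≤ (((Q.ball ⌊b⌋₊).card - (Q.ball ⌊a⌋₊).card : ℕ) : ℝ) := by
      exact_mod_cast h1
    rwa [Nat.cast_sub h2] at h3
  have h1 := (abs_le.1 (latU Q hQ ⌊b⌋₊)).2
  have h2 := (abs_le.1 (latU Q hQ ⌊a⌋₊)).1
  have h3 : ((⌊b⌋₊ : ℕ) : ℝ) ≤ b := Nat.floor_le hb
  have h3' : ((⌊a⌋₊ : ℕ) : ℝ) ≤ a := Nat.floor_le ha
  have h4 : a - 1 ≤ ((⌊a⌋₊ : ℕ) : ℝ) := by linarith [Nat.lt_floor_add_one a]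
  have h5 : √((⌊b⌋₊ : ℕ) : ℝ) ≤ √b := Real.sqrt_le_sqrt h3
  have h6 : √((⌊a⌋₊ : ℕ) : ℝ) ≤ √b := Real.sqrt_le_sqrt (h3'.trans hab)
  have hk := kap_le Q hQ
  have hk0 := kap_pos hQ
  have h8 : ((⌊b⌋₊ : ℕ) : ℝ) - ((⌊a⌋₊ : ℕ) : ℝ) ≤ b - a + 1 := by linarith
  have h7 : kap Q * (((⌊b⌋₊ : ℕ) : ℝ) - ((⌊a⌋₊ : ℕ) : ℝ)) ≤ 4 * (b - a + 1) :=
    (mul_le_mul_of_nonneg_left h8 hk0.le).trans
      (mul_le_mul_of_nonneg_right hk (by linarith))
  linarith

/-! ### the large sieve -/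

/-- the large sieve for primitive vectors with `Q v ≤ B N`, normalized -/
theorem lsNG {Q : Form} (hQ : Q.Pos) (B : ℝ) (hB : 1 ≤ B) : ∃ C : ℝ, 0 < C ∧ ∀ (N : ℝ), 1 ≤ N →
    ∀ J : ℕ, (J : ℝ) ≤ N → ∀ S : Finset V, (∀ v ∈ S, Prim v ∧ (Q.q v : ℝ) ≤ B * N) →
    ∀ a : V → ℂ,
    ∑ j ∈ Finset.Icc (-(J : ℤ)) J, ‖(1 / (N : ℂ)) * ∑ v ∈ S, a v * uu Q v ^ j‖ ^ 2 ≤
      C / N * ∑ v ∈ S, ‖a v‖ ^ 2 := by
  obtain ⟨C1, hC1, hls⟩ := LSG22.lsp_22 hQ
  refine ⟨2 * B * C1, by positivity, ?_⟩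
  intro N hN J hJ S hS a
  have hN0 : (0 : ℝ) < N := by linarith
  have hBN : 1 ≤ B * N := by nlinarith
  have hmain := hls (B * N) J hBN S hS a
  have hSn : 0 ≤ ∑ v ∈ S, ‖a v‖ ^ 2 := Finset.sum_nonneg fun v _ => by positivity
  calc ∑ j ∈ Finset.Icc (-(J : ℤ)) J, ‖(1 / (N : ℂ)) * ∑ v ∈ S, a v * uu Q v ^ j‖ ^ 2
      = (1 / N) ^ 2 * ∑ j ∈ Finset.Icc (-(J : ℤ)) J, ‖∑ v ∈ S, a v * ud Q v ^ j‖ ^ 2 := by
        rw [Finset.mul_sum]
        refine Finset.sum_congr rfl fun j _ => ?_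
        rw [norm_mul, mul_pow, norm_div, norm_one, Complex.norm_real,
          Real.norm_of_nonneg hN0.le]
        simp only [uu_eq_ud hQ]
    _ ≤ (1 / N) ^ 2 * (C1 * (B * N + J) * ∑ v ∈ S, ‖a v‖ ^ 2) :=
        mul_le_mul_of_nonneg_left hmain (by positivity)
    _ ≤ (1 / N) ^ 2 * (C1 * (B * N + B * N) * ∑ v ∈ S, ‖a v‖ ^ 2) := by
        apply mul_le_mul_of_nonneg_left _ (by positivity)
        apply mul_le_mul_of_nonneg_right _ hSn
        apply mul_le_mul_of_nonneg_left _ hC1.le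
        nlinarith
    _ = 2 * B * C1 / N * ∑ v ∈ S, ‖a v‖ ^ 2 := by
        field_simp
        ring

/-! ### the pairs with `A m` not primitive -/

/-- the pointwise inequality -/
theorem sq_leG {ι : Type} (P : Finset ι) (p : ι → ℕ) (hp : ∀ a ∈ P, 0 < p a)
    (hfib : ∀ n : ℕ, (P.filter (fun a => p a = n)).card ≤ 2) (x : ι → ℝ)
    (hx : ∀ a, x a = 0 ∨ x a = 1) :
    (∑ a ∈ P, x a) ^ 2 ≤ 4 * ∑ a ∈ P, x a * p a := by
  classical
  have hx0 : ∀ a, 0 ≤ x a := by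
    intro a
    rcases hx a with h | h <;> rw [h] <;> norm_num
  have h1 : ∀ a ∈ P, ∀ a' ∈ P, x a * x a' ≤
      x a * (if p a' ≤ p a then 1 else 0) + x a' * (if p a ≤ p a' then 1 else 0) := by
    intro a _ a' _
    rcases hx a with h | h <;> rcases hx a' with h' | h' <;> rw [h, h'] <;> split_ifs <;>
      first | (exfalso; omega) | norm_num
  have hK : ∀ a ∈ P, (∑ a' ∈ P, (if p a' ≤ p a then (1 : ℝ) else 0)) ≤ 2 * p a := by
    intro a _
    rw [Finset.sum_ite, Finset.sum_const_zero, add_zero, Finset.sum_const, nsmul_eq_mul, mul_one]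
    have h2 : (P.filter (fun a' => p a' ≤ p a)).card ≤ 2 * (Finset.Icc 1 (p a)).card := by
      apply Finset.card_le_mul_card_image_of_maps_to (f := p)
      · intro a' ha'
        rw [Finset.mem_filter] at ha'
        exact Finset.mem_Icc.2 ⟨hp a' ha'.1, ha'.2⟩
      · intro n _
        refine (Finset.card_le_card ?_).trans (hfib n)
        intro a' ha'
        rw [Finset.mem_filter, Finset.mem_filter] at ha'
        rw [Finset.mem_filter]
        exact ⟨ha'.1.1, ha'.2⟩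
    rw [Nat.card_Icc, Nat.add_sub_cancel] at h2
    exact_mod_cast h2
  calc (∑ a ∈ P, x a) ^ 2 = ∑ a ∈ P, ∑ a' ∈ P, x a * x a' := by
        rw [sq, Finset.sum_mul_sum]
    _ ≤ ∑ a ∈ P, ∑ a' ∈ P, (x a * (if p a' ≤ p a then 1 else 0) +
          x a' * (if p a ≤ p a' then 1 else 0)) :=
        Finset.sum_le_sum fun a ha => Finset.sum_le_sum fun a' ha' => h1 a ha a' ha'
    _ = 2 * ∑ a ∈ P, x a * ∑ a' ∈ P, (if p a' ≤ p a then (1 : ℝ) else 0) := by
        simp only [Finset.sum_add_distrib]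
        have e : ∑ a ∈ P, ∑ a' ∈ P, x a' * (if p a ≤ p a' then (1 : ℝ) else 0) =
            ∑ a ∈ P, ∑ a' ∈ P, x a * (if p a' ≤ p a then (1 : ℝ) else 0) :=
          Finset.sum_comm
        rw [e]
        simp only [← Finset.mul_sum]
        ring
    _ ≤ 2 * ∑ a ∈ P, x a * (2 * p a) := by
        apply mul_le_mul_of_nonneg_left _ (by norm_num)
        exact Finset.sum_le_sum fun a ha => mul_le_mul_of_nonneg_left (hK a ha) (hx0 a)
    _ = 4 * ∑ a ∈ P, x a * p a := by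
        rw [Finset.mul_sum, Finset.mul_sum]
        refine Finset.sum_congr rfl fun a _ => ?_
        ring

/-- **pairs with `A m` not primitive** -/
theorem conjG {Q : Form} (hQ : Q.Pos) (B : ℝ) (hB : 1 ≤ B) : ∃ C : ℝ, 0 < C ∧ ∀ (N : ℝ), 1 ≤ N →
    ∀ {ι : Type} (P : Finset ι) (p : ι → ℕ) (A : ι → Mat) (Q' : ι → Form), Fam Q P p A Q' →
    ∀ J : ℕ, (J : ℝ) ≤ N →
    ∀ S : ι → Finset V, (∀ a ∈ P, ∀ m ∈ S a, Prim m) → ∀ c : ι → V → ℂ,
    (∀ a ∈ P, ∀ m ∈ S a, ‖c a m‖ ≤ 1) →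
    (∀ a ∈ P, ∀ m ∈ S a, c a m ≠ 0 → ¬ Prim ((A a).app m) ∧
      (Q.q ((A a).app m) : ℝ) ≤ B * N) →
    ∑ j ∈ Finset.Icc (-(J : ℤ)) J, ‖(1 / (N : ℂ)) * ∑ a ∈ P, ∑ m ∈ S a,
      c a m * uu Q ((A a).app m) ^ j‖ ^ 2 ≤ C * ∑ a ∈ P, 1 / (p a : ℝ) := by
  classical
  obtain ⟨C1, hC1, hls⟩ := lsNG hQ B hB
  refine ⟨152 * B * C1, by positivity, ?_⟩
  intro N hN ι P p A Q' hF J hJ S hS c hc1 hc
  have hN0 : (0 : ℝ) < N := by linarith
  have hBN : 0 ≤ B * N := by nlinarith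
  obtain ⟨W, hWmem⟩ : ∃ W : Finset V, ∀ w, w ∈ W ↔ Prim w ∧ (Q.q w : ℝ) ≤ B * N := by
    refine ⟨(Q.ball ⌊B * N⌋₊).filter Prim, fun w => ?_⟩
    rw [Finset.mem_filter, mem_ball_real hQ hBN, and_comm]
  set e : V → ℂ := fun w => ∑ a ∈ P, if (A a).adj.app w ∈ S a then c a ((A a).adj.app w) else 0
    with he
  have hp0 : ∀ a ∈ P, (0 : ℤ) < p a := fun a ha => by exact_mod_cast (hF.prime a ha).pos
  have hpw : ∀ a ∈ P, ∀ w : V, (A a).app ((A a).adj.app w) = (p a : ℤ) • w := by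
    intro a ha w
    rw [Mat.app_adj, hF.det a ha]
  have hqw : ∀ a ∈ P, ∀ w : V, (Q.q ((A a).app ((A a).adj.app w)) : ℝ) =
      (p a : ℝ) ^ 2 * Q.q w := by
    intro a ha w
    rw [hpw a ha]
    unfold Form.q
    simp only [Prod.smul_fst, Prod.smul_snd, smul_eq_mul]
    push_cast
    ring
  -- regrouping
  have hkey : ∀ a ∈ P, ∀ j : ℤ, ∑ m ∈ S a, c a m * uu Q ((A a).app m) ^ j =
      ∑ w ∈ W, (if (A a).adj.app w ∈ S a then c a ((A a).adj.app w) else 0) * uu Q w ^ j := by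
    intro a ha j
    have hinj : ∀ x y : V, (A a).adj.app x = (A a).adj.app y → x = y := by
      intro x y hxy
      have h1 := congrArg (A a).app hxy
      rw [hpw a ha, hpw a ha] at h1
      exact smul_right_injective V (hp0 a ha).ne' h1
    have h1 : ∑ w ∈ W, (if (A a).adj.app w ∈ S a then c a ((A a).adj.app w) else 0) *
        uu Q w ^ j = ∑ w ∈ W.filter (fun w => (A a).adj.app w ∈ S a),
          c a ((A a).adj.app w) * uu Q ((A a).app ((A a).adj.app w)) ^ j := by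
      rw [Finset.sum_filter]
      refine Finset.sum_congr rfl fun w _ => ?_
      rw [hpw a ha, uu_smul Q (hp0 a ha)]
      split_ifs
      · rfl
      · rw [zero_mul]
    have h2 : ∑ w ∈ W.filter (fun w => (A a).adj.app w ∈ S a),
          c a ((A a).adj.app w) * uu Q ((A a).app ((A a).adj.app w)) ^ j =
        ∑ m ∈ (W.filter (fun w => (A a).adj.app w ∈ S a)).image (fun w => (A a).adj.app w),
          c a m * uu Q ((A a).app m) ^ j := by
      rw [Finset.sum_image]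
      intro x _ y _ hxy
      exact hinj x y hxy
    rw [h1, h2]
    symm
    apply Finset.sum_subset
    · intro m hm
      obtain ⟨w, hw, rfl⟩ := Finset.mem_image.1 hm
      exact (Finset.mem_filter.1 hw).2
    · intro m hm hnot
      by_cases h0 : c a m = 0
      · rw [h0, zero_mul]
      · exfalso
        apply hnot
        obtain ⟨hnp, hle⟩ := hc a ha m hm h0
        obtain ⟨w, rfl, hw⟩ := conj_dvdG (hF.prime a ha) (hF.det a ha) (hS a ha m hm) hnp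
        rw [Finset.mem_image]
        refine ⟨w, ?_, rfl⟩
        rw [Finset.mem_filter, hWmem]
        refine ⟨⟨hw, ?_⟩, hm⟩
        rw [hqw a ha] at hle
        have h3 : (1 : ℝ) ≤ (p a : ℝ) ^ 2 := by
          have : (1 : ℝ) ≤ p a := by exact_mod_cast (hF.prime a ha).pos
          nlinarith
        have h4 : (0 : ℝ) ≤ Q.q w := by exact_mod_cast hQ.q_nonneg w
        nlinarith
  have hsum : ∀ j : ℤ, ∑ a ∈ P, ∑ m ∈ S a, c a m * uu Q ((A a).app m) ^ j =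
      ∑ w ∈ W, e w * uu Q w ^ j := by
    intro j
    rw [Finset.sum_congr rfl fun a ha => hkey a ha j, Finset.sum_comm]
    refine Finset.sum_congr rfl fun w _ => ?_
    rw [he, Finset.sum_mul]
  -- the coefficients
  set x : V → ι → ℝ := fun w a =>
    if (p a : ℝ) ^ 2 * Q.q w ≤ B * N then 1 else 0 with hx
  have hex : ∀ w, ‖e w‖ ≤ ∑ a ∈ P, x w a := by
    intro w
    rw [he]
    refine (norm_sum_le _ _).trans (Finset.sum_le_sum fun a ha => ?_)
    rw [hx]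
    simp only
    have hx0 : (0 : ℝ) ≤ if (p a : ℝ) ^ 2 * Q.q w ≤ B * N then 1 else 0 := by
      split_ifs <;> norm_num
    by_cases hm : (A a).adj.app w ∈ S a
    · rw [if_pos hm]
      by_cases h0 : c a ((A a).adj.app w) = 0
      · rw [h0, norm_zero]
        exact hx0
      · have h1 := (hc a ha _ hm h0).2
        rw [hqw a ha] at h1
        rw [if_pos h1]
        exact hc1 _ ha _ hm
    · rw [if_neg hm, norm_zero]
      exact hx0
  have hE : ∑ w ∈ W, ‖e w‖ ^ 2 ≤ 152 * B * N * ∑ a ∈ P, 1 / (p a : ℝ) := by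
    calc ∑ w ∈ W, ‖e w‖ ^ 2 ≤ ∑ w ∈ W, (∑ a ∈ P, x w a) ^ 2 :=
          Finset.sum_le_sum fun w _ => pow_le_pow_left₀ (norm_nonneg _) (hex w) 2
      _ ≤ ∑ w ∈ W, 4 * ∑ a ∈ P, x w a * p a := by
          refine Finset.sum_le_sum fun w _ => sq_leG P p (fun a ha => (hF.prime a ha).pos) hF.fib
            (x w) fun a => ?_
          rw [hx]
          simp only
          split_ifs
          · right; rfl
          · left; rfl
      _ = 4 * ∑ a ∈ P, (∑ w ∈ W, x w a) * p a := by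
          rw [← Finset.mul_sum, Finset.sum_comm]
          congr 1
          refine Finset.sum_congr rfl fun a _ => ?_
          rw [Finset.sum_mul]
      _ ≤ 4 * ∑ a ∈ P, (38 * (B * N / (p a : ℝ) ^ 2)) * p a := by
          apply mul_le_mul_of_nonneg_left _ (by norm_num)
          refine Finset.sum_le_sum fun a ha => ?_
          have hpos : (0 : ℝ) < p a := by exact_mod_cast (hF.prime a ha).pos
          refine mul_le_mul_of_nonneg_right ?_ hpos.le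
          rw [hx]
          simp only
          rw [Finset.sum_ite, Finset.sum_const_zero, add_zero, Finset.sum_const, nsmul_eq_mul,
            mul_one]
          refine card_le_ball hQ _ _ (by positivity) ?_
          intro u hu
          rw [Finset.mem_filter, hWmem] at hu
          refine ⟨LSG22.prim_ne hu.1.1, ?_⟩
          rw [le_div_iff₀ (by positivity)]
          linarith [hu.2]
      _ = 152 * B * N * ∑ a ∈ P, 1 / (p a : ℝ) := by
          rw [Finset.mul_sum, Finset.mul_sum]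
          refine Finset.sum_congr rfl fun a ha => ?_
          have hpos : (0 : ℝ) < p a := by exact_mod_cast (hF.prime a ha).pos
          field_simp
          ring
  have hmain := hls N hN J hJ W (fun w hw => (hWmem w).1 hw) e
  calc ∑ j ∈ Finset.Icc (-(J : ℤ)) J, ‖(1 / (N : ℂ)) * ∑ a ∈ P, ∑ m ∈ S a,
        c a m * uu Q ((A a).app m) ^ j‖ ^ 2
      = ∑ j ∈ Finset.Icc (-(J : ℤ)) J, ‖(1 / (N : ℂ)) * ∑ w ∈ W, e w * uu Q w ^ j‖ ^ 2 := by
        refine Finset.sum_congr rfl fun j _ => ?_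
        rw [hsum j]
    _ ≤ C1 / N * ∑ w ∈ W, ‖e w‖ ^ 2 := hmain
    _ ≤ C1 / N * (152 * B * N * ∑ a ∈ P, 1 / (p a : ℝ)) :=
        mul_le_mul_of_nonneg_left hE (by positivity)
    _ = 152 * B * C1 * ∑ a ∈ P, 1 / (p a : ℝ) := by
        field_simp

end Pool.Agent.Lib.MP_a17b09_nt.MRSG.Dec21
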