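import Pool.Agent.Lib.MP_a17b09_nt.MRSG.StmtsG29
import Pool.Agent.Lib.MP_a17b09_nt.MRSG.DecGA21

/-!
MRSG, LIP: the normalized sums over the balls vary slowly, uniformly in the frequency.
-/

set_option autoImplicit false

open Finset

namespace Pool.Agent.Lib.MP_a17b09_nt.MRSG

open CH CH.PE

namespace Lip42

/-- the weight has absolute value one -/
theorem norm_gz42 {z : ℂ} (hz : ‖z‖ = 1) (Q : Form) (v : V) : ‖gz z Q v‖ = 1 := by
  unfold gz
  rw [norm_pow, hz, one_pow]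

variable {d K : ℕ} [NeZero K]

/-- the unnormalized sum over the ball -/
noncomputable def T (z : ℂ) (x : ℝ) (w : Fq d K) : ℂ :=
  ∑ i, ∑ v ∈ Shg i 0 x, gz z (rep i) v * ch w i v

theorem Mag_eq (z : ℂ) (x : ℝ) (w : Fq d K) : Mag z 0 1 x w = (1 / (x : ℂ)) * T z x w := by
  unfold Mag T
  rw [zero_mul, one_mul]

theorem term_le {z : ℂ} (hz : ‖z‖ = 1) (w : Fq d K) (i : Cl d) {v : V} (hv : v ≠ 0) :
    ‖gz z (rep i) v * ch w i v‖ ≤ 1 := by
  rw [norm_mul, norm_gz42 hz, one_mul]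
  exact norm_ch_le w i hv

theorem T_le {z : ℂ} (hz : ‖z‖ = 1) (w : Fq d K) {x : ℝ} (hx : 0 ≤ x) :
    ‖T z x w‖ ≤ Fintype.card (Cl d) * (38 * x) := by
  unfold T
  refine (norm_sum_le _ _).trans ?_
  calc ∑ i : Cl d, ‖∑ v ∈ Shg i 0 x, gz z (rep i) v * ch w i v‖
      ≤ ∑ _i : Cl d, 38 * x := by
        refine Finset.sum_le_sum fun i _ => ?_
        refine (norm_sum_le _ _).trans ?_
        have h1 : ((Shg i 0 x).card : ℝ) ≤ 38 * x :=
          Dec21.card_le_ball (rep_pos i) _ x hx fun u hu =>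
            ⟨(mem_Shg.1 hu).1, (mem_Shg.1 hu).2.2⟩
        refine le_trans (Finset.sum_le_sum fun v hv => term_le hz w i (mem_Shg.1 hv).1) ?_
        rw [Finset.sum_const, nsmul_eq_mul, mul_one]
        exact h1
    _ = _ := by rw [Finset.sum_const, Finset.card_univ, nsmul_eq_mul]

theorem T_sub {z : ℂ} (hz : ‖z‖ = 1) (w : Fq d K) {x y : ℝ} (hx : 0 ≤ x) (hxy : x ≤ y) :
    ‖T z y w - T z x w‖ ≤ Fintype.card (Cl d) * (4 * (y - x + 1) + 34 * (√y + 1)) := by
  classical
  unfold T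
  rw [← Finset.sum_sub_distrib]
  refine (norm_sum_le _ _).trans ?_
  calc ∑ i : Cl d, ‖∑ v ∈ Shg i 0 y, gz z (rep i) v * ch w i v -
        ∑ v ∈ Shg i 0 x, gz z (rep i) v * ch w i v‖
      ≤ ∑ _i : Cl d, (4 * (y - x + 1) + 34 * (√y + 1)) := by
        refine Finset.sum_le_sum fun i _ => ?_
        have hsub : Shg i 0 x ⊆ Shg i 0 y := by
          intro v hv
          obtain ⟨h1, h2, h3⟩ := mem_Shg.1 hv
          exact mem_Shg.2 ⟨h1, h2, h3.trans hxy⟩
        rw [← Finset.sum_sdiff hsub, add_sub_cancel_right]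
        refine (norm_sum_le _ _).trans ?_
        have h1 : ((Shg i 0 y \ Shg i 0 x).card : ℝ) ≤ 4 * (y - x + 1) + 34 * (√y + 1) := by
          refine Dec21.card_shell (rep_pos i) _ x y hx hxy fun u hu => ?_
          obtain ⟨h1, h2⟩ := Finset.mem_sdiff.1 hu
          obtain ⟨h3, h4, h5⟩ := mem_Shg.1 h1
          refine ⟨?_, h5⟩
          by_contra hcon
          exact h2 (mem_Shg.2 ⟨h3, h4, not_lt.1 hcon⟩)
        refine le_trans (Finset.sum_le_sum fun v hv =>
          term_le hz w i (mem_Shg.1 (Finset.mem_sdiff.1 hv).1).1) ?_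
        rw [Finset.sum_const, nsmul_eq_mul, mul_one]
        exact h1
    _ = _ := by rw [Finset.sum_const, Finset.card_univ, nsmul_eq_mul]

end Lip42

open Lip42 in
theorem stLipG_42 (d K : ℕ) [NeZero K] : StLipG d K := by
  intro z hz
  obtain ⟨H, hH⟩ : ∃ H : ℝ, H = ((Fintype.card (Cl d) : ℕ) : ℝ) := ⟨_, rfl⟩
  have hH0 : 0 ≤ H := by rw [hH]; exact Nat.cast_nonneg _
  refine ⟨72 * (H + 1), by positivity, ?_⟩
  intro w x y hx hxy
  have hx0 : 0 < x := by linarith
  have hy0 : 0 < y := by linarith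
  have hy1 : 1 ≤ y := by linarith
  have hxc : (x : ℂ) ≠ 0 := by exact_mod_cast hx0.ne'
  have hyc : (y : ℂ) ≠ 0 := by exact_mod_cast hy0.ne'
  rw [Mag_eq, Mag_eq]
  have e : (1 / (x : ℂ)) * T z x w - (1 / (y : ℂ)) * T z y w =
      (((1 / x - 1 / y : ℝ)) : ℂ) * T z x w - ((1 / y : ℝ) : ℂ) * (T z y w - T z x w) := by
    push_cast
    ring
  have hxy' : 1 / y ≤ 1 / x := one_div_le_one_div_of_le hx0 hxy
  have h1 := T_le (K := K) hz w hx0.le
  have h2 := T_sub (K := K) hz w hx0.le hxy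
  rw [← hH] at h1 h2
  have hlog : 1 - x / y ≤ Real.log (y / x) := by
    have h3 := Real.one_sub_inv_le_log_of_pos (div_pos hy0 hx0)
    rwa [inv_div] at h3
  have hsq : √x * √x = x := Real.mul_self_sqrt hx0.le
  have hsy : √y * √y = y := Real.mul_self_sqrt hy0.le
  have hsx1 : 1 ≤ √x := Real.one_le_sqrt.2 hx
  have hsy1 : 1 ≤ √y := Real.one_le_sqrt.2 hy1
  have hsxy : √x ≤ √y := Real.sqrt_le_sqrt hxy
  have ha : √y / y ≤ 1 / √x := by
    rw [div_le_div_iff₀ hy0 (by linarith)]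
    nlinarith
  have hb : 1 / y ≤ 1 / √x := by
    apply one_div_le_one_div_of_le (by linarith)
    nlinarith
  rw [e]
  calc ‖(((1 / x - 1 / y : ℝ)) : ℂ) * T z x w - ((1 / y : ℝ) : ℂ) * (T z y w - T z x w)‖
      ≤ (1 / x - 1 / y) * (H * (38 * x)) +
          (1 / y) * (H * (4 * (y - x + 1) + 34 * (√y + 1))) := by
        refine (norm_sub_le _ _).trans ?_
        rw [norm_mul, norm_mul, Complex.norm_real, Complex.norm_real,
          Real.norm_of_nonneg (by linarith), Real.norm_of_nonneg (by positivity)]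
        exact add_le_add (mul_le_mul_of_nonneg_left h1 (by linarith))
          (mul_le_mul_of_nonneg_left h2 (by positivity))
    _ = H * (42 * (1 - x / y) + 38 * (1 / y) + 34 * (√y / y)) := by
        field_simp
        ring
    _ ≤ H * (42 * Real.log (y / x) + 72 * (1 / √x)) := by
        refine mul_le_mul_of_nonneg_left ?_ hH0
        linarith
    _ ≤ 72 * (H + 1) * (Real.log (y / x) + 1 / √x) := by
        have hl0 : 0 ≤ Real.log (y / x) := Real.log_nonneg (by rw [le_div_iff₀ hx0]; linarith)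
        have hp : 0 ≤ 1 / √x := by positivity
        nlinarith [mul_nonneg hH0 hl0, mul_nonneg hH0 hp]

end Pool.Agent.Lib.MP_a17b09_nt.MRSG
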