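import Pool.Agent.Lib.MP_a17b09_nt.MRSG.StmtsG29
import Pool.Agent.Lib.MP_a17b09_nt.MRSG.LSG22
import Pool.Agent.Lib.MP_a17b09_nt.MRSG.ExpG96

/-! MRSG: the large sieve in the eigenbasis (`StLspG`, `StLsG`), from `LSG22`. -/

set_option autoImplicit false

open Filter Topology Finset

namespace Pool.Agent.Lib.MP_a17b09_nt.MRSG

open CH CH.PE

variable {d K : ℕ} [NeZero K]

/-- from one class of forms and one class modulo `K` to the eigenbasis -/
theorem ls_red (J : ℕ) (S : Cl d → Finset V) (a : Cl d → V → ℂ) (W : Cl d → V → ℝ)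
    (h : ∀ i, ∀ α : ZMod K × ZMod K, ∑ j ∈ Finset.Icc (-(J : ℤ)) J,
      ‖∑ v ∈ (S i).filter (fun v => cl K v = α), a i v * uu (rep i) v ^ j‖ ^ 2 ≤
        ∑ v ∈ (S i).filter (fun v => cl K v = α), W i v) :
    ∑ w ∈ SJ d K J, ‖∑ i, ∑ v ∈ S i, a i v * ch w i v‖ ^ 2 ≤ ∑ i, ∑ v ∈ S i, W i v := by
  rw [sum_SJ]
  have h1 : ∀ j : ℤ, ∑ k : Fin (mm d K j), ‖∑ i, ∑ v ∈ S i, a i v * ch (⟨j, k⟩ : Fq d K) i v‖ ^ 2 ≤
      ∑ i, ∑ α : ZMod K × ZMod K,
        ‖∑ v ∈ (S i).filter (fun v => cl K v = α), a i v * uu (rep i) v ^ j‖ ^ 2 := by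
    intro j
    have h2 := co_bessel j (vec K S a j)
    rw [Fintype.sum_prod_type] at h2
    refine le_trans (le_of_eq ?_) h2
    exact Finset.sum_congr rfl fun k _ => by rw [co_vec]
  refine (Finset.sum_le_sum fun j _ => h1 j).trans ?_
  rw [Finset.sum_comm]
  refine Finset.sum_le_sum fun i _ => ?_
  rw [Finset.sum_comm]
  refine (Finset.sum_le_sum fun α _ => h i α).trans (le_of_eq ?_)
  exact Finset.sum_fiberwise (S i) (fun v => cl K v) (fun v => W i v)

theorem stLspG_29 (d K : ℕ) [NeZero K] : StLspG d K := by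
  choose C hC h using fun i : Cl d => LSG22.lsp_22 (rep_pos i)
  refine ⟨∑ i, C i + 1, ?_, ?_⟩
  · have : 0 ≤ ∑ i, C i := Finset.sum_nonneg fun i _ => (hC i).le
    linarith
  intro X J hX S hS a
  refine (ls_red J S a (fun i v => (∑ i, C i + 1) * (X + J) * ‖a i v‖ ^ 2)
    fun i α => ?_).trans (le_of_eq ?_)
  · have h1 := h i X J hX ((S i).filter (fun v => cl K v = α))
      (fun v hv => hS i v (Finset.mem_filter.1 hv).1) (a i)
    rw [← Finset.mul_sum]
    have h2 : ∀ j : ℤ, ∑ v ∈ (S i).filter (fun v => cl K v = α), a i v * uu (rep i) v ^ j =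
        ∑ v ∈ (S i).filter (fun v => cl K v = α), a i v * ud (rep i) v ^ j := by
      intro j
      refine Finset.sum_congr rfl fun v hv => ?_
      rw [ExpG96.uu_tq (rep_pos i)]
      rfl
    rw [Finset.sum_congr rfl fun j _ => by rw [h2 j]]
    refine h1.trans ?_
    have h3 : C i ≤ ∑ i, C i + 1 := by
      have := Finset.single_le_sum (f := C) (fun i _ => (hC i).le) (Finset.mem_univ i)
      linarith
    have h4 : 0 ≤ ∑ v ∈ (S i).filter (fun v => cl K v = α), ‖a i v‖ ^ 2 :=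
      Finset.sum_nonneg fun _ _ => by positivity
    have h5 : (0 : ℝ) ≤ X + J := by positivity
    exact mul_le_mul_of_nonneg_right (mul_le_mul_of_nonneg_right h3 h5) h4
  · rw [Finset.mul_sum]
    exact Finset.sum_congr rfl fun i _ => by rw [Finset.mul_sum]

theorem stLsG_29 (d K : ℕ) [NeZero K] : StLsG d K := by
  choose C hC h using fun i : Cl d => LSG22.ls_22 (rep_pos i)
  refine ⟨∑ i, C i + 1, ?_, ?_⟩
  · have : 0 ≤ ∑ i, C i := Finset.sum_nonneg fun i _ => (hC i).le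
    linarith
  intro N B J hN hB S hS a
  refine (ls_red J S a (fun i v => (∑ i, C i + 1) * B ^ 2 *
    (‖a i v‖ ^ 2 * (N + (J + 1) * Int.gcd v.1 v.2))) fun i α => ?_).trans (le_of_eq ?_)
  · have h1 := h i N B J hN hB ((S i).filter (fun v => cl K v = α))
      (fun v hv => hS i v (Finset.mem_filter.1 hv).1) (a i)
    rw [← Finset.mul_sum]
    have h2 : ∀ j : ℤ, ∑ v ∈ (S i).filter (fun v => cl K v = α), a i v * uu (rep i) v ^ j =
        ∑ v ∈ (S i).filter (fun v => cl K v = α), a i v * ud (rep i) v ^ j := by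
      intro j
      refine Finset.sum_congr rfl fun v hv => ?_
      rw [ExpG96.uu_tq (rep_pos i)]
      rfl
    rw [Finset.sum_congr rfl fun j _ => by rw [h2 j]]
    refine h1.trans ?_
    have h3 : C i ≤ ∑ i, C i + 1 := by
      have := Finset.single_le_sum (f := C) (fun i _ => (hC i).le) (Finset.mem_univ i)
      linarith
    have h4 : 0 ≤ ∑ v ∈ (S i).filter (fun v => cl K v = α),
        ‖a i v‖ ^ 2 * (N + (J + 1) * (Int.gcd v.1 v.2 : ℝ)) :=
      Finset.sum_nonneg fun _ _ => by positivity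
    exact mul_le_mul_of_nonneg_right (mul_le_mul_of_nonneg_right h3 (by positivity)) h4
  · rw [Finset.mul_sum]
    exact Finset.sum_congr rfl fun i _ => by rw [Finset.mul_sum]

end Pool.Agent.Lib.MP_a17b09_nt.MRSG
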