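import Pool.Agent.Lib.MP_a17b09_nt.MRSG.StmtsG29
import Pool.Agent.Lib.MP_a17b09_nt.MRSG.StructC17
import Pool.Agent.Lib.MP_a17b09_nt.MRSG.DecGA21
import Pool.Agent.Lib.MP_a17b09_nt.MRS.MomAbs16

/-!
MRSG, moments (MOM, MOM1), helper16: the instance of `MRS/MomAbs16` for the classes of forms.
-/

set_option autoImplicit false

open Finset

namespace Pool.Agent.Lib.MP_a17b09_nt.MRSG

open CH CH.PE

/-! ### numbers -/

theorem fac16 (l : ℕ) : ((2 * l).factorial : ℝ) ≤ 4 ^ l * (l.factorial : ℝ) ^ 2 := by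
  have h1 : (2 * l).factorial = Nat.centralBinom l * (l.factorial * l.factorial) := by
    have h2 := Nat.choose_mul_factorial_mul_factorial (show l ≤ 2 * l by omega)
    have h3 : 2 * l - l = l := by omega
    rw [h3] at h2
    rw [Nat.centralBinom_eq_two_mul_choose, ← h2]
    ring
  have h2 : Nat.centralBinom l ≤ 4 ^ l := by
    have h3 := Nat.sum_range_choose (2 * l)
    have h4 : Nat.choose (2 * l) l ≤ ∑ m ∈ Finset.range (2 * l + 1), Nat.choose (2 * l) m :=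
      Finset.single_le_sum (f := fun m => Nat.choose (2 * l) m) (fun _ _ => Nat.zero_le _)
        (Finset.mem_range.2 (by omega))
    rw [h3] at h4
    rw [Nat.centralBinom_eq_two_mul_choose]
    calc Nat.choose (2 * l) l ≤ 2 ^ (2 * l) := h4
      _ = 4 ^ l := by rw [pow_mul]; norm_num
  have h3 : (2 * l).factorial ≤ 4 ^ l * (l.factorial * l.factorial) := by
    rw [h1]; exact Nat.mul_le_mul_right _ h2
  have h4 : ((2 * l).factorial : ℝ) ≤ ((4 ^ l * (l.factorial * l.factorial) : ℕ) : ℝ) := by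
    exact_mod_cast h3
  push_cast at h4
  rw [pow_two]; exact h4

/-- the final constant -/
theorem num16 {C0 C B1 B2 F E R : ℝ} (l : ℕ) (hC0 : 0 ≤ C0) (hC : 0 ≤ C) (hB1 : 0 ≤ B1)
    (hB1e : B1 ≤ Real.exp 1) (hB2 : 0 ≤ B2) (hR0 : 0 ≤ R) (hR : R ≤ 2) (hE : Real.exp E ≤ F) :
    2 * C0 * C * (B1 ^ l * B2) ^ 3 * (121 ^ l * ((2 * l).factorial : ℝ)) * R * Real.exp E ≤
      (4 * C0 * C * B2 ^ 3 * F + Real.exp 3 * 484) ^ (l + 1) * (l.factorial : ℝ) ^ 2 := by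
  have hF : 0 < F := lt_of_lt_of_le (Real.exp_pos E) hE
  have hB1l : (B1 ^ l * B2) ^ 3 ≤ (Real.exp 3) ^ l * B2 ^ 3 := by
    rw [mul_pow, ← pow_mul, mul_comm l 3, pow_mul]
    apply mul_le_mul_of_nonneg_right _ (by positivity)
    apply pow_le_pow_left₀ (by positivity)
    calc B1 ^ 3 ≤ (Real.exp 1) ^ 3 := pow_le_pow_left₀ (by positivity) hB1e 3
      _ = Real.exp 3 := by rw [← Real.exp_nat_mul]; norm_num
  set G : ℝ := 4 * C0 * C * B2 ^ 3 * F with hG
  have hG0 : 0 ≤ G := by positivity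
  have hH0 : (0 : ℝ) < Real.exp 3 * 484 := by positivity
  calc 2 * C0 * C * (B1 ^ l * B2) ^ 3 * (121 ^ l * ((2 * l).factorial : ℝ)) * R * Real.exp E
      ≤ 2 * C0 * C * ((Real.exp 3) ^ l * B2 ^ 3) * (121 ^ l * (4 ^ l * (l.factorial : ℝ) ^ 2)) *
        2 * F := by
        apply mul_le_mul _ hE (Real.exp_pos _).le (by positivity)
        apply mul_le_mul _ hR hR0 (by positivity)
        apply mul_le_mul _ _ (by positivity) (by positivity)
        · apply mul_le_mul_of_nonneg_left hB1l (by positivity)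
        · apply mul_le_mul_of_nonneg_left (fac16 l) (by positivity)
    _ = G * ((Real.exp 3 * 484) ^ l) * (l.factorial : ℝ) ^ 2 := by
        have : (484 : ℝ) ^ l = 121 ^ l * 4 ^ l := by rw [← mul_pow]; norm_num
        rw [hG, mul_pow, this]; ring
    _ ≤ (G + Real.exp 3 * 484) * ((G + Real.exp 3 * 484) ^ l) * (l.factorial : ℝ) ^ 2 := by
        apply mul_le_mul_of_nonneg_right _ (by positivity)
        apply mul_le_mul
        · linarith
        · apply pow_le_pow_left₀ hH0.le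
          linarith
        · positivity
        · positivity
    _ = (G + Real.exp 3 * 484) ^ (l + 1) * (l.factorial : ℝ) ^ 2 := by
        rw [pow_succ' (G + Real.exp 3 * 484)]

/-! ### the instance -/

section inst

variable {d K : ℕ}

/-- the system of the classes of forms -/
noncomputable def MG (d : ℕ) : MRS16a.MSys (Cl d × V) (ℕ × Bool) where
  Val x := x.2 ≠ 0
  p P := P.1
  m P x := ((sg d P).symm x.1, (Mg d P ((sg d P).symm x.1)).app x.2)
  q x := ((rep x.1).q x.2 : ℝ)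
  g x := Int.gcd x.2.1 x.2.2
  pr x := (x.1, MRS19.pr x.2)
  C0 := 38 * (Fintype.card (Cl d) : ℝ)

theorem relm {P : ℕ × Bool} (h : Adm d K P) (i' : Cl d) :
    Rel P.1 (rg d P) (rep ((sg d P).symm i')) (rep i') (Mg d P ((sg d P).symm i')) := by
  have := (rel_g h ((sg d P).symm i')).2
  rwa [Equiv.apply_symm_apply] at this

/-- divisibility is the eigenvector condition -/
theorem D_iff {P : ℕ × Bool} (h : Adm d K P) (x : Cl d × V) (hx : x.2 ≠ 0) :
    (MG d).D P x ↔ Eig P.1 (rg d P) (rep x.1) x.2 := by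
  rw [adm_eig_iff h x.1]
  constructor
  · rintro ⟨y, _, hxy⟩
    have h1 : x = ((sg d P).symm y.1, (Mg d P ((sg d P).symm y.1)).app y.2) := hxy
    rw [h1]
    exact ⟨y.2, rfl⟩
  · rintro ⟨w, hw⟩
    have hw0 : w ≠ 0 := by
      rintro rfl
      apply hx
      rw [← hw]
      unfold Mat.app
      simp
    refine ⟨(sg d P x.1, w), hw0, ?_⟩
    show x = ((sg d P).symm (sg d P x.1), (Mg d P ((sg d P).symm (sg d P x.1))).app w)
    rw [Equiv.symm_apply_apply, hw]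

theorem eig_smul {p r : ℤ} {Q : Form} {v : V} (h1 : p ∣ v.1) (h2 : p ∣ v.2) : Eig p r Q v := by
  obtain ⟨a, ha⟩ := h1
  obtain ⟨b, hb⟩ := h2
  have hv : v = p • ((a, b) : V) := by
    apply Prod.ext
    · simp [ha]
    · simp [hb]
  intro w
  rw [hv, Form.B_smul_right, wd_smul_right]
  exact ⟨Q.B w (a, b) - r * wd w (a, b), by ring⟩

theorem app_dvd_iff {P : ℕ × Bool} (h : Adm d K P) (i' : Cl d) {w : V} :
    Eig P.1 (-rg d P) (rep i') w ↔
      (P.1 : ℤ) ∣ ((Mg d P ((sg d P).symm i')).app w).1 ∧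
      (P.1 : ℤ) ∣ ((Mg d P ((sg d P).symm i')).app w).2 := by
  have R := relm h i'
  have hp : Prime (P.1 : ℤ) := Nat.prime_iff_prime_int.1 h.1
  have hr := (rel_g h i').1
  have hdet := R.det
  have hRi := R.inv hp.ne_zero
  rw [eig_iff hp (neg_nd hr) hRi]
  constructor
  · rintro ⟨u, rfl⟩
    rw [Mat.app_adj, hdet]
    exact ⟨⟨u.1, by simp⟩, ⟨u.2, by simp⟩⟩
  · rintro ⟨⟨a, ha⟩, ⟨b, hb⟩⟩
    refine ⟨(a, b), ?_⟩
    apply app_inj (det_ne h ((sg d P).symm i'))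
    rw [Mat.app_adj, hdet]
    apply Prod.ext
    · rw [ha]; simp
    · rw [hb]; simp

theorem same_prime {P P' : ℕ × Bool} (hpp : P.1 = P'.1) (hne : P ≠ P') :
    rg d P' = -rg d P := by
  have hb : P.2 ≠ P'.2 := fun hb => hne (Prod.ext hpp hb)
  unfold rg
  rw [← hpp]
  cases h1 : P.2 <;> cases h2 : P'.2 <;> simp_all

theorem ax16 (Pi : Finset (ℕ × Bool)) (hPi : ∀ P ∈ Pi, Adm d K P) : (MG d).Ax Pi where
  qpos := by
    intro x hx
    have := (rep_pos x.1).q_pos hx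
    show (0 : ℝ) < ((rep x.1).q x.2 : ℝ)
    exact_mod_cast this
  gpos := by
    intro x hx
    exact (MRS19.gcd_pos hx).ne'
  prime := fun P hP => (hPi P hP).1
  two := by
    intro t _ r ht
    have h1 : t.card ≤ (Finset.univ : Finset Bool).card := by
      apply Finset.card_le_card_of_injOn (fun P => P.2) (fun _ _ => by simp)
      intro P hP P' hP' hE
      exact Prod.ext ((ht P hP).trans (ht P' hP').symm) hE
    simpa using h1
  mval := by
    intro P hP x hx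
    exact app_ne (det_ne (hPi P hP) _) hx
  mq := by
    intro P hP x _
    have h1 := (relm (hPi P hP) x.1).sim x.2
    show ((rep ((sg d P).symm x.1)).q ((Mg d P ((sg d P).symm x.1)).app x.2) : ℝ) =
      (P.1 : ℝ) * ((rep x.1).q x.2 : ℝ)
    rw [h1]; push_cast; rfl
  minj := by
    intro P hP x y _ _ hE
    have h1 : (sg d P).symm x.1 = (sg d P).symm y.1 := congrArg Prod.fst hE
    have h2 : (Mg d P ((sg d P).symm x.1)).app x.2 = (Mg d P ((sg d P).symm y.1)).app y.2 :=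
      congrArg Prod.snd hE
    have h3 : x.1 = y.1 := (sg d P).symm.injective h1
    rw [← h1] at h2
    exact Prod.ext h3 (app_inj (det_ne (hPi P hP) _) h2)
  dup := by
    intro P hP P' hP' x hx hD
    have hv : ((MG d).m P x).2 ≠ 0 := app_ne (det_ne (hPi P hP) _) hx
    rw [D_iff (hPi P' hP') _ hv]
    rw [D_iff (hPi P' hP') x hx] at hD
    show Eig P'.1 (rg d P') (rep ((sg d P).symm x.1)) ((Mg d P ((sg d P).symm x.1)).app x.2)
    have R := relm (hPi P hP) x.1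
    by_cases hne : P = P'
    · rw [← hne]
      exact R.eig x.2
    · by_cases hpp : P.1 = P'.1
      · rw [same_prime hpp hne, ← hpp] at hD ⊢
        obtain ⟨h1, h2⟩ := (app_dvd_iff (hPi P hP) x.1).1 hD
        exact eig_smul h1 h2
      · have hco : IsCoprime (P.1 : ℤ) (P'.1 : ℤ) :=
          Nat.isCoprime_iff_coprime.mpr
            ((Nat.coprime_primes (hPi P hP).1 (hPi P' hP').1).mpr hpp)
        exact Rel.eig_app hco R hD
  ddn := by
    intro P hP P' hP' hne x hx hD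
    have hv : ((MG d).m P x).2 ≠ 0 := app_ne (det_ne (hPi P hP) _) hx
    rw [D_iff (hPi P' hP') _ hv] at hD
    rw [D_iff (hPi P' hP') x hx]
    have hD' : Eig P'.1 (rg d P') (rep ((sg d P).symm x.1))
      ((Mg d P ((sg d P).symm x.1)).app x.2) := hD
    have R := relm (hPi P hP) x.1
    by_cases hpp : P.1 = P'.1
    · rw [same_prime hpp hne, ← hpp] at hD' ⊢
      rw [app_dvd_iff (hPi P hP) x.1]
      have hp : Prime (P.1 : ℤ) := Nat.prime_iff_prime_int.1 (hPi P hP).1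
      exact (eig_both hp (rel_g (hPi P hP) x.1).1).1 ⟨R.eig x.2, hD'⟩
    · have hco : IsCoprime (P.1 : ℤ) (P'.1 : ℤ) :=
        Nat.isCoprime_iff_coprime.mpr
          ((Nat.coprime_primes (hPi P hP).1 (hPi P' hP').1).mpr hpp)
      intro w
      have h1 := hD' ((Mg d P ((sg d P).symm x.1)).app w)
      rw [R.polar, Mat.wd_app, R.det] at h1
      have h2 : (P.1 : ℤ) * (rep x.1).B w x.2 - rg d P' * ((P.1 : ℤ) * wd w x.2) =
          (P.1 : ℤ) * ((rep x.1).B w x.2 - rg d P' * wd w x.2) := by ring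
      rw [h2] at h1
      exact hco.symm.dvd_of_dvd_mul_left h1
  c0 := by
    show (0 : ℝ) ≤ 38 * (Fintype.card (Cl d) : ℝ)
    positivity
  cnt := by
    classical
    intro U T hT hU
    show (U.card : ℝ) ≤ 38 * (Fintype.card (Cl d) : ℝ) * T
    have h1 : U.card = ∑ i : Cl d, (U.filter (fun x => x.1 = i)).card :=
      Finset.card_eq_sum_card_fiberwise (fun x _ => Finset.mem_univ _)
    have h2 : ∀ i : Cl d, ((U.filter (fun x => x.1 = i)).card : ℝ) ≤ 38 * T := by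
      intro i
      have h3 : (U.filter (fun x => x.1 = i)).card =
          ((U.filter (fun x => x.1 = i)).image Prod.snd).card := by
        rw [Finset.card_image_of_injOn]
        intro x hx y hy hE
        exact Prod.ext ((Finset.mem_filter.1 hx).2.trans (Finset.mem_filter.1 hy).2.symm) hE
      rw [h3]
      apply Dec21.card_le_ball (rep_pos i) _ T hT
      intro u hu
      obtain ⟨x, hx, rfl⟩ := Finset.mem_image.1 hu
      obtain ⟨hx1, hx2⟩ := Finset.mem_filter.1 hx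
      have := hU x hx1
      rw [← hx2]
      exact this
    rw [h1]
    push_cast
    calc ∑ i : Cl d, ((U.filter (fun x => x.1 = i)).card : ℝ) ≤ ∑ _i : Cl d, 38 * T :=
          Finset.sum_le_sum (fun i _ => h2 i)
      _ = _ := by rw [Finset.sum_const, Finset.card_univ, nsmul_eq_mul]; ring
  prval := by
    intro x hx
    exact MRS19.prim_ne_zero (MRS19.pr_coprime hx)
  prq := by
    intro x _
    have h1 : x.2 = (Int.gcd x.2.1 x.2.2 : ℤ) • MRS19.pr x.2 := by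
      obtain ⟨e1, e2⟩ := MRS19.eq_gcd_mul x.2
      exact Prod.ext e1 e2
    have h2 := Form.q_smul (rep x.1) (Int.gcd x.2.1 x.2.2 : ℤ) (MRS19.pr x.2)
    rw [← h1] at h2
    show ((rep x.1).q x.2 : ℝ) = ((Int.gcd x.2.1 x.2.2 : ℕ) : ℝ) ^ 2 *
      ((rep x.1).q (MRS19.pr x.2) : ℝ)
    rw [h2]; push_cast; rfl
  prinj := by
    intro x y _ _ hg hpr
    have hpr' : ((x.1, MRS19.pr x.2) : Cl d × V) = (y.1, MRS19.pr y.2) := hpr
    obtain ⟨h1, h2⟩ := Prod.mk.inj hpr'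
    have h3 : Int.gcd x.2.1 x.2.2 = Int.gcd y.2.1 y.2.2 := hg
    obtain ⟨e1, e2⟩ := MRS19.eq_gcd_mul x.2
    obtain ⟨f1, f2⟩ := MRS19.eq_gcd_mul y.2
    rw [h2, h3] at e1 e2
    exact Prod.ext h1 (Prod.ext (e1.trans f1.symm) (e2.trans f2.symm))
  prd := by
    intro P hP x hx hD
    rw [D_iff (hPi P hP) x hx] at hD
    have hp : Prime (P.1 : ℤ) := Nat.prime_iff_prime_int.1 (hPi P hP).1
    have h1 : x.2 = (Int.gcd x.2.1 x.2.2 : ℤ) • MRS19.pr x.2 := by
      obtain ⟨e1, e2⟩ := MRS19.eq_gcd_mul x.2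
      exact Prod.ext e1 e2
    by_cases hpg : P.1 ∣ Int.gcd x.2.1 x.2.2
    · exact Or.inl hpg
    · right
      have hx' : ((MG d).pr x).2 ≠ 0 := MRS19.prim_ne_zero (MRS19.pr_coprime hx)
      rw [D_iff (hPi P hP) _ hx']
      show Eig P.1 (rg d P) (rep x.1) (MRS19.pr x.2)
      intro w
      have h2 := hD w
      rw [h1, Form.B_smul_right, wd_smul_right] at h2
      have h3 : (Int.gcd x.2.1 x.2.2 : ℤ) * (rep x.1).B w (MRS19.pr x.2) -
          rg d P * ((Int.gcd x.2.1 x.2.2 : ℤ) * wd w (MRS19.pr x.2)) =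
          (Int.gcd x.2.1 x.2.2 : ℤ) * ((rep x.1).B w (MRS19.pr x.2) -
            rg d P * wd w (MRS19.pr x.2)) := by ring
      rw [h3] at h2
      rcases hp.dvd_or_dvd h2 with h4 | h4
      · exact absurd (Int.natCast_dvd_natCast.1 h4) hpg
      · exact h4
  gm := by
    intro P hP x _ r hr hrg
    have R := relm (hPi P hP) x.1
    set A := Mg d P ((sg d P).symm x.1) with hA
    have hadj : A.adj.app (A.app x.2) = (P.1 : ℤ) • x.2 := by rw [Mat.adj_app, R.det]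
    have hrg' : r ∣ Int.gcd (A.app x.2).1 (A.app x.2).2 := hrg
    have hri : Prime (r : ℤ) := Nat.prime_iff_prime_int.1 hr
    have h1 : (r : ℤ) ∣ (A.app x.2).1 :=
      (Int.natCast_dvd_natCast.mpr hrg').trans (Int.gcd_dvd_left _ _)
    have h2 : (r : ℤ) ∣ (A.app x.2).2 :=
      (Int.natCast_dvd_natCast.mpr hrg').trans (Int.gcd_dvd_right _ _)
    have h3 := Dec21.dvd_app A.adj (A.app x.2) r h1 h2
    rw [hadj] at h3
    have h4 : (r : ℤ) ∣ (P.1 : ℤ) * x.2.1 := h3.1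
    have h5 : (r : ℤ) ∣ (P.1 : ℤ) * x.2.2 := h3.2
    by_cases h6 : (r : ℤ) ∣ (P.1 : ℤ)
    · left
      have h7 : r ∣ P.1 := Int.natCast_dvd_natCast.1 h6
      exact (Nat.prime_dvd_prime_iff_eq hr (hPi P hP).1).1 h7
    · right
      have h7 := (hri.dvd_or_dvd h4).resolve_left h6
      have h8 := (hri.dvd_or_dvd h5).resolve_left h6
      exact Int.natCast_dvd_natCast.1 (Int.dvd_coe_gcd h7 h8)

end inst

/-! ### characters, large sieve -/

section chars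

variable {d K : ℕ} [NeZero K]

/-- the characters -/
noncomputable def chi (w : Fq d K) (x : Cl d × V) : ℂ := ch w x.1 x.2

theorem chi_m {P : ℕ × Bool} (h : Adm d K P) (w : Fq d K) (x : Cl d × V) (hx : x.2 ≠ 0) :
    chi w ((MG d).m P x) = cw P w * chi w x := by
  show ch w ((sg d P).symm x.1) ((Mg d P ((sg d P).symm x.1)).app x.2) = cw P w * ch w x.1 x.2
  rw [ch_M h w _ hx, Equiv.apply_symm_apply]

open Classical in
/-- sums over a finite set of pairs -/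
theorem sum_pairs (S : Finset (Cl d × V)) (f : Cl d × V → ℂ) :
    ∑ x ∈ S, f x = ∑ i, ∑ v ∈ ((S.filter (fun x => x.1 = i)).image Prod.snd), f (i, v) := by
  classical
  rw [← Finset.sum_fiberwise S (fun x => x.1) f]
  refine Finset.sum_congr rfl fun i _ => ?_
  rw [Finset.sum_image]
  · refine Finset.sum_congr rfl fun x hx => ?_
    rw [← (Finset.mem_filter.1 hx).2]
  · intro x hx y hy hE
    exact Prod.ext ((Finset.mem_filter.1 hx).2.trans (Finset.mem_filter.1 hy).2.symm) hE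

open Classical in
/-- sums over a finite set of pairs -/
theorem sum_pairs_real (S : Finset (Cl d × V)) (f : Cl d × V → ℝ) :
    ∑ x ∈ S, f x = ∑ i, ∑ v ∈ ((S.filter (fun x => x.1 = i)).image Prod.snd), f (i, v) := by
  classical
  rw [← Finset.sum_fiberwise S (fun x => x.1) f]
  refine Finset.sum_congr rfl fun i _ => ?_
  rw [Finset.sum_image]
  · refine Finset.sum_congr rfl fun x hx => ?_
    rw [← (Finset.mem_filter.1 hx).2]
  · intro x hx y hy hE
    exact Prod.ext ((Finset.mem_filter.1 hx).2.trans (Finset.mem_filter.1 hy).2.symm) hE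

theorem lsa16 {C : ℝ} (hLS : ∀ (N B : ℝ) (J : ℕ), 1 ≤ N → 1 ≤ B →
    ∀ S : Cl d → Finset V, (∀ i, ∀ v ∈ S i, N ≤ (rep i).q v ∧ ((rep i).q v : ℝ) ≤ B * N) →
    ∀ a : Cl d → V → ℂ, ∑ w ∈ SJ d K J, ‖∑ i, ∑ v ∈ S i, a i v * ch w i v‖ ^ 2 ≤
      C * B ^ 2 * ∑ i, ∑ v ∈ S i, ‖a i v‖ ^ 2 * (N + (J + 1) * Int.gcd v.1 v.2)) (J : ℕ) :
    MRS16a.LSA (MG d) (chi (d := d) (K := K)) (SJ d K J) (J : ℝ) C := by
  classical
  intro S N B a hN hB hS
  have h1 := hLS N B J hN hB (fun i => (S.filter (fun x => x.1 = i)).image Prod.snd) (by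
    intro i v hv
    obtain ⟨x, hx, rfl⟩ := Finset.mem_image.1 hv
    obtain ⟨hx1, hx2⟩ := Finset.mem_filter.1 hx
    have h2 := hS x hx1
    rw [← hx2]
    exact h2.2) (fun i v => a (i, v))
  have h2 : ∀ w : Fq d K, ∑ x ∈ S, a x * chi w x =
      ∑ i, ∑ v ∈ ((S.filter (fun x => x.1 = i)).image Prod.snd), a (i, v) * ch w i v :=
    fun w => sum_pairs S (fun x => a x * chi w x)
  have h3 : ∑ x ∈ S, ‖a x‖ ^ 2 * (N + ((J : ℝ) + 1) * ((MG d).g x : ℝ)) =
      ∑ i, ∑ v ∈ ((S.filter (fun x => x.1 = i)).image Prod.snd),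
        ‖a (i, v)‖ ^ 2 * (N + ((J : ℝ) + 1) * Int.gcd v.1 v.2) :=
    sum_pairs_real S (fun x => ‖a x‖ ^ 2 * (N + ((J : ℝ) + 1) * ((MG d).g x : ℝ)))
  rw [h3]
  refine le_trans (le_of_eq ?_) h1
  refine Finset.sum_congr rfl fun w _ => ?_
  rw [h2 w]

end chars

/-! ### the two statements -/

section fin

variable {d K : ℕ} [NeZero K]

omit [NeZero K] in
theorem slice16 {h u : ℕ} (hh : 0 < h) (_hu : 3 * h ≤ u) :
    1 ≤ Real.exp ((u : ℝ) / h) ∧ 1 ≤ Real.exp (1 / (h : ℝ)) ∧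
    Real.exp (1 / (h : ℝ)) ≤ Real.exp 1 ∧
    (∀ P ∈ slg d K (Real.exp ((u : ℝ) / h)) (Real.exp (((u : ℝ) + 1) / h)),
      Real.exp ((u : ℝ) / h) ≤ (P.1 : ℝ) ∧
        (P.1 : ℝ) ≤ Real.exp (1 / (h : ℝ)) * Real.exp ((u : ℝ) / h)) ∧
    ∑ P ∈ slg d K (Real.exp ((u : ℝ) / h)) (Real.exp (((u : ℝ) + 1) / h)), 1 / (P.1 : ℝ) ≤ 8 := by
  classical
  have hhR : (0 : ℝ) < h := by exact_mod_cast hh
  have hh1 : (1 : ℝ) ≤ h := by exact_mod_cast hh
  have hu0 : (0 : ℝ) ≤ (u : ℝ) / h := by positivity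
  have hZ1 := Real.one_le_exp hu0
  set Z : ℝ := Real.exp ((u : ℝ) / h) with hZ
  have hB1 : 1 ≤ Real.exp (1 / (h : ℝ)) := Real.one_le_exp (by positivity)
  have hB1e : Real.exp (1 / (h : ℝ)) ≤ Real.exp 1 := by
    apply Real.exp_le_exp.2
    rw [div_le_iff₀ hhR, one_mul]
    exact hh1
  set B1 : ℝ := Real.exp (1 / (h : ℝ)) with hB1d
  have hPB : Real.exp (((u : ℝ) + 1) / h) = B1 * Z := by
    rw [hB1d, hZ, ← Real.exp_add]; congr 1; field_simp; ring
  rw [hPB]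
  have hmem : ∀ P ∈ slg d K Z (B1 * Z), Z ≤ (P.1 : ℝ) ∧ (P.1 : ℝ) ≤ B1 * Z := by
    intro P hP
    have := mem_slg.1 hP
    exact ⟨this.2.1, this.2.2.le⟩
  refine ⟨hZ1, hB1, hB1e, hmem, ?_⟩
  have hZ0 : 0 < Z := by linarith
  have h1 : ∀ P ∈ slg d K Z (B1 * Z), 1 / (P.1 : ℝ) ≤ 1 / Z := fun P hP =>
    one_div_le_one_div_of_le hZ0 (hmem P hP).1
  have h2 : ((slg d K Z (B1 * Z)).card : ℝ) ≤ 2 * (B1 * Z + 1) := by
    have h3 : (slg d K Z (B1 * Z)).card ≤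
        ((Finset.range ⌈B1 * Z⌉₊) ×ˢ (Finset.univ : Finset Bool)).card := by
      apply Finset.card_le_card
      unfold slg
      exact Finset.filter_subset _ _
    rw [Finset.card_product, Finset.card_range] at h3
    have h4 : (Finset.univ : Finset Bool).card = 2 := by simp
    rw [h4] at h3
    have h5 : (⌈B1 * Z⌉₊ : ℝ) ≤ B1 * Z + 1 := (Nat.ceil_lt_add_one (by positivity)).le
    have h6 : ((slg d K Z (B1 * Z)).card : ℝ) ≤ (⌈B1 * Z⌉₊ : ℝ) * 2 := by exact_mod_cast h3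
    linarith
  have h3 := Real.exp_one_lt_d9
  calc ∑ P ∈ slg d K Z (B1 * Z), 1 / (P.1 : ℝ) ≤ ∑ _P ∈ slg d K Z (B1 * Z), 1 / Z :=
        Finset.sum_le_sum h1
    _ = (slg d K Z (B1 * Z)).card * (1 / Z) := by rw [Finset.sum_const, nsmul_eq_mul]
    _ ≤ (2 * (B1 * Z + 1)) * (1 / Z) := mul_le_mul_of_nonneg_right h2 (by positivity)
    _ = 2 * B1 + 2 * (1 / Z) := by field_simp
    _ ≤ 8 := by
        have h7 : 1 / Z ≤ 1 := by rw [div_le_one hZ0]; exact hZ1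
        nlinarith

/-- the common form of the two statements -/
theorem momG16 (hLS : StLsG d K) : ∃ C : ℝ, 0 ≤ C ∧ ∀ (z : ℂ), ‖z‖ = 1 → ∀ (h u l J : ℕ)
    (Y B2 : ℝ) (q1 : Finset ℕ) (S : Finset (Cl d × V)) (a : Cl d × V → ℂ), 0 < h → 3 * h ≤ u →
    1 ≤ Y → 1 ≤ B2 → (∀ r ∈ q1, r.Prime) →
    (∀ x ∈ S, x.2 ≠ 0 ∧ (∀ r : ℕ, r.Prime → r ∣ Int.gcd x.2.1 x.2.2 → r ∈ q1) ∧
      Y ≤ ((rep x.1).q x.2 : ℝ) ∧ ((rep x.1).q x.2 : ℝ) ≤ B2 * Y) → (∀ x ∈ S, ‖a x‖ ≤ 1) →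
    (J : ℝ) ≤ Real.exp (l * (u / h)) * Y →
    ∑ w ∈ SJ d K J, ‖Qsg z h u w ^ l * ((1 / (Y : ℂ)) * ∑ x ∈ S, a x * ch w x.1 x.2)‖ ^ 2 ≤
      (C * B2 ^ 3 * Real.exp (40 + 4 * q1.card) + Real.exp 3 * 484) ^ (l + 1) *
        (l.factorial : ℝ) ^ 2 := by
  classical
  obtain ⟨C, hC, hLS⟩ := hLS
  refine ⟨4 * (38 * (Fintype.card (Cl d) : ℝ)) * C, by positivity, ?_⟩
  intro z hz h u l J Y B2 q1 S a hh hu hY hB2 hq1 hS ha hJ
  obtain ⟨s1, s2, s3, s4, s5⟩ := slice16 (d := d) (K := K) hh hu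
  set Z : ℝ := Real.exp ((u : ℝ) / h) with hZ
  set B1 : ℝ := Real.exp (1 / (h : ℝ)) with hB1
  set Pi := slg d K Z (Real.exp (((u : ℝ) + 1) / h)) with hPi
  have hadm : ∀ P ∈ Pi, Adm d K P := fun P hP => (mem_slg.1 hP).1
  set q : Finset ℕ := Pi.image Prod.fst ∪ q1 with hq
  have hqp : ∀ r ∈ q, r.Prime := by
    intro r hr
    rw [hq, Finset.mem_union] at hr
    rcases hr with hr | hr
    · obtain ⟨P, hP, rfl⟩ := Finset.mem_image.1 hr
      exact (hadm P hP).1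
    · exact hq1 r hr
  have key := MRS16a.mom_abs (ax16 Pi hadm) (chi (d := d) (K := K)) (fun w P => cw P w)
    (fun w P hP x hx => chi_m (hadm P hP) w x hx) (SJ d K J) (J := (J : ℝ)) (C := C)
    (Nat.cast_nonneg J) hC.le (lsa16 hLS J) q hqp
    (fun P hP => Finset.mem_union_left _ (Finset.mem_image_of_mem _ hP)) Z B1 Y B2 s1 hY s2 hB2 s4
    (fun _ => z) (fun _ _ => hz.le) S
    (by
      intro x hx
      obtain ⟨h1, h2, h3, h4⟩ := hS x hx
      exact ⟨h1, fun r hr hrg => Finset.mem_union_right _ (h2 r hr hrg), h3, h4⟩) a ha l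
  have hQ : ∀ w : Fq d K, ∑ P ∈ Pi, z / ((MG d).p P : ℂ) * cw P w = Qsg z h u w := by
    intro w
    unfold Qsg
    refine Finset.sum_congr rfl fun P _ => ?_
    show z / (P.1 : ℂ) * cw P w = z * cw P w / (P.1 : ℂ)
    ring
  have hlhs : ∑ w ∈ SJ d K J, ‖Qsg z h u w ^ l *
      ((1 / (Y : ℂ)) * ∑ x ∈ S, a x * ch w x.1 x.2)‖ ^ 2 =
      ∑ w ∈ SJ d K J, ‖(∑ P ∈ Pi, z / ((MG d).p P : ℂ) * cw P w) ^ l *
        ((1 / (Y : ℂ)) * ∑ x ∈ S, a x * chi w x)‖ ^ 2 := by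
    refine Finset.sum_congr rfl fun w _ => ?_
    rw [hQ w]
    rfl
  rw [hlhs]
  refine le_trans key ?_
  have hW : (0 : ℝ) < Z ^ l * Y := by positivity
  have hJW : 1 + (J : ℝ) / (Z ^ l * Y) ≤ 2 := by
    have h1 : Real.exp (l * (u / h)) = Z ^ l := by rw [hZ, ← Real.exp_nat_mul]
    rw [h1] at hJ
    have h2 : (J : ℝ) / (Z ^ l * Y) ≤ 1 := by
      rw [div_le_one hW]; exact hJ
    linarith
  have hJ0 : 0 ≤ 1 + (J : ℝ) / (Z ^ l * Y) := by positivity
  have hE : Real.exp (∑ P ∈ Pi, 1 / ((MG d).p P : ℝ) + 4 * ∑ r ∈ q, 1 / (r : ℝ)) ≤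
      Real.exp (40 + 4 * q1.card) := by
    apply Real.exp_le_exp.2
    have e1 : ∑ P ∈ Pi, 1 / ((MG d).p P : ℝ) ≤ 8 := s5
    have e2 : ∑ r ∈ q, 1 / (r : ℝ) ≤ ∑ r ∈ Pi.image Prod.fst, 1 / (r : ℝ) +
        ∑ r ∈ q1, 1 / (r : ℝ) := by
      have h1 := Finset.sum_union_inter (s₁ := Pi.image Prod.fst) (s₂ := q1)
        (f := fun r : ℕ => 1 / (r : ℝ))
      have h2 : 0 ≤ ∑ r ∈ Pi.image Prod.fst ∩ q1, 1 / (r : ℝ) :=
        Finset.sum_nonneg (fun _ _ => by positivity)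
      rw [hq]
      linarith
    have e3 : ∑ r ∈ Pi.image Prod.fst, 1 / (r : ℝ) ≤ ∑ P ∈ Pi, 1 / (P.1 : ℝ) :=
      Finset.sum_image_le_of_nonneg (fun P _ => by positivity)
    have e4 : ∑ r ∈ q1, 1 / (r : ℝ) ≤ q1.card := by
      have h1 : ∀ r ∈ q1, 1 / (r : ℝ) ≤ 1 := by
        intro r hr
        have h2 : (1 : ℝ) ≤ r := by exact_mod_cast (hq1 r hr).one_lt.le
        rw [div_le_one (by linarith)]; exact h2
      calc ∑ r ∈ q1, 1 / (r : ℝ) ≤ ∑ _r ∈ q1, (1 : ℝ) := Finset.sum_le_sum h1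
        _ = q1.card := by rw [Finset.sum_const, nsmul_eq_mul, mul_one]
    linarith
  have hnum := num16 (C0 := (MG d).C0) (C := C) (B1 := B1) (B2 := B2)
    (F := Real.exp (40 + 4 * q1.card)) (R := 1 + (J : ℝ) / (Z ^ l * Y)) l
    (by show (0 : ℝ) ≤ 38 * (Fintype.card (Cl d) : ℝ); positivity) hC.le (by positivity) s3
    (by linarith) hJ0 hJW hE
  refine le_trans hnum (le_of_eq ?_)
  rfl

/-- MOM -/
theorem stMomG_16 (hLS : StLsG d K) : StMomG d K := by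
  classical
  obtain ⟨C, hC, hmom⟩ := momG16 hLS
  intro z hz r1 r2 hr1 hr12
  have hr2 : 0 < r2 := hr1.trans hr12
  set D : ℝ := C * (r2 / r1) ^ 3 * Real.exp (40 + 4 * (∅ : Finset ℕ).card) + Real.exp 3 * 484
    with hD
  have hD1 : 1 ≤ D := by
    have h1 : 0 ≤ C * (r2 / r1) ^ 3 * Real.exp (40 + 4 * (∅ : Finset ℕ).card) := by positivity
    have h2 : (1 : ℝ) ≤ Real.exp 3 := Real.one_le_exp (by norm_num)
    rw [hD]
    linarith
  refine ⟨D * (1 + r1 ^ 2), by nlinarith [sq_nonneg r1], ?_⟩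
  intro h u l J N hh hu hY hJ
  have hN0 : 0 < N := by
    by_contra hcon
    push Not at hcon
    nlinarith
  have hB2 : 1 ≤ r2 / r1 := by rw [le_div_iff₀ hr1]; linarith
  -- the set of pairs
  set S : Finset (Cl d × V) := Finset.univ.biUnion (fun i : Cl d =>
    ((Shg i (r1 * N) (r2 * N)).filter Prim).image (fun v => (i, v))) with hS
  have hmemS : ∀ x, x ∈ S ↔ x.2 ∈ (Shg x.1 (r1 * N) (r2 * N)).filter Prim := by
    intro x
    rw [hS, Finset.mem_biUnion]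
    constructor
    · rintro ⟨i, _, hx⟩
      obtain ⟨v, hv, rfl⟩ := Finset.mem_image.1 hx
      exact hv
    · intro hx
      exact ⟨x.1, Finset.mem_univ _, Finset.mem_image.2 ⟨x.2, hx, rfl⟩⟩
  have hsum : ∀ f : Cl d × V → ℂ, ∑ x ∈ S, f x =
      ∑ i, ∑ v ∈ (Shg i (r1 * N) (r2 * N)).filter Prim, f (i, v) := by
    intro f
    rw [hS, Finset.sum_biUnion]
    · refine Finset.sum_congr rfl fun i _ => ?_
      rw [Finset.sum_image]
      intro v _ v' _ hE
      exact congrArg Prod.snd hE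
    · intro i _ i' _ hne
      rw [Function.onFun, Finset.disjoint_left]
      intro x hx hx'
      obtain ⟨v, _, rfl⟩ := Finset.mem_image.1 hx
      obtain ⟨v', _, hE⟩ := Finset.mem_image.1 hx'
      exact hne (congrArg Prod.fst hE).symm
  have key := hmom z hz h u l J (r1 * N) (r2 / r1) ∅ S (fun x => gz z (rep x.1) x.2) hh hu hY hB2
    (by simp)
    (by
      intro x hx
      rw [hmemS, Finset.mem_filter, mem_Shg] at hx
      obtain ⟨⟨h1, h2, h3⟩, h4⟩ := hx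
      refine ⟨h1, ?_, h2.le, ?_⟩
      · intro r hr hrg
        rw [show Int.gcd x.2.1 x.2.2 = 1 from h4] at hrg
        exact absurd (Nat.dvd_one.1 hrg) hr.one_lt.ne'
      · have : r2 / r1 * (r1 * N) = r2 * N := by field_simp
        rw [this]; exact h3)
    (by
      intro x _
      show ‖z ^ (ArithmeticFunction.cardFactors ((rep x.1).q x.2).natAbs)‖ ≤ 1
      rw [norm_pow, hz, one_pow]) hJ
  have hR : ∀ w : Fq d K, Mpg z r1 r2 N w = (r1 : ℂ) *
      ((1 / ((r1 * N : ℝ) : ℂ)) * ∑ x ∈ S, gz z (rep x.1) x.2 * ch w x.1 x.2) := by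
    intro w
    rw [hsum (fun x => gz z (rep x.1) x.2 * ch w x.1 x.2)]
    unfold Mpg
    rw [← mul_assoc]
    congr 1
    push_cast
    have h1 : (r1 : ℂ) ≠ 0 := by exact_mod_cast hr1.ne'
    have h2 : (N : ℂ) ≠ 0 := by exact_mod_cast hN0.ne'
    field_simp
  calc ∑ w ∈ SJ d K J, ‖Qsg z h u w ^ l * Mpg z r1 r2 N w‖ ^ 2
      = r1 ^ 2 * ∑ w ∈ SJ d K J, ‖Qsg z h u w ^ l *
        ((1 / ((r1 * N : ℝ) : ℂ)) * ∑ x ∈ S, gz z (rep x.1) x.2 * ch w x.1 x.2)‖ ^ 2 := by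
        rw [Finset.mul_sum]
        refine Finset.sum_congr rfl fun w _ => ?_
        rw [hR w, mul_left_comm, norm_mul (r1 : ℂ), mul_pow, Complex.norm_real,
          Real.norm_of_nonneg hr1.le]
    _ ≤ r1 ^ 2 * (D ^ (l + 1) * (l.factorial : ℝ) ^ 2) :=
        mul_le_mul_of_nonneg_left key (by positivity)
    _ ≤ (1 + r1 ^ 2) ^ (l + 1) * (D ^ (l + 1) * (l.factorial : ℝ) ^ 2) := by
        apply mul_le_mul_of_nonneg_right _ (by positivity)
        calc r1 ^ 2 ≤ 1 + r1 ^ 2 := by linarith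
          _ = (1 + r1 ^ 2) ^ 1 := by ring
          _ ≤ (1 + r1 ^ 2) ^ (l + 1) :=
            pow_le_pow_right₀ (by linarith [sq_nonneg r1]) (by omega)
    _ = (D * (1 + r1 ^ 2)) ^ (l + 1) * (l.factorial : ℝ) ^ 2 := by rw [mul_pow]; ring

/-- a nonzero vector of the class `α` -/
def v016 (K : ℕ) [NeZero K] (α : ZMod K × ZMod K) : V := ((α.1.val : ℤ) + K, (α.2.val : ℤ))

theorem v016_ne (α : ZMod K × ZMod K) : v016 K α ≠ 0 := by
  intro h0
  have h1 : (α.1.val : ℤ) + K = 0 := congrArg Prod.fst h0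
  have h2 : 0 < K := Nat.pos_of_ne_zero (NeZero.ne K)
  omega

theorem cl_v016 (α : ZMod K × ZMod K) : cl K (v016 K α) = α := by
  unfold cl v016
  apply Prod.ext
  · show (((α.1.val : ℤ) + K : ℤ) : ZMod K) = α.1
    push_cast
    rw [ZMod.natCast_zmod_val, ZMod.natCast_self, add_zero]
  · show (((α.2.val : ℤ) : ℤ) : ZMod K) = α.2
    push_cast
    rw [ZMod.natCast_zmod_val]

theorem sum_bv16 (w : Fq d K) : ∑ ia, ‖(bv d K w.1 w.2 : Hs d K) ia‖ ^ 2 = 1 := by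
  have h1 := norm_bv (d := d) (K := K) w.1 w.2
  have h2 := EuclideanSpace.norm_sq_eq (bv d K w.1 w.2 : Hs d K)
  rw [h1] at h2
  rw [← h2]; norm_num

/-- MOM1 -/
theorem stMom1G_16 (hLS : StLsG d K) : StMom1G d K := by
  classical
  obtain ⟨C, hC, hmom⟩ := momG16 hLS
  intro z hz
  -- the size and the primes of the content of the chosen vectors
  set Y : Cl d × (ZMod K × ZMod K) → ℝ := fun ia => ((rep ia.1).q (v016 K ia.2) : ℝ) with hY
  have hY1 : ∀ ia, 1 ≤ Y ia := by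
    intro ia
    have := (rep_pos ia.1).q_pos (v016_ne ia.2)
    have h2 : (1 : ℤ) ≤ (rep ia.1).q (v016 K ia.2) := by omega
    simp only [hY]
    exact_mod_cast h2
  set q1 : Cl d × (ZMod K × ZMod K) → Finset ℕ :=
    fun ia => (Int.gcd (v016 K ia.2).1 (v016 K ia.2).2).primeFactors with hq1
  set D : Cl d × (ZMod K × ZMod K) → ℝ := fun ia =>
    C * (1 : ℝ) ^ 3 * Real.exp (40 + 4 * (q1 ia).card) + Real.exp 3 * 484 with hD
  have hD1 : ∀ ia, 1 ≤ D ia := by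
    intro ia
    have h1 : 0 ≤ C * (1 : ℝ) ^ 3 * Real.exp (40 + 4 * (q1 ia).card) := by positivity
    have h2 : (1 : ℝ) ≤ Real.exp 3 := Real.one_le_exp (by norm_num)
    simp only [hD]
    linarith
  set E : ℝ := ∑ ia, (Y ia ^ 2 * D ia) with hE
  have hYD : ∀ ia, 1 ≤ Y ia ^ 2 * D ia := by
    intro ia
    have h1 := hY1 ia
    have h2 := hD1 ia
    nlinarith [sq_nonneg (Y ia - 1)]
  refine ⟨1 + E, by
    have : 0 ≤ E := Finset.sum_nonneg fun ia _ => by linarith [hYD ia]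
    linarith, ?_⟩
  intro h u l J hh hu hJ
  have hone : ∀ ia : Cl d × (ZMod K × ZMod K),
      ∑ w ∈ SJ d K J, ‖Qsg z h u w ^ l‖ ^ 2 * ‖(bv d K w.1 w.2 : Hs d K) ia‖ ^ 2 ≤
        Y ia ^ 2 * (D ia ^ (l + 1) * (l.factorial : ℝ) ^ 2) := by
    intro ia
    have hY0 : 0 < Y ia := by linarith [hY1 ia]
    have key := hmom z hz h u l J (Y ia) 1 (q1 ia) {(ia.1, v016 K ia.2)} (fun _ => 1) hh hu
      (hY1 ia) le_rfl (fun r hr => Nat.prime_of_mem_primeFactors hr)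
      (by
        intro x hx
        rw [Finset.mem_singleton] at hx
        rw [hx]
        refine ⟨v016_ne ia.2, ?_, le_rfl, by rw [one_mul]⟩
        intro r hr hrg
        rw [hq1]
        exact Nat.mem_primeFactors.2 ⟨hr, hrg, (MRS19.gcd_pos (v016_ne ia.2)).ne'⟩)
      (by intro x _; simp)
      (by
        have h1 : Real.exp (l * (u / h)) * 1 ≤ Real.exp (l * (u / h)) * Y ia :=
          mul_le_mul_of_nonneg_left (hY1 ia) (Real.exp_pos _).le
        linarith)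
    have hch : ∀ w : Fq d K, ‖ch w ia.1 (v016 K ia.2)‖ = ‖(bv d K w.1 w.2 : Hs d K) ia‖ := by
      intro w
      unfold ch
      rw [norm_mul, norm_zpow, norm_uu (rep_pos ia.1) (v016_ne ia.2), one_zpow, mul_one,
        RCLike.norm_conj, cl_v016]
    have hlhs : ∑ w ∈ SJ d K J, ‖Qsg z h u w ^ l * ((1 / (Y ia : ℂ)) *
        ∑ x ∈ ({(ia.1, v016 K ia.2)} : Finset (Cl d × V)), 1 * ch w x.1 x.2)‖ ^ 2 =
        (1 / Y ia ^ 2) * ∑ w ∈ SJ d K J, ‖Qsg z h u w ^ l‖ ^ 2 *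
          ‖(bv d K w.1 w.2 : Hs d K) ia‖ ^ 2 := by
      rw [Finset.mul_sum]
      refine Finset.sum_congr rfl fun w _ => ?_
      rw [Finset.sum_singleton, one_mul, norm_mul, norm_mul, norm_div, norm_one,
        Complex.norm_real, Real.norm_of_nonneg hY0.le, hch w]
      ring
    rw [hlhs] at key
    calc ∑ w ∈ SJ d K J, ‖Qsg z h u w ^ l‖ ^ 2 * ‖(bv d K w.1 w.2 : Hs d K) ia‖ ^ 2
        = Y ia ^ 2 * ((1 / Y ia ^ 2) * ∑ w ∈ SJ d K J, ‖Qsg z h u w ^ l‖ ^ 2 *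
          ‖(bv d K w.1 w.2 : Hs d K) ia‖ ^ 2) := by field_simp
      _ ≤ _ := mul_le_mul_of_nonneg_left key (by positivity)
  have hsum : ∑ w ∈ SJ d K J, ‖Qsg z h u w ^ l‖ ^ 2 =
      ∑ ia, ∑ w ∈ SJ d K J, ‖Qsg z h u w ^ l‖ ^ 2 * ‖(bv d K w.1 w.2 : Hs d K) ia‖ ^ 2 := by
    rw [Finset.sum_comm]
    refine Finset.sum_congr rfl fun w _ => ?_
    rw [← Finset.mul_sum, sum_bv16, mul_one]
  rw [hsum]
  have hEpow : ∀ ia, Y ia ^ 2 * (D ia ^ (l + 1) * (l.factorial : ℝ) ^ 2) ≤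
      (Y ia ^ 2 * D ia) * (1 + E) ^ l * (l.factorial : ℝ) ^ 2 := by
    intro ia
    have h0 : 0 ≤ Y ia := by linarith [hY1 ia]
    have h1 : D ia ≤ 1 + E := by
      have h2 : Y ia ^ 2 * D ia ≤ E :=
        Finset.single_le_sum (f := fun ia => Y ia ^ 2 * D ia)
          (fun ia _ => by linarith [hYD ia]) (Finset.mem_univ ia)
      have h3 : 1 ≤ Y ia ^ 2 := one_le_pow₀ (hY1 ia)
      have h4 := hD1 ia
      have h5 : 1 * D ia ≤ Y ia ^ 2 * D ia := mul_le_mul_of_nonneg_right h3 (by linarith)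
      linarith
    have h2 : D ia ^ l ≤ (1 + E) ^ l :=
      pow_le_pow_left₀ (by linarith [hD1 ia]) h1 l
    have h3 : 0 ≤ D ia := by linarith [hD1 ia]
    calc Y ia ^ 2 * (D ia ^ (l + 1) * (l.factorial : ℝ) ^ 2)
        = (Y ia ^ 2 * D ia) * D ia ^ l * (l.factorial : ℝ) ^ 2 := by rw [pow_succ]; ring
      _ ≤ _ := by
          apply mul_le_mul_of_nonneg_right _ (by positivity)
          exact mul_le_mul_of_nonneg_left h2 (by positivity)
  calc ∑ ia, ∑ w ∈ SJ d K J, ‖Qsg z h u w ^ l‖ ^ 2 * ‖(bv d K w.1 w.2 : Hs d K) ia‖ ^ 2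
      ≤ ∑ ia, (Y ia ^ 2 * D ia) * (1 + E) ^ l * (l.factorial : ℝ) ^ 2 :=
        Finset.sum_le_sum fun ia _ => (hone ia).trans (hEpow ia)
    _ = E * (1 + E) ^ l * (l.factorial : ℝ) ^ 2 := by
        rw [← Finset.sum_mul, ← Finset.sum_mul]
    _ ≤ (1 + E) ^ (l + 1) * (l.factorial : ℝ) ^ 2 := by
        apply mul_le_mul_of_nonneg_right _ (by positivity)
        have hE0 : 0 ≤ E := Finset.sum_nonneg fun ia _ => by linarith [hYD ia]
        rw [pow_succ']
        exact mul_le_mul_of_nonneg_right (by linarith) (by positivity)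

end fin

end Pool.Agent.Lib.MP_a17b09_nt.MRSG
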