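import Pool.Agent.Lib.MP_a17b09_nt.MRSG.StmtsG29
import Pool.Agent.Lib.MP_a17b09_nt.MRSG.DecGA21
import Pool.Agent.Lib.MP_a17b09_nt.MRS.EndK90

/-!
Project MRSG: the end product: the interface `MrsQ` for every positive form, Theorem E for every
system and all pairs of roots of unity different from `(1, 1)`, the final statement for every
polynomial of negative discriminant.
-/

set_option autoImplicit false

open Filter Topology Finset

namespace Pool.Agent.Lib.MP_a17b09_nt.MRSG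

open CH CH.PE MRS

/-- the shell sum of a representative is a coordinate of the vector of the shell sums -/
theorem msh_eq90 {d K : ℕ} [NeZero K] (i : Cl d) (α : ZMod K × ZMod K) (z : ℂ) {r1 r2 : ℝ}
    (h1 : 0 < r1) {n : ℕ} (hn : 0 < n) (j : ℤ) :
    Msh (rep i) (gc z (rep i) K α) r1 r2 n j = VPg d K z r1 r2 n j (i, α) := by
  classical
  have hn' : (0 : ℝ) < n := by exact_mod_cast hn
  unfold Msh VPg
  rw [vec_apply, Finset.mul_sum]
  have e1 : ∑ v ∈ ((rep i).ball ⌊r2 * n⌋₊).filter (fun v => r1 * n < (rep i).q v),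
      1 / (n : ℂ) * (gc z (rep i) K α v * uv (rep i) v ^ j) =
      ∑ v ∈ (((rep i).ball ⌊r2 * n⌋₊).filter (fun v => r1 * n < (rep i).q v)).filter
        (fun v => Prim v ∧ cl K v = α), 1 / (n : ℂ) * (gz z (rep i) v * uv (rep i) v ^ j) := by
    rw [Finset.sum_filter (fun v => Prim v ∧ cl K v = α)]
    apply Finset.sum_congr rfl
    intro v _
    unfold gc
    split_ifs with h
    · rfl
    · rw [zero_mul, mul_zero]
  rw [e1]
  refine Finset.sum_congr ?_ ?_
  · ext v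
    simp only [Finset.mem_filter, Shg]
    constructor
    · rintro ⟨⟨a1, a2⟩, a3, a4⟩
      exact ⟨⟨⟨a1, ne_zero_of_prim90 a3, a2⟩, a3⟩, a4⟩
    · rintro ⟨⟨⟨a1, -, a2⟩, a3⟩, a4⟩
      exact ⟨⟨a1, a2⟩, a3, a4⟩
  · intro v hv
    have huv : uv (rep i) v = uu (rep i) v := by
      rw [Dec21.uu_eq_ud (rep_pos i)]
      rfl
    rw [huv]
    push_cast
    ring

/-- the interface for every positive form of discriminant `-d` -/
theorem stMrsG_90 {d : ℕ} (hCore : ∀ (K : ℕ) [NeZero K], StCoreG d K)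
    (hPar : ∀ (K : ℕ) [NeZero K], StParG d K) : StMrsG d := by
  classical
  intro Q hQ hD z k hk hz hz1 K hK
  have : NeZero K := ⟨hK.ne'⟩
  obtain ⟨i, hi⟩ := exists_cl hQ hD
  refine mrsQ_eqv90 (rep_pos i) hi.symm ?_
  intro α r1 r2 h1 h12 A hA ε hε
  obtain ⟨H0, hH0, h2⟩ := hCore K z k hk hz hz1 r1 r2 h1 h12 ε hε
  refine ⟨max 1 (A * H0), le_max_left _ _, fun L hL => ?_⟩
  have hL1 : 1 ≤ L := (le_max_left _ _).trans hL
  have hL2 : A * H0 ≤ L := (le_max_right _ _).trans hL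
  have hL0 : 0 < L := by linarith
  obtain ⟨N0, hN0⟩ := h2 (L / A) (by rw [le_div_iff₀ hA]; linarith)
  obtain ⟨n0, hn0⟩ := exists_nat_ge N0
  refine ⟨max n0 1, fun n hn => ?_⟩
  have hn1 : (N0 : ℝ) ≤ n := hn0.trans (by exact_mod_cast (le_max_left _ _).trans hn)
  have hn2 : 1 ≤ n := (le_max_right _ _).trans hn
  have h3 := hN0 n hn1
  have h4 : (n : ℝ) / (L / A) = A * n / L := by field_simp
  rw [h4, sum_SJ] at h3
  refine le_trans (Finset.sum_le_sum fun j _ => ?_) h3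
  obtain ⟨-, -, -, h5⟩ := hPar K z r1 r2 n j
  rw [h5, msh_eq90 i α z h1 hn2 j]
  exact Finset.single_le_sum (f := fun ia => ‖VPg d K z r1 r2 n j ia‖ ^ 2)
    (fun ia _ => by positivity) (Finset.mem_univ (i, α))

/-- Theorem E for all systems of discriminant `-d` -/
theorem esAll_90 {d : ℕ} (h : StMrsG d) : EsAll d := by
  intro ι _ S hS z1 z2 k hk h1 h2 hne M K hK h4 om hom δ h' hδ hT
  have hz1 : ‖z1‖ = 1 := Complex.norm_eq_one_of_pow_eq_one h1 hk.ne'
  have hz2 : ‖z2‖ = 1 := Complex.norm_eq_one_of_pow_eq_one h2 hk.ne'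
  have hQD : ∀ i, (S.Q i).D = d := fun i => by rw [S.disc i, hS]
  refine es_one90 F64.stRedS_all stPsv_28 S z1 z2 k hk h1 h2 ?_ M K hK h4 om hom δ h' hδ hT
  intro M K _ h4 om hom B G1 G2 hG1 hG2
  refine psi_null90 M S hz1 hz2 K ?_ om hom B G1 G2 hG1 hG2
  rcases hne with hne | hne
  · left
    exact fun i => h (S.Q i) (S.pos i) (hQD i) z1 k hk h1 hne K (Nat.pos_of_ne_zero (NeZero.ne K))
  · right
    exact fun i => h (S.Q i) (S.pos i) (hQD i) z2 k hk h2 hne K (Nat.pos_of_ne_zero (NeZero.ne K))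

/-- stage C: the final statement for every polynomial of discriminant `-d` -/
theorem endC90 {d : ℕ} (hM : StMrsG d) {a b c : ℤ} (ha : 0 < a) (hd : 4 * a * c - b ^ 2 = d)
    (hD : b ^ 2 - 4 * a * c < 0) {h : ℕ} (hh : 0 < h) (t₀ : ℕ) {α β : ℝ} (hα : 0 < α)
    (hαβ : α < β) : Joint a b c h t₀ α β :=
  endK90 (esAll_90 hM) ha hd hD hh t₀ hα hαβ

end Pool.Agent.Lib.MP_a17b09_nt.MRSG
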