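import Pool.Agent.Lib.MP_a17b09_nt.MRSG.StmtsG29
import Pool.Agent.Lib.MP_a17b09_nt.MRSG.PwtG84

/-!
MRSG (MP_a17b09_nt): row PWTG.
-/

set_option autoImplicit false

open Finset

namespace Pool.Agent.Lib.MP_a17b09_nt.MRSG

open CH CH.PE

variable {d K : ℕ} [NeZero K]

theorem Shg_eq_84 (i : Cl d) (a b : ℝ) : Shg i a b = shQ (rep i) a b := by
  ext v
  rw [mem_Shg, mem_shQ (rep_pos i)]

theorem Mag_eq_84 (z : ℂ) (r1 r2 N : ℝ) (j : ℤ) (k : Fin (mm d K j)) :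
    Mag z r1 r2 N (⟨j, k⟩ : Fq d K) =
      (1 / (N : ℂ)) * co d K j k (VS d K z j (r1 * N) (r2 * N)) := by
  unfold Mag VS
  rw [co_VW]
  congr 1
  refine Finset.sum_congr rfl fun i _ => ?_
  rw [Shg_eq_84]
  refine Finset.sum_congr rfl fun v _ => ?_
  unfold ch gj
  ring

/-- (PWTG) for every shell -/
theorem pwt_shell_84 {z : ℂ} (hz : ‖z‖ = 1) (r1 r2 : ℝ) (w : Fq d K) (x : ℝ) (hx : 1 ≤ x)
    (R : Finset (ℕ × Bool)) (hR : ∀ P ∈ R, Adm d K P ∧ (P.1 : ℝ) ^ 2 ≤ x) :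
    ∑ P ∈ R, (1 / (P.1 : ℝ)) * ‖Mag z r1 r2 x w - z * cw P w * Mag z r1 r2 (x / P.1) w‖ ≤
      (Fintype.card (Cl d) * (K * K) : ℕ) * (400 * max 1 r2 * √(∑ P ∈ R, 1 / (P.1 : ℝ))) := by
  obtain ⟨j, k⟩ := w
  have hx0 : 0 < x := by linarith
  have hm : (1 : ℝ) ≤ max 1 r2 := le_max_left _ _
  have hxm : x ≤ max 1 r2 * x := by nlinarith
  have h1 := PwtG84.pwt_co (d := d) (K := K) hz j (max 1 r2 * x) (by nlinarith) R
    (fun P hP => ⟨(hR P hP).1, (hR P hP).2.trans hxm⟩) (r1 * x) (r2 * x)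
    (mul_le_mul_of_nonneg_right (le_max_right _ _) hx0.le) k
  have h2 : ∀ P ∈ R, (1 / (P.1 : ℝ)) * ‖Mag z r1 r2 x (⟨j, k⟩ : Fq d K) -
      z * cw P (⟨j, k⟩ : Fq d K) * Mag z r1 r2 (x / P.1) (⟨j, k⟩ : Fq d K)‖ =
      (1 / x) * ‖(1 / (P.1 : ℂ)) * co d K j k (VS d K z j (r1 * x) (r2 * x)) -
        z * cv d K P j k * co d K j k (VS d K z j (r1 * x / P.1) (r2 * x / P.1))‖ := by
    intro P hP
    have hp0 : (0 : ℝ) < P.1 := by exact_mod_cast (hR P hP).1.1.pos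
    have hpc : ((P.1 : ℕ) : ℂ) ≠ 0 := by exact_mod_cast (hR P hP).1.1.ne_zero
    have hxc : (x : ℂ) ≠ 0 := by exact_mod_cast hx0.ne'
    rw [Mag_eq_84, Mag_eq_84]
    have e1 : r1 * (x / P.1) = r1 * x / P.1 := by ring
    have e2 : r2 * (x / P.1) = r2 * x / P.1 := by ring
    rw [e1, e2]
    have e3 : (1 / (x : ℂ)) * co d K j k (VS d K z j (r1 * x) (r2 * x)) -
        z * cw P (⟨j, k⟩ : Fq d K) * ((1 / ((x / P.1 : ℝ) : ℂ)) *
          co d K j k (VS d K z j (r1 * x / P.1) (r2 * x / P.1))) =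
        ((P.1 : ℂ) / x) * ((1 / (P.1 : ℂ)) * co d K j k (VS d K z j (r1 * x) (r2 * x)) -
        z * cv d K P j k * co d K j k (VS d K z j (r1 * x / P.1) (r2 * x / P.1))) := by
      unfold cw
      push_cast
      field_simp
    rw [e3, norm_mul, norm_div, Complex.norm_natCast, Complex.norm_real,
      Real.norm_of_nonneg hx0.le]
    field_simp
  rw [Finset.sum_congr rfl h2, ← Finset.mul_sum]
  have h3 : (1 / x) * ((Fintype.card (Cl d) * (K * K) : ℕ) *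
      (400 * (max 1 r2 * x) * √(∑ P ∈ R, 1 / (P.1 : ℝ)))) =
      (Fintype.card (Cl d) * (K * K) : ℕ) * (400 * max 1 r2 * √(∑ P ∈ R, 1 / (P.1 : ℝ))) := by
    field_simp
  rw [← h3]
  exact mul_le_mul_of_nonneg_left h1 (by positivity)

variable (d K) in
/-- row PWTG -/
theorem stPwtG_84 : StPwtG d K := by
  intro z hz
  refine ⟨(Fintype.card (Cl d) * (K * K) : ℕ) * 400 + 1, by positivity, fun w x hx R hR => ?_⟩
  refine (pwt_shell_84 hz 0 1 w x hx R hR).trans ?_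
  rw [max_self]
  have h1 : 0 ≤ √(∑ P ∈ R, 1 / (P.1 : ℝ)) := Real.sqrt_nonneg _
  have h2 : (0 : ℝ) ≤ (Fintype.card (Cl d) * (K * K) : ℕ) := Nat.cast_nonneg _
  nlinarith

end Pool.Agent.Lib.MP_a17b09_nt.MRSG
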