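import Pool.Agent.Lib.MP_a17b09_nt.MRSG.StmtsG29
import Pool.Agent.Lib.MP_a17b09_nt.MRSG.StructC17

/-!
Project MRSG: the structure statements `StParG`, `StIdG` of `StmtsG29`, from `StructC17`.
-/

set_option autoImplicit false

open Filter Topology Finset

namespace Pool.Agent.Lib.MP_a17b09_nt.MRSG

open CH CH.PE

variable {d K : ℕ}

theorem Shg_eq (i : Cl d) (a b : ℝ) : Shg i a b = shQ (rep i) a b := by
  ext v
  rw [mem_Shg, mem_shQ (rep_pos i)]

theorem im_iff {P : ℕ × Bool} (h : Adm d K P) (i : Cl d) (v : V) :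
    Im (Mg d P i) v ↔ Eig P.1 (rg d P) (rep i) v := (adm_eig_iff h i).symm

open Classical in
/-- sums over the vectors of the shell in the image of `M_P` -/
theorem sum_im {P : ℕ × Bool} (h : Adm d K P) (i : Cl d) (a b : ℝ) (f : V → ℂ) :
    ∑ v ∈ (Shg i a b).filter (fun v => Im (Mg d P i) v), f v =
      ∑ u ∈ Shg (sg d P i) (a / P.1) (b / P.1), f ((Mg d P i).app u) := by
  rw [Shg_eq, Shg_eq, ← sum_eig h i a b f]
  refine Finset.sum_congr ?_ fun _ _ => rfl
  ext v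
  simp only [Finset.mem_filter, im_iff h i v]

section

variable [NeZero K]

theorem VAg_eq (z : ℂ) (r1 r2 N : ℝ) (j : ℤ) :
    VAg d K z r1 r2 N j = (1 / (N : ℂ)) • VS d K z j (r1 * N) (r2 * N) := by
  ext ia
  obtain ⟨i, α⟩ := ia
  rw [PiLp.smul_apply]
  unfold VAg VS
  rw [vec_apply, VW_apply, Shg_eq, smul_eq_mul, Finset.mul_sum]
  refine Finset.sum_congr rfl fun v _ => ?_
  unfold gj
  ring

theorem VPg_eq (z : ℂ) (r1 r2 N : ℝ) (j : ℤ) :
    VPg d K z r1 r2 N j = (1 / (N : ℂ)) • VP d K z j (r1 * N) (r2 * N) := by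
  classical
  ext ia
  obtain ⟨i, α⟩ := ia
  rw [PiLp.smul_apply]
  unfold VPg VP
  rw [vec_apply, VW_apply, Shg_eq, smul_eq_mul, Finset.mul_sum, Finset.filter_filter,
    Finset.sum_filter, Finset.sum_filter]
  refine Finset.sum_congr rfl fun v _ => ?_
  unfold gj
  by_cases h1 : Prim v
  · by_cases h2 : cl K v = α
    · simp only [h1, h2, and_self, if_true]; ring
    · simp only [h1, h2, and_false, if_false]
  · simp [h1]

theorem VAg_mem (z : ℂ) (r1 r2 N : ℝ) (j : ℤ) : VAg d K z r1 r2 N j ∈ Ej d K j := by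
  rw [VAg_eq]
  exact Submodule.smul_mem _ _ (VS_mem z j _ _)

theorem VPg_mem (z : ℂ) (r1 r2 N : ℝ) (j : ℤ) : VPg d K z r1 r2 N j ∈ Ej d K j := by
  rw [VPg_eq]
  exact Submodule.smul_mem _ _ (VP_mem z j _ _)

theorem stParG_29 : StParG d K := by
  intro z r1 r2 N j
  refine ⟨VAg_mem z r1 r2 N j, VPg_mem z r1 r2 N j, ?_, ?_⟩
  · rw [← co_parseval j (VAg_mem z r1 r2 N j)]
    exact Finset.sum_congr rfl fun k _ => by rw [co_VAg]
  · rw [← co_parseval j (VPg_mem z r1 r2 N j)]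
    exact Finset.sum_congr rfl fun k _ => by rw [co_VPg]

theorem stIdG_29 : StIdG d K := by
  classical
  intro z a b P w h
  refine ⟨fun f i => sum_im h i a b (f i), ?_⟩
  rw [Finset.sum_congr rfl fun i _ => sum_im h i a b (fun v => gz z (rep i) v * ch w i v)]
  rw [← Equiv.sum_comp (sg d P) (fun i => ∑ u ∈ Shg i (a / P.1) (b / P.1),
    gz z (rep i) u * ch w i u), Finset.mul_sum]
  refine Finset.sum_congr rfl fun i _ => ?_
  rw [Finset.mul_sum]
  refine Finset.sum_congr rfl fun u hu => ?_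
  have hu0 := (mem_Shg.1 hu).1
  rw [gz_app h z i hu0, ch_M h w i hu0]
  ring

end

end Pool.Agent.Lib.MP_a17b09_nt.MRSG
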