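import Pool.Agent.Lib.MP_a17b09_nt.MRSG.TkhGa12

/-!
MRSG (MP_a17b09_nt), module TKHG: Turan - Kubilius and Halasz - Montgomery together, for the
commuting similitudes of the classes of forms: the theorem. helper12.
-/

set_option autoImplicit false

open Finset

namespace Pool.Agent.Lib.MP_a17b09_nt.MRSG

open CH CH.PE ExpG12 ShiftG12 EigG12 TkhG12

private lemma tkh_s52 {N r2 s : ℝ} (hr2 : 0 < r2) (hN1 : 1 ≤ N) (hs : s = √N)
    (hNr : (1 / r2) ^ 2 ≤ N) : 1 ≤ s ∧ s * s = N ∧ s ≤ r2 * N := by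
  have hs1 : 1 ≤ s := by rw [hs]; exact Real.one_le_sqrt.2 hN1
  have hss : s * s = N := by rw [hs]; exact Real.mul_self_sqrt (le_trans zero_le_one hN1)
  have hrs : 1 / r2 ≤ s := by rw [hs]; exact Real.le_sqrt_of_sq_le hNr
  refine ⟨hs1, hss, ?_⟩
  have h1 : 1 ≤ r2 * s := by
    rw [div_le_iff₀ hr2] at hrs
    linarith
  calc s = 1 * s := (one_mul s).symm
    _ ≤ (r2 * s) * s := mul_le_mul_of_nonneg_right h1 (le_trans zero_le_one hs1)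
    _ = r2 * N := by rw [mul_assoc, hss]

private lemma tkh_n52 {N s c n : ℝ} (hN1 : 1 ≤ N) (hs : s = √N) (hn : n = N ^ c) (hc0 : 0 < c)
    (hc : c * 5 ≤ 1 / 2) : 1 ≤ n ∧ n ^ 5 ≤ s ∧ n ≤ s := by
  have hn1 : 1 ≤ n := by rw [hn]; exact Real.one_le_rpow hN1 hc0.le
  have hn5 : n ^ 5 ≤ s := by
    rw [hn, hs, ← Real.rpow_natCast, ← Real.rpow_mul (le_trans zero_le_one hN1),
      Real.sqrt_eq_rpow]
    apply Real.rpow_le_rpow_of_exponent_le hN1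
    push_cast
    exact hc
  exact ⟨hn1, hn5, (le_self_pow₀ hn1 (by norm_num)).trans hn5⟩

private lemma tkh_card52 {d K : ℕ} {n : ℝ} (hn1 : 1 ≤ n) :
    ((slg d K 3 n).card : ℝ) ≤ 4 * n := by
  have h1 : (slg d K 3 n).card ≤ ((range ⌈n⌉₊) ×ˢ (univ : Finset Bool)).card := by
    apply card_le_card
    intro P hP
    rw [mem_product, mem_range]
    refine ⟨?_, mem_univ _⟩
    have h2 := (mem_slg.1 hP).2.2
    exact_mod_cast h2.trans_le (Nat.le_ceil n)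
  rw [card_product, card_range, card_univ, Fintype.card_bool] at h1
  have h2 : ((slg d K 3 n).card : ℝ) ≤ (⌈n⌉₊ : ℝ) * 2 := by exact_mod_cast h1
  have h3 := Nat.ceil_lt_add_one (le_trans zero_le_one hn1)
  linarith

private lemma tkh_t52 {K A0 A n τ : ℝ} (hn1 : 1 ≤ n) (hτ : τ = K * A0 * n ^ 3)
    (hA : A = K * A0 + 1) : τ + 1 ≤ A * n ^ 3 := by
  have : 1 ≤ n ^ 3 := one_le_pow₀ hn1
  rw [hτ, hA]
  linarith

private lemma tkh_e52 {p p' K x n A0 τ : ℝ} (hp0 : 0 ≤ p) (hp0' : 0 ≤ p') (hK : 0 ≤ K)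
    (hx0 : 0 ≤ x) (hp : p ≤ n) (hp' : p' ≤ n) (hx : x ≤ A0) (hτ : τ = K * A0 * n ^ 3) :
    p * (K * (x * (p * p'))) ≤ τ := by
  have hn : 0 ≤ n := hp0.trans hp
  calc p * (K * (x * (p * p'))) ≤ n * (K * (A0 * (n * n))) :=
        mul_le_mul hp (mul_le_mul_of_nonneg_left (mul_le_mul hx (mul_le_mul hp hp' hp0' hn)
          (mul_nonneg hp0 hp0') (hx0.trans hx)) hK)
          (mul_nonneg hK (mul_nonneg hx0 (mul_nonneg hp0 hp0'))) hn
    _ = τ := by rw [hτ]; ring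

private lemma tkh_w52 {N : ℝ} (hN2 : 2 ≤ N) {x y : ℤ} (h1 : |(x : ℝ)| ≤ N ^ 2)
    (h2 : |(y : ℝ)| ≤ N ^ 2) : |((x - y : ℤ) : ℝ)| ≤ N ^ (3 : ℝ) := by
  have h3 : |((x - y : ℤ) : ℝ)| ≤ 2 * N ^ 2 := by
    push_cast
    refine (abs_sub _ _).trans ?_
    linarith
  have e1 : N ^ (3 : ℝ) = N ^ 3 := by
    rw [← Real.rpow_natCast]
    norm_num
  rw [e1]
  calc |((x - y : ℤ) : ℝ)| ≤ 2 * N ^ 2 := h3
    _ ≤ N * N ^ 2 := mul_le_mul_of_nonneg_right hN2 (sq_nonneg N)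
    _ = N ^ 3 := by ring

private lemma tkh_q52 {N K B p p' n c c0 : ℝ} (hN1 : 1 ≤ N) (hn : n = N ^ c)
    (hc : c + c ≤ c0) (hp : p ≤ n) (hp' : p' ≤ n) (hp0 : 0 ≤ p) (hp0' : 0 ≤ p') (hKB : K ≤ B)
    (hK : 0 ≤ K) : K * (p * p') ≤ B * N ^ c0 := by
  have h1 : p * p' ≤ n * n := mul_le_mul hp hp' hp0' (hp0.trans hp)
  have h2 : n * n ≤ N ^ c0 := by
    rw [hn, ← Real.rpow_add (lt_of_lt_of_le one_pos hN1)]
    exact Real.rpow_le_rpow_of_exponent_le hN1 hc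
  exact mul_le_mul hKB (h1.trans h2) (mul_nonneg hp0 hp0') (hK.trans hKB)

private lemma tkh_b1_52 {p n s r2 N A h τ : ℝ} (hn1 : 1 ≤ n) (hn5 : n ^ 5 ≤ s) (hr2 : 0 < r2)
    (hA1 : 1 ≤ A) (hh : 0 ≤ h) (hτ0 : 0 ≤ τ) (hτA : τ + 1 ≤ A * n ^ 3) (hss : s * s = N)
    (hs : s = √N) (hp : p ≤ 4 * n) :
    p * (n * (h * (400 * ((τ + 1) * (√(r2 * N) + τ + 1)) + 2))) ≤
      1608 * (h * A * (√r2 + A)) * N := by
  have h1 := num0 n s (√r2) A h τ hn1 hn5 (Real.sqrt_nonneg _) hA1 hh hτ0 hτA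
  rw [hss] at h1
  refine le_trans ?_ h1
  have hn0 : 0 < n := lt_of_lt_of_le one_pos hn1
  have hs0 : 0 ≤ s := by rw [hs]; exact Real.sqrt_nonneg _
  rw [Real.sqrt_mul hr2.le, ← hs]
  exact mul_le_mul_of_nonneg_right hp (by positivity)

private lemma tkh_b2_52 {u p n h K C N c c0 E : ℝ} (hN1 : 1 ≤ N) (hn : n = N ^ c)
    (hn1 : 1 ≤ n) (hu : u ≤ n) (hp : p ≤ 4 * n) (hp0 : 0 ≤ p) (hh : 0 ≤ h)
    (hC : 0 < C) (hE : E = C * N ^ (1 - c0)) (hc : c = c0 / 8) (hc0 : 0 < c0) :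
    u * (p * (n * (h * ((K * n ^ 2) ^ 2 * E)))) ≤ 4 * (h * (K ^ 2 * C)) * N := by
  have hN0 : 0 < N := lt_of_lt_of_le one_pos hN1
  have hn0 : 0 < n := lt_of_lt_of_le one_pos hn1
  have hE0 : 0 ≤ E := by rw [hE]; exact mul_nonneg hC.le (Real.rpow_nonneg hN0.le _)
  have hG2' : 0 ≤ n * (h * ((K * n ^ 2) ^ 2 * E)) :=
    mul_nonneg hn0.le (mul_nonneg hh (mul_nonneg (sq_nonneg _) hE0))
  calc u * (p * (n * (h * ((K * n ^ 2) ^ 2 * E))))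
      ≤ n * ((4 * n) * (n * (h * ((K * n ^ 2) ^ 2 * E)))) :=
        mul_le_mul hu (mul_le_mul_of_nonneg_right hp hG2') (mul_nonneg hp0 hG2') hn0.le
    _ = 4 * (h * (K ^ 2 * C)) * (n ^ 7 * N ^ (1 - c0)) := by
        rw [hE]
        ring
    _ ≤ 4 * (h * (K ^ 2 * C)) * N := by
        apply mul_le_mul_of_nonneg_left _ (by positivity)
        rw [hn, ← Real.rpow_natCast, ← Real.rpow_mul hN0.le, ← Real.rpow_add hN0]
        calc N ^ (c * ((7 : ℕ) : ℝ) + (1 - c0)) ≤ N ^ (1 : ℝ) := by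
              apply Real.rpow_le_rpow_of_exponent_le hN1
              push_cast
              linarith
          _ = N := Real.rpow_one _

private lemma tkh_b3_52 {m h r2 N p n D A R K C Z CG : ℝ} (hm : 0 ≤ m)
    (b1 : p * (n * (h * D)) ≤ 1608 * (h * A * (R + A)) * N)
    (b2 : Z ≤ 4 * (h * (K ^ 2 * C)) * N)
    (hCG : CG = m * (h * (76 * r2) + 1608 * (h * A * (R + A))) + 4 * (h * (K ^ 2 * C))) :
    m * (h * (76 * (r2 * N)) + p * (n * (h * D))) + Z ≤ CG * N := by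
  have h1 : m * (h * (76 * (r2 * N)) + p * (n * (h * D))) ≤
      m * (h * (76 * (r2 * N)) + 1608 * (h * A * (R + A)) * N) :=
    mul_le_mul_of_nonneg_left (add_le_add le_rfl b1) hm
  calc _ ≤ m * (h * (76 * (r2 * N)) + 1608 * (h * A * (R + A)) * N) +
        4 * (h * (K ^ 2 * C)) * N := add_le_add h1 b2
    _ = CG * N := by rw [hCG]; ring

private lemma tkh_f52 {N h r2 CG X : ℝ} (hN0 : 0 < N)
    (hX : X ≤ h * (38 * (r2 * N)) * (CG * N)) :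
    (1 / N ^ 2) * X ≤ h * (38 * r2) * CG + 1 := by
  calc (1 / N ^ 2) * X ≤ (1 / N ^ 2) * (h * (38 * (r2 * N)) * (CG * N)) :=
        mul_le_mul_of_nonneg_left hX (by positivity)
    _ = h * (38 * r2) * CG := by
        field_simp
    _ ≤ h * (38 * r2) * CG + 1 := le_add_of_nonneg_right zero_le_one

private lemma tkh_cg52 {m h r2 A R K C : ℝ} (hm : 0 ≤ m) (hh : 0 ≤ h) (hr2 : 0 < r2)
    (hA : 1 ≤ A) (hR : 0 ≤ R) (hC : 0 < C) :
    0 ≤ m * (h * (76 * r2) + 1608 * (h * A * (R + A))) + 4 * (h * (K ^ 2 * C)) := by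
  have hA0 : 0 < A := lt_of_lt_of_le one_pos hA
  positivity

private lemma tkh_g52 {n h D r2 N K E : ℝ} (hn : 1 ≤ n) (hh : 0 ≤ h) (hD : 0 ≤ D)
    (hr2 : 0 < r2) (hN : 0 < N) (hE : 0 ≤ E) :
    0 ≤ n * (h * D) ∧ 0 ≤ h * (76 * (r2 * N)) ∧ 0 ≤ n * (h * ((K * n ^ 2) ^ 2 * E)) := by
  have hn0 : 0 < n := lt_of_lt_of_le one_pos hn
  exact ⟨by positivity, by positivity, by positivity⟩

/-- module TKHG -/
theorem stTkhG_12 (d K : ℕ) [NeZero K] : StTkhG d K := by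
  classical
  intro z hz r1 r2 hr1 hr12
  have hr2 : 0 < r2 := lt_of_le_of_lt hr1 hr12
  have hK : 0 < K := Nat.pos_of_ne_zero (NeZero.ne K)
  have hK1 : (1 : ℝ) ≤ K := by exact_mod_cast hK
  set B : ℝ := K + r2 with hB
  have hB1 : 1 ≤ B := hK1.trans (le_add_of_nonneg_right hr2.le)
  obtain ⟨c0, C0, hc0, hc08, hC0, H⟩ := exp_unif d 3 B (by norm_num) hB1
  set c : ℝ := c0 / 8 with hc
  have hcp : 0 < c := div_pos hc0 (by norm_num)
  set hcl : ℝ := (Fintype.card (Cl d) : ℝ) with hhcl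
  have hhcl0 : 0 ≤ hcl := Nat.cast_nonneg _
  set m : ℝ := ((Fintype.card (Cl d) * (K * K) : ℕ) : ℝ) with hm
  have hm0 : 0 ≤ m := Nat.cast_nonneg _
  set A0 : ℝ := ∑ i : Cl d, (|((rep i).a : ℝ)| + |((rep i).b : ℝ)| + |((rep i).c : ℝ)| + 1)
    with hA0
  have hA00 : 0 ≤ A0 := sum_nonneg (fun i _ => by positivity)
  set A : ℝ := K * A0 + 1 with hA
  have hA1 : 1 ≤ A := by
    exact le_add_of_nonneg_left (mul_nonneg (Nat.cast_nonneg K) hA00)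
  set CG : ℝ := m * (hcl * (76 * r2) + 1608 * (hcl * A * (√r2 + A))) +
    4 * (hcl * ((K : ℝ) ^ 2 * C0)) with hCG
  have hCG0 : 0 ≤ CG := tkh_cg52 hm0 hhcl0 hr2 hA1 (Real.sqrt_nonneg _) hC0
  refine ⟨c, hcl * (38 * r2) * CG + 1, max 2 ((1 / r2) ^ 2), hcp, by linarith,
    add_pos_of_nonneg_of_pos (mul_nonneg (mul_nonneg hhcl0 (mul_nonneg (by norm_num) hr2.le))
      hCG0) one_pos,
    le_trans (by norm_num) (le_max_left _ _), ?_⟩
  intro N hN U hU hUj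
  have hN2 : 2 ≤ N := (le_max_left _ _).trans hN
  have hNr : (1 / r2) ^ 2 ≤ N := (le_max_right _ _).trans hN
  have hN1 : 1 ≤ N := one_le_two.trans hN2
  have hN0 : 0 < N := lt_of_lt_of_le one_pos hN1
  obtain ⟨s, hs⟩ : ∃ s : ℝ, s = √N := ⟨_, rfl⟩
  obtain ⟨hs1, hss, hsN⟩ := tkh_s52 hr2 hN1 hs hNr
  obtain ⟨n, hn⟩ : ∃ n : ℝ, n = N ^ c := ⟨_, rfl⟩
  rw [← hn] at hU ⊢
  obtain ⟨hn1, hn5, hns⟩ := tkh_n52 hN1 hs hn hcp (by linarith)
  have hn0 : 0 < n := lt_of_lt_of_le one_pos hn1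
  have hb1 : 1 ≤ r2 * N := hs1.trans hsN
  have ha0 : 0 ≤ r1 * N := mul_nonneg hr1 hN0.le
  have hab : r1 * N ≤ r2 * N := mul_le_mul_of_nonneg_right hr12.le hN0.le
  -- the primes
  have hcard : ((slg d K 3 n).card : ℝ) ≤ 4 * n := tkh_card52 hn1
  obtain ⟨PP, hPP⟩ : ∃ PP : Finset (ℕ × Bool), PP = slg d K 3 n := ⟨_, rfl⟩
  rw [← hPP] at hcard ⊢
  have hadm : ∀ P ∈ PP, Adm d K P := fun P hP => (mem_slg.1 (hPP ▸ hP)).1
  have hPn : ∀ P ∈ PP, (P.1 : ℝ) ≤ n := fun P hP =>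
    (mem_slg.1 (hPP ▸ hP)).2.2.le
  -- the three bounds
  obtain ⟨τ, hτ⟩ : ∃ τ : ℝ, τ = K * A0 * n ^ 3 := ⟨_, rfl⟩
  have hτ0 : 0 ≤ τ := by
    rw [hτ]
    exact mul_nonneg (mul_nonneg (Nat.cast_nonneg K) hA00) (pow_pos hn0 3).le
  have hτA : τ + 1 ≤ A * n ^ 3 := tkh_t52 hn1 hτ hA
  have hτ1 : 0 ≤ τ + 1 := add_nonneg hτ0 zero_le_one
  have hD0 : 0 ≤ 400 * ((τ + 1) * (√(r2 * N) + τ + 1)) + 2 :=
    add_nonneg (mul_nonneg (by norm_num) (mul_nonneg hτ1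
      (add_nonneg (add_nonneg (Real.sqrt_nonneg _) hτ0) zero_le_one))) two_pos.le
  obtain ⟨E, hE⟩ : ∃ E : ℝ, E = C0 * N ^ (1 - c0) := ⟨_, rfl⟩
  have hE0 : 0 ≤ E := by rw [hE]; exact mul_nonneg hC0.le (Real.rpow_nonneg hN0.le _)
  obtain ⟨hG0', hG1', hG2'⟩ := tkh_g52 (K := (K : ℝ)) hn1 hhcl0 hD0 hr2 hN0 hE0
  have hmain := tkh_sys (d := d) (K := K) (r1 * N) (r2 * N) U PP 
    (n * (hcl * (400 * ((τ + 1) * (√(r2 * N) + τ + 1)) + 2)))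
    (hcl * (76 * (r2 * N))) (n * (hcl * ((K * n ^ 2) ^ 2 * E))) hG0' hG1' hG2'
    (fun w _ w' _ hj P hP P' hP' hne => by
      apply entry_off (r1 * N) (r2 * N) ha0 hab w w' hj (hadm P hP) (hadm P' hP') hne n
        (hPn P hP) (hPn P' hP') τ
      intro i
      have h1 : |((rep i).a : ℝ)| + |((rep i).b : ℝ)| + |((rep i).c : ℝ)| + 1 ≤ A0 :=
        single_le_sum (f := fun i : Cl d => |((rep i).a : ℝ)| + |((rep i).b : ℝ)| +
          |((rep i).c : ℝ)| + 1) (fun i _ => by positivity) (mem_univ i)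
      exact tkh_e52 (Nat.cast_nonneg _) (Nat.cast_nonneg _) (Nat.cast_nonneg K)
        (add_nonneg (add_nonneg (add_nonneg (abs_nonneg _) (abs_nonneg _)) (abs_nonneg _))
          zero_le_one) (hPn P hP) (hPn P' hP') h1 hτ)
    (fun w _ w' _ hj P hP => entry_diag (r1 * N) (r2 * N) w w' hj (hadm P hP)
      ((hPn P hP).trans (hns.trans hsN)))
    (fun w hw w' hw' hj P hP P' hP' => by
      apply entry_freq (r1 * N) (r2 * N) E w w' (hadm P hP) (hadm P' hP') n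
        (hPn P hP) (hPn P' hP') _ hE0
      intro i α
      rw [hE]
      apply H i N hN1 (w.1 - w'.1) (sub_ne_zero.2 (Ne.symm hj))
      · exact tkh_w52 hN2 (hUj w hw) (hUj w' hw')
      · exact Nat.mul_pos hK (Nat.mul_pos (hadm P hP).1.pos (hadm P' hP').1.pos)
      · push_cast
        exact tkh_q52 hN1 hn (by linarith) (hPn P hP) (hPn P' hP') (Nat.cast_nonneg _)
          (Nat.cast_nonneg _) (le_add_of_nonneg_right hr2.le) (Nat.cast_nonneg K)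
      · exact mul_le_mul_of_nonneg_right (le_add_of_nonneg_left (Nat.cast_nonneg K)) hN0.le)
    (fun x => gz z (rep x.1) x.2) (fun x => (PwtG84.norm_gz hz _ _).le)
  -- the number of vectors
  have hSx : ((Sx d (r1 * N) (r2 * N)).card : ℝ) ≤ hcl * (38 * (r2 * N)) := by
    unfold Sx
    rw [card_sigma]
    push_cast
    calc ∑ i : Cl d, ((shQ (rep i) (r1 * N) (r2 * N)).card : ℝ)
        ≤ ∑ _i : Cl d, 38 * (r2 * N) := sum_le_sum (fun i _ =>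
          card_sh _ (rep_pos i) _ _ hb1 (fun v hv => ((mem_shQ (rep_pos i)).1 hv).2.2))
      _ = hcl * (38 * (r2 * N)) := by rw [sum_const, card_univ, nsmul_eq_mul]
  -- the terms
  have hterm : ∑ w ∈ U, ∑ P ∈ PP, (1 / (P.1 : ℝ)) *
      ‖Mag z r1 r2 N w - z * cw P w * Mag z r1 r2 (N / P.1) w‖ ^ 2 =
      (1 / N ^ 2) * ∑ w ∈ U, ∑ P ∈ PP, ‖∑ x ∈ Sx d (r1 * N) (r2 * N),
        ((1 : ℝ) : ℂ) * gz z (rep x.1) x.2 * ph (w, P) x‖ ^ 2 := by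
    rw [mul_sum]
    refine sum_congr rfl (fun w _ => ?_)
    rw [mul_sum]
    exact sum_congr rfl (fun P hP => mag_id z r1 r2 N hN0 w (hadm P hP))
  rw [hterm]
  -- numerical bounds
  have b1 : (PP.card : ℝ) * (n * (hcl * (400 * ((τ + 1) * (√(r2 * N) + τ + 1)) + 2))) ≤
      1608 * (hcl * A * (√r2 + A)) * N :=
    tkh_b1_52 hn1 hn5 hr2 hA1 hhcl0 hτ0 hτA hss hs hcard
  have b2 : (U.card : ℝ) * ((PP.card : ℝ) * (n * (hcl * ((K * n ^ 2) ^ 2 * E)))) ≤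
      4 * (hcl * ((K : ℝ) ^ 2 * C0)) * N :=
    tkh_b2_52 hN1 hn hn1 hU hcard (Nat.cast_nonneg _) hhcl0 hC0 hE hc hc0
  have b3 := tkh_b3_52 (r2 := r2) hm0 b1 b2 hCG
  have b3' : 0 ≤ m * (hcl * (76 * (r2 * N)) + PP.card *
      (n * (hcl * (400 * ((τ + 1) * (√(r2 * N) + τ + 1)) + 2)))) +
      U.card * (PP.card * (n * (hcl * ((K * n ^ 2) ^ 2 * E)))) :=
    add_nonneg (mul_nonneg hm0 (add_nonneg hG1' (mul_nonneg (Nat.cast_nonneg _) hG0')))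
      (mul_nonneg (Nat.cast_nonneg _) (mul_nonneg (Nat.cast_nonneg _) hG2'))
  have b4 := hmain.trans (mul_le_mul hSx b3 b3'
    (mul_nonneg hhcl0 (mul_nonneg (by norm_num) (zero_le_one.trans hb1))))
  exact tkh_f52 hN0 b4

end Pool.Agent.Lib.MP_a17b09_nt.MRSG
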