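import Pool.Agent.Lib.MP_a17b09_nt.MRSG.StmtsG29

/-!
MRSG, StUallG: the mean values on a small set of nonzero frequencies, by comparison of the two
primes above `p`.
-/

set_option autoImplicit false

open Filter Topology Finset

namespace Pool.Agent.Lib.MP_a17b09_nt.MRSG

open CH CH.PE

namespace UallG39

/-- the comparison for one prime -/
theorem one_prime {M M' F F' : ℂ} (hF : ‖F‖ = 1) (hF' : ‖F'‖ = 1) :
    ‖M‖ ^ 2 * ‖F - F'‖ ^ 2 ≤ 2 * ‖M - F * M'‖ ^ 2 + 2 * ‖M - F' * M'‖ ^ 2 := by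
  have hFF' : F' * (starRingEnd ℂ) F' = 1 := by
    rw [Complex.mul_conj, Complex.normSq_eq_norm_sq, hF']
    simp
  have e0 : ‖F - F'‖ = ‖F * (starRingEnd ℂ) F' - 1‖ := by
    have h1 : F * (starRingEnd ℂ) F' - 1 = (F - F') * (starRingEnd ℂ) F' := by
      rw [sub_mul, hFF']
    rw [h1, norm_mul, RCLike.norm_conj, hF', mul_one]
  have e1 : M * (F * (starRingEnd ℂ) F' - 1) =
      F * (starRingEnd ℂ) F' * (M - F' * M') - (M - F * M') := by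
    linear_combination (F * M') * hFF'
  have e2 : ‖M * (F * (starRingEnd ℂ) F' - 1)‖ ≤ ‖M - F' * M'‖ + ‖M - F * M'‖ := by
    rw [e1]
    refine (norm_sub_le _ _).trans ?_
    rw [norm_mul, norm_mul, hF, RCLike.norm_conj, hF', one_mul, one_mul]
  rw [e0, ← mul_pow, ← norm_mul]
  have e3 := pow_le_pow_left₀ (norm_nonneg _) e2 2
  have e4 := sq_nonneg (‖M - F * M'‖ - ‖M - F' * M'‖)
  linarith

/-- the other prime above `p` -/
def fl (P : ℕ × Bool) : ℕ × Bool := (P.1, !P.2)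

theorem fl_fl (P : ℕ × Bool) : fl (fl P) = P := by
  obtain ⟨p, b⟩ := P
  simp [fl]

theorem fl_mem {d K : ℕ} {a b : ℝ} {P : ℕ × Bool} (h : P ∈ slg d K a b) : fl P ∈ slg d K a b := by
  rw [mem_slg] at h ⊢
  exact h

end UallG39

open UallG39 in
theorem stUallG_39 (d K : ℕ) [NeZero K] (hT : StTkhG d K) (hD : StDjG d K) : StUallG d K := by
  classical
  intro z hz r1 r2 hr1 hr12
  obtain ⟨c, C, N1, hc0, hc1, hC0, hN1, hT1⟩ := hT z hz r1 r2 hr1 hr12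
  refine ⟨c, hc0, fun ε hε => ?_⟩
  obtain ⟨N2, hN2, hD2⟩ := hD c (4 * C / ε) hc0
  refine ⟨max N1 N2, fun N hN U hU h0 hj => ?_⟩
  have hNN1 : N1 ≤ N := (le_max_left _ _).trans hN
  have hNN2 : N2 ≤ N := (le_max_right _ _).trans hN
  have key := hT1 N hNN1 U hU hj
  have hB0 : 0 < 4 * C / ε := by positivity
  have main : ∀ w ∈ U, (4 * C / ε) * ‖Mag z r1 r2 N w‖ ^ 2 ≤
      4 * ∑ P ∈ slg d K 3 (N ^ c), (1 / (P.1 : ℝ)) *
        ‖Mag z r1 r2 N w - z * cw P w * Mag z r1 r2 (N / P.1) w‖ ^ 2 := by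
    intro w hw
    have hDj := hD2 N hNN2 w (h0 w hw) (hj w hw)
    obtain ⟨M, hM⟩ : ∃ M : ℂ, M = Mag z r1 r2 N w := ⟨_, rfl⟩
    obtain ⟨X, hX⟩ : ∃ X : ℝ, X = N ^ c := ⟨_, rfl⟩
    rw [← hM]
    rw [← hX] at hDj ⊢
    obtain ⟨e, he⟩ : ∃ e : ℕ × Bool → ℝ, e = fun P => (1 / (P.1 : ℝ)) *
      ‖M - z * cw P w * Mag z r1 r2 (N / P.1) w‖ ^ 2 := ⟨_, rfl⟩
    have hed : ∀ P, e P = (1 / (P.1 : ℝ)) *
      ‖M - z * cw P w * Mag z r1 r2 (N / P.1) w‖ ^ 2 := fun P => by rw [he]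
    have s1 : (4 * C / ε) * ‖M‖ ^ 2 ≤ ∑ P ∈ slg d K 3 X, (2 * e P + 2 * e (fl P)) := by
      calc (4 * C / ε) * ‖M‖ ^ 2
          ≤ (∑ P ∈ slg d K 3 X, (1 / (P.1 : ℝ)) *
              ‖cw P w - cw (P.1, !P.2) w‖ ^ 2) * ‖M‖ ^ 2 :=
            mul_le_mul_of_nonneg_right hDj (sq_nonneg _)
        _ = ∑ P ∈ slg d K 3 X, (1 / (P.1 : ℝ)) *
              ‖cw P w - cw (P.1, !P.2) w‖ ^ 2 * ‖M‖ ^ 2 := by rw [Finset.sum_mul]
        _ ≤ _ := by
            refine Finset.sum_le_sum fun P hP => ?_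
            have hA : Adm d K P := (mem_slg.1 hP).1
            have hA' : Adm d K (P.1, !P.2) := (mem_slg.1 (fl_mem hP)).1
            have g1 : ‖z * cw P w‖ = 1 := by rw [norm_mul, hz, norm_cw hA, one_mul]
            have g2 : ‖z * cw (P.1, !P.2) w‖ = 1 := by rw [norm_mul, hz, norm_cw hA', one_mul]
            have g3 : ‖z * cw P w - z * cw (P.1, !P.2) w‖ = ‖cw P w - cw (P.1, !P.2) w‖ := by
              rw [← mul_sub, norm_mul, hz, one_mul]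
            have g4 := one_prime (M := M) (M' := Mag z r1 r2 (N / P.1) w) g1 g2
            rw [g3] at g4
            rw [hed, hed]
            have g5 : (0 : ℝ) ≤ 1 / (P.1 : ℝ) := by positivity
            have g6 := mul_le_mul_of_nonneg_left g4 g5
            show _ ≤ 2 * ((1 / (P.1 : ℝ)) * _) + 2 * ((1 / (P.1 : ℝ)) *
              ‖M - z * cw (P.1, !P.2) w * Mag z r1 r2 (N / P.1) w‖ ^ 2)
            linarith
    have s3 : ∑ P ∈ slg d K 3 X, e (fl P) = ∑ P ∈ slg d K 3 X, e P :=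
      Finset.sum_nbij' fl fl (fun P h => fl_mem h) (fun P h => fl_mem h)
        (fun P _ => fl_fl P) (fun P _ => fl_fl P) (fun P _ => rfl)
    have s4 : ∑ P ∈ slg d K 3 X, (2 * e P + 2 * e (fl P)) = 4 * ∑ P ∈ slg d K 3 X, e P := by
      rw [Finset.sum_add_distrib, ← Finset.mul_sum, ← Finset.mul_sum, s3]
      ring
    have s5 : ∑ P ∈ slg d K 3 X, e P = ∑ P ∈ slg d K 3 X, (1 / (P.1 : ℝ)) *
        ‖M - z * cw P w * Mag z r1 r2 (N / P.1) w‖ ^ 2 :=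
      Finset.sum_congr rfl fun P _ => hed P
    rw [← s5, ← s4]
    exact s1
  have h6 : (4 * C / ε) * ∑ w ∈ U, ‖Mag z r1 r2 N w‖ ^ 2 ≤ 4 * C := by
    rw [Finset.mul_sum]
    calc ∑ w ∈ U, (4 * C / ε) * ‖Mag z r1 r2 N w‖ ^ 2
        ≤ ∑ w ∈ U, 4 * ∑ P ∈ slg d K 3 (N ^ c), (1 / (P.1 : ℝ)) *
          ‖Mag z r1 r2 N w - z * cw P w * Mag z r1 r2 (N / P.1) w‖ ^ 2 :=
          Finset.sum_le_sum main
      _ = 4 * ∑ w ∈ U, ∑ P ∈ slg d K 3 (N ^ c), (1 / (P.1 : ℝ)) *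
          ‖Mag z r1 r2 N w - z * cw P w * Mag z r1 r2 (N / P.1) w‖ ^ 2 := by
          rw [Finset.mul_sum]
      _ ≤ 4 * C := mul_le_mul_of_nonneg_left key (by norm_num)
  have h7 : (4 * C / ε) * ∑ w ∈ U, ‖Mag z r1 r2 N w‖ ^ 2 ≤ (4 * C / ε) * ε := by
    refine h6.trans (le_of_eq ?_)
    field_simp
  exact le_of_mul_le_mul_left h7 hB0

end Pool.Agent.Lib.MP_a17b09_nt.MRSG
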