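import Pool.Agent.Lib.MP_a17b09_nt.MRSG.NugC12

/-!
MRSG (MP_a17b09_nt), sieve majorant for a binary form, part D: positive forms and the two error
sums (module NUG). helper12.
-/

set_option autoImplicit false

namespace Pool.Agent.Lib.MP_a17b09_nt.MRSG.NugD12

open Finset Filter Topology
open scoped Classical
open Pool.Agent.Lib.MP_a17b09_nt.CH (Form)
open NugA12 NugB12 NugC12

/-- **The sieve majorant of a positive binary form.** -/
theorem nug_pos (Q : Form) (hQ : Q.Pos) (z00 : ℕ) :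
    ∃ C : ℝ, 0 < C ∧ ∃ z0 : ℕ, z00 ≤ z0 ∧ ∃ Y0 : ℝ, 2 ≤ Y0 ∧ ∀ Y : ℝ, Y0 ≤ Y →
    ∃ (L : ℕ) (ν : ℤ × ℤ → ℝ), 1 ≤ L ∧ (L : ℝ) ≤ Y ^ (1 / 16 : ℝ) ∧ (∀ w, 0 ≤ ν w) ∧
      (∀ w, (∀ q : ℕ, q.Prime → z0 < q → (q : ℝ) ≤ Y ^ (1 / 16 : ℝ) → ¬ ((q : ℤ) ∣ Q.q w)) →
        1 ≤ ν w) ∧
      (∀ (S : Finset (ℤ × ℤ)) (F : ℤ × ℤ → ℂ) (M : ℂ) (E : ℕ → ℝ), (∀ δ, 0 ≤ E δ) →
        (∀ δ : ℕ, 0 < δ → δ ≤ L → Squarefree δ → (∀ q : ℕ, q.Prime → q ∣ δ → z0 < q) →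
          ∀ κ : ℤ × ℤ, ‖∑ w ∈ S.filter (fun w => Cls δ κ w), F w - M / (δ : ℂ) ^ 2‖ ≤ E δ) →
        ‖∑ w ∈ S, (ν w : ℂ) * F w‖ ≤ C * ‖M‖ / Real.log Y +
          ∑ δ ∈ Icc 1 L, (2 : ℝ) ^ (δ.primeFactors.card) * δ * E δ) := by
  have h1 := hQ.1
  have h2 := hQ.2
  refine nug Q h1.ne' h2.ne' ?_ z00
  intro hne
  have : NeZero (-Q.D) := ⟨neg_ne_zero.2 h2.ne'⟩
  refine kro_ne Q.D.toNat (by omega) (-Q.D) ?_ hne
  have h3 : ((Q.D.toNat : ℕ) : ℤ) = Q.D := Int.toNat_of_nonneg h2.le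
  rw [h3]

/-- `2 ^ ω(δ) ≤ δ` -/
theorem two_pow_le (δ : ℕ) (hδ : 0 < δ) : 2 ^ (δ.primeFactors.card) ≤ δ := by
  have h1 : 2 ^ (δ.primeFactors.card) ≤ ∏ p ∈ δ.primeFactors, p := by
    rw [← prod_const]
    exact prod_le_prod' (fun p hp => (Nat.prime_of_mem_primeFactors hp).two_le)
  exact h1.trans (Nat.le_of_dvd hδ (Nat.prod_primeFactors_dvd δ))

/-- `2 ^ ω(δ)` is at most the number of divisors -/
theorem two_pow_le_div (δ : ℕ) (hδ : 0 < δ) :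
    2 ^ (δ.primeFactors.card) ≤ δ.divisors.card := by
  rw [Nat.card_divisors hδ.ne', ← prod_const]
  refine prod_le_prod' (fun p hp => ?_)
  have h1 : 0 < δ.factorization p :=
    (Nat.prime_of_mem_primeFactors hp).factorization_pos_of_dvd hδ.ne'
      (Nat.dvd_of_mem_primeFactors hp)
  omega

/-- `∑ 2 ^ ω(δ) / δ ≤ (∑ 1 / a) ^ 2` -/
theorem sum_omega (L : ℕ) :
    ∑ δ ∈ Icc 1 L, (2 : ℝ) ^ (δ.primeFactors.card) / δ ≤ (∑ a ∈ Icc 1 L, (1 : ℝ) / a) ^ 2 := by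
  calc ∑ δ ∈ Icc 1 L, (2 : ℝ) ^ (δ.primeFactors.card) / δ
      ≤ ∑ δ ∈ Icc 1 L, ∑ a ∈ Icc 1 L, (if a ∣ δ then (1 : ℝ) / δ else 0) := by
        refine sum_le_sum (fun δ hδ => ?_)
        obtain ⟨h1, h2⟩ := mem_Icc.1 hδ
        have hδ0 : (0 : ℝ) < δ := by exact_mod_cast h1
        rw [← sum_filter, sum_const, nsmul_eq_mul, mul_one_div]
        apply div_le_div_of_nonneg_right _ hδ0.le
        have h3 : (Icc 1 L).filter (fun a => a ∣ δ) = δ.divisors := by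
          ext a
          rw [mem_filter, mem_Icc, Nat.mem_divisors]
          constructor
          · rintro ⟨_, h⟩
            exact ⟨h, by omega⟩
          · rintro ⟨h, _⟩
            exact ⟨⟨Nat.pos_of_dvd_of_pos h h1, (Nat.le_of_dvd h1 h).trans h2⟩, h⟩
        rw [h3]
        exact_mod_cast two_pow_le_div δ h1
    _ = ∑ a ∈ Icc 1 L, ∑ δ ∈ Icc 1 L, (if a ∣ δ then (1 : ℝ) / δ else 0) := sum_comm
    _ ≤ ∑ a ∈ Icc 1 L, ∑ b ∈ Icc 1 L, (1 : ℝ) / a * (1 / b) := by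
        refine sum_le_sum (fun a ha => ?_)
        have ha1 : 0 < a := (mem_Icc.1 ha).1
        rw [← sum_filter]
        have hsub : (Icc 1 L).filter (fun δ => a ∣ δ) ⊆ (Icc 1 L).image (fun b => a * b) := by
          intro δ hδ
          obtain ⟨h1, b, hb⟩ := mem_filter.1 hδ
          obtain ⟨h2, h3⟩ := mem_Icc.1 h1
          rw [mem_image]
          refine ⟨b, mem_Icc.2 ⟨?_, ?_⟩, hb.symm⟩
          · rcases Nat.eq_zero_or_pos b with h | h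
            · rw [h] at hb
              omega
            · exact h
          · have : b ≤ a * b := Nat.le_mul_of_pos_left b ha1
            omega
        refine (sum_le_sum_of_subset_of_nonneg hsub (fun i _ _ => by positivity)).trans ?_
        rw [sum_image (fun x _ y _ h => Nat.eq_of_mul_eq_mul_left ha1 h)]
        refine le_of_eq (sum_congr rfl (fun b _ => ?_))
        push_cast
        rw [one_div_mul_one_div]
    _ = (∑ a ∈ Icc 1 L, (1 : ℝ) / a) ^ 2 := by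
        rw [sq, sum_mul_sum]

theorem harm_le (L : ℕ) : ∑ a ∈ Icc 1 L, (1 : ℝ) / a ≤ 1 + Real.log L := by
  have h := harmonic_le_one_add_log L
  rw [harmonic_eq_sum_Icc] at h
  push_cast at h
  simpa [one_div] using h

/-- the first error sum -/
theorem err1 (c : ℝ) (hc : 0 < c) : ∃ C : ℝ, 0 < C ∧ ∀ Y : ℝ, 1 ≤ Y → ∀ L : ℕ, 1 ≤ L →
    (L : ℝ) ≤ Y ^ (1 / 16 : ℝ) →
    ∑ δ ∈ Icc 1 L, (2 : ℝ) ^ (δ.primeFactors.card) * δ * (Y / (δ : ℝ) ^ 2) ^ (1 - c) ≤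
      C * Y ^ (1 - c / 2) := by
  -- log bound
  refine ⟨(1 + 1 / c) ^ 2, by positivity, fun Y hY L hL hLY => ?_⟩
  have hY0 : 0 < Y := by linarith
  have hL0 : (0 : ℝ) < L := by exact_mod_cast hL
  have hlogL : Real.log L ≤ Y ^ (c / 16) / c := by
    have h1 := Real.log_le_rpow_div hL0.le hc
    refine h1.trans ?_
    apply div_le_div_of_nonneg_right _ hc.le
    calc (L : ℝ) ^ c ≤ (Y ^ (1 / 16 : ℝ)) ^ c := Real.rpow_le_rpow hL0.le hLY hc.le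
      _ = Y ^ (c / 16) := by
        rw [← Real.rpow_mul hY0.le]
        ring_nf
  have hYc : 1 ≤ Y ^ (c / 16) := Real.one_le_rpow hY (by positivity)
  have hH : ∑ a ∈ Icc 1 L, (1 : ℝ) / a ≤ (1 + 1 / c) * Y ^ (c / 16) := by
    refine (harm_le L).trans ?_
    have : Y ^ (c / 16) / c = 1 / c * Y ^ (c / 16) := by ring
    rw [this] at hlogL
    linarith
  have hH0 : 0 ≤ ∑ a ∈ Icc 1 L, (1 : ℝ) / a := sum_nonneg (fun i _ => by positivity)
  have hL2 : (L : ℝ) ^ (2 * c) ≤ Y ^ (c / 8) := by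
    calc (L : ℝ) ^ (2 * c) ≤ (Y ^ (1 / 16 : ℝ)) ^ (2 * c) :=
          Real.rpow_le_rpow hL0.le hLY (by positivity)
      _ = Y ^ (c / 8) := by
        rw [← Real.rpow_mul hY0.le]
        ring_nf
  calc ∑ δ ∈ Icc 1 L, (2 : ℝ) ^ (δ.primeFactors.card) * δ * (Y / (δ : ℝ) ^ 2) ^ (1 - c)
      ≤ ∑ δ ∈ Icc 1 L, (Y ^ (1 - c) * (L : ℝ) ^ (2 * c)) *
          ((2 : ℝ) ^ (δ.primeFactors.card) / δ) := by
        refine sum_le_sum (fun δ hδ => ?_)
        obtain ⟨h1, h2⟩ := mem_Icc.1 hδ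
        have hδ0 : (0 : ℝ) < δ := by exact_mod_cast h1
        have hδL : (δ : ℝ) ≤ L := by exact_mod_cast h2
        have e1 : (Y / (δ : ℝ) ^ 2) ^ (1 - c) = Y ^ (1 - c) * (δ : ℝ) ^ (2 * c) / (δ : ℝ) ^ 2 := by
          rw [Real.div_rpow hY0.le (by positivity), ← Real.rpow_natCast (δ : ℝ) 2,
            ← Real.rpow_mul hδ0.le, mul_div_assoc, ← Real.rpow_sub hδ0, div_eq_mul_inv,
            ← Real.rpow_neg hδ0.le]
          congr 2
          push_cast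
          ring
        rw [e1]
        have e2 : (δ : ℝ) ^ (2 * c) ≤ (L : ℝ) ^ (2 * c) :=
          Real.rpow_le_rpow hδ0.le hδL (by positivity)
        have e3 : (2 : ℝ) ^ (δ.primeFactors.card) * δ *
            (Y ^ (1 - c) * (δ : ℝ) ^ (2 * c) / (δ : ℝ) ^ 2) =
            (Y ^ (1 - c) * (δ : ℝ) ^ (2 * c)) * ((2 : ℝ) ^ (δ.primeFactors.card) / δ) := by
          field_simp
        rw [e3]
        gcongr
    _ = Y ^ (1 - c) * (L : ℝ) ^ (2 * c) *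
          ∑ δ ∈ Icc 1 L, (2 : ℝ) ^ (δ.primeFactors.card) / δ := by rw [mul_sum]
    _ ≤ Y ^ (1 - c) * Y ^ (c / 8) * ((1 + 1 / c) * Y ^ (c / 16)) ^ 2 := by
        have h3 := sum_omega L
        have h4 : (∑ a ∈ Icc 1 L, (1 : ℝ) / a) ^ 2 ≤ ((1 + 1 / c) * Y ^ (c / 16)) ^ 2 :=
          pow_le_pow_left₀ hH0 hH 2
        have h5 : 0 ≤ ∑ δ ∈ Icc 1 L, (2 : ℝ) ^ (δ.primeFactors.card) / δ :=
          sum_nonneg (fun i _ => by positivity)
        apply mul_le_mul _ (h3.trans h4) h5 (by positivity)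
        exact mul_le_mul_of_nonneg_left hL2 (by positivity)
    _ = (1 + 1 / c) ^ 2 * Y ^ (1 - 3 * c / 4) := by
        have e4 : (Y ^ (c / 16)) ^ 2 = Y ^ (c / 8) := by
          rw [← Real.rpow_natCast, ← Real.rpow_mul hY0.le]
          congr 1
          push_cast
          ring
        rw [mul_pow, e4]
        have e5 : Y ^ (1 - c) * Y ^ (c / 8) * Y ^ (c / 8) = Y ^ (1 - 3 * c / 4) := by
          rw [← Real.rpow_add hY0, ← Real.rpow_add hY0]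
          congr 1
          ring
        rw [← e5]
        ring
    _ ≤ (1 + 1 / c) ^ 2 * Y ^ (1 - c / 2) := by
        apply mul_le_mul_of_nonneg_left _ (by positivity)
        exact Real.rpow_le_rpow_of_exponent_le hY (by linarith)

/-- the second error sum -/
theorem err2 (Y : ℝ) (hY : 1 ≤ Y) (L : ℕ) (hLY : (L : ℝ) ≤ Y ^ (1 / 16 : ℝ)) :
    ∑ δ ∈ Icc 1 L, (2 : ℝ) ^ (δ.primeFactors.card) * δ * (Real.sqrt Y / δ + 1) ≤
      2 * Y ^ (3 / 4 : ℝ) := by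
  have hY0 : 0 < Y := by linarith
  have hL0 : (0 : ℝ) ≤ L := Nat.cast_nonneg _
  have hs : Real.sqrt Y = Y ^ (1 / 2 : ℝ) := Real.sqrt_eq_rpow Y
  have hLs : (L : ℝ) ≤ Y ^ (1 / 2 : ℝ) :=
    hLY.trans (Real.rpow_le_rpow_of_exponent_le hY (by norm_num))
  calc ∑ δ ∈ Icc 1 L, (2 : ℝ) ^ (δ.primeFactors.card) * δ * (Real.sqrt Y / δ + 1)
      ≤ ∑ _δ ∈ Icc 1 L, (L : ℝ) * (2 * Y ^ (1 / 2 : ℝ)) := by
        refine sum_le_sum (fun δ hδ => ?_)
        obtain ⟨h1, h2⟩ := mem_Icc.1 hδ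
        have hδ0 : (0 : ℝ) < δ := by exact_mod_cast h1
        have hδL : (δ : ℝ) ≤ L := by exact_mod_cast h2
        have e1 : (2 : ℝ) ^ (δ.primeFactors.card) ≤ L := by
          have : (2 : ℝ) ^ (δ.primeFactors.card) ≤ δ := by exact_mod_cast two_pow_le δ h1
          exact this.trans hδL
        have e2 : (2 : ℝ) ^ (δ.primeFactors.card) * δ * (Real.sqrt Y / δ + 1) =
            (2 : ℝ) ^ (δ.primeFactors.card) * (Real.sqrt Y + δ) := by
          field_simp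
        rw [e2]
        apply mul_le_mul e1 _ (by positivity) hL0
        rw [hs]
        linarith
    _ = L * (L * (2 * Y ^ (1 / 2 : ℝ))) := by
        rw [sum_const, nsmul_eq_mul, Nat.card_Icc]
        congr 2
    _ ≤ Y ^ (1 / 16 : ℝ) * (Y ^ (1 / 16 : ℝ) * (2 * Y ^ (1 / 2 : ℝ))) := by
        gcongr
    _ = 2 * Y ^ (5 / 8 : ℝ) := by
        have e5 : Y ^ (1 / 16 : ℝ) * Y ^ (1 / 16 : ℝ) * Y ^ (1 / 2 : ℝ) = Y ^ (5 / 8 : ℝ) := by
          rw [← Real.rpow_add hY0, ← Real.rpow_add hY0]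
          norm_num
        rw [← e5]
        ring
    _ ≤ 2 * Y ^ (3 / 4 : ℝ) := by
        apply mul_le_mul_of_nonneg_left _ (by norm_num)
        exact Real.rpow_le_rpow_of_exponent_le hY (by norm_num)

end Pool.Agent.Lib.MP_a17b09_nt.MRSG.NugD12
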