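import Mathlib

/-!
Project MRSG: summation over windows (helper40). If every window `(e^u, e^(u+1)]` carries at least
`c0 / u`, then the total up to `N ^ c` is large.
-/

set_option autoImplicit false

open Finset

namespace Pool.Agent.Lib.MP_a17b09_nt.MRSG

namespace DjAbs40

/-- telescoping of logarithms -/
theorem log_sum (a : ℕ) (ha : 0 < a) (b : ℕ) (hab : a ≤ b) :
    Real.log ((b : ℝ) / a) ≤ ∑ u ∈ Finset.Ico a b, 1 / (u : ℝ) := by
  induction b, hab using Nat.le_induction with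
  | base =>
    have : (a : ℝ) ≠ 0 := by positivity
    rw [div_self this, Real.log_one, Finset.Ico_self, Finset.sum_empty]
  | succ b hb ih =>
    rw [Finset.sum_Ico_succ_top hb]
    have ha' : (0 : ℝ) < a := by exact_mod_cast ha
    have hb' : (0 : ℝ) < b := by exact_mod_cast lt_of_lt_of_le ha hb
    have h1 : Real.log (((b + 1 : ℕ) : ℝ) / a) = Real.log ((b : ℝ) / a) +
        Real.log (1 + 1 / (b : ℝ)) := by
      rw [← Real.log_mul (by positivity) (by positivity)]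
      congr 1
      push_cast
      field_simp
    rw [h1]
    have h2 : Real.log (1 + 1 / (b : ℝ)) ≤ 1 / (b : ℝ) := by
      have := Real.log_le_sub_one_of_pos (show 0 < 1 + 1 / (b : ℝ) by positivity)
      linarith
    linarith

/-- the windows are disjoint -/
theorem win_sum (g : ℕ → ℝ) (a b : ℕ) (hab : a ≤ b) :
    ∑ u ∈ Finset.Ico a b, ∑ p ∈ Finset.Ioc ⌊Real.exp u⌋₊ ⌊Real.exp ((u : ℝ) + 1)⌋₊, g p =
      ∑ p ∈ Finset.Ioc ⌊Real.exp a⌋₊ ⌊Real.exp b⌋₊, g p := by
  induction b, hab using Nat.le_induction with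
  | base => simp
  | succ b hb ih =>
    rw [Finset.sum_Ico_succ_top hb, ih]
    push_cast
    refine Finset.sum_Ioc_consecutive g ?_ ?_
    · exact Nat.floor_le_floor (Real.exp_le_exp.2 (by exact_mod_cast hb))
    · exact Nat.floor_le_floor (Real.exp_le_exp.2 (by linarith))

end DjAbs40

open DjAbs40 in
/-- **The sum over the windows.** -/
theorem djabs_40 {c0 c A : ℝ} (hc0 : 0 < c0) (hc : 0 < c) (hA : 0 < A) (B : ℝ) :
    ∃ kap : ℝ, 0 < kap ∧ ∀ U0 : ℕ, ∃ N0 : ℝ, 1 ≤ N0 ∧ ∀ N : ℝ, N0 ≤ N →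
    ∀ g : ℕ → ℝ, (∀ p, 0 ≤ g p) →
    (∀ u : ℕ, U0 ≤ u → 1 ≤ u → N ^ A ≤ Real.exp (u / kap) → Real.exp ((u : ℝ) + 1) ≤ N ^ c →
      c0 / u ≤ ∑ p ∈ Finset.Ioc ⌊Real.exp u⌋₊ ⌊Real.exp ((u : ℝ) + 1)⌋₊, g p) →
    B ≤ ∑ p ∈ Finset.Ioc 0 ⌊N ^ c⌋₊, g p := by
  set β : ℝ := c / 4 * Real.exp (-(|B| / c0)) with hβ
  have hβ0 : 0 < β := by positivity
  have hβc : β ≤ c / 4 := by
    rw [hβ]
    refine mul_le_of_le_one_right (by positivity) ?_
    rw [Real.exp_le_one_iff]
    have : 0 ≤ |B| / c0 := by positivity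
    linarith
  refine ⟨β / A, by positivity, fun U0 => ?_⟩
  refine ⟨Real.exp (max ((U0 + 1) / β) (4 / c)), ?_, fun N hN g hg hw => ?_⟩
  · rw [← Real.exp_zero]
    refine Real.exp_le_exp.2 (le_trans ?_ (le_max_right _ _))
    positivity
  have hN0 : 0 < N := lt_of_lt_of_le (Real.exp_pos _) hN
  set Lg := Real.log N with hLg
  have hL : max ((U0 + 1) / β) (4 / c) ≤ Lg := by
    rw [hLg, Real.le_log_iff_exp_le hN0]
    exact hN
  have hL1 : U0 + 1 ≤ β * Lg := by
    have := (le_max_left _ _).trans hL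
    rw [div_le_iff₀ hβ0] at this
    linarith
  have hL2 : 4 ≤ c * Lg := by
    have := (le_max_right _ _).trans hL
    rw [div_le_iff₀ hc] at this
    linarith
  have hLpos : 0 < Lg := lt_of_lt_of_le (by positivity) hL
  have hNe : N = Real.exp Lg := by rw [hLg, Real.exp_log hN0]
  set a : ℕ := ⌈β * Lg⌉₊ with ha
  set b : ℕ := ⌊c * Lg⌋₊ with hb
  have ha1 : β * Lg ≤ a := Nat.le_ceil _
  have hU00 : (0 : ℝ) ≤ U0 := Nat.cast_nonneg _
  have ha2 : (a : ℝ) ≤ 2 * (β * Lg) := by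
    have := Nat.ceil_lt_add_one (show 0 ≤ β * Lg by positivity)
    rw [← ha] at this
    linarith
  have hb1 : (b : ℝ) ≤ c * Lg := Nat.floor_le (by positivity)
  have hb2 : c * Lg / 2 ≤ b := by
    have := Nat.lt_floor_add_one (c * Lg)
    rw [← hb] at this
    linarith
  have hab : a ≤ b := by
    have h1 : (a : ℝ) ≤ b := by
      refine ha2.trans (le_trans ?_ hb2)
      have := mul_le_mul_of_nonneg_right hβc hLpos.le
      linarith
    exact_mod_cast h1
  have hapos : 0 < a := by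
    have : (0 : ℝ) < a := by linarith
    exact_mod_cast this
  have haU : U0 ≤ a := by
    have : (U0 : ℝ) ≤ a := by linarith
    exact_mod_cast this
  -- the windows
  have h1 : ∑ u ∈ Finset.Ico a b, c0 / (u : ℝ) ≤
      ∑ p ∈ Finset.Ioc ⌊Real.exp a⌋₊ ⌊Real.exp b⌋₊, g p := by
    rw [← win_sum g a b hab]
    refine Finset.sum_le_sum fun u hu => ?_
    rw [Finset.mem_Ico] at hu
    have hua : (a : ℝ) ≤ u := by exact_mod_cast hu.1
    refine hw u (haU.trans hu.1) (le_trans hapos hu.1) ?_ ?_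
    · rw [hNe, ← Real.exp_mul, Real.exp_le_exp, div_div_eq_mul_div, le_div_iff₀ hβ0]
      have := mul_le_mul_of_nonneg_right (ha1.trans hua) hA.le
      linarith
    · rw [hNe, ← Real.exp_mul, Real.exp_le_exp]
      have h2 : ((u + 1 : ℕ) : ℝ) ≤ b := by exact_mod_cast hu.2
      push_cast at h2
      linarith
  have h2 : ∑ p ∈ Finset.Ioc ⌊Real.exp a⌋₊ ⌊Real.exp b⌋₊, g p ≤
      ∑ p ∈ Finset.Ioc 0 ⌊N ^ c⌋₊, g p := by
    refine Finset.sum_le_sum_of_subset_of_nonneg (Finset.Ioc_subset_Ioc (Nat.zero_le _) ?_)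
      fun p _ _ => hg p
    refine Nat.floor_le_floor ?_
    rw [hNe, ← Real.exp_mul, Real.exp_le_exp]
    linarith
  have h3 : c0 * Real.log ((b : ℝ) / a) ≤ ∑ u ∈ Finset.Ico a b, c0 / (u : ℝ) := by
    have := mul_le_mul_of_nonneg_left (log_sum a hapos b hab) hc0.le
    rw [Finset.mul_sum] at this
    refine this.trans (le_of_eq (Finset.sum_congr rfl fun u _ => ?_))
    ring
  have ha0 : (0 : ℝ) < a := by exact_mod_cast hapos
  have h4 : |B| / c0 ≤ Real.log ((b : ℝ) / a) := by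
    rw [Real.le_log_iff_exp_le (by
      have : (0 : ℝ) < b := lt_of_lt_of_le ha0 (by exact_mod_cast hab)
      positivity), le_div_iff₀ ha0]
    refine le_trans ?_ hb2
    calc Real.exp (|B| / c0) * a ≤ Real.exp (|B| / c0) * (2 * (β * Lg)) :=
          mul_le_mul_of_nonneg_left ha2 (Real.exp_pos _).le
      _ = c * Lg / 2 * (Real.exp (|B| / c0) * Real.exp (-(|B| / c0))) := by rw [hβ]; ring
      _ = c * Lg / 2 := by rw [← Real.exp_add, add_neg_cancel, Real.exp_zero, mul_one]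
  have h5 : |B| ≤ c0 * Real.log ((b : ℝ) / a) := by
    rw [div_le_iff₀ hc0] at h4
    linarith
  linarith [le_abs_self B]

end Pool.Agent.Lib.MP_a17b09_nt.MRSG
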