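import Mathlib

/-!
Project MRSG: powers of unimodular numbers (helper40). If the sums of the first `K0` even powers are
not all large, then the numbers are not all close to `±1`.
-/

set_option autoImplicit false

open Finset

namespace Pool.Agent.Lib.MP_a17b09_nt.MRSG

namespace Pow40

/-- `|1 - y ^ k| ≤ k |1 - y|` for `|y| ≤ 1` -/
theorem one_sub_pow {y : ℂ} (hy : ‖y‖ ≤ 1) (k : ℕ) : ‖1 - y ^ k‖ ≤ k * ‖1 - y‖ := by
  induction k with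
  | zero => simp
  | succ k ih =>
    have h1 : 1 - y ^ (k + 1) = (1 - y ^ k) + y ^ k * (1 - y) := by ring
    rw [h1]
    refine (norm_add_le _ _).trans ?_
    have h2 : ‖y ^ k * (1 - y)‖ ≤ ‖1 - y‖ := by
      rw [norm_mul, norm_pow]
      exact mul_le_of_le_one_left (norm_nonneg _) (pow_le_one₀ (norm_nonneg _) hy)
    push_cast
    linarith

/-- the abstract form: `ys` unimodular (in the unit disc), `∑_{k ≤ K0} |∑ y^k|² ≤ (K0 / 4) (#R)²`; then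
`∑ |1 - y|² ≥ # R / (4 K0²)` -/
theorem pow_sum {ι : Type*} (R : Finset ι) (y : ι → ℂ) (hy : ∀ i ∈ R, ‖y i‖ ≤ 1) (K0 : ℕ)
    (hK0 : 0 < K0)
    (h : ∑ k ∈ Finset.Icc 1 K0, ‖∑ i ∈ R, y i ^ k‖ ^ 2 ≤ (K0 : ℝ) / 4 * (R.card : ℝ) ^ 2) :
    (R.card : ℝ) / (4 * (K0 : ℝ) ^ 2) ≤ ∑ i ∈ R, ‖1 - y i‖ ^ 2 := by
  have hK : (0 : ℝ) < K0 := by exact_mod_cast hK0
  -- one small power
  obtain ⟨k, hk, hkk⟩ : ∃ k ∈ Finset.Icc 1 K0, ‖∑ i ∈ R, y i ^ k‖ ^ 2 ≤ (R.card : ℝ) ^ 2 / 4 := by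
    by_contra hcon
    push Not at hcon
    have h1 : ∑ k ∈ Finset.Icc 1 K0, (R.card : ℝ) ^ 2 / 4 <
        ∑ k ∈ Finset.Icc 1 K0, ‖∑ i ∈ R, y i ^ k‖ ^ 2 :=
      Finset.sum_lt_sum_of_nonempty ⟨1, Finset.mem_Icc.2 ⟨le_rfl, hK0⟩⟩ hcon
    rw [Finset.sum_const, nsmul_eq_mul, Nat.card_Icc, Nat.add_sub_cancel] at h1
    have h2 : (K0 : ℝ) * ((R.card : ℝ) ^ 2 / 4) = (K0 : ℝ) / 4 * (R.card : ℝ) ^ 2 := by ring
    linarith
  rw [Finset.mem_Icc] at hk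
  have h1 : ‖∑ i ∈ R, y i ^ k‖ ≤ (R.card : ℝ) / 2 := by
    refine abs_le_of_sq_le_sq' ?_ (by positivity) |>.2
    calc ‖∑ i ∈ R, y i ^ k‖ ^ 2 ≤ (R.card : ℝ) ^ 2 / 4 := hkk
      _ = ((R.card : ℝ) / 2) ^ 2 := by ring
  have h2 : (R.card : ℝ) / 2 ≤ ∑ i ∈ R, ‖1 - y i ^ k‖ := by
    have e1 : (R.card : ℂ) - ∑ i ∈ R, y i ^ k = ∑ i ∈ R, (1 - y i ^ k) := by
      rw [Finset.sum_sub_distrib, Finset.sum_const, nsmul_eq_mul, mul_one]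
    have e2 : (R.card : ℝ) - ‖∑ i ∈ R, y i ^ k‖ ≤ ‖(R.card : ℂ) - ∑ i ∈ R, y i ^ k‖ := by
      have := norm_sub_norm_le (R.card : ℂ) (∑ i ∈ R, y i ^ k)
      rwa [Complex.norm_natCast] at this
    rw [e1] at e2
    have e3 := norm_sum_le R (fun i => 1 - y i ^ k)
    linarith
  have h3 : ∑ i ∈ R, ‖1 - y i ^ k‖ ≤ K0 * ∑ i ∈ R, ‖1 - y i‖ := by
    rw [Finset.mul_sum]
    refine Finset.sum_le_sum fun i hi => (one_sub_pow (hy i hi) k).trans ?_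
    refine mul_le_mul_of_nonneg_right ?_ (norm_nonneg _)
    exact_mod_cast hk.2
  have h4 : (∑ i ∈ R, ‖1 - y i‖) ^ 2 ≤ R.card * ∑ i ∈ R, ‖1 - y i‖ ^ 2 :=
    sq_sum_le_card_mul_sum_sq
  rcases Nat.eq_zero_or_pos R.card with h0 | h0
  · rw [h0, Nat.cast_zero, zero_div]
    exact Finset.sum_nonneg fun i _ => by positivity
  · have hR : (0 : ℝ) < R.card := by exact_mod_cast h0
    have h5 : (R.card : ℝ) / (2 * K0) ≤ ∑ i ∈ R, ‖1 - y i‖ := by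
      rw [div_le_iff₀ (by positivity)]
      have := h2.trans h3
      linarith
    have h6 : ((R.card : ℝ) / (2 * K0)) ^ 2 ≤ R.card * ∑ i ∈ R, ‖1 - y i‖ ^ 2 :=
      (pow_le_pow_left₀ (by positivity) h5 2).trans h4
    have h7 : (R.card : ℝ) * ((R.card : ℝ) / (4 * (K0 : ℝ) ^ 2)) ≤
        R.card * ∑ i ∈ R, ‖1 - y i‖ ^ 2 := by
      refine le_trans (le_of_eq ?_) h6
      field_simp
      ring
    exact le_of_mul_le_mul_left h7 hR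

end Pow40

end Pool.Agent.Lib.MP_a17b09_nt.MRSG
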