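import Pool.Agent.Lib.MP_a17b09_nt.MRS.HM96
import Pool.Agent.Lib.MP_a17b09_nt.MRSG.Pow40

/-!
Project MRSG: one window, abstract form (helper40): duality with a majorant against the powers of a
unimodular function.
-/

set_option autoImplicit false

open Finset

namespace Pool.Agent.Lib.MP_a17b09_nt.MRSG

/-- `ν` majorant of `R ⊆ S` of mass `G0`, the sums of `ν y^m` are at most `G1`, `R` is not much
smaller than `G0`: then `y` is not close to `1` on most of `R` -/
theorem winabs_40 {ι : Type} (S R : Finset ι) (hR : R ⊆ S) (ν : ι → ℝ) (hν : ∀ v ∈ S, 0 ≤ ν v)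
    (hν1 : ∀ v ∈ R, 1 ≤ ν v) (y : ι → ℂ) (hy : ∀ v ∈ S, ‖y v‖ = 1) (K0 : ℕ) (hK0 : 0 < K0)
    (G0 G1 : ℝ) (hG1' : 0 ≤ G1) (hG0 : ∑ v ∈ S, ν v ≤ G0)
    (hG1 : ∀ m : ℕ, 1 ≤ m → m < K0 → ‖∑ v ∈ S, (ν v : ℂ) * y v ^ m‖ ≤ G1)
    (hbig : 4 * (G0 + K0 * G1) ≤ K0 * R.card) :
    (R.card : ℝ) / (4 * (K0 : ℝ) ^ 2) ≤ ∑ v ∈ R, ‖1 - y v‖ ^ 2 := by
  have hS0 : 0 ≤ ∑ v ∈ S, ν v := Finset.sum_nonneg hν
  have hG00 : 0 ≤ G0 := hS0.trans hG0
  have hK : (0 : ℝ) < K0 := by exact_mod_cast hK0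
  have hrow : ∀ k ∈ Finset.Icc 1 K0, ∑ l ∈ Finset.Icc 1 K0,
      ‖∑ v ∈ S, (ν v : ℂ) * (y v ^ k * (starRingEnd ℂ) (y v ^ l))‖ ≤ G0 + K0 * G1 := by
    intro k hk
    rw [Finset.mem_Icc] at hk
    have h1 : ∀ l ∈ Finset.Icc 1 K0,
        ‖∑ v ∈ S, (ν v : ℂ) * (y v ^ k * (starRingEnd ℂ) (y v ^ l))‖ ≤
          (if l = k then G0 else 0) + G1 := by
      intro l hl
      rw [Finset.mem_Icc] at hl
      have hyy : ∀ v ∈ S, y v * (starRingEnd ℂ) (y v) = 1 := by
        intro v hv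
        rw [Complex.mul_conj, Complex.normSq_eq_norm_sq, hy v hv]
        norm_num
      rcases lt_trichotomy l k with hlk | hlk | hlk
      · rw [if_neg (by omega), zero_add]
        have h2 : ∑ v ∈ S, (ν v : ℂ) * (y v ^ k * (starRingEnd ℂ) (y v ^ l)) =
            ∑ v ∈ S, (ν v : ℂ) * y v ^ (k - l) := by
          refine Finset.sum_congr rfl fun v hv => ?_
          have h3 : y v ^ k = y v ^ (k - l) * y v ^ l := by
            rw [← pow_add]
            congr 1
            omega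
          rw [h3, map_pow, mul_assoc (y v ^ (k - l)), ← mul_pow, hyy v hv, one_pow, mul_one]
        rw [h2]
        exact hG1 (k - l) (by omega) (by omega)
      · rw [if_pos hlk]
        have h2 : ∑ v ∈ S, (ν v : ℂ) * (y v ^ k * (starRingEnd ℂ) (y v ^ l)) =
            ((∑ v ∈ S, ν v : ℝ) : ℂ) := by
          push_cast
          refine Finset.sum_congr rfl fun v hv => ?_
          rw [hlk, map_pow, ← mul_pow, hyy v hv, one_pow, mul_one]
        rw [h2, Complex.norm_real, Real.norm_of_nonneg hS0]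
        linarith
      · rw [if_neg (by omega), zero_add]
        have h2 : ∑ v ∈ S, (ν v : ℂ) * (y v ^ k * (starRingEnd ℂ) (y v ^ l)) =
            (starRingEnd ℂ) (∑ v ∈ S, (ν v : ℂ) * y v ^ (l - k)) := by
          rw [map_sum]
          refine Finset.sum_congr rfl fun v hv => ?_
          have h3 : y v ^ l = y v ^ (l - k) * y v ^ k := by
            rw [← pow_add]
            congr 1
            omega
          rw [h3, map_mul, map_mul, Complex.conj_ofReal, map_pow, map_pow]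
          calc (ν v : ℂ) * (y v ^ k * ((starRingEnd ℂ) (y v) ^ (l - k) *
                (starRingEnd ℂ) (y v) ^ k)) = (ν v : ℂ) * ((starRingEnd ℂ) (y v) ^ (l - k) *
                (y v * (starRingEnd ℂ) (y v)) ^ k) := by rw [mul_pow]; ring
            _ = _ := by rw [hyy v hv, one_pow, mul_one]
        rw [h2, Complex.norm_conj]
        exact hG1 (l - k) (by omega) (by omega)
    refine (Finset.sum_le_sum h1).trans ?_
    rw [Finset.sum_add_distrib, Finset.sum_ite_eq' (Finset.Icc 1 K0) k, if_pos (Finset.mem_Icc.2 hk),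
      Finset.sum_const, nsmul_eq_mul, Nat.card_Icc, Nat.add_sub_cancel]
  have h2 := MRS.hm_maj96 S R hR (Finset.Icc 1 K0) ν hν hν1 (fun k v => y v ^ k) (fun _ => 1)
    (G0 + K0 * G1) (by positivity) hrow
  refine Pow40.pow_sum R y (fun v hv => (hy v (hR hv)).le) K0 hK0 ?_
  simp only [one_mul, norm_one, one_pow, Finset.sum_const, nsmul_eq_mul, mul_one] at h2
  refine h2.trans ?_
  have hc : (0 : ℝ) ≤ R.card := Nat.cast_nonneg _
  nlinarith [mul_le_mul_of_nonneg_left hbig hc]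

end Pool.Agent.Lib.MP_a17b09_nt.MRSG
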