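import Mathlib

/-!
Project MRSG: divisor sums for one window (helper40).
-/

set_option autoImplicit false

open Finset

namespace Pool.Agent.Lib.MP_a17b09_nt.MRSG

namespace WinS40

/-- `2 ^ ω(n) ≤ τ(n)` -/
theorem two_pow_le (n : ℕ) (hn : n ≠ 0) : 2 ^ n.primeFactors.card ≤ n.divisors.card := by
  rw [← Finset.card_powerset]
  refine Finset.card_le_card_of_injOn (fun D => ∏ q ∈ D, q) ?_ ?_
  · intro D hD
    rw [Finset.mem_coe, Finset.mem_powerset] at hD
    rw [Finset.mem_coe, Nat.mem_divisors]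
    refine ⟨?_, hn⟩
    exact (Finset.prod_dvd_prod_of_subset _ _ _ hD).trans (Nat.prod_primeFactors_dvd n)
  · intro D hD D' hD' h
    rw [Finset.mem_coe, Finset.mem_powerset] at hD hD'
    have e1 : (∏ q ∈ D, q).primeFactors = D :=
      Nat.primeFactors_prod fun q hq => Nat.prime_of_mem_primeFactors (hD hq)
    have e2 : (∏ q ∈ D', q).primeFactors = D' :=
      Nat.primeFactors_prod fun q hq => Nat.prime_of_mem_primeFactors (hD' hq)
    have h' : ∏ q ∈ D, q = ∏ q ∈ D', q := h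
    rw [← e1, ← e2, h']

theorem two_pow_le_self (n : ℕ) (hn : n ≠ 0) : 2 ^ n.primeFactors.card ≤ n :=
  (two_pow_le n hn).trans (Nat.card_divisors_le_self n)

/-- `∑_{n ≤ D} 2^ω(n)/n ≤ (1 + log D)²` -/
theorem sum_two_pow (D : ℕ) (hD : 1 ≤ D) :
    ∑ n ∈ Finset.Icc 1 D, (2 : ℝ) ^ n.primeFactors.card / n ≤ (1 + Real.log D) ^ 2 := by
  have h1 : ∀ n ∈ Finset.Icc 1 D, (2 : ℝ) ^ n.primeFactors.card / n ≤
      ∑ d ∈ Finset.Icc 1 D, ∑ e ∈ Finset.Icc 1 D, if d * e = n then 1 / ((d : ℝ) * e) else 0 := by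
    intro n hn
    rw [Finset.mem_Icc] at hn
    have hn0 : n ≠ 0 := by omega
    have hn' : (0 : ℝ) < n := by exact_mod_cast hn.1
    have h2 : (2 : ℝ) ^ n.primeFactors.card / n ≤ (n.divisors.card : ℝ) / n := by
      refine div_le_div_of_nonneg_right ?_ hn'.le
      exact_mod_cast two_pow_le n hn0
    refine h2.trans ?_
    have h3 : (n.divisors.card : ℝ) / n = ∑ d ∈ n.divisors, 1 / (n : ℝ) := by
      rw [Finset.sum_const, nsmul_eq_mul]
      ring
    rw [h3]
    have hsub : n.divisors ⊆ Finset.Icc 1 D := by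
      intro d hd
      rw [Finset.mem_Icc]
      exact ⟨Nat.pos_of_mem_divisors hd, (Nat.divisor_le hd).trans hn.2⟩
    refine le_trans ?_ (Finset.sum_le_sum_of_subset_of_nonneg hsub fun d _ _ =>
      Finset.sum_nonneg fun e _ => by split_ifs <;> positivity)
    refine Finset.sum_le_sum fun d hd => ?_
    have hdn := Nat.dvd_of_mem_divisors hd
    have hmem : n / d ∈ Finset.Icc 1 D := by
      rw [Finset.mem_Icc]
      exact ⟨Nat.div_pos (Nat.divisor_le hd) (Nat.pos_of_mem_divisors hd),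
        (Nat.div_le_self n d).trans hn.2⟩
    refine le_trans ?_ (Finset.single_le_sum (f := fun e : ℕ =>
      if d * e = n then 1 / ((d : ℝ) * e) else 0) (fun e _ => by
        split_ifs <;> positivity) hmem)
    have h4 : d * (n / d) = n := Nat.mul_div_cancel' hdn
    simp only [h4, if_true]
    have h5 : (d : ℝ) * ((n / d : ℕ) : ℝ) = n := by exact_mod_cast h4
    rw [h5]
  have h6 : ∑ n ∈ Finset.Icc 1 D, ∑ d ∈ Finset.Icc 1 D, ∑ e ∈ Finset.Icc 1 D,
      (if d * e = n then 1 / ((d : ℝ) * e) else 0) ≤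
      (∑ d ∈ Finset.Icc 1 D, 1 / (d : ℝ)) * ∑ e ∈ Finset.Icc 1 D, 1 / (e : ℝ) := by
    rw [Finset.sum_comm, Finset.sum_mul_sum]
    refine Finset.sum_le_sum fun d _ => ?_
    rw [Finset.sum_comm]
    refine Finset.sum_le_sum fun e _ => ?_
    rw [Finset.sum_ite_eq (Finset.Icc 1 D) (d * e) (fun _ => 1 / ((d : ℝ) * e))]
    split_ifs
    · rw [one_div_mul_one_div]
    · positivity
  have h7 : ∑ d ∈ Finset.Icc 1 D, 1 / (d : ℝ) ≤ 1 + Real.log D := by
    have h8 := harmonic_le_one_add_log D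
    rw [harmonic_eq_sum_Icc] at h8
    push_cast at h8
    refine le_trans (le_of_eq ?_) h8
    refine Finset.sum_congr rfl fun d _ => ?_
    rw [one_div]
  have h9 : 0 ≤ ∑ d ∈ Finset.Icc 1 D, 1 / (d : ℝ) := Finset.sum_nonneg fun d _ => by positivity
  refine (Finset.sum_le_sum h1).trans (h6.trans ?_)
  rw [sq]
  exact mul_le_mul h7 h7 h9 (h9.trans h7)

/-- the sum of the error terms for the characters -/
theorem sum_err (Y c : ℝ) (hY : 0 < Y) (hc : 0 ≤ c) (D : ℕ) (hD : 1 ≤ D) :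
    ∑ n ∈ Finset.Icc 1 D, (2 : ℝ) ^ n.primeFactors.card * n * (Y / (n : ℝ) ^ 2) ^ (1 - c) ≤
      Y ^ (1 - c) * (D : ℝ) ^ (2 * c) * (1 + Real.log D) ^ 2 := by
  have hD' : (0 : ℝ) < D := by exact_mod_cast hD
  have h1 : ∀ n ∈ Finset.Icc 1 D, (2 : ℝ) ^ n.primeFactors.card * n *
      (Y / (n : ℝ) ^ 2) ^ (1 - c) ≤ Y ^ (1 - c) * (D : ℝ) ^ (2 * c) *
        ((2 : ℝ) ^ n.primeFactors.card / n) := by
    intro n hn
    rw [Finset.mem_Icc] at hn
    have hn' : (0 : ℝ) < n := by exact_mod_cast hn.1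
    have h2 : (Y / (n : ℝ) ^ 2) ^ (1 - c) = Y ^ (1 - c) * ((n : ℝ) ^ (2 * c) / (n : ℝ) ^ 2) := by
      rw [Real.div_rpow hY.le (by positivity), ← Real.rpow_natCast (n : ℝ) 2, ← Real.rpow_mul hn'.le,
        div_eq_mul_inv, ← Real.rpow_neg hn'.le, ← Real.rpow_sub hn']
      congr 2
      push_cast
      ring
    have h3 : (n : ℝ) ^ (2 * c) ≤ (D : ℝ) ^ (2 * c) :=
      Real.rpow_le_rpow hn'.le (by exact_mod_cast hn.2) (by positivity)
    rw [h2]
    have h4 : (2 : ℝ) ^ n.primeFactors.card * n * (Y ^ (1 - c) * ((n : ℝ) ^ (2 * c) / (n : ℝ) ^ 2)) =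
        Y ^ (1 - c) * (n : ℝ) ^ (2 * c) * ((2 : ℝ) ^ n.primeFactors.card / n) := by
      field_simp
    rw [h4]
    gcongr
  refine (Finset.sum_le_sum h1).trans ?_
  rw [← Finset.mul_sum]
  exact mul_le_mul_of_nonneg_left (sum_two_pow D hD) (by positivity)

/-- the sum of the error terms for a box of side `L` -/
theorem sum_box (L : ℝ) (hL : 1 ≤ L) (D : ℕ) (hD : 1 ≤ D) :
    ∑ n ∈ Finset.Icc 1 D, (2 : ℝ) ^ n.primeFactors.card * n * (2 * L / n + 1) ≤
      3 * L * (D : ℝ) ^ 3 := by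
  have hD' : (1 : ℝ) ≤ D := by exact_mod_cast hD
  have h1 : ∀ n ∈ Finset.Icc 1 D, (2 : ℝ) ^ n.primeFactors.card * n * (2 * L / n + 1) ≤
      3 * L * (D : ℝ) ^ 2 := by
    intro n hn
    rw [Finset.mem_Icc] at hn
    have hn1 : (1 : ℝ) ≤ n := by exact_mod_cast hn.1
    have hnD : (n : ℝ) ≤ D := by exact_mod_cast hn.2
    have h2 : (2 : ℝ) ^ n.primeFactors.card ≤ n := by
      exact_mod_cast two_pow_le_self n (by omega)
    calc (2 : ℝ) ^ n.primeFactors.card * n * (2 * L / n + 1) ≤ n * n * (2 * L / n + 1) := by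
          gcongr
      _ = 2 * L * n + n * n := by field_simp
      _ ≤ 2 * L * (D * D) + L * (D * D) := by
          have e1 : (n : ℝ) ≤ D * D := by nlinarith
          have e2 : (n : ℝ) * n ≤ D * D := mul_le_mul hnD hnD (by positivity) (by positivity)
          have e3 : (n : ℝ) * n ≤ L * (D * D) := by nlinarith
          have e4 : 2 * L * n ≤ 2 * L * (D * D) := mul_le_mul_of_nonneg_left e1 (by positivity)
          linarith
      _ = _ := by ring
  refine (Finset.sum_le_sum h1).trans ?_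
  rw [Finset.sum_const, nsmul_eq_mul, Nat.card_Icc, Nat.add_sub_cancel]
  refine le_of_eq ?_
  ring

end WinS40

end Pool.Agent.Lib.MP_a17b09_nt.MRSG
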