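import Pool.Agent.Lib.MP_a17b09_nt.CH.Defs
import Pool.Agent.Lib.MP_a17b09_nt.MRSG.WinAbs40
import Pool.Agent.Lib.MP_a17b09_nt.MRSG.WinS40

/-!
Project MRSG: one window of primes represented by a form (helper40), from the sieve majorant in
residue classes and exponential sums in residue classes.
-/

set_option autoImplicit false

open Finset Filter Topology

namespace Pool.Agent.Lib.MP_a17b09_nt.MRSG

open CH

/-- congruence of vectors -/
abbrev Cgr (n : ℕ) (a w : V) : Prop := (n : ℤ) ∣ w.1 - a.1 ∧ (n : ℤ) ∣ w.2 - a.2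

/-- the sieve majorant for the values `Qv w`, in residue classes -/
def NuG (Qv : V → ℤ) : Prop := ∀ z00 : ℕ, ∃ C : ℝ, 0 < C ∧ ∃ z0 : ℕ, z00 ≤ z0 ∧
  ∃ Y0 : ℝ, ∀ Y : ℝ, Y0 ≤ Y → ∃ ν : V → ℝ, (∀ w, 0 ≤ ν w) ∧
    (∀ w, (∀ q : ℕ, q.Prime → z0 < q → (q : ℝ) ≤ Y ^ (1 / 16 : ℝ) → ¬ (q : ℤ) ∣ Qv w) → 1 ≤ ν w) ∧
    ∀ (S : Finset V) (F : V → ℂ) (M : ℂ) (E : ℕ → ℝ), (∀ n, 0 ≤ E n) →
      (∀ n : ℕ, 1 ≤ n → (n : ℝ) ≤ Y ^ (1 / 16 : ℝ) → ∀ a : V,
        ‖∑ w ∈ S.filter (fun w => Cgr n a w), F w - M / (n : ℂ) ^ 2‖ ≤ E n) →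
      ‖∑ w ∈ S, (ν w : ℂ) * F w‖ ≤ C * ‖M‖ / Real.log Y +
        ∑ n ∈ Finset.Icc 1 ⌊Y ^ (1 / 16 : ℝ)⌋₊, (2 : ℝ) ^ n.primeFactors.card * n * E n

namespace Win40

/-- eventual domination by the exponential -/
theorem ev (A b : ℝ) (hb : 0 < b) : ∀ᶠ u : ℕ in atTop, A * (1 + (u : ℝ)) ^ 3 ≤ Real.exp (b * u) := by
  have h1 := isLittleO_pow_exp_pos_mul_atTop 3 hb
  have h2 := (h1.comp_tendsto tendsto_natCast_atTop_atTop).def
    (show 0 < 1 / (8 * (|A| + 1)) by positivity)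
  filter_upwards [h2, eventually_ge_atTop 1] with u hu hu1
  simp only [Function.comp, Real.norm_eq_abs, Real.abs_exp] at hu
  have hu1' : (1 : ℝ) ≤ u := by exact_mod_cast hu1
  rw [abs_of_nonneg (by positivity)] at hu
  have h3 : (1 + (u : ℝ)) ^ 3 ≤ 8 * (u : ℝ) ^ 3 := by
    have : (1 + (u : ℝ)) ^ 3 ≤ (2 * (u : ℝ)) ^ 3 := pow_le_pow_left₀ (by positivity) (by linarith) 3
    linarith [this, show (2 * (u : ℝ)) ^ 3 = 8 * (u : ℝ) ^ 3 by ring]
  calc A * (1 + (u : ℝ)) ^ 3 ≤ (|A| + 1) * (1 + (u : ℝ)) ^ 3 :=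
        mul_le_mul_of_nonneg_right (by linarith [le_abs_self A]) (by positivity)
    _ ≤ (|A| + 1) * (8 * (u : ℝ) ^ 3) := mul_le_mul_of_nonneg_left h3 (by positivity)
    _ = (8 * (|A| + 1)) * (u : ℝ) ^ 3 := by ring
    _ ≤ (8 * (|A| + 1)) * (1 / (8 * (|A| + 1)) * Real.exp (b * u)) :=
        mul_le_mul_of_nonneg_left hu (by positivity)
    _ = Real.exp (b * u) := by field_simp

/-- one residue class in a symmetric interval -/
theorem card_one (X : ℕ) (n : ℕ) (hn : 1 ≤ n) (a : ℤ) :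
    |((((Finset.Icc (-(X : ℤ)) X).filter (fun x => (n : ℤ) ∣ x - a)).card : ℕ) : ℝ) -
      (2 * X + 1) / n| ≤ 1 := by
  have hn' : (0 : ℤ) < n := by exact_mod_cast hn
  have h1 : (Finset.Icc (-(X : ℤ)) X).filter (fun x => (n : ℤ) ∣ x - a) =
      (Finset.Ioc (-(X : ℤ) - 1) X).filter (fun x => x ≡ a [ZMOD n]) := by
    ext x
    rw [Finset.mem_filter, Finset.mem_filter, Finset.mem_Icc, Finset.mem_Ioc]
    constructor
    · rintro ⟨⟨h1, h2⟩, h3⟩
      exact ⟨⟨by omega, h2⟩, (Int.modEq_iff_dvd.2 (by rw [← dvd_neg, neg_sub]; exact h3))⟩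
    · rintro ⟨⟨h1, h2⟩, h3⟩
      refine ⟨⟨by omega, h2⟩, ?_⟩
      have := Int.modEq_iff_dvd.1 h3
      rw [← dvd_neg, neg_sub]
      exact this
  rw [h1]
  have h2 := Int.Ioc_filter_modEq_card (-(X : ℤ) - 1) (X : ℤ) hn' a
  have h3 : (⌊((X : ℤ) - a : ℚ) / (n : ℤ)⌋ - ⌊((((-(X : ℤ) - 1 : ℤ)) : ℚ) - a) / (n : ℤ)⌋) ≥ 0 := by
    have : ⌊((((-(X : ℤ) - 1 : ℤ)) : ℚ) - a) / (n : ℤ)⌋ ≤ ⌊((X : ℤ) - a : ℚ) / (n : ℤ)⌋ := by
      refine Int.floor_le_floor ?_
      have hq : (0 : ℚ) < ((n : ℤ) : ℚ) := by exact_mod_cast hn'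
      refine div_le_div_of_nonneg_right ?_ hq.le
      push_cast
      have : (0 : ℚ) ≤ X := by positivity
      linarith
    omega
  rw [max_eq_left h3] at h2
  set A := ⌊((X : ℤ) - a : ℚ) / (n : ℤ)⌋ with hA
  set B := ⌊((((-(X : ℤ) - 1 : ℤ)) : ℚ) - a) / (n : ℤ)⌋ with hB
  have hA1 := Int.floor_le (((X : ℤ) - a : ℚ) / (n : ℤ))
  have hA2 := Int.lt_floor_add_one (((X : ℤ) - a : ℚ) / (n : ℤ))
  have hB1 := Int.floor_le (((((-(X : ℤ) - 1 : ℤ)) : ℚ) - a) / (n : ℤ))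
  have hB2 := Int.lt_floor_add_one (((((-(X : ℤ) - 1 : ℤ)) : ℚ) - a) / (n : ℤ))
  rw [← hA] at hA1 hA2
  rw [← hB] at hB1 hB2
  set m := ((Finset.Ioc (-(X : ℤ) - 1) (X : ℤ)).filter (fun x => x ≡ a [ZMOD n])).card with hm
  have h4 : ((X : ℤ) - a : ℚ) / (n : ℤ) - ((((-(X : ℤ) - 1 : ℤ)) : ℚ) - a) / (n : ℤ) =
      (2 * X + 1) / n := by
    push_cast
    rw [← sub_div]
    congr 1
    ring
  have h5 : |(m : ℚ) - (2 * X + 1) / n| ≤ 1 := by
    have h6 : (m : ℚ) = (A : ℚ) - B := by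
      have : ((m : ℤ) : ℚ) = ((A - B : ℤ) : ℚ) := by rw [h2]
      push_cast at this
      exact this
    rw [h6, ← h4, abs_le]
    constructor <;> linarith
  have h7 : (((|(m : ℚ) - (2 * X + 1) / n| : ℚ)) : ℝ) ≤ ((1 : ℚ) : ℝ) := by exact_mod_cast h5
  push_cast at h7
  exact h7

/-- a residue class in a box -/
theorem card_two (X : ℕ) (n : ℕ) (hn : 1 ≤ n) (a : V) :
    ‖∑ _w ∈ (Finset.Icc (-(X : ℤ)) X ×ˢ Finset.Icc (-(X : ℤ)) X).filter (fun w => Cgr n a w),
      (1 : ℂ) - (((2 * X + 1 : ℝ) ^ 2 : ℝ) : ℂ) / (n : ℂ) ^ 2‖ ≤ 2 * (2 * X + 1) / n + 1 := by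
  have hn' : (0 : ℝ) < n := by exact_mod_cast hn
  have h1 : (Finset.Icc (-(X : ℤ)) X ×ˢ Finset.Icc (-(X : ℤ)) X).filter (fun w => Cgr n a w) =
      (Finset.Icc (-(X : ℤ)) X).filter (fun x => (n : ℤ) ∣ x - a.1) ×ˢ
        (Finset.Icc (-(X : ℤ)) X).filter (fun x => (n : ℤ) ∣ x - a.2) := by
    ext w
    simp only [Finset.mem_filter, Finset.mem_product, Cgr]
    tauto
  rw [h1, Finset.sum_const, nsmul_eq_mul, mul_one, Finset.card_product]
  set m1 := ((Finset.Icc (-(X : ℤ)) X).filter (fun x => (n : ℤ) ∣ x - a.1)).card with hm1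
  set m2 := ((Finset.Icc (-(X : ℤ)) X).filter (fun x => (n : ℤ) ∣ x - a.2)).card with hm2
  have c1 := card_one X n hn a.1
  have c2 := card_one X n hn a.2
  rw [← hm1] at c1
  rw [← hm2] at c2
  set L : ℝ := 2 * X + 1 with hL
  have hL0 : 0 < L := by positivity
  have h2 : (((m1 * m2 : ℕ)) : ℂ) - ((L ^ 2 : ℝ) : ℂ) / (n : ℂ) ^ 2 =
      (((m1 : ℝ) * m2 - L / n * (L / n) : ℝ) : ℂ) := by
    push_cast
    field_simp
  rw [h2, Complex.norm_real, Real.norm_eq_abs]
  have h3 : (m1 : ℝ) * m2 - L / n * (L / n) = ((m1 : ℝ) - L / n) * m2 + L / n * (m2 - L / n) := by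
    ring
  have hm20 : (0 : ℝ) ≤ m2 := Nat.cast_nonneg _
  have h4 : (m2 : ℝ) ≤ L / n + 1 := by
    have := (abs_le.1 c2).2
    linarith
  have hLn : 0 ≤ L / n := by positivity
  calc |(m1 : ℝ) * m2 - L / n * (L / n)| ≤ |((m1 : ℝ) - L / n) * m2| + |L / n * (m2 - L / n)| := by
        rw [h3]; exact abs_add_le _ _
    _ = |(m1 : ℝ) - L / n| * m2 + L / n * |m2 - L / n| := by
        rw [abs_mul, abs_mul, abs_of_nonneg hm20, abs_of_nonneg hLn]
    _ ≤ 1 * (L / n + 1) + L / n * 1 := by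
        refine add_le_add (mul_le_mul c1 h4 hm20 zero_le_one) (mul_le_mul_of_nonneg_left c2 hLn)
    _ = _ := by ring

/-- splitting a class modulo `n` into classes modulo `n K` -/
theorem class_split (S : Finset V) (F : V → ℂ) (n K : ℕ) (hn : 1 ≤ n) (hK : 1 ≤ K) (a : V) :
    ∑ w ∈ S.filter (fun w => Cgr n a w), F w =
      ∑ t ∈ Finset.range K ×ˢ Finset.range K,
        ∑ w ∈ S.filter (fun w => Cgr (n * K) (a.1 + n * (t.1 : ℤ), a.2 + n * (t.2 : ℤ)) w), F w := by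
  classical
  have hn' : (0 : ℤ) < n := by exact_mod_cast hn
  have hK' : (0 : ℤ) < K := by exact_mod_cast hK
  set g : V → ℕ × ℕ := fun w => ((((w.1 - a.1) / n) % K).toNat, (((w.2 - a.2) / n) % K).toNat) with hg
  rw [← Finset.sum_fiberwise_of_maps_to (s := S.filter (fun w => Cgr n a w))
    (t := Finset.range K ×ˢ Finset.range K) (g := g) (f := F)]
  · refine Finset.sum_congr rfl fun t ht => ?_
    refine Finset.sum_congr ?_ fun _ _ => rfl
    rw [Finset.mem_product, Finset.mem_range, Finset.mem_range] at ht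
    have key : ∀ (x b : ℤ) (s : ℕ), s < K → ((n : ℤ) ∣ x - b ∧ (((x - b) / n) % K).toNat = s ↔
        (((n * K : ℕ) : ℤ)) ∣ x - (b + n * (s : ℤ))) := by
      intro x b s hs
      constructor
      · rintro ⟨⟨k, hk⟩, h2⟩
        rw [hk, Int.mul_ediv_cancel_left _ hn'.ne'] at h2
        have h3 : k % K = s := by
          have h4 : 0 ≤ k % K := Int.emod_nonneg _ hK'.ne'
          omega
        have h5 : (K : ℤ) ∣ k - s := by
          rw [← h3]
          exact Int.dvd_self_sub_emod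
        obtain ⟨l, hl⟩ := h5
        refine ⟨l, ?_⟩
        push_cast
        have : x - (b + n * (s : ℤ)) = n * (k - s) := by linear_combination hk
        rw [this, hl]
        ring
      · rintro ⟨l, hl⟩
        push_cast at hl
        have h1 : x - b = n * (K * l + s) := by linear_combination hl
        refine ⟨⟨_, h1⟩, ?_⟩
        rw [h1, Int.mul_ediv_cancel_left _ hn'.ne', add_comm, Int.add_mul_emod_self_left,
          Int.emod_eq_of_lt (by positivity) (by exact_mod_cast hs)]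
        simp
    ext w
    rw [Finset.mem_filter, Finset.mem_filter, Finset.mem_filter]
    have k1 := key w.1 a.1 t.1 ht.1
    have k2 := key w.2 a.2 t.2 ht.2
    simp only [Cgr, hg, Prod.ext_iff]
    tauto
  · intro w _
    rw [Finset.mem_product, Finset.mem_range, Finset.mem_range]
    have h1 := Int.emod_lt_of_pos ((w.1 - a.1) / n) hK'
    have h2 := Int.emod_lt_of_pos ((w.2 - a.2) / n) hK'
    have h3 := Int.emod_nonneg ((w.1 - a.1) / n) hK'.ne'
    have h4 := Int.emod_nonneg ((w.2 - a.2) / n) hK'.ne'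
    constructor <;> simp only [hg] <;> omega

end Win40

open Win40 in
/-- **One window, abstract form.** `Su u` are finite sets of vectors in boxes of side `B e^(u/2)`, with
directions `ud` whose powers have small sums in residue classes. Vectors `w` of `R ⊆ Su u` with
`|Qv w| = p a'`, `p > e^u` prime: if they are at least `δ e^u / u`, then `f(w) ud(w)^h` is not close to
`1` for most of them, `f` any unimodular function modulo `K`. -/
theorem win1_abs (Qv : V → ℤ) (hN : NuG Qv) (B : ℝ) (hB : 1 ≤ B) (Su : ℕ → Finset V)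
    (hbox : ∀ u, ∀ w ∈ Su u, |(w.1 : ℝ)| ≤ B * Real.exp (u / 2) ∧ |(w.2 : ℝ)| ≤ B * Real.exp (u / 2))
    (ud : V → ℂ) (hud : ∀ u, ∀ w ∈ Su u, ‖ud w‖ = 1)
    (hV : ∀ κ : ℝ, 0 < κ → ∃ c : ℝ, 0 < c ∧ ∃ C : ℝ, 0 < C ∧ ∀ T : ℝ, 1 ≤ T → ∀ h : ℤ, h ≠ 0 →
      |(h : ℝ)| ≤ T → ∀ (q : ℕ) (a : V), 0 < q → ∀ u : ℕ, (q : ℝ) ^ 2 * T ^ κ ≤ Real.exp u →
      ‖∑ w ∈ (Su u).filter (fun w => Cgr q a w), ud w ^ h‖ ≤ C * (Real.exp u / q ^ 2) ^ (1 - c))
    (K a' : ℕ) (hK : 0 < K) (ha' : 0 < a') (δ : ℝ) (hδ : 0 < δ) :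
    ∃ K0 : ℕ, 0 < K0 ∧ ∀ κ : ℝ, 0 < κ → ∃ U0 : ℕ, ∀ u : ℕ, U0 ≤ u → ∀ h : ℤ, h ≠ 0 →
      |(h : ℝ)| ≤ Real.exp (u / κ) → ∀ f : V → ℂ, (∀ w, ‖f w‖ = 1) →
      (∀ w w', Cgr K w w' → f w' = f w) → ∀ R : Finset V, R ⊆ Su u →
      (∀ w ∈ R, ∃ p : ℕ, p.Prime ∧ Real.exp u < p ∧ (Qv w).natAbs = p * a') →
      δ * Real.exp u / u ≤ R.card →
      (R.card : ℝ) / (4 * (K0 : ℝ) ^ 2) ≤ ∑ w ∈ R, ‖1 - f w * ud w ^ h‖ ^ 2 := by
  classical
  obtain ⟨C, hC, z0, hz0, Y0, hNu⟩ := hN a'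
  set C0 : ℝ := 9 * B ^ 2 * C + 1 with hC0
  have hC00 : 0 < C0 := by positivity
  set K0 : ℕ := ⌈8 * C0 / δ⌉₊ + 1 with hK0
  have hK0p : 0 < K0 := Nat.succ_pos _
  have hK0' : (0 : ℝ) < K0 := by exact_mod_cast hK0p
  have hK0b : 8 * C0 ≤ K0 * δ := by
    have h1 := Nat.le_ceil (8 * C0 / δ)
    have h2 : 8 * C0 / δ ≤ K0 := by
      rw [hK0]
      push_cast
      linarith
    rwa [div_le_iff₀ hδ] at h2
  have hKr : (1 : ℝ) ≤ K := by exact_mod_cast hK
  refine ⟨K0, hK0p, fun κ hκ => ?_⟩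
  obtain ⟨c1, hc1, C1, hC1, hV⟩ := hV (κ / 4) (by positivity)
  -- one may decrease `c`
  set c : ℝ := min c1 1 with hc
  have hc0 : 0 < c := lt_min hc1 one_pos
  have hcc1 : c ≤ c1 := min_le_left _ _
  have hc1' : c ≤ 1 := min_le_right _ _
  have e1 := ev (9 * B) (5 / 16) (by norm_num)
  have e2 := ev ((K : ℝ) ^ 2 * (K0 : ℝ) ^ (κ / 4)) (5 / 8) (by norm_num)
  have e3 := ev (8 * ((K : ℝ) ^ 2 * C1) / δ) (7 / 8 * c) (by positivity)
  have e4 : ∀ᶠ u : ℕ in atTop, Y0 ≤ Real.exp u :=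
    (Real.tendsto_exp_atTop.comp tendsto_natCast_atTop_atTop).eventually_ge_atTop Y0
  obtain ⟨U0, hU0⟩ := eventually_atTop.1 (e1.and (e2.and (e3.and (e4.and (eventually_ge_atTop 1)))))
  refine ⟨U0, fun u hu h hh hhT f hf hfper R hR hRp hRc => ?_⟩
  obtain ⟨e1, e2, e3, e4, hu1⟩ := hU0 u hu
  have hu1' : (1 : ℝ) ≤ u := by exact_mod_cast hu1
  have hu0 : (0 : ℝ) < u := by linarith
  set Y : ℝ := Real.exp u with hY
  have hY0 : 0 < Y := Real.exp_pos _
  have hY1 : 1 ≤ Y := Real.one_le_exp hu0.le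
  have hlogY : Real.log Y = u := by rw [hY, Real.log_exp]
  have hY16 : Y ^ (1 / 16 : ℝ) = Real.exp (u / 16) := by
    rw [hY, ← Real.exp_mul]
    congr 1
    ring
  have h3u : (u : ℝ) ≤ (1 + (u : ℝ)) ^ 3 :=
    (by linarith : (u : ℝ) ≤ 1 + u).trans (le_self_pow₀ (by linarith) (by norm_num))
  have h3u' : (1 : ℝ) ≤ (1 + (u : ℝ)) ^ 3 := one_le_pow₀ (by linarith)
  have h3u'' : (u : ℝ) * (1 + (u : ℝ)) ^ 2 ≤ (1 + (u : ℝ)) ^ 3 := by
    calc (u : ℝ) * (1 + (u : ℝ)) ^ 2 ≤ (1 + (u : ℝ)) * (1 + (u : ℝ)) ^ 2 :=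
          mul_le_mul_of_nonneg_right (by linarith) (by positivity)
      _ = _ := by ring
  obtain ⟨ν, hν0, hν1, htr⟩ := hNu Y e4
  set D : ℕ := ⌊Y ^ (1 / 16 : ℝ)⌋₊ with hD
  have hD1 : 1 ≤ D := by
    rw [hD, Nat.one_le_floor_iff]
    exact Real.one_le_rpow hY1 (by norm_num)
  have hD2 : (D : ℝ) ≤ Real.exp (u / 16) := by
    rw [← hY16]
    exact Nat.floor_le (by positivity)
  have hD0 : (0 : ℝ) < D := by exact_mod_cast hD1
  -- the function
  set y : V → ℂ := fun w => f w * ud w ^ h with hy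
  have hy1 : ∀ w ∈ Su u, ‖y w‖ = 1 := by
    intro w hw
    rw [hy]
    simp only
    rw [norm_mul, hf w, norm_zpow, hud u w hw, one_zpow, one_mul]
  -- the mass of the majorant
  set X : ℕ := ⌊B * Real.exp (u / 2)⌋₊ with hX
  have hX1 : (X : ℝ) ≤ B * Real.exp (u / 2) := Nat.floor_le (by positivity)
  have hXb : (1 : ℝ) ≤ B * Real.exp (u / 2) := by
    have : 1 ≤ Real.exp ((u : ℝ) / 2) := Real.one_le_exp (by positivity)
    exact one_le_mul_of_one_le_of_one_le hB this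
  set L : ℝ := 2 * X + 1 with hL
  have hL1 : 1 ≤ L := by
    have : (0 : ℝ) ≤ X := Nat.cast_nonneg _
    linarith
  have hL2 : L ≤ 3 * (B * Real.exp (u / 2)) := by linarith
  set Bx : Finset V := Finset.Icc (-(X : ℤ)) X ×ˢ Finset.Icc (-(X : ℤ)) X with hBx
  have hSB : Su u ⊆ Bx := by
    intro w hw
    obtain ⟨h1, h2⟩ := hbox u w hw
    have key : ∀ x : ℤ, |(x : ℝ)| ≤ B * Real.exp (u / 2) → x ∈ Finset.Icc (-(X : ℤ)) X := by
      intro x hx
      have h3 : x.natAbs ≤ X := by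
        rw [hX, Nat.le_floor_iff (by positivity)]
        rwa [Nat.cast_natAbs, Int.cast_abs]
      rw [Finset.mem_Icc]
      omega
    rw [hBx, Finset.mem_product]
    exact ⟨key _ h1, key _ h2⟩
  have hG0 : ∑ w ∈ Su u, ν w ≤ C0 * (Y / u) := by
    have h1 := htr Bx (fun _ => 1) ((L ^ 2 : ℝ) : ℂ) (fun n => 2 * L / n + 1)
      (fun n => by positivity) (fun n hn _ a => card_two X n hn a)
    have h2 : ∑ w ∈ Su u, ν w ≤ ∑ w ∈ Bx, ν w :=
      Finset.sum_le_sum_of_subset_of_nonneg hSB fun w _ _ => hν0 w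
    have h3 : ∑ w ∈ Bx, ν w = ‖∑ w ∈ Bx, (ν w : ℂ) * (fun _ => (1 : ℂ)) w‖ := by
      have : ∑ w ∈ Bx, (ν w : ℂ) * (fun _ => (1 : ℂ)) w = ((∑ w ∈ Bx, ν w : ℝ) : ℂ) := by
        push_cast
        simp
      rw [this, Complex.norm_real, Real.norm_of_nonneg (Finset.sum_nonneg fun w _ => hν0 w)]
    rw [← h3, hlogY] at h1
    refine h2.trans (h1.trans ?_)
    have h4 : ‖((L ^ 2 : ℝ) : ℂ)‖ = L ^ 2 := by
      rw [Complex.norm_real, Real.norm_of_nonneg (by positivity)]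
    rw [h4]
    have h5 : L ^ 2 ≤ 9 * B ^ 2 * Y := by
      calc L ^ 2 ≤ (3 * (B * Real.exp (u / 2))) ^ 2 := pow_le_pow_left₀ (by linarith) hL2 2
        _ = 9 * B ^ 2 * (Real.exp (u / 2) * Real.exp (u / 2)) := by ring
        _ = 9 * B ^ 2 * Y := by rw [← Real.exp_add, add_halves]
    have h6 := WinS40.sum_box L hL1 D hD1
    have h7 : 3 * L * (D : ℝ) ^ 3 ≤ Y / u := by
      have h8 : (D : ℝ) ^ 3 ≤ Real.exp (3 * u / 16) := by
        calc (D : ℝ) ^ 3 ≤ Real.exp (u / 16) ^ 3 := pow_le_pow_left₀ hD0.le hD2 3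
          _ = Real.exp (3 * u / 16) := by
            rw [← Real.exp_nat_mul]
            congr 1
            push_cast
            ring
      rw [le_div_iff₀ hu0]
      have h9 : 9 * B * (u : ℝ) ≤ Real.exp (5 / 16 * u) :=
        (mul_le_mul_of_nonneg_left h3u (by positivity)).trans e1
      calc 3 * L * (D : ℝ) ^ 3 * u ≤ 3 * (3 * (B * Real.exp (u / 2))) * Real.exp (3 * u / 16) * u := by
            gcongr
        _ = (9 * B * u) * (Real.exp (u / 2) * Real.exp (3 * u / 16)) := by ring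
        _ ≤ Real.exp (5 / 16 * u) * (Real.exp (u / 2) * Real.exp (3 * u / 16)) :=
            mul_le_mul_of_nonneg_right h9 (by positivity)
        _ = Y := by
            rw [← Real.exp_add, ← Real.exp_add, hY]
            congr 1
            ring
    calc C * L ^ 2 / u + ∑ n ∈ Finset.Icc 1 D, (2 : ℝ) ^ n.primeFactors.card * n * (2 * L / n + 1)
        ≤ C * (9 * B ^ 2 * Y) / u + Y / u := by
          refine add_le_add ?_ (h6.trans h7)
          gcongr
      _ = C0 * (Y / u) := by rw [hC0]; ring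
  -- the sums of the powers
  set G1 : ℝ := ((K : ℝ) ^ 2 * C1) * (Y ^ (1 - c) * (D : ℝ) ^ (2 * c) * (1 + Real.log D) ^ 2) with hG1
  have hG10 : 0 ≤ G1 := by positivity
  have hG1b : ∀ m : ℕ, 1 ≤ m → m < K0 → ‖∑ w ∈ Su u, (ν w : ℂ) * y w ^ m‖ ≤ G1 := by
    intro m hm1 hmK
    have hm0 : (0 : ℝ) ≤ m := Nat.cast_nonneg _
    have h1 := htr (Su u) (fun w => y w ^ m) 0
      (fun n => ((K : ℝ) ^ 2 * C1) * (Y / (n : ℝ) ^ 2) ^ (1 - c)) (fun n => by positivity) ?_
    · rw [norm_zero, mul_zero, zero_div, zero_add] at h1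
      refine h1.trans ?_
      have h2 := WinS40.sum_err Y c hY0 hc0.le D hD1
      calc _ = ((K : ℝ) ^ 2 * C1) * ∑ n ∈ Finset.Icc 1 D, (2 : ℝ) ^ n.primeFactors.card * n *
            (Y / (n : ℝ) ^ 2) ^ (1 - c) := by
            rw [Finset.mul_sum]
            exact Finset.sum_congr rfl fun n _ => by ring
        _ ≤ G1 := mul_le_mul_of_nonneg_left h2 (by positivity)
    · intro n hn hnY a
      rw [zero_div, sub_zero, class_split (Su u) _ n K hn hK a]
      have hn' : (1 : ℝ) ≤ n := by exact_mod_cast hn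
      have hterm : ∀ t ∈ Finset.range K ×ˢ Finset.range K,
          ‖∑ w ∈ (Su u).filter (fun w => Cgr (n * K) (a.1 + n * (t.1 : ℤ), a.2 + n * (t.2 : ℤ)) w),
            y w ^ m‖ ≤ C1 * (Y / (n : ℝ) ^ 2) ^ (1 - c) := by
        intro t _
        set b : V := (a.1 + n * (t.1 : ℤ), a.2 + n * (t.2 : ℤ)) with hb
        have h2 : ∀ w ∈ (Su u).filter (fun w => Cgr (n * K) b w), y w ^ m =
            f b ^ m * ud w ^ (h * m) := by
          intro w hw
          have h3 := (Finset.mem_filter.1 hw).2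
          have h4 : f w = f b := by
            refine hfper b w ?_
            have h5 : ((K : ℤ)) ∣ ((n * K : ℕ) : ℤ) := by
              push_cast
              exact Dvd.intro_left _ rfl
            exact ⟨h5.trans h3.1, h5.trans h3.2⟩
          rw [hy]
          simp only
          rw [h4, mul_pow, zpow_mul, zpow_natCast]
        rw [Finset.sum_congr rfl h2, ← Finset.mul_sum, norm_mul, norm_pow, hf b, one_pow, one_mul]
        have hT1 : (1 : ℝ) ≤ K0 * Real.exp (u / κ) := by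
          have h5 : 1 ≤ Real.exp ((u : ℝ) / κ) := Real.one_le_exp (by positivity)
          have h6 : (1 : ℝ) ≤ K0 := by exact_mod_cast hK0p
          exact one_le_mul_of_one_le_of_one_le h6 h5
        have h5 := hV (K0 * Real.exp (u / κ)) hT1 (h * m)
          (mul_ne_zero hh (by exact_mod_cast (show m ≠ 0 by omega))) (by
            push_cast
            rw [abs_mul, abs_of_nonneg hm0, mul_comm]
            exact mul_le_mul (by exact_mod_cast hmK.le) hhT (abs_nonneg _) hK0'.le)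
          (n * K) b (Nat.mul_pos hn hK) u (by
            have h6 : (K0 * Real.exp (u / κ)) ^ (κ / 4) = (K0 : ℝ) ^ (κ / 4) * Real.exp (u / 4) := by
              rw [Real.mul_rpow hK0'.le (Real.exp_pos _).le, ← Real.exp_mul]
              congr 2
              field_simp
            have h7 : (n : ℝ) ^ 2 ≤ Real.exp (u / 8) := by
              rw [hY16] at hnY
              calc (n : ℝ) ^ 2 ≤ Real.exp (u / 16) ^ 2 := pow_le_pow_left₀ (by positivity) hnY 2
                _ = Real.exp (u / 8) := by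
                  rw [← Real.exp_nat_mul]
                  congr 1
                  push_cast
                  ring
            have h8 : (K : ℝ) ^ 2 * (K0 : ℝ) ^ (κ / 4) ≤ Real.exp (5 / 8 * u) := by
              refine le_trans ?_ e2
              exact le_mul_of_one_le_right (by positivity) h3u'
            rw [h6]
            push_cast
            calc ((n : ℝ) * K) ^ 2 * ((K0 : ℝ) ^ (κ / 4) * Real.exp (u / 4)) =
                (n : ℝ) ^ 2 * ((K : ℝ) ^ 2 * (K0 : ℝ) ^ (κ / 4)) * Real.exp (u / 4) := by ring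
              _ ≤ Real.exp (u / 8) * Real.exp (5 / 8 * u) * Real.exp (u / 4) := by
                gcongr
              _ = Real.exp u := by
                rw [← Real.exp_add, ← Real.exp_add]
                congr 1
                ring)
        refine h5.trans ?_
        rw [← hY]
        refine mul_le_mul_of_nonneg_left ?_ hC1.le
        have hn2 : (n : ℝ) ^ 2 ≤ Y := by
          rw [hY16] at hnY
          calc (n : ℝ) ^ 2 ≤ Real.exp (u / 16) ^ 2 := pow_le_pow_left₀ (by positivity) hnY 2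
            _ = Real.exp (u / 8) := by
              rw [← Real.exp_nat_mul]
              congr 1
              push_cast
              ring
            _ ≤ Y := by
              rw [hY]
              exact Real.exp_le_exp.2 (by linarith)
        have hnK2 : ((n * K : ℕ) : ℝ) ^ 2 ≤ Y := by
          rw [hY16] at hnY
          have h8 : (K : ℝ) ^ 2 ≤ Real.exp (5 / 8 * u) := by
            have h9 : (1 : ℝ) ≤ (K0 : ℝ) ^ (κ / 4) :=
              Real.one_le_rpow (by exact_mod_cast hK0p) (by positivity)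
            refine le_trans ?_ e2
            calc (K : ℝ) ^ 2 = (K : ℝ) ^ 2 * 1 * 1 := by ring
              _ ≤ (K : ℝ) ^ 2 * (K0 : ℝ) ^ (κ / 4) * (1 + (u : ℝ)) ^ 3 := by gcongr
          push_cast
          calc ((n : ℝ) * K) ^ 2 = (n : ℝ) ^ 2 * (K : ℝ) ^ 2 := by ring
            _ ≤ Real.exp (u / 16) ^ 2 * Real.exp (5 / 8 * u) := by gcongr
            _ = Real.exp (3 / 4 * u) := by
              rw [← Real.exp_nat_mul, ← Real.exp_add]
              congr 1
              push_cast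
              ring
            _ ≤ Y := by
              rw [hY]
              exact Real.exp_le_exp.2 (by linarith)
        have hnK0 : (0 : ℝ) < ((n * K : ℕ) : ℝ) ^ 2 := by
          have : 0 < n * K := Nat.mul_pos hn hK
          positivity
        calc (Y / ((n * K : ℕ) : ℝ) ^ 2) ^ (1 - c1) ≤ (Y / ((n * K : ℕ) : ℝ) ^ 2) ^ (1 - c) := by
              refine Real.rpow_le_rpow_of_exponent_le ?_ (by linarith)
              rw [le_div_iff₀ hnK0, one_mul]
              exact hnK2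
          _ ≤ (Y / (n : ℝ) ^ 2) ^ (1 - c) := by
              refine Real.rpow_le_rpow (by positivity) ?_ (by linarith)
              refine div_le_div_of_nonneg_left hY0.le (by positivity) ?_
              push_cast
              exact pow_le_pow_left₀ (by positivity)
                (le_mul_of_one_le_right (by positivity) hKr) 2
      refine (norm_sum_le _ _).trans ((Finset.sum_le_sum hterm).trans (le_of_eq ?_))
      rw [Finset.sum_const, Finset.card_product, Finset.card_range, nsmul_eq_mul]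
      push_cast
      ring
  have hG1s : 8 * G1 * u ≤ δ * Y := by
    have h1 : (D : ℝ) ^ (2 * c) ≤ Real.exp (c * u / 8) := by
      calc (D : ℝ) ^ (2 * c) ≤ Real.exp (u / 16) ^ (2 * c) :=
            Real.rpow_le_rpow hD0.le hD2 (by positivity)
        _ = Real.exp (c * u / 8) := by
          rw [← Real.exp_mul]
          congr 1
          ring
    have h2 : (1 + Real.log D) ^ 2 ≤ (1 + (u : ℝ)) ^ 2 := by
      have h3 : 0 ≤ Real.log D := Real.log_nonneg (by exact_mod_cast hD1)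
      refine pow_le_pow_left₀ (by linarith) ?_ 2
      have h4 : Real.log D ≤ u / 16 := by
        rw [Real.log_le_iff_le_exp hD0]
        exact hD2
      linarith
    have h3 : Y ^ (1 - c) = Real.exp (u - c * u) := by
      rw [hY, ← Real.exp_mul]
      congr 1
      ring
    have h4 : 8 * ((K : ℝ) ^ 2 * C1) * (u * (1 + (u : ℝ)) ^ 2) ≤ δ * Real.exp (7 / 8 * c * u) := by
      have h5 : 8 * ((K : ℝ) ^ 2 * C1) / δ * (1 + (u : ℝ)) ^ 3 ≤ Real.exp (7 / 8 * c * u) := e3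
      rw [div_mul_eq_mul_div, div_le_iff₀ hδ] at h5
      calc _ ≤ 8 * ((K : ℝ) ^ 2 * C1) * (1 + (u : ℝ)) ^ 3 :=
            mul_le_mul_of_nonneg_left h3u'' (by positivity)
        _ ≤ _ := by linarith
    calc 8 * G1 * u ≤ 8 * (((K : ℝ) ^ 2 * C1) * (Real.exp (u - c * u) * Real.exp (c * u / 8) *
          (1 + (u : ℝ)) ^ 2)) * u := by
          rw [hG1, h3]
          gcongr
      _ = (8 * ((K : ℝ) ^ 2 * C1) * (u * (1 + (u : ℝ)) ^ 2)) *
          (Real.exp (u - c * u) * Real.exp (c * u / 8)) := by ring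
      _ ≤ (δ * Real.exp (7 / 8 * c * u)) * (Real.exp (u - c * u) * Real.exp (c * u / 8)) :=
          mul_le_mul_of_nonneg_right h4 (by positivity)
      _ = δ * Y := by
          rw [mul_assoc, ← Real.exp_add, ← Real.exp_add, hY]
          congr 2
          ring
  -- conclusion
  refine winabs_40 (Su u) R hR ν (fun w _ => hν0 w) ?_ y hy1 K0 hK0p (C0 * (Y / u)) G1 hG10 hG0
    hG1b ?_
  · intro w hw
    refine hν1 w fun q hq hqz hqY hqd => ?_
    obtain ⟨p, hp, hpu, hpa⟩ := hRp w hw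
    have h1 : q ∣ p * a' := by
      rw [← hpa]
      exact Int.natCast_dvd.1 hqd
    rcases (Nat.Prime.dvd_mul hq).1 h1 with h2 | h2
    · have h3 : q = p := (Nat.prime_dvd_prime_iff_eq hq hp).1 h2
      rw [h3] at hqY
      have h4 : Y ^ (1 / 16 : ℝ) ≤ Y := by
        calc Y ^ (1 / 16 : ℝ) ≤ Y ^ (1 : ℝ) :=
              Real.rpow_le_rpow_of_exponent_le hY1 (by norm_num)
          _ = Y := Real.rpow_one Y
      linarith
    · have h3 := Nat.le_of_dvd ha' h2
      omega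
  · have h1 : K0 * (δ * Y / u) ≤ K0 * (R.card : ℝ) := mul_le_mul_of_nonneg_left hRc hK0'.le
    refine le_trans ?_ h1
    have hYu : 0 < Y / u := by positivity
    have h2 : 4 * (C0 * (Y / u)) ≤ K0 * δ / 2 * (Y / u) := by
      calc 4 * (C0 * (Y / u)) = (4 * C0) * (Y / u) := by ring
        _ ≤ K0 * δ / 2 * (Y / u) := mul_le_mul_of_nonneg_right (by linarith) hYu.le
    have h3 : 4 * (K0 * G1) ≤ K0 * δ / 2 * (Y / u) := by
      have h4 : 8 * G1 ≤ δ * Y / u := by
        rw [le_div_iff₀ hu0]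
        exact hG1s
      have h5 := mul_le_mul_of_nonneg_left h4 hK0'.le
      calc 4 * (K0 * G1) = K0 * (8 * G1) / 2 := by ring
        _ ≤ K0 * (δ * Y / u) / 2 := by linarith
        _ = _ := by ring
    calc 4 * (C0 * (Y / u) + K0 * G1) = 4 * (C0 * (Y / u)) + 4 * (K0 * G1) := by ring
      _ ≤ K0 * δ / 2 * (Y / u) + K0 * δ / 2 * (Y / u) := add_le_add h2 h3
      _ = _ := by ring

end Pool.Agent.Lib.MP_a17b09_nt.MRSG
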