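import Pool.Agent.Lib.MP_a17b09_nt.MRSG.StmtsG29
import Pool.Agent.Lib.MP_a17b09_nt.MRSG.Win1_40
import Pool.Agent.Lib.MP_a17b09_nt.MRSG.DjAbs40
import Pool.Agent.Lib.MP_a17b09_nt.CH.Pnti40

/-!
Project MRSG: the eigenvalues of the primes and their conjugates differ (helper40), structure part:
the square of the eigenvalue of `p = 1 (mod 4 d K)` is `f(w) uu(w)^(2j)`, `w` the first column of the
similitude, `f` a function modulo `2 a' K`.
-/

set_option autoImplicit false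

open Finset Filter Topology

namespace Pool.Agent.Lib.MP_a17b09_nt.MRSG

open CH CH.PE

/-- one window of primes represented by a form (`winF_63`) -/
def StWinF : Prop := ∀ Q : Form, Q.Pos → ∀ K a' : ℕ, 0 < K → 0 < a' → ∀ δ : ℝ, 0 < δ →
  ∃ K0 : ℕ, 0 < K0 ∧ ∀ κ : ℝ, 0 < κ → ∃ U0 : ℕ, ∀ u : ℕ, U0 ≤ u → ∀ h : ℤ, h ≠ 0 →
  |(h : ℝ)| ≤ Real.exp (u / κ) → ∀ f : V → ℂ, (∀ w, ‖f w‖ = 1) →
  (∀ w w', Cgr K w w' → f w' = f w) → ∀ R : Finset V,
  (∀ w ∈ R, ∃ p : ℕ, p.Prime ∧ Real.exp u < p ∧ (p : ℝ) ≤ Real.exp (u + 1) ∧ Q.q w = p * a') →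
  δ * Real.exp u / u ≤ R.card →
  (R.card : ℝ) / (4 * (K0 : ℝ) ^ 2) ≤ ∑ w ∈ R, ‖1 - f w * uu Q w ^ h‖ ^ 2

namespace Win2

/-- the second column of a similitude -/
theorem rel_col {p r : ℤ} (hp : p ≠ 0) {Q Q' : Form} {M : Mat} (h : Rel p r Q Q' M) :
    2 * Q'.a * M.b = (Q'.b - Q.b) * M.a - 2 * Q.c * M.c ∧
      2 * Q'.a * M.d = 2 * Q.a * M.a + (Q.b + Q'.b) * M.c := by
  have h1 := h.polar (1, 0) (0, 1)
  have h2 := h.det
  have h3 := h.sim (1, 0)
  unfold Form.B Mat.app at h1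
  unfold Mat.det at h2
  unfold Form.q Mat.app at h3
  simp only [mul_one, mul_zero, add_zero, zero_add, one_pow, ne_eq, OfNat.ofNat_ne_zero,
    not_false_eq_true, zero_pow] at h1 h3
  constructor
  · apply mul_left_cancel₀ hp
    linear_combination (-2 * M.b) * h3 + M.a * h1 - (Q.b * M.a + 2 * Q.c * M.c) * h2
  · apply mul_left_cancel₀ hp
    linear_combination (-2 * M.d) * h3 + M.c * h1 + (2 * Q.a * M.a + Q.b * M.c) * h2

/-- the matrices modulo `K` are determined by the first columns modulo `2 a' K` -/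
theorem az_eq {K : ℕ} {p r p' r' : ℤ} (hp : p ≠ 0) (hp' : p' ≠ 0) {Q Q' : Form} {M M' : Mat}
    (h : Rel p r Q Q' M) (h' : Rel p' r' Q Q' M') (ha : Q'.a ≠ 0)
    (h1 : 2 * Q'.a * K ∣ M'.a - M.a) (h2 : 2 * Q'.a * K ∣ M'.c - M.c) (α : ZMod K × ZMod K) :
    az M'.adj α = az M.adj α := by
  obtain ⟨e1, e2⟩ := rel_col hp h
  obtain ⟨e1', e2'⟩ := rel_col hp' h'
  have h2a : (2 * Q'.a) ≠ 0 := mul_ne_zero two_ne_zero ha
  have k1 : (K : ℤ) ∣ M'.a - M.a := (Dvd.intro_left _ rfl).trans h1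
  have k2 : (K : ℤ) ∣ M'.c - M.c := (Dvd.intro_left _ rfl).trans h2
  have k3 : (K : ℤ) ∣ M'.b - M.b := by
    rw [← mul_dvd_mul_iff_left h2a]
    have : 2 * Q'.a * (M'.b - M.b) = (Q'.b - Q.b) * (M'.a - M.a) - 2 * Q.c * (M'.c - M.c) := by
      linear_combination e1' - e1
    rw [this]
    exact dvd_sub (Dvd.dvd.mul_left h1 _) (Dvd.dvd.mul_left h2 _)
  have k4 : (K : ℤ) ∣ M'.d - M.d := by
    rw [← mul_dvd_mul_iff_left h2a]
    have : 2 * Q'.a * (M'.d - M.d) = 2 * Q.a * (M'.a - M.a) + (Q.b + Q'.b) * (M'.c - M.c) := by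
      linear_combination e2' - e2
    rw [this]
    exact dvd_add (Dvd.dvd.mul_left h1 _) (Dvd.dvd.mul_left h2 _)
  have z1 : (M.a : ZMod K) = M'.a := (ZMod.intCast_eq_intCast_iff_dvd_sub _ _ _).2 k1
  have z2 : (M.c : ZMod K) = M'.c := (ZMod.intCast_eq_intCast_iff_dvd_sub _ _ _).2 k2
  have z3 : (M.b : ZMod K) = M'.b := (ZMod.intCast_eq_intCast_iff_dvd_sub _ _ _).2 k3
  have z4 : (M.d : ZMod K) = M'.d := (ZMod.intCast_eq_intCast_iff_dvd_sub _ _ _).2 k4
  unfold az Mat.adj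
  push_cast
  rw [z1, z2, z3, z4]

/-- the eigenvalue of the scalar `1` -/
theorem sw_one {d K : ℕ} [NeZero K] (w : Fq d K) : sw (1 : (ZMod K)ˣ) w = 1 := by
  obtain ⟨-, h⟩ := bv_spec_sc (d := d) (1 : (ZMod K)ˣ) w.1 w.2
  have h1 : Rn d K 1 (bv d K w.1 w.2 : Hs d K) = (bv d K w.1 w.2 : Hs d K) := by
    ext ia
    obtain ⟨i, α⟩ := ia
    rw [Rn_apply, inv_one, Units.val_one, sc_one]
  rw [h1] at h
  have h2 : (bv d K w.1 w.2 : Hs d K) ≠ 0 := by
    intro h3
    have := norm_bv (d := d) (K := K) w.1 w.2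
    rw [h3, norm_zero] at this
    exact zero_ne_one this
  have h3 : (1 : ℂ) • (bv d K w.1 w.2 : Hs d K) = sw (1 : (ZMod K)ˣ) w • (bv d K w.1 w.2 : Hs d K) := by
    rw [one_smul]
    exact h
  exact (smul_left_injective ℂ h2 h3).symm

/-- primes `1` modulo `K`: the conjugate has the conjugate eigenvalue -/
theorem norm_diff {d K p : ℕ} [NeZero K] (h : Adm d K (p, true)) (h1 : p ≡ 1 [MOD K]) (w : Fq d K) :
    ‖cw (p, true) w - cw (p, false) w‖ ^ 2 = ‖1 - cw (p, true) w ^ 2‖ ^ 2 := by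
  have h2 := cw_conj h w
  have h3 : ZMod.unitOfCoprime p h.cop = 1 := by
    apply Units.ext
    rw [ZMod.coe_unitOfCoprime, Units.val_one]
    have := (ZMod.natCast_eq_natCast_iff p 1 K).2 h1
    simpa using this
  rw [h3, sw_one] at h2
  simp only [Bool.not_true] at h2
  have h4 := norm_cw h w
  have h5 : 1 - cw (p, true) w ^ 2 = -(cw (p, true) w * (cw (p, true) w - cw (p, false) w)) := by
    linear_combination (-1 : ℂ) * h2
  rw [h5, norm_neg, norm_mul, h4, one_mul]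

/-- number of primes in a window -/
theorem primes_win (M : ℕ) (hM : 0 < M) : ∃ δ : ℝ, 0 < δ ∧ ∃ U0 : ℕ, ∀ u : ℕ, U0 ≤ u →
    δ * Real.exp u / u ≤ (((Finset.Ioc ⌊Real.exp u⌋₊ ⌊Real.exp ((u : ℝ) + 1)⌋₊).filter
      (fun p : ℕ => p.Prime ∧ p ≡ 1 [MOD M])).card : ℝ) := by
  have hphi : 0 < M.totient := Nat.totient_pos.2 hM
  have hphi' : (0 : ℝ) < M.totient := by exact_mod_cast hphi
  obtain ⟨P₁, h1⟩ := PV.stPnti_40 M 1 (1 / (4 * M.totient)) hM (Nat.coprime_one_left M) (by positivity)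
  refine ⟨1 / (4 * M.totient), by positivity, P₁ + 3, fun u hu => ?_⟩
  have hu3 : (3 : ℝ) ≤ u := by exact_mod_cast (by omega : 3 ≤ u)
  have hu0 : (0 : ℝ) < u := by linarith
  set P : ℕ := ⌊Real.exp u⌋₊ with hPdef
  have hexp : (u : ℝ) + 1 ≤ Real.exp u := Real.add_one_le_exp _
  have hPu : u ≤ P := by
    rw [hPdef]
    exact Nat.le_floor (by linarith)
  have hP3 : 3 ≤ P := by omega
  have hP0 : (0 : ℝ) < P := by
    have : 0 < P := by omega
    exact_mod_cast this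
  have hPe : (P : ℝ) ≤ Real.exp u := Nat.floor_le (Real.exp_pos _).le
  have hPe2 : Real.exp u < P + 1 := Nat.lt_floor_add_one _
  have hP3' : (3 : ℝ) ≤ P := by exact_mod_cast hP3
  have hlog0 : 0 < Real.log P := Real.log_pos (by linarith)
  have hlog1 : Real.log P ≤ u := by
    rw [← Real.log_exp (u : ℝ)]
    exact Real.log_le_log hP0 hPe
  have hP1 := h1 P (by omega) P (by omega)
  have hP2 := h1 P (by omega) (2 * P) le_rfl
  have hcard : ((Ioc 0 (2 * P)).filter (fun p : ℕ => p.Prime ∧ p ≡ 1 [MOD M])).card =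
      ((Ioc 0 P).filter (fun p : ℕ => p.Prime ∧ p ≡ 1 [MOD M])).card +
        ((Ioc P (2 * P)).filter (fun p : ℕ => p.Prime ∧ p ≡ 1 [MOD M])).card := by
    rw [← Finset.Ioc_union_Ioc_eq_Ioc (Nat.zero_le P) (by omega : P ≤ 2 * P), Finset.filter_union,
      Finset.card_union_of_disjoint]
    apply Finset.disjoint_filter_filter
    rw [Finset.disjoint_left]
    intro a ha hb
    rw [Finset.mem_Ioc] at ha hb
    omega
  have hcard' : (((Ioc 0 (2 * P)).filter (fun p : ℕ => p.Prime ∧ p ≡ 1 [MOD M])).card : ℝ) =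
      ((Ioc 0 P).filter (fun p : ℕ => p.Prime ∧ p ≡ 1 [MOD M])).card +
        ((Ioc P (2 * P)).filter (fun p : ℕ => p.Prime ∧ p ≡ 1 [MOD M])).card := by
    exact_mod_cast hcard
  have hq : (P : ℝ) / (2 * M.totient * Real.log P) ≤
      ((Ioc P (2 * P)).filter (fun p : ℕ => p.Prime ∧ p ≡ 1 [MOD M])).card := by
    have h3 := (abs_le.1 hP1).2
    have h4 := (abs_le.1 hP2).1
    rw [hcard'] at h4
    have e1 : 1 / (4 * (M.totient : ℝ)) * (P / Real.log P) = P / (4 * M.totient * Real.log P) := by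
      field_simp
    rw [e1] at h3 h4
    have e2 : ((2 * P : ℕ) : ℝ) / (M.totient * Real.log P) = 8 * (P / (4 * M.totient * Real.log P)) := by
      push_cast
      field_simp
      ring
    have e3 : (P : ℝ) / (M.totient * Real.log P) = 4 * (P / (4 * M.totient * Real.log P)) := by
      field_simp
    have e4 : (P : ℝ) / (2 * M.totient * Real.log P) = 2 * (P / (4 * M.totient * Real.log P)) := by
      field_simp
      ring
    rw [e2] at h4
    rw [e3] at h3
    rw [e4]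
    linarith
  have hsub : (Ioc P (2 * P)).filter (fun p : ℕ => p.Prime ∧ p ≡ 1 [MOD M]) ⊆
      (Ioc P ⌊Real.exp ((u : ℝ) + 1)⌋₊).filter (fun p : ℕ => p.Prime ∧ p ≡ 1 [MOD M]) := by
    refine Finset.filter_subset_filter _ (Finset.Ioc_subset_Ioc_right (Nat.le_floor ?_))
    push_cast
    rw [Real.exp_add]
    have h2 : (2 : ℝ) ≤ Real.exp 1 := by
      have := Real.add_one_le_exp (1 : ℝ)
      linarith
    nlinarith [Real.exp_pos (u : ℝ)]
  have hle : (((Ioc P (2 * P)).filter (fun p : ℕ => p.Prime ∧ p ≡ 1 [MOD M])).card : ℝ) ≤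
      ((Ioc P ⌊Real.exp ((u : ℝ) + 1)⌋₊).filter (fun p : ℕ => p.Prime ∧ p ≡ 1 [MOD M])).card := by
    exact_mod_cast Finset.card_le_card hsub
  refine le_trans ?_ (hq.trans hle)
  calc 1 / (4 * (M.totient : ℝ)) * Real.exp u / u = (Real.exp u / 2) / (2 * M.totient * u) := by
        field_simp
        ring
    _ ≤ P / (2 * M.totient * u) := by
        apply div_le_div_of_nonneg_right _ (by positivity)
        linarith
    _ ≤ P / (2 * M.totient * Real.log P) := by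
        apply div_le_div_of_nonneg_left hP0.le (by positivity)
        exact mul_le_mul_of_nonneg_left hlog1 (by positivity)

/-- some coordinate of an eigenvector is not zero -/
theorem exists_coord {d K : ℕ} [NeZero K] (w : Fq d K) :
    ∃ (i : Cl d) (α : ZMod K × ZMod K), (bv d K w.1 w.2 : Hs d K) (i, α) ≠ 0 := by
  by_contra hcon
  push Not at hcon
  have h1 : (bv d K w.1 w.2 : Hs d K) = 0 := by
    ext ia
    exact hcon ia.1 ia.2
  have h2 := norm_bv (d := d) (K := K) w.1 w.2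
  rw [h1, norm_zero] at h2
  exact zero_ne_one h2

open Classical in
/-- the square of the eigenvalue -/
theorem fun_exists {d K : ℕ} [NeZero K] (hd : 0 < d) (w : Fq d K) (i i' : Cl d)
    (α : ZMod K × ZMod K) (hx : (bv d K w.1 w.2 : Hs d K) (i, α) ≠ 0) :
    ∃ f : V → ℂ, (∀ v, ‖f v‖ = 1) ∧
      (∀ v v', Cgr ((2 * (rep i').a * K).toNat) v v' → f v' = f v) ∧
      ∀ p : ℕ, p.Prime → p ≡ 1 [MOD 4 * d] → p ≡ 1 [MOD K] → sg d (p, true) i = i' →
        cw (p, true) w ^ 2 = f ((Mg d (p, true) i).app (1, 0)) *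
          uu (rep i) ((Mg d (p, true) i).app (1, 0)) ^ (2 * w.1) := by
  have hK : 0 < K := Nat.pos_of_ne_zero (NeZero.ne K)
  set x : Hs d K := (bv d K w.1 w.2 : Hs d K) with hxdef
  set m : ℕ := (2 * (rep i').a * K).toNat with hm
  have ha' : 0 < (rep i').a := (rep_pos i').1
  have hmz : (m : ℤ) = 2 * (rep i').a * K := Int.toNat_of_nonneg (by positivity)
  set G : ℕ → Prop := fun p => p.Prime ∧ p ≡ 1 [MOD 4 * d] ∧ p ≡ 1 [MOD K] ∧
    sg d (p, true) i = i' with hG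
  set F : ℕ → ℂ := fun p => (x (i', az (Mg d (p, true) i).adj α) / x (i, α)) ^ 2 with hF
  -- the eigenvalue equation
  have heig : ∀ p, G p → cw (p, true) w ^ 2 = F p *
      uu (rep i) ((Mg d (p, true) i).app (1, 0)) ^ (2 * w.1) := by
    rintro p ⟨hp, h4, hk, hs⟩
    have hA : Adm d K (p, true) := adm_of_one true hp hd hK h4 hk
    have h1 : Ug d K (p, true) w.1 x (i, α) = cw (p, true) w * x (i, α) := by
      rw [hxdef, (bv_spec hA w.1 w.2).2]
      rfl
    rw [Ug_apply, hs] at h1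
    have h2 : ai (Mg d (p, true) i) α = az (Mg d (p, true) i).adj α := by
      have h3 : (((Mg d (p, true) i).det : ℤ) : ZMod K) = 1 := by
        rw [(rel_g hA i).2.det]
        have := (ZMod.natCast_eq_natCast_iff p 1 K).2 hk
        simpa using this
      have h4 : ((1 : ZMod K))⁻¹ = 1 := by
        have := ZMod.mul_inv_of_unit (1 : ZMod K) isUnit_one
        rwa [one_mul] at this
      unfold ai
      rw [h3, h4, sc_one]
    rw [h2] at h1
    set U := uu (rep i) ((Mg d (p, true) i).app (1, 0)) with hU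
    have hU0 : U ≠ 0 := by
      intro h0
      have h5 := norm_phase hA i 1
      rw [← hU, h0] at h5
      norm_num at h5
    have h6 : U ^ (2 * w.1) = (U ^ w.1) ^ 2 := by
      rw [two_mul, zpow_add₀ hU0, sq]
    rw [h6, hF]
    simp only
    have h7 : cw (p, true) w = (U ^ w.1) * (x (i', az (Mg d (p, true) i).adj α) / x (i, α)) := by
      rw [← mul_div_assoc, h1, mul_div_assoc, div_self hx, mul_one]
    rw [h7]
    ring
  have hFn : ∀ p, G p → ‖F p‖ = 1 := by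
    intro p hp
    have h1 := heig p hp
    obtain ⟨hp, h4, hk, hs⟩ := hp
    have hA : Adm d K (p, true) := adm_of_one true hp hd hK h4 hk
    have h2 := congrArg norm h1
    rw [norm_mul, norm_pow, norm_cw hA, norm_phase hA, mul_one, one_pow] at h2
    exact h2.symm
  set S : V → ℕ → Prop := fun v p => G p ∧ Cgr m ((Mg d (p, true) i).app (1, 0)) v with hS
  refine ⟨fun v => if ∃ p, S v p then F (Classical.epsilon (S v)) else 1, ?_, ?_, ?_⟩
  · intro v
    simp only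
    split_ifs with h
    · exact hFn _ (Classical.epsilon_spec h).1
    · exact norm_one
  · intro v v' hv
    have h1 : S v' = S v := by
      funext p
      apply propext
      simp only [hS]
      refine and_congr_right fun _ => ?_
      obtain ⟨hv1, hv2⟩ := hv
      constructor
      · rintro ⟨h1, h2⟩
        refine ⟨?_, ?_⟩
        · have := dvd_sub h1 hv1
          have e : v'.1 - ((Mg d (p, true) i).app (1, 0)).1 - (v'.1 - v.1) =
            v.1 - ((Mg d (p, true) i).app (1, 0)).1 := by ring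
          rwa [e] at this
        · have := dvd_sub h2 hv2
          have e : v'.2 - ((Mg d (p, true) i).app (1, 0)).2 - (v'.2 - v.2) =
            v.2 - ((Mg d (p, true) i).app (1, 0)).2 := by ring
          rwa [e] at this
      · rintro ⟨h1, h2⟩
        refine ⟨?_, ?_⟩
        · have := dvd_add h1 hv1
          have e : v.1 - ((Mg d (p, true) i).app (1, 0)).1 + (v'.1 - v.1) =
            v'.1 - ((Mg d (p, true) i).app (1, 0)).1 := by ring
          rwa [e] at this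
        · have := dvd_add h2 hv2
          have e : v.2 - ((Mg d (p, true) i).app (1, 0)).2 + (v'.2 - v.2) =
            v'.2 - ((Mg d (p, true) i).app (1, 0)).2 := by ring
          rwa [e] at this
    simp only [h1]
  · intro p hp h4 hk hs
    have hg : G p := ⟨hp, h4, hk, hs⟩
    have hex : ∃ q, S ((Mg d (p, true) i).app (1, 0)) q :=
      ⟨p, hg, by rw [sub_self]; exact dvd_zero _, by rw [sub_self]; exact dvd_zero _⟩
    have h1 := Classical.epsilon_spec hex
    show cw (p, true) w ^ 2 = (if ∃ q, S ((Mg d (p, true) i).app (1, 0)) q then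
      F (Classical.epsilon (S ((Mg d (p, true) i).app (1, 0)))) else 1) *
      uu (rep i) ((Mg d (p, true) i).app (1, 0)) ^ (2 * w.1)
    rw [if_pos hex, heig p hg]
    set q := Classical.epsilon (S ((Mg d (p, true) i).app (1, 0))) with hq
    congr 1
    -- `F p = F q`
    obtain ⟨⟨hq1, hq2, hq3, hq4⟩, hq5, hq6⟩ := h1
    have hA : Adm d K (p, true) := adm_of_one true hp hd hK h4 hk
    have hB : Adm d K (q, true) := adm_of_one true hq1 hd hK hq2 hq3
    have r1 := (rel_g hA i).2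
    have r2 := (rel_g hB i).2
    rw [hs] at r1
    rw [hq4] at r2
    have e1 : ∀ M : Mat, (M.app (1, 0)).1 = M.a := fun M => by unfold Mat.app; simp
    have e2 : ∀ M : Mat, (M.app (1, 0)).2 = M.c := fun M => by unfold Mat.app; simp
    rw [e1, e1, hmz] at hq5
    rw [e2, e2, hmz] at hq6
    have h5 := az_eq (K := K) (by exact_mod_cast hq1.ne_zero) (by exact_mod_cast hp.ne_zero) r2 r1
      ha'.ne' hq5 hq6 α
    simp only [hF]
    rw [h5]

open Classical in
/-- the terms of the windows -/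
noncomputable def gP {d K : ℕ} [NeZero K] (w : Fq d K) (p : ℕ) : ℝ :=
  if p.Prime ∧ p ≡ 1 [MOD 4 * d * K] then
    (1 / (p : ℝ)) * ‖cw (p, true) w - cw (p, false) w‖ ^ 2 else 0

theorem gP_nonneg {d K : ℕ} [NeZero K] (w : Fq d K) (p : ℕ) : 0 ≤ gP w p := by
  unfold gP
  split_ifs <;> positivity

open Classical in
/-- one window -/
theorem winG (hW : StWinF) {d K : ℕ} [NeZero K] (hd : 0 < d) :
    ∃ c0 : ℝ, 0 < c0 ∧ ∀ κ : ℝ, 0 < κ → ∃ U0 : ℕ, ∀ u : ℕ, U0 ≤ u → ∀ w : Fq d K, w.1 ≠ 0 →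
      |(w.1 : ℝ)| ≤ Real.exp (u / κ) →
      c0 / u ≤ ∑ p ∈ Finset.Ioc ⌊Real.exp u⌋₊ ⌊Real.exp ((u : ℝ) + 1)⌋₊, gP w p := by
  have hK : 0 < K := Nat.pos_of_ne_zero (NeZero.ne K)
  obtain ⟨δ1, hδ1, U1, hU1⟩ := primes_win (4 * d * K) (by positivity)
  set Nc : ℕ := Fintype.card (Cl d) with hNc
  set δ2 : ℝ := δ1 / (Nc + 1) with hδ2
  have hδ20 : 0 < δ2 := by positivity
  have hm : ∀ i' : Cl d, 0 < (2 * (rep i').a * (K : ℤ)).toNat := by
    intro i'
    have ha' : 0 < (rep i').a := (rep_pos i').1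
    have : 0 < 2 * (rep i').a * (K : ℤ) := by positivity
    omega
  have haN : ∀ i' : Cl d, 0 < ((rep i').a).toNat := by
    intro i'
    have ha' : 0 < (rep i').a := (rep_pos i').1
    omega
  choose K0 hK0 hk using fun ii : Cl d × Cl d => hW (rep ii.1) (rep_pos _)
    (2 * (rep ii.2).a * (K : ℤ)).toNat ((rep ii.2).a).toNat (hm ii.2) (haN ii.2) δ2 hδ20
  set Km : ℕ := 1 + ∑ ii, K0 ii with hKm
  have hKle : ∀ ii, K0 ii ≤ Km := by
    intro ii
    have := Finset.single_le_sum (f := K0) (fun _ _ => Nat.zero_le _) (Finset.mem_univ ii)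
    omega
  have hKm0 : (0 : ℝ) < Km := by
    have : 0 < Km := by omega
    exact_mod_cast this
  refine ⟨δ2 / (4 * (Km : ℝ) ^ 2) * Real.exp (-1), by positivity, fun κ hκ => ?_⟩
  choose U hU using fun ii => hk ii (κ / 2) (by positivity)
  refine ⟨U1 + ∑ ii, U ii + ⌈κ⌉₊ + 1, fun u hu w hw hwu => ?_⟩
  have hUle : ∀ ii, U ii ≤ u := by
    intro ii
    have := Finset.single_le_sum (f := U) (fun _ _ => Nat.zero_le _) (Finset.mem_univ ii)
    omega
  have hu1 : 1 ≤ u := by omega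
  have hu0 : (0 : ℝ) < u := by exact_mod_cast hu1
  have hκu : κ ≤ u := (Nat.le_ceil κ).trans (by exact_mod_cast (by omega : ⌈κ⌉₊ ≤ u))
  have hexp2 : (2 : ℝ) ≤ Real.exp (u / κ) := by
    have h1 : (1 : ℝ) ≤ u / κ := by rwa [le_div_iff₀ hκ, one_mul]
    have h2 := Real.add_one_le_exp ((u : ℝ) / κ)
    linarith
  have h2w : |((2 * w.1 : ℤ) : ℝ)| ≤ Real.exp (u / (κ / 2)) := by
    have h1 : Real.exp ((u : ℝ) / (κ / 2)) = Real.exp (u / κ) * Real.exp (u / κ) := by
      rw [← Real.exp_add]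
      congr 1
      field_simp
      ring
    rw [h1]
    push_cast
    rw [abs_mul, abs_two]
    exact mul_le_mul hexp2 hwu (abs_nonneg _) (Real.exp_pos _).le
  obtain ⟨i, α, hx⟩ := exists_coord w
  set PS : Finset ℕ := (Finset.Ioc ⌊Real.exp u⌋₊ ⌊Real.exp ((u : ℝ) + 1)⌋₊).filter
    (fun p : ℕ => p.Prime ∧ p ≡ 1 [MOD 4 * d * K]) with hPS
  have hPSc : δ1 * Real.exp u / u ≤ (PS.card : ℝ) := hU1 u (by omega)
  -- pigeonhole
  obtain ⟨i', -, hi'⟩ := Finset.exists_le_card_fiber_of_nsmul_le_card_of_maps_to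
    (s := PS) (t := (Finset.univ : Finset (Cl d))) (f := fun p => sg d (p, true) i)
    (b := (PS.card : ℝ) / (Nc + 1)) (fun _ _ => Finset.mem_univ _) ⟨i, Finset.mem_univ _⟩ (by
      rw [Finset.card_univ, nsmul_eq_mul, ← hNc, ← mul_div_assoc, div_le_iff₀ (by positivity)]
      have : (0 : ℝ) ≤ PS.card := Nat.cast_nonneg _
      nlinarith)
  set T : Finset ℕ := PS.filter (fun p => sg d (p, true) i = i') with hT
  set mv : ℕ → V := fun p => (Mg d (p, true) i).app (1, 0) with hmv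
  have hTp : ∀ p ∈ T, p.Prime ∧ p ≡ 1 [MOD 4 * d] ∧ p ≡ 1 [MOD K] ∧ sg d (p, true) i = i' ∧
      Real.exp u < p ∧ (p : ℝ) ≤ Real.exp (u + 1) ∧ Adm d K (p, true) := by
    intro p hp
    rw [hT, Finset.mem_filter, hPS, Finset.mem_filter, Finset.mem_Ioc] at hp
    obtain ⟨⟨⟨h1, h2⟩, h3, h4⟩, h5⟩ := hp
    have h6 : p ≡ 1 [MOD 4 * d] := Nat.ModEq.of_mul_right K h4
    have h7 : p ≡ 1 [MOD K] := Nat.ModEq.of_mul_left (4 * d) h4
    refine ⟨h3, h6, h7, h5, (Nat.floor_lt (Real.exp_pos _).le).1 h1, ?_,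
      adm_of_one true h3 hd hK h6 h7⟩
    exact (Nat.cast_le.2 h2).trans (Nat.floor_le (Real.exp_pos _).le)
  have ha' : 0 < (rep i').a := (rep_pos i').1
  have hqv : ∀ p ∈ T, (rep i).q (mv p) = p * (((rep i').a).toNat : ℤ) := by
    intro p hp
    obtain ⟨h1, h2, h3, h4, h5, h6, h7⟩ := hTp p hp
    have h8 := (rel_g h7 i).2.sim (1, 0)
    rw [h4] at h8
    rw [hmv]
    simp only
    rw [h8, Int.toNat_of_nonneg ha'.le]
    unfold Form.q
    simp
  have hinj : Set.InjOn mv T := by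
    intro p hp p' hp' he
    have h1 := hqv p hp
    have h2 := hqv p' hp'
    rw [he, h2] at h1
    have h3 : (((rep i').a).toNat : ℤ) ≠ 0 := by
      have := haN i'
      omega
    have h4 := mul_right_cancel₀ h3 h1
    exact_mod_cast h4.symm
  set R : Finset V := T.image mv with hR
  have hRc : (R.card : ℝ) = T.card := by
    rw [hR, Finset.card_image_of_injOn hinj]
  obtain ⟨f, hf1, hf2, hf3⟩ := fun_exists hd w i i' α hx
  have hTc : δ2 * Real.exp u / u ≤ (T.card : ℝ) := by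
    refine le_trans ?_ hi'
    rw [hδ2]
    calc δ1 / ((Nc : ℝ) + 1) * Real.exp u / u = (δ1 * Real.exp u / u) / (Nc + 1) := by ring
      _ ≤ (PS.card : ℝ) / (Nc + 1) := by
        apply div_le_div_of_nonneg_right hPSc
        positivity
  have hmain := hU (i, i') u (hUle _) (2 * w.1) (mul_ne_zero two_ne_zero hw) h2w f hf1 hf2 R
    (by
      intro v hv
      rw [hR, Finset.mem_image] at hv
      obtain ⟨p, hp, rfl⟩ := hv
      obtain ⟨h1, h2, h3, h4, h5, h6, h7⟩ := hTp p hp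
      exact ⟨p, h1, h5, h6, hqv p hp⟩)
    (by rw [hRc]; exact hTc)
  rw [hR, Finset.sum_image hinj, ← hR, hRc] at hmain
  have hterm : ∀ p ∈ T, ‖1 - f (mv p) * uu (rep i) (mv p) ^ (2 * w.1)‖ ^ 2 =
      ‖cw (p, true) w - cw (p, false) w‖ ^ 2 := by
    intro p hp
    obtain ⟨h1, h2, h3, h4, h5, h6, h7⟩ := hTp p hp
    rw [norm_diff h7 h3 w, hf3 p h1 h2 h3 h4]
  rw [Finset.sum_congr rfl hterm] at hmain
  have hTsub : T ⊆ Finset.Ioc ⌊Real.exp u⌋₊ ⌊Real.exp ((u : ℝ) + 1)⌋₊ :=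
    (Finset.filter_subset _ _).trans (Finset.filter_subset _ _)
  have hlow : ∑ p ∈ T, gP w p ≤
      ∑ p ∈ Finset.Ioc ⌊Real.exp u⌋₊ ⌊Real.exp ((u : ℝ) + 1)⌋₊, gP w p :=
    Finset.sum_le_sum_of_subset_of_nonneg hTsub fun p _ _ => gP_nonneg w p
  have hlow2 : Real.exp (-((u : ℝ) + 1)) * ∑ p ∈ T, ‖cw (p, true) w - cw (p, false) w‖ ^ 2 ≤
      ∑ p ∈ T, gP w p := by
    rw [Finset.mul_sum]
    refine Finset.sum_le_sum fun p hp => ?_
    obtain ⟨h1, h2, h3, h4, h5, h6, h7⟩ := hTp p hp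
    have h8 : p.Prime ∧ p ≡ 1 [MOD 4 * d * K] := by
      rw [hT, Finset.mem_filter, hPS, Finset.mem_filter] at hp
      exact hp.1.2
    unfold gP
    rw [if_pos h8]
    refine mul_le_mul_of_nonneg_right ?_ (by positivity)
    have hp0 : (0 : ℝ) < p := by exact_mod_cast h1.pos
    rw [Real.exp_neg, ← one_div]
    exact one_div_le_one_div_of_le hp0 h6
  refine le_trans ?_ (hlow2.trans hlow)
  have hKr : (K0 (i, i') : ℝ) ≤ Km := by exact_mod_cast hKle _
  have hK00 : (0 : ℝ) < K0 (i, i') := by exact_mod_cast hK0 _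
  calc δ2 / (4 * (Km : ℝ) ^ 2) * Real.exp (-1) / u
      = Real.exp (-((u : ℝ) + 1)) * ((δ2 * Real.exp u / u) / (4 * (Km : ℝ) ^ 2)) := by
        have : Real.exp (-1) = Real.exp (-((u : ℝ) + 1)) * Real.exp u := by
          rw [← Real.exp_add]
          congr 1
          ring
        rw [this]
        ring
    _ ≤ Real.exp (-((u : ℝ) + 1)) * ((T.card : ℝ) / (4 * (K0 (i, i') : ℝ) ^ 2)) := by
        refine mul_le_mul_of_nonneg_left ?_ (Real.exp_pos _).le
        gcongr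
    _ ≤ _ := mul_le_mul_of_nonneg_left hmain (Real.exp_pos _).le

end Win2

open Win2 in
open Classical in
/-- **DJ**: the eigenvalues of the primes and of their conjugates differ. -/
theorem stDjG_of (hW : StWinF) (d K : ℕ) [NeZero K] : StDjG d K := by
  intro c B hc
  rcases Nat.eq_zero_or_pos d with hd | hd
  · refine ⟨1, le_rfl, fun N _ w _ _ => ?_⟩
    exfalso
    obtain ⟨i, -, -⟩ := exists_coord w
    have h1 := (rep_pos i).2
    rw [rep_D, hd] at h1
    simp at h1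
  have hK : 0 < K := Nat.pos_of_ne_zero (NeZero.ne K)
  obtain ⟨c0, hc0, hwin⟩ := winG hW (K := K) hd
  obtain ⟨kap, hkap, hsum⟩ := djabs_40 hc0 (half_pos hc) (two_pos (α := ℝ)) B
  obtain ⟨U0, hU0⟩ := hwin kap hkap
  obtain ⟨N0, hN0, hN⟩ := hsum U0
  refine ⟨max N0 2, hN0.trans (le_max_left _ _), fun N hNN w hw hwN => ?_⟩
  have hN2 : 2 ≤ N := (le_max_right _ _).trans hNN
  have h1 := hN N ((le_max_left _ _).trans hNN) (gP w) (gP_nonneg w) (fun u hu _ hNu _ => by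
    refine hU0 u hu w hw (hwN.trans ?_)
    rw [Real.rpow_two] at hNu
    exact hNu)
  refine h1.trans ?_
  set FS : Finset ℕ := (Finset.Ioc 0 ⌊N ^ (c / 2)⌋₊).filter
    (fun p : ℕ => p.Prime ∧ p ≡ 1 [MOD 4 * d * K]) with hFS
  have h2 : ∑ p ∈ Finset.Ioc 0 ⌊N ^ (c / 2)⌋₊, gP w p =
      ∑ p ∈ FS, (1 / (p : ℝ)) * ‖cw (p, true) w - cw (p, false) w‖ ^ 2 := by
    rw [hFS, Finset.sum_filter]
    rfl
  rw [h2]
  have hinj : Set.InjOn (fun p : ℕ => ((p, true) : ℕ × Bool)) FS := by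
    intro a _ b _ hab
    exact (Prod.ext_iff.1 hab).1
  have h3 : ∑ p ∈ FS, (1 / (p : ℝ)) * ‖cw (p, true) w - cw (p, false) w‖ ^ 2 =
      ∑ P ∈ FS.image (fun p : ℕ => ((p, true) : ℕ × Bool)),
        (1 / (P.1 : ℝ)) * ‖cw P w - cw (P.1, !P.2) w‖ ^ 2 := by
    rw [Finset.sum_image hinj]
    rfl
  rw [h3]
  refine Finset.sum_le_sum_of_subset_of_nonneg ?_ fun P _ _ => by positivity
  intro P hP
  rw [Finset.mem_image] at hP
  obtain ⟨p, hp, rfl⟩ := hP
  rw [hFS, Finset.mem_filter, Finset.mem_Ioc] at hp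
  obtain ⟨⟨-, hp1⟩, hp2, hp3⟩ := hp
  have h6 : p ≡ 1 [MOD 4 * d] := Nat.ModEq.of_mul_right K hp3
  have h7 : p ≡ 1 [MOD K] := Nat.ModEq.of_mul_left (4 * d) hp3
  rw [mem_slg]
  refine ⟨adm_of_one true hp2 hd hK h6 h7, ?_, ?_⟩
  · have h8 : p % 4 = 1 := Nat.ModEq.of_mul_right d h6
    have h9 := hp2.two_le
    have : 3 ≤ p := by omega
    exact_mod_cast this
  · have h8 : (p : ℝ) ≤ N ^ (c / 2) := (Nat.cast_le.2 hp1).trans (Nat.floor_le (by positivity))
    refine lt_of_le_of_lt h8 ?_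
    exact Real.rpow_lt_rpow_of_exponent_lt (by linarith) (by linarith)

end Pool.Agent.Lib.MP_a17b09_nt.MRSG
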