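import Pool.Agent.Lib.MP_a17b09_nt.MRSG.ExpG96
import Pool.Agent.Lib.MP_a17b09_nt.MRSG.NugD12
import Pool.Agent.Lib.MP_a17b09_nt.MRSG.Win2_40

/-!
Project MRSG: one window of primes represented by a positive form (helper40), and the module DJ.
-/

set_option autoImplicit false

open Finset Filter Topology

namespace Pool.Agent.Lib.MP_a17b09_nt.MRSG

open CH CH.PE

namespace WinF40

/-- the sieve majorant of a positive form -/
theorem nuG_pos (Q : Form) (hQ : Q.Pos) : NuG Q.q := by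
  classical
  intro z00
  obtain ⟨C, hC, z0, hz0, Y0, hY0, h⟩ := NugD12.nug_pos Q hQ z00
  refine ⟨C, hC, z0, hz0, Y0, fun Y hY => ?_⟩
  obtain ⟨L, ν, hL1, hL, hν0, hν1, htr⟩ := h Y hY
  refine ⟨ν, hν0, hν1, fun S F M E hE hcls => ?_⟩
  have h1 := htr S F M E hE (fun δ hδ hδL _ _ κ => by
    have h2 := hcls δ hδ ((Nat.cast_le.2 hδL).trans hL) κ
    have h3 : S.filter (fun w => NugC12.Cls δ κ w) = S.filter (fun w => Cgr δ κ w) := by
      refine Finset.filter_congr fun w _ => ?_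
      exact and_congr (Int.modEq_comm.trans Int.modEq_iff_dvd)
        (Int.modEq_comm.trans Int.modEq_iff_dvd)
    convert h2 using 4)
  refine h1.trans (add_le_add le_rfl ?_)
  refine Finset.sum_le_sum_of_subset_of_nonneg ?_ fun n _ _ => ?_
  · exact Finset.Icc_subset_Icc le_rfl (Nat.le_floor hL)
  · have := hE n
    positivity

/-- **One window of primes represented by a positive form.** -/
theorem winF_40 : StWinF := by
  classical
  intro Q hQ K a' hK ha' δ hδ
  have ha0 : (0 : ℝ) < Q.a := by exact_mod_cast hQ.1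
  have hc0 : (0 : ℝ) < Q.c := by exact_mod_cast hQ.c_pos
  have ha1 : (1 : ℝ) ≤ Q.a := by exact_mod_cast hQ.1
  have hc1 : (1 : ℝ) ≤ Q.c := by exact_mod_cast hQ.c_pos
  have ha'0 : (0 : ℝ) < a' := by exact_mod_cast ha'
  have ha'1 : (1 : ℝ) ≤ a' := by exact_mod_cast ha'
  have he1 : Real.exp 1 ≤ 3 := by
    have := Real.exp_one_lt_d9
    linarith
  set B : ℝ := 12 * (Q.a + Q.c) * a' with hB
  have hB1 : 1 ≤ B := by
    rw [hB]
    nlinarith
  set Su : ℕ → Finset V := fun u => (Q.ball ⌊(a' : ℝ) * Real.exp ((u : ℝ) + 1)⌋₊).filter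
    (fun v => (a' : ℝ) * Real.exp u < Q.q v) with hSu
  have hmem : ∀ u v, v ∈ Su u ↔ (a' : ℝ) * Real.exp u < Q.q v ∧
      (Q.q v : ℝ) ≤ a' * Real.exp ((u : ℝ) + 1) := by
    intro u v
    rw [hSu]
    simp only
    rw [Finset.mem_filter, Form.mem_ball hQ]
    have hpos : (0 : ℝ) ≤ a' * Real.exp ((u : ℝ) + 1) := by positivity
    constructor
    · rintro ⟨h1, h2⟩
      refine ⟨h2, ?_⟩
      have h3 : (Q.q v : ℝ) ≤ (⌊(a' : ℝ) * Real.exp ((u : ℝ) + 1)⌋₊ : ℝ) := by exact_mod_cast h1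
      exact h3.trans (Nat.floor_le hpos)
    · rintro ⟨h1, h2⟩
      refine ⟨?_, h1⟩
      obtain ⟨m, hm⟩ := Int.eq_ofNat_of_zero_le (hQ.q_nonneg v)
      rw [hm] at h2 ⊢
      have h5 : m ≤ ⌊(a' : ℝ) * Real.exp ((u : ℝ) + 1)⌋₊ := Nat.le_floor (by exact_mod_cast h2)
      exact_mod_cast h5
  have hbox : ∀ u, ∀ w ∈ Su u, |(w.1 : ℝ)| ≤ B * Real.exp (u / 2) ∧
      |(w.2 : ℝ)| ≤ B * Real.exp (u / 2) := by
    intro u w hw
    obtain ⟨h1, h2⟩ := (hmem u w).1 hw
    have hx : (w.1 : ℝ) ^ 2 ≤ 4 * Q.c * Q.q w := by exact_mod_cast hQ.le_x w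
    have hy : (w.2 : ℝ) ^ 2 ≤ 4 * Q.a * Q.q w := by exact_mod_cast hQ.le_y w
    have he : Real.exp ((u : ℝ) + 1) ≤ 3 * Real.exp u := by
      rw [Real.exp_add, mul_comm]
      exact mul_le_mul_of_nonneg_right he1 (Real.exp_pos _).le
    have h3 : (Q.q w : ℝ) ≤ 3 * a' * Real.exp u := by
      refine h2.trans ?_
      calc (a' : ℝ) * Real.exp ((u : ℝ) + 1) ≤ a' * (3 * Real.exp u) :=
            mul_le_mul_of_nonneg_left he ha'0.le
        _ = _ := by ring
    have h4 : (B * Real.exp ((u : ℝ) / 2)) ^ 2 = B ^ 2 * Real.exp u := by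
      rw [mul_pow, ← Real.exp_nat_mul]
      congr 2
      push_cast
      ring
    have h5 : B ≤ B ^ 2 := by nlinarith
    have hE := Real.exp_pos (u : ℝ)
    have hqn : (0 : ℝ) ≤ Q.q w := by exact_mod_cast hQ.q_nonneg w
    have key : ∀ c x : ℝ, 0 < c → c ≤ Q.a + Q.c → x ^ 2 ≤ 4 * c * Q.q w →
        |x| ≤ B * Real.exp ((u : ℝ) / 2) := by
      intro c x hc hcc hx
      refine abs_le_of_sq_le_sq ?_ (by positivity)
      rw [h4]
      calc x ^ 2 ≤ 4 * c * Q.q w := hx
        _ ≤ 4 * (Q.a + Q.c) * (3 * a' * Real.exp u) :=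
            mul_le_mul (by linarith) h3 hqn (by positivity)
        _ = B * Real.exp u := by rw [hB]; ring
        _ ≤ B ^ 2 * Real.exp u := mul_le_mul_of_nonneg_right h5 hE.le
    exact ⟨key _ _ hc0 (by linarith) hx, key _ _ ha0 (by linarith) hy⟩
  have hne : ∀ u, ∀ w ∈ Su u, w ≠ 0 := by
    intro u w hw h0
    have h1 := ((hmem u w).1 hw).1
    have h2 : Q.q w = 0 := by
      rw [h0]
      unfold Form.q
      simp
    rw [h2] at h1
    have : 0 < (a' : ℝ) * Real.exp u := by positivity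
    push_cast at h1
    linarith
  obtain ⟨K0, hK0, hmain⟩ := win1_abs Q.q (nuG_pos Q hQ) B hB1 Su hbox (uu Q)
    (fun u w hw => norm_uu hQ (hne u w hw)) (by
      intro κ hκ
      obtain ⟨c, C, hc, hc2, hC, hexp⟩ := ExpG96.exp96 Q hQ (κ / 2) (by positivity)
      refine ⟨c, hc, C * (1 + 3 * a'), by positivity, ?_⟩
      intro T hT h hh hhT q a hq u hqu
      have hq0 : (0 : ℝ) < q := by exact_mod_cast hq
      have h1 := hexp T hT h hh hhT q a hq ((a' : ℝ) * Real.exp u)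
        ((a' : ℝ) * Real.exp ((u : ℝ) + 1)) (by positivity)
        (mul_le_mul_of_nonneg_left (Real.exp_le_exp.2 (by linarith)) ha'0.le)
        ((Su u).filter (fun w => Cgr q a w)) (fun v => by
          rw [Finset.mem_filter, hmem]
          tauto)
      refine h1.trans ?_
      set X : ℝ := Real.exp u / (q : ℝ) ^ 2 with hX
      have hTk : T ^ κ ≤ X := by
        rw [hX, le_div_iff₀ (by positivity), mul_comm]
        exact hqu
      have hX1 : 1 ≤ X := (Real.one_le_rpow hT hκ.le).trans hTk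
      have hX0 : 0 < X := by linarith
      have h2 : T ^ (κ / 2) ≤ X ^ (1 - c) := by
        calc T ^ (κ / 2) = (T ^ κ) ^ (1 / 2 : ℝ) := by
              rw [← Real.rpow_mul (by linarith)]
              congr 1
              ring
          _ ≤ X ^ (1 / 2 : ℝ) := Real.rpow_le_rpow (by positivity) hTk (by norm_num)
          _ ≤ X ^ (1 - c) := Real.rpow_le_rpow_of_exponent_le hX1 (by linarith)
      have h3 : ((a' : ℝ) * Real.exp ((u : ℝ) + 1) / (q : ℝ) ^ 2) ^ (1 - c) ≤
          3 * a' * X ^ (1 - c) := by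
        have h4 : (a' : ℝ) * Real.exp ((u : ℝ) + 1) / (q : ℝ) ^ 2 ≤ (3 * a') * X := by
          rw [hX, Real.exp_add]
          have h5 : (a' : ℝ) * (Real.exp u * Real.exp 1) / (q : ℝ) ^ 2 =
              Real.exp 1 * (a' * (Real.exp u / (q : ℝ) ^ 2)) := by ring
          rw [h5]
          calc Real.exp 1 * (a' * (Real.exp u / (q : ℝ) ^ 2)) ≤
                3 * (a' * (Real.exp u / (q : ℝ) ^ 2)) :=
                mul_le_mul_of_nonneg_right he1 (by positivity)
            _ = _ := by ring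
        calc _ ≤ ((3 * a') * X) ^ (1 - c) :=
              Real.rpow_le_rpow (by positivity) h4 (by linarith)
          _ = (3 * a' : ℝ) ^ (1 - c) * X ^ (1 - c) := Real.mul_rpow (by positivity) hX0.le
          _ ≤ (3 * a' : ℝ) ^ (1 : ℝ) * X ^ (1 - c) := by
            refine mul_le_mul_of_nonneg_right ?_ (by positivity)
            exact Real.rpow_le_rpow_of_exponent_le (by linarith) (by linarith)
          _ = _ := by rw [Real.rpow_one]
      calc C * (T ^ (κ / 2) + ((a' : ℝ) * Real.exp ((u : ℝ) + 1) / (q : ℝ) ^ 2) ^ (1 - c)) ≤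
            C * (X ^ (1 - c) + 3 * a' * X ^ (1 - c)) :=
            mul_le_mul_of_nonneg_left (add_le_add h2 h3) hC.le
        _ = C * (1 + 3 * a') * X ^ (1 - c) := by ring)
    K a' hK ha' δ hδ
  refine ⟨K0, hK0, fun κ hκ => ?_⟩
  obtain ⟨U0, hU0⟩ := hmain κ hκ
  refine ⟨U0, fun u hu h hh hhu f hf hfp R hR hRc => ?_⟩
  refine hU0 u hu h hh hhu f hf hfp R ?_ ?_ hRc
  · intro w hw
    obtain ⟨p, hp, hp1, hp2, hp3⟩ := hR w hw
    rw [hmem, hp3]
    push_cast
    constructor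
    · rw [mul_comm]
      exact mul_lt_mul_of_pos_right hp1 ha'0
    · rw [mul_comm]
      exact mul_le_mul_of_nonneg_left hp2 ha'0.le
  · intro w hw
    obtain ⟨p, hp, hp1, hp2, hp3⟩ := hR w hw
    refine ⟨p, hp, hp1, ?_⟩
    rw [hp3]
    exact Int.natAbs_natCast (p * a')

end WinF40

/-- **DJ**: the eigenvalues of the primes and of their conjugates differ (`j ≠ 0`). -/
theorem stDjG_40 (d K : ℕ) [NeZero K] : StDjG d K := stDjG_of WinF40.winF_40 d K

end Pool.Agent.Lib.MP_a17b09_nt.MRSG
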