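import Pool.Agent.Lib.MP_a17b09_nt.MRSG.Core29
import Pool.Agent.Lib.MP_a17b09_nt.MRSG.DecGD21
import Pool.Agent.Lib.MP_a17b09_nt.MRSG.HmuG96
import Pool.Agent.Lib.MP_a17b09_nt.MRSG.LevG38
import Pool.Agent.Lib.MP_a17b09_nt.MRSG.LipG42
import Pool.Agent.Lib.MP_a17b09_nt.MRSG.LsG29
import Pool.Agent.Lib.MP_a17b09_nt.MRSG.MerG7
import Pool.Agent.Lib.MP_a17b09_nt.MRSG.MomG16
import Pool.Agent.Lib.MP_a17b09_nt.MRSG.MrsG90
import Pool.Agent.Lib.MP_a17b09_nt.MRSG.Pa0G91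
import Pool.Agent.Lib.MP_a17b09_nt.MRSG.Pw0G29
import Pool.Agent.Lib.MP_a17b09_nt.MRSG.PwtS84
import Pool.Agent.Lib.MP_a17b09_nt.MRSG.StructD29
import Pool.Agent.Lib.MP_a17b09_nt.MRSG.TkhG12
import Pool.Agent.Lib.MP_a17b09_nt.MRSG.Uall39
import Pool.Agent.Lib.MP_a17b09_nt.MRSG.Up70
import Pool.Agent.Lib.MP_a17b09_nt.MRSG.WinF40
import Pool.Agent.Lib.MP_a17b09_nt.MRS.Sch27

/-!
Project MRSG: assembly of all rows, no hypotheses: the final statement for every polynomial of negative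
discriminant.
-/

set_option autoImplicit false

namespace Pool.Agent.Lib.MP_a17b09_nt.MRSG

open CH CH.PE Pool.Agent.Lib.MP_a17b09_nt.MRS

theorem stLevG_all90 {d : ℕ} (hd : 0 < d) (K : ℕ) [NeZero K] : StLevG d K :=
  stLevG_38 MRS.stSch_27 Dec21.stDecG_21 (stMomG_16 (stLsG_29 d K)) (stMom1G_16 (stLsG_29 d K))
    (stMerG_7 d K hd)

theorem stUpG_all90 (d K : ℕ) [NeZero K] : StUpG d K :=
  stUpG_70 d K (stUallG_39 d K (stTkhG_12 d K) (stDjG_40 d K)) (stHmuG_96 d K)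

theorem stPw0G_all90 (d K : ℕ) [NeZero K] : StPw0G d K :=
  stPw0G_29 d K (stPa0G_91 d K (stPwtG_84 d K) (stLipG_42 d K))

theorem stCoreG_all90 {d : ℕ} (hd : 0 < d) (K : ℕ) [NeZero K] : StCoreG d K :=
  stCoreG_29 d K (stLevG_all90 hd K) (stUpG_all90 d K) (stPw0G_all90 d K)

/-- the interface for every positive form of discriminant `-d` -/
theorem stMrsG_all90 {d : ℕ} (hd : 0 < d) : StMrsG d :=
  stMrsG_90 (fun K _ => stCoreG_all90 hd K) (fun _ _ => stParG_29)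

/-- the final statement for every polynomial of negative discriminant -/
theorem joint_all90 {a b c : ℤ} (ha : 0 < a) (hD : b ^ 2 - 4 * a * c < 0) {h : ℕ} (hh : 0 < h)
    (t₀ : ℕ) {α β : ℝ} (hα : 0 < α) (hαβ : α < β) : Joint a b c h t₀ α β := by
  obtain ⟨d, hd⟩ := Int.eq_ofNat_of_zero_le (show (0 : ℤ) ≤ 4 * a * c - b ^ 2 by linarith)
  have h0 : 0 < d := by
    have : (0 : ℤ) < d := by rw [← hd]; linarith
    exact_mod_cast this
  exact endC90 (stMrsG_all90 h0) ha hd hD hh t₀ hα hαβ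

end Pool.Agent.Lib.MP_a17b09_nt.MRSG
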