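import Pool.Agent.Lib.MP_a17b09_nt.CH.Sys68
import Pool.Agent.Lib.MP_a17b09_nt.MRS.Spec17

/-!
Project MRSG: the commuting similitudes of the classes of forms of discriminant `-d`.
Part A: matrices, directions, primes `(p, ±)`.
-/

set_option autoImplicit false

open Finset

namespace Pool.Agent.Lib.MP_a17b09_nt.MRSG

open CH

/-! ### matrices -/

/-- two matrices of determinant `n` with the same columns modulo each other -/
theorem mat_uniq {n : ℤ} (hn : n ≠ 0) {M M' : Mat} (h : M.det = n) (h' : M'.det = n)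
    (key : ∀ u u' : V, n ∣ wd (M.app u) (M'.app u')) : ∃ N : Mat, N.det = 1 ∧ M' = M.mul N := by
  obtain ⟨k1, hk1⟩ := key (0, 1) (1, 0)
  obtain ⟨k2, hk2⟩ := key (0, 1) (0, 1)
  obtain ⟨k3, hk3⟩ := key (1, 0) (1, 0)
  obtain ⟨k4, hk4⟩ := key (1, 0) (0, 1)
  have hd := h
  unfold Mat.det at hd
  simp only [Mat.app, wd, mul_zero, mul_one, zero_add, add_zero] at hk1 hk2 hk3 hk4
  have hM : M' = M.mul ⟨-k1, -k2, k3, k4⟩ := by
    apply Mat.ext <;> apply mul_left_cancel₀ hn <;> simp only [Mat.mul]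
    · have : n * (M.a * -k1 + M.b * k3) = - M.a * (n * k1) + M.b * (n * k3) := by ring
      rw [this, ← hk1, ← hk3, ← hd]; ring
    · have : n * (M.a * -k2 + M.b * k4) = - M.a * (n * k2) + M.b * (n * k4) := by ring
      rw [this, ← hk2, ← hk4, ← hd]; ring
    · have : n * (M.c * -k1 + M.d * k3) = - M.c * (n * k1) + M.d * (n * k3) := by ring
      rw [this, ← hk1, ← hk3, ← hd]; ring
    · have : n * (M.c * -k2 + M.d * k4) = - M.c * (n * k2) + M.d * (n * k4) := by ring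
      rw [this, ← hk2, ← hk4, ← hd]; ring
  refine ⟨⟨-k1, -k2, k3, k4⟩, ?_, hM⟩
  have h1 := Mat.det_mul M ⟨-k1, -k2, k3, k4⟩
  rw [← hM, h', h] at h1
  have h2 : n * 1 = n * (⟨-k1, -k2, k3, k4⟩ : Mat).det := by rw [mul_one]; exact h1
  exact (mul_left_cancel₀ hn h2).symm

/-- eigenvectors for another prime are preserved -/
theorem Rel.eig_app {p r p' r' : ℤ} (hco : IsCoprime p p') {Q Q' : Form} {M : Mat}
    (h : Rel p r Q Q' M) {w : V} (hw : Eig p' r' Q' w) : Eig p' r' Q (M.app w) := by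
  intro x
  have h1 := hw (M.adj.app x)
  have h2 : p * Q'.B (M.adj.app x) w = p * Q.B x (M.app w) := by
    rw [← h.polar, Mat.app_adj, h.det, Form.B_smul_left]
  have h3 : p * wd (M.adj.app x) w = p * wd x (M.app w) := by
    have := Mat.wd_app M (M.adj.app x) w
    rw [h.det] at this
    rw [← this, Mat.app_adj, h.det, wd_smul_left]
  have h4 : p' ∣ p * (Q.B x (M.app w) - r' * wd x (M.app w)) := by
    have h5 : p * (Q.B x (M.app w) - r' * wd x (M.app w)) =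
        p * (Q'.B (M.adj.app x) w - r' * wd (M.adj.app x) w) := by
      linear_combination (-1 : ℤ) * h2 + r' * h3
    rw [h5]
    exact Dvd.dvd.mul_left h1 p
  exact hco.symm.dvd_of_dvd_mul_left h4

/-- commutation of the similitudes of two different primes -/
theorem comm_rel {p r p' r' : ℤ} (hp : Prime p) (hp' : Prime p') (hr : ¬ p ∣ 2 * r)
    (hr' : ¬ p' ∣ 2 * r') (hco : IsCoprime p p') {Q Q1 Q2 Q1' Q2' : Form} {M1 M2 M1' M2' : Mat}
    (h1 : Rel p r Q Q1 M1) (h2 : Rel p' r' Q1 Q2 M2) (h1' : Rel p' r' Q Q1' M1')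
    (h2' : Rel p r Q1' Q2' M2') :
    ∃ N : Mat, N.det = 1 ∧ M1'.mul M2' = (M1.mul M2).mul N ∧ Q2' = Q2.comp N := by
  have hpp : p * p' ≠ 0 := mul_ne_zero hp.ne_zero hp'.ne_zero
  have e1 : ∀ u, Eig p r Q ((M1.mul M2).app u) := fun u => by
    rw [Mat.app_mul]; exact h1.eig _
  have e2 : ∀ u, Eig p' r' Q ((M1.mul M2).app u) := fun u => by
    rw [Mat.app_mul]; exact Rel.eig_app hco h1 (h2.eig u)
  have e1' : ∀ u, Eig p r Q ((M1'.mul M2').app u) := fun u => by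
    rw [Mat.app_mul]; exact Rel.eig_app hco.symm h1' (h2'.eig u)
  have e2' : ∀ u, Eig p' r' Q ((M1'.mul M2').app u) := fun u => by
    rw [Mat.app_mul]; exact h1'.eig _
  obtain ⟨N, hN, hN'⟩ := mat_uniq (n := p * p') hpp (M := M1.mul M2) (M' := M1'.mul M2')
    (by rw [Mat.det_mul, h1.det, h2.det]) (by rw [Mat.det_mul, h1'.det, h2'.det]; ring)
    (fun u u' => hco.mul_dvd (Eig.wd_dvd hp hr (e1 u) (e1' u'))
      (Eig.wd_dvd hp' hr' (e2 u) (e2' u')))
  refine ⟨N, hN, hN', ?_⟩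
  apply Form.ext_q
  intro v
  apply mul_left_cancel₀ hpp
  have a1 : Q.q ((M1'.mul M2').app v) = p * p' * Q2'.q v := by
    rw [Mat.app_mul, h1'.sim, h2'.sim]; ring
  have a2 : Q.q (((M1.mul M2).mul N).app v) = p * p' * Q2.q (N.app v) := by
    rw [Mat.app_mul, Mat.app_mul, h1.sim, h2.sim]; ring
  rw [← a1, hN', a2, Form.comp_q]

/-- commutation of the similitudes of a prime and its conjugate -/
theorem comm_rel_conj {p r : ℤ} (hp : Prime p) (hr : ¬ p ∣ 2 * r)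
    {Q Q1 Q2 Q1' Q2' : Form} {M1 M2 M1' M2' : Mat}
    (h1 : Rel p r Q Q1 M1) (h2 : Rel p (-r) Q1 Q2 M2) (h1' : Rel p (-r) Q Q1' M1')
    (h2' : Rel p r Q1' Q2' M2') :
    ∃ N : Mat, N.det = 1 ∧ M1'.mul M2' = (M1.mul M2).mul N ∧ Q2' = Q2.comp N := by
  have hr2 := neg_nd hr
  obtain ⟨N1, hN1, hN1', hQ1⟩ := (h1.inv hp.ne_zero).uniq hp hr2 h2
  have h1i := h1'.inv hp.ne_zero
  rw [neg_neg] at h1i
  obtain ⟨N2, hN2, hN2', hQ2⟩ := h1i.uniq hp hr h2'
  -- `M1 M2 = p N1`, `M1' M2' = p N2`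
  have f1 : ∀ v, (M1.mul M2).app v = p • N1.app v := fun v => by
    rw [hN1', Mat.app_mul, Mat.app_mul, Mat.app_adj, h1.det]
  have f2 : ∀ v, (M1'.mul M2').app v = p • N2.app v := fun v => by
    rw [hN2', Mat.app_mul, Mat.app_mul, Mat.app_adj, h1'.det]
  have hext : ∀ A B : Mat, (∀ v, A.app v = B.app v) → A = B := by
    intro A B h
    have a1 := h (1, 0)
    have a2 := h (0, 1)
    simp only [Mat.app, mul_one, mul_zero, add_zero, zero_add, Prod.mk.injEq] at a1 a2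
    exact Mat.ext a1.1 a2.1 a1.2 a2.2
  refine ⟨N1.adj.mul N2, by rw [Mat.det_mul, Mat.det_adj, hN1, hN2, one_mul], ?_, ?_⟩
  · apply hext
    intro v
    rw [f2, Mat.app_mul (M1.mul M2), f1, Mat.app_mul N1.adj, Mat.app_adj, hN1, one_smul]
  · rw [hQ2, hQ1, Form.comp_comp, ← Mat.mul_assoc', Mat.mul_adj hN1, Mat.one_mul']

/-! ### directions -/

/-- the complex number attached to a vector, `|lam|² = 4 a q` -/
noncomputable def lam (Q : Form) (v : V) : ℂ :=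
  (((2 * Q.a * v.1 + Q.b * v.2 : ℤ) : ℝ) : ℂ) + ((√(Q.D : ℝ) * v.2 : ℝ) : ℂ) * Complex.I

/-- the direction -/
noncomputable def uu (Q : Form) (v : V) : ℂ := lam Q v / (‖lam Q v‖ : ℂ)

theorem normSq_lam {Q : Form} (hQ : Q.Pos) (v : V) : ‖lam Q v‖ ^ 2 = 4 * Q.a * Q.q v := by
  have hD : (0 : ℝ) ≤ Q.D := by exact_mod_cast hQ.2.le
  unfold lam
  rw [Complex.sq_norm, Complex.normSq_add_mul_I, mul_pow, Real.sq_sqrt hD]
  unfold Form.D Form.q
  push_cast
  ring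

theorem lam_mul_conj {Q : Form} (hQ : Q.Pos) (v w : V) :
    lam Q v * (starRingEnd ℂ) (lam Q w) =
      2 * Q.a * ((Q.B v w : ℂ) - (√(Q.D : ℝ) : ℂ) * Complex.I * (wd v w : ℂ)) := by
  have hD : (0 : ℝ) ≤ Q.D := by exact_mod_cast hQ.2.le
  have hs : ((√(Q.D : ℝ) : ℝ) : ℂ) * ((√(Q.D : ℝ) : ℝ) : ℂ) = (Q.D : ℂ) := by
    rw [← Complex.ofReal_mul, Real.mul_self_sqrt hD]; simp
  have hDD : (Q.D : ℂ) = 4 * Q.a * Q.c - Q.b ^ 2 := by unfold Form.D; push_cast; ring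
  unfold lam
  simp only [map_add, map_mul, Complex.conj_ofReal, Complex.conj_I]
  unfold Form.B wd
  push_cast
  linear_combination (v.2 * w.2 : ℂ) * hs + (v.2 * w.2 : ℂ) * hDD -
    ((√(Q.D : ℝ) : ℂ) * (√(Q.D : ℝ) : ℂ) * v.2 * w.2) * Complex.I_mul_I

theorem lam_ne {Q : Form} (hQ : Q.Pos) {v : V} (hv : v ≠ 0) : lam Q v ≠ 0 := by
  intro h
  have h1 := normSq_lam hQ v
  rw [h, norm_zero] at h1
  have h2 : (0 : ℝ) < 4 * Q.a * Q.q v := by
    have ha : (0 : ℝ) < Q.a := by exact_mod_cast hQ.1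
    have hq : (0 : ℝ) < Q.q v := by exact_mod_cast hQ.q_pos hv
    positivity
  rw [← h1] at h2
  norm_num at h2

theorem norm_uu {Q : Form} (hQ : Q.Pos) {v : V} (hv : v ≠ 0) : ‖uu Q v‖ = 1 := by
  unfold uu
  rw [norm_div, Complex.norm_real, norm_norm, div_self (norm_ne_zero_iff.mpr (lam_ne hQ hv))]

theorem uu_ne {Q : Form} (hQ : Q.Pos) {v : V} (hv : v ≠ 0) : uu Q v ≠ 0 := by
  intro h
  have := norm_uu hQ hv
  rw [h, norm_zero] at this
  exact zero_ne_one this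

theorem uu_e1 {Q : Form} (hQ : Q.Pos) : uu Q (1, 0) = 1 := by
  have ha : (0 : ℝ) < Q.a := by exact_mod_cast hQ.1
  have h1 : lam Q (1, 0) = ((2 * Q.a : ℝ) : ℂ) := by
    unfold lam; push_cast; ring
  unfold uu
  rw [h1, Complex.norm_real, Real.norm_eq_abs, abs_of_pos (by linarith)]
  exact div_self (by
    rw [Ne, Complex.ofReal_eq_zero]
    positivity)

/-- the quotient of two directions -/
theorem uu_mul_conj {Q : Form} (hQ : Q.Pos) {v w : V} (hv : v ≠ 0) (hw : w ≠ 0) :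
    uu Q v * (starRingEnd ℂ) (uu Q w) =
      ((Q.B v w : ℂ) - (√(Q.D : ℝ) : ℂ) * Complex.I * (wd v w : ℂ)) /
        ((2 * √((Q.q v : ℝ) * Q.q w) : ℝ) : ℂ) := by
  have ha : (0 : ℝ) < Q.a := by exact_mod_cast hQ.1
  have hqv : (0 : ℝ) < Q.q v := by exact_mod_cast hQ.q_pos hv
  have hqw : (0 : ℝ) < Q.q w := by exact_mod_cast hQ.q_pos hw
  have hn : ‖lam Q v‖ * ‖lam Q w‖ = 2 * Q.a * (2 * √((Q.q v : ℝ) * Q.q w)) := by
    have h1 : (‖lam Q v‖ * ‖lam Q w‖) ^ 2 = (2 * Q.a * (2 * √((Q.q v : ℝ) * Q.q w))) ^ 2 := by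
      have hs := Real.sq_sqrt (show (0 : ℝ) ≤ (Q.q v : ℝ) * Q.q w by positivity)
      rw [mul_pow, normSq_lam hQ, normSq_lam hQ]
      linear_combination (-16 * (Q.a : ℝ) ^ 2) * hs
    exact (sq_eq_sq₀ (by positivity) (by positivity)).mp h1
  unfold uu
  rw [map_div₀, Complex.conj_ofReal, div_mul_div_comm, lam_mul_conj hQ, ← Complex.ofReal_mul, hn]
  push_cast
  have ha' : (2 * (Q.a : ℂ)) ≠ 0 := by
    have : (Q.a : ℂ) ≠ 0 := by exact_mod_cast ha.ne'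
    simpa using this
  rw [mul_div_mul_left _ _ ha']

/-- a direct similitude multiplies the directions by a constant -/
theorem uu_app {Q Q' : Form} (hQ : Q.Pos) (hQ' : Q'.Pos) (hD : Q.D = Q'.D) {M : Mat} {n : ℤ}
    (hn : 0 < n) (hdet : M.det = n) (hsim : ∀ u, Q.q (M.app u) = n * Q'.q u) {v : V} (hv : v ≠ 0) :
    uu Q (M.app v) = uu Q (M.app (1, 0)) * uu Q' v := by
  have hinj : ∀ w : V, w ≠ 0 → M.app w ≠ 0 := by
    intro w hw h0
    have h1 := Mat.adj_app M w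
    rw [h0, hdet] at h1
    have h2 : M.adj.app 0 = 0 := by unfold Mat.app; simp
    rw [h2] at h1
    exact hw ((smul_eq_zero.mp h1.symm).resolve_left hn.ne')
  have he : ((1, 0) : V) ≠ 0 := by simp
  have hpol : ∀ u u', Q.B (M.app u) (M.app u') = n * Q'.B u u' := by
    intro u u'
    have h1 := hsim (u + u')
    have h2 : M.app (u + u') = M.app u + M.app u' := by
      unfold Mat.app; ext <;> simp <;> ring
    rw [h2, Form.q_add, Form.q_add, hsim, hsim] at h1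
    linarith
  have hnr : (0 : ℝ) < n := by exact_mod_cast hn
  have h1 := uu_mul_conj hQ (hinj v hv) (hinj (1, 0) he)
  have h2 := uu_mul_conj hQ' hv he
  have hq : √((Q.q (M.app v) : ℝ) * Q.q (M.app (1, 0))) = n * √((Q'.q v : ℝ) * Q'.q (1, 0)) := by
    rw [hsim, hsim]
    have : ((n * Q'.q v : ℤ) : ℝ) * ((n * Q'.q (1, 0) : ℤ) : ℝ) =
        n ^ 2 * ((Q'.q v : ℝ) * Q'.q (1, 0)) := by push_cast; ring
    rw [this, Real.sqrt_mul (by positivity), Real.sqrt_sq hnr.le]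
  rw [hpol, Mat.wd_app, hdet, hq, hD] at h1
  have h3 : uu Q (M.app v) * (starRingEnd ℂ) (uu Q (M.app (1, 0))) =
      uu Q' v * (starRingEnd ℂ) (uu Q' (1, 0)) := by
    rw [h1, h2]
    have hnc : (n : ℂ) ≠ 0 := by exact_mod_cast hn.ne'
    push_cast
    rw [show ((n : ℂ) * (Q'.B v (1, 0) : ℂ) - (√(Q'.D : ℝ) : ℂ) * Complex.I *
        ((n : ℂ) * (wd v (1, 0) : ℂ))) = (n : ℂ) * ((Q'.B v (1, 0) : ℂ) -
          (√(Q'.D : ℝ) : ℂ) * Complex.I * (wd v (1, 0) : ℂ)) by ring,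
      show (2 * ((n : ℂ) * ((√((Q'.q v : ℝ) * Q'.q (1, 0)) : ℝ) : ℂ))) =
        (n : ℂ) * (2 * ((√((Q'.q v : ℝ) * Q'.q (1, 0)) : ℝ) : ℂ)) by ring,
      mul_div_mul_left _ _ hnc]
  rw [uu_e1 hQ', map_one, mul_one] at h3
  have h4 : (starRingEnd ℂ) (uu Q (M.app (1, 0))) * uu Q (M.app (1, 0)) = 1 := by
    rw [mul_comm, Complex.mul_conj, Complex.normSq_eq_norm_sq, norm_uu hQ (hinj _ he)]
    norm_num
  rw [← h3]
  linear_combination (-uu Q (M.app v)) * h4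

/-! ### the primes `(p, ±)` -/

/-- `p` is a split prime, prime to `2 d K` -/
def Spl (d K p : ℕ) : Prop := p.Prime ∧ ¬ p ∣ 2 * d * K ∧ ∃ r : ℤ, (p : ℤ) ∣ r ^ 2 + d

theorem not_dvd_root {p d : ℕ} (hp : p.Prime) (h2 : ¬ p ∣ 2 * d) {r : ℤ}
    (hr : (p : ℤ) ∣ r ^ 2 + d) : ¬ (p : ℤ) ∣ 2 * r := by
  have hpp : Prime (p : ℤ) := Nat.prime_iff_prime_int.1 hp
  intro h3
  rcases hpp.dvd_or_dvd h3 with h5 | h5
  · apply h2
    have : p ∣ 2 := by exact_mod_cast h5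
    exact Dvd.dvd.mul_right this d
  · apply h2
    have h6 : (p : ℤ) ∣ d := by
      have := dvd_sub hr (Dvd.dvd.mul_left h5 r)
      have h7 : r ^ 2 + (d : ℤ) - r * r = d := by ring
      rwa [h7] at this
    exact Dvd.dvd.mul_left (by exact_mod_cast h6) 2

/-- the permutation and the matrices of a split prime -/
theorem exists_permG {p d : ℕ} (hp : p.Prime) (h2 : ¬ p ∣ 2 * d)
    (h : ∃ r : ℤ, (p : ℤ) ∣ r ^ 2 + d) :
    ∃ (r : ℤ) (s : Equiv.Perm (Cl d)) (M : Cl d → Mat), (p : ℤ) ∣ r ^ 2 + d ∧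
      ∀ i, Rel p r (rep i) (rep (s i)) (M i) := by
  obtain ⟨r, h1⟩ := h
  have h2 := not_dvd_root hp h2 h1
  have hpp : Prime (p : ℤ) := Nat.prime_iff_prime_int.1 hp
  have hp0 : (0 : ℤ) < p := by exact_mod_cast hp.pos
  have hex := fun i : Cl d => CRel.exists' hpp hp0 h2 h1 i
  choose f hf using hex
  have hinj : Function.Injective f := by
    intro i i' hii
    have e1 := (hf i).inv hpp
    have e2 := (hf i').inv hpp
    rw [← hii] at e2
    exact e1.uniq hpp (neg_nd h2) e2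
  have hbij : Function.Bijective f := Finite.injective_iff_bijective.1 hinj
  choose M hM using hf
  exact ⟨r, Equiv.ofBijective f hbij, M, h1, hM⟩

open Classical in
/-- a root of `-d` modulo `p` -/
noncomputable def rt (d p : ℕ) : ℤ :=
  if h : p.Prime ∧ ¬ p ∣ 2 * d ∧ ∃ r : ℤ, (p : ℤ) ∣ r ^ 2 + d then
    (exists_permG h.1 h.2.1 h.2.2).choose else 0

open Classical in
/-- the permutation of the classes belonging to the root -/
noncomputable def sG (d p : ℕ) : Equiv.Perm (Cl d) :=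
  if h : p.Prime ∧ ¬ p ∣ 2 * d ∧ ∃ r : ℤ, (p : ℤ) ∣ r ^ 2 + d then
    (exists_permG h.1 h.2.1 h.2.2).choose_spec.choose else Equiv.refl _

open Classical in
/-- the matrices belonging to the root -/
noncomputable def mG (d p : ℕ) : Cl d → Mat :=
  if h : p.Prime ∧ ¬ p ∣ 2 * d ∧ ∃ r : ℤ, (p : ℤ) ∣ r ^ 2 + d then
    (exists_permG h.1 h.2.1 h.2.2).choose_spec.choose_spec.choose else fun _ => Mat.one

theorem rt_spec {d p : ℕ} (hp : p.Prime) (h2 : ¬ p ∣ 2 * d)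
    (h : ∃ r : ℤ, (p : ℤ) ∣ r ^ 2 + d) : (p : ℤ) ∣ rt d p ^ 2 + d ∧
      ∀ i, Rel p (rt d p) (rep i) (rep (sG d p i)) (mG d p i) := by
  have hh : p.Prime ∧ ¬ p ∣ 2 * d ∧ ∃ r : ℤ, (p : ℤ) ∣ r ^ 2 + d := ⟨hp, h2, h⟩
  have := (exists_permG hh.1 hh.2.1 hh.2.2).choose_spec.choose_spec.choose_spec
  unfold rt sG mG
  rw [dif_pos hh, dif_pos hh, dif_pos hh]
  exact this

/-- permutation of the classes -/
noncomputable def sg (d : ℕ) (P : ℕ × Bool) : Equiv.Perm (Cl d) :=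
  if P.2 then sG d P.1 else (sG d P.1).symm

/-- matrices -/
noncomputable def Mg (d : ℕ) (P : ℕ × Bool) (i : Cl d) : Mat :=
  if P.2 then mG d P.1 i else (mG d P.1 ((sG d P.1).symm i)).adj

/-- the signed root -/
noncomputable def rg (d : ℕ) (P : ℕ × Bool) : ℤ := if P.2 then rt d P.1 else -rt d P.1

/-- admissible primes: all split primes prime to `2 d K`, with a sign -/
def Adm (d K : ℕ) (P : ℕ × Bool) : Prop := Spl d K P.1

theorem Adm.prime {d K : ℕ} {P : ℕ × Bool} (h : Adm d K P) : P.1.Prime := h.1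

theorem Adm.nd {d K : ℕ} {P : ℕ × Bool} (h : Adm d K P) : ¬ P.1 ∣ 2 * d :=
  fun h1 => h.2.1 (Dvd.dvd.mul_right h1 K)

theorem Adm.cop {d K : ℕ} {P : ℕ × Bool} (h : Adm d K P) : Nat.Coprime P.1 K :=
  (Nat.Prime.coprime_iff_not_dvd h.1).mpr fun h1 => h.2.1 (Dvd.dvd.mul_left h1 (2 * d))

/-- the primes `1 mod 4 d` and `1 mod K` -/
theorem adm_of_one {d K p : ℕ} (b : Bool) (hp : p.Prime) (hd : 0 < d) (hK : 0 < K)
    (h4 : p ≡ 1 [MOD 4 * d]) (h1 : p ≡ 1 [MOD K]) : Adm d K (p, b) := by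
  obtain ⟨r, hr, -⟩ := exists_root hp hd h4
  have key : ∀ m : ℕ, 0 < m → p ≡ 1 [MOD m] → Nat.Coprime p m := by
    intro m _ hm
    have := Nat.ModEq.gcd_eq hm
    rw [Nat.gcd_one_left] at this
    exact this
  have c1 := key (4 * d) (by positivity) h4
  have c2 := key K hK h1
  have c3 : Nat.Coprime p (2 * d) := Nat.Coprime.coprime_dvd_right ⟨2, by ring⟩ c1
  refine ⟨hp, ?_, r, hr⟩
  exact (Nat.Prime.coprime_iff_not_dvd hp).mp (Nat.Coprime.mul_right c3 c2)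

theorem rg_sq {d K : ℕ} {P : ℕ × Bool} (h : Adm d K P) : (P.1 : ℤ) ∣ rg d P ^ 2 + d := by
  have := (rt_spec h.1 h.nd h.2.2).1
  unfold rg
  split_ifs
  · exact this
  · rw [neg_sq]; exact this

theorem rel_g {d K : ℕ} {P : ℕ × Bool} (h : Adm d K P) (i : Cl d) :
    ¬ (P.1 : ℤ) ∣ 2 * rg d P ∧ Rel P.1 (rg d P) (rep i) (rep (sg d P i)) (Mg d P i) := by
  refine ⟨not_dvd_root h.1 h.nd (rg_sq h), ?_⟩
  obtain ⟨-, h2⟩ := rt_spec h.1 h.nd h.2.2
  obtain ⟨p, b⟩ := P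
  cases b with
  | true => exact h2 i
  | false =>
    have h3 := (h2 ((sG d p).symm i)).inv (by exact_mod_cast h.1.ne_zero)
    rw [Equiv.apply_symm_apply] at h3
    exact h3

/-- the product of the matrices of a prime and its conjugate -/
theorem Mg_conj {d K : ℕ} {p : ℕ} {b : Bool} (h : Adm d K (p, b)) (i : Cl d) (v : V) :
    sg d (p, !b) (sg d (p, b) i) = i ∧
      (Mg d (p, b) i).app ((Mg d (p, !b) (sg d (p, b) i)).app v) = (p : ℤ) • v := by
  cases b with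
  | true =>
    refine ⟨Equiv.symm_apply_apply _ _, ?_⟩
    have h1 := ((rt_spec h.1 h.nd h.2.2).2 i).det
    show (mG d p i).app ((mG d p ((sG d p).symm (sG d p i))).adj.app v) = (p : ℤ) • v
    rw [Equiv.symm_apply_apply, Mat.app_adj, h1]
  | false =>
    refine ⟨Equiv.apply_symm_apply _ _, ?_⟩
    have h1 := ((rt_spec h.1 h.nd h.2.2).2 ((sG d p).symm i)).det
    show (mG d p ((sG d p).symm i)).adj.app ((mG d p ((sG d p).symm i)).app v) = (p : ℤ) • v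
    rw [Mat.adj_app, h1]

end Pool.Agent.Lib.MP_a17b09_nt.MRSG
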