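import Pool.Agent.Lib.MP_a17b09_nt.CH.StmtsE17
import Pool.Agent.Lib.MP_a17b09_nt.MRSG.StructA17

/-!
Project MRSG: the commuting similitudes of the classes of forms of discriminant `-d`.
Part B: the unitary maps `U_P(j)`, the space `E_j`, the joint eigenbasis.
-/

set_option autoImplicit false

open Finset Module

namespace Pool.Agent.Lib.MP_a17b09_nt.MRSG

open CH CH.PE

/-! ### classes modulo `K` -/

section classes

variable {K : ℕ}

/-- scalar multiplication of classes -/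
def sc (c : ZMod K) (α : ZMod K × ZMod K) : ZMod K × ZMod K := (c * α.1, c * α.2)

/-- inverse action of a matrix on the classes -/
def ai (A : Mat) (α : ZMod K × ZMod K) : ZMod K × ZMod K :=
  az A.adj (sc (((A.det : ℤ) : ZMod K)⁻¹) α)

theorem az_mul (A B : Mat) (α : ZMod K × ZMod K) : az (A.mul B) α = az A (az B α) := by
  unfold az Mat.mul
  apply Prod.ext <;> push_cast <;> ring

theorem az_sc (A : Mat) (c : ZMod K) (α : ZMod K × ZMod K) : az A (sc c α) = sc c (az A α) := by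
  unfold az sc
  apply Prod.ext <;> ring

theorem sc_sc (c c' : ZMod K) (α : ZMod K × ZMod K) : sc c (sc c' α) = sc (c * c') α := by
  unfold sc
  apply Prod.ext <;> ring

theorem sc_one (α : ZMod K × ZMod K) : sc 1 α = α := by
  unfold sc
  simp

theorem az_adj' (A : Mat) (α : ZMod K × ZMod K) :
    az A (az A.adj α) = sc ((A.det : ℤ) : ZMod K) α := by
  unfold az Mat.adj Mat.det sc
  apply Prod.ext <;> push_cast <;> ring

theorem adj_az' (A : Mat) (α : ZMod K × ZMod K) :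
    az A.adj (az A α) = sc ((A.det : ℤ) : ZMod K) α := by
  unfold az Mat.adj Mat.det sc
  apply Prod.ext <;> push_cast <;> ring

theorem az_ai {A : Mat} (h : IsUnit ((A.det : ℤ) : ZMod K)) (α : ZMod K × ZMod K) :
    az A (ai A α) = α := by
  unfold ai
  rw [az_adj', sc_sc, ZMod.mul_inv_of_unit _ h, sc_one]

theorem ai_az {A : Mat} (h : IsUnit ((A.det : ℤ) : ZMod K)) (α : ZMod K × ZMod K) :
    ai A (az A α) = α := by
  unfold ai
  rw [az_sc, adj_az', sc_sc, mul_comm, ZMod.mul_inv_of_unit _ h, sc_one]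

theorem ai_of_det_one {A : Mat} (h : A.det = 1) (α : ZMod K × ZMod K) : ai A α = az A.adj α := by
  have h1 : ((1 : ZMod K))⁻¹ = 1 := by
    have := ZMod.mul_inv_of_unit (1 : ZMod K) isUnit_one
    rwa [one_mul] at this
  unfold ai
  rw [h, Int.cast_one, h1, sc_one]

theorem az_inj {A : Mat} (h : IsUnit ((A.det : ℤ) : ZMod K)) {α β : ZMod K × ZMod K}
    (he : az A α = az A β) : α = β := by
  rw [← ai_az h α, he, ai_az h]

theorem cl_app' (A : Mat) (v : V) : cl K (A.app v) = az A (cl K v) := by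
  unfold cl az Mat.app
  push_cast
  rfl

theorem cl_smul' (c : ℤ) (v : V) : cl K (c • v) = sc (c : ZMod K) (cl K v) := by
  unfold cl sc
  simp

theorem adj_adj (A : Mat) : A.adj.adj = A := by
  unfold Mat.adj
  simp

theorem adj_mul_rev (A B : Mat) : (A.mul B).adj = B.adj.mul A.adj := by
  unfold Mat.adj Mat.mul
  apply Mat.ext <;> simp <;> ring

end classes

/-! ### automorphisms -/

theorem comp_adj_of {Q Q' : Form} {γ : Mat} (h1 : γ.det = 1) (h : Q.comp γ = Q') :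
    Q'.comp γ.adj = Q := by
  rw [← h, Form.comp_comp, Mat.mul_adj h1, Form.comp_one]

theorem app_ne {A : Mat} (h : A.det ≠ 0) {v : V} (hv : v ≠ 0) : A.app v ≠ 0 := by
  intro h0
  have h1 := Mat.adj_app A v
  rw [h0] at h1
  have h2 : A.adj.app 0 = 0 := by unfold Mat.app; simp
  rw [h2] at h1
  exact hv ((smul_eq_zero.mp h1.symm).resolve_left h)

theorem e1_ne : ((1, 0) : V) ≠ 0 := by simp

theorem uu_auto {Q : Form} (hQ : Q.Pos) {γ : Mat} (h1 : γ.det = 1) (h : Q.comp γ = Q) {v : V}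
    (hv : v ≠ 0) : uu Q (γ.app v) = uu Q (γ.app (1, 0)) * uu Q v :=
  uu_app hQ hQ rfl one_pos h1 (fun u => by rw [← Form.comp_q, h, one_mul]) hv

/-- a positive multiple has the same direction -/
theorem uu_smul (Q : Form) {n : ℤ} (hn : 0 < n) (v : V) : uu Q (n • v) = uu Q v := by
  have hl : lam Q (n • v) = ((n : ℝ) : ℂ) * lam Q v := by
    unfold lam
    simp only [Prod.smul_fst, Prod.smul_snd, smul_eq_mul]
    push_cast
    ring
  have hnr : (0 : ℝ) < n := by exact_mod_cast hn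
  unfold uu
  rw [hl, norm_mul, Complex.norm_real, Real.norm_eq_abs, abs_of_pos hnr]
  push_cast
  have hnc : (n : ℂ) ≠ 0 := by exact_mod_cast hn.ne'
  rw [mul_div_mul_left _ _ hnc]

section main

variable {d K : ℕ}

theorem uu_M {P : ℕ × Bool} (h : Adm d K P) (i : Cl d) {v : V} (hv : v ≠ 0) :
    uu (rep i) ((Mg d P i).app v) =
      uu (rep i) ((Mg d P i).app (1, 0)) * uu (rep (sg d P i)) v := by
  have hr := (rel_g h i).2
  exact uu_app (rep_pos i) (rep_pos _) (by rw [rep_D, rep_D]) (by exact_mod_cast h.1.pos) hr.det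
    hr.sim hv

theorem unit_p {P : ℕ × Bool} (h : Adm d K P) : IsUnit ((P.1 : ℕ) : ZMod K) :=
  (ZMod.isUnit_iff_coprime P.1 K).mpr h.cop

theorem unit_M {P : ℕ × Bool} (h : Adm d K P) (i : Cl d) :
    IsUnit (((Mg d P i).det : ℤ) : ZMod K) := by
  rw [(rel_g h i).2.det]
  have := unit_p h
  simpa using this

theorem det_ne {P : ℕ × Bool} (h : Adm d K P) (i : Cl d) : (Mg d P i).det ≠ 0 := by
  rw [(rel_g h i).2.det]
  exact_mod_cast h.1.ne_zero

/-- all pairs of primes commute up to automorphisms -/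
theorem comm_all {P P' : ℕ × Bool} (h : Adm d K P) (h' : Adm d K P') (i : Cl d) :
    ∃ N : Mat, N.det = 1 ∧ (Mg d P' i).mul (Mg d P (sg d P' i)) =
      ((Mg d P i).mul (Mg d P' (sg d P i))).mul N ∧
      rep (sg d P (sg d P' i)) = (rep (sg d P' (sg d P i))).comp N := by
  by_cases hPP : P = P'
  · subst hPP
    refine ⟨Mat.one, Mat.det_one, ?_, ?_⟩
    · rw [Mat.mul_one']
    · rw [Form.comp_one]
  have hp : Prime (P.1 : ℤ) := Nat.prime_iff_prime_int.1 h.1
  have hp' : Prime (P'.1 : ℤ) := Nat.prime_iff_prime_int.1 h'.1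
  obtain ⟨hr, R1⟩ := rel_g h i
  obtain ⟨hr', R1'⟩ := rel_g h' i
  have R2 := (rel_g h' (sg d P i)).2
  have R2' := (rel_g h (sg d P' i)).2
  by_cases hpp : P.1 = P'.1
  · have hb : P.2 ≠ P'.2 := fun hb => hPP (Prod.ext hpp hb)
    have hrr : rg d P' = -rg d P := by
      unfold rg
      rw [← hpp]
      cases h1 : P.2 <;> cases h2 : P'.2 <;> simp_all
    rw [← hpp, hrr] at R2 R1'
    exact comm_rel_conj hp hr R1 R2 R1' R2'
  · have hco : IsCoprime (P.1 : ℤ) (P'.1 : ℤ) :=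
      Nat.isCoprime_iff_coprime.mpr ((Nat.coprime_primes h.1 h'.1).mpr hpp)
    exact comm_rel hp hp' hr hr' hco R1 R2 R1' R2'

theorem sg_comm {P P' : ℕ × Bool} (h : Adm d K P) (h' : Adm d K P') (i : Cl d) :
    sg d P (sg d P' i) = sg d P' (sg d P i) := by
  obtain ⟨N, h1, -, h2⟩ := comm_all h h' i
  exact (rep_inj ⟨N, h1, h2⟩).symm

end main

/-! ### the unitary maps -/

/-- functions on the pairs (class of forms, class modulo `K`) -/
abbrev Hs (d K : ℕ) : Type := EuclideanSpace ℂ (Cl d × (ZMod K × ZMod K))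

section unitary

variable {d K : ℕ} [NeZero K]

/-- the permutation of the pairs (class of forms, class modulo `K`) -/
noncomputable def jE {P : ℕ × Bool} (h : Adm d K P) :
    (Cl d × (ZMod K × ZMod K)) ≃ (Cl d × (ZMod K × ZMod K)) where
  toFun ia := (sg d P ia.1, ai (Mg d P ia.1) ia.2)
  invFun kb := ((sg d P).symm kb.1, az (Mg d P ((sg d P).symm kb.1)) kb.2)
  left_inv ia := by
    apply Prod.ext
    · exact Equiv.symm_apply_apply _ _
    · simp only [Equiv.symm_apply_apply]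
      exact az_ai (unit_M h ia.1) ia.2
  right_inv kb := by
    apply Prod.ext
    · exact Equiv.apply_symm_apply _ _
    · exact ai_az (unit_M h _) kb.2

/-- the unitary map of the prime `P` for the frequency `j` -/
noncomputable def Ug (d K : ℕ) [NeZero K] (P : ℕ × Bool) (j : ℤ) : Hs d K →ₗ[ℂ] Hs d K where
  toFun x := WithLp.toLp 2 (fun ia => uu (rep ia.1) ((Mg d P ia.1).app (1, 0)) ^ j *
    x (sg d P ia.1, ai (Mg d P ia.1) ia.2))
  map_add' x y := by
    ext ia
    simp only [PiLp.add_apply]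
    ring
  map_smul' c x := by
    ext ia
    simp only [PiLp.smul_apply, smul_eq_mul, RingHom.id_apply]
    ring

theorem Ug_apply (P : ℕ × Bool) (j : ℤ) (x : Hs d K) (i : Cl d) (α : ZMod K × ZMod K) :
    Ug d K P j x (i, α) = uu (rep i) ((Mg d P i).app (1, 0)) ^ j *
      x (sg d P i, ai (Mg d P i) α) := rfl

/-- the unitary map of a scalar -/
noncomputable def Rn (d K : ℕ) [NeZero K] (n : (ZMod K)ˣ) : Hs d K →ₗ[ℂ] Hs d K where
  toFun x := WithLp.toLp 2 (fun ia => x (ia.1, sc ((n⁻¹ : (ZMod K)ˣ) : ZMod K) ia.2))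
  map_add' x y := by
    ext ia
    simp only [PiLp.add_apply]
  map_smul' c x := by
    ext ia
    simp only [PiLp.smul_apply, smul_eq_mul, RingHom.id_apply]

theorem Rn_apply (n : (ZMod K)ˣ) (x : Hs d K) (i : Cl d) (α : ZMod K × ZMod K) :
    Rn d K n x (i, α) = x (i, sc ((n⁻¹ : (ZMod K)ˣ) : ZMod K) α) := rfl

theorem norm_phase {P : ℕ × Bool} (h : Adm d K P) (i : Cl d) (j : ℤ) :
    ‖uu (rep i) ((Mg d P i).app (1, 0)) ^ j‖ = 1 := by
  rw [norm_zpow, norm_uu (rep_pos i) (app_ne (det_ne h i) e1_ne), one_zpow]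

theorem Ug_inner {P : ℕ × Bool} (h : Adm d K P) (j : ℤ) (x y : Hs d K) :
    inner ℂ (Ug d K P j x) (Ug d K P j y) = inner ℂ x y := by
  rw [PiLp.inner_apply, PiLp.inner_apply]
  rw [← Equiv.sum_comp (jE h) (fun ia => inner ℂ (x ia) (y ia))]
  refine Finset.sum_congr rfl fun ia _ => ?_
  obtain ⟨i, α⟩ := ia
  rw [Ug_apply, Ug_apply, ← smul_eq_mul, ← smul_eq_mul, inner_smul_left, inner_smul_right,
    ← mul_assoc]
  have h1 : (starRingEnd ℂ) (uu (rep i) ((Mg d P i).app (1, 0)) ^ j) *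
      uu (rep i) ((Mg d P i).app (1, 0)) ^ j = 1 := by
    rw [mul_comm, Complex.mul_conj, Complex.normSq_eq_norm_sq, norm_phase h i j]
    norm_num
  rw [h1, one_mul]
  rfl

theorem Rn_inner (n : (ZMod K)ˣ) (x y : Hs d K) :
    inner ℂ (Rn d K n x) (Rn d K n y) = inner ℂ x y := by
  have hsc : ∀ (m : (ZMod K)ˣ) (α : ZMod K × ZMod K),
      sc (m : ZMod K) (sc ((m⁻¹ : (ZMod K)ˣ) : ZMod K) α) = α := by
    intro m α
    rw [sc_sc, Units.mul_inv, sc_one]
  have hsc' : ∀ (m : (ZMod K)ˣ) (α : ZMod K × ZMod K),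
      sc ((m⁻¹ : (ZMod K)ˣ) : ZMod K) (sc (m : ZMod K) α) = α := by
    intro m α
    rw [sc_sc, Units.inv_mul, sc_one]
  let e : (Cl d × (ZMod K × ZMod K)) ≃ (Cl d × (ZMod K × ZMod K)) :=
    { toFun := fun ia => (ia.1, sc ((n⁻¹ : (ZMod K)ˣ) : ZMod K) ia.2)
      invFun := fun ia => (ia.1, sc (n : ZMod K) ia.2)
      left_inv := fun ia => by simp only [hsc]
      right_inv := fun ia => by simp only [hsc'] }
  rw [PiLp.inner_apply, PiLp.inner_apply]
  exact Equiv.sum_comp e (fun ia => inner ℂ (x ia) (y ia))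

/-- the vectors with the symmetry of the automorphisms -/
noncomputable def Ej (d K : ℕ) [NeZero K] (j : ℤ) : Submodule ℂ (Hs d K) where
  carrier := {x | ∀ (i : Cl d) (γ : Mat), γ.det = 1 → (rep i).comp γ = rep i →
    ∀ α, x (i, az γ α) = uu (rep i) (γ.app (1, 0)) ^ j * x (i, α)}
  add_mem' := by
    intro x y hx hy i γ h1 h2 α
    simp only [PiLp.add_apply]
    rw [hx i γ h1 h2 α, hy i γ h1 h2 α]
    ring
  zero_mem' := by
    intro i γ _ _ α
    simp
  smul_mem' := by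
    intro c x hx i γ h1 h2 α
    simp only [PiLp.smul_apply, smul_eq_mul]
    rw [hx i γ h1 h2 α]
    ring

theorem mem_Ej {j : ℤ} {x : Hs d K} : x ∈ Ej d K j ↔ ∀ (i : Cl d) (γ : Mat), γ.det = 1 →
    (rep i).comp γ = rep i → ∀ α, x (i, az γ α) = uu (rep i) (γ.app (1, 0)) ^ j * x (i, α) :=
  Iff.rfl

theorem Ug_mem {P : ℕ × Bool} (h : Adm d K P) (j : ℤ) {x : Hs d K}
    (hx : x ∈ Ej d K j) : Ug d K P j x ∈ Ej d K j := by
  intro i γ h1 h2 α
  have hp : Prime (P.1 : ℤ) := Nat.prime_iff_prime_int.1 h.1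
  obtain ⟨hr, R⟩ := rel_g h i
  have hadj : γ.adj.det = 1 := by rw [Mat.det_adj, h1]
  have hcomp : (rep i).comp γ.adj = rep i := comp_adj_of h1 h2
  have R' := R.left hadj
  rw [hcomp, adj_adj] at R'
  obtain ⟨N, hN, hN', hQ⟩ := R.uniq hp hr R'
  have hdet := unit_M h i
  have haz : ai (Mg d P i) (az γ α) = az N (ai (Mg d P i) α) := by
    apply az_inj hdet
    rw [az_ai hdet, ← az_mul, ← hN', az_mul, az_ai hdet]
  rw [Ug_apply, Ug_apply, haz, hx _ N hN hQ.symm]
  have hNe : N.app (1, 0) ≠ 0 := app_ne (by rw [hN]; exact one_ne_zero) e1_ne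
  have p1 := uu_M h i hNe
  rw [← Mat.app_mul, ← hN', Mat.app_mul,
    uu_auto (rep_pos i) h1 h2 (app_ne (det_ne h i) e1_ne)] at p1
  have p2 : uu (rep i) ((Mg d P i).app (1, 0)) ^ j * uu (rep (sg d P i)) (N.app (1, 0)) ^ j =
      uu (rep i) (γ.app (1, 0)) ^ j * uu (rep i) ((Mg d P i).app (1, 0)) ^ j := by
    rw [← mul_zpow, ← mul_zpow, ← p1]
  rw [← mul_assoc, ← mul_assoc, p2]

theorem Rn_mem (n : (ZMod K)ˣ) (j : ℤ) {x : Hs d K} (hx : x ∈ Ej d K j) :
    Rn d K n x ∈ Ej d K j := by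
  intro i γ h1 h2 α
  rw [Rn_apply, Rn_apply, ← az_sc, hx i γ h1 h2]

theorem Ug_comm {P P' : ℕ × Bool} (h : Adm d K P) (h' : Adm d K P') (j : ℤ)
    {x : Hs d K} (hx : x ∈ Ej d K j) :
    Ug d K P j (Ug d K P' j x) = Ug d K P' j (Ug d K P j x) := by
  ext ia
  obtain ⟨i, α⟩ := ia
  obtain ⟨N, hN, hA, hQ⟩ := comm_all h h' i
  have hl := sg_comm h h' i
  rw [hl] at hQ
  rw [Ug_apply, Ug_apply, Ug_apply, Ug_apply, hl]
  -- the first product
  set l := sg d P' (sg d P i) with hldef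
  have hNa : N.adj.det = 1 := by rw [Mat.det_adj, hN]
  have hQ' : (rep l).comp N.adj = rep l := comp_adj_of hN hQ.symm
  have hNu : IsUnit ((N.det : ℤ) : ZMod K) := by rw [hN, Int.cast_one]; exact isUnit_one
  have f1 : ai (Mg d P (sg d P' i)) (ai (Mg d P' i) α) =
      az N.adj (ai (Mg d P' (sg d P i)) (ai (Mg d P i) α)) := by
    apply az_inj (unit_M h (sg d P' i))
    apply az_inj (unit_M h' i)
    rw [az_ai (unit_M h _), az_ai (unit_M h' _), ← az_mul, hA, az_mul, az_mul, az_adj', hN,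
      Int.cast_one, sc_one, az_ai (unit_M h' _), az_ai (unit_M h _)]
  rw [f1, hx l N.adj hNa hQ']
  -- phases
  have g2 : uu (rep i) ((Mg d P' i).app ((Mg d P (sg d P' i)).app (1, 0))) =
      uu (rep i) ((Mg d P' i).app (1, 0)) * uu (rep (sg d P' i)) ((Mg d P (sg d P' i)).app (1, 0)) :=
    uu_M h' i (app_ne (det_ne h _) e1_ne)
  have hNe : N.app (1, 0) ≠ 0 := app_ne (by rw [hN]; exact one_ne_zero) e1_ne
  have g3 : uu (rep i) ((Mg d P' i).app ((Mg d P (sg d P' i)).app (1, 0))) =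
      uu (rep i) ((Mg d P i).app (1, 0)) * uu (rep (sg d P i)) ((Mg d P' (sg d P i)).app (1, 0)) *
        uu (rep l) (N.app (1, 0)) := by
    rw [← Mat.app_mul, hA, Mat.app_mul, Mat.app_mul,
      uu_M h i (app_ne (det_ne h' _) hNe), uu_M h' _ hNe, mul_assoc]
  have g4 : uu (rep l) (N.app (1, 0)) * uu (rep l) (N.adj.app (1, 0)) = 1 := by
    have hNae : N.adj.app (1, 0) ≠ 0 := app_ne (by rw [hNa]; exact one_ne_zero) e1_ne
    rw [← uu_auto (rep_pos l) hN hQ.symm hNae, Mat.app_adj, hN, one_smul, uu_e1 (rep_pos l)]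
  rw [g2] at g3
  have g5 : uu (rep i) ((Mg d P' i).app (1, 0)) ^ j *
      uu (rep (sg d P' i)) ((Mg d P (sg d P' i)).app (1, 0)) ^ j *
      uu (rep l) (N.adj.app (1, 0)) ^ j = uu (rep i) ((Mg d P i).app (1, 0)) ^ j *
      uu (rep (sg d P i)) ((Mg d P' (sg d P i)).app (1, 0)) ^ j := by
    rw [← mul_zpow, ← mul_zpow, ← mul_zpow, g3, mul_assoc, g4, mul_one]
  rw [← mul_assoc, ← mul_assoc, ← mul_assoc, g5]

omit [NeZero K] in
theorem ai_sc (A : Mat) (c : ZMod K) (α : ZMod K × ZMod K) : ai A (sc c α) = sc c (ai A α) := by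
  unfold ai
  rw [sc_sc, mul_comm, ← sc_sc, az_sc]

theorem Rn_Ug (n : (ZMod K)ˣ) (P : ℕ × Bool) (j : ℤ) (x : Hs d K) :
    Rn d K n (Ug d K P j x) = Ug d K P j (Rn d K n x) := by
  ext ia
  obtain ⟨i, α⟩ := ia
  rw [Rn_apply, Ug_apply, Ug_apply, Rn_apply, ai_sc]

theorem Rn_comm (n m : (ZMod K)ˣ) (x : Hs d K) :
    Rn d K n (Rn d K m x) = Rn d K m (Rn d K n x) := by
  ext ia
  obtain ⟨i, α⟩ := ia
  rw [Rn_apply, Rn_apply, Rn_apply, Rn_apply, sc_sc, sc_sc, mul_comm]

/-- the product of the maps of a prime and its conjugate is a scalar map -/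
theorem Ug_conj {p : ℕ} {b : Bool} (h : Adm d K (p, b)) (j : ℤ) (x : Hs d K) :
    Ug d K (p, b) j (Ug d K (p, !b) j x) = Rn d K (ZMod.unitOfCoprime p h.cop) x := by
  have h' : Adm d K (p, !b) := h
  ext ia
  obtain ⟨i, α⟩ := ia
  have h1 := (Mg_conj h i (0 : V)).1
  have h2 := fun v => (Mg_conj h i v).2
  rw [Ug_apply, Ug_apply, Rn_apply, h1, ← mul_assoc, ← mul_zpow,
    ← uu_M h i (app_ne (det_ne h' _) e1_ne), h2, uu_smul _ (by exact_mod_cast h.1.pos),
    uu_e1 (rep_pos i), one_zpow, one_mul]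
  -- classes
  have hext : ∀ A : Mat, (∀ v, A.app v = (p : ℤ) • v) → A = ⟨p, 0, 0, p⟩ := by
    intro A hA
    have a1 := hA (1, 0)
    have a2 := hA (0, 1)
    simp only [Mat.app, mul_one, mul_zero, add_zero, zero_add, Prod.smul_mk, smul_eq_mul,
      Prod.mk.injEq] at a1 a2
    exact Mat.ext a1.1 a2.1 a1.2 a2.2
  have hA := hext ((Mg d (p, b) i).mul (Mg d (p, !b) (sg d (p, b) i)))
    (fun v => by rw [Mat.app_mul]; exact h2 v)
  refine congrArg (fun t => x (i, t)) ?_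
  apply az_inj (unit_M h' (sg d (p, b) i))
  apply az_inj (unit_M h i)
  rw [az_ai (unit_M h' _), az_ai (unit_M h _), ← az_mul, hA]
  have hpu : (p : ZMod K) * (((ZMod.unitOfCoprime p h.cop)⁻¹ : (ZMod K)ˣ) : ZMod K) = 1 := by
    have := Units.mul_inv (ZMod.unitOfCoprime p h.cop)
    rwa [ZMod.coe_unitOfCoprime] at this
  unfold az sc
  apply Prod.ext
  · push_cast
    linear_combination (-α.1) * hpu
  · push_cast
    linear_combination (-α.2) * hpu

/-! ### the joint eigenbasis -/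

theorem exists_basis (d K : ℕ) [NeZero K] (j : ℤ) :
    ∃ (b : OrthonormalBasis (Fin (finrank ℂ (Ej d K j))) ℂ (Ej d K j))
      (c : ℕ × Bool → Fin (finrank ℂ (Ej d K j)) → ℂ)
      (s : (ZMod K)ˣ → Fin (finrank ℂ (Ej d K j)) → ℂ),
      (∀ P, Adm d K P → ∀ k, ‖c P k‖ = 1 ∧
        Ug d K P j (b k : Hs d K) = c P k • (b k : Hs d K)) ∧
      ∀ n k, ‖s n k‖ = 1 ∧ Rn d K n (b k : Hs d K) = s n k • (b k : Hs d K) := by
  classical
  obtain ⟨b, c, hbc⟩ := spec_17 (P := {P : ℕ × Bool // Adm d K P} ⊕ (ZMod K)ˣ) (E := Ej d K j)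
    (fun t => Sum.elim (fun P => (Ug d K P.1 j).restrict (fun x hx => Ug_mem P.2 j hx))
      (fun n => (Rn d K n).restrict (fun x hx => Rn_mem n j hx)) t)
    (by
      rintro (P | n) x y
      · exact Ug_inner P.2 j (x : Hs d K) (y : Hs d K)
      · exact Rn_inner n (x : Hs d K) (y : Hs d K))
    (by
      rintro (P | n) (P' | n') x
      · exact Subtype.ext (Ug_comm P.2 P'.2 j x.2)
      · exact Subtype.ext (Rn_Ug (d := d) n' P.1 j (x : Hs d K)).symm
      · exact Subtype.ext (Rn_Ug (d := d) n P'.1 j (x : Hs d K))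
      · exact Subtype.ext (Rn_comm (d := d) n n' (x : Hs d K)))
  refine ⟨b, fun P k => if h : Adm d K P then c (Sum.inl ⟨P, h⟩) k else 1,
    fun n k => c (Sum.inr n) k, fun P hP k => ?_, fun n k => ?_⟩
  · obtain ⟨h1, h2⟩ := hbc (Sum.inl ⟨P, hP⟩) k
    simp only [dif_pos hP]
    refine ⟨h1, ?_⟩
    have := congrArg Subtype.val h2
    exact this
  · obtain ⟨h1, h2⟩ := hbc (Sum.inr n) k
    refine ⟨h1, ?_⟩
    have := congrArg Subtype.val h2
    exact this

/-- number of eigenvectors -/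
noncomputable def mm (d K : ℕ) [NeZero K] (j : ℤ) : ℕ := finrank ℂ (Ej d K j)

/-- the basis of `E_j` -/
noncomputable def bv (d K : ℕ) [NeZero K] (j : ℤ) :
    OrthonormalBasis (Fin (mm d K j)) ℂ (Ej d K j) := (exists_basis d K j).choose

/-- the eigenvalues of the primes -/
noncomputable def cv (d K : ℕ) [NeZero K] (P : ℕ × Bool) (j : ℤ) (k : Fin (mm d K j)) : ℂ :=
  (exists_basis d K j).choose_spec.choose P k

/-- the eigenvalues of the scalars -/
noncomputable def sv (d K : ℕ) [NeZero K] (n : (ZMod K)ˣ) (j : ℤ) (k : Fin (mm d K j)) : ℂ :=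
  (exists_basis d K j).choose_spec.choose_spec.choose n k

theorem bv_spec {P : ℕ × Bool} (h : Adm d K P) (j : ℤ) (k : Fin (mm d K j)) :
    ‖cv d K P j k‖ = 1 ∧
      Ug d K P j (bv d K j k : Hs d K) = cv d K P j k • (bv d K j k : Hs d K) :=
  (exists_basis d K j).choose_spec.choose_spec.choose_spec.1 P h k

theorem bv_spec_sc (n : (ZMod K)ˣ) (j : ℤ) (k : Fin (mm d K j)) :
    ‖sv d K n j k‖ = 1 ∧
      Rn d K n (bv d K j k : Hs d K) = sv d K n j k • (bv d K j k : Hs d K) :=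
  (exists_basis d K j).choose_spec.choose_spec.choose_spec.2 n k

theorem mm_le (j : ℤ) : mm d K j ≤ Fintype.card (Cl d) * (K * K) := by
  have h1 := Submodule.finrank_le (Ej d K j)
  rw [finrank_euclideanSpace, Fintype.card_prod, Fintype.card_prod, ZMod.card] at h1
  exact h1

theorem norm_bv (j : ℤ) (k : Fin (mm d K j)) : ‖(bv d K j k : Hs d K)‖ = 1 :=
  (bv d K j).orthonormal.1 k

theorem cv_conj {p : ℕ} {b : Bool} (h : Adm d K (p, b)) (j : ℤ) (k : Fin (mm d K j)) :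
    cv d K (p, b) j k * cv d K (p, !b) j k = sv d K (ZMod.unitOfCoprime p h.cop) j k := by
  have h' : Adm d K (p, !b) := h
  have h1 := Ug_conj h j (bv d K j k : Hs d K)
  rw [(bv_spec h' j k).2, map_smul, (bv_spec h j k).2, (bv_spec_sc _ j k).2, smul_smul] at h1
  have h2 : (bv d K j k : Hs d K) ≠ 0 := by
    intro h3
    have := norm_bv (d := d) (K := K) j k
    rw [h3, norm_zero] at this
    exact zero_ne_one this
  rw [mul_comm]
  exact smul_left_injective ℂ h2 h1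

/-- coordinates in the joint eigenbasis -/
noncomputable def co (d K : ℕ) [NeZero K] (j : ℤ) (k : Fin (mm d K j)) (x : Hs d K) : ℂ :=
  inner ℂ (bv d K j k : Hs d K) x

theorem co_add (j : ℤ) (k : Fin (mm d K j)) (x y : Hs d K) :
    co d K j k (x + y) = co d K j k x + co d K j k y := inner_add_right _ _ _

theorem co_sub (j : ℤ) (k : Fin (mm d K j)) (x y : Hs d K) :
    co d K j k (x - y) = co d K j k x - co d K j k y := inner_sub_right _ _ _

theorem co_smul (j : ℤ) (k : Fin (mm d K j)) (c : ℂ) (x : Hs d K) :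
    co d K j k (c • x) = c * co d K j k x := inner_smul_right _ _ _

theorem co_sum {ι : Type*} (s : Finset ι) (j : ℤ) (k : Fin (mm d K j)) (x : ι → Hs d K) :
    co d K j k (∑ i ∈ s, x i) = ∑ i ∈ s, co d K j k (x i) := inner_sum _ _ _

/-- the coordinate as a sum over the pairs -/
theorem co_eq (j : ℤ) (k : Fin (mm d K j)) (x : Hs d K) :
    co d K j k x = ∑ ia, (starRingEnd ℂ) ((bv d K j k : Hs d K) ia) * x ia := by
  unfold co
  rw [PiLp.inner_apply]
  refine Finset.sum_congr rfl fun ia _ => ?_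
  rw [RCLike.inner_apply, mul_comm]

/-- Parseval -/
theorem co_parseval (j : ℤ) {x : Hs d K} (hx : x ∈ Ej d K j) :
    ∑ k, ‖co d K j k x‖ ^ 2 = ∑ ia, ‖x ia‖ ^ 2 := by
  have h1 := parseval_17 (bv d K j) ⟨x, hx⟩
  have h2 : ‖(⟨x, hx⟩ : Ej d K j)‖ ^ 2 = ∑ ia, ‖x ia‖ ^ 2 := by
    rw [Submodule.coe_norm, EuclideanSpace.norm_sq_eq]
  rw [← h2, ← h1]
  rfl

/-- Bessel, for every vector -/
theorem co_bessel (j : ℤ) (x : Hs d K) :
    ∑ k, ‖co d K j k x‖ ^ 2 ≤ ∑ ia, ‖x ia‖ ^ 2 := by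
  have hon : Orthonormal ℂ (fun k => (bv d K j k : Hs d K)) := by
    refine ⟨fun k => (bv d K j).orthonormal.1 k, fun k l hkl => ?_⟩
    exact (bv d K j).orthonormal.2 hkl
  have h1 := hon.sum_inner_products_le x (s := Finset.univ)
  rw [← EuclideanSpace.norm_sq_eq]
  exact h1

/-- the eigenvalue equation for coordinates -/
theorem co_Ug {P : ℕ × Bool} (h : Adm d K P) (j : ℤ) (k : Fin (mm d K j)) (x : Hs d K) :
    co d K j k (Ug d K P j x) = cv d K P j k * co d K j k x := by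
  obtain ⟨h1, h2⟩ := bv_spec h j k
  have h3 := Ug_inner h j (bv d K j k : Hs d K) x
  rw [h2, inner_smul_left] at h3
  have h4 : cv d K P j k * (starRingEnd ℂ) (cv d K P j k) = 1 := by
    rw [Complex.mul_conj, Complex.normSq_eq_norm_sq, h1]
    norm_num
  unfold co
  rw [← h3, ← mul_assoc, h4, one_mul]

theorem co_Rn (n : (ZMod K)ˣ) (j : ℤ) (k : Fin (mm d K j)) (x : Hs d K) :
    co d K j k (Rn d K n x) = sv d K n j k * co d K j k x := by
  obtain ⟨h1, h2⟩ := bv_spec_sc (d := d) n j k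
  have h3 := Rn_inner n (bv d K j k : Hs d K) x
  rw [h2, inner_smul_left] at h3
  have h4 : sv d K n j k * (starRingEnd ℂ) (sv d K n j k) = 1 := by
    rw [Complex.mul_conj, Complex.normSq_eq_norm_sq, h1]
    norm_num
  unfold co
  rw [← h3, ← mul_assoc, h4, one_mul]

end unitary

end Pool.Agent.Lib.MP_a17b09_nt.MRSG
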