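import Pool.Agent.Lib.MP_a17b09_nt.MRSG.AlgG91

/-!
MRSG, frequency 0, the algebra, second part: the principal genus theorem with a modulus for the
joint eigenvalues.
-/

set_option autoImplicit false

open Finset

namespace Pool.Agent.Lib.MP_a17b09_nt.MRSG91

open CH CH.PE MRSG
open Pool.Agent.MRS1.F3 (Good Val f3)

theorem spl_of_good {d K p : ℕ} (h : Good d K p) : Spl d K p := by
  obtain ⟨hp, hc, hJ⟩ := h
  have : Fact p.Prime := ⟨hp⟩
  refine ⟨hp, (Nat.Prime.coprime_iff_not_dvd hp).1 hc, ?_⟩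
  have h1 : IsSquare ((-(d : ℤ) : ℤ) : ZMod p) := ZMod.isSquare_of_jacobiSym_eq_one hJ
  obtain ⟨y, hy⟩ := h1
  obtain ⟨r, rfl⟩ := ZMod.intCast_surjective y
  refine ⟨r, ?_⟩
  rw [← ZMod.intCast_zmod_eq_zero_iff_dvd]
  push_cast at hy ⊢
  rw [sq, ← hy]; ring

theorem good_of_spl {d K p : ℕ} (h : Spl d K p) : Good d K p := by
  obtain ⟨hp, hnd, r, hr⟩ := h
  have : Fact p.Prime := ⟨hp⟩
  refine ⟨hp, (Nat.Prime.coprime_iff_not_dvd hp).2 hnd, ?_⟩
  rw [← jacobiSym.legendreSym.to_jacobiSym, legendreSym.eq_one_iff]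
  · refine ⟨(r : ZMod p), ?_⟩
    have h1 : ((r ^ 2 + d : ℤ) : ZMod p) = 0 := (ZMod.intCast_zmod_eq_zero_iff_dvd _ p).2 hr
    push_cast at h1 ⊢
    linear_combination -h1
  · intro h0
    have h1 : (p : ℤ) ∣ -(d : ℤ) := (ZMod.intCast_zmod_eq_zero_iff_dvd _ p).1 h0
    rw [dvd_neg] at h1
    apply hnd
    have h2 : p ∣ d := by exact_mod_cast h1
    exact Dvd.dvd.mul_right (Dvd.dvd.mul_left h2 2) K

/-- a root of `-d` modulo `m` from roots modulo the primes -/
theorem root_all {d : ℕ} (m : ℕ) : m ≠ 0 →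
    (∀ p : ℕ, p.Prime → p ∣ m → ¬ p ∣ 2 * d ∧ ∃ r : ℤ, (p : ℤ) ∣ r ^ 2 + d) →
    ∃ r : ℤ, (m : ℤ) ∣ r ^ 2 + d := by
  induction m using induction_on_primes with
  | zero => intro h; exact absurd rfl h
  | one => intro _ _; exact ⟨0, by simp⟩
  | prime_mul p a hp ih =>
    intro hne h
    have ha0 : a ≠ 0 := by rintro rfl; simp at hne
    obtain ⟨r, hr⟩ := ih ha0 (fun l hl hla => h l hl (Dvd.dvd.mul_left hla p))
    obtain ⟨hp2, s, hs⟩ := h p hp (Dvd.intro _ rfl)
    have hpp : Prime (p : ℤ) := Nat.prime_iff_prime_int.1 hp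
    by_cases hpa : p ∣ a
    · have hpr : ¬ (p : ℤ) ∣ 2 * r :=
        not_dvd_root hp hp2 ((Int.natCast_dvd_natCast.2 hpa).trans hr)
      obtain ⟨k, hk⟩ := hr
      obtain ⟨x, y, hxy⟩ := (hpp.coprime_iff_not_dvd).2 hpr
      obtain ⟨c, hc⟩ := hpa
      have hc' : (a : ℤ) = p * c := by exact_mod_cast hc
      refine ⟨r - a * (k * y), ⟨k * x + c * (k * y) ^ 2, ?_⟩⟩
      push_cast
      linear_combination hk - a * k * hxy + a * (k * y) ^ 2 * hc'
    · have hco : IsCoprime (p : ℤ) (a : ℤ) :=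
        Nat.isCoprime_iff_coprime.2 ((Nat.Prime.coprime_iff_not_dvd hp).2 hpa)
      obtain ⟨u, v, huv⟩ := hco
      refine ⟨r * (u * p) + s * (v * a), ?_⟩
      push_cast
      apply IsCoprime.mul_dvd ⟨u, v, huv⟩
      · obtain ⟨t, ht⟩ := hs
        refine ⟨t + r ^ 2 * u ^ 2 * p + 2 * r * u * s * v * a + s ^ 2 * (- 2 * u + u ^ 2 * p), ?_⟩
        have e : v * (a : ℤ) = 1 - u * p := by linarith
        have : (r * (u * p) + s * (v * a)) ^ 2 + (d : ℤ) =
            r ^ 2 * u ^ 2 * p * p + 2 * r * u * s * v * a * p + s ^ 2 * (v * a) ^ 2 + d := by ring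
        rw [this, e]
        linear_combination ht
      · obtain ⟨t, ht⟩ := hr
        refine ⟨t + s ^ 2 * v ^ 2 * a + 2 * r * u * s * v * p + r ^ 2 * (- 2 * v + v ^ 2 * a), ?_⟩
        have e : u * (p : ℤ) = 1 - v * a := by linarith
        have : (r * (u * p) + s * (v * a)) ^ 2 + (d : ℤ) =
            s ^ 2 * v ^ 2 * a * a + 2 * r * u * s * v * p * a + r ^ 2 * (u * p) ^ 2 + d := by ring
        rw [this, e]
        linear_combination ht

variable {d K : ℕ} [NeZero K]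

theorem se_congr (k : Fin (mm d K 0)) {n n' : ℤ} (h : (n : ZMod K) = (n' : ZMod K)) :
    se d K k n = se d K k n' := by
  classical
  exact congrArg (fun t : ZMod K => if h : IsUnit t then sv d K h.unit 0 k else 0) h

theorem se_one (k : Fin (mm d K 0)) : se d K k 1 = 1 := by
  obtain ⟨i, u, hu⟩ := EE_ne k
  have h := EE_sca k 1 (rep i) u isCoprime_one_left (rep_D i)
  rw [one_smul] at h
  exact (mul_right_cancel₀ hu (by rw [one_mul]; exact h)).symm

theorem se_mul (k : Fin (mm d K 0)) {a b : ℤ} (ha : IsCoprime a (K : ℤ))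
    (hb : IsCoprime b (K : ℤ)) : se d K k (a * b) = se d K k a * se d K k b := by
  obtain ⟨i, u, hu⟩ := EE_ne k
  have h1 := EE_sca k (a * b) (rep i) u (ha.mul_left hb) (rep_D i)
  rw [mul_smul, EE_sca k a (rep i) _ ha (rep_D i), EE_sca k b (rep i) u hb (rep_D i),
    ← mul_assoc] at h1
  exact (mul_right_cancel₀ hu h1).symm

/-- first and second eigenvalue -/
noncomputable def c1 (d K : ℕ) [NeZero K] (k : Fin (mm d K 0)) (p : ℕ) : ℂ :=
  cv d K (p, true) 0 k

/-- first and second eigenvalue -/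
noncomputable def c2 (d K : ℕ) [NeZero K] (k : Fin (mm d K 0)) (p : ℕ) : ℂ :=
  cv d K (p, false) 0 k

theorem c12 (k : Fin (mm d K 0)) {p : ℕ} (hp : Good d K p) :
    c1 d K k p * c2 d K k p = se d K k p := by
  have hA : Adm d K (p, true) := spl_of_good hp
  have h1 := cv_conj hA 0 k
  unfold c1 c2
  have h2 : cv d K (p, true) 0 k * cv d K (p, false) 0 k =
    sv d K (ZMod.unitOfCoprime p hA.cop) 0 k := h1
  rw [h2]
  have hu : IsUnit (((p : ℤ)) : ZMod K) := by
    have := unit_p hA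
    simpa using this
  unfold se
  rw [dif_pos hu]
  congr 1
  apply Units.ext
  rw [IsUnit.unit_spec, ZMod.coe_unitOfCoprime]
  simp

theorem good_cop {p : ℕ} (hp : Good d K p) : IsCoprime (p : ℤ) (K : ℤ) :=
  Nat.isCoprime_iff_coprime.2 (Nat.Coprime.coprime_mul_left_right hp.2.1)

theorem list_cop (L : List ℕ) (hL : ∀ p ∈ L, Good d K p) :
    IsCoprime ((L.prod : ℕ) : ℤ) (K : ℤ) := by
  induction L with
  | nil => simpa using isCoprime_one_left
  | cons p L ih =>
    rw [List.prod_cons, Nat.cast_mul]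
    exact (good_cop (hL p (by simp))).mul_left (ih fun q hq => hL q (by simp [hq]))

theorem list_prod (k : Fin (mm d K 0)) (L : List ℕ) (hL : ∀ p ∈ L, Good d K p) :
    (L.map (fun p => c1 d K k p * c2 d K k p)).prod = se d K k ((L.prod : ℕ) : ℤ) := by
  induction L with
  | nil => simpa using (se_one k).symm
  | cons p L ih =>
    have h1 := hL p (by simp)
    have h2 : ∀ q ∈ L, Good d K q := fun q hq => hL q (by simp [hq])
    rw [List.map_cons, List.prod_cons, List.prod_cons, ih h2, c12 k h1]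
    rw [Nat.cast_mul, se_mul k (good_cop h1) (list_cop L h2)]

/-- the list of the conjugate pairs of `s` -/
noncomputable def TT (d K : ℕ) [NeZero K] (k : Fin (mm d K 0)) (L : List ℕ) : List (ℕ × ℂ) :=
  L.flatMap (fun p => [(p, c1 d K k p), (p, c2 d K k p)])

theorem TT_val (k : Fin (mm d K 0)) (L : List ℕ) (hL : ∀ p ∈ L, Good d K p) :
    ∀ x ∈ TT d K k L, Val (Good d K) (c1 d K k) (c2 d K k) x := by
  intro x hx
  unfold TT at hx
  rw [List.mem_flatMap] at hx
  obtain ⟨p, hp, hx⟩ := hx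
  simp only [List.mem_cons, List.not_mem_nil, or_false] at hx
  rcases hx with rfl | rfl
  · exact ⟨hL p hp, Or.inl rfl⟩
  · exact ⟨hL p hp, Or.inr rfl⟩

theorem TT_fst (k : Fin (mm d K 0)) (L : List ℕ) :
    ((TT d K k L).map Prod.fst).prod = L.prod ^ 2 := by
  induction L with
  | nil => simp [TT]
  | cons p L ih =>
    have : TT d K k (p :: L) = [(p, c1 d K k p), (p, c2 d K k p)] ++ TT d K k L := by
      unfold TT
      rw [List.flatMap_cons]
    rw [this, List.map_append, List.prod_append, ih, List.prod_cons]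
    simp
    ring

theorem TT_snd (k : Fin (mm d K 0)) (L : List ℕ) :
    ((TT d K k L).map Prod.snd).prod = (L.map (fun p => c1 d K k p * c2 d K k p)).prod := by
  induction L with
  | nil => simp [TT]
  | cons p L ih =>
    have : TT d K k (p :: L) = [(p, c1 d K k p), (p, c2 d K k p)] ++ TT d K k L := by
      unfold TT
      rw [List.flatMap_cons]
    rw [this, List.map_append, List.prod_append, ih, List.map_cons, List.prod_cons]
    simp

/-- (i) of `f3` -/
theorem hi_91 (hd : 0 < d) (k : Fin (mm d K 0)) (m : ℕ) (hm : 0 < m)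
    (hmq : m ≡ 1 [MOD 16 * d * K ^ 2]) (hG : ∀ p : ℕ, p.Prime → p ∣ m → Good d K p) :
    ∃ n, 0 < n ∧ ∃ L L' : List (ℕ × ℂ),
      (∀ x ∈ L, Val (Good d K) (c1 d K k) (c2 d K k) x) ∧
      (∀ x ∈ L', Val (Good d K) (c1 d K k) (c2 d K k) x) ∧
      (L.map Prod.fst).Perm (m * n ^ 2).primeFactorsList ∧
      (L'.map Prod.fst).Perm (n ^ 2).primeFactorsList ∧
      (L.map Prod.snd).prod = (L'.map Prod.snd).prod := by
  have hK : 0 < K := Nat.pos_of_ne_zero (NeZero.ne K)
  obtain ⟨r, hr⟩ := root_all m hm.ne' (fun p hp hpm => by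
    have h1 := spl_of_good (hG p hp hpm)
    exact ⟨fun h => h1.2.1 (Dvd.dvd.mul_right h K), h1.2.2⟩)
  obtain ⟨X, Y, n, hn, hnc, hXY, hXn, hprim⟩ := MRSG91.conic d K m hd hK hm hmq r hr
  -- coprimality
  have hmc : m.Coprime (2 * d * K) := by
    have h1 : m ≡ 1 [MOD 2 * d * K] := hmq.of_dvd ⟨8 * K, by ring⟩
    have := h1.gcd_eq
    rw [Nat.gcd_one_left] at this
    exact this
  have hNc : (m * n ^ 2).Coprime (2 * d * K) := hmc.mul_left (hnc.pow_left 2)
  have hNK : (m * n ^ 2).Coprime K := Nat.Coprime.coprime_mul_left_right hNc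
  have hN2d : IsCoprime (((m * n ^ 2 : ℕ)) : ℤ) (2 * (d : ℤ)) := by
    have h1 : (m * n ^ 2).Coprime (2 * d) := Nat.Coprime.coprime_mul_right_right hNc
    have := Nat.isCoprime_iff_coprime.2 h1
    push_cast at this ⊢
    exact this
  -- primes of `n`
  have hGn : ∀ p : ℕ, p.Prime → p ∣ n → Good d K p := by
    intro p hp hpn
    have hpp : Prime (p : ℤ) := Nat.prime_iff_prime_int.1 hp
    have hpc : p.Coprime (2 * d * K) := Nat.Coprime.coprime_dvd_left hpn hnc
    have hpK : ¬ (p : ℤ) ∣ (K : ℤ) := by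
      intro h
      have h1 : p ∣ K := by exact_mod_cast h
      exact (Nat.Prime.coprime_iff_not_dvd hp).1 (Nat.Coprime.coprime_mul_left_right hpc) h1
    have hpn' : (p : ℤ) ∣ (n : ℤ) := by exact_mod_cast hpn
    have hdv : (p : ℤ) ∣ X ^ 2 + d * (K * Y) ^ 2 := by
      rw [hXY]
      exact Dvd.dvd.mul_left (dvd_pow hpn' two_ne_zero) _
    have hY : ¬ (p : ℤ) ∣ Y := by
      intro h
      have hX : (p : ℤ) ∣ X := by
        have h2 : (p : ℤ) ∣ (d : ℤ) * (K * Y) ^ 2 :=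
          Dvd.dvd.mul_left (dvd_pow (Dvd.dvd.mul_left h _) two_ne_zero) _
        exact hpp.dvd_of_dvd_pow ((dvd_add_left h2).1 hdv)
      exact hprim p hpp hX h hpn'
    have hKY : ¬ (p : ℤ) ∣ K * Y := fun h => (hpp.dvd_or_dvd h).elim hpK hY
    obtain ⟨x, y, hxy⟩ := (hpp.coprime_iff_not_dvd).2 hKY
    apply good_of_spl
    refine ⟨hp, (Nat.Prime.coprime_iff_not_dvd hp).1 hpc, X * y, ?_⟩
    obtain ⟨t, ht⟩ := hdv
    refine ⟨t * y ^ 2 + d * (2 * x - x ^ 2 * p), ?_⟩
    have e : y * (K * Y) = 1 - x * p := by linarith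
    have : (X * y) ^ 2 + (d : ℤ) = (X ^ 2 + d * (K * Y) ^ 2) * y ^ 2 - d * (y * (K * Y)) ^ 2 + d := by
      ring
    rw [this, e, ht]
    ring
  obtain ⟨i, u, hu⟩ := EE_ne (d := d) k
  obtain ⟨k0, L, hk0, hk0K, hL1, hL2, hL3⟩ := MRSG.conic (d := (d : ℤ)) (K := K)
    (n := m * n ^ 2) (X := X) (Y := Y) (by positivity) hNK hN2d
    (by rw [hXY]; push_cast; ring) (Q := rep i) (rep_D i)
  have hσ := hL3 _ _ _ (efn k) (fun u w => EE_per _ _ u w) u hu
  have hσX : se d K k X = se d K k n := by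
    apply se_congr
    have h1 : ((K : ℕ) : ℤ) ∣ X - n := by
      refine Dvd.dvd.trans ?_ hXn
      push_cast
      exact Dvd.intro_left _ rfl
    have h2 := (ZMod.intCast_zmod_eq_zero_iff_dvd (X - n) K).2 h1
    push_cast at h2 ⊢
    exact sub_eq_zero.1 h2
  -- primes of `m n ^ 2` are good
  have hGN : ∀ p : ℕ, p.Prime → p ∣ m * n ^ 2 → Good d K p := by
    intro p hp h
    rcases (Nat.Prime.dvd_mul hp).1 h with h | h
    · exact hG p hp h
    · exact hGn p hp (hp.dvd_of_dvd_pow h)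
  have hk0N : k0 ∣ m * n ^ 2 := by
    rw [← hL2]
    exact Dvd.dvd.mul_right (dvd_pow_self k0 two_ne_zero) _
  have hGk : ∀ p ∈ k0.primeFactorsList, Good d K p := fun p hp =>
    hGN p (Nat.prime_of_mem_primeFactorsList hp) ((Nat.dvd_of_mem_primeFactorsList hp).trans hk0N)
  have hGn' : ∀ p ∈ n.primeFactorsList, Good d K p := fun p hp =>
    hGn p (Nat.prime_of_mem_primeFactorsList hp) (Nat.dvd_of_mem_primeFactorsList hp)
  have hGL : ∀ x ∈ L, Good d K x.1 := by
    intro x hx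
    refine hGN x.1 (hL1 x hx).1 ?_
    rw [← hL2]
    exact Dvd.dvd.mul_left (List.dvd_prod (List.mem_map.2 ⟨x, hx, rfl⟩)) _
  set L1 : List (ℕ × ℂ) := L.map (fun x => (x.1, ce d K k x.1 x.2)) with hL1def
  have hL1v : ∀ x ∈ L1, Val (Good d K) (c1 d K k) (c2 d K k) x := by
    intro x hx
    rw [hL1def, List.mem_map] at hx
    obtain ⟨y, hy, rfl⟩ := hx
    refine ⟨hGL y hy, ?_⟩
    show ce d K k y.1 y.2 = c1 d K k y.1 ∨ ce d K k y.1 y.2 = c2 d K k y.1
    unfold ce c1 c2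
    cases h : decide ((y.1 : ℤ) ∣ y.2 - rt d y.1)
    · exact Or.inr rfl
    · exact Or.inl rfl
  have hL1f : (L1.map Prod.fst).prod = (L.map Prod.fst).prod := by
    rw [hL1def, List.map_map]
    rfl
  have hL1s : (L1.map Prod.snd).prod = (L.map (fun x => ce d K k x.1 x.2)).prod := by
    rw [hL1def, List.map_map]
    rfl
  refine ⟨n, hn, L1 ++ TT d K k k0.primeFactorsList, TT d K k n.primeFactorsList, ?_, ?_, ?_, ?_,
    ?_⟩
  · intro x hx
    rcases List.mem_append.1 hx with hx | hx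
    · exact hL1v x hx
    · exact TT_val k _ hGk x hx
  · exact TT_val k _ hGn'
  · apply Nat.primeFactorsList_unique
    · rw [List.map_append, List.prod_append, TT_fst, hL1f, Nat.prod_primeFactorsList hk0.ne',
        mul_comm, hL2]
    · intro p hp
      rw [List.map_append, List.mem_append, List.mem_map, List.mem_map] at hp
      rcases hp with ⟨x, hx, rfl⟩ | ⟨x, hx, rfl⟩
      · exact (hL1v x hx).1.1
      · exact (TT_val k _ hGk x hx).1.1
  · apply Nat.primeFactorsList_unique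
    · rw [TT_fst, Nat.prod_primeFactorsList hn.ne']
    · intro p hp
      rw [List.mem_map] at hp
      obtain ⟨x, hx, rfl⟩ := hp
      exact (TT_val k _ hGn' x hx).1.1
  · rw [List.map_append, List.prod_append, TT_snd, TT_snd, hL1s, list_prod k _ hGk,
      list_prod k _ hGn', Nat.prod_primeFactorsList hk0.ne', Nat.prod_primeFactorsList hn.ne',
      ← hσX, hσ, mul_comm]

/-- the eigenvalues are roots of unity -/
theorem root_unity (d K : ℕ) [NeZero K] : ∃ M : ℕ, 0 < M ∧ ∀ (P : ℕ × Bool), Adm d K P →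
    ∀ k : Fin (mm d K 0), cv d K P 0 k ^ M = 1 := by
  refine ⟨Nat.card (Equiv.Perm (Cl d × (ZMod K × ZMod K))), Nat.card_pos, fun P hP k => ?_⟩
  set M := Nat.card (Equiv.Perm (Cl d × (ZMod K × ZMod K)))
  set e : Cl d × (ZMod K × ZMod K) → ℂ := fun ia => (bv d K 0 k : Hs d K) ia with he
  have h1 : ∀ ia, e (jE hP ia) = cv d K P 0 k * e ia := by
    rintro ⟨i, α⟩
    exact bv_app hP k i α
  have h2 : ∀ (n : ℕ) ia, e ((jE hP ^ n) ia) = cv d K P 0 k ^ n * e ia := by
    intro n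
    induction n with
    | zero => intro ia; simp
    | succ n ih =>
      intro ia
      rw [pow_succ, Equiv.Perm.mul_apply, ih, h1, pow_succ]
      ring
  have h3 : jE hP ^ M = 1 := pow_card_eq_one'
  obtain ⟨ia, hia⟩ : ∃ ia, e ia ≠ 0 := by
    by_contra hne
    push Not at hne
    have h2 : (bv d K 0 k : Hs d K) ≠ 0 := by
      intro h3
      have := norm_bv (d := d) (K := K) 0 k
      rw [h3, norm_zero] at this
      exact zero_ne_one this
    apply h2
    ext ia
    exact hne ia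
  have h4 := h2 M ia
  rw [h3, Equiv.Perm.one_apply] at h4
  exact (mul_right_cancel₀ hia (by rw [one_mul]; exact h4)).symm

theorem jac_congr {d : ℕ} {q a b : ℕ} (hq : 4 * d ∣ q) (h2 : 2 ∣ q) (h : a ≡ b [MOD q]) :
    (Odd a ∧ jacobiSym (-(d : ℤ)) a = 1) ↔ (Odd b ∧ jacobiSym (-(d : ℤ)) b = 1) := by
  have key : ∀ a b : ℕ, a ≡ b [MOD q] → (Odd a ∧ jacobiSym (-(d : ℤ)) a = 1) →
      (Odd b ∧ jacobiSym (-(d : ℤ)) b = 1) := by
    rintro a b h ⟨ho, hJ⟩
    have hb : Odd b := by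
      have h1 : a ≡ b [MOD 2] := h.of_dvd h2
      unfold Nat.ModEq at h1
      rw [Nat.odd_iff] at ho ⊢
      omega
    refine ⟨hb, ?_⟩
    rw [jacobiSym.mod_right _ hb]
    rw [jacobiSym.mod_right _ ho] at hJ
    have h1 : a ≡ b [MOD 4 * (-(d : ℤ)).natAbs] := by
      rw [Int.natAbs_neg, Int.natAbs_natCast]
      exact h.of_dvd hq
    unfold Nat.ModEq at h1
    rw [← h1]
    exact hJ
  exact ⟨key a b h, key b a h.symm⟩

theorem cop_q {d K p : ℕ} (h : p.Coprime (2 * d * K)) : p.Coprime (16 * d * K ^ 2) := by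
  have h2 : p.Coprime 2 := Nat.Coprime.coprime_mul_right_right
    (Nat.Coprime.coprime_mul_right_right h)
  have hd : p.Coprime d := Nat.Coprime.coprime_mul_left_right
    (Nat.Coprime.coprime_mul_right_right h)
  have hK : p.Coprime K := Nat.Coprime.coprime_mul_left_right h
  have h16 : p.Coprime 16 := by
    have := h2.pow_right 4
    norm_num at this
    exact this
  exact (h16.mul_right hd).mul_right (hK.pow_right 2)

theorem cop_q' {d K p : ℕ} (h : p.Coprime (16 * d * K ^ 2)) : p.Coprime (2 * d * K) :=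
  Nat.Coprime.coprime_dvd_right ⟨8 * K, by ring⟩ h

/-- **(ALG)** for the systems -/
theorem algG (hd : 0 < d) (k : Fin (mm d K 0)) (ω : ℂ) (hω : ω ≠ 1) :
    ∃ a : ℕ, (Odd a ∧ jacobiSym (-(d : ℤ)) a = 1) ∧ a.Coprime (16 * d * K ^ 2) ∧
      ∀ p : ℕ, p.Prime → p ≡ a [MOD 16 * d * K ^ 2] →
        ¬ (c1 d K k p = ω ∧ c2 d K k p = ω) := by
  have hK : 0 < K := Nat.pos_of_ne_zero (NeZero.ne K)
  by_contra hcon
  push Not at hcon
  apply hω
  obtain ⟨M, hM, hroot⟩ := root_unity d K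
  have h4 : 4 * d ∣ 16 * d * K ^ 2 := ⟨4 * K ^ 2, by ring⟩
  have h2 : 2 ∣ 16 * d * K ^ 2 := ⟨8 * d * K ^ 2, by ring⟩
  refine f3 d K (16 * d * K ^ 2) h4 ⟨16 * d * K, by ring⟩ (by positivity)
    (fun p _ h => cop_q h) (c1 d K k) (c2 d K k) ω M hM
    (fun m hm hmq hG => hi_91 hd k m hm hmq hG) ?_ ?_ ?_
  · intro L hL hLK
    rw [list_prod k L hL, ← se_one k]
    apply se_congr
    have := (ZMod.natCast_eq_natCast_iff L.prod 1 K).2 hLK
    rw [Int.cast_natCast, Int.cast_one, this, Nat.cast_one]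
  · intro p hp
    have hA : Spl d K p := spl_of_good hp
    exact ⟨hroot (p, true) hA k, hroot (p, false) hA k⟩
  · intro a ha hJ
    have hodd : Odd a := by
      rw [← Nat.coprime_two_right]
      exact ha.coprime_dvd_right h2
    obtain ⟨p, hp, hpa, h1, h3⟩ := hcon a ⟨hodd, hJ⟩ ha
    have hpq : p.Coprime (16 * d * K ^ 2) := by
      have := hpa.gcd_eq
      unfold Nat.Coprime at ha ⊢
      rw [this, ha]
    have h5 := (jac_congr h4 h2 hpa).2 ⟨hodd, hJ⟩
    exact ⟨p, ⟨hp, cop_q' hpq, h5.2⟩, hpa, h1, h3⟩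

end Pool.Agent.Lib.MP_a17b09_nt.MRSG91
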