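import Pool.Agent.Lib.MP_a17b09_nt.MRSG.NugB12

/-!
MRSG (MP_a17b09_nt), sieve majorant for a binary form, part C: the majorant and the transfer of
sums over classes (module NUG). helper12.
-/

set_option autoImplicit false

namespace Pool.Agent.Lib.MP_a17b09_nt.MRSG.NugC12

open Finset Filter Topology
open scoped Classical
open Pool.Agent.Lib.TwinAll (PP)
open Pool.Agent.Lib.MP_a17b09_nt.CH (Form)
open Pool.Agent.Lib.MP_a17b09_nt.CH.DsC86 (mem_PP)
open NugA12 NugB12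

/-- the class condition -/
def Cls (δ : ℕ) (κ w : ℤ × ℤ) : Prop := w.1 ≡ κ.1 [ZMOD (δ : ℤ)] ∧ w.2 ≡ κ.2 [ZMOD (δ : ℤ)]

/-- divisibility of the value and the zeros modulo `δ` -/
theorem dvd_iff (Q : Form) (δ : ℕ) (w : ℤ × ℤ) :
    ((δ : ℤ) ∣ Q.q w) ↔ qm Q δ ((w.1 : ZMod δ), (w.2 : ZMod δ)) = 0 := by
  rw [← ZMod.intCast_zmod_eq_zero_iff_dvd]
  unfold Form.q qm
  push_cast
  rfl

/-- sums over the zeros modulo `δ`, class by class -/
theorem sum_zeros (Q : Form) (δ : ℕ) (hδ : 0 < δ) (S : Finset (ℤ × ℤ)) (F : ℤ × ℤ → ℂ) (M : ℂ)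
    (E : ℝ) (hE : ∀ κ : ℤ × ℤ, ‖∑ w ∈ S.filter (fun w => Cls δ κ w), F w - M / (δ : ℂ) ^ 2‖ ≤ E) :
    ‖∑ w ∈ S, (if ((δ : ℤ) ∣ Q.q w) then F w else 0) - (rr Q δ : ℂ) * (M / (δ : ℂ) ^ 2)‖ ≤
      rr Q δ * E := by
  have : NeZero δ := ⟨hδ.ne'⟩
  set T : Finset (ZMod δ × ZMod δ) :=
    (univ : Finset (ZMod δ × ZMod δ)).filter (fun w => qm Q δ w = 0) with hT
  have hrr : rr Q δ = T.card := rr_eq Q δ
  have h1 : ∑ w ∈ S, (if ((δ : ℤ) ∣ Q.q w) then F w else 0) =
      ∑ c ∈ T, ∑ w ∈ S.filter (fun w => Cls δ ((c.1.val : ℤ), (c.2.val : ℤ)) w), F w := by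
    rw [← sum_filter]
    have hmap : ∀ w ∈ S.filter (fun w => ((δ : ℤ) ∣ Q.q w)),
        ((w.1 : ZMod δ), (w.2 : ZMod δ)) ∈ T := by
      intro w hw
      rw [hT, mem_filter]
      exact ⟨mem_univ _, (dvd_iff Q δ w).1 (mem_filter.1 hw).2⟩
    rw [← sum_fiberwise_of_maps_to hmap]
    refine sum_congr rfl (fun c hc => ?_)
    rw [filter_filter]
    refine sum_congr ?_ (fun _ _ => rfl)
    ext w
    rw [mem_filter, mem_filter]
    have hcast : ∀ (x : ℤ) (y : ZMod δ), (x : ZMod δ) = y ↔ x ≡ (y.val : ℤ) [ZMOD (δ : ℤ)] := by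
      intro x y
      rw [← ZMod.intCast_eq_intCast_iff]
      rw [Int.cast_natCast, ZMod.natCast_val, ZMod.cast_id', id]
    constructor
    · rintro ⟨hw, _, h3⟩
      refine ⟨hw, ?_, ?_⟩
      · exact (hcast _ _).1 (Prod.mk.inj h3).1
      · exact (hcast _ _).1 (Prod.mk.inj h3).2
    · rintro ⟨hw, h3, h4⟩
      have h5 : ((w.1 : ZMod δ), (w.2 : ZMod δ)) = c :=
        Prod.ext ((hcast _ _).2 h3) ((hcast _ _).2 h4)
      refine ⟨hw, ?_, h5⟩
      rw [dvd_iff, h5]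
      exact (mem_filter.1 hc).2
  rw [h1, hrr]
  have h2 : ((T.card : ℕ) : ℂ) * (M / (δ : ℂ) ^ 2) = ∑ _c ∈ T, M / (δ : ℂ) ^ 2 := by
    rw [sum_const, nsmul_eq_mul]
  rw [h2, ← sum_sub_distrib]
  refine (norm_sum_le _ _).trans ?_
  calc ∑ c ∈ T, ‖∑ w ∈ S.filter (fun w => Cls δ ((c.1.val : ℤ), (c.2.val : ℤ)) w), F w -
        M / (δ : ℂ) ^ 2‖ ≤ ∑ _c ∈ T, E := sum_le_sum (fun c _ => hE _)
    _ = T.card * E := by rw [sum_const, nsmul_eq_mul]

/-- **The sieve majorant of a binary form.** -/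
theorem nug (Q : Form) (ha : Q.a ≠ 0) (hD0 : Q.D ≠ 0)
    (hD : haveI : NeZero (-Q.D) := ⟨neg_ne_zero.2 hD0⟩; kro (-Q.D) ≠ 1) (z00 : ℕ) :
    ∃ C : ℝ, 0 < C ∧ ∃ z0 : ℕ, z00 ≤ z0 ∧ ∃ Y0 : ℝ, 2 ≤ Y0 ∧ ∀ Y : ℝ, Y0 ≤ Y →
    ∃ (L : ℕ) (ν : ℤ × ℤ → ℝ), 1 ≤ L ∧ (L : ℝ) ≤ Y ^ (1 / 16 : ℝ) ∧ (∀ w, 0 ≤ ν w) ∧
      (∀ w, (∀ q : ℕ, q.Prime → z0 < q → (q : ℝ) ≤ Y ^ (1 / 16 : ℝ) → ¬ ((q : ℤ) ∣ Q.q w)) →
        1 ≤ ν w) ∧
      (∀ (S : Finset (ℤ × ℤ)) (F : ℤ × ℤ → ℂ) (M : ℂ) (E : ℕ → ℝ), (∀ δ, 0 ≤ E δ) →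
        (∀ δ : ℕ, 0 < δ → δ ≤ L → Squarefree δ → (∀ q : ℕ, q.Prime → q ∣ δ → z0 < q) →
          ∀ κ : ℤ × ℤ, ‖∑ w ∈ S.filter (fun w => Cls δ κ w), F w - M / (δ : ℂ) ^ 2‖ ≤ E δ) →
        ‖∑ w ∈ S, (ν w : ℂ) * F w‖ ≤ C * ‖M‖ / Real.log Y +
          ∑ δ ∈ Icc 1 L, (2 : ℝ) ^ (δ.primeFactors.card) * δ * E δ) := by
  have hne : NeZero (-Q.D) := ⟨neg_ne_zero.2 hD0⟩
  obtain ⟨s, zs, hS⟩ := Pool.Agent.Lib.TwinAll.S1R 2
  set z0 : ℕ := max (max zs z00) (4 * (-Q.D).natAbs + Q.a.natAbs + 2) with hz0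
  have hz0s : zs ≤ z0 := (le_max_left _ _).trans (le_max_left _ _)
  have hz00 : z00 ≤ z0 := (le_max_right _ _).trans (le_max_left _ _)
  have hz0b : 4 * (-Q.D).natAbs + Q.a.natAbs + 2 ≤ z0 := le_max_right _ _
  obtain ⟨C1, hC1, hprod⟩ := prod_ww (-Q.D) hD z0 (by omega) (by omega)
  set e : ℝ := 1 / (16 * ((s : ℝ) + 1)) with he
  have he0 : 0 < e := by positivity
  have he16 : e ≤ 1 / 16 := by
    rw [he]
    apply one_div_le_one_div_of_le (by norm_num)
    have : (0 : ℝ) ≤ s := Nat.cast_nonneg _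
    nlinarith
  have hlim : Tendsto (fun Y : ℝ => Y ^ (e / 2)) atTop atTop :=
    tendsto_rpow_atTop (by positivity)
  obtain ⟨Y1, hY1⟩ := eventually_atTop.1 (hlim.eventually_ge_atTop ((z0 : ℝ) + 4))
  refine ⟨2 * C1 * (2 / e), by positivity, z0, hz00, max Y1 2, le_max_right _ _, fun Y hY => ?_⟩
  have hYY1 : Y1 ≤ Y := (le_max_left _ _).trans hY
  have hY2 : 2 ≤ Y := (le_max_right _ _).trans hY
  have hY0 : 0 < Y := by linarith
  have hYge1 : 1 ≤ Y := by linarith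
  have hbig := hY1 Y hYY1
  set y : ℝ := Y ^ (e / 2) with hy
  have hyy : y * y = Y ^ e := by
    rw [hy, ← Real.rpow_add hY0]
    ring_nf
  have hz0' : (0 : ℝ) ≤ z0 := Nat.cast_nonneg _
  set z : ℕ := ⌊Y ^ e⌋₊ with hz
  have hzle : (z : ℝ) ≤ Y ^ e := Nat.floor_le (by positivity)
  have hzge : y ≤ (z : ℝ) := by
    have h1 : Y ^ e < z + 1 := Nat.lt_floor_add_one _
    rw [← hyy] at h1
    nlinarith
  have hz1 : (1 : ℝ) ≤ z := by linarith
  have hz1' : 1 ≤ z := by exact_mod_cast hz1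
  have hzz0 : z0 ≤ z := by
    have : (z0 : ℝ) ≤ z := by linarith
    exact_mod_cast this
  have hz2 : 2 ≤ z := by
    have : (2 : ℝ) ≤ z := by linarith
    exact_mod_cast this
  obtain ⟨U, Lw, hU1, hU2, hU3, hU4⟩ := hS 0 z0 hz0s z hzz0
  set L : ℕ := z ^ (s + 1) with hL
  have hL1 : 1 ≤ L := Nat.one_le_pow _ _ hz1'
  have hLY : (L : ℝ) ≤ Y ^ (1 / 16 : ℝ) := by
    rw [hL]
    push_cast
    refine (pow_le_pow_left₀ (Nat.cast_nonneg _) hzle _).trans (le_of_eq ?_)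
    rw [← Real.rpow_natCast, ← Real.rpow_mul hY0.le]
    congr 1
    rw [he]
    push_cast
    field_simp
  let ν : ℤ × ℤ → ℝ := fun w => ∑ D ∈ (PP z0 z).powerset, U D * ∏ q ∈ D,
    (if ((q : ℤ) ∣ Q.q w) then (1 : ℝ) else 0)
  have hν : ∀ w, ∏ q ∈ PP z0 z, (1 - (if ((q : ℤ) ∣ Q.q w) then (1 : ℝ) else 0)) ≤ ν w := by
    intro w
    exact (hU3 (fun q => if ((q : ℤ) ∣ Q.q w) then (1 : ℝ) else 0) (fun q => by
      split_ifs
      · exact ⟨zero_le_one, le_rfl⟩
      · exact ⟨le_rfl, zero_le_one⟩)).2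
  refine ⟨L, ν, hL1, hLY, ?_, ?_, ?_⟩
  · intro w
    refine le_trans (prod_nonneg fun q _ => ?_) (hν w)
    split_ifs <;> norm_num
  · intro w hw
    refine le_trans (le_of_eq ?_) (hν w)
    symm
    apply prod_eq_one
    intro q hq
    rw [mem_PP] at hq
    have hqY : (q : ℝ) ≤ Y ^ (1 / 16 : ℝ) := by
      have h1 : (q : ℝ) ≤ z := by exact_mod_cast hq.1.2
      exact (h1.trans hzle).trans (Real.rpow_le_rpow_of_exponent_le hYge1 he16)
    rw [if_neg (hw q hq.2 hq.1.1 hqY), sub_zero]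
  · intro S F M E hE0 hE
    -- facts on the primes
    have hpa : ∀ q ∈ PP z0 z, ¬ ((q : ℤ) ∣ Q.a) := by
      intro q hq h
      rw [mem_PP] at hq
      have h1 : q ∣ Q.a.natAbs := Int.natCast_dvd.1 h
      have h2 := Nat.le_of_dvd (Int.natAbs_pos.2 ha) h1
      omega
    have hle : ∀ q ∈ PP z0 z, rr Q q ≤ 2 * q := fun q hq =>
      rr_le Q q (mem_PP.1 hq).2 (hpa q hq)
    have hq0 : ∀ q ∈ PP z0 z, (0 : ℝ) < q := fun q hq => by
      exact_mod_cast (mem_PP.1 hq).2.pos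
    set h : ℕ → ℝ := fun q => (rr Q q : ℝ) / (q : ℝ) ^ 2 with hh
    have hh2 : ∀ q ∈ PP z0 z, 0 ≤ h q ∧ h q ≤ ((2 : ℕ) : ℝ) / q := by
      intro q hq
      have h1 := hq0 q hq
      have h2 : (rr Q q : ℝ) ≤ 2 * q := by exact_mod_cast hle q hq
      refine ⟨by rw [hh]; positivity, ?_⟩
      rw [hh]
      simp only
      rw [div_le_div_iff₀ (by positivity) h1]
      push_cast
      calc (rr Q q : ℝ) * q ≤ (2 * q) * q := mul_le_mul_of_nonneg_right h2 h1.le
        _ = 2 * (q : ℝ) ^ 2 := by ring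
    have hhw : ∀ q ∈ PP z0 z, 0 ≤ 1 - h q ∧ 1 - h q ≤ ww (-Q.D) q := by
      intro q hq
      have h1 := hq0 q hq
      have h2 := hh2 q hq
      have hq' := mem_PP.1 hq
      have hq2 : (2 : ℝ) ≤ q := by exact_mod_cast hq'.2.two_le
      have h3 : ((2 : ℕ) : ℝ) / q ≤ 1 := by
        rw [div_le_one h1]
        push_cast
        exact hq2
      refine ⟨by linarith [h2.2], ?_⟩
      unfold ww
      split_ifs with hJ
      · have h4 := rr_ge Q q hq'.2 (by omega) (hpa q hq) hJ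
        have h5 : (2 * (q : ℝ) - 1) ≤ rr Q q := by
          have h6 : (2 * q - 1 : ℕ) ≤ rr Q q := h4
          have h7 : 2 * q ≤ rr Q q + 1 := by omega
          have h8 : ((2 * q : ℕ) : ℝ) ≤ ((rr Q q + 1 : ℕ) : ℝ) := by exact_mod_cast h7
          push_cast at h8
          linarith
        have h6 : (2 * (q : ℝ) - 1) / (q : ℝ) ^ 2 ≤ h q := by
          rw [hh]
          exact div_le_div_of_nonneg_right h5 (by positivity)
        have h7 : (1 - 1 / (q : ℝ)) ^ 2 = 1 - (2 * (q : ℝ) - 1) / (q : ℝ) ^ 2 := by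
          field_simp
          ring
        rw [h7]
        linarith
      · linarith [h2.1]
    -- the main sum
    have hmain1 : 0 ≤ ∑ D ∈ (PP z0 z).powerset, U D * ∏ q ∈ D, h q := by
      have h1 := (hU3 (fun q => if q ∈ PP z0 z then h q else 0) (fun q => by
        split_ifs with hq
        · have h2 := hhw q hq
          have h3 := hh2 q hq
          exact ⟨h3.1, by linarith [h2.1]⟩
        · exact ⟨le_rfl, zero_le_one⟩)).2
      have h2 : ∀ D ∈ (PP z0 z).powerset, U D * ∏ q ∈ D, (if q ∈ PP z0 z then h q else 0) =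
          U D * ∏ q ∈ D, h q := by
        intro D hD
        rw [mem_powerset] at hD
        congr 1
        exact prod_congr rfl (fun q hq => by rw [if_pos (hD hq)])
      rw [sum_congr rfl h2] at h1
      refine le_trans (prod_nonneg fun q hq => ?_) h1
      rw [if_pos hq]
      exact (hhw q hq).1
    have hmain2 : ∑ D ∈ (PP z0 z).powerset, U D * ∏ q ∈ D, h q ≤
        2 * C1 * (2 / e) / Real.log Y := by
      have h1 := (hU4 h hh2).1
      rw [pow_zero] at h1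
      have h2 : ∏ q ∈ PP z0 z, (1 - h q) ≤ ∏ q ∈ PP z0 z, ww (-Q.D) q :=
        Finset.prod_le_prod (fun q hq => (hhw q hq).1) (fun q hq => (hhw q hq).2)
      have h3 := hprod z hzz0 hz2
      have hlogY : 0 < Real.log Y := Real.log_pos (by linarith)
      have hlogz : e / 2 * Real.log Y ≤ Real.log z := by
        rw [← Real.log_rpow hY0]
        exact Real.log_le_log (by positivity) hzge
      have h4 : C1 / Real.log z ≤ C1 * (2 / e) / Real.log Y := by
        rw [div_le_div_iff₀ (lt_of_lt_of_le (by positivity) hlogz) hlogY]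
        have h5 : C1 * (2 / e) * (e / 2 * Real.log Y) ≤ C1 * (2 / e) * Real.log z :=
          mul_le_mul_of_nonneg_left hlogz (by positivity)
        have h6 : C1 * (2 / e) * (e / 2 * Real.log Y) = C1 * Real.log Y := by
          field_simp
        linarith
      have h7 : (1 + 1 : ℝ) * ∏ q ∈ PP z0 z, (1 - h q) ≤ 2 * (C1 * (2 / e) / Real.log Y) := by
        have := (h2.trans h3).trans h4
        linarith
      refine (h1.trans h7).trans (le_of_eq ?_)
      ring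
    -- expansion
    have hexp : ∑ w ∈ S, (ν w : ℂ) * F w = ∑ D ∈ (PP z0 z).powerset, (U D : ℂ) *
        ∑ w ∈ S, (if (((∏ q ∈ D, q : ℕ) : ℤ) ∣ Q.q w) then F w else 0) := by
      have h1 : ∀ w ∈ S, (ν w : ℂ) * F w = ∑ D ∈ (PP z0 z).powerset, (U D : ℂ) *
          (if (((∏ q ∈ D, q : ℕ) : ℤ) ∣ Q.q w) then F w else 0) := by
        intro w _
        have h0 : ν w = ∑ D ∈ (PP z0 z).powerset, U D *
            (if (((∏ q ∈ D, q : ℕ) : ℤ) ∣ Q.q w) then (1 : ℝ) else 0) := by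
          refine sum_congr rfl (fun D hD => ?_)
          rw [mem_powerset] at hD
          congr 1
          have hiff : (((∏ q ∈ D, q : ℕ) : ℤ) ∣ Q.q w) ↔ ∀ q ∈ D, ((q : ℤ) ∣ Q.q w) := by
            rw [Int.natCast_dvd]
            constructor
            · intro h3 q hq
              rw [Int.natCast_dvd]
              exact (dvd_prod_of_mem _ hq).trans h3
            · intro h3
              apply Finset.prod_primes_dvd
              · intro q hq
                exact (mem_PP.1 (hD hq)).2.prime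
              · intro q hq
                exact Int.natCast_dvd.1 (h3 q hq)
          by_cases h3 : ∀ q ∈ D, ((q : ℤ) ∣ Q.q w)
          · rw [if_pos (hiff.2 h3)]
            exact prod_eq_one (fun q hq => by rw [if_pos (h3 q hq)])
          · rw [if_neg (fun h4 => h3 (hiff.1 h4))]
            push Not at h3
            obtain ⟨q, hq, h4⟩ := h3
            exact prod_eq_zero hq (by rw [if_neg h4])
        rw [h0, Complex.ofReal_sum, sum_mul]
        refine sum_congr rfl (fun D _ => ?_)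
        rw [Complex.ofReal_mul, mul_assoc]
        congr 1
        split_ifs
        · rw [Complex.ofReal_one, one_mul]
        · rw [Complex.ofReal_zero, zero_mul]
      rw [sum_congr rfl h1, sum_comm]
      exact sum_congr rfl (fun D _ => (mul_sum _ _ _).symm)
    -- the product formula
    have hrr : ∀ D ∈ (PP z0 z).powerset, (rr Q (∏ q ∈ D, q) : ℝ) / ((∏ q ∈ D, q : ℕ) : ℝ) ^ 2 =
        ∏ q ∈ D, h q := by
      intro D hD
      rw [mem_powerset] at hD
      rw [rr_prod Q D (fun q hq => (mem_PP.1 (hD hq)).2), hh]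
      push_cast
      rw [prod_div_distrib, prod_pow]
    have hdiff : ∑ w ∈ S, (ν w : ℂ) * F w -
        ((∑ D ∈ (PP z0 z).powerset, U D * ∏ q ∈ D, h q : ℝ) : ℂ) * M =
        ∑ D ∈ (PP z0 z).powerset, (U D : ℂ) *
        (∑ w ∈ S, (if (((∏ q ∈ D, q : ℕ) : ℤ) ∣ Q.q w) then F w else 0) -
          (rr Q (∏ q ∈ D, q) : ℂ) * (M / (((∏ q ∈ D, q : ℕ) : ℂ)) ^ 2)) := by
      rw [hexp]
      push_cast
      rw [sum_mul, ← sum_sub_distrib]
      refine sum_congr rfl (fun D hD => ?_)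
      have h1 := hrr D hD
      have h2 : ((rr Q (∏ q ∈ D, q) : ℂ)) / (((∏ q ∈ D, q : ℕ) : ℂ)) ^ 2 =
          ∏ q ∈ D, ((h q : ℝ) : ℂ) := by
        have h3 := congrArg (fun x : ℝ => (x : ℂ)) h1
        push_cast at h3 ⊢
        exact h3
      push_cast at h2
      rw [mul_sub]
      congr 1
      rw [mul_assoc, ← h2]
      ring
    have herr : ‖∑ w ∈ S, (ν w : ℂ) * F w -
        ((∑ D ∈ (PP z0 z).powerset, U D * ∏ q ∈ D, h q : ℝ) : ℂ) * M‖ ≤
        ∑ δ ∈ Icc 1 L, (2 : ℝ) ^ (δ.primeFactors.card) * δ * E δ := by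
      rw [hdiff]
      refine (norm_sum_le _ _).trans ?_
      -- only the sets with a non-zero weight
      set W : Finset (Finset ℕ) := ((PP z0 z).powerset).filter (fun D => U D ≠ 0) with hW
      have h1 : ∑ D ∈ (PP z0 z).powerset, ‖(U D : ℂ) *
          (∑ w ∈ S, (if (((∏ q ∈ D, q : ℕ) : ℤ) ∣ Q.q w) then F w else 0) -
          (rr Q (∏ q ∈ D, q) : ℂ) * (M / (((∏ q ∈ D, q : ℕ) : ℂ)) ^ 2))‖ ≤
          ∑ D ∈ W, (2 : ℝ) ^ ((∏ q ∈ D, q).primeFactors.card) * ((∏ q ∈ D, q : ℕ) : ℝ) *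
            E (∏ q ∈ D, q) := by
        rw [hW, sum_filter]
        refine sum_le_sum (fun D hD => ?_)
        have hD' := mem_powerset.1 hD
        by_cases hUD : U D = 0
        · rw [if_neg (by rw [hUD]; simp), hUD]
          simp
        · rw [if_pos hUD, norm_mul]
          have hpr : ∀ q ∈ D, q.Prime := fun q hq => (mem_PP.1 (hD' hq)).2
          have hpf : (∏ q ∈ D, q).primeFactors = D := Nat.primeFactors_prod hpr
          have hpos : 0 < ∏ q ∈ D, q := prod_pos (fun q hq => (hpr q hq).pos)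
          have hleL : ∏ q ∈ D, q ≤ L := by
            have h2 := hU2 D hD' (Or.inl hUD)
            rw [mul_zero, add_zero] at h2
            exact h2.trans (Nat.pow_le_pow_right hz1' (Nat.le_succ s))
          have hsqf : Squarefree (∏ q ∈ D, q) := by
            apply Finset.squarefree_prod_of_pairwise_isCoprime
            · intro a ha b hb hab
              exact Nat.coprime_iff_isRelPrime.1 ((Nat.coprime_primes (hpr a ha) (hpr b hb)).2 hab)
            · intro q hq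
              exact (hpr q hq).squarefree
          have hqd : ∀ q : ℕ, q.Prime → q ∣ ∏ q ∈ D, q → z0 < q := by
            intro q hq hqd
            have h3 : q ∈ (∏ q ∈ D, q).primeFactors :=
              Nat.mem_primeFactors.2 ⟨hq, hqd, hpos.ne'⟩
            rw [hpf] at h3
            exact (mem_PP.1 (hD' h3)).1.1
          have h2 := sum_zeros Q (∏ q ∈ D, q) hpos S F M (E (∏ q ∈ D, q))
            (hE _ hpos hleL hsqf hqd)
          have h3 : ‖(U D : ℂ)‖ ≤ 1 := by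
            rw [Complex.norm_real, Real.norm_eq_abs]
            exact (hU1 D).1
          have h4 : (rr Q (∏ q ∈ D, q) : ℝ) ≤ (2 : ℝ) ^ D.card * ((∏ q ∈ D, q : ℕ) : ℝ) := by
            rw [rr_prod Q D hpr]
            push_cast
            calc ∏ q ∈ D, (rr Q q : ℝ) ≤ ∏ q ∈ D, (2 * (q : ℝ)) :=
                  Finset.prod_le_prod (fun q _ => Nat.cast_nonneg _) (fun q hq => by
                    exact_mod_cast hle q (hD' hq))
              _ = (2 : ℝ) ^ D.card * ∏ q ∈ D, (q : ℝ) := by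
                  rw [prod_mul_distrib, prod_const]
          rw [hpf]
          calc ‖(U D : ℂ)‖ * ‖∑ w ∈ S, (if (((∏ q ∈ D, q : ℕ) : ℤ) ∣ Q.q w) then F w else 0) -
              (rr Q (∏ q ∈ D, q) : ℂ) * (M / (((∏ q ∈ D, q : ℕ) : ℂ)) ^ 2)‖
              ≤ 1 * (rr Q (∏ q ∈ D, q) * E (∏ q ∈ D, q)) :=
                mul_le_mul h3 h2 (norm_nonneg _) (by norm_num)
            _ = rr Q (∏ q ∈ D, q) * E (∏ q ∈ D, q) := one_mul _
            _ ≤ _ := mul_le_mul_of_nonneg_right h4 (hE0 _)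
      refine h1.trans ?_
      have hinj : Set.InjOn (fun D : Finset ℕ => ∏ q ∈ D, q) (W : Set (Finset ℕ)) := by
        intro D hD D' hD' heq
        have a1 := mem_powerset.1 (mem_filter.1 (mem_coe.1 hD)).1
        have a2 := mem_powerset.1 (mem_filter.1 (mem_coe.1 hD')).1
        have b1 := Nat.primeFactors_prod (s := D) (fun q hq => (mem_PP.1 (a1 hq)).2)
        have b2 := Nat.primeFactors_prod (s := D') (fun q hq => (mem_PP.1 (a2 hq)).2)
        simp only at heq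
        rw [← b1, ← b2, heq]
      rw [← sum_image (f := fun δ : ℕ => (2 : ℝ) ^ (δ.primeFactors.card) * (δ : ℝ) * E δ) hinj]
      apply sum_le_sum_of_subset_of_nonneg
      · intro δ hδ
        obtain ⟨D, hD, rfl⟩ := mem_image.1 hδ
        rw [hW, mem_filter, mem_powerset] at hD
        rw [mem_Icc]
        refine ⟨Nat.succ_le_of_lt (prod_pos (fun q hq => (mem_PP.1 (hD.1 hq)).2.pos)), ?_⟩
        have h2 := hU2 D hD.1 (Or.inl hD.2)
        rw [mul_zero, add_zero] at h2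
        exact h2.trans (Nat.pow_le_pow_right hz1' (Nat.le_succ s))
      · intro δ _ _
        have := hE0 δ
        positivity
    have hfin : ‖∑ w ∈ S, (ν w : ℂ) * F w‖ ≤
        ‖((∑ D ∈ (PP z0 z).powerset, U D * ∏ q ∈ D, h q : ℝ) : ℂ) * M‖ +
        ‖∑ w ∈ S, (ν w : ℂ) * F w -
        ((∑ D ∈ (PP z0 z).powerset, U D * ∏ q ∈ D, h q : ℝ) : ℂ) * M‖ := by
      have := norm_add_le (((∑ D ∈ (PP z0 z).powerset, U D * ∏ q ∈ D, h q : ℝ) : ℂ) * M)
        (∑ w ∈ S, (ν w : ℂ) * F w -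
        ((∑ D ∈ (PP z0 z).powerset, U D * ∏ q ∈ D, h q : ℝ) : ℂ) * M)
      rwa [add_sub_cancel] at this
    refine hfin.trans (add_le_add ?_ herr)
    rw [norm_mul, Complex.norm_real, Real.norm_of_nonneg hmain1]
    calc (∑ D ∈ (PP z0 z).powerset, U D * ∏ q ∈ D, h q) * ‖M‖
        ≤ (2 * C1 * (2 / e) / Real.log Y) * ‖M‖ :=
          mul_le_mul_of_nonneg_right hmain2 (norm_nonneg _)
      _ = 2 * C1 * (2 / e) * ‖M‖ / Real.log Y := by ring

end Pool.Agent.Lib.MP_a17b09_nt.MRSG.NugC12
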