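import Pool.Agent.Lib.MP_a17b09_nt.CH.Rep68

/-!
Project MRSG, (F2): direct similitudes are products of the matrices `Rel p r` (helper68).
No positivity is used.
-/

set_option autoImplicit false

open Finset

namespace Pool.Agent.Lib.MP_a17b09_nt.MRSG

open CH

/-- an eigenfunction on pairs (form of discriminant `-d`, vector): `c p r` are the eigenvalues of
the matrices of norm `p`, `σ k` those of the scalars prime to `K` -/
structure Efn (d : ℤ) (K : ℕ) (c : ℕ → ℤ → ℂ) (σ : ℤ → ℂ) (E : Form → V → ℂ) : Prop where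
  inv : ∀ (Q : Form) (γ : Mat) (u : V), Q.D = d → γ.det = 1 → E (Q.comp γ) u = E Q (γ.app u)
  rel : ∀ (p : ℕ) (r : ℤ) (Q Q' : Form) (M : Mat) (u : V), p.Prime → p.Coprime K →
    ¬ (p : ℤ) ∣ 2 * r → Q.D = d → Rel p r Q Q' M → E Q (M.app u) = c p r * E Q' u
  sca : ∀ (k : ℤ) (Q : Form) (u : V), IsCoprime k (K : ℤ) → Q.D = d → E Q (k • u) = σ k * E Q u

/-- admissible steps -/
def Stp (d : ℤ) (x : ℕ × ℤ) : Prop := x.1.Prime ∧ ¬ (x.1 : ℤ) ∣ 2 * x.2 ∧ (x.1 : ℤ) ∣ x.2 ^ 2 + d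

/-- a matrix of determinant divisible by `p`, not divisible by `p`: a root -/
theorem exists_root_of_mat {p : ℤ} (hp : Prime p) (hp2 : ¬ p ∣ 2) {Q : Form} (hD : ¬ p ∣ Q.D)
    {A : Mat} (hq : ∀ u, p ∣ Q.q (A.app u)) (hdet : p ∣ A.det)
    (hA : ¬ (p ∣ A.a ∧ p ∣ A.b ∧ p ∣ A.c ∧ p ∣ A.d)) :
    ∃ r : ℤ, ¬ p ∣ 2 * r ∧ p ∣ r ^ 2 + Q.D ∧ ∀ u, Eig p r Q (A.app u) := by
  -- a column which is not divisible by `p`
  obtain ⟨e, he⟩ : ∃ e : V, ¬ (p ∣ (A.app e).1 ∧ p ∣ (A.app e).2) := by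
    by_contra hne
    push Not at hne
    apply hA
    have h1 := hne (1, 0)
    have h2 := hne (0, 1)
    simp only [Mat.app, mul_one, mul_zero, add_zero, zero_add] at h1 h2
    exact ⟨h1.1, h2.1, h1.2, h2.2⟩
  set v := A.app e with hv
  -- a vector `w` with `wd w v` invertible
  obtain ⟨w, hw⟩ : ∃ w : V, ¬ p ∣ wd w v := by
    by_contra hne
    push Not at hne
    apply he
    have h1 := hne (1, 0)
    have h2 := hne (0, 1)
    simp only [wd, one_mul, zero_mul, sub_zero, zero_sub, dvd_neg] at h1 h2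
    exact ⟨h2, h1⟩
  have hpar : ∀ u, p ∣ wd (A.app u) v := by
    intro u
    rw [hv, Mat.wd_app]
    exact Dvd.dvd.mul_right hdet _
  have hqv : p ∣ Q.q v := hq e
  -- the root
  obtain ⟨x, y, hxy⟩ := (hp.coprime_iff_not_dvd).2 hw
  -- `B w v = r wd w v` modulo `p`, `r = B w v * y`
  have hBv : ∀ u : V, p ∣ Q.B u v - (Q.B w v * y) * wd u v := by
    intro u
    -- `wd w v * u = wd w u * v ... ` (Cramer)
    have hc : wd w v * Q.B u v = wd u v * Q.B w v + wd w u * (2 * Q.q v) := by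
      unfold wd Form.B Form.q; ring
    have h1 : p ∣ wd w v * (Q.B u v - (Q.B w v * y) * wd u v) := by
      have h2 : wd w v * (Q.B u v - (Q.B w v * y) * wd u v) =
          (x * p) * (wd u v * Q.B w v) + (2 * wd w u) * Q.q v := by
        have h3 : y * wd w v = 1 - x * p := by linarith
        have h4 : wd w v * (Q.B u v - (Q.B w v * y) * wd u v) =
          wd w v * Q.B u v - (Q.B w v * wd u v) * (y * wd w v) := by ring
        rw [h4, h3, hc]; ring
      rw [h2]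
      exact dvd_add (Dvd.dvd.mul_right (Dvd.dvd.mul_left (dvd_refl p) x) _)
        (Dvd.dvd.mul_left hqv _)
    exact (hp.dvd_or_dvd h1).resolve_left hw
  have hEv : Eig p (Q.B w v * y) Q v := hBv
  have hroot : p ∣ (Q.B w v * y) ^ 2 + Q.D := by
    -- apply to the two coordinate vectors
    have h1 := hBv (1, 0)
    have h2 := hBv (0, 1)
    generalize Q.B w v * y = r at h1 h2
    simp only [Form.B, wd] at h1 h2
    -- 2 a v1 + b v2 - r v2, b v1 + 2 c v2 + r v1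
    have h1' : p ∣ 2 * Q.a * v.1 + (Q.b - r) * v.2 := by
      have : 2 * Q.a * v.1 + (Q.b - r) * v.2 =
        2 * Q.a * 1 * v.1 + Q.b * (1 * v.2 + 0 * v.1) + 2 * Q.c * 0 * v.2 -
          r * (1 * v.2 - 0 * v.1) := by ring
      rw [this]; exact h1
    have h2' : p ∣ (Q.b + r) * v.1 + 2 * Q.c * v.2 := by
      have : (Q.b + r) * v.1 + 2 * Q.c * v.2 =
        2 * Q.a * 0 * v.1 + Q.b * (0 * v.2 + 1 * v.1) + 2 * Q.c * 1 * v.2 -
          r * (0 * v.2 - 1 * v.1) := by ring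
      rw [this]; exact h2
    have h3 : p ∣ (r ^ 2 + Q.D) * v.1 := by
      have : (r ^ 2 + Q.D) * v.1 = (2 * Q.c) * (2 * Q.a * v.1 + (Q.b - r) * v.2) -
          (Q.b - r) * ((Q.b + r) * v.1 + 2 * Q.c * v.2) := by unfold Form.D; ring
      rw [this]
      exact dvd_sub (Dvd.dvd.mul_left h1' _) (Dvd.dvd.mul_left h2' _)
    have h4 : p ∣ (r ^ 2 + Q.D) * v.2 := by
      have : (r ^ 2 + Q.D) * v.2 = (2 * Q.a) * ((Q.b + r) * v.1 + 2 * Q.c * v.2) -
          (Q.b + r) * (2 * Q.a * v.1 + (Q.b - r) * v.2) := by unfold Form.D; ring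
      rw [this]
      exact dvd_sub (Dvd.dvd.mul_left h2' _) (Dvd.dvd.mul_left h1' _)
    by_contra hne
    exact he ⟨(hp.dvd_or_dvd h3).resolve_left hne, (hp.dvd_or_dvd h4).resolve_left hne⟩
  refine ⟨Q.B w v * y, ?_, hroot, ?_⟩
  · intro h
    rcases hp.dvd_or_dvd h with h | h
    · exact hp2 h
    · apply hD
      have h5 := dvd_sub hroot (Dvd.dvd.mul_right h (Q.B w v * y))
      have h6 : (Q.B w v * y) ^ 2 + Q.D - Q.B w v * y * (Q.B w v * y) = Q.D := by ring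
      rwa [h6] at h5
  · -- every `A u` is a multiple of `v` modulo `p`
    intro u z
    generalize Q.B w v * y = r at hBv hEv hroot
    have h7 : wd w v * (Q.B z (A.app u) - r * wd z (A.app u)) =
        wd w (A.app u) * (Q.B z v - r * wd z v) +
          wd (A.app u) v * (Q.B z w - r * wd z w) := by
      unfold Form.B wd; ring
    have h8 : p ∣ wd w v * (Q.B z (A.app u) - r * wd z (A.app u)) := by
      rw [h7]
      exact dvd_add (Dvd.dvd.mul_left (hBv z) _) (Dvd.dvd.mul_right (hpar u) _)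
    exact (hp.dvd_or_dvd h8).resolve_left hw

/-- division by the matrix of a prime -/
theorem exists_quot {p r : ℤ} (hp : Prime p) (hr : ¬ p ∣ 2 * r) {Q Q1 Q' : Form} {M A : Mat}
    (hM : Rel p r Q Q1 M) (hA : ∀ u, Eig p r Q (A.app u)) {n : ℤ} (hdet : A.det = p * n)
    (hsim : ∀ u, Q.q (A.app u) = (p * n) * Q'.q u) :
    ∃ A1 : Mat, A = M.mul A1 ∧ A1.det = n ∧ ∀ u, Q1.q (A1.app u) = n * Q'.q u := by
  have hp0 := hp.ne_zero
  have key : ∀ u u' : V, p ∣ wd (M.app u) (A.app u') := fun u u' =>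
    Eig.wd_dvd hp hr (hM.eig u) (hA u')
  obtain ⟨k1, hk1⟩ := key (0, 1) (1, 0)
  obtain ⟨k2, hk2⟩ := key (0, 1) (0, 1)
  obtain ⟨k3, hk3⟩ := key (1, 0) (1, 0)
  obtain ⟨k4, hk4⟩ := key (1, 0) (0, 1)
  have hd := hM.det
  unfold Mat.det at hd
  simp only [Mat.app, wd, mul_zero, mul_one, zero_add, add_zero] at hk1 hk2 hk3 hk4
  have hMA : A = M.mul ⟨-k1, -k2, k3, k4⟩ := by
    apply Mat.ext <;> apply mul_left_cancel₀ hp0 <;> simp only [Mat.mul]
    · have : p * (M.a * -k1 + M.b * k3) = - M.a * (p * k1) + M.b * (p * k3) := by ring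
      rw [this, ← hk1, ← hk3, ← hd]; ring
    · have : p * (M.a * -k2 + M.b * k4) = - M.a * (p * k2) + M.b * (p * k4) := by ring
      rw [this, ← hk2, ← hk4, ← hd]; ring
    · have : p * (M.c * -k1 + M.d * k3) = - M.c * (p * k1) + M.d * (p * k3) := by ring
      rw [this, ← hk1, ← hk3, ← hd]; ring
    · have : p * (M.c * -k2 + M.d * k4) = - M.c * (p * k2) + M.d * (p * k4) := by ring
      rw [this, ← hk2, ← hk4, ← hd]; ring
  refine ⟨⟨-k1, -k2, k3, k4⟩, hMA, ?_, fun u => ?_⟩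
  · have h1 := Mat.det_mul M ⟨-k1, -k2, k3, k4⟩
    rw [← hMA, hdet, hM.det] at h1
    exact (mul_left_cancel₀ hp0 h1).symm
  · have h1 := hsim u
    rw [hMA, Mat.app_mul, hM.sim, mul_assoc] at h1
    exact mul_left_cancel₀ hp0 h1

/-- primitive matrix -/
def PrM (A : Mat) : Prop := ∀ p : ℕ, p.Prime →
  ¬ ((p : ℤ) ∣ A.a ∧ (p : ℤ) ∣ A.b ∧ (p : ℤ) ∣ A.c ∧ (p : ℤ) ∣ A.d)

/-- factorization, primitive case -/
theorem factor_prim {d : ℤ} {K : ℕ} (n : ℕ) : 0 < n → n.Coprime K → IsCoprime (n : ℤ) (2 * d) →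
    ∀ (Q Q' : Form) (A : Mat), Q.D = d → A.det = n → PrM A →
    (∀ u, Q.q (A.app u) = n * Q'.q u) →
    ∃ L : List (ℕ × ℤ), (∀ x ∈ L, Stp d x) ∧ (L.map Prod.fst).prod = n ∧
      ∀ c σ E, Efn d K c σ E → ∀ u, E Q (A.app u) =
        (L.map (fun x => c x.1 x.2)).prod * E Q' u := by
  induction n using Nat.strong_induction_on with
  | _ n ih =>
    intro hn hK hd Q Q' A hQ hdet hprim hsim
    rcases Nat.eq_or_lt_of_le (show 1 ≤ n from hn) with h1 | h1
    · subst h1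
      refine ⟨[], by simp, by simp, ?_⟩
      intro c σ E hE u
      have h2 : Q' = Q.comp A := by
        apply Form.ext_q
        intro v
        rw [Form.comp_q, hsim]
        simp
      rw [h2, hE.inv Q A u hQ (by rw [hdet]; simp)]
      simp
    · obtain ⟨p, hp, m, hm⟩ := Nat.exists_prime_and_dvd (n := n) (by omega)
      have hpp : Prime (p : ℤ) := Nat.prime_iff_prime_int.1 hp
      have hm0 : 0 < m := Nat.pos_of_ne_zero (by rintro rfl; simp at hm; omega)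
      have hmn : m < n := by
        rw [hm]
        exact (Nat.lt_mul_iff_one_lt_left hm0).2 hp.one_lt
      have hpn : (p : ℤ) ∣ (n : ℤ) := by
        rw [hm]; push_cast; exact Dvd.intro _ rfl
      have hpd : IsCoprime (p : ℤ) (2 * d) := hd.of_isCoprime_of_dvd_left hpn
      have hp2 : ¬ (p : ℤ) ∣ 2 := by
        intro h
        have := (hpd.of_isCoprime_of_dvd_right (Dvd.intro _ rfl : (2 : ℤ) ∣ 2 * d))
        exact hpp.not_isUnit (this.isUnit_of_dvd h)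
      have hpD : ¬ (p : ℤ) ∣ Q.D := by
        intro h
        rw [hQ] at h
        have := (hpd.of_isCoprime_of_dvd_right (Dvd.intro_left 2 rfl : d ∣ 2 * d))
        exact hpp.not_isUnit (this.isUnit_of_dvd h)
      obtain ⟨r, hr1, hr2, hr3⟩ := exists_root_of_mat hpp hp2 hpD (A := A)
        (fun u => by rw [hsim]; exact Dvd.dvd.mul_right hpn _) (by rw [hdet]; exact hpn)
        (hprim p hp)
      obtain ⟨Q1, M, hM, hQ1, -⟩ := exists_rel hpp hr1 Q hr2
      have hnm : (n : ℤ) = p * m := by rw [hm]; push_cast; ring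
      obtain ⟨A1, hA1, hA1d, hA1s⟩ := exists_quot hpp hr1 hM hr3 (n := (m : ℤ))
        (by rw [hdet, hnm]) (fun u => by rw [hsim, hnm])
      have hprim1 : PrM A1 := by
        intro q hq h
        apply hprim q hq
        rw [hA1]
        unfold Mat.mul
        refine ⟨?_, ?_, ?_, ?_⟩
        · exact dvd_add (Dvd.dvd.mul_left h.1 _) (Dvd.dvd.mul_left h.2.2.1 _)
        · exact dvd_add (Dvd.dvd.mul_left h.2.1 _) (Dvd.dvd.mul_left h.2.2.2 _)
        · exact dvd_add (Dvd.dvd.mul_left h.1 _) (Dvd.dvd.mul_left h.2.2.1 _)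
        · exact dvd_add (Dvd.dvd.mul_left h.2.1 _) (Dvd.dvd.mul_left h.2.2.2 _)
      have hpK : p.Coprime K := Nat.Coprime.coprime_dvd_left (Dvd.intro _ hm.symm) hK
      have hmK : m.Coprime K := Nat.Coprime.coprime_dvd_left (Dvd.intro_left _ hm.symm) hK
      obtain ⟨L, hL1, hL2, hL3⟩ := ih m hmn hm0 hmK
        (hd.of_isCoprime_of_dvd_left (by rw [hnm]; exact Dvd.intro_left _ rfl)) Q1 Q' A1
        (by rw [hQ1, hQ]) hA1d hprim1 hA1s
      refine ⟨(p, r) :: L, ?_, ?_, ?_⟩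
      · intro x hx
        rcases List.mem_cons.1 hx with rfl | hx
        · exact ⟨hp, hr1, by rw [← hQ]; exact hr2⟩
        · exact hL1 x hx
      · rw [List.map_cons, List.prod_cons, hL2, hm]
      · intro c σ E hE u
        rw [List.map_cons, List.prod_cons, hA1, Mat.app_mul,
          hE.rel p r Q Q1 M _ hp hpK hr1 hQ hM, hL3 c σ E hE u, mul_assoc]

/-- factorization -/
theorem factor {d : ℤ} {K : ℕ} {n : ℕ} (hn : 0 < n) (hK : n.Coprime K)
    (hd : IsCoprime (n : ℤ) (2 * d)) {Q Q' : Form} {A : Mat} (hQ : Q.D = d) (hdet : A.det = n)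
    (hsim : ∀ u, Q.q (A.app u) = n * Q'.q u) :
    ∃ (k : ℕ) (L : List (ℕ × ℤ)), 0 < k ∧ k.Coprime K ∧ (∀ x ∈ L, Stp d x) ∧
      k ^ 2 * (L.map Prod.fst).prod = n ∧
      ∀ c σ E, Efn d K c σ E → ∀ u, E Q (A.app u) =
        σ k * (L.map (fun x => c x.1 x.2)).prod * E Q' u := by
  -- the content
  set g : ℕ := Nat.gcd (Nat.gcd A.a.natAbs A.b.natAbs) (Nat.gcd A.c.natAbs A.d.natAbs) with hg
  have ga : (g : ℤ) ∣ A.a := Int.natCast_dvd.2 ((Nat.gcd_dvd_left _ _).trans (Nat.gcd_dvd_left _ _))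
  have gb : (g : ℤ) ∣ A.b := Int.natCast_dvd.2 ((Nat.gcd_dvd_left _ _).trans (Nat.gcd_dvd_right _ _))
  have gc : (g : ℤ) ∣ A.c := Int.natCast_dvd.2 ((Nat.gcd_dvd_right _ _).trans (Nat.gcd_dvd_left _ _))
  have gd : (g : ℤ) ∣ A.d :=
    Int.natCast_dvd.2 ((Nat.gcd_dvd_right _ _).trans (Nat.gcd_dvd_right _ _))
  obtain ⟨a, ha⟩ := ga
  obtain ⟨b, hb⟩ := gb
  obtain ⟨c, hc⟩ := gc
  obtain ⟨e, he⟩ := gd
  have hn0 : (n : ℤ) ≠ 0 := by exact_mod_cast hn.ne'
  have hdet' : (g : ℤ) ^ 2 * (a * e - b * c) = n := by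
    rw [← hdet]; unfold Mat.det; rw [ha, hb, hc, he]; ring
  have hg0 : (g : ℤ) ≠ 0 := by
    intro h0
    rw [h0] at hdet'
    apply hn0
    rw [← hdet']; ring
  have hgN : 0 < g := Nat.pos_of_ne_zero (by exact_mod_cast hg0)
  have hpos : 0 < a * e - b * c := by
    have h1 : (0 : ℤ) < (g : ℤ) ^ 2 * (a * e - b * c) := by rw [hdet']; exact_mod_cast hn
    exact (mul_pos_iff_of_pos_left (by positivity)).1 h1
  obtain ⟨m, hm⟩ : ∃ m : ℕ, a * e - b * c = m := ⟨_, (Int.toNat_of_nonneg hpos.le).symm⟩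
  have hm0 : 0 < m := by rw [hm] at hpos; exact_mod_cast hpos
  rw [hm] at hdet'
  have hgm : g ^ 2 * m = n := by exact_mod_cast hdet'
  have hgn : g ∣ n := by rw [← hgm]; exact Dvd.dvd.mul_right (dvd_pow_self g two_ne_zero) m
  have hmn : m ∣ n := Dvd.intro_left _ hgm
  have hgK : g.Coprime K := Nat.Coprime.coprime_dvd_left hgn hK
  have happ : ∀ u, A.app u = (g : ℤ) • (Mat.mk a b c e).app u := by
    intro u
    unfold Mat.app
    rw [ha, hb, hc, he]
    ext <;> simp <;> ring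
  have hprim : PrM ⟨a, b, c, e⟩ := by
    rintro p hp ⟨h1, h2, h3, h4⟩
    have hgp : g * p ∣ g := by
      conv_rhs => rw [hg]
      have k1 : g * p ∣ A.a.natAbs := by
        rw [ha, Int.natAbs_mul, Int.natAbs_natCast]
        exact Nat.mul_dvd_mul_left g (Int.natCast_dvd.1 h1)
      have k2 : g * p ∣ A.b.natAbs := by
        rw [hb, Int.natAbs_mul, Int.natAbs_natCast]
        exact Nat.mul_dvd_mul_left g (Int.natCast_dvd.1 h2)
      have k3 : g * p ∣ A.c.natAbs := by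
        rw [hc, Int.natAbs_mul, Int.natAbs_natCast]
        exact Nat.mul_dvd_mul_left g (Int.natCast_dvd.1 h3)
      have k4 : g * p ∣ A.d.natAbs := by
        rw [he, Int.natAbs_mul, Int.natAbs_natCast]
        exact Nat.mul_dvd_mul_left g (Int.natCast_dvd.1 h4)
      exact Nat.dvd_gcd (Nat.dvd_gcd k1 k2) (Nat.dvd_gcd k3 k4)
    have h5 := Nat.le_of_dvd hgN hgp
    have h6 := hp.one_lt
    nlinarith
  have hsim' : ∀ u, Q.q ((Mat.mk a b c e).app u) = m * Q'.q u := by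
    intro u
    have h1 := hsim u
    rw [happ, Form.q_smul, ← hdet'] at h1
    have h2 : (g : ℤ) ^ 2 * Q.q ((Mat.mk a b c e).app u) = (g : ℤ) ^ 2 * (m * Q'.q u) := by
      rw [h1]; ring
    exact mul_left_cancel₀ (pow_ne_zero 2 hg0) h2
  obtain ⟨L, hL1, hL2, hL3⟩ := factor_prim m hm0 (Nat.Coprime.coprime_dvd_left hmn hK)
    (hd.of_isCoprime_of_dvd_left (by exact_mod_cast hmn)) Q Q' ⟨a, b, c, e⟩ hQ
    (by unfold Mat.det; exact hm) hprim hsim'
  refine ⟨g, L, hgN, hgK, hL1, by rw [hL2, hgm], ?_⟩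
  intro cc σ E hE u
  rw [happ, hE.sca (g : ℤ) Q _ (Nat.isCoprime_iff_coprime.2 hgK) hQ, hL3 cc σ E hE u, mul_assoc]

/-- multiplication by `X + Z √(-d)` -/
def mX (Q : Form) (X Z : ℤ) : Mat := ⟨X - Q.b * Z, -(2 * Q.c * Z), 2 * Q.a * Z, X + Q.b * Z⟩

theorem mX_det (Q : Form) (X Z : ℤ) : (mX Q X Z).det = X ^ 2 + Q.D * Z ^ 2 := by
  unfold mX Mat.det Form.D; ring

theorem mX_q (Q : Form) (X Z : ℤ) (u : V) :
    Q.q ((mX Q X Z).app u) = (X ^ 2 + Q.D * Z ^ 2) * Q.q u := by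
  unfold mX Mat.app Form.D Form.q; ring

/-- (F2): the principal ideal `X + K Y √(-d)` -/
theorem conic {d : ℤ} {K : ℕ} {n : ℕ} {X Y : ℤ} (hn : 0 < n) (hK : n.Coprime K)
    (hd : IsCoprime (n : ℤ) (2 * d)) (h : X ^ 2 + d * (K * Y) ^ 2 = n) {Q : Form} (hQ : Q.D = d) :
    ∃ (k : ℕ) (L : List (ℕ × ℤ)), 0 < k ∧ k.Coprime K ∧ (∀ x ∈ L, Stp d x) ∧
      k ^ 2 * (L.map Prod.fst).prod = n ∧
      ∀ c σ E, Efn d K c σ E → (∀ (u w : V), E Q (u + (K : ℤ) • w) = E Q u) →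
        ∀ u, E Q u ≠ 0 → σ X = σ k * (L.map (fun x => c x.1 x.2)).prod := by
  obtain ⟨k, L, h1, h2, h3, h4, h5⟩ := factor hn hK hd (A := mX Q X (K * Y)) (Q' := Q) hQ
    (by rw [mX_det, hQ, h]) (fun u => by rw [mX_q, hQ, h])
  refine ⟨k, L, h1, h2, h3, h4, fun c σ E hE hper u hu => ?_⟩
  have h6 := h5 c σ E hE u
  have h7 : (mX Q X (K * Y)).app u = X • u + (K : ℤ) • ((-(Q.b * Y) * u.1 - 2 * Q.c * Y * u.2,
      2 * Q.a * Y * u.1 + Q.b * Y * u.2) : V) := by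
    unfold mX Mat.app
    ext <;> simp <;> ring
  have hXK : IsCoprime X (K : ℤ) := by
    have h8 : IsCoprime (n : ℤ) (K : ℤ) := Nat.isCoprime_iff_coprime.2 hK
    rw [← h] at h8
    have h9 : X ^ 2 + d * (K * Y) ^ 2 = X ^ 2 + (K : ℤ) * (d * K * Y ^ 2) := by ring
    rw [h9] at h8
    have h10 := (IsCoprime.add_mul_left_left_iff).1 h8
    exact (IsCoprime.pow_left_iff (by norm_num : 0 < 2)).1 h10
  rw [h7, hper, hE.sca X Q u hXK hQ] at h6
  exact mul_right_cancel₀ hu h6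

end Pool.Agent.Lib.MP_a17b09_nt.MRSG
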