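import Mathlib

/-!
MRSG, frequency 0: the conic `X² + d (K Y)² = m n²` for `m ≡ 1` modulo `16 d K²`, `-d` a square
modulo `m`: it has a solution with `n` prime to `2 d K` and `X ≡ n` modulo `2 d K`.
-/

set_option autoImplicit false

namespace Pool.Agent.Lib.MP_a17b09_nt.MRSG91

private theorem k1_64 (P k : ℤ) (hP : 0 < P) (l1 : -P < P * k) : -1 < k := by
  by_contra hcon
  push Not at hcon
  have := mul_le_mul_of_nonneg_left hcon hP.le
  linarith only [this, l1]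

private theorem k2_64 (P k : ℤ) (hP : 0 < P) (l2 : P * k < 2 * P) : k < 2 := by
  by_contra hcon
  push Not at hcon
  have := mul_le_mul_of_nonneg_left hcon hP.le
  linarith only [this, l2]

private theorem k3_64 (G l : ℕ) (hG : G ≠ 0) (hl : 2 ≤ l) (h : G * l ≤ G) : False := by
  have h1 := Nat.mul_le_mul_left G hl
  omega

/-- Legendre's theorem for `x² + d y² = m z²`, `m ≡ 1 mod d`, `-d` a square modulo `m` -/
theorem leg0 (d : ℕ) (hd : 0 < d) (m : ℕ) (hm : 0 < m) (hmd : m ≡ 1 [MOD d])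
    (r : ℤ) (hr : (m : ℤ) ∣ r ^ 2 + d) :
    ∃ x y z : ℤ, z ≠ 0 ∧ x ^ 2 + d * y ^ 2 = m * z ^ 2 := by
  classical
  by_cases hsqm : IsSquare m
  · obtain ⟨s, hs⟩ := hsqm
    refine ⟨s, 0, 1, one_ne_zero, ?_⟩
    rw [hs]; push_cast; ring
  have hcop : Nat.Coprime m d := by
    have : Nat.gcd m d = Nat.gcd 1 d := hmd.gcd_eq
    simpa [Nat.Coprime] using this
  obtain ⟨u, v, huv⟩ : ∃ u v : ℤ, u * m + v * d = 1 := by
    have h := Int.isCoprime_iff_gcd_eq_one.2 (by simpa using hcop : Int.gcd (m : ℤ) (d : ℤ) = 1)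
    obtain ⟨u, v, h⟩ := h
    exact ⟨u, v, h⟩
  set β : ℤ := r * v * d with hβ
  set γ : ℤ := u * m with hγ
  have hMpos : 0 < m * d := Nat.mul_pos hm hd
  have : NeZero (m * d) := ⟨hMpos.ne'⟩
  set a := Nat.sqrt (m * d - 1) + 1 with ha
  set b := Nat.sqrt (m - 1) + 1 with hb
  set c := Nat.sqrt (d - 1) + 1 with hc
  have ha2 : m * d ≤ a ^ 2 := by
    have h := Nat.lt_succ_sqrt' (m * d - 1)
    rw [Nat.succ_eq_add_one] at h
    rw [ha]; omega
  have hb2 : m ≤ b ^ 2 := by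
    have h := Nat.lt_succ_sqrt' (m - 1)
    rw [Nat.succ_eq_add_one] at h
    rw [hb]; omega
  have hb2' : m < b ^ 2 := by
    rcases lt_or_eq_of_le hb2 with h | h
    · exact h
    · exfalso
      exact hsqm ⟨b, by rw [h]; ring⟩
  have hc2 : d ≤ c ^ 2 := by
    have h := Nat.lt_succ_sqrt' (d - 1)
    rw [Nat.succ_eq_add_one] at h
    rw [hc]; omega
  have habc : m * d < a * b * c := by
    have h1 : (m * d) ^ 2 < (a * b * c) ^ 2 := by
      calc (m * d) ^ 2 = (m * d) * m * d := by ring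
        _ ≤ (a ^ 2) * m * d := by gcongr
        _ < (a ^ 2) * (b ^ 2) * d := by
            gcongr
        _ ≤ a ^ 2 * b ^ 2 * c ^ 2 := by gcongr
        _ = (a * b * c) ^ 2 := by ring
    exact lt_of_pow_lt_pow_left₀ 2 (by positivity) h1
  let S : Finset (ℕ × ℕ × ℕ) := Finset.range a ×ˢ (Finset.range b ×ˢ Finset.range c)
  let F : ℕ × ℕ × ℕ → ZMod (m * d) :=
    fun t => (((t.1 : ℤ) - β * (t.2.1 : ℤ) - γ * (t.2.2 : ℤ) : ℤ) : ZMod (m * d))
  have hcard : (Finset.univ : Finset (ZMod (m * d))).card < S.card := by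
    have : S.card = a * b * c := by simp [S, mul_assoc]
    rw [this, Finset.card_univ, ZMod.card]
    exact habc
  obtain ⟨t1, ht1, t2, ht2, hne, hF⟩ := Finset.exists_ne_map_eq_of_card_lt_of_maps_to hcard
    (f := F) (fun x _ => Finset.mem_coe.2 (Finset.mem_univ _))
  obtain ⟨x1, y1, z1⟩ := t1
  obtain ⟨x2, y2, z2⟩ := t2
  simp only [S, Finset.mem_product, Finset.mem_range] at ht1 ht2
  obtain ⟨hx1, hy1, hz1⟩ := ht1
  obtain ⟨hx2, hy2, hz2⟩ := ht2
  set x : ℤ := (x1 : ℤ) - x2 with hx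
  set y : ℤ := (y1 : ℤ) - y2 with hy
  set z : ℤ := (z1 : ℤ) - z2 with hz
  have hdiv : ((m * d : ℕ) : ℤ) ∣ x - β * y - γ * z := by
    have h := hF
    simp only [F] at h
    rw [← sub_eq_zero, ← Int.cast_sub, ZMod.intCast_zmod_eq_zero_iff_dvd] at h
    convert h using 1
    rw [hx, hy, hz]; ring
  have hbd : ∀ (n t : ℕ) (w : ℤ), 0 < n → |w| ≤ (Nat.sqrt (n - 1) : ℤ) → w ^ 2 < n := by
    intro n t w hn hw
    have h1 : w ^ 2 ≤ (Nat.sqrt (n - 1) : ℤ) ^ 2 := by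
      rw [← sq_abs w]; gcongr
    have h2 : (Nat.sqrt (n - 1)) ^ 2 ≤ n - 1 := Nat.sqrt_le' _
    have h3 : ((Nat.sqrt (n - 1) : ℤ)) ^ 2 ≤ (n : ℤ) - 1 := by
      have : (((Nat.sqrt (n - 1)) ^ 2 : ℕ) : ℤ) ≤ ((n - 1 : ℕ) : ℤ) := by exact_mod_cast h2
      rw [Nat.cast_sub (by omega)] at this
      push_cast at this
      exact this
    linarith
  have hx2b : x ^ 2 < m * d := by
    have := hbd (m * d) 0 x hMpos (by rw [abs_le]; constructor <;> rw [hx] <;> omega)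
    exact_mod_cast this
  have hy2b : y ^ 2 < m := hbd m 0 y hm (by rw [abs_le]; constructor <;> rw [hy] <;> omega)
  have hz2b : z ^ 2 < d := hbd d 0 z hd (by rw [abs_le]; constructor <;> rw [hz] <;> omega)
  have hm' : (0 : ℤ) < m := by exact_mod_cast hm
  have hd' : (0 : ℤ) < d := by exact_mod_cast hd
  obtain ⟨w, hw⟩ := hdiv
  push_cast at hw
  obtain ⟨s, hs⟩ := hr
  set Q : ℤ := x ^ 2 + d * y ^ 2 - m * z ^ 2 with hQ
  have hQp : (m : ℤ) ∣ Q := by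
    have hxr : (m : ℤ) ∣ x - r * y := by
      refine ⟨d * w + u * z - r * u * y, ?_⟩
      have : x = β * y + γ * z + m * d * w := by linarith only [hw]
      rw [this, hβ, hγ]
      have h2 : v * d = 1 - u * m := by linarith only [huv]
      calc r * v * ↑d * y + u * ↑m * z + ↑m * ↑d * w - r * y
          = r * (v * d) * y + u * m * z + m * d * w - r * y := by ring
        _ = _ := by rw [h2]; ring
    have : Q = (x - r * y) * (x + r * y) + (r ^ 2 + d) * y ^ 2 - m * z ^ 2 := by rw [hQ]; ring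
    rw [this]
    apply dvd_sub
    · apply dvd_add
      · exact Dvd.dvd.mul_right hxr _
      · exact Dvd.dvd.mul_right ⟨s, hs⟩ _
    · exact Dvd.intro _ rfl
  have hp1d : (d : ℤ) ∣ (m : ℤ) - 1 := by
    have := (Nat.modEq_iff_dvd.1 hmd.symm)
    simpa using this
  have hQd : (d : ℤ) ∣ Q := by
    have hxz : (d : ℤ) ∣ x - z := by
      refine ⟨m * w + r * v * y - v * z, ?_⟩
      have : x = β * y + γ * z + m * d * w := by linarith only [hw]
      rw [this, hβ, hγ]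
      have h2 : u * m = 1 - v * d := by linarith only [huv]
      calc r * v * ↑d * y + u * ↑m * z + ↑m * ↑d * w - z
          = r * v * d * y + (u * m) * z + m * d * w - z := by ring
        _ = _ := by rw [h2]; ring
    have : Q = (x - z) * (x + z) - (m - 1) * z ^ 2 + d * y ^ 2 := by rw [hQ]; ring
    rw [this]
    apply dvd_add
    · apply dvd_sub
      · exact Dvd.dvd.mul_right hxz _
      · exact Dvd.dvd.mul_right hp1d _
    · exact Dvd.intro _ rfl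
  have hQpd : ((m : ℤ) * d) ∣ Q := by
    apply IsCoprime.mul_dvd _ hQp hQd
    exact ⟨u, v, huv⟩
  have hcase : Q = 0 ∨ Q = m * d := by
    obtain ⟨k, hk⟩ := hQpd
    have hmd0 : (0 : ℤ) < m * d := by positivity
    have e1 : (d : ℤ) * y ^ 2 < d * m := (mul_lt_mul_iff_right₀ hd').2 hy2b
    have e2 : (m : ℤ) * z ^ 2 < m * d := (mul_lt_mul_iff_right₀ hm').2 hz2b
    have e3 : 0 ≤ (d : ℤ) * y ^ 2 := by positivity
    have e4 : 0 ≤ (m : ℤ) * z ^ 2 := by positivity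
    have e5 : 0 ≤ x ^ 2 := sq_nonneg x
    have l1 : - ((m : ℤ) * d) < Q := by rw [hQ]; linarith
    have l2 : Q < 2 * ((m : ℤ) * d) := by
      rw [hQ]
      have : (d : ℤ) * m = m * d := mul_comm _ _
      linarith
    rw [hk] at l1 l2
    have k1 : -1 < k := k1_64 _ _ hmd0 l1
    have k2 : k < 2 := k2_64 _ _ hmd0 l2
    have : k = 0 ∨ k = 1 := by omega
    rcases this with rfl | rfl
    · left; rw [hk, mul_zero]
    · right; rw [hk, mul_one]
  rcases hcase with h0 | h1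
  · refine ⟨x, y, z, ?_, by linarith⟩
    intro hz0
    have hxy : x ^ 2 + d * y ^ 2 = 0 := by rw [hQ, hz0] at h0; linarith
    have e3 : 0 ≤ (d : ℤ) * y ^ 2 := by positivity
    have hx0 : x = 0 := by
      have : x ^ 2 = 0 := le_antisymm (by linarith) (sq_nonneg x)
      exact pow_eq_zero_iff (two_ne_zero) |>.1 this
    have hy0 : y = 0 := by
      have : (d : ℤ) * y ^ 2 = 0 := by rw [hx0] at hxy; linarith
      rcases mul_eq_zero.1 this with h | h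
      · exact absurd h hd'.ne'
      · exact pow_eq_zero_iff (two_ne_zero) |>.1 h
    apply hne
    have e1 : x1 = x2 := by rw [hx] at hx0; omega
    have e2 : y1 = y2 := by rw [hy] at hy0; omega
    have e3 : z1 = z2 := by rw [hz] at hz0; omega
    rw [e1, e2, e3]
  · refine ⟨x * z - d * y, x + y * z, z ^ 2 + d, ?_, ?_⟩
    · have : 0 < z ^ 2 + (d : ℤ) := by positivity
      exact this.ne'
    · have hxy : x ^ 2 + d * y ^ 2 = m * (z ^ 2 + d) := by rw [hQ] at h1; linarith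
      calc (x * z - d * y) ^ 2 + d * (x + y * z) ^ 2 = (x ^ 2 + d * y ^ 2) * (z ^ 2 + d) := by ring
        _ = m * (z ^ 2 + d) ^ 2 := by rw [hxy]; ring

/-- the same with `y ≠ 0` -/
theorem leg (d : ℕ) (hd : 0 < d) (m : ℕ) (hm : 0 < m) (hmd : m ≡ 1 [MOD d])
    (r : ℤ) (hr : (m : ℤ) ∣ r ^ 2 + d) :
    ∃ x y z : ℤ, y ≠ 0 ∧ x ^ 2 + d * y ^ 2 = m * z ^ 2 := by
  obtain ⟨x, y, z, hz, h⟩ := leg0 d hd m hm hmd r hr
  by_cases hy : y = 0
  · subst hy
    refine ⟨(d - 1) * x, -2 * x, (d + 1) * z, ?_, ?_⟩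
    · intro hx
      have hx0 : x = 0 := by omega
      subst hx0
      have h2 : (m : ℤ) * z ^ 2 = 0 := by linarith
      rcases mul_eq_zero.1 h2 with h3 | h3
      · have : (0 : ℤ) < m := by exact_mod_cast hm
        exact this.ne' h3
      · exact hz (pow_eq_zero_iff (two_ne_zero) |>.1 h3)
    · have h2 : x ^ 2 = m * z ^ 2 := by linarith
      calc ((d - 1) * x) ^ 2 + d * (-2 * x) ^ 2 = (d + 1) ^ 2 * x ^ 2 := by ring
        _ = (d + 1) ^ 2 * (m * z ^ 2) := by rw [h2]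
        _ = _ := by ring
  · exact ⟨x, y, z, hy, h⟩

/-- square roots of `m ≡ 1 mod 8 B` modulo powers of `B`, congruent to `1` modulo `B` -/
theorem sqrt_lift (B m : ℤ) (h : 8 * B ∣ m - 1) (j : ℕ) :
    ∃ S : ℤ, 4 * B ∣ S - 1 ∧ 8 * B ^ (j + 1) ∣ S ^ 2 - m := by
  induction j with
  | zero =>
    refine ⟨1, by simp, ?_⟩
    obtain ⟨k, hk⟩ := h
    exact ⟨-k, by rw [zero_add, pow_one, one_pow]; linarith⟩
  | succ j ih =>
    obtain ⟨S, ⟨a, ha⟩, t, ht⟩ := ih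
    refine ⟨S - 4 * B ^ (j + 1) * t, ⟨a - B ^ j * t, ?_⟩, ⟨-4 * a * t + 2 * B ^ j * t ^ 2, ?_⟩⟩
    · rw [pow_succ]
      linear_combination ha
    · have e1 : S = 1 + 4 * B * a := by linarith
      have e2 : S ^ 2 - m = 8 * B ^ (j + 1) * t := ht
      have : (S - 4 * B ^ (j + 1) * t) ^ 2 - m =
          (S ^ 2 - m) - 8 * B ^ (j + 1) * t * S + 16 * B ^ (j + 1) * B ^ (j + 1) * t ^ 2 := by ring
      rw [this, e2, e1, pow_succ, pow_succ]
      ring

/-- divisors of powers -/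
theorem dvd_pow_small (G B c J : ℕ) (hG : G ∣ B ^ J) (hc : c ≠ 0) (hGc : G ∣ c) (hB : B ≠ 0) :
    G ∣ B ^ c := by
  have hG0 : G ≠ 0 := fun h => hc (by rw [h] at hGc; exact zero_dvd_iff.1 hGc)
  rw [← Nat.factorization_le_iff_dvd hG0 (pow_ne_zero _ hB)]
  intro l
  rw [Nat.factorization_pow]
  simp only [Finsupp.coe_smul, Pi.smul_apply, smul_eq_mul]
  by_cases hl : l ∣ B
  · by_cases hlp : l.Prime
    · have h1 : 1 ≤ B.factorization l := hlp.factorization_pos_of_dvd hB hl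
      have h2 : G.factorization l < G := Nat.factorization_lt l hG0
      have h3 : G ≤ c := Nat.le_of_dvd (Nat.pos_of_ne_zero hc) hGc
      calc G.factorization l ≤ c * 1 := by omega
        _ ≤ c * B.factorization l := Nat.mul_le_mul_left _ h1
    · rw [Nat.factorization_eq_zero_of_not_prime _ hlp]
      exact Nat.zero_le _
  · have h1 : G.factorization l = 0 := by
      by_cases hlp : l.Prime
      · apply Nat.factorization_eq_zero_of_not_dvd
        intro h2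
        exact hl (hlp.dvd_of_dvd_pow (h2.trans hG))
      · exact Nat.factorization_eq_zero_of_not_prime _ hlp
    rw [h1]
    exact Nat.zero_le _

/-- **(F1)** -/
theorem conic (d K m : ℕ) (hd : 0 < d) (hK : 0 < K) (hm : 0 < m)
    (h1 : m ≡ 1 [MOD 16 * d * K ^ 2]) (r : ℤ) (hr : (m : ℤ) ∣ r ^ 2 + d) :
    ∃ X Y : ℤ, ∃ n : ℕ, 0 < n ∧ n.Coprime (2 * d * K) ∧ X ^ 2 + d * (K * Y) ^ 2 = m * n ^ 2 ∧
      ((2 * d * K : ℕ) : ℤ) ∣ X - n ∧ ∀ l : ℤ, Prime l → l ∣ X → l ∣ Y → ¬ l ∣ n := by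
  obtain ⟨X0, Y0, Z0, hY0, h0⟩ := leg (d * K ^ 2) (by positivity) m hm
    (Nat.ModEq.of_mul_left 16 (by rw [← mul_assoc]; exact h1)) (r * K) (by
      have : (r * K) ^ 2 + ((d * K ^ 2 : ℕ) : ℤ) = (r ^ 2 + d) * K ^ 2 := by push_cast; ring
      rw [this]
      exact Dvd.dvd.mul_right hr _)
  push_cast at h0
  set B : ℕ := 2 * d * K with hB
  have hBpos : 0 < B := by positivity
  have hB2 : 2 ≤ B := by
    rw [hB]
    have : 1 ≤ d * K := Nat.mul_pos hd hK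
    nlinarith
  have h8 : (8 * (B : ℤ)) ∣ (m : ℤ) - 1 := by
    have h2 := (Nat.modEq_iff_dvd.1 h1.symm)
    push_cast at h2
    refine Dvd.dvd.trans ⟨K, ?_⟩ h2
    rw [hB]; push_cast; ring
  set c0 : ℤ := 2 * m * d * K ^ 2 * Y0 ^ 2 with hc0
  have hm' : (m : ℤ) ≠ 0 := by exact_mod_cast hm.ne'
  have hd' : (d : ℤ) ≠ 0 := by exact_mod_cast hd.ne'
  have hK' : (K : ℤ) ≠ 0 := by exact_mod_cast hK.ne'
  have hc0' : c0 ≠ 0 := by
    rw [hc0]
    positivity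
  set J : ℕ := c0.natAbs + 1 with hJ
  obtain ⟨S, hS1, hS2⟩ := sqrt_lift (B : ℤ) m h8 c0.natAbs
  rw [← hJ] at hS2
  have hBS : (B : ℤ) ∣ S - 1 := (Dvd.intro_left 4 rfl).trans hS1
  have hBm : (B : ℤ) ^ J ∣ S ^ 2 - m := (Dvd.intro_left 8 rfl).trans hS2
  set b : ℤ := S * X0 - m * Z0 with hb
  set G : ℕ := Int.gcd (2 * b) ((B : ℤ) ^ J) with hG
  have hG1 : (G : ℤ) ∣ 2 * b := Int.gcd_dvd_left _ _
  have hG2 : (G : ℤ) ∣ (B : ℤ) ^ J := Int.gcd_dvd_right _ _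
  have hGc : (G : ℤ) ∣ c0 := by
    have e : c0 = 2 * (S ^ 2 - m) * X0 ^ 2 - (2 * b) * (S * X0 + m * Z0) := by
      rw [hc0, hb]
      linear_combination (2 * (m : ℤ)) * h0
    rw [e]
    apply dvd_sub
    · exact Dvd.dvd.mul_right (Dvd.dvd.mul_left (hG2.trans hBm) _) _
    · exact Dvd.dvd.mul_right hG1 _
  have hG2' : G ∣ B ^ J := by exact_mod_cast hG2
  have hGB : G ∣ B ^ c0.natAbs := dvd_pow_small G B c0.natAbs J hG2'
    (Int.natAbs_ne_zero.2 hc0') (Int.natCast_dvd.1 hGc) hBpos.ne'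
  have hGB' : G * B ∣ B ^ J := by
    rw [hJ, pow_succ]
    exact Nat.mul_dvd_mul_right hGB _
  have hG0 : G ≠ 0 := by
    intro h
    rw [h] at hG2'
    have := zero_dvd_iff.1 hG2'
    exact (pow_ne_zero _ hBpos.ne') this
  have hG0' : (G : ℤ) ≠ 0 := by exact_mod_cast hG0
  obtain ⟨b1, hb1⟩ := hG1
  have hb1c : IsCoprime b1 (B : ℤ) := by
    rw [Int.isCoprime_iff_gcd_eq_one]
    by_contra hcon
    obtain ⟨l, hl, hl2⟩ := Nat.exists_prime_and_dvd hcon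
    have l1 : (l : ℤ) ∣ b1 := (Int.natCast_dvd_natCast.2 hl2).trans (Int.gcd_dvd_left _ _)
    have l2 : (l : ℤ) ∣ (B : ℤ) := (Int.natCast_dvd_natCast.2 hl2).trans (Int.gcd_dvd_right _ _)
    have l3 : ((G * l : ℕ) : ℤ) ∣ 2 * b := by
      rw [hb1]; push_cast
      exact mul_dvd_mul_left _ l1
    have l4 : ((G * l : ℕ) : ℤ) ∣ (B : ℤ) ^ J := by
      have : G * l ∣ B ^ J := (Nat.mul_dvd_mul_left G (by exact_mod_cast l2)).trans hGB'
      exact_mod_cast this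
    have l5 : ((G * l : ℕ) : ℤ) ∣ (G : ℤ) := by
      rw [hG]
      exact Int.dvd_coe_gcd l3 l4
    have l6 : G * l ∣ G := by exact_mod_cast l5
    have l7 := Nat.le_of_dvd (Nat.pos_of_ne_zero hG0) l6
    exact k3_64 G l hG0 hl.two_le l7
  obtain ⟨t, ht⟩ : ∃ t : ℤ, S ^ 2 - m = G * (B * t) := by
    have h2 : ((G * B : ℕ) : ℤ) ∣ S ^ 2 - m := by
      have h3 : ((G * B : ℕ) : ℤ) ∣ (B : ℤ) ^ J := by exact_mod_cast hGB'
      exact h3.trans hBm
    obtain ⟨t, ht⟩ := h2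
    exact ⟨t, by rw [ht]; push_cast; ring⟩
  -- the new solution
  set X1 : ℤ := B * t * X0 - b1 * S with hX1
  set Y1 : ℤ := B * t * Y0 with hY1
  set Z1 : ℤ := B * t * Z0 - b1 with hZ1
  have hsol : X1 ^ 2 + d * (K * Y1) ^ 2 = m * Z1 ^ 2 := by
    apply mul_left_cancel₀ (pow_ne_zero 2 hG0')
    have eX : (G : ℤ) * X1 = (S ^ 2 - m) * X0 - 2 * b * S := by
      rw [hX1, ht, hb1]; ring
    have eY : (G : ℤ) * Y1 = (S ^ 2 - m) * Y0 := by
      rw [hY1, ht]; ring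
    have eZ : (G : ℤ) * Z1 = (S ^ 2 - m) * Z0 - 2 * b := by
      rw [hZ1, ht, hb1]; ring
    have e1 : (G : ℤ) ^ 2 * (X1 ^ 2 + d * (K * Y1) ^ 2) =
        (G * X1) ^ 2 + d * K ^ 2 * (G * Y1) ^ 2 := by ring
    have e2 : (G : ℤ) ^ 2 * (m * Z1 ^ 2) = m * (G * Z1) ^ 2 := by ring
    rw [e1, e2, eX, eY, eZ, hb]
    linear_combination ((S ^ 2 - (m : ℤ)) ^ 2) * h0
  have hXZ : (B : ℤ) ∣ X1 - Z1 := by
    obtain ⟨a, ha⟩ := hBS
    refine ⟨t * X0 - b1 * a - t * Z0, ?_⟩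
    rw [hX1, hZ1]
    linear_combination (-b1) * ha
  have hZc : IsCoprime Z1 (B : ℤ) := by
    have : Z1 = -b1 + B * (t * Z0) := by rw [hZ1]; ring
    rw [this]
    exact (IsCoprime.neg_left hb1c).add_mul_left_left _
  have hZ0 : Z1 ≠ 0 := by
    intro h
    rw [h] at hZc
    have h2 := isCoprime_zero_left.1 hZc
    have h3 := Int.natAbs_of_isUnit h2
    rw [Int.natAbs_natCast] at h3
    omega
  -- divide by the common factor
  set g : ℕ := Int.gcd (Int.gcd X1 Y1) Z1 with hg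
  have hg0 : g ≠ 0 := by
    rw [hg]
    intro h
    rw [Int.gcd_eq_zero_iff] at h
    exact hZ0 h.2
  have hg0' : (g : ℤ) ≠ 0 := by exact_mod_cast hg0
  have hgX : (g : ℤ) ∣ X1 := (Int.gcd_dvd_left _ _).trans (Int.gcd_dvd_left _ _)
  have hgY : (g : ℤ) ∣ Y1 := (Int.gcd_dvd_left _ _).trans (Int.gcd_dvd_right _ _)
  have hgZ : (g : ℤ) ∣ Z1 := Int.gcd_dvd_right _ _
  obtain ⟨X2, hX2⟩ := hgX
  obtain ⟨Y2, hY2⟩ := hgY
  obtain ⟨Z2, hZ2⟩ := hgZ
  have hsol2 : X2 ^ 2 + d * (K * Y2) ^ 2 = m * Z2 ^ 2 := by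
    apply mul_left_cancel₀ (pow_ne_zero 2 hg0')
    have e1 : (g : ℤ) ^ 2 * (X2 ^ 2 + d * (K * Y2) ^ 2) =
        (g * X2) ^ 2 + d * (K * (g * Y2)) ^ 2 := by ring
    have e2 : (g : ℤ) ^ 2 * (m * Z2 ^ 2) = m * (g * Z2) ^ 2 := by ring
    rw [e1, e2, ← hX2, ← hY2, ← hZ2, hsol]
  have hgc : IsCoprime (g : ℤ) (B : ℤ) := by
    rw [hZ2] at hZc
    exact hZc.of_mul_left_left
  have hXZ2 : (B : ℤ) ∣ X2 - Z2 := by
    have h2 : (B : ℤ) ∣ g * (X2 - Z2) := by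
      have : (g : ℤ) * (X2 - Z2) = X1 - Z1 := by rw [hX2, hZ2]; ring
      rw [this]; exact hXZ
    exact hgc.symm.dvd_of_dvd_mul_left h2
  have hZ2c : IsCoprime Z2 (B : ℤ) := by
    rw [hZ2] at hZc
    exact hZc.of_mul_left_right
  have hZ20 : Z2 ≠ 0 := by
    rintro rfl
    rw [mul_zero] at hZ2
    exact hZ0 hZ2
  have hprim : ∀ l : ℤ, Prime l → l ∣ X2 → l ∣ Y2 → ¬ l ∣ Z2 := by
    intro l hl h2 h3 h4
    have h5 : (g : ℤ) * l ∣ ((Int.gcd X1 Y1 : ℕ) : ℤ) :=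
      Int.dvd_coe_gcd (by rw [hX2]; exact mul_dvd_mul_left _ h2)
        (by rw [hY2]; exact mul_dvd_mul_left _ h3)
    have h6 : (g : ℤ) * l ∣ (g : ℤ) := by
      have := Int.dvd_coe_gcd h5 (by rw [hZ2]; exact mul_dvd_mul_left _ h4 : (g : ℤ) * l ∣ Z1)
      rw [← hg] at this
      exact this
    have h7 : (g : ℤ) * l ∣ g * 1 := by rw [mul_one]; exact h6
    exact hl.not_isUnit (isUnit_of_dvd_one ((mul_dvd_mul_iff_left hg0').1 h7))
  rcases lt_or_gt_of_ne hZ20 with hneg | hpos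
  · refine ⟨-X2, -Y2, Z2.natAbs, Int.natAbs_pos.2 hZ20, ?_, ?_, ?_, ?_⟩
    · have : Int.gcd Z2 (B : ℤ) = 1 := Int.isCoprime_iff_gcd_eq_one.1 hZ2c
      rw [Int.gcd_eq_natAbs, Int.natAbs_natCast] at this
      exact this
    · rw [Int.natCast_natAbs, sq_abs]
      rw [← hsol2]; ring
    · rw [Int.natCast_natAbs, abs_of_neg hneg]
      have : -X2 - -Z2 = -(X2 - Z2) := by ring
      rw [this]
      exact (dvd_neg).2 hXZ2
    · intro l hl h2 h3 h4
      rw [Int.natCast_natAbs, dvd_abs] at h4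
      exact hprim l hl ((dvd_neg).1 h2) ((dvd_neg).1 h3) h4
  · refine ⟨X2, Y2, Z2.natAbs, Int.natAbs_pos.2 hZ20, ?_, ?_, ?_, ?_⟩
    · have : Int.gcd Z2 (B : ℤ) = 1 := Int.isCoprime_iff_gcd_eq_one.1 hZ2c
      rw [Int.gcd_eq_natAbs, Int.natAbs_natCast] at this
      exact this
    · rw [Int.natCast_natAbs, sq_abs]
      exact hsol2
    · rw [Int.natCast_natAbs, abs_of_pos hpos]
      exact hXZ2
    · intro l hl h2 h3 h4
      rw [Int.natCast_natAbs, dvd_abs] at h4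
      exact hprim l hl h2 h3 h4

end Pool.Agent.Lib.MP_a17b09_nt.MRSG91
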