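import Pool.Agent.Lib.MP_a17b09_nt.MRSG.StructB17
import Pool.Agent.Lib.MP_a17b09_nt.MRSG.Fac68
import Pool.Agent.Lib.MP_a17b09_nt.MRSG.LegG91
import Pool.Agent.Lib.MP_a17b09_nt.MRS.GrpF3_1

/-!
MRSG, frequency 0, the algebra: for every `ω ≠ 1` and every joint eigenvector there is a class of
split primes `p` with no `p` such that both eigenvalues `c_(p,+)`, `c_(p,-)` are `ω`
(principal genus theorem with a modulus).
-/

set_option autoImplicit false

open Finset

namespace Pool.Agent.Lib.MP_a17b09_nt.MRSG91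

open CH CH.PE MRSG

variable {d K : ℕ} [NeZero K]

/-! ### the eigenfunction on all forms -/

/-- the invariant function on all forms defined by a vector -/
noncomputable def EE (x : Hs d K) (Q : Form) (v : V) : ℂ :=
  open Classical in
  if h : Q.Pos ∧ Q.D = d then
    (starRingEnd ℂ) (x ((exists_cl h.1 h.2).choose,
      az ((exists_cl h.1 h.2).choose_spec.choose).adj (cl K v)))
  else 0

theorem az_one_sub {N : Mat} {x : Hs d K} (hx : x ∈ Ej d K 0) {i : Cl d} (h1 : N.det = 1)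
    (h2 : (rep i).comp N = rep i) (α : ZMod K × ZMod K) : x (i, az N α) = x (i, α) := by
  have := (mem_Ej.1 hx) i N h1 h2 α
  rwa [zpow_zero, one_mul] at this

theorem EE_eq {x : Hs d K} (hx : x ∈ Ej d K 0) {Q : Form} (hQ : Q.Pos) (hD : Q.D = d) {i : Cl d}
    {γ : Mat} (h1 : γ.det = 1) (h2 : rep i = Q.comp γ) (v : V) :
    EE x Q v = (starRingEnd ℂ) (x (i, az γ.adj (cl K v))) := by
  classical
  have h : Q.Pos ∧ Q.D = d := ⟨hQ, hD⟩
  unfold EE
  rw [dif_pos h]
  congr 1
  set i' := (exists_cl h.1 h.2).choose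
  set γ' := (exists_cl h.1 h.2).choose_spec.choose
  obtain ⟨h1', h2'⟩ : γ'.det = 1 ∧ rep i' = Q.comp γ' :=
    (exists_cl h.1 h.2).choose_spec.choose_spec
  have e1 : Eqv (rep i) (rep i') := Eqv.trans (Eqv.symm ⟨γ, h1, h2⟩) ⟨γ', h1', h2'⟩
  have e2 : i = i' := rep_inj e1
  -- the automorphism
  have hN1 : (γ.adj.mul γ').det = 1 := by rw [Mat.det_mul, Mat.det_adj, h1, h1', one_mul]
  have hN2 : (rep i').comp (γ.adj.mul γ').adj = rep i' := by
    apply comp_adj_of hN1
    nth_rewrite 1 [← e2]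
    rw [h2, Form.comp_comp, ← Mat.mul_assoc', Mat.mul_adj h1, Mat.one_mul', h2']
  have e3 : γ'.adj = ((γ.adj.mul γ').adj).mul γ.adj := by
    rw [adj_mul_rev, adj_adj, Mat.mul_assoc', Mat.mul_adj h1, Mat.mul_one']
  rw [e3, az_mul, az_one_sub hx (by rw [Mat.det_adj, hN1]) hN2, e2]

theorem EE_rep {x : Hs d K} (hx : x ∈ Ej d K 0) (i : Cl d) (v : V) :
    EE x (rep i) v = (starRingEnd ℂ) (x (i, cl K v)) := by
  rw [EE_eq hx (rep_pos i) (rep_D i) Mat.det_one (Form.comp_one _).symm]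
  have : az Mat.one.adj (cl K v) = cl K v := by
    unfold az Mat.one Mat.adj
    simp
  rw [this]

theorem EE_neg {x : Hs d K} {Q : Form} (h : ¬ (Q.Pos ∧ Q.D = d)) (v : V) : EE x Q v = 0 := by
  classical
  unfold EE
  rw [dif_neg h]

theorem pos_comp {Q : Form} {γ : Mat} (h : γ.det = 1) : (Q.comp γ).Pos ↔ Q.Pos := by
  constructor
  · intro h1
    have h2 := Form.comp_Pos h1 (F := γ.adj) (by rw [Mat.det_adj, h]; exact one_ne_zero)
    rwa [Form.comp_comp, Mat.mul_adj h, Form.comp_one] at h2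
  · intro h1
    exact Form.comp_Pos h1 (by rw [h]; exact one_ne_zero)

theorem EE_inv {x : Hs d K} (hx : x ∈ Ej d K 0) (Q : Form) (γ : Mat) (u : V) (hD : Q.D = d)
    (hγ : γ.det = 1) : EE x (Q.comp γ) u = EE x Q (γ.app u) := by
  have hD' : (Q.comp γ).D = d := by rw [Form.comp_D, hγ, hD]; ring
  by_cases hQ : Q.Pos
  · obtain ⟨i, γ1, h1, h2⟩ := exists_cl hQ hD
    rw [EE_eq hx hQ hD h1 h2, EE_eq hx ((pos_comp hγ).2 hQ) hD' (i := i) (γ := γ.adj.mul γ1)
      (by rw [Mat.det_mul, Mat.det_adj, hγ, h1, one_mul])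
      (by rw [Form.comp_comp, ← Mat.mul_assoc', Mat.mul_adj hγ, Mat.one_mul', h2]),
      adj_mul_rev, adj_adj, az_mul, cl_app']
  · rw [EE_neg (fun h => hQ h.1), EE_neg (fun h => hQ ((pos_comp hγ).1 h.1))]

theorem EE_per (x : Hs d K) (Q : Form) (u w : V) : EE x Q (u + (K : ℤ) • w) = EE x Q u := by
  have : cl K (u + (K : ℤ) • w) = cl K u := by
    unfold cl
    simp
  unfold EE
  rw [this]

/-- eigenvalues as functions of the root -/
noncomputable def ce (d K : ℕ) [NeZero K] (k : Fin (mm d K 0)) (p : ℕ) (r : ℤ) : ℂ :=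
  cv d K (p, decide ((p : ℤ) ∣ r - rt d p)) 0 k

theorem rel_pos {p : ℕ} {r : ℤ} (hp : p.Prime) {Q Q' : Form} {M : Mat} (h : Rel p r Q Q' M) :
    Q'.Pos ∧ Q'.D = d ↔ Q.Pos ∧ Q.D = d := by
  have hp0 : (0 : ℤ) < p := by exact_mod_cast hp.pos
  have key : ∀ (r : ℤ) (Q Q' : Form) (M : Mat), Rel p r Q Q' M → Q'.D = Q.D ∧ (Q.Pos → Q'.Pos) := by
    intro r Q Q' M h
    have h1 : Q.comp M = ⟨p * Q'.a, p * Q'.b, p * Q'.c⟩ := by
      apply Form.ext_q
      intro v
      rw [Form.comp_q, h.sim]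
      unfold Form.q
      ring
    have hD : Q'.D = Q.D := by
      have h2 := Q.comp_D M
      rw [h1, h.det] at h2
      have h3 : (p : ℤ) ^ 2 * Q'.D = p ^ 2 * Q.D := by
        unfold Form.D at h2 ⊢
        simp only at h2
        linear_combination h2
      exact mul_left_cancel₀ (pow_ne_zero 2 hp0.ne') h3
    refine ⟨hD, fun hQ => ⟨?_, by rw [hD]; exact hQ.2⟩⟩
    have h2 : (Q.comp M).Pos := Form.comp_Pos hQ (by rw [h.det]; exact hp0.ne')
    have h3 := h2.1
    rw [h1] at h3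
    exact (mul_pos_iff_of_pos_left hp0).1 h3
  have k1 := key r Q Q' M h
  have k2 := key (-r) Q' Q M.adj (h.inv hp0.ne')
  constructor
  · rintro ⟨h1, h2⟩
    exact ⟨k2.2 h1, by rw [k2.1, h2]⟩
  · rintro ⟨h1, h2⟩
    exact ⟨k1.2 h1, by rw [k1.1, h2]⟩

/-- the eigenvector, `j = 0` -/
theorem bv_app {P : ℕ × Bool} (h : Adm d K P) (k : Fin (mm d K 0)) (i : Cl d)
    (α : ZMod K × ZMod K) : (bv d K 0 k : Hs d K) (sg d P i, ai (Mg d P i) α) =
      cv d K P 0 k * (bv d K 0 k : Hs d K) (i, α) := by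
  have h1 := (bv_spec h 0 k).2
  have h2 := congrArg (fun y : Hs d K => y (i, α)) h1
  simp only [Ug_apply, zpow_zero, one_mul, PiLp.smul_apply, smul_eq_mul] at h2
  exact h2

theorem Rel.congr {p r r' : ℤ} (h : p ∣ r - r') {Q Q' : Form} {M : Mat} (hR : Rel p r Q Q' M) :
    Rel p r' Q Q' M := by
  refine ⟨hR.det, hR.sim, fun u w => ?_⟩
  have h1 := hR.eig u w
  have h2 : Q.B w (M.app u) - r' * wd w (M.app u) =
      (Q.B w (M.app u) - r * wd w (M.app u)) + (r - r') * wd w (M.app u) := by ring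
  rw [h2]
  exact dvd_add h1 (Dvd.dvd.mul_right h _)

theorem EE_rel (k : Fin (mm d K 0)) (p : ℕ) (r : ℤ) (Q Q' : Form) (M : Mat) (u : V)
    (hp : p.Prime) (hpK : p.Coprime K) (hr : ¬ (p : ℤ) ∣ 2 * r) (hD : Q.D = d)
    (hR : Rel p r Q Q' M) :
    EE (bv d K 0 k : Hs d K) Q (M.app u) = ce d K k p r * EE (bv d K 0 k : Hs d K) Q' u := by
  have hx : (bv d K 0 k : Hs d K) ∈ Ej d K 0 := (bv d K 0 k).2
  have hpp : Prime (p : ℤ) := Nat.prime_iff_prime_int.1 hp
  by_cases hQ : Q.Pos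
  · obtain ⟨hQ', hD'⟩ := (rel_pos (d := d) hp hR).2 ⟨hQ, hD⟩
    -- the root
    have hroot : (p : ℤ) ∣ r ^ 2 + d := by
      have e1 : ∀ w : V, (p : ℤ) ∣ (r ^ 2 + Q.D) * (M.app w).1 ∧
          (p : ℤ) ∣ (r ^ 2 + Q.D) * (M.app w).2 := by
        intro w
        have h1 := hR.eig w (1, 0)
        have h2 := hR.eig w (0, 1)
        simp only [Form.B, wd] at h1 h2
        constructor
        · have : (r ^ 2 + Q.D) * (M.app w).1 = (2 * Q.c) *
              (2 * Q.a * 1 * (M.app w).1 + Q.b * (1 * (M.app w).2 + 0 * (M.app w).1) +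
                2 * Q.c * 0 * (M.app w).2 - r * (1 * (M.app w).2 - 0 * (M.app w).1)) -
              (Q.b - r) * (2 * Q.a * 0 * (M.app w).1 + Q.b * (0 * (M.app w).2 +
                1 * (M.app w).1) + 2 * Q.c * 1 * (M.app w).2 -
                r * (0 * (M.app w).2 - 1 * (M.app w).1)) := by
            unfold Form.D; ring
          rw [this]
          exact dvd_sub (Dvd.dvd.mul_left h1 _) (Dvd.dvd.mul_left h2 _)
        · have : (r ^ 2 + Q.D) * (M.app w).2 = (2 * Q.a) *
              (2 * Q.a * 0 * (M.app w).1 + Q.b * (0 * (M.app w).2 +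
                1 * (M.app w).1) + 2 * Q.c * 1 * (M.app w).2 -
                r * (0 * (M.app w).2 - 1 * (M.app w).1)) - (Q.b + r) *
              (2 * Q.a * 1 * (M.app w).1 + Q.b * (1 * (M.app w).2 + 0 * (M.app w).1) +
                2 * Q.c * 0 * (M.app w).2 - r * (1 * (M.app w).2 - 0 * (M.app w).1)) := by
            unfold Form.D; ring
          rw [this]
          exact dvd_sub (Dvd.dvd.mul_left h2 _) (Dvd.dvd.mul_left h1 _)
      by_contra hne
      rw [hD] at e1
      have e2 := e1 (1, 0)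
      have e3 := e1 (0, 1)
      simp only [Mat.app, mul_one, mul_zero, add_zero, zero_add] at e2 e3
      have f1 := (hpp.dvd_or_dvd e2.1).resolve_left hne
      have f2 := (hpp.dvd_or_dvd e2.2).resolve_left hne
      have f3 := (hpp.dvd_or_dvd e3.1).resolve_left hne
      have f4 := (hpp.dvd_or_dvd e3.2).resolve_left hne
      obtain ⟨a, ha⟩ := f1
      obtain ⟨c, hc⟩ := f2
      obtain ⟨b, hb⟩ := f3
      obtain ⟨e, he⟩ := f4
      have h5 := hR.det
      unfold Mat.det at h5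
      rw [ha, hc, hb, he] at h5
      have h6 : (p : ℤ) * (a * e - b * c) * p = 1 * p := by linear_combination h5
      have h7 := mul_right_cancel₀ hpp.ne_zero h6
      exact hpp.not_isUnit (isUnit_of_dvd_one ⟨_, h7.symm⟩)
    have h2d : ¬ p ∣ 2 * d := by
      intro h
      rcases (Nat.Prime.dvd_mul hp).1 h with h | h
      · apply hr
        exact Dvd.dvd.mul_right (by exact_mod_cast h) r
      · apply hr
        have h3 : (p : ℤ) ∣ r ^ 2 := by
          have h4 : (p : ℤ) ∣ (d : ℤ) := by exact_mod_cast h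
          have := dvd_sub hroot h4
          rwa [add_sub_cancel_right] at this
        exact Dvd.dvd.mul_left (hpp.dvd_of_dvd_pow h3) 2
    have hnd : ¬ p ∣ 2 * d * K := by
      intro h
      rcases (Nat.Prime.dvd_mul hp).1 h with h | h
      · exact h2d h
      · exact (Nat.Prime.coprime_iff_not_dvd hp).1 hpK h
    set b : Bool := decide ((p : ℤ) ∣ r - rt d p) with hb
    have hA : Adm d K (p, b) := ⟨hp, hnd, r, hroot⟩
    have hrg : (p : ℤ) ∣ r - rg d (p, b) := by
      by_cases h : (p : ℤ) ∣ r - rt d p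
      · have : b = true := by rw [hb]; simpa using h
        rw [this]
        exact h
      · have hbf : b = false := by rw [hb]; simpa using h
        rw [hbf]
        have h3 : (p : ℤ) ∣ (r - rt d p) * (r + rt d p) := by
          have h4 : (p : ℤ) ∣ rt d p ^ 2 + d := by
            have := rg_sq (P := (p, true)) (d := d) (K := K) ⟨hp, hnd, r, hroot⟩
            exact this
          have h5 : (r - rt d p) * (r + rt d p) = (r ^ 2 + d) - (rt d p ^ 2 + d) := by ring
          rw [h5]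
          exact dvd_sub hroot h4
        have h6 := (hpp.dvd_or_dvd h3).resolve_left h
        show (p : ℤ) ∣ r - -rt d p
        rw [sub_neg_eq_add]
        exact h6
    obtain ⟨i, γ, h1, h2⟩ := exists_cl hQ hD
    have hR1 : Rel p (rg d (p, b)) (rep i) Q' (γ.adj.mul M) := by
      rw [h2]
      exact (Rel.congr hrg hR).left h1
    obtain ⟨hr0, hR0⟩ := rel_g hA i
    obtain ⟨N, hN, hMN, hQN⟩ := Rel.uniq hpp hr0 hR0 hR1
    have hdet := unit_M hA i
    have hl : EE (bv d K 0 k : Hs d K) Q (M.app u) =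
        (starRingEnd ℂ) ((bv d K 0 k : Hs d K) (i, az (Mg d (p, b) i) (az N (cl K u)))) := by
      rw [EE_eq hx hQ hD h1 h2, cl_app', ← az_mul, hMN, az_mul]
    have hr' : EE (bv d K 0 k : Hs d K) Q' u =
        (starRingEnd ℂ) ((bv d K 0 k : Hs d K) (sg d (p, b) i, az N (cl K u))) := by
      rw [EE_eq hx hQ' hD' (i := sg d (p, b) i) (γ := N.adj) (by rw [Mat.det_adj, hN])
        (by rw [hQN, Form.comp_comp, Mat.mul_adj hN, Form.comp_one]), adj_adj]
    have h3 := bv_app hA k i (az (Mg d (p, b) i) (az N (cl K u)))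
    rw [ai_az hdet] at h3
    rw [hl, hr', h3]
    unfold ce
    rw [← hb, map_mul, ← mul_assoc, Complex.mul_conj, Complex.normSq_eq_norm_sq,
      (bv_spec hA 0 k).1]
    norm_num
  · rw [EE_neg (fun h => hQ h.1), EE_neg (fun h => hQ ((rel_pos (d := d) hp hR).1 h).1), mul_zero]

open Classical in
/-- the eigenvalues of the scalars as functions of integers -/
noncomputable def se (d K : ℕ) [NeZero K] (k : Fin (mm d K 0)) (n : ℤ) : ℂ :=
  if h : IsUnit ((n : ℤ) : ZMod K) then sv d K h.unit 0 k else 0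

theorem EE_sca (k : Fin (mm d K 0)) (n : ℤ) (Q : Form) (u : V) (hn : IsCoprime n (K : ℤ))
    (hD : Q.D = d) :
    EE (bv d K 0 k : Hs d K) Q (n • u) = se d K k n * EE (bv d K 0 k : Hs d K) Q u := by
  have hx : (bv d K 0 k : Hs d K) ∈ Ej d K 0 := (bv d K 0 k).2
  have hu : IsUnit ((n : ℤ) : ZMod K) := by
    obtain ⟨a, b, hab⟩ := hn
    have := congrArg (fun t : ℤ => (t : ZMod K)) hab
    push_cast at this
    rw [ZMod.natCast_self, mul_zero, add_zero] at this
    exact IsUnit.of_mul_eq_one _ (by rw [mul_comm]; exact this)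
  by_cases hQ : Q.Pos
  · obtain ⟨i, γ, h1, h2⟩ := exists_cl hQ hD
    have h3 := (bv_spec_sc (d := d) hu.unit 0 k).2
    have h4 := congrArg (fun y : Hs d K => y (i, sc (n : ZMod K) (az γ.adj (cl K u)))) h3
    simp only [Rn_apply, PiLp.smul_apply, smul_eq_mul] at h4
    rw [sc_sc] at h4
    have h5 : ((hu.unit⁻¹ : (ZMod K)ˣ) : ZMod K) * (n : ZMod K) = 1 := by
      have := Units.inv_mul hu.unit
      rwa [IsUnit.unit_spec] at this
    rw [h5, sc_one] at h4
    rw [EE_eq hx hQ hD h1 h2, EE_eq hx hQ hD h1 h2, cl_smul', az_sc, h4]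
    unfold se
    rw [dif_pos hu, map_mul, ← mul_assoc, Complex.mul_conj, Complex.normSq_eq_norm_sq,
      (bv_spec_sc (d := d) hu.unit 0 k).1]
    norm_num
  · rw [EE_neg (fun h => hQ h.1), EE_neg (fun h => hQ h.1), mul_zero]

/-- the eigenvectors are eigenfunctions in the sense of `Fac68` -/
theorem efn (k : Fin (mm d K 0)) :
    Efn (d : ℤ) K (ce d K k) (se d K k) (EE (bv d K 0 k : Hs d K)) where
  inv Q γ u hD hγ := EE_inv (bv d K 0 k).2 Q γ u hD hγ
  rel p r Q Q' M u hp hpK hr hD hR := EE_rel k p r Q Q' M u hp hpK hr hD hR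
  sca n Q u hn hD := EE_sca k n Q u hn hD

/-- the eigenfunction does not vanish -/
theorem EE_ne (k : Fin (mm d K 0)) : ∃ (i : Cl d) (u : V),
    EE (bv d K 0 k : Hs d K) (rep i) u ≠ 0 := by
  have h2 : (bv d K 0 k : Hs d K) ≠ 0 := by
    intro h3
    have := norm_bv (d := d) (K := K) 0 k
    rw [h3, norm_zero] at this
    exact zero_ne_one this
  by_contra hne
  push Not at hne
  apply h2
  ext ia
  obtain ⟨i, α⟩ := ia
  have h3 := hne i ((α.1.val : ℤ), (α.2.val : ℤ))
  rw [EE_rep (bv d K 0 k).2] at h3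
  have h4 : cl K (((α.1.val : ℤ), (α.2.val : ℤ)) : V) = α := by
    unfold cl
    simp
  rw [h4] at h3
  simpa using h3

end Pool.Agent.Lib.MP_a17b09_nt.MRSG91
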