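import Pool.Agent.Lib.MP_a17b09_nt.MRSG.DecGB21

/-!
MRSG, decomposition by slices for one positive form: the final estimate `coordG`.
-/

set_option autoImplicit false

open Finset

namespace Pool.Agent.Lib.MP_a17b09_nt.MRSG.Dec21

open CH CH.PE MRS.LatG84 MRS.LatU84 MRS.TkG84

/-- three terms -/
theorem three (a b c : ℂ) : ‖a + b - c‖ ^ 2 ≤ 3 * (‖a‖ ^ 2 + ‖b‖ ^ 2 + ‖c‖ ^ 2) := by
  have h1 : ‖a + b - c‖ ≤ ‖a‖ + ‖b‖ + ‖c‖ :=
    (norm_sub_le _ _).trans (add_le_add_left (norm_add_le _ _) _)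
  have h2 := pow_le_pow_left₀ (norm_nonneg _) h1 2
  nlinarith [sq_nonneg (‖a‖ - ‖b‖), sq_nonneg (‖b‖ - ‖c‖), sq_nonneg (‖a‖ - ‖c‖)]

open Classical in
/-- the first coefficient -/
noncomputable def s1 {ι : Type} (Q : Form) (r1 r2 N L : ℝ) (P : Finset ι) (A : ι → Mat) (v : V) :
    ℝ :=
  if r1 * N < (Q.q v : ℝ) ∧ (Q.q v : ℝ) ≤ r2 * N then 1 - omG P A v / L else 0

open Classical in
/-- the second coefficient -/
noncomputable def s2 {ι : Type} (Q : Form) (h : ℕ) (r1 r2 N : ℝ) (P : Finset ι) (p : ι → ℕ)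
    (A : ι → Mat) (v : V) : ℝ :=
  (if r1 * N < (Q.q v : ℝ) ∧ (Q.q v : ℝ) ≤ r2 * N then omG P A v else 0) -
    betaG Q h r1 r2 N P p A v

/-- the third coefficient -/
noncomputable def s3 {ι : Type} (h : ℕ) (r1 r2 N : ℝ) (p : ι → ℕ) (A : ι → Mat) (Q' : ι → Form)
    (a : ι) (m : V) : ℝ :=
  if Prim ((A a).app m) then 0 else bwN h r1 r2 N (p a) ((Q' a).q m)

/-- the identity -/
theorem idG {ι : Type} {Q : Form} {r1 r2 : ℝ} (hr2 : 0 < r2)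
    {h : ℕ} (hh : 0 < h) {N B L : ℝ} (hN : 0 < N) (hL : 0 < L) (hB : Real.exp (1 / h) * r2 ≤ B)
    (P : Finset ι) (p : ι → ℕ) (A : ι → Mat) (Q' : ι → Form) (hF : Fam Q P p A Q')
    (W S : Finset V) (G : ι → Finset V)
    (hG : ∀ a ∈ P, ∀ m, m ∈ G a ↔ Prim m ∧ ((Q' a).q m : ℝ) ≤ r2 * N)
    (hW : ∀ v, v ∈ W ↔ Prim v ∧ (Q.q v : ℝ) ≤ B * N)
    (hS : ∀ v, v ∈ S ↔ v ∈ W ∧ (r1 * N < (Q.q v : ℝ) ∧ (Q.q v : ℝ) ≤ r2 * N)) (F : V → ℂ) :
    (1 / (N : ℂ)) * ∑ v ∈ S, F v - (1 / (L : ℂ)) * ((1 / (N : ℂ)) * ∑ a ∈ P, ∑ m ∈ G a,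
      (bwN h r1 r2 N (p a) ((Q' a).q m) : ℂ) * F ((A a).app m)) =
    (1 / (N : ℂ)) * ∑ v ∈ W, (s1 Q r1 r2 N L P A v : ℂ) * F v +
      (1 / (L : ℂ)) * ((1 / (N : ℂ)) * ∑ v ∈ W, (s2 Q h r1 r2 N P p A v : ℂ) * F v) -
      (1 / (L : ℂ)) * ((1 / (N : ℂ)) * ∑ a ∈ P, ∑ m ∈ G a,
        (s3 h r1 r2 N p A Q' a m : ℂ) * F ((A a).app m)) := by
  classical
  have hsplit : ∑ a ∈ P, ∑ m ∈ G a, (bwN h r1 r2 N (p a) ((Q' a).q m) : ℂ) * F ((A a).app m) =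
      ∑ v ∈ W, (betaG Q h r1 r2 N P p A v : ℂ) * F v +
        ∑ a ∈ P, ∑ m ∈ G a, (s3 h r1 r2 N p A Q' a m : ℂ) * F ((A a).app m) := by
    have h1 : ∀ a ∈ P, ∑ m ∈ G a, (bwN h r1 r2 N (p a) ((Q' a).q m) : ℂ) * F ((A a).app m) =
        ∑ v ∈ W, (((if MRS.LatU84.Im (A a) v then
          bwN h r1 r2 N (p a) ((Q.q v : ℝ) / p a) else 0) : ℝ) : ℂ) * F v +
        ∑ m ∈ G a, (s3 h r1 r2 N p A Q' a m : ℂ) * F ((A a).app m) := by
      intro a ha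
      rw [← regroupG (hF.pos a ha) hh hN hr2 hB (hF.prime a ha) (hF.det a ha) (hF.sim a ha)
        (G a) W (hG a ha) hW F, ← Finset.sum_add_distrib]
      refine Finset.sum_congr rfl fun m _ => ?_
      unfold s3
      by_cases hp : Prim ((A a).app m)
      · rw [if_pos hp, if_pos hp, Complex.ofReal_zero]
        ring
      · rw [if_neg hp, if_neg hp, Complex.ofReal_zero]
        ring
    rw [Finset.sum_congr rfl h1, Finset.sum_add_distrib, Finset.sum_comm]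
    congr 1
    refine Finset.sum_congr rfl fun v _ => ?_
    rw [← Finset.sum_mul]
    unfold betaG
    rw [Complex.ofReal_sum]
  have hM : ∑ v ∈ S, F v = ∑ v ∈ W,
      (((if r1 * N < (Q.q v : ℝ) ∧ (Q.q v : ℝ) ≤ r2 * N then 1 else 0 : ℝ)) : ℂ) * F v := by
    have hSW : S = W.filter (fun v => r1 * N < (Q.q v : ℝ) ∧ (Q.q v : ℝ) ≤ r2 * N) := by
      ext v
      rw [Finset.mem_filter, hS]
    rw [hSW, Finset.sum_filter]
    refine Finset.sum_congr rfl fun v _ => ?_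
    split_ifs <;> simp
  have hLc : (L : ℂ) ≠ 0 := by exact_mod_cast hL.ne'
  have hsum : ∑ v ∈ W, (s1 Q r1 r2 N L P A v : ℂ) * F v +
      (1 / (L : ℂ)) * ∑ v ∈ W, (s2 Q h r1 r2 N P p A v : ℂ) * F v =
      ∑ v ∈ W, (((if r1 * N < (Q.q v : ℝ) ∧ (Q.q v : ℝ) ≤ r2 * N then 1 else 0 : ℝ)) : ℂ) *
        F v - (1 / (L : ℂ)) * ∑ v ∈ W, (betaG Q h r1 r2 N P p A v : ℂ) * F v := by
    rw [Finset.mul_sum, Finset.mul_sum, ← Finset.sum_add_distrib, ← Finset.sum_sub_distrib]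
    refine Finset.sum_congr rfl fun v _ => ?_
    unfold s1 s2
    by_cases hc : r1 * N < (Q.q v : ℝ) ∧ (Q.q v : ℝ) ≤ r2 * N
    · rw [if_pos hc, if_pos hc, if_pos hc]
      rw [Complex.ofReal_sub, Complex.ofReal_sub, Complex.ofReal_div, Complex.ofReal_one]
      field_simp
      ring
    · rw [if_neg hc, if_neg hc, if_neg hc]
      rw [Complex.ofReal_sub, Complex.ofReal_zero]
      ring
  rw [hM, hsplit]
  linear_combination (-(1 / (N : ℂ))) * hsum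

/-- the numbers -/
theorem numG {CA CT CC CB B Ct N L : ℝ} {h : ℕ} (hCA : 0 < CA) (hCT : 0 < CT) (hCC : 0 < CC)
    (hCB : 0 < CB) (hB : 0 < B) (hCt : 0 < Ct) (hN : 0 < N) (hL : 1 ≤ L) (hh : 0 < h) :
    3 * (CA / N * ((1 / L ^ 2) * (CT * N * L)) + (1 / L ^ 2) * (CA / N * ((2 / (h : ℝ) ^ 2) *
      (2 * (CB * N * L) + 2 * L ^ 2 * (38 * (B * N))) + 2 * (2 * (CB * N * L) +
      2 * L ^ 2 * (Ct * (N / h))))) + (1 / L ^ 2) * (CC * L)) ≤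
    3 * (CA * CT + CC + CA * (4 * CB) + CA * (4 * CB + 152 * B + 4 * Ct)) * (1 / L + 1 / h) := by
  have hh1 : (1 : ℝ) ≤ h := by exact_mod_cast hh
  have hh0 : (0 : ℝ) < h := by linarith
  have hL0 : 0 < L := by linarith
  have hx0 : (0 : ℝ) < 1 / h := by positivity
  have hx1 : (1 : ℝ) / h ≤ 1 := by
    rw [div_le_one hh0]
    exact hh1
  have hLi : 0 < 1 / L := by positivity
  have hLi1 : 1 / L ≤ 1 := by
    rw [div_le_one hL0]
    exact hL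
  have e0 : 3 * (CA / N * ((1 / L ^ 2) * (CT * N * L)) + (1 / L ^ 2) * (CA / N * ((2 / (h : ℝ) ^ 2)
      * (2 * (CB * N * L) + 2 * L ^ 2 * (38 * (B * N))) + 2 * (2 * (CB * N * L) +
      2 * L ^ 2 * (Ct * (N / h))))) + (1 / L ^ 2) * (CC * L)) =
      3 * (CA * CT * (1 / L) + CA * ((1 / (h : ℝ)) ^ 2 * (4 * CB * (1 / L)) +
          (1 / (h : ℝ)) ^ 2 * (152 * B) + 4 * CB * (1 / L) + 4 * Ct * (1 / h)) +
          CC * (1 / L)) := by
    field_simp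
    ring
  rw [e0]
  set x := (1 : ℝ) / h with hx
  set y := 1 / L with hy
  have hsq : x ^ 2 ≤ x := by nlinarith
  have h1 : x ^ 2 * (4 * CB * y) ≤ x * (4 * CB) := by
    apply mul_le_mul hsq _ (by positivity) hx0.le
    exact mul_le_of_le_one_right (by positivity) hLi1
  have h2 : x ^ 2 * (152 * B) ≤ x * (152 * B) := mul_le_mul_of_nonneg_right hsq (by positivity)
  have h3 : CA * (x ^ 2 * (4 * CB * y) + x ^ 2 * (152 * B) + 4 * CB * y + 4 * Ct * x) ≤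
      CA * (x * (4 * CB) + x * (152 * B) + 4 * CB * y + 4 * Ct * x) :=
    mul_le_mul_of_nonneg_left (by linarith) hCA.le
  have e1 : 0 ≤ CA * CT * x := by positivity
  have e2 : 0 ≤ CC * x := by positivity
  have e3 : 0 ≤ CA * (4 * CB) * x := by positivity
  have e4 : 0 ≤ CA * (4 * CB + 152 * B + 4 * Ct) * y := by positivity
  calc 3 * (CA * CT * y + CA * (x ^ 2 * (4 * CB * y) + x ^ 2 * (152 * B) + 4 * CB * y +
        4 * Ct * x) + CC * y)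
      ≤ 3 * (CA * CT * y + CA * (x * (4 * CB) + x * (152 * B) + 4 * CB * y + 4 * Ct * x) +
        CC * y) := by linarith
    _ ≤ 3 * (CA * CT * y + CA * (x * (4 * CB) + x * (152 * B) + 4 * CB * y + 4 * Ct * x) +
        CC * y) + 3 * (CA * CT * x + CC * x + CA * (4 * CB) * x +
        CA * (4 * CB + 152 * B + 4 * Ct) * y) := by linarith
    _ = _ := by ring

/-- the second term -/
theorem b2G {Q : Form} (hQ : Q.Pos) {r1 r2 B : ℝ} (hr1 : 0 < r1) (hr2 : 0 < r2) (hB : 0 < B) :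
    ∃ Ct N0 : ℝ, 0 < Ct ∧ 1 ≤ N0 ∧ ∀ {ι : Type} (P : Finset ι) (p : ι → ℕ) (A : ι → Mat)
      (Q' : ι → Form), Fam Q P p A Q' → ∀ (h : ℕ) (N : ℝ), 0 < h → N0 ≤ N →
      (h : ℝ) ≤ N ^ (1 / 8 : ℝ) → (∀ a ∈ P, (p a : ℝ) ≤ N ^ (1 / 8 : ℝ)) →
      ∀ W : Finset V, (∀ v, v ∈ W ↔ Prim v ∧ (Q.q v : ℝ) ≤ B * N) →
      ∑ v ∈ W, s2 Q h r1 r2 N P p A v ^ 2 ≤ (2 / (h : ℝ) ^ 2) *
        (2 * (4000 * B * N * ∑ a ∈ P, 1 / (p a : ℝ)) +
          2 * (∑ a ∈ P, 1 / (p a : ℝ)) ^ 2 * (38 * (B * N))) +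
        2 * (2 * (4000 * B * N * ∑ a ∈ P, 1 / (p a : ℝ)) +
          2 * (∑ a ∈ P, 1 / (p a : ℝ)) ^ 2 * (Ct * (N / h))) := by
  classical
  obtain ⟨N1, hN1, tkB⟩ := tkGP hQ B hB
  obtain ⟨Ca, hCa, th1⟩ := card_thinG r1 hr1
  obtain ⟨Cb, hCb, th2⟩ := card_thinG r2 hr2
  refine ⟨Ca + Cb, N1, by positivity, hN1, ?_⟩
  intro ι P p A Q' hF h N hh hN hhN hpN W hW
  have hN1' : 1 ≤ N := hN1.trans hN
  have hN0 : 0 < N := by linarith
  set L := ∑ a ∈ P, 1 / (p a : ℝ) with hL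
  have htk := tkB N hN P p A Q' hF hpN
  rw [← hL] at htk
  have hWb : W ⊆ Q.ball ⌊B * N⌋₊ := by
    intro v hv
    rw [mem_ball_real hQ (by positivity)]
    exact ((hW v).1 hv).2
  set T := W.filter (fun v => ThinG r1 r2 N h (Q.q v : ℝ)) with hTdef
  have hpt : ∀ v, s2 Q h r1 r2 N P p A v ^ 2 ≤ (2 / (h : ℝ) ^ 2) * omG P A v ^ 2 +
      2 * (if ThinG r1 r2 N h (Q.q v : ℝ) then omG P A v ^ 2 else 0) := by
    intro v
    have h1 := betaG_cmp hQ hh r1 r2 N P p A hF.prime v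
    have h2 : s2 Q h r1 r2 N P p A v ^ 2 ≤
        (omG P A v * (1 / h + if ThinG r1 r2 N h (Q.q v : ℝ) then 1 else 0)) ^ 2 := by
      rw [← sq_abs (s2 Q h r1 r2 N P p A v)]
      exact pow_le_pow_left₀ (abs_nonneg _) h1 2
    refine h2.trans ?_
    have h3 : (2 : ℝ) / (h : ℝ) ^ 2 = 2 * (1 / h) ^ 2 := by ring
    rw [h3]
    split_ifs
    · nlinarith [mul_nonneg (sq_nonneg (omG P A v)) (sq_nonneg (1 / (h : ℝ) - 1))]
    · nlinarith [mul_nonneg (sq_nonneg (omG P A v)) (sq_nonneg (1 / (h : ℝ)))]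
  have hcW : (W.card : ℝ) ≤ 38 * (B * N) := by
    refine card_le_ball hQ _ _ (by positivity) ?_
    intro u hu
    rw [hW] at hu
    exact ⟨LSG22.prim_ne hu.1, hu.2⟩
  have hcT : (T.card : ℝ) ≤ (Ca + Cb) * (N / h) := by
    have h2 : (T.card : ℝ) ≤ (W.filter (fun v => r1 * N < (Q.q v : ℝ) ∧
        (Q.q v : ℝ) ≤ r1 * N * Real.exp (1 / h))).card +
        (W.filter (fun v => r2 * N < (Q.q v : ℝ) ∧
        (Q.q v : ℝ) ≤ r2 * N * Real.exp (1 / h))).card := by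
      have h1 : T = W.filter (fun v => r1 * N < (Q.q v : ℝ) ∧
          (Q.q v : ℝ) ≤ r1 * N * Real.exp (1 / h)) ∪ W.filter (fun v => r2 * N < (Q.q v : ℝ) ∧
          (Q.q v : ℝ) ≤ r2 * N * Real.exp (1 / h)) := by
        ext v
        rw [hTdef]
        simp only [Finset.mem_filter, Finset.mem_union]
        unfold ThinG
        tauto
      rw [h1]
      exact_mod_cast Finset.card_union_le _ _
    have h3 := th1 hQ N h hN1' hh hhN (W.filter (fun v => r1 * N < (Q.q v : ℝ) ∧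
        (Q.q v : ℝ) ≤ r1 * N * Real.exp (1 / h))) (fun u hu => (Finset.mem_filter.1 hu).2)
    have h4 := th2 hQ N h hN1' hh hhN (W.filter (fun v => r2 * N < (Q.q v : ℝ) ∧
        (Q.q v : ℝ) ≤ r2 * N * Real.exp (1 / h))) (fun u hu => (Finset.mem_filter.1 hu).2)
    rw [add_mul]
    exact h2.trans (add_le_add h3 h4)
  have hsV := sum_sqG P A W (Q.ball ⌊B * N⌋₊) hWb htk
  have hsT := sum_sqG P A T (Q.ball ⌊B * N⌋₊) ((Finset.filter_subset _ _).trans hWb) htk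
  calc ∑ v ∈ W, s2 Q h r1 r2 N P p A v ^ 2 ≤ ∑ v ∈ W, ((2 / (h : ℝ) ^ 2) * omG P A v ^ 2 +
        2 * (if ThinG r1 r2 N h (Q.q v : ℝ) then omG P A v ^ 2 else 0)) :=
        Finset.sum_le_sum fun v _ => hpt v
    _ = (2 / (h : ℝ) ^ 2) * ∑ v ∈ W, omG P A v ^ 2 + 2 * ∑ v ∈ T, omG P A v ^ 2 := by
        rw [Finset.sum_add_distrib, ← Finset.mul_sum, ← Finset.mul_sum, hTdef,
          Finset.sum_filter]
    _ ≤ _ := by
        apply add_le_add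
        · apply mul_le_mul_of_nonneg_left _ (by positivity)
          refine hsV.trans ?_
          have : 2 * L ^ 2 * (W.card : ℝ) ≤ 2 * L ^ 2 * (38 * (B * N)) :=
            mul_le_mul_of_nonneg_left hcW (by positivity)
          linarith
        · apply mul_le_mul_of_nonneg_left _ (by norm_num)
          refine hsT.trans ?_
          have : 2 * L ^ 2 * (T.card : ℝ) ≤ 2 * L ^ 2 * ((Ca + Cb) * (N / h)) :=
            mul_le_mul_of_nonneg_left hcT (by positivity)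
          linarith

/-- the first term -/
theorem b1G {Q : Form} (hQ : Q.Pos) {r1 r2 B : ℝ} (hr2 : 0 < r2) :
    ∃ N0 : ℝ, 1 ≤ N0 ∧ ∀ {ι : Type} (P : Finset ι) (p : ι → ℕ) (A : ι → Mat)
      (Q' : ι → Form), Fam Q P p A Q' → ∀ (N L : ℝ), N0 ≤ N → L = ∑ a ∈ P, 1 / (p a : ℝ) →
      0 < L → (∀ a ∈ P, (p a : ℝ) ≤ N ^ (1 / 8 : ℝ)) →
      ∀ W : Finset V, (∀ v, v ∈ W ↔ Prim v ∧ (Q.q v : ℝ) ≤ B * N) →
      ∑ v ∈ W, s1 Q r1 r2 N L P A v ^ 2 ≤ (1 / L ^ 2) * (4000 * r2 * N * L) := by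
  classical
  obtain ⟨N1, hN1, tk2⟩ := tkGP hQ r2 hr2
  refine ⟨N1, hN1, ?_⟩
  intro ι P p A Q' hF N L hN hL hL0 hpN W hW
  have hN1' : 1 ≤ N := hN1.trans hN
  have hN0 : 0 < N := by linarith
  have h2 := tk2 N hN P p A Q' hF hpN
  rw [← hL] at h2
  calc ∑ v ∈ W, s1 Q r1 r2 N L P A v ^ 2
      = ∑ v ∈ W.filter (fun v => r1 * N < (Q.q v : ℝ) ∧ (Q.q v : ℝ) ≤ r2 * N),
        (1 - omG P A v / L) ^ 2 := by
        rw [Finset.sum_filter]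
        refine Finset.sum_congr rfl fun v _ => ?_
        unfold s1
        split_ifs <;> simp
    _ ≤ ∑ v ∈ Q.ball ⌊r2 * N⌋₊, (1 - omG P A v / L) ^ 2 := by
        apply Finset.sum_le_sum_of_subset_of_nonneg
        · intro v hv
          rw [Finset.mem_filter] at hv
          rw [mem_ball_real hQ (by positivity)]
          exact hv.2.2
        · intro v _ _
          exact sq_nonneg _
    _ = (1 / L ^ 2) * ∑ v ∈ Q.ball ⌊r2 * N⌋₊, (omG P A v - L) ^ 2 := by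
        rw [Finset.mul_sum]
        refine Finset.sum_congr rfl fun v _ => ?_
        field_simp
        ring
    _ ≤ (1 / L ^ 2) * (4000 * r2 * N * L) := mul_le_mul_of_nonneg_left h2 (by positivity)

/-- **decomposition by slices for one form** -/
theorem coordG {Q : Form} (hQ : Q.Pos) {r1 r2 : ℝ} (hr1 : 0 < r1) (hr : r1 < r2) :
    ∃ C N0 : ℝ, 0 < C ∧ 1 ≤ N0 ∧ ∀ {ι : Type} (P : Finset ι) (p : ι → ℕ) (A : ι → Mat)
      (Q' : ι → Form), Fam Q P p A Q' → ∀ (h : ℕ) (N L : ℝ), 0 < h → N0 ≤ N →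
      (h : ℝ) ≤ N ^ (1 / 8 : ℝ) → (∀ a ∈ P, (p a : ℝ) ≤ N ^ (1 / 8 : ℝ)) →
      L = ∑ a ∈ P, 1 / (p a : ℝ) → 1 ≤ L → ∀ J : ℕ, (J : ℝ) ≤ N →
      ∀ (S : Finset V) (G : ι → Finset V),
      (∀ v, v ∈ S ↔ Prim v ∧ r1 * N < (Q.q v : ℝ) ∧ (Q.q v : ℝ) ≤ r2 * N) →
      (∀ a ∈ P, ∀ m, m ∈ G a ↔ Prim m ∧ ((Q' a).q m : ℝ) ≤ r2 * N) →
      ∀ f : V → ℂ, (∀ v, ‖f v‖ ≤ 1) →
      ∑ j ∈ Finset.Icc (-(J : ℤ)) J, ‖(1 / (N : ℂ)) * ∑ v ∈ S, f v * uu Q v ^ j -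
        (1 / (L : ℂ)) * ((1 / (N : ℂ)) * ∑ a ∈ P, ∑ m ∈ G a,
          (bwN h r1 r2 N (p a) ((Q' a).q m) : ℂ) *
            (f ((A a).app m) * uu Q ((A a).app m) ^ j))‖ ^ 2 ≤ C * (1 / L + 1 / h) := by
  classical
  have hr2 : 0 < r2 := hr1.trans hr
  obtain ⟨B, hB⟩ : ∃ B : ℝ, B = 3 * r2 + 1 := ⟨_, rfl⟩
  have hB0 : 0 < B := by rw [hB]; linarith
  have hB1 : 1 ≤ B := by rw [hB]; linarith
  obtain ⟨CA, hCA, ls⟩ := lsNG hQ B hB1
  obtain ⟨CC, hCC, cj⟩ := conjG hQ B hB1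
  obtain ⟨Ct, N1, hCt, hN1, h2G⟩ := b2G hQ hr1 hr2 hB0
  obtain ⟨N2, hN2, h1G⟩ := b1G hQ (r1 := r1) (B := B) hr2
  refine ⟨3 * (CA * (4000 * r2) + CC + CA * (4 * (4000 * B)) +
    CA * (4 * (4000 * B) + 152 * B + 4 * Ct)), max N1 N2, by positivity,
    le_max_of_le_left hN1, ?_⟩
  intro ι P p A Q' hF h N L hh hN hhN hpN hL hL1 J hJ S G hS hG f hf
  have hNN1 : N1 ≤ N := (le_max_left _ _).trans hN
  have hNN2 : N2 ≤ N := (le_max_right _ _).trans hN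
  have hN1' : 1 ≤ N := hN1.trans hNN1
  have hN0 : 0 < N := by linarith
  have hL0 : 0 < L := by linarith
  have hh1 : (1 : ℝ) ≤ h := by exact_mod_cast hh
  have hh0 : (0 : ℝ) < h := by linarith
  have hx1 : (1 : ℝ) / h ≤ 1 := by
    rw [div_le_one hh0]
    exact hh1
  have he3 : Real.exp (1 / h) ≤ 3 := by
    have h1 : Real.exp (1 / h) ≤ Real.exp 1 := Real.exp_le_exp.2 hx1
    linarith [Real.exp_one_lt_d9]
  have hBe : Real.exp (1 / h) * r2 ≤ B := by rw [hB]; nlinarith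
  obtain ⟨W, hW⟩ : ∃ W : Finset V, ∀ w, w ∈ W ↔ Prim w ∧ (Q.q w : ℝ) ≤ B * N := by
    refine ⟨(Q.ball ⌊B * N⌋₊).filter Prim, fun w => ?_⟩
    rw [Finset.mem_filter, mem_ball_real hQ (by positivity), and_comm]
  have hSW : ∀ v, v ∈ S ↔ v ∈ W ∧ (r1 * N < (Q.q v : ℝ) ∧ (Q.q v : ℝ) ≤ r2 * N) := by
    intro v
    rw [hS, hW]
    constructor
    · rintro ⟨h1, h2, h3⟩
      refine ⟨⟨h1, h3.trans ?_⟩, h2, h3⟩
      apply mul_le_mul_of_nonneg_right _ hN0.le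
      rw [hB]
      linarith
    · rintro ⟨⟨h1, _⟩, h2⟩
      exact ⟨h1, h2⟩
  have hLs : ∀ s : V → ℝ, ∑ j ∈ Finset.Icc (-(J : ℤ)) J, ‖(1 / (N : ℂ)) *
      ∑ v ∈ W, (s v : ℂ) * (f v * uu Q v ^ j)‖ ^ 2 ≤ CA / N * ∑ v ∈ W, s v ^ 2 := by
    intro s
    have h1 := ls N hN1' J hJ W (fun v hv => (hW v).1 hv) (fun v => (s v : ℂ) * f v)
    simp only [mul_assoc] at h1
    refine h1.trans ?_
    apply mul_le_mul_of_nonneg_left _ (by positivity)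
    refine Finset.sum_le_sum fun v _ => ?_
    rw [norm_mul, Complex.norm_real, mul_pow, Real.norm_eq_abs, sq_abs]
    apply mul_le_of_le_one_right (sq_nonneg _)
    exact pow_le_one₀ (norm_nonneg _) (hf v)
  have b1 := (hLs (s1 Q r1 r2 N L P A)).trans (mul_le_mul_of_nonneg_left
    (h1G P p A Q' hF N L hNN2 hL hL0 hpN W hW) (by positivity : (0 : ℝ) ≤ CA / N))
  have b2 := (hLs (s2 Q h r1 r2 N P p A)).trans (mul_le_mul_of_nonneg_left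
    (h2G P p A Q' hF h N hh hNN1 hhN hpN W hW) (by positivity : (0 : ℝ) ≤ CA / N))
  have hs3 : ∀ a ∈ P, ∀ m : V, |s3 h r1 r2 N p A Q' a m| ≤ 1 := by
    intro a ha m
    unfold s3
    obtain ⟨h2, h3⟩ := bwN_bd hh r1 r2 N (hF.prime a ha).pos ((Q' a).q m : ℝ)
    split_ifs
    · rw [abs_zero]
      exact zero_le_one
    · rw [abs_of_nonneg h2]
      exact h3
  have b3 := cj N hN1' P p A Q' hF J hJ G (fun a ha m hm => ((hG a ha m).1 hm).1)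
    (fun a m => (s3 h r1 r2 N p A Q' a m : ℂ) * f ((A a).app m))
    (fun a ha m _ => by
      rw [norm_mul, Complex.norm_real, Real.norm_eq_abs]
      calc |s3 h r1 r2 N p A Q' a m| * ‖f ((A a).app m)‖ ≤ 1 * 1 :=
            mul_le_mul (hs3 a ha m) (hf _) (norm_nonneg _) zero_le_one
        _ = 1 := one_mul 1)
    (fun a ha m _ hne => by
      have h1 : s3 h r1 r2 N p A Q' a m ≠ 0 := by
        intro h0
        apply hne
        rw [h0, Complex.ofReal_zero, zero_mul]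
      unfold s3 at h1
      have h2 : ¬ Prim ((A a).app m) := by
        intro hp
        rw [if_pos hp] at h1
        exact h1 rfl
      rw [if_neg h2] at h1
      have hq0 : (0 : ℝ) ≤ (Q' a).q m := by exact_mod_cast (hF.pos a ha).q_nonneg m
      refine ⟨h2, ?_⟩
      rw [hF.sim a ha]
      push_cast
      refine ((bwN_nm hh r1 r2 N (hF.prime a ha).pos hq0 h1).2).trans ?_
      rw [← mul_assoc]
      exact mul_le_mul_of_nonneg_right hBe hN0.le)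
  rw [← hL] at b2 b3
  simp only [mul_assoc] at b3
  have hLn : ‖(1 / (L : ℂ))‖ ^ 2 = 1 / L ^ 2 := by
    rw [norm_div, norm_one, Complex.norm_real, Real.norm_of_nonneg hL0.le, div_pow, one_pow]
  set X1 : ℤ → ℂ := fun j => (1 / (N : ℂ)) *
    ∑ v ∈ W, (s1 Q r1 r2 N L P A v : ℂ) * (f v * uu Q v ^ j) with hX1
  set X2 : ℤ → ℂ := fun j => (1 / (N : ℂ)) *
    ∑ v ∈ W, (s2 Q h r1 r2 N P p A v : ℂ) * (f v * uu Q v ^ j) with hX2
  set X3 : ℤ → ℂ := fun j => (1 / (N : ℂ)) * ∑ a ∈ P, ∑ m ∈ G a,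
    (s3 h r1 r2 N p A Q' a m : ℂ) * (f ((A a).app m) * uu Q ((A a).app m) ^ j) with hX3
  refine le_trans ?_ (numG hCA (by positivity : (0 : ℝ) < 4000 * r2) hCC
    (by positivity : (0 : ℝ) < 4000 * B) hB0 hCt hN0 hL1 hh)
  calc _ ≤ ∑ j ∈ Finset.Icc (-(J : ℤ)) J, 3 * (‖X1 j‖ ^ 2 + (1 / L ^ 2) * ‖X2 j‖ ^ 2 +
          (1 / L ^ 2) * ‖X3 j‖ ^ 2) := by
        refine Finset.sum_le_sum fun j _ => ?_
        rw [idG hr2 hh hN0 hL0 hBe P p A Q' hF W S G hG hW hSW (fun v => f v * uu Q v ^ j)]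
        refine (three _ _ _).trans (le_of_eq ?_)
        rw [norm_mul (1 / (L : ℂ)), norm_mul (1 / (L : ℂ)), mul_pow, mul_pow, hLn]
    _ = 3 * (∑ j ∈ Finset.Icc (-(J : ℤ)) J, ‖X1 j‖ ^ 2 +
          (1 / L ^ 2) * ∑ j ∈ Finset.Icc (-(J : ℤ)) J, ‖X2 j‖ ^ 2 +
          (1 / L ^ 2) * ∑ j ∈ Finset.Icc (-(J : ℤ)) J, ‖X3 j‖ ^ 2) := by
        rw [← Finset.mul_sum, Finset.sum_add_distrib, Finset.sum_add_distrib, ← Finset.mul_sum,
          ← Finset.mul_sum]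
    _ ≤ _ := by
        apply mul_le_mul_of_nonneg_left _ (by norm_num)
        apply add_le_add (add_le_add b1 _)
        · exact mul_le_mul_of_nonneg_left b3 (by positivity)
        · exact mul_le_mul_of_nonneg_left b2 (by positivity)

end Pool.Agent.Lib.MP_a17b09_nt.MRSG.Dec21
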