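import Pool.Agent.Lib.MP_a17b09_nt.MRSG.StmtsG29
import Pool.Agent.Lib.MP_a17b09_nt.MRSG.AlgH91
import Pool.Agent.Lib.MP_a17b09_nt.MRSG.TwoScaleG91
import Pool.Agent.Lib.MP_a17b09_nt.MRS.Cheb71

/-!
MRSG, frequency 0: the averages over all vectors tend to `0` (`StPa0G`).
-/

set_option autoImplicit false

open Filter Topology Finset

namespace Pool.Agent.Lib.MP_a17b09_nt.MRSG

open CH CH.PE MRSG91

/-- **Frequency 0, all vectors** -/
theorem stPa0G_91 (d K : ℕ) [NeZero K] (hT : StPwtG d K) (hL : StLipG d K) : StPa0G d K := by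
  classical
  intro z m hm hzm hz1 w hw
  obtain ⟨j, k⟩ := w
  simp only at hw
  subst hw
  have hK : 0 < K := Nat.pos_of_ne_zero (NeZero.ne K)
  rcases Nat.eq_zero_or_pos d with hd0 | hd
  · exfalso
    obtain ⟨i, -, -⟩ := EE_ne k
    have h1 := (rep_pos i).2
    rw [rep_D i, hd0] at h1
    simp at h1
  have hz : ‖z‖ = 1 := Complex.norm_eq_one_of_pow_eq_one hzm hm.ne'
  obtain ⟨C1, hC1, hT⟩ := hT z hz
  obtain ⟨C2, hC2, hL⟩ := hL z hz
  obtain ⟨M, hM, hroot⟩ := root_unity d K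
  set q : ℕ := 16 * d * K ^ 2 with hq
  have hq0 : 0 < q := by positivity
  have hq2 : 2 ≤ q := by
    rw [hq]
    have h1 : 0 < d * K ^ 2 := by positivity
    nlinarith
  have h4 : 4 * d ∣ q := ⟨4 * K ^ 2, by rw [hq]; ring⟩
  have h2 : 2 ∣ q := ⟨8 * d * K ^ 2, by rw [hq]; ring⟩
  have hspl : ∀ p : ℕ, p.Prime → jacobiSym (-(d : ℤ)) p = 1 → p.Coprime q → Spl d K p :=
    fun p hp hJ hc => spl_of_good ⟨hp, cop_q' hc, hJ⟩
  refine two_scale (fun a => Odd a ∧ jacobiSym (-(d : ℤ)) a = 1)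
    (fun N : ℝ => Mag z 0 1 N (⟨0, k⟩ : Fq d K))
    (fun p => if Spl d K p then c1 d K k p else 1) (fun p => if Spl d K p then c2 d K k p else 1)
    z q M hz hz1 ⟨odd_one, jacobiSym.one_right _⟩ (fun a b hab => jac_congr h4 h2 hab) hq2 hq0 hM
    ?_ ?_ ?_ (2 * C1 + C2) ?_ ?_ ?_
  · intro p _ _
    by_cases h : Spl d K p
    · simp only [h, if_true]
      exact hroot (p, true) h k
    · simp only [h, if_false, one_pow]
  · intro p _ _
    by_cases h : Spl d K p
    · simp only [h, if_true]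
      exact hroot (p, false) h k
    · simp only [h, if_false, one_pow]
  · intro ω hω
    obtain ⟨a, ha1, ha2, ha3⟩ := algG hd k ω hω
    refine ⟨a, ha1, ha2, fun p hp hpa => ?_⟩
    have hpq : p.Coprime q := by
      have := hpa.gcd_eq
      unfold Nat.Coprime at ha2 ⊢
      rw [this, ha2]
    have hJ := ((jac_congr h4 h2 hpa).2 ha1).2
    have hs := hspl p hp hJ hpq
    simp only [hs, if_true]
    exact ha3 p hp hpa
  · intro x hx P hP
    have hs : ∀ p ∈ P, Spl d K p := fun p hp =>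
      hspl p (hP p hp).1 (hP p hp).2.1.2 (hP p hp).2.2.1
    have key := hT ⟨0, k⟩ x hx (P ×ˢ (Finset.univ : Finset Bool)) (fun R hR => by
      rw [Finset.mem_product] at hR
      exact ⟨hs R.1 hR.1, (hP R.1 hR.1).2.2.2⟩)
    rw [Finset.sum_product, Finset.sum_product] at key
    simp only [Fintype.sum_bool] at key
    set L : ℝ := ∑ p ∈ P, 1 / (p : ℝ) with hLdef
    have hL0 : 0 ≤ L := Finset.sum_nonneg fun _ _ => by positivity
    rw [Finset.sum_add_distrib (f := fun p : ℕ => 1 / (p : ℝ))] at key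
    have hsq : √(L + L) ≤ 2 * √L := by
      rw [Real.sqrt_le_left (by positivity), mul_pow, Real.sq_sqrt hL0]
      linarith
    have hsn := Real.sqrt_nonneg L
    refine le_trans (le_of_eq ?_) (key.trans ?_)
    · refine Finset.sum_congr rfl fun p hp => ?_
      have hsp := hs p hp
      unfold dfc
      simp only [hsp, if_true]
      unfold cw c1 c2
      ring
    · calc C1 * (1 + √(L + L)) ≤ C1 * (1 + 2 * √L) := by gcongr
        _ ≤ (2 * C1 + C2) * (1 + √L) := by nlinarith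
  · intro x y hx hxy
    have h1 := hL ⟨0, k⟩ x y hx hxy
    have hx0 : 0 < x := by linarith
    have h3 : 0 ≤ Real.log (y / x) := Real.log_nonneg (by
      rw [le_div_iff₀ hx0]; linarith)
    have h4 : 0 ≤ Real.log (y / x) + 1 / √x := by positivity
    refine h1.trans ?_
    exact mul_le_mul_of_nonneg_right (by linarith) h4
  · intro a ha κ hκ
    obtain ⟨c, hc, U0, -, h⟩ := MRS.cheb_ap71 q hq0 a ha κ hκ
    exact ⟨c, hc, U0, fun u hu => h u hu _ fun p => MRS91.mem_win⟩

end Pool.Agent.Lib.MP_a17b09_nt.MRSG
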