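import Pool.Agent.Lib.MP_a17b09_nt.MRS.Sch27
import Pool.Agent.Lib.MP_a17b09_nt.MRSG.MerG7
import Pool.Agent.Lib.MP_a17b09_nt.MRSG.DecGD21
import Pool.Agent.Lib.MP_a17b09_nt.MRSG.LsG29
import Pool.Agent.Lib.MP_a17b09_nt.MRSG.MomG16
import Pool.Agent.Lib.MP_a17b09_nt.MRSG.LevG38
import Pool.Agent.Lib.MP_a17b09_nt.MRSG.HmuG96
import Pool.Agent.Lib.MP_a17b09_nt.MRSG.TkhG12
import Pool.Agent.Lib.MP_a17b09_nt.MRSG.WinF40
import Pool.Agent.Lib.MP_a17b09_nt.MRSG.Uall39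
import Pool.Agent.Lib.MP_a17b09_nt.MRSG.Up70
import Pool.Agent.Lib.MP_a17b09_nt.MRSG.PwtS84
import Pool.Agent.Lib.MP_a17b09_nt.MRSG.LipG42
import Pool.Agent.Lib.MP_a17b09_nt.MRSG.Pa0G91
import Pool.Agent.Lib.MP_a17b09_nt.MRSG.Pw0G29
import Pool.Agent.Lib.MP_a17b09_nt.MRSG.Core29
import Pool.Agent.Lib.MP_a17b09_nt.MRSG.MrsG90

/-!
MRSG: the theorem on thin sectors for every positive form, without hypotheses: assembly of the rows
of `StmtsG29`.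
-/

set_option autoImplicit false

namespace Pool.Agent.Lib.MP_a17b09_nt.MRSG

open CH

variable (d K : ℕ) [NeZero K]

theorem stLevG_all (hd : 0 < d) : StLevG d K :=
  stLevG_38 MRS.stSch_27 Dec21.stDecG_21 (stMomG_16 (stLsG_29 d K)) (stMom1G_16 (stLsG_29 d K))
    (stMerG_7 d K hd)

theorem stUpG_all : StUpG d K :=
  stUpG_70 d K (stUallG_39 d K (stTkhG_12 d K) (stDjG_40 d K)) (stHmuG_96 d K)

theorem stPw0G_all : StPw0G d K := stPw0G_29 d K (stPa0G_91 d K (stPwtG_84 d K) (stLipG_42 d K))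

theorem stCoreG_all (hd : 0 < d) : StCoreG d K :=
  stCoreG_29 d K (stLevG_all d K hd) (stUpG_all d K) (stPw0G_all d K)

/-- every positive form of discriminant `-d`, every class -/
theorem stMrsG_all (d : ℕ) (hd : 0 < d) : StMrsG d :=
  stMrsG_90 (fun K _ => stCoreG_all d K hd) (fun _ _ => stParG_29)

/-- **Stage C.** -/
theorem joint_all {a b c : ℤ} (ha : 0 < a) (hD : b ^ 2 - 4 * a * c < 0) {h : ℕ} (hh : 0 < h)
    (t₀ : ℕ) {α β : ℝ} (hα : 0 < α) (hαβ : α < β) : Joint a b c h t₀ α β := by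
  obtain ⟨d, hd⟩ := Int.eq_ofNat_of_zero_le (show 0 ≤ 4 * a * c - b ^ 2 by linarith)
  exact endC90 (stMrsG_all d (by omega)) ha hd hD hh t₀ hα hαβ

end Pool.Agent.Lib.MP_a17b09_nt.MRSG
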