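import Pool.Agent.Lib.MP_a17b09_nt.MRSG.DecGA21

/-!
MRSG, decomposition by slices for one positive form: squares of the number of divisors, thin
shells, the weights of the pairs.
-/

set_option autoImplicit false

open Finset

namespace Pool.Agent.Lib.MP_a17b09_nt.MRSG.Dec21

open CH CH.PE MRS.LatG84 MRS.LatU84 MRS.TkG84

/-! ### the number of divisors -/

open Classical in
/-- the number of similitudes whose image contains `v` -/
noncomputable def omG {ι : Type} (P : Finset ι) (A : ι → Mat) (v : V) : ℝ :=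
  ∑ a ∈ P, if MRS.LatU84.Im (A a) v then 1 else 0

theorem rpow_le_sqrt {N : ℝ} (hN : 1 ≤ N) : N ^ (1 / 8 : ℝ) ≤ √N := by
  rw [Real.sqrt_eq_rpow]
  exact Real.rpow_le_rpow_of_exponent_le hN (by norm_num)

/-- Turan-Kubilius -/
theorem tkGP {Q : Form} (hQ : Q.Pos) (r : ℝ) (hr : 0 < r) : ∃ N0 : ℝ, 1 ≤ N0 ∧
    ∀ N : ℝ, N0 ≤ N → ∀ {ι : Type} (P : Finset ι) (p : ι → ℕ) (A : ι → Mat) (Q' : ι → Form),
    Fam Q P p A Q' → (∀ a ∈ P, (p a : ℝ) ≤ N ^ (1 / 8 : ℝ)) →
    ∑ v ∈ Q.ball ⌊r * N⌋₊, (omG P A v - ∑ a ∈ P, 1 / (p a : ℝ)) ^ 2 ≤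
      4000 * r * N * ∑ a ∈ P, 1 / (p a : ℝ) := by
  classical
  have h2r : 0 < 2 / r := by positivity
  refine ⟨1 + 2 / r + (2 / r) ^ 2, by nlinarith [sq_nonneg (2 / r)], ?_⟩
  intro N hN ι P p A Q' hF hpN
  have hN1 : 1 ≤ N := by nlinarith [sq_nonneg (2 / r)]
  have hN0 : 0 < N := by linarith
  have hrN : 2 ≤ r * N := by
    have h1 : 2 / r ≤ N := by nlinarith [sq_nonneg (2 / r)]
    rw [div_le_iff₀ hr] at h1
    linarith
  have hx1 : 1 ≤ ⌊r * N⌋₊ := Nat.le_floor (by push_cast; linarith)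
  have hxl : r * N / 2 ≤ (⌊r * N⌋₊ : ℝ) := by
    have := Nat.lt_floor_add_one (r * N)
    linarith
  have hxu : (⌊r * N⌋₊ : ℝ) ≤ r * N := Nat.floor_le (by positivity)
  have hp2 : ∀ a ∈ P, p a ^ 2 ≤ ⌊r * N⌋₊ := by
    intro a ha
    have h1 := hpN a ha
    have h2 : (p a : ℝ) ^ 2 ≤ √N := by
      have h3 : N ^ (1 / 8 : ℝ) * N ^ (1 / 8 : ℝ) ≤ √N := by
        rw [← Real.rpow_add hN0, Real.sqrt_eq_rpow]
        exact Real.rpow_le_rpow_of_exponent_le hN1 (by norm_num)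
      have h4 : (0 : ℝ) ≤ p a := Nat.cast_nonneg _
      calc (p a : ℝ) ^ 2 = p a * p a := sq _
        _ ≤ N ^ (1 / 8 : ℝ) * N ^ (1 / 8 : ℝ) := mul_le_mul h1 h1 h4 (by positivity)
        _ ≤ √N := h3
    have h5 : √N ≤ r * N / 2 := by
      have h6 : 2 / r ≤ √N := by
        apply Real.le_sqrt_of_sq_le
        nlinarith
      rw [div_le_iff₀ hr] at h6
      have h7 : √N * √N = N := Real.mul_self_sqrt hN0.le
      have h8 : 0 ≤ √N := Real.sqrt_nonneg _
      nlinarith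
    have h6 : ((p a ^ 2 : ℕ) : ℝ) ≤ (⌊r * N⌋₊ : ℝ) := by
      push_cast
      linarith
    exact_mod_cast h6
  have h1 := tkG Q hQ ⌊r * N⌋₊ hx1 P p A hF.prime hF.det
    (fun a ha u => ⟨(Q' a).q u, hF.sim a ha u⟩) hp2 hF.ne hF.fib (fun _ => 1)
  have e1 : ∀ v : V, ‖∑ a ∈ P, (1 : ℂ) * ((if MRS.LatU84.Im (A a) v then 1 else 0) -
      1 / (p a : ℂ))‖ ^ 2 = (omG P A v - ∑ a ∈ P, 1 / (p a : ℝ)) ^ 2 := by
    intro v
    have e2 : ∑ a ∈ P, (1 : ℂ) * ((if MRS.LatU84.Im (A a) v then 1 else 0) - 1 / (p a : ℂ)) =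
        ((omG P A v - ∑ a ∈ P, 1 / (p a : ℝ) : ℝ) : ℂ) := by
      simp only [one_mul]
      rw [Finset.sum_sub_distrib]
      unfold omG
      push_cast
      congr 1
      refine Finset.sum_congr rfl fun a _ => ?_
      split_ifs <;> simp
    rw [e2, Complex.norm_real, Real.norm_eq_abs, sq_abs]
  rw [Finset.sum_congr rfl fun v _ => e1 v] at h1
  simp only [norm_one, one_pow] at h1
  refine h1.trans ?_
  have hL : 0 ≤ ∑ a ∈ P, 1 / (p a : ℝ) := Finset.sum_nonneg fun a _ => by positivity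
  calc 4000 * (⌊r * N⌋₊ : ℝ) * ∑ a ∈ P, 1 / (p a : ℝ)
      ≤ 4000 * (r * N) * ∑ a ∈ P, 1 / (p a : ℝ) := by
        apply mul_le_mul_of_nonneg_right _ hL
        linarith
    _ = _ := by ring

/-- squares of the number of divisors -/
theorem sum_sqG {ι : Type} {R L : ℝ} (P : Finset ι) (A : ι → Mat) (T U : Finset V) (hTU : T ⊆ U)
    (h : ∑ v ∈ U, (omG P A v - L) ^ 2 ≤ R) :
    ∑ v ∈ T, omG P A v ^ 2 ≤ 2 * R + 2 * L ^ 2 * T.card := by
  have h1 : ∑ v ∈ T, (omG P A v - L) ^ 2 ≤ R :=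
    (Finset.sum_le_sum_of_subset_of_nonneg hTU fun v _ _ => sq_nonneg _).trans h
  calc ∑ v ∈ T, omG P A v ^ 2 ≤ ∑ v ∈ T, (2 * (omG P A v - L) ^ 2 + 2 * L ^ 2) :=
        Finset.sum_le_sum fun v _ => by nlinarith [sq_nonneg (omG P A v - 2 * L)]
    _ = 2 * ∑ v ∈ T, (omG P A v - L) ^ 2 + 2 * L ^ 2 * T.card := by
        rw [Finset.sum_add_distrib, ← Finset.mul_sum, Finset.sum_const, nsmul_eq_mul]
        ring
    _ ≤ _ := by linarith

/-- `√N ≤ N / h` -/
theorem sqrt_le_div {N : ℝ} (hN : 1 ≤ N) {h : ℕ} (hh : 0 < h) (hhN : (h : ℝ) ≤ N ^ (1 / 8 : ℝ)) :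
    √N ≤ N / h := by
  have hh0 : (0 : ℝ) < h := by exact_mod_cast hh
  rw [le_div_iff₀ hh0]
  calc √N * h ≤ √N * √N :=
        mul_le_mul_of_nonneg_left (hhN.trans (rpow_le_sqrt hN)) (Real.sqrt_nonneg _)
    _ = N := Real.mul_self_sqrt (by linarith)

/-- the number of vectors in a thin shell -/
theorem card_thinG (r : ℝ) (hr : 0 < r) : ∃ C : ℝ, 0 < C ∧ ∀ {Q : Form}, Q.Pos →
    ∀ (N : ℝ) (h : ℕ), 1 ≤ N → 0 < h → (h : ℝ) ≤ N ^ (1 / 8 : ℝ) → ∀ U : Finset V,
    (∀ u ∈ U, r * N < (Q.q u : ℝ) ∧ (Q.q u : ℝ) ≤ r * N * Real.exp (1 / h)) →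
    (U.card : ℝ) ≤ C * (N / h) := by
  refine ⟨8 * r + 34 * √(3 * r) + 38, by positivity, ?_⟩
  intro Q hQ N h hN hh hhN U hU
  have hh1 : (1 : ℝ) ≤ h := by exact_mod_cast hh
  have hh0 : (0 : ℝ) < h := by linarith
  have hN0 : (0 : ℝ) < N := by linarith
  have hx0 : (0 : ℝ) < 1 / h := by positivity
  have hx1 : (1 : ℝ) / h ≤ 1 := by
    rw [div_le_one hh0]
    exact hh1
  have he1 : Real.exp (1 / h) - 1 ≤ 2 * (1 / h) := by
    have h1 := Real.abs_exp_sub_one_le (x := (1 : ℝ) / h) (by rw [abs_of_pos hx0]; exact hx1)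
    rw [abs_of_pos hx0] at h1
    exact (le_abs_self _).trans h1
  have he0 : 1 ≤ Real.exp (1 / h) := Real.one_le_exp hx0.le
  have he3 : Real.exp (1 / h) ≤ 3 := by
    have h1 : Real.exp (1 / h) ≤ Real.exp 1 := Real.exp_le_exp.2 hx1
    linarith [Real.exp_one_lt_d9]
  have hrN : 0 ≤ r * N := by positivity
  have h1 := card_shell hQ U (r * N) (r * N * Real.exp (1 / h)) hrN
    (le_mul_of_one_le_right hrN he0) hU
  have h2 : √(r * N * Real.exp (1 / h)) ≤ √(3 * r) * √N := by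
    rw [← Real.sqrt_mul (by positivity)]
    apply Real.sqrt_le_sqrt
    nlinarith
  have h3 := sqrt_le_div hN hh hhN
  have h4 : (1 : ℝ) ≤ N / h := by
    have : (1 : ℝ) ≤ √N := Real.one_le_sqrt.2 hN
    linarith
  have h5 : r * N * Real.exp (1 / h) - r * N ≤ 2 * r * (N / h) := by
    have e : r * N * Real.exp (1 / h) - r * N = r * N * (Real.exp (1 / h) - 1) := by ring
    rw [e]
    calc r * N * (Real.exp (1 / h) - 1) ≤ r * N * (2 * (1 / h)) :=
          mul_le_mul_of_nonneg_left he1 hrN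
      _ = 2 * r * (N / h) := by ring
  have h6 : √(3 * r) * √N ≤ √(3 * r) * (N / h) :=
    mul_le_mul_of_nonneg_left h3 (Real.sqrt_nonneg _)
  calc (U.card : ℝ) ≤ 4 * (r * N * Real.exp (1 / h) - r * N + 1) +
        34 * (√(r * N * Real.exp (1 / h)) + 1) := h1
    _ ≤ 4 * (2 * r * (N / h) + N / h) + 34 * (√(3 * r) * (N / h) + N / h) := by linarith
    _ = _ := by ring

/-! ### the weights of the pairs -/

/-- the index of the slice of a prime -/
noncomputable def uslN (h p : ℕ) : ℕ := ⌊(h : ℝ) * Real.log p⌋₊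

theorem exp_le_iffN {h p : ℕ} (hh : 0 < h) (hp : 0 < p) (u : ℕ) :
    Real.exp (u / h) ≤ p ↔ u ≤ uslN h p := by
  have hh0 : (0 : ℝ) < h := by exact_mod_cast hh
  have hp0 : (0 : ℝ) < p := by exact_mod_cast hp
  have hp1 : (1 : ℝ) ≤ p := by exact_mod_cast hp
  unfold uslN
  rw [← Real.le_log_iff_exp_le hp0, div_le_iff₀ hh0,
    Nat.le_floor_iff (mul_nonneg hh0.le (Real.log_nonneg hp1)), mul_comm]

/-- the weight of the pair `(A, m)` in the main term, `x` the value of the form at `m` -/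
noncomputable def bwN (h : ℕ) (r1 r2 N : ℝ) (p : ℕ) (x : ℝ) : ℝ :=
  if r1 * (N * Real.exp (-(uslN h p / h))) < x ∧
    x ≤ r2 * (N * Real.exp (-(uslN h p / h))) then Real.exp (uslN h p / h) / p else 0

/-- the weight `e^(u/h) / p` -/
theorem wtN {h p : ℕ} (hh : 0 < h) (hp : 0 < p) :
    Real.exp (-(1 / h)) ≤ Real.exp (uslN h p / h) / p ∧
      Real.exp (uslN h p / h) / p ≤ 1 := by
  have hh0 : (0 : ℝ) < h := by exact_mod_cast hh
  have hp0 : (0 : ℝ) < p := by exact_mod_cast hp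
  constructor
  · rw [le_div_iff₀ hp0]
    have h1 : (p : ℝ) < Real.exp ((uslN h p + 1) / h) := by
      by_contra hcon
      rw [not_lt] at hcon
      have h2 := (exp_le_iffN hh hp (uslN h p + 1)).1 (by push_cast; exact hcon)
      omega
    have h3 : Real.exp ((uslN h p + 1) / h) = Real.exp (uslN h p / h) * Real.exp (1 / h) := by
      rw [← Real.exp_add]
      congr 1
      ring
    rw [h3] at h1
    have h4 : Real.exp (-(1 / (h : ℝ))) * Real.exp (1 / h) = 1 := by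
      rw [← Real.exp_add, neg_add_cancel, Real.exp_zero]
    have h5 : 0 < Real.exp (-(1 / (h : ℝ))) := Real.exp_pos _
    calc Real.exp (-(1 / (h : ℝ))) * p
        ≤ Real.exp (-(1 / (h : ℝ))) * (Real.exp (uslN h p / h) * Real.exp (1 / h)) :=
          mul_le_mul_of_nonneg_left h1.le h5.le
      _ = (Real.exp (-(1 / (h : ℝ))) * Real.exp (1 / h)) * Real.exp (uslN h p / h) := by ring
      _ = Real.exp (uslN h p / h) := by rw [h4, one_mul]
  · rw [div_le_one hp0]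
    exact (exp_le_iffN hh hp _).2 le_rfl

theorem bwN_bd {h p : ℕ} (hh : 0 < h) (r1 r2 N : ℝ) (hp : 0 < p) (x : ℝ) :
    0 ≤ bwN h r1 r2 N p x ∧ bwN h r1 r2 N p x ≤ 1 := by
  unfold bwN
  split_ifs
  · exact ⟨by positivity, (wtN hh hp).2⟩
  · exact ⟨le_rfl, zero_le_one⟩

theorem bwN_nm {h p : ℕ} (hh : 0 < h) (r1 r2 N : ℝ) (hp : 0 < p) {x : ℝ} (hx : 0 ≤ x)
    (hb : bwN h r1 r2 N p x ≠ 0) : x ≤ r2 * (N * Real.exp (-(uslN h p / h))) ∧
      (p : ℝ) * x ≤ Real.exp (1 / h) * (r2 * N) := by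
  have hp0 : (0 : ℝ) < p := by exact_mod_cast hp
  unfold bwN at hb
  have h1 : r1 * (N * Real.exp (-(uslN h p / h))) < x ∧
    x ≤ r2 * (N * Real.exp (-(uslN h p / h))) := by
    by_contra hcon
    rw [if_neg hcon] at hb
    exact hb rfl
  refine ⟨h1.2, ?_⟩
  have h2 := (wtN hh hp).1
  rw [le_div_iff₀ hp0] at h2
  have h4 : Real.exp (-(1 / (h : ℝ))) * Real.exp (1 / h) = 1 := by
    rw [← Real.exp_add, neg_add_cancel, Real.exp_zero]
  have h5 : Real.exp (-(uslN h p / h : ℝ)) * Real.exp (uslN h p / h) = 1 := by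
    rw [← Real.exp_add, neg_add_cancel, Real.exp_zero]
  have h6 : (p : ℝ) ≤ Real.exp (uslN h p / h) * Real.exp (1 / h) := by
    calc (p : ℝ) = (Real.exp (-(1 / (h : ℝ))) * p) * Real.exp (1 / h) := by
          rw [mul_right_comm, h4, one_mul]
      _ ≤ _ := mul_le_mul_of_nonneg_right h2 (Real.exp_pos _).le
  calc (p : ℝ) * x ≤ (Real.exp (uslN h p / h) * Real.exp (1 / h)) * x :=
        mul_le_mul_of_nonneg_right h6 hx
    _ ≤ (Real.exp (uslN h p / h) * Real.exp (1 / h)) *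
        (r2 * (N * Real.exp (-(uslN h p / h)))) :=
        mul_le_mul_of_nonneg_left h1.2 (by positivity)
    _ = (Real.exp (-(uslN h p / h : ℝ)) * Real.exp (uslN h p / h)) *
        (Real.exp (1 / h) * (r2 * N)) := by ring
    _ = Real.exp (1 / h) * (r2 * N) := by rw [h5, one_mul]

/-- the thin shells -/
def ThinG (r1 r2 N : ℝ) (h : ℕ) (x : ℝ) : Prop :=
  (r1 * N < x ∧ x ≤ r1 * N * Real.exp (1 / h)) ∨ (r2 * N < x ∧ x ≤ r2 * N * Real.exp (1 / h))

open Classical in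
/-- comparison of the weight with the indicator of the shell -/
theorem bwN_cmp {h p : ℕ} (hh : 0 < h) (r1 r2 N : ℝ) (hp : 0 < p) {x : ℝ} (hx : 0 ≤ x) :
    |(if r1 * N < p * x ∧ p * x ≤ r2 * N then (1 : ℝ) else 0) - bwN h r1 r2 N p x| ≤
      1 / h + (if ThinG r1 r2 N h (p * x) then 1 else 0) := by
  have hh0 : (0 : ℝ) < h := by exact_mod_cast hh
  have hp0 : (0 : ℝ) < p := by exact_mod_cast hp
  obtain ⟨hw1, hw2⟩ := wtN hh hp
  obtain ⟨hb0, hb1⟩ := bwN_bd hh r1 r2 N hp x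
  set w : ℝ := Real.exp (uslN h p / h) / p with hw
  have hw0 : 0 < w := by positivity
  have h4 : Real.exp (-(1 / (h : ℝ))) * Real.exp (1 / h) = 1 := by
    rw [← Real.exp_add, neg_add_cancel, Real.exp_zero]
  have h5 : Real.exp (-(uslN h p / h : ℝ)) * Real.exp (uslN h p / h) = 1 := by
    rw [← Real.exp_add, neg_add_cancel, Real.exp_zero]
  have hE : (0 : ℝ) < Real.exp (uslN h p / h) := Real.exp_pos _
  have hxw : x * Real.exp (uslN h p / h) = w * (p * x) := by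
    rw [hw]
    field_simp
  have hc1 : ∀ r : ℝ, x ≤ r * (N * Real.exp (-(uslN h p / h))) ↔ w * (p * x) ≤ r * N := by
    intro r
    rw [← hxw]
    have e : r * (N * Real.exp (-(uslN h p / h : ℝ))) * Real.exp (uslN h p / h) = r * N := by
      calc _ = r * N * (Real.exp (-(uslN h p / h : ℝ)) * Real.exp (uslN h p / h)) := by ring
        _ = r * N := by rw [h5, mul_one]
    rw [← mul_le_mul_iff_left₀ hE, e]
  have hbw : bwN h r1 r2 N p x = if r1 * N < w * (p * x) ∧ w * (p * x) ≤ r2 * N then w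
      else 0 := by
    unfold bwN
    refine if_congr ?_ rfl rfl
    rw [← not_le, hc1 r1, hc1 r2, not_le]
  have h1h : 1 - w ≤ 1 / h := by
    have h1 : 1 - 1 / (h : ℝ) ≤ Real.exp (-(1 / h)) := by
      have := Real.add_one_le_exp (-(1 / (h : ℝ)))
      linarith
    linarith
  have hx0 : (0 : ℝ) ≤ p * x := by positivity
  have hwx : w * (p * x) ≤ p * x := mul_le_of_le_one_left hx0 hw2
  have hbig : ∀ r : ℝ, r * N * Real.exp (1 / h) < p * x → r * N < w * (p * x) := by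
    intro r h1
    calc r * N = Real.exp (-(1 / (h : ℝ))) * (r * N * Real.exp (1 / h)) := by
          rw [mul_comm (r * N), ← mul_assoc, h4, one_mul]
      _ < Real.exp (-(1 / (h : ℝ))) * (p * x) :=
          mul_lt_mul_of_pos_left h1 (Real.exp_pos _)
      _ ≤ w * (p * x) := mul_le_mul_of_nonneg_right hw1 hx0
  have h1h0 : (0 : ℝ) < 1 / h := by positivity
  by_cases hT : ThinG r1 r2 N h (p * x)
  · rw [if_pos hT]
    split_ifs
    · rw [abs_le]
      constructor <;> linarith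
    · rw [abs_le]
      constructor <;> linarith
  rw [if_neg hT, add_zero]
  unfold ThinG at hT
  rw [not_or, not_and, not_and, not_le, not_le] at hT
  split_ifs with hS
  · have hb : bwN h r1 r2 N p x = w := by
      rw [hbw, if_pos]
      exact ⟨hbig r1 (hT.1 hS.1), hwx.trans hS.2⟩
    rw [hb, abs_of_nonneg (by linarith)]
    linarith
  · have hb : bwN h r1 r2 N p x = 0 := by
      rw [hbw, if_neg]
      rintro ⟨h1, h2⟩
      apply hS
      have h3 : r1 * N < p * x := h1.trans_le hwx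
      refine ⟨h3, ?_⟩
      by_contra hcon
      rw [not_le] at hcon
      linarith [hbig r2 (hT.2 hcon)]
    rw [hb, sub_zero, abs_zero]
    exact h1h0.le

open Classical in
/-- the coefficient of `v` in the main term -/
noncomputable def betaG {ι : Type} (Q : Form) (h : ℕ) (r1 r2 N : ℝ) (P : Finset ι) (p : ι → ℕ)
    (A : ι → Mat) (v : V) : ℝ :=
  ∑ a ∈ P, if MRS.LatU84.Im (A a) v then bwN h r1 r2 N (p a) ((Q.q v : ℝ) / p a) else 0

open Classical in
theorem betaG_cmp {ι : Type} {Q : Form} (hQ : Q.Pos) {h : ℕ} (hh : 0 < h) (r1 r2 N : ℝ)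
    (P : Finset ι) (p : ι → ℕ) (A : ι → Mat) (hP : ∀ a ∈ P, (p a).Prime) (v : V) :
    |(if r1 * N < (Q.q v : ℝ) ∧ (Q.q v : ℝ) ≤ r2 * N then omG P A v else 0) -
      betaG Q h r1 r2 N P p A v| ≤
      omG P A v * (1 / h + if ThinG r1 r2 N h (Q.q v : ℝ) then 1 else 0) := by
  have e1 : (if r1 * N < (Q.q v : ℝ) ∧ (Q.q v : ℝ) ≤ r2 * N then omG P A v else 0) -
      betaG Q h r1 r2 N P p A v = ∑ a ∈ P, if MRS.LatU84.Im (A a) v then
        (if r1 * N < (Q.q v : ℝ) ∧ (Q.q v : ℝ) ≤ r2 * N then 1 else 0) -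
          bwN h r1 r2 N (p a) ((Q.q v : ℝ) / p a) else 0 := by
    have e2 : (if r1 * N < (Q.q v : ℝ) ∧ (Q.q v : ℝ) ≤ r2 * N then omG P A v else 0) =
        ∑ a ∈ P, if MRS.LatU84.Im (A a) v then
          (if r1 * N < (Q.q v : ℝ) ∧ (Q.q v : ℝ) ≤ r2 * N then (1 : ℝ) else 0) else 0 := by
      by_cases h1 : r1 * N < (Q.q v : ℝ) ∧ (Q.q v : ℝ) ≤ r2 * N
      · simp only [if_pos h1]
        rfl
      · simp only [if_neg h1]
        simp
    rw [e2]
    unfold betaG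
    rw [← Finset.sum_sub_distrib]
    refine Finset.sum_congr rfl fun a _ => ?_
    by_cases h1 : MRS.LatU84.Im (A a) v
    · simp only [if_pos h1]
    · simp only [if_neg h1, sub_zero]
  rw [e1]
  refine (Finset.abs_sum_le_sum_abs _ _).trans ?_
  have e3 : omG P A v * (1 / h + if ThinG r1 r2 N h (Q.q v : ℝ) then 1 else 0) =
      ∑ a ∈ P, if MRS.LatU84.Im (A a) v then
        (1 / (h : ℝ) + if ThinG r1 r2 N h (Q.q v : ℝ) then 1 else 0) else 0 := by
    unfold omG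
    rw [Finset.sum_mul]
    refine Finset.sum_congr rfl fun a _ => ?_
    by_cases h1 : MRS.LatU84.Im (A a) v
    · simp only [if_pos h1, one_mul]
    · simp only [if_neg h1, zero_mul]
  rw [e3]
  refine Finset.sum_le_sum fun a ha => ?_
  by_cases h1 : MRS.LatU84.Im (A a) v
  · rw [if_pos h1, if_pos h1]
    have hpos : 0 < p a := (hP a ha).pos
    have hpr : (p a : ℝ) ≠ 0 := by exact_mod_cast hpos.ne'
    have hq : (0 : ℝ) ≤ (Q.q v : ℝ) / p a := by
      have : (0 : ℝ) ≤ Q.q v := by exact_mod_cast hQ.q_nonneg v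
      positivity
    have h2 := bwN_cmp hh r1 r2 N hpos hq
    rw [mul_div_cancel₀ _ hpr] at h2
    exact h2
  · rw [if_neg h1, if_neg h1, abs_zero]

/-- regrouping the pairs with `A m` primitive -/
theorem regroupG {Q Q' : Form} (hQ' : Q'.Pos) {r1 r2 : ℝ} {h p : ℕ} (hh : 0 < h) {N B : ℝ}
    (hN : 0 < N) (hr2 : 0 < r2) (hB : Real.exp (1 / h) * r2 ≤ B) (hp : p.Prime) {A : Mat}
    (hA : A.det = p) (hsim : ∀ u, Q.q (A.app u) = p * Q'.q u)
    (G W : Finset V) (hG : ∀ m, m ∈ G ↔ Prim m ∧ (Q'.q m : ℝ) ≤ r2 * N)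
    (hW : ∀ v, v ∈ W ↔ Prim v ∧ (Q.q v : ℝ) ≤ B * N) (F : V → ℂ) :
    ∑ m ∈ G, ((if Prim (A.app m) then bwN h r1 r2 N p (Q'.q m) else 0 : ℝ) : ℂ) * F (A.app m) =
      ∑ v ∈ W, (((open Classical in if MRS.LatU84.Im A v then
        bwN h r1 r2 N p ((Q.q v : ℝ) / p) else 0) : ℝ) : ℂ) * F v := by
  classical
  have hpr : (p : ℝ) ≠ 0 := by exact_mod_cast hp.ne_zero
  have hqd : ∀ m : V, (Q.q (A.app m) : ℝ) / p = Q'.q m := by
    intro m
    rw [hsim]
    push_cast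
    field_simp
  have hinj : ∀ x y : V, A.app x = A.app y → x = y := by
    intro x y hxy
    have h1 := congrArg A.adj.app hxy
    rw [Mat.adj_app, Mat.adj_app, hA] at h1
    have hp0 : (p : ℤ) ≠ 0 := by exact_mod_cast hp.ne_zero
    exact smul_right_injective V hp0 h1
  have key : ∀ m, (if Prim (A.app m) then bwN h r1 r2 N p (Q'.q m) else 0) ≠ 0 →
      Prim (A.app m) ∧ bwN h r1 r2 N p (Q'.q m) ≠ 0 := by
    intro m hm
    by_cases h1 : Prim (A.app m)
    · rw [if_pos h1] at hm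
      exact ⟨h1, hm⟩
    · rw [if_neg h1] at hm
      exact absurd rfl hm
  have hq0 : ∀ m, (0 : ℝ) ≤ Q'.q m := fun m => by exact_mod_cast hQ'.q_nonneg m
  refine Finset.sum_bij_ne_zero (fun m _ _ => A.app m) ?_ ?_ ?_ ?_
  · intro m _ hm
    obtain ⟨h1, h2⟩ := key m (by
      intro h0
      apply hm
      rw [h0, Complex.ofReal_zero, zero_mul])
    rw [hW]
    refine ⟨h1, ?_⟩
    have h3 := (bwN_nm hh r1 r2 N hp.pos (hq0 m) h2).2
    rw [hsim]
    push_cast
    refine h3.trans ?_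
    rw [← mul_assoc]
    exact mul_le_mul_of_nonneg_right hB hN.le
  · intro m _ _ m' _ _ hmm
    exact hinj m m' hmm
  · intro v hv hv0
    have hd : MRS.LatU84.Im A v := by
      by_contra hcon
      apply hv0
      rw [if_neg hcon, Complex.ofReal_zero, zero_mul]
    rw [if_pos hd] at hv0
    obtain ⟨m, rfl⟩ := hd
    rw [hqd] at hv0
    have hb : bwN h r1 r2 N p (Q'.q m) ≠ 0 := by
      intro h0
      apply hv0
      rw [h0, Complex.ofReal_zero, zero_mul]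
    have hpv := ((hW _).1 hv).1
    have hmG : m ∈ G := by
      rw [hG]
      refine ⟨prim_of_app hpv, (bwN_nm hh r1 r2 N hp.pos (hq0 m) hb).1.trans ?_⟩
      apply mul_le_mul_of_nonneg_left _ hr2.le
      apply mul_le_of_le_one_right hN.le
      rw [Real.exp_le_one_iff, neg_nonpos]
      positivity
    refine ⟨m, hmG, ?_, rfl⟩
    rw [if_pos hpv]
    exact hv0
  · intro m _ hm
    obtain ⟨h1, h2⟩ := key m (by
      intro h0
      apply hm
      rw [h0, Complex.ofReal_zero, zero_mul])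
    rw [if_pos h1, if_pos ⟨m, rfl⟩, hqd]

end Pool.Agent.Lib.MP_a17b09_nt.MRSG.Dec21
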