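import Pool.Agent.Lib.MP_a17b09_nt.MRSG.ShiftG12

/-!
MRSG (MP_a17b09_nt): the normalised indicator of the image of `M_P`, and its correlations over
shells. helper12.
-/

set_option autoImplicit false

open Finset

namespace Pool.Agent.Lib.MP_a17b09_nt.MRSG.EigG12

open CH CH.PE ExpG12 ShiftG12

/-- the linear form of the condition -/
theorem eig_lin (r : ℤ) (Q : Form) (x v w : V) :
    Q.B x v - r * wd x v = (Q.B x w - r * wd x w) +
      ((v.1 - w.1) * (Q.B x (1, 0) - r * wd x (1, 0)) +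
        (v.2 - w.2) * (Q.B x (0, 1) - r * wd x (0, 1))) := by
  unfold Form.B wd
  ring

theorem eig_per {p r : ℤ} {Q : Form} {v w : V} (h1 : p ∣ v.1 - w.1) (h2 : p ∣ v.2 - w.2) :
    Eig p r Q v ↔ Eig p r Q w := by
  unfold Eig
  refine forall_congr' (fun x => ?_)
  rw [eig_lin r Q x v w]
  have h3 : p ∣ ((v.1 - w.1) * (Q.B x (1, 0) - r * wd x (1, 0)) +
        (v.2 - w.2) * (Q.B x (0, 1) - r * wd x (0, 1))) :=
    dvd_add (h1.mul_right _) (h2.mul_right _)
  exact dvd_add_left h3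

theorem eig_shift {p r : ℤ} {Q : Form} {t : V} (ht : Eig p r Q t) (s : ℤ) (v : V) :
    Eig p r Q (v + s • t) ↔ Eig p r Q v := by
  unfold Eig
  refine forall_congr' (fun x => ?_)
  have e : Q.B x (v + s • t) - r * wd x (v + s • t) =
      (Q.B x v - r * wd x v) + s * (Q.B x t - r * wd x t) := by
    unfold Form.B wd
    simp only [Prod.fst_add, Prod.snd_add, Prod.smul_fst, Prod.smul_snd, smul_eq_mul]
    ring
  rw [e]
  exact dvd_add_left ((ht x).mul_left _)

theorem eig_smul {p r : ℤ} {Q : Form} {t : V} (ht : Eig p r Q t) (s : ℤ) : Eig p r Q (s • t) := by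
  have h := (eig_shift ht s 0).2 (fun x => by
    have : Q.B x 0 - r * wd x 0 = 0 := by
      unfold Form.B wd
      simp
    rw [this]
    exact dvd_zero _)
  rwa [zero_add] at h

variable {d K : ℕ}

/-- the image is given by one linear condition -/
theorem eig_line {P : ℕ × Bool} (h : Adm d K P) (i : Cl d) :
    ∃ f : V, ∀ v, Eig P.1 (rg d P) (rep i) v ↔ (P.1 : ℤ) ∣ wd f v := by
  obtain ⟨hr, R⟩ := rel_g h i
  have hp : Prime (P.1 : ℤ) := Nat.prime_iff_prime_int.1 h.1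
  -- a column which is not divisible by `p`
  obtain ⟨f, hf1, hf2⟩ : ∃ f : V, Eig P.1 (rg d P) (rep i) f ∧
      ¬ ((P.1 : ℤ) ∣ f.1 ∧ (P.1 : ℤ) ∣ f.2) := by
    by_contra hcon
    push Not at hcon
    have k1 : (P.1 : ℤ) ∣ (Mg d P i).a ∧ (P.1 : ℤ) ∣ (Mg d P i).c := by
      have := R.eig (1, 0)
      have e : (Mg d P i).app (1, 0) = ((Mg d P i).a, (Mg d P i).c) := by
        unfold Mat.app
        simp
      rw [e] at this
      by_contra h3
      rw [not_and] at h3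
      have h4 := hcon _ this
      simp only at h4
      tauto
    have k2 : (P.1 : ℤ) ∣ (Mg d P i).b ∧ (P.1 : ℤ) ∣ (Mg d P i).d := by
      have := R.eig (0, 1)
      have e : (Mg d P i).app (0, 1) = ((Mg d P i).b, (Mg d P i).d) := by
        unfold Mat.app
        simp
      rw [e] at this
      by_contra h3
      rw [not_and] at h3
      have h4 := hcon _ this
      simp only at h4
      tauto
    obtain ⟨⟨a, ha⟩, ⟨c, hc⟩⟩ := k1
    obtain ⟨⟨b, hb'⟩, ⟨e, he⟩⟩ := k2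
    have hdet := R.det
    unfold Mat.det at hdet
    rw [ha, hc, hb', he] at hdet
    have h3 : (P.1 : ℤ) * 1 = P.1 * (P.1 * (a * e - b * c)) := by
      rw [mul_one]
      linear_combination -hdet
    have h4 := mul_left_cancel₀ hp.ne_zero h3
    exact hp.not_isUnit (isUnit_of_dvd_one ⟨_, h4⟩)
  refine ⟨f, fun v => ⟨fun hv => Eig.wd_dvd hp hr hf1 hv, fun hv x => ?_⟩⟩
  have e1 : f.1 * ((rep i).B x v - rg d P * wd x v) =
      v.1 * ((rep i).B x f - rg d P * wd x f) +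
        wd f v * ((rep i).B x (0, 1) - rg d P * wd x (0, 1)) := by
    unfold Form.B wd
    ring
  have e2 : f.2 * ((rep i).B x v - rg d P * wd x v) =
      v.2 * ((rep i).B x f - rg d P * wd x f) -
        wd f v * ((rep i).B x (1, 0) - rg d P * wd x (1, 0)) := by
    unfold Form.B wd
    ring
  have h1 : (P.1 : ℤ) ∣ f.1 * ((rep i).B x v - rg d P * wd x v) := by
    rw [e1]
    exact dvd_add ((hf1 x).mul_left _) (hv.mul_right _)
  have h2 : (P.1 : ℤ) ∣ f.2 * ((rep i).B x v - rg d P * wd x v) := by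
    rw [e2]
    exact dvd_sub ((hf1 x).mul_left _) (hv.mul_right _)
  by_cases h3 : (P.1 : ℤ) ∣ f.1
  · exact (hp.dvd_or_dvd h2).resolve_left (fun h4 => hf2 ⟨h3, h4⟩)
  · exact (hp.dvd_or_dvd h1).resolve_left h3

open Classical in
/-- the number of solutions of a linear congruence -/
theorem count_line (p : ℕ) (hp : p.Prime) (u w : ℤ) (hw : ¬ (p : ℤ) ∣ w) :
    ∑ s ∈ range p, (if (p : ℤ) ∣ u + (s : ℤ) * w then (1 : ℂ) else 0) = 1 := by
  have : Fact p.Prime := ⟨hp⟩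
  have : NeZero p := ⟨hp.ne_zero⟩
  have hw0 : (w : ZMod p) ≠ 0 := by
    intro h
    exact hw ((ZMod.intCast_zmod_eq_zero_iff_dvd w p).1 h)
  set s0 : ZMod p := -(u : ZMod p) * (w : ZMod p)⁻¹ with hs0
  have key : ∀ s ∈ range p, ((p : ℤ) ∣ u + (s : ℤ) * w ↔ s = s0.val) := by
    intro s hs
    rw [← ZMod.intCast_zmod_eq_zero_iff_dvd]
    push_cast
    constructor
    · intro h
      have h1 : (s : ZMod p) = s0 := by
        rw [hs0]
        field_simp
        linear_combination h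
      rw [← h1, ZMod.val_natCast, Nat.mod_eq_of_lt (mem_range.1 hs)]
    · intro h
      rw [h, ZMod.natCast_zmod_val, hs0]
      field_simp
      ring
  rw [sum_congr rfl (fun s hs => if_congr (key s hs) rfl rfl), sum_ite_eq' (range p) s0.val,
    if_pos (mem_range.2 (ZMod.val_lt s0))]

open Classical in
/-- the normalised indicator of the image of `M_P` -/
noncomputable def Dp (i : Cl d) (P : ℕ × Bool) (v : V) : ℝ :=
  (if Eig P.1 (rg d P) (rep i) v then 1 else 0) - 1 / (P.1 : ℝ)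

theorem abs_Dp {P : ℕ × Bool} (h : Adm d K P) (i : Cl d) (v : V) : |Dp i P v| ≤ 1 := by
  have h1 : (1 : ℝ) ≤ P.1 := by exact_mod_cast h.1.one_lt.le
  have h2 : 1 / (P.1 : ℝ) ≤ 1 := (div_le_one (by linarith)).2 h1
  have h3 : 0 < 1 / (P.1 : ℝ) := by positivity
  unfold Dp
  rw [abs_le]
  split_ifs <;> constructor <;> linarith

theorem Dp_per (i : Cl d) (P : ℕ × Bool) {v w : V} (h1 : (P.1 : ℤ) ∣ v.1 - w.1)
    (h2 : (P.1 : ℤ) ∣ v.2 - w.2) : Dp i P v = Dp i P w := by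
  classical
  unfold Dp
  rw [if_congr (eig_per h1 h2) rfl rfl]

theorem Dp_shift (i : Cl d) (P : ℕ × Bool) {t : V} (ht : Eig P.1 (rg d P) (rep i) t) (s : ℤ)
    (v : V) : Dp i P (v + s • t) = Dp i P v := by
  classical
  unfold Dp
  rw [if_congr (eig_shift ht s v) rfl rfl]

/-- vanishing average over translations -/
theorem Dp_zero {P : ℕ × Bool} (h : Adm d K P) (i : Cl d) {t : V}
    (ht : ¬ Eig P.1 (rg d P) (rep i) t) (v : V) :
    ∑ s ∈ range P.1, ((Dp i P (v + (s : ℤ) • t) : ℝ) : ℂ) = 0 := by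
  classical
  obtain ⟨f, hf⟩ := eig_line h i
  have hw : ¬ (P.1 : ℤ) ∣ wd f t := fun h1 => ht ((hf t).2 h1)
  have h1 := count_line P.1 h.1 (wd f v) (wd f t) hw
  have hp0 : (P.1 : ℂ) ≠ 0 := by exact_mod_cast h.1.ne_zero
  have e : ∀ s ∈ range P.1, ((Dp i P (v + (s : ℤ) • t) : ℝ) : ℂ) =
      (if (P.1 : ℤ) ∣ wd f v + (s : ℤ) * wd f t then (1 : ℂ) else 0) - 1 / (P.1 : ℂ) := by
    intro s _
    unfold Dp
    have e2 : wd f (v + (s : ℤ) • t) = wd f v + (s : ℤ) * wd f t := by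
      unfold wd
      simp only [Prod.fst_add, Prod.snd_add, Prod.smul_fst, Prod.smul_snd, smul_eq_mul]
      ring
    rw [if_congr (hf _) rfl rfl, e2]
    split_ifs
    · push_cast
      ring
    · push_cast
      ring
  rw [sum_congr rfl e, sum_sub_distrib, h1, sum_const, card_range, nsmul_eq_mul,
    mul_one_div_cancel hp0, sub_self]

/-- two different primes: a vector in one image and not in the other -/
theorem exists_sep {P P' : ℕ × Bool} (h : Adm d K P) (h' : Adm d K P') (hne : P ≠ P')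
    (i : Cl d) : ∃ e : V, (0 ≤ e.1 ∧ e.1 ≤ P.1 * P'.1) ∧ (0 ≤ e.2 ∧ e.2 ≤ P.1 * P'.1) ∧
      Eig P'.1 (rg d P') (rep i) e ∧ ¬ Eig P.1 (rg d P) (rep i) e := by
  obtain ⟨e0, he1, he2⟩ : ∃ e : V, Eig P'.1 (rg d P') (rep i) e ∧
      ¬ Eig P.1 (rg d P) (rep i) e := by
    by_cases hp : P.1 = P'.1
    · obtain ⟨u, hu⟩ := PwtG84.img_ne h' h (Ne.symm hne) hp.symm i
      refine ⟨(Mg d P' i).app u, (rel_g h' i).2.eig u, fun h1 => hu ?_⟩
      exact (PwtG84.im_iff h i _).2 h1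
    · by_contra hcon
      push Not at hcon
      have hpp : Prime (P.1 : ℤ) := Nat.prime_iff_prime_int.1 h.1
      have hnd : ¬ (P.1 : ℤ) ∣ (P'.1 : ℤ) := by
        intro h1
        exact hp ((Nat.prime_dvd_prime_iff_eq h.1 h'.1).1 (by exact_mod_cast h1))
      have key : ∀ v : V, Eig P.1 (rg d P) (rep i) v := by
        intro v
        have h1 : Eig P'.1 (rg d P') (rep i) ((P'.1 : ℤ) • v) := by
          intro x
          rw [Form.B_smul_right, wd_smul_right]
          exact ⟨(rep i).B x v - rg d P' * wd x v, by ring⟩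
        have h2 := hcon _ h1
        intro x
        have h3 := h2 x
        rw [Form.B_smul_right, wd_smul_right] at h3
        have h4 : (P.1 : ℤ) ∣ (P'.1 : ℤ) * ((rep i).B x v - rg d P * wd x v) := by
          have e : (P'.1 : ℤ) * ((rep i).B x v - rg d P * wd x v) =
              (P'.1 : ℤ) * (rep i).B x v - rg d P * ((P'.1 : ℤ) * wd x v) := by ring
          rw [e]
          exact h3
        exact (hpp.dvd_or_dvd h4).resolve_left hnd
      have h5 := Eig.wd_dvd hpp (rel_g h i).1 (key (1, 0)) (key (0, 1))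
      have h6 : wd ((1, 0) : V) (0, 1) = 1 := by
        unfold wd
        norm_num
      rw [h6] at h5
      exact hpp.not_isUnit (isUnit_of_dvd_one h5)
  set q : ℤ := P.1 * P'.1 with hq
  have hq0 : 0 < q := by
    have h1 : (0 : ℤ) < P.1 := by exact_mod_cast h.1.pos
    have h2 : (0 : ℤ) < P'.1 := by exact_mod_cast h'.1.pos
    positivity
  have hmod : ∀ x : ℤ, q ∣ x % q - x := by
    intro x
    have h1 := Int.emod_add_mul_ediv x q
    exact ⟨-(x / q), by linarith⟩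
  have hd1 : (P.1 : ℤ) ∣ q := Dvd.intro _ rfl
  have hd2 : (P'.1 : ℤ) ∣ q := Dvd.intro_left _ rfl
  refine ⟨(e0.1 % q, e0.2 % q), ⟨Int.emod_nonneg _ hq0.ne', (Int.emod_lt_of_pos _ hq0).le⟩,
    ⟨Int.emod_nonneg _ hq0.ne', (Int.emod_lt_of_pos _ hq0).le⟩, ?_, ?_⟩
  · exact (eig_per (hd2.trans (hmod e0.1)) (hd2.trans (hmod e0.2))).2 he1
  · intro h1
    exact he2 ((eig_per (hd1.trans (hmod e0.1)) (hd1.trans (hmod e0.2))).1 h1)

/-- size of a vector with small coordinates -/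
theorem tq_small {Q : Form} (hQ : Q.Pos) (m : ℝ) (v : V) (h1 : |(v.1 : ℝ)| ≤ m)
    (h2 : |(v.2 : ℝ)| ≤ m) : ‖tq Q v‖ ≤ (|(Q.a : ℝ)| + |(Q.b : ℝ)| + |(Q.c : ℝ)| + 1) * m := by
  have hm : 0 ≤ m := (abs_nonneg _).trans h1
  set A : ℝ := |(Q.a : ℝ)| + |(Q.b : ℝ)| + |(Q.c : ℝ)| with hA
  have hA0 : 0 ≤ A := by positivity
  have h3 : (Q.q v : ℝ) ≤ A * m ^ 2 := by
    have e : (Q.q v : ℝ) = Q.a * v.1 ^ 2 + Q.b * v.1 * v.2 + Q.c * v.2 ^ 2 := by
      unfold Form.q
      push_cast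
      ring
    rw [e]
    have k1 : (Q.a : ℝ) * v.1 ^ 2 ≤ |(Q.a : ℝ)| * m ^ 2 := by
      apply mul_le_mul (le_abs_self _) _ (by positivity) (by positivity)
      rw [← sq_abs]
      exact pow_le_pow_left₀ (abs_nonneg _) h1 2
    have k2 : (Q.b : ℝ) * v.1 * v.2 ≤ |(Q.b : ℝ)| * m ^ 2 := by
      have : (Q.b : ℝ) * v.1 * v.2 ≤ |(Q.b : ℝ)| * (|(v.1 : ℝ)| * |(v.2 : ℝ)|) := by
        rw [← abs_mul, ← abs_mul, ← mul_assoc]
        exact le_abs_self _
      refine this.trans ?_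
      apply mul_le_mul_of_nonneg_left _ (by positivity)
      rw [sq]
      exact mul_le_mul h1 h2 (abs_nonneg _) hm
    have k3 : (Q.c : ℝ) * v.2 ^ 2 ≤ |(Q.c : ℝ)| * m ^ 2 := by
      apply mul_le_mul (le_abs_self _) _ (by positivity) (by positivity)
      rw [← sq_abs]
      exact pow_le_pow_left₀ (abs_nonneg _) h2 2
    rw [hA]
    linarith
  have h4 := tq_nrm hQ v
  have h5 : ‖tq Q v‖ ^ 2 ≤ ((A + 1) * m) ^ 2 := by
    rw [h4]
    refine h3.trans ?_
    rw [mul_pow]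
    apply mul_le_mul_of_nonneg_right _ (by positivity)
    nlinarith
  exact (sq_le_sq₀ (norm_nonneg _) (by positivity)).1 h5

/-- **correlations of two different primes over shells, with a weight periodic modulo `K`** -/
theorem corr {P P' : ℕ × Bool} (h : Adm d K P) (h' : Adm d K P') (hne : P ≠ P') (hK : 0 < K)
    (i : Cl d) (a b : ℝ) (ha : 0 ≤ a) (hab : a ≤ b) (g : V → ℂ) (hg : ∀ v, ‖g v‖ ≤ 1)
    (hgK : ∀ v w : V, (K : ℤ) ∣ v.1 - w.1 → (K : ℤ) ∣ v.2 - w.2 → g v = g w) (τ : ℝ)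
    (hτ : (P.1 : ℝ) * (K * ((|((rep i).a : ℝ)| + |((rep i).b : ℝ)| + |((rep i).c : ℝ)| + 1) *
      (P.1 * P'.1))) ≤ τ) :
    ‖∑ v ∈ shQ (rep i) a b, ((Dp i P v * Dp i P' v : ℝ) : ℂ) * g v‖ ≤
      400 * ((τ + 1) * (√b + τ + 1)) + 2 := by
  obtain ⟨e, he1, he2, he3, he4⟩ := exists_sep h h' hne i
  have hKz : (0 : ℤ) < K := by exact_mod_cast hK
  have hpz : (0 : ℤ) < P.1 := by exact_mod_cast h.1.pos
  have hτ0 : 0 ≤ τ := le_trans (by positivity) hτ
  set t : V := (K : ℤ) • e with ht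
  have ht1 : Eig P'.1 (rg d P') (rep i) t := eig_smul he3 _
  have ht2 : ¬ Eig P.1 (rg d P) (rep i) t := by
    intro h1
    apply he4
    have hpp : Prime (P.1 : ℤ) := Nat.prime_iff_prime_int.1 h.1
    have hnd : ¬ (P.1 : ℤ) ∣ (K : ℤ) := by
      intro h2
      have h3 : P.1 ∣ K := by exact_mod_cast h2
      exact (Nat.Prime.coprime_iff_not_dvd h.1).1 h.cop h3
    intro x
    have h3 := h1 x
    rw [ht, Form.B_smul_right, wd_smul_right] at h3
    have h4 : (P.1 : ℤ) ∣ (K : ℤ) * ((rep i).B x e - rg d P * wd x e) := by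
      have e1 : (K : ℤ) * ((rep i).B x e - rg d P * wd x e) =
          (K : ℤ) * (rep i).B x e - rg d P * ((K : ℤ) * wd x e) := by ring
      rw [e1]
      exact h3
    exact (hpp.dvd_or_dvd h4).resolve_left hnd
  apply shift_zero (rep_pos i) a b ha hab τ hτ0 t P.1 h.1.pos
  · refine le_trans ?_ hτ
    apply mul_le_mul_of_nonneg_left _ (by positivity)
    rw [ht, tq_zsmul, norm_mul]
    have e1 : ‖((K : ℤ) : ℂ)‖ = K := by rw [Int.cast_natCast, Complex.norm_natCast]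
    rw [e1]
    apply mul_le_mul_of_nonneg_left _ (by positivity)
    apply tq_small (rep_pos i)
    · rw [abs_of_nonneg (by exact_mod_cast he1.1)]
      exact_mod_cast he1.2
    · rw [abs_of_nonneg (by exact_mod_cast he2.1)]
      exact_mod_cast he2.2
  · intro v
    rw [norm_mul, Complex.norm_real, Real.norm_eq_abs, abs_mul]
    calc |Dp i P v| * |Dp i P' v| * ‖g v‖ ≤ 1 * 1 * 1 :=
          mul_le_mul (mul_le_mul (abs_Dp h i v) (abs_Dp h' i v) (abs_nonneg _) (by norm_num))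
            (hg v) (norm_nonneg _) (by norm_num)
      _ = 1 := by norm_num
  · intro v
    have e1 : ∀ s ∈ range P.1,
        ((Dp i P (v + (s : ℤ) • t) * Dp i P' (v + (s : ℤ) • t) : ℝ) : ℂ) * g (v + (s : ℤ) • t) =
        ((Dp i P (v + (s : ℤ) • t) : ℝ) : ℂ) * (((Dp i P' v : ℝ) : ℂ) * g v) := by
      intro s _
      rw [Dp_shift i P' ht1 (s : ℤ) v, hgK (v + (s : ℤ) • t) v]
      · push_cast
        ring
      · rw [ht]
        simp only [Prod.fst_add, Prod.smul_fst, smul_eq_mul]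
        exact ⟨s * e.1, by ring⟩
      · rw [ht]
        simp only [Prod.snd_add, Prod.smul_snd, smul_eq_mul]
        exact ⟨s * e.2, by ring⟩
    rw [sum_congr rfl e1, ← sum_mul, Dp_zero h i ht2 v, zero_mul]

/-- the diagonal -/
theorem diag {P : ℕ × Bool} (h : Adm d K P) (i : Cl d) (a b : ℝ) (hb : (P.1 : ℝ) ≤ b) :
    (P.1 : ℝ) * ∑ v ∈ shQ (rep i) a b, Dp i P v ^ 2 ≤ 76 * b := by
  classical
  have hp1 : (1 : ℝ) ≤ P.1 := by exact_mod_cast h.1.one_lt.le
  have hp0 : (0 : ℝ) < P.1 := by linarith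
  have h1 : ∑ v ∈ shQ (rep i) a b, Dp i P v ^ 2 ≤
      ∑ v ∈ shQ (rep i) a b, ((if Eig P.1 (rg d P) (rep i) v then (1 : ℝ) else 0) +
        1 / (P.1 : ℝ)) := by
    refine sum_le_sum (fun v _ => ?_)
    have h2 : 1 / (P.1 : ℝ) ≤ 1 := (div_le_one hp0).2 hp1
    have h3 : 0 < 1 / (P.1 : ℝ) := by positivity
    unfold Dp
    split_ifs
    · nlinarith
    · nlinarith
  have h2 : ∑ v ∈ shQ (rep i) a b, (if Eig P.1 (rg d P) (rep i) v then (1 : ℝ) else 0) ≤
      38 * (b / P.1) := by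
    have h3 := sum_eig h i a b (fun _ => (1 : ℂ))
    rw [sum_filter] at h3
    have h4 : ∑ v ∈ shQ (rep i) a b, (if Eig P.1 (rg d P) (rep i) v then (1 : ℝ) else 0) =
        ((shQ (rep (sg d P i)) (a / P.1) (b / P.1)).card : ℝ) := by
      have h5 : ((∑ v ∈ shQ (rep i) a b,
          (if Eig P.1 (rg d P) (rep i) v then (1 : ℝ) else 0) : ℝ) : ℂ) =
          (((shQ (rep (sg d P i)) (a / P.1) (b / P.1)).card : ℝ) : ℂ) := by
        push_cast
        rw [sum_const, nsmul_eq_mul, mul_one] at h3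
        rw [← h3]
        refine sum_congr rfl (fun v _ => ?_)
        split_ifs <;> simp
      exact_mod_cast h5
    rw [h4]
    apply card_sh _ (rep_pos _) _ _ ((one_le_div hp0).2 hb)
    intro v hv
    exact ((mem_shQ (rep_pos _)).1 hv).2.2
  have h3 : ((shQ (rep i) a b).card : ℝ) ≤ 38 * b :=
    card_sh _ (rep_pos i) _ _ (hp1.trans hb) (fun v hv => ((mem_shQ (rep_pos _)).1 hv).2.2)
  rw [sum_add_distrib, sum_const, nsmul_eq_mul] at h1
  have h4 : ∑ v ∈ shQ (rep i) a b, Dp i P v ^ 2 ≤ 38 * (b / P.1) + 38 * b * (1 / P.1) :=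
    h1.trans (add_le_add h2 (mul_le_mul_of_nonneg_right h3 (by positivity)))
  calc (P.1 : ℝ) * ∑ v ∈ shQ (rep i) a b, Dp i P v ^ 2
      ≤ (P.1 : ℝ) * (38 * (b / P.1) + 38 * b * (1 / P.1)) :=
        mul_le_mul_of_nonneg_left h4 hp0.le
    _ = 76 * b := by
        field_simp
        ring

end Pool.Agent.Lib.MP_a17b09_nt.MRSG.EigG12
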