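import Pool.Agent.Lib.MP_a17b09_nt.MRSG.PwtG84
import Pool.Agent.Lib.MP_a17b09_nt.MR.VGf63

/-!
MRSG (MP_a17b09_nt): angular characters over arbitrary shells and residue classes, from `StVF`.
helper12.
-/

set_option autoImplicit false

open Finset

namespace Pool.Agent.Lib.MP_a17b09_nt.MRSG.ExpG12

open CH CH.PE

theorem lam_tq (Q : Form) (hQ : Q.Pos) (v : V) :
    lam Q v = ((2 * √(Q.a : ℝ) : ℝ) : ℂ) * tq Q v := by
  have ha : (0 : ℝ) < Q.a := by exact_mod_cast hQ.1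
  have hs : 0 < √(Q.a : ℝ) := Real.sqrt_pos.2 ha
  have hss : √(Q.a : ℝ) * √(Q.a : ℝ) = Q.a := Real.mul_self_sqrt ha.le
  apply Complex.ext
  · rw [Complex.re_ofReal_mul]
    unfold lam tq
    simp only [Complex.add_re, Complex.mul_re, Complex.ofReal_re, Complex.ofReal_im, Complex.I_re,
      Complex.I_im, mul_zero, zero_mul, sub_zero, add_zero]
    push_cast
    have h1 : 2 * √(Q.a : ℝ) * (√(Q.a : ℝ) * v.1 + Q.b * v.2 / (2 * √(Q.a : ℝ))) =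
        2 * (√(Q.a : ℝ) * √(Q.a : ℝ)) * v.1 + Q.b * v.2 := by
      field_simp
    rw [h1, hss]
  · rw [Complex.im_ofReal_mul]
    unfold lam tq
    simp only [Complex.add_im, Complex.mul_im, Complex.ofReal_re, Complex.ofReal_im, Complex.I_re,
      Complex.I_im, mul_zero, mul_one, add_zero, zero_add]
    field_simp

/-- the two normalisations of the direction -/
theorem uu_tq (Q : Form) (hQ : Q.Pos) (v : V) : uu Q v = tq Q v / (‖tq Q v‖ : ℂ) := by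
  have ha : (0 : ℝ) < Q.a := by exact_mod_cast hQ.1
  have hs : 0 < √(Q.a : ℝ) := Real.sqrt_pos.2 ha
  have h2 : (0 : ℝ) < 2 * √(Q.a : ℝ) := by positivity
  have hc : ((2 * √(Q.a : ℝ) : ℝ) : ℂ) ≠ 0 := by exact_mod_cast h2.ne'
  unfold uu
  rw [lam_tq Q hQ v, norm_mul, Complex.norm_real, Real.norm_of_nonneg h2.le]
  rw [Complex.ofReal_mul (2 * √(Q.a : ℝ)) ‖tq Q v‖, mul_div_mul_left _ _ hc]

theorem q_ge_one {Q : Form} (hQ : Q.Pos) {v : V} (hv : v ≠ 0) : (1 : ℝ) ≤ Q.q v := by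
  have h := hQ.q_pos hv
  exact_mod_cast h

/-- trivial bound -/
theorem card_sh (Q : Form) (hQ : Q.Pos) (S : Finset V) (b : ℝ) (hb : 1 ≤ b)
    (h : ∀ v ∈ S, (Q.q v : ℝ) ≤ b) : (S.card : ℝ) ≤ 38 * b := by
  have hsub : S ⊆ Q.ball ⌊b⌋₊ := by
    intro v hv
    rw [Form.mem_ball hQ]
    have h1 := h v hv
    have h2 : Q.q v ≤ ⌊b⌋ := Int.le_floor.2 h1
    rwa [← Int.natCast_floor_eq_floor (by linarith : (0 : ℝ) ≤ b)] at h2
  have h1 : (S.card : ℝ) ≤ ((Q.ball ⌊b⌋₊).card : ℝ) := by exact_mod_cast card_le_card hsub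
  have h2 : 1 ≤ ⌊b⌋₊ := Nat.le_floor (by simpa using hb)
  have h3 := PwtG84.ball_le Q hQ ⌊b⌋₊ h2
  have h4 : ((⌊b⌋₊ : ℕ) : ℝ) ≤ b := Nat.floor_le (by linarith)
  linarith

/-- the part of a shell in a residue class -/
noncomputable def cs (Q : Form) (q : ℕ) (α : V) (a b : ℝ) : Finset V :=
  (shQ Q a b).filter (fun v => (q : ℤ) ∣ v.1 - α.1 ∧ (q : ℤ) ∣ v.2 - α.2)

theorem mem_cs {Q : Form} (hQ : Q.Pos) {q : ℕ} {α : V} {a b : ℝ} {v : V} :
    v ∈ cs Q q α a b ↔ (v ≠ 0 ∧ a < (Q.q v : ℝ) ∧ (Q.q v : ℝ) ≤ b) ∧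
      ((q : ℤ) ∣ v.1 - α.1 ∧ (q : ℤ) ∣ v.2 - α.2) := by
  unfold cs
  rw [Finset.mem_filter, mem_shQ hQ]

theorem cs_split {Q : Form} (hQ : Q.Pos) (q : ℕ) (α : V) (a m b : ℝ) (h1 : a ≤ m) (h2 : m ≤ b)
    (f : V → ℂ) : ∑ v ∈ cs Q q α a b, f v = ∑ v ∈ cs Q q α a m, f v + ∑ v ∈ cs Q q α m b, f v := by
  have hdisj : Disjoint (cs Q q α a m) (cs Q q α m b) := by
    rw [disjoint_left]
    intro v hv hv'
    rw [mem_cs hQ] at hv hv'
    linarith [hv.1.2.2, hv'.1.2.1]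
  have hun : cs Q q α a b = cs Q q α a m ∪ cs Q q α m b := by
    ext v
    rw [mem_union, mem_cs hQ, mem_cs hQ, mem_cs hQ]
    constructor
    · rintro ⟨⟨h3, h4, h5⟩, h6⟩
      by_cases h7 : (Q.q v : ℝ) ≤ m
      · exact Or.inl ⟨⟨h3, h4, h7⟩, h6⟩
      · exact Or.inr ⟨⟨h3, not_le.1 h7, h5⟩, h6⟩
    · rintro (⟨⟨h3, h4, h5⟩, h6⟩ | ⟨⟨h3, h4, h5⟩, h6⟩)
      · exact ⟨⟨h3, h4, h5.trans h2⟩, h6⟩
      · exact ⟨⟨h3, lt_of_le_of_lt h1 h4, h5⟩, h6⟩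
  rw [hun, sum_union hdisj]

theorem cs_triv {Q : Form} (hQ : Q.Pos) (q : ℕ) (α : V) (a b W : ℝ) (hW : 1 ≤ W)
    (hb : b ≤ 2 * W) (f : V → ℂ) (hf : ∀ v, v ≠ 0 → ‖f v‖ ≤ 1) :
    ‖∑ v ∈ cs Q q α a b, f v‖ ≤ 76 * W := by
  have h1 : ‖∑ v ∈ cs Q q α a b, f v‖ ≤ ((cs Q q α a b).card : ℝ) := by
    refine (norm_sum_le _ _).trans ?_
    calc ∑ v ∈ cs Q q α a b, ‖f v‖ ≤ ∑ _v ∈ cs Q q α a b, (1 : ℝ) :=
          sum_le_sum (fun v hv => hf v ((mem_cs hQ).1 hv).1.1)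
      _ = _ := by rw [sum_const, nsmul_eq_mul, mul_one]
  have h2 := card_sh Q hQ (cs Q q α a b) (2 * W) (by linarith)
    (fun v hv => ((mem_cs hQ).1 hv).1.2.2.trans hb)
  linarith

/-- dyadic decomposition -/
theorem dyad {Q : Form} (hQ : Q.Pos) (q : ℕ) (α : V) (f : V → ℂ) (hf : ∀ v, v ≠ 0 → ‖f v‖ ≤ 1)
    (W M B : ℝ) (hW : 1 ≤ W) (hM : 0 ≤ M)
    (H : ∀ Y a b : ℝ, W ≤ Y → Y ≤ a → a ≤ b → b ≤ 2 * Y → 2 * Y ≤ B →
      ‖∑ v ∈ cs Q q α a b, f v‖ ≤ M) (n : ℕ) :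
    ∀ a b : ℝ, b ≤ 2 ^ n * (2 * W) → b ≤ B → ‖∑ v ∈ cs Q q α a b, f v‖ ≤ 76 * W + n * M := by
  induction n with
  | zero =>
    intro a b hb _
    rw [pow_zero, one_mul] at hb
    have := cs_triv hQ q α a b W hW hb f hf
    rw [Nat.cast_zero, zero_mul, add_zero]
    exact this
  | succ n ih =>
    intro a b hb hbB
    have hnM : 0 ≤ (n : ℝ) * M := by positivity
    rw [Nat.cast_succ]
    by_cases h1 : b ≤ 2 * W
    · have := cs_triv hQ q α a b W hW h1 f hf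
      linarith
    · rw [not_le] at h1
      have hY : W ≤ b / 2 := by linarith
      by_cases h2 : a ≤ b / 2
      · rw [cs_split hQ q α a (b / 2) b h2 (by linarith) f]
        have h3 := ih a (b / 2) (by rw [pow_succ] at hb; linarith) (by linarith)
        have h4 := H (b / 2) (b / 2) b hY le_rfl (by linarith) (by linarith) (by linarith)
        refine (norm_add_le _ _).trans ?_
        linarith
      · rw [not_le] at h2
        by_cases h3 : a ≤ b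
        · have h4 := H (b / 2) a b hY h2.le h3 (by linarith) (by linarith)
          linarith
        · rw [not_le] at h3
          have h5 : cs Q q α a b = ∅ := by
            rw [eq_empty_iff_forall_notMem]
            intro v hv
            rw [mem_cs hQ] at hv
            linarith [hv.1.2.1, hv.1.2.2]
          rw [h5, sum_empty, norm_zero]
          linarith

private lemma exp_n52 {X c1 : ℝ} {n : ℕ} (hX0 : 0 < X) (hX1 : 1 ≤ X) (hc1p : 0 < c1)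
    (hn1 : 2 ^ n ≤ X) : ((n + 1 : ℕ) : ℝ) ≤ (4 / c1 + 1) * X ^ (c1 / 2) := by
  have hnX : (n : ℝ) ≤ 4 / c1 * X ^ (c1 / 2) := by
    have h2 : (n : ℝ) * Real.log 2 ≤ Real.log X := by
      rw [← Real.log_pow]
      exact Real.log_le_log (by positivity) hn1
    have h3 : Real.log X ≤ X ^ (c1 / 2) / (c1 / 2) := Real.log_le_rpow_div hX0.le (by positivity)
    have h4 : (1 / 2 : ℝ) ≤ Real.log 2 := by
      have := Real.log_two_gt_d9
      linarith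
    have h5 : (n : ℝ) * (1 / 2) ≤ (n : ℝ) * Real.log 2 :=
      mul_le_mul_of_nonneg_left h4 (Nat.cast_nonneg _)
    have h6 : X ^ (c1 / 2) / (c1 / 2) = 1 / 2 * (4 / c1 * X ^ (c1 / 2)) := by
      field_simp
      ring
    rw [h6] at h3
    linarith
  have hXc : 1 ≤ X ^ (c1 / 2) := Real.one_le_rpow hX1 (by positivity)
  push_cast
  linarith

private lemma exp_M52 {B N c c1 C0 K : ℝ} {m : ℝ} (hN : 1 ≤ N) (hB : 1 ≤ B) (hc1p : 0 < c1)
    (hc2 : c ≤ c1 / 2) (hC0 : 0 < C0) (hK : 0 ≤ K)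
    (hm : m ≤ K * (B * N) ^ (c1 / 2)) :
    m * (C0 * (B * N) ^ (1 - c1)) ≤ K * C0 * B * N ^ (1 - c) := by
  have hN0 : 0 < N := lt_of_lt_of_le one_pos hN
  have hB0 : 0 < B := lt_of_lt_of_le one_pos hB
  have hX0 : 0 < B * N := mul_pos hB0 hN0
  calc m * (C0 * (B * N) ^ (1 - c1)) ≤ (K * (B * N) ^ (c1 / 2)) * (C0 * (B * N) ^ (1 - c1)) :=
        mul_le_mul_of_nonneg_right hm (mul_nonneg hC0.le (Real.rpow_nonneg hX0.le _))
    _ = K * C0 * (B * N) ^ (1 - c1 / 2) := by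
        have e : (B * N) ^ (1 - c1 / 2) = (B * N) ^ (c1 / 2) * (B * N) ^ (1 - c1) := by
          rw [← Real.rpow_add hX0]
          congr 1
          ring
        rw [e]
        ring
    _ ≤ K * C0 * (B * N ^ (1 - c)) := by
        apply mul_le_mul_of_nonneg_left _ (mul_nonneg hK hC0.le)
        rw [Real.mul_rpow hB0.le hN0.le]
        apply mul_le_mul _ _ (Real.rpow_nonneg hN0.le _) hB0.le
        · calc B ^ (1 - c1 / 2) ≤ B ^ (1 : ℝ) :=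
                Real.rpow_le_rpow_of_exponent_le hB (by linarith)
            _ = B := Real.rpow_one _
        · exact Real.rpow_le_rpow_of_exponent_le hN (by linarith)
    _ = K * C0 * B * N ^ (1 - c) := by ring

private lemma exp_W52 {B N c q : ℝ} (hN : 1 ≤ N) (hc8 : c ≤ 1 / 8) (hq0 : 0 < q)
    (hqN : q ≤ B * N ^ c) : q ^ 2 * N ^ (1 / 4 : ℝ) ≤ B ^ 2 * N ^ (1 - c) := by
  have hN0 : 0 < N := lt_of_lt_of_le one_pos hN
  calc q ^ 2 * N ^ (1 / 4 : ℝ) ≤ (B * N ^ c) ^ 2 * N ^ (1 / 4 : ℝ) :=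
        mul_le_mul_of_nonneg_right (pow_le_pow_left₀ hq0.le hqN 2) (Real.rpow_nonneg hN0.le _)
    _ = B ^ 2 * N ^ (c + c + 1 / 4) := by
        rw [Real.rpow_add hN0, Real.rpow_add hN0]
        ring
    _ ≤ B ^ 2 * N ^ (1 - c) := by
        apply mul_le_mul_of_nonneg_left _ (sq_nonneg B)
        exact Real.rpow_le_rpow_of_exponent_le hN (by linarith)

/-- **Angular characters over arbitrary shells and residue classes.** -/
theorem expG (Q : Form) (hQ : Q.Pos) (A B : ℝ) (hA : 0 < A) (hB : 1 ≤ B) :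
    ∃ c C : ℝ, 0 < c ∧ c ≤ 1 / 8 ∧ 0 < C ∧ ∀ N : ℝ, 1 ≤ N → ∀ h : ℤ, h ≠ 0 →
    |(h : ℝ)| ≤ N ^ A → ∀ q : ℕ, 0 < q → (q : ℝ) ≤ B * N ^ c → ∀ (α : V) (a b : ℝ), b ≤ B * N →
    ‖∑ v ∈ cs Q q α a b, uu Q v ^ h‖ ≤ C * N ^ (1 - c) := by
  obtain ⟨c0, hc0, C0, hC0, HV⟩ := MR.stVF_63 Q hQ (1 / (4 * A)) (by positivity)
  set c1 : ℝ := min c0 (1 / 2) with hc1
  have hc1p : 0 < c1 := lt_min hc0 (by norm_num)
  have hc1h : c1 ≤ 1 / 2 := min_le_right _ _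
  have hc10 : c1 ≤ c0 := min_le_left _ _
  set c : ℝ := min (1 / 8) (c1 / 2) with hc
  have hcp : 0 < c := lt_min (by norm_num) (by positivity)
  have hc8 : c ≤ 1 / 8 := min_le_left _ _
  have hc2 : c ≤ c1 / 2 := min_le_right _ _
  refine ⟨c, 76 * B ^ 2 + (4 / c1 + 1) * C0 * B, hcp, hc8, by positivity, ?_⟩
  intro N hN h hh hhN q hq hqN α a b hb
  have hN0 : 0 < N := lt_of_lt_of_le one_pos hN
  have hB0 : 0 < B := lt_of_lt_of_le one_pos hB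
  have hc11 : 0 ≤ 1 - c1 := sub_nonneg.2 (le_trans hc1h (by norm_num))
  set T : ℝ := N ^ A with hT
  have hT1 : 1 ≤ T := Real.one_le_rpow hN hA.le
  have hTk : T ^ (1 / (4 * A)) = N ^ (1 / 4 : ℝ) := by
    rw [hT, ← Real.rpow_mul hN0.le]
    congr 1
    field_simp
  set X : ℝ := B * N with hX
  have hX1 : 1 ≤ X := one_le_mul_of_one_le_of_one_le hB hN
  have hX0 : 0 < X := lt_of_lt_of_le one_pos hX1
  have hq1 : (1 : ℝ) ≤ q := by exact_mod_cast hq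
  have hq0 : (0 : ℝ) < q := lt_of_lt_of_le one_pos hq1
  have hq21 : (1 : ℝ) ≤ (q : ℝ) ^ 2 := one_le_pow₀ hq1
  have hq20 : (0 : ℝ) < (q : ℝ) ^ 2 := lt_of_lt_of_le one_pos hq21
  have hN4 : 1 ≤ N ^ (1 / 4 : ℝ) := Real.one_le_rpow hN (by norm_num)
  set W : ℝ := (q : ℝ) ^ 2 * T ^ (1 / (4 * A)) with hW
  have hW1 : 1 ≤ W := by
    rw [hW, hTk]
    exact one_le_mul_of_one_le_of_one_le hq21 hN4
  set M : ℝ := C0 * X ^ (1 - c1) with hM
  have hM0 : 0 ≤ M := mul_nonneg hC0.le (Real.rpow_nonneg hX0.le _)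
  obtain ⟨n, hn1, hn2⟩ := exists_nat_pow_near hX1 (by norm_num : (1 : ℝ) < 2)
  have hf : ∀ v : V, v ≠ 0 → ‖uu Q v ^ h‖ ≤ 1 := by
    intro v hv
    rw [norm_zpow, norm_uu hQ hv, one_zpow]
  have H : ∀ Y a b : ℝ, W ≤ Y → Y ≤ a → a ≤ b → b ≤ 2 * Y → 2 * Y ≤ X →
      ‖∑ v ∈ cs Q q α a b, uu Q v ^ h‖ ≤ M := by
    intro Y a b hWY hYa hab hbY hYX
    have hY1 : 1 ≤ Y := hW1.trans hWY
    have hY0 : 0 ≤ Y := le_trans zero_le_one hY1
    have ha0 : 0 < a := lt_of_lt_of_le one_pos (hY1.trans hYa)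
    have h1 := HV T hT1 h hh hhN q α hq Y a b hWY hYa hab hbY (cs Q q α a b) (fun v => by
      rw [mem_cs hQ]
      constructor
      · rintro ⟨⟨_, h2, h3⟩, h4, h5⟩
        exact ⟨h4, h5, h2, h3⟩
      · rintro ⟨h4, h5, h2, h3⟩
        refine ⟨⟨?_, h2, h3⟩, h4, h5⟩
        rintro rfl
        have h6 : Q.q (0 : V) = 0 := by unfold Form.q; simp
        rw [h6, Int.cast_zero] at h2
        exact lt_asymm h2 ha0)
    have e1 : ∑ v ∈ cs Q q α a b, uu Q v ^ h =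
        ∑ v ∈ cs Q q α a b, (tq Q v / (‖tq Q v‖ : ℂ)) ^ h :=
      sum_congr rfl (fun v _ => by rw [uu_tq Q hQ v])
    rw [e1]
    refine h1.trans ?_
    rw [hM]
    apply mul_le_mul_of_nonneg_left _ hC0.le
    have hYq : 1 ≤ Y / (q : ℝ) ^ 2 := by
      rw [le_div_iff₀ hq20, one_mul]
      refine le_trans ?_ hWY
      rw [hW, hTk]
      exact le_mul_of_one_le_right hq20.le hN4
    have hYX' : Y / (q : ℝ) ^ 2 ≤ X :=
      (div_le_self hY0 hq21).trans ((le_mul_of_one_le_left hY0 one_le_two).trans hYX)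
    calc (Y / (q : ℝ) ^ 2) ^ (1 - c0) ≤ (Y / (q : ℝ) ^ 2) ^ (1 - c1) :=
          Real.rpow_le_rpow_of_exponent_le hYq (sub_le_sub_left hc10 1)
      _ ≤ X ^ (1 - c1) := Real.rpow_le_rpow (le_trans zero_le_one hYq) hYX' hc11
  have h1 := dyad hQ q α (fun v => uu Q v ^ h) hf W M X hW1 hM0 H (n + 1) a b (by
    calc b ≤ X := hb
      _ ≤ 2 ^ (n + 1) := hn2.le
      _ ≤ 2 ^ (n + 1) * (2 * W) :=
        le_mul_of_one_le_right (pow_pos two_pos (n + 1)).le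
          (one_le_mul_of_one_le_of_one_le one_le_two hW1)) hb
  refine h1.trans ?_
  -- the number of pieces
  have hn' : ((n + 1 : ℕ) : ℝ) ≤ (4 / c1 + 1) * X ^ (c1 / 2) := exp_n52 hX0 hX1 hc1p hn1
  have h2 : ((n + 1 : ℕ) : ℝ) * M ≤ (4 / c1 + 1) * C0 * B * N ^ (1 - c) :=
    exp_M52 hN hB hc1p hc2 hC0 (add_pos (div_pos four_pos hc1p) one_pos).le hn'
  have h3 : W ≤ B ^ 2 * N ^ (1 - c) := by
    rw [hW, hTk]
    exact exp_W52 hN hc8 hq0 hqN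
  calc 76 * W + ((n + 1 : ℕ) : ℝ) * M
      ≤ 76 * (B ^ 2 * N ^ (1 - c)) + (4 / c1 + 1) * C0 * B * N ^ (1 - c) :=
        add_le_add (mul_le_mul_of_nonneg_left h3 (by norm_num)) h2
    _ = (76 * B ^ 2 + (4 / c1 + 1) * C0 * B) * N ^ (1 - c) := by ring

/-- the classes modulo `q` -/
theorem sum_cls (Q : Form) (q : ℕ) (hq : 0 < q) (a b : ℝ) (f : V → ℂ) :
    ∑ v ∈ shQ Q a b, f v =
      ∑ r ∈ range q ×ˢ range q, ∑ v ∈ cs Q q ((r.1 : ℤ), (r.2 : ℤ)) a b, f v := by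
  have hq0 : (q : ℤ) ≠ 0 := by exact_mod_cast hq.ne'
  have hqp : (0 : ℤ) < q := by exact_mod_cast hq
  set g : V → ℕ × ℕ := fun v => ((v.1 % q).toNat, (v.2 % q).toNat) with hg
  have hnn : ∀ x : ℤ, ((x % q).toNat : ℤ) = x % q := fun x =>
    Int.toNat_of_nonneg (Int.emod_nonneg x hq0)
  have hlt : ∀ x : ℤ, (x % q).toNat < q := by
    intro x
    have h1 := Int.emod_lt_of_pos x hqp
    have h2 := hnn x
    omega
  have hmap : ∀ v ∈ shQ Q a b, g v ∈ range q ×ˢ range q := by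
    intro v _
    rw [mem_product, mem_range, mem_range]
    exact ⟨hlt _, hlt _⟩
  rw [← sum_fiberwise_of_maps_to hmap]
  refine sum_congr rfl (fun r hr => ?_)
  rw [mem_product, mem_range, mem_range] at hr
  refine sum_congr ?_ (fun _ _ => rfl)
  unfold cs
  ext v
  rw [mem_filter, mem_filter]
  refine and_congr_right (fun _ => ?_)
  have key : ∀ (x : ℤ) (m : ℕ), m < q → ((x % q).toNat = m ↔ (q : ℤ) ∣ x - m) := by
    intro x m hm
    have h1 : ((x % q).toNat = m) ↔ x % q = (m : ℤ) := by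
      rw [← hnn x]
      constructor
      · intro h; exact_mod_cast h
      · intro h; exact_mod_cast h
    rw [h1]
    have h2 : (m : ℤ) % q = m := Int.emod_eq_of_lt (by positivity) (by exact_mod_cast hm)
    constructor
    · intro h
      exact (Int.modEq_iff_dvd).1 (h2.trans h.symm)
    · intro h
      have h3 := Int.ModEq.symm ((Int.modEq_iff_dvd).2 h)
      unfold Int.ModEq at h3
      rw [h3, h2]
  rw [← key v.1 r.1 hr.1, ← key v.2 r.2 hr.2]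
  constructor
  · intro h
    exact ⟨congrArg Prod.fst h, congrArg Prod.snd h⟩
  · rintro ⟨h1, h2⟩
    exact Prod.ext h1 h2

/-- periodic weights -/
theorem perG {Q : Form} (hQ : Q.Pos) (q : ℕ) (hq : 0 < q) (a b E : ℝ) (f G : V → ℂ)
    (hG : ∀ v w : V, (q : ℤ) ∣ v.1 - w.1 → (q : ℤ) ∣ v.2 - w.2 → G v = G w)
    (hG1 : ∀ v, ‖G v‖ ≤ 1) (hE : ∀ α : V, ‖∑ v ∈ cs Q q α a b, f v‖ ≤ E) :
    ‖∑ v ∈ shQ Q a b, G v * f v‖ ≤ (q : ℝ) ^ 2 * E := by
  have hE0 : 0 ≤ E := (norm_nonneg _).trans (hE 0)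
  rw [sum_cls Q q hq a b (fun v => G v * f v)]
  refine (norm_sum_le _ _).trans ?_
  have h1 : ∀ r ∈ range q ×ˢ range q,
      ‖∑ v ∈ cs Q q ((r.1 : ℤ), (r.2 : ℤ)) a b, G v * f v‖ ≤ E := by
    intro r _
    have e1 : ∑ v ∈ cs Q q ((r.1 : ℤ), (r.2 : ℤ)) a b, G v * f v =
        G ((r.1 : ℤ), (r.2 : ℤ)) * ∑ v ∈ cs Q q ((r.1 : ℤ), (r.2 : ℤ)) a b, f v := by
      rw [mul_sum]
      refine sum_congr rfl (fun v hv => ?_)
      rw [mem_cs hQ] at hv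
      rw [hG v ((r.1 : ℤ), (r.2 : ℤ)) hv.2.1 hv.2.2]
    rw [e1, norm_mul]
    calc ‖G ((r.1 : ℤ), (r.2 : ℤ))‖ * ‖∑ v ∈ cs Q q ((r.1 : ℤ), (r.2 : ℤ)) a b, f v‖
        ≤ 1 * E := mul_le_mul (hG1 _) (hE _) (norm_nonneg _) (by norm_num)
      _ = E := one_mul _
  refine (sum_le_sum h1).trans (le_of_eq ?_)
  rw [sum_const, card_product, card_range, nsmul_eq_mul]
  push_cast
  ring

end Pool.Agent.Lib.MP_a17b09_nt.MRSG.ExpG12
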