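import Pool.Agent.Lib.MP_a17b09_nt.MRSG.StmtsG29
import Pool.Agent.Lib.MP_a17b09_nt.MRSG.LSG22

/-!
MRSG: the large sieve rows StLspG and StLsG (helper22), from the large sieve for one form and the
Bessel inequality for the joint eigenbasis.
-/

set_option autoImplicit false

open Finset

namespace Pool.Agent.Lib.MP_a17b09_nt.MRSG

open CH CH.PE

namespace LspG22

/-- the two normalisations of the direction -/
theorem uu_ud {Q : Form} (hQ : Q.Pos) (v : V) : uu Q v = ud Q v := by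
  have ha : (0 : ℝ) < Q.a := by exact_mod_cast hQ.1
  have hs : 0 < √(Q.a : ℝ) := Real.sqrt_pos.2 ha
  have h2 : (0 : ℝ) < 2 * √(Q.a : ℝ) := by positivity
  have hc : ((2 * √(Q.a : ℝ) : ℝ) : ℂ) ≠ 0 := by exact_mod_cast h2.ne'
  have hsq : √(Q.a : ℝ) * √(Q.a : ℝ) = Q.a := Real.mul_self_sqrt ha.le
  have hl : lam Q v = ((2 * √(Q.a : ℝ) : ℝ) : ℂ) * tq Q v := by
    apply Complex.ext
    · rw [Complex.re_ofReal_mul]
      unfold lam tq
      simp only [Complex.add_re, Complex.ofReal_re, Complex.mul_re, Complex.I_re, Complex.ofReal_im,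
        Complex.I_im, mul_zero, zero_mul, sub_self, add_zero]
      push_cast
      field_simp
      linear_combination (-2 * (v.1 : ℝ)) * hsq
    · rw [Complex.im_ofReal_mul]
      unfold lam tq
      simp only [Complex.add_im, Complex.ofReal_im, Complex.mul_im, Complex.I_re, Complex.ofReal_re,
        Complex.I_im, mul_zero, mul_one, add_zero, zero_add]
      field_simp
  unfold uu ud
  rw [hl, norm_mul, Complex.norm_real, Real.norm_of_nonneg h2.le]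
  rw [Complex.ofReal_mul (2 * √(Q.a : ℝ)) ‖tq Q v‖, mul_div_mul_left _ _ hc]

variable {d K : ℕ} [NeZero K]

/-- Bessel -/
theorem bessel (j : ℤ) (x : Hs d K) : ∑ k, ‖co d K j k x‖ ^ 2 ≤ ∑ ia, ‖x ia‖ ^ 2 := by
  have h1 : Orthonormal ℂ (fun k => (bv d K j k : Hs d K)) := by
    have h := (bv d K j).orthonormal
    exact h.comp_linearIsometry (Ej d K j).subtypeₗᵢ
  have h2 := h1.sum_inner_products_le (s := Finset.univ) x
  rw [EuclideanSpace.norm_sq_eq] at h2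
  exact h2

/-- reduction to the large sieve for one class -/
theorem core (J : ℕ) (S : Cl d → Finset V) (a : Cl d → V → ℂ) (W : Cl d → V → ℝ) (Cc : ℝ)
    (h : ∀ i, ∀ S' : Finset V, S' ⊆ S i →
      ∑ j ∈ Finset.Icc (-(J : ℤ)) J, ‖∑ v ∈ S', a i v * uu (rep i) v ^ j‖ ^ 2 ≤
        Cc * ∑ v ∈ S', W i v) :
    ∑ w ∈ SJ d K J, ‖∑ i, ∑ v ∈ S i, a i v * ch w i v‖ ^ 2 ≤ Cc * ∑ i, ∑ v ∈ S i, W i v := by
  rw [sum_SJ]
  have h1 : ∑ j ∈ Finset.Icc (-(J : ℤ)) J, ∑ k : Fin (mm d K j),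
      ‖∑ i, ∑ v ∈ S i, a i v * ch (⟨j, k⟩ : Fq d K) i v‖ ^ 2 ≤
      ∑ j ∈ Finset.Icc (-(J : ℤ)) J, ∑ ia, ‖vec K S a j ia‖ ^ 2 := by
    apply Finset.sum_le_sum
    intro j _
    refine le_trans (le_of_eq ?_) (bessel j (vec K S a j))
    apply Finset.sum_congr rfl
    intro k _
    rw [co_vec]
  refine h1.trans ?_
  rw [Finset.sum_comm, Fintype.sum_prod_type, Finset.mul_sum]
  apply Finset.sum_le_sum
  intro i _
  have h2 : ∑ v ∈ S i, W i v = ∑ α, ∑ v ∈ (S i).filter (fun v => cl K v = α), W i v :=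
    (Finset.sum_fiberwise (S i) (fun v => cl K v) (fun v => W i v)).symm
  rw [h2, Finset.mul_sum]
  apply Finset.sum_le_sum
  intro α _
  exact h i _ (Finset.filter_subset _ _)

/-- one constant for all classes -/
theorem unif {p : Cl d → ℝ → Prop} (hm : ∀ i C C', p i C → C ≤ C' → p i C')
    (h : ∀ i, ∃ C, 0 < C ∧ p i C) : ∃ C, 0 < C ∧ ∀ i, p i C := by
  choose f hf hp using h
  refine ⟨1 + ∑ i, f i, ?_, fun i => ?_⟩
  · have := Finset.sum_nonneg (fun i (_ : i ∈ Finset.univ) => (hf i).le)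
    linarith
  · apply hm i _ _ (hp i)
    have := Finset.single_le_sum (f := f) (fun i _ => (hf i).le) (Finset.mem_univ i)
    linarith

end LspG22

open LspG22

variable (d K : ℕ) [NeZero K]

theorem stLspG_22 : StLspG d K := by
  have h : ∀ i : Cl d, ∃ C : ℝ, 0 < C ∧ ∀ (X : ℝ) (J : ℕ), 1 ≤ X →
      ∀ S : Finset V, (∀ v ∈ S, Prim v ∧ ((rep i).q v : ℝ) ≤ X) → ∀ a : V → ℂ,
      ∑ j ∈ Finset.Icc (-(J:ℤ)) J, ‖∑ v ∈ S, a v * ud (rep i) v ^ j‖ ^ 2 ≤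
        C * (X + J) * ∑ v ∈ S, ‖a v‖ ^ 2 := fun i => LSG22.lsp_22 (rep_pos i)
  obtain ⟨C, hC, hall⟩ := unif (p := fun i C => ∀ (X : ℝ) (J : ℕ), 1 ≤ X →
      ∀ S : Finset V, (∀ v ∈ S, Prim v ∧ ((rep i).q v : ℝ) ≤ X) → ∀ a : V → ℂ,
      ∑ j ∈ Finset.Icc (-(J:ℤ)) J, ‖∑ v ∈ S, a v * ud (rep i) v ^ j‖ ^ 2 ≤
        C * (X + J) * ∑ v ∈ S, ‖a v‖ ^ 2) (by
    intro i C C' h1 hCC X J hX S hS a
    refine (h1 X J hX S hS a).trans ?_
    have : (0 : ℝ) ≤ J := Nat.cast_nonneg J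
    gcongr) h
  refine ⟨C, hC, ?_⟩
  intro X J hX S hS a
  refine core J S a (fun i v => ‖a i v‖ ^ 2) (C * (X + J)) ?_
  intro i S' hS'
  have h1 := hall i X J hX S' (fun v hv => hS i v (hS' hv)) (a i)
  simp only [uu_ud (rep_pos i)]
  exact h1

theorem stLsG_22 : StLsG d K := by
  have h : ∀ i : Cl d, ∃ C : ℝ, 0 < C ∧ ∀ (N B : ℝ) (J : ℕ), 1 ≤ N → 1 ≤ B →
      ∀ S : Finset V, (∀ v ∈ S, N ≤ (rep i).q v ∧ ((rep i).q v : ℝ) ≤ B * N) → ∀ a : V → ℂ,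
      ∑ j ∈ Finset.Icc (-(J:ℤ)) J, ‖∑ v ∈ S, a v * ud (rep i) v ^ j‖ ^ 2 ≤
        C * B ^ 2 * ∑ v ∈ S, ‖a v‖ ^ 2 * (N + (J + 1) * Int.gcd v.1 v.2) :=
    fun i => LSG22.ls_22 (rep_pos i)
  obtain ⟨C, hC, hall⟩ := unif (p := fun i C => ∀ (N B : ℝ) (J : ℕ), 1 ≤ N → 1 ≤ B →
      ∀ S : Finset V, (∀ v ∈ S, N ≤ (rep i).q v ∧ ((rep i).q v : ℝ) ≤ B * N) → ∀ a : V → ℂ,
      ∑ j ∈ Finset.Icc (-(J:ℤ)) J, ‖∑ v ∈ S, a v * ud (rep i) v ^ j‖ ^ 2 ≤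
        C * B ^ 2 * ∑ v ∈ S, ‖a v‖ ^ 2 * (N + (J + 1) * Int.gcd v.1 v.2)) (by
    intro i C C' h1 hCC N B J hN hB S hS a
    refine (h1 N B J hN hB S hS a).trans ?_
    have h2 : 0 ≤ ∑ v ∈ S, ‖a v‖ ^ 2 * (N + (J + 1) * Int.gcd v.1 v.2) := by
      apply Finset.sum_nonneg
      intro v _
      have hN0 : 0 ≤ N := by linarith
      positivity
    gcongr) h
  refine ⟨C, hC, ?_⟩
  intro N B J hN hB S hS a
  refine core J S a (fun i v => ‖a i v‖ ^ 2 * (N + (J + 1) * Int.gcd v.1 v.2)) (C * B ^ 2) ?_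
  intro i S' hS'
  have h1 := hall i N B J hN hB S' (fun v hv => hS i v (hS' hv)) (a i)
  simp only [uu_ud (rep_pos i)]
  exact h1

end Pool.Agent.Lib.MP_a17b09_nt.MRSG
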