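import Pool.Agent.Lib.MP_a17b09_nt.MRSG.NugA12
import Pool.Agent.Lib.MP_a17b09_nt.CH.Defs

/-!
MRSG (MP_a17b09_nt), sieve majorant for a binary form, part B: the zeros of the form modulo `n`.
helper12.
-/

set_option autoImplicit false

namespace Pool.Agent.Lib.MP_a17b09_nt.MRSG.NugB12

open Finset
open scoped Classical
open Pool.Agent.Lib.MP_a17b09_nt.CH (Form)

/-- value modulo `n` -/
def qm (Q : Form) (n : ℕ) (w : ZMod n × ZMod n) : ZMod n :=
  (Q.a : ZMod n) * w.1 ^ 2 + (Q.b : ZMod n) * w.1 * w.2 + (Q.c : ZMod n) * w.2 ^ 2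

/-- the zeros modulo `n` -/
def Zr (Q : Form) (n : ℕ) : Type := {w : ZMod n × ZMod n // qm Q n w = 0}

/-- their number -/
noncomputable def rr (Q : Form) (n : ℕ) : ℕ := Nat.card (Zr Q n)

theorem rr_one (Q : Form) : rr Q 1 = 1 := by
  unfold rr
  rw [Nat.card_eq_one_iff_unique]
  constructor
  · constructor
    rintro ⟨a, _⟩ ⟨b, _⟩
    exact Subtype.ext (Subsingleton.elim a b)
  · exact ⟨⟨(0, 0), Subsingleton.elim _ _⟩⟩

theorem rr_mul (Q : Form) {m n : ℕ} (h : Nat.Coprime m n) : rr Q (m * n) = rr Q m * rr Q n := by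
  unfold rr
  rw [← Nat.card_prod]
  let e := ZMod.chineseRemainder h
  have h1 : ∀ w : ZMod (m * n) × ZMod (m * n), qm Q m ((e w.1).1, (e w.2).1) =
      (e (qm Q (m * n) w)).1 := by
    intro w
    unfold qm
    simp only [map_add, map_mul, map_pow, map_intCast, Prod.fst_add, Prod.fst_mul, Prod.pow_fst,
      Prod.fst_intCast]
  have h2 : ∀ w : ZMod (m * n) × ZMod (m * n), qm Q n ((e w.1).2, (e w.2).2) =
      (e (qm Q (m * n) w)).2 := by
    intro w
    unfold qm
    simp only [map_add, map_mul, map_pow, map_intCast, Prod.snd_add, Prod.snd_mul, Prod.pow_snd,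
      Prod.snd_intCast]
  have h3 : ∀ (u : ZMod m × ZMod m) (v : ZMod n × ZMod n), qm Q m u = 0 → qm Q n v = 0 →
      qm Q (m * n) (e.symm (u.1, v.1), e.symm (u.2, v.2)) = 0 := by
    intro u v hu hv
    apply e.injective
    rw [map_zero]
    have g1 := h1 (e.symm (u.1, v.1), e.symm (u.2, v.2))
    have g2 := h2 (e.symm (u.1, v.1), e.symm (u.2, v.2))
    simp only [RingEquiv.apply_symm_apply] at g1 g2
    apply Prod.ext
    · rw [← g1]
      exact hu
    · rw [← g2]
      exact hv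
  apply Nat.card_congr
  refine ⟨fun w => (⟨((e w.1.1).1, (e w.1.2).1), ?_⟩, ⟨((e w.1.1).2, (e w.1.2).2), ?_⟩),
    fun x => ⟨(e.symm (x.1.1.1, x.2.1.1), e.symm (x.1.1.2, x.2.1.2)),
      h3 x.1.1 x.2.1 x.1.2 x.2.2⟩, ?_, ?_⟩
  · rw [h1, w.2, map_zero]
    rfl
  · rw [h2, w.2, map_zero]
    rfl
  · rintro ⟨w, hw⟩
    apply Subtype.ext
    simp only [Prod.mk.eta, RingEquiv.symm_apply_apply]
  · rintro ⟨⟨u, hu⟩, ⟨v, hv⟩⟩
    apply Prod.ext
    · apply Subtype.ext
      simp only [RingEquiv.apply_symm_apply, Prod.mk.eta]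
    · apply Subtype.ext
      simp only [RingEquiv.apply_symm_apply, Prod.mk.eta]

theorem rr_prod (Q : Form) (D : Finset ℕ) (hD : ∀ q ∈ D, q.Prime) :
    rr Q (∏ q ∈ D, q) = ∏ q ∈ D, rr Q q := by
  induction D using Finset.induction with
  | empty => rw [prod_empty, prod_empty, rr_one]
  | insert p s hp ih =>
    rw [prod_insert hp, prod_insert hp, rr_mul, ih (fun q hq => hD q (mem_insert_of_mem hq))]
    apply Nat.Coprime.prod_right
    intro q hq
    rw [Nat.coprime_primes (hD p (mem_insert_self p s)) (hD q (mem_insert_of_mem hq))]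
    rintro rfl
    exact hp hq

theorem rr_eq (Q : Form) (n : ℕ) [NeZero n] :
    rr Q n = ((univ : Finset (ZMod n × ZMod n)).filter (fun w => qm Q n w = 0)).card := by
  unfold rr Zr
  rw [Nat.card_eq_fintype_card, Fintype.card_subtype]

/-- at most two roots -/
theorem two_roots {F : Type} [Field F] [Fintype F] (a b c : F) (ha : a ≠ 0)
    [DecidablePred fun x : F => a * x ^ 2 + b * x + c = 0] :
    ((univ : Finset F).filter (fun x => a * x ^ 2 + b * x + c = 0)).card ≤ 2 := by
  rcases ((univ : Finset F).filter (fun x => a * x ^ 2 + b * x + c = 0)).eq_empty_or_nonempty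
    with h | ⟨x0, hx0⟩
  · rw [h, card_empty]
    norm_num
  · rw [mem_filter] at hx0
    have hsub : (univ : Finset F).filter (fun x => a * x ^ 2 + b * x + c = 0) ⊆
        {x0, -(b / a) - x0} := by
      intro x hx
      rw [mem_filter] at hx
      rw [mem_insert, mem_singleton]
      have h1 : (x - x0) * (a * (x + x0) + b) = 0 := by
        have := hx.2
        have := hx0.2
        linear_combination hx.2 - hx0.2
      rcases mul_eq_zero.1 h1 with h2 | h2
      · exact Or.inl (sub_eq_zero.1 h2)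
      · right
        field_simp
        linear_combination h2
    exact (card_le_card hsub).trans (card_le_two)

theorem rr_le (Q : Form) (p : ℕ) (hp : p.Prime) (ha : ¬ ((p : ℤ) ∣ Q.a)) : rr Q p ≤ 2 * p := by
  have : Fact p.Prime := ⟨hp⟩
  have : NeZero p := ⟨hp.ne_zero⟩
  rw [rr_eq]
  have ha' : (Q.a : ZMod p) ≠ 0 := by
    intro h
    exact ha ((ZMod.intCast_zmod_eq_zero_iff_dvd Q.a p).1 h)
  have h1 : ((univ : Finset (ZMod p × ZMod p)).filter (fun w => qm Q p w = 0)).card =
      ∑ y : ZMod p, ((univ : Finset (ZMod p)).filter (fun x =>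
        (Q.a : ZMod p) * x ^ 2 + ((Q.b : ZMod p) * y) * x + (Q.c : ZMod p) * y ^ 2 = 0)).card := by
    rw [card_filter, ← univ_product_univ, sum_product_right]
    refine sum_congr rfl (fun y _ => ?_)
    rw [card_filter]
    refine sum_congr rfl (fun x _ => ?_)
    unfold qm
    have : (Q.a : ZMod p) * x ^ 2 + (Q.b : ZMod p) * x * y + (Q.c : ZMod p) * y ^ 2 =
        (Q.a : ZMod p) * x ^ 2 + ((Q.b : ZMod p) * y) * x + (Q.c : ZMod p) * y ^ 2 := by ring
    simp only [this]
  rw [h1]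
  calc ∑ y : ZMod p, ((univ : Finset (ZMod p)).filter (fun x =>
        (Q.a : ZMod p) * x ^ 2 + ((Q.b : ZMod p) * y) * x + (Q.c : ZMod p) * y ^ 2 = 0)).card
      ≤ ∑ _y : ZMod p, 2 := sum_le_sum (fun y _ =>
        two_roots (Q.a : ZMod p) ((Q.b : ZMod p) * y) ((Q.c : ZMod p) * y ^ 2) ha')
    _ = 2 * p := by rw [sum_const, card_univ, ZMod.card, smul_eq_mul, mul_comm]

/-- lower bound for split primes -/
theorem rr_ge (Q : Form) (p : ℕ) (hp : p.Prime) (hp2 : p ≠ 2) (ha : ¬ ((p : ℤ) ∣ Q.a))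
    (hD : jacobiSym (-Q.D) p = 1) : 2 * p - 1 ≤ rr Q p := by
  have : Fact p.Prime := ⟨hp⟩
  have : NeZero p := ⟨hp.ne_zero⟩
  rw [rr_eq]
  have ha' : (Q.a : ZMod p) ≠ 0 := by
    intro h
    exact ha ((ZMod.intCast_zmod_eq_zero_iff_dvd Q.a p).1 h)
  have h2 : (2 : ZMod p) ≠ 0 := by
    intro h
    have h3 : ((2 : ℕ) : ZMod p) = 0 := by exact_mod_cast h
    rw [ZMod.natCast_eq_zero_iff] at h3
    exact hp2 ((Nat.prime_dvd_prime_iff_eq hp Nat.prime_two).1 h3)
  rw [← jacobiSym.legendreSym.to_jacobiSym] at hD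
  have hD0 : (((-Q.D : ℤ)) : ZMod p) ≠ 0 := by
    intro h
    have := (legendreSym.eq_zero_iff p (-Q.D)).2 h
    rw [hD] at this
    norm_num at this
  obtain ⟨s, hs⟩ := (legendreSym.eq_one_iff p hD0).1 hD
  have hs0 : s ≠ 0 := by
    intro h
    rw [h, mul_zero] at hs
    exact hD0 hs
  have hs' : (Q.b : ZMod p) ^ 2 - 4 * (Q.a : ZMod p) * (Q.c : ZMod p) = s * s := by
    rw [← hs]
    unfold Form.D
    push_cast
    ring
  set r1 : ZMod p := (-(Q.b : ZMod p) + s) / (2 * (Q.a : ZMod p)) with hr1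
  set r2 : ZMod p := (-(Q.b : ZMod p) - s) / (2 * (Q.a : ZMod p)) with hr2
  have hr12 : r1 ≠ r2 := by
    intro h
    rw [hr1, hr2, div_left_inj' (mul_ne_zero h2 ha')] at h
    have h3 : (2 : ZMod p) * s = 0 := by linear_combination h
    rcases mul_eq_zero.1 h3 with h4 | h4
    · exact h2 h4
    · exact hs0 h4
  have e1 : (Q.a : ZMod p) * r1 ^ 2 + (Q.b : ZMod p) * r1 + (Q.c : ZMod p) = 0 := by
    rw [hr1]
    field_simp
    linear_combination (-1 : ZMod p) * hs'
  have e2 : (Q.a : ZMod p) * r2 ^ 2 + (Q.b : ZMod p) * r2 + (Q.c : ZMod p) = 0 := by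
    rw [hr2]
    field_simp
    linear_combination (-1 : ZMod p) * hs'
  let A : Finset (ZMod p × ZMod p) := (univ : Finset (ZMod p)).image (fun y => (r1 * y, y))
  let B : Finset (ZMod p × ZMod p) := (univ : Finset (ZMod p)).image (fun y => (r2 * y, y))
  have hAc : A.card = p := by
    simp only [A]
    rw [card_image_of_injective _ (fun x y h => (Prod.mk.inj h).2), card_univ, ZMod.card]
  have hBc : B.card = p := by
    simp only [B]
    rw [card_image_of_injective _ (fun x y h => (Prod.mk.inj h).2), card_univ, ZMod.card]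
  have hI : (A ∩ B).card ≤ 1 := by
    rw [card_le_one]
    have h0 : ∀ w ∈ A ∩ B, w = (0, 0) := by
      intro w hw
      rw [mem_inter] at hw
      simp only [A, B, mem_image, mem_univ, true_and] at hw
      obtain ⟨⟨y, rfl⟩, ⟨y', hy'⟩⟩ := hw
      have g1 := (Prod.mk.inj hy').1
      have g2 := (Prod.mk.inj hy').2
      rw [g2] at g1
      have g3 : (r1 - r2) * y = 0 := by linear_combination (-1 : ZMod p) * g1
      rcases mul_eq_zero.1 g3 with h | h
      · exact absurd (sub_eq_zero.1 h) hr12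
      · rw [h, mul_zero]
    intro w hw w' hw'
    rw [h0 w hw, h0 w' hw']
  have hsub : A ∪ B ⊆ (univ : Finset (ZMod p × ZMod p)).filter (fun w => qm Q p w = 0) := by
    intro w hw
    rw [mem_union] at hw
    rw [mem_filter]
    refine ⟨mem_univ _, ?_⟩
    simp only [A, B, mem_image, mem_univ, true_and] at hw
    unfold qm
    rcases hw with ⟨y, rfl⟩ | ⟨y, rfl⟩
    · simp only
      linear_combination y ^ 2 * e1
    · simp only
      linear_combination y ^ 2 * e2
  have h5 := card_union_add_card_inter A B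
  have h6 := card_le_card hsub
  omega

end Pool.Agent.Lib.MP_a17b09_nt.MRSG.NugB12
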