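import Pool.Agent.Lib.MP_a17b09_nt.MRSG.ExpG12

/-!
MRSG (MP_a17b09_nt): translations of shells, and the vanishing of the sums of the normalised
indicator of a sublattice over translations. helper12.
-/

set_option autoImplicit false

open Finset

namespace Pool.Agent.Lib.MP_a17b09_nt.MRSG.ShiftG12

open CH CH.PE ExpG12

theorem tq_add (Q : Form) (v w : V) : tq Q (v + w) = tq Q v + tq Q w := by
  unfold tq
  apply Complex.ext
  · simp only [Complex.add_re, Prod.fst_add, Prod.snd_add, Int.cast_add]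
    ring
  · simp only [Complex.add_im, Prod.snd_add, Int.cast_add]
    ring

theorem tq_nrm {Q : Form} (hQ : Q.Pos) (v : V) : ‖tq Q v‖ ^ 2 = Q.q v := by
  rw [← Complex.normSq_eq_norm_sq, tq_norm90 Q hQ v]

theorem tq_sqrt {Q : Form} (hQ : Q.Pos) (v : V) : ‖tq Q v‖ = √(Q.q v : ℝ) := by
  rw [← tq_nrm hQ v, Real.sqrt_sq (norm_nonneg _)]

theorem tq_zsmul (Q : Form) (n : ℤ) (v : V) : tq Q (n • v) = (n : ℂ) * tq Q v := by
  unfold tq
  apply Complex.ext
  · rw [Complex.mul_re, Complex.intCast_re, Complex.intCast_im]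
    simp only [Prod.smul_fst, Prod.smul_snd, smul_eq_mul, Int.cast_mul]
    ring
  · rw [Complex.mul_im, Complex.intCast_re, Complex.intCast_im]
    simp only [Prod.smul_snd, smul_eq_mul, Int.cast_mul]
    ring

/-- an annulus around the radius `√X` -/
noncomputable def Ann (Q : Form) (X τ : ℝ) : Finset V :=
  (Q.ball ⌊(√X + τ) ^ 2⌋₊).filter (fun v => |‖tq Q v‖ - √X| ≤ τ)

theorem mem_Ann {Q : Form} (hQ : Q.Pos) {X τ : ℝ} {v : V} :
    v ∈ Ann Q X τ ↔ |‖tq Q v‖ - √X| ≤ τ := by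
  unfold Ann
  rw [mem_filter, Form.mem_ball hQ]
  refine ⟨fun h => h.2, fun h => ⟨?_, h⟩⟩
  have h1 := (abs_le.1 h).2
  have h2 := tq_nrm hQ v
  have h3 : (Q.q v : ℝ) ≤ (√X + τ) ^ 2 := by
    rw [← h2]
    exact pow_le_pow_left₀ (norm_nonneg _) (by linarith) 2
  have h4 : Q.q v ≤ ⌊(√X + τ) ^ 2⌋ := Int.le_floor.2 h3
  rwa [← Int.natCast_floor_eq_floor (by positivity)] at h4

theorem card_Ann {Q : Form} (hQ : Q.Pos) (X τ : ℝ) (hτ : 0 ≤ τ) :
    ((Ann Q X τ).card : ℝ) ≤ 200 * ((τ + 1) * (√X + τ + 1)) := by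
  have hX := Real.sqrt_nonneg X
  have hk := MRS.LatU84.kap_le Q hQ
  have hk0 := MRS.LatG84.kap_pos hQ
  set s : ℝ := √X with hs
  have hfl : ((⌊(s + τ) ^ 2⌋₊ : ℕ) : ℝ) ≤ (s + τ) ^ 2 := Nat.floor_le (by positivity)
  by_cases hcase : s ≤ τ + 1
  · have h1 := card_sh Q hQ (Ann Q X τ) ((s + τ) ^ 2 + 1) (by nlinarith [sq_nonneg (s + τ)])
      (fun v hv => by
        have h2 := (abs_le.1 ((mem_Ann hQ).1 hv)).2
        have h3 := tq_nrm hQ v
        have h4 : ‖tq Q v‖ ^ 2 ≤ (s + τ) ^ 2 :=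
          pow_le_pow_left₀ (norm_nonneg _) (by linarith) 2
        linarith)
    refine h1.trans ?_
    have h5 : (s + τ) ^ 2 + 1 ≤ 4 * ((τ + 1) * (τ + 1)) := by
      have h6 : (s + τ) ^ 2 ≤ (2 * τ + 1) ^ 2 := pow_le_pow_left₀ (by linarith) (by linarith) 2
      nlinarith
    have h7 : (τ + 1) * (τ + 1) ≤ (τ + 1) * (s + τ + 1) :=
      mul_le_mul_of_nonneg_left (by linarith) (by linarith)
    nlinarith
  · rw [not_le] at hcase
    set R1 : ℕ := ⌊(s + τ) ^ 2⌋₊ with hR1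
    set R0 : ℕ := ⌊(s - τ - 1) ^ 2⌋₊ with hR0
    have hsub : Ann Q X τ ⊆ Q.ball R1 \ Q.ball R0 := by
      intro v hv
      rw [mem_sdiff]
      refine ⟨(mem_filter.1 hv).1, ?_⟩
      rw [Form.mem_ball hQ]
      intro h1
      have h2 := (abs_le.1 ((mem_Ann hQ).1 hv)).1
      have h3 := tq_nrm hQ v
      have h4 : (Q.q v : ℝ) ≤ (s - τ - 1) ^ 2 := by
        have h5 : (Q.q v : ℝ) ≤ (R0 : ℝ) := by exact_mod_cast h1
        exact h5.trans (Nat.floor_le (by positivity))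
      rw [← h3] at h4
      have h6 : ‖tq Q v‖ ≤ s - τ - 1 := by
        apply (sq_le_sq₀ (norm_nonneg _) (by linarith)).1 h4
      linarith
    have hR : R0 ≤ R1 := by
      apply Nat.floor_mono
      exact pow_le_pow_left₀ (by linarith) (by linarith) 2
    have hsub2 : Q.ball R0 ⊆ Q.ball R1 := by
      intro v hv
      rw [Form.mem_ball hQ] at hv ⊢
      exact hv.trans (by exact_mod_cast hR)
    have h1 : ((Ann Q X τ).card : ℝ) ≤ ((Q.ball R1).card : ℝ) - ((Q.ball R0).card : ℝ) := by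
      have h2 := card_le_card hsub
      rw [card_sdiff_of_subset hsub2] at h2
      have h3 := card_le_card hsub2
      have h4 : (Ann Q X τ).card + (Q.ball R0).card ≤ (Q.ball R1).card := by omega
      have h5 : ((Ann Q X τ).card : ℝ) + ((Q.ball R0).card : ℝ) ≤ ((Q.ball R1).card : ℝ) := by
        exact_mod_cast h4
      linarith
    have h2 := (abs_le.1 (MRS.LatU84.latU Q hQ R1)).2
    have h3 := (abs_le.1 (MRS.LatU84.latU Q hQ R0)).1
    have h4 : (R1 : ℝ) ≤ (s + τ) ^ 2 := hfl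
    have h5 : (s - τ - 1) ^ 2 - 1 ≤ (R0 : ℝ) := by
      have := Nat.lt_floor_add_one ((s - τ - 1) ^ 2)
      rw [← hR0] at this
      linarith
    have h6 : √(R1 : ℝ) ≤ s + τ := Real.sqrt_le_iff.2 ⟨by linarith, h4⟩
    have h7 : √(R0 : ℝ) ≤ s + τ := by
      apply le_trans (Real.sqrt_le_sqrt _) h6
      exact_mod_cast hR
    have h8 : MRS.LatG84.kap Q * (R1 : ℝ) - MRS.LatG84.kap Q * (R0 : ℝ) ≤
        4 * ((s + τ) ^ 2 - (s - τ - 1) ^ 2 + 1) := by
      have h9 : (0 : ℝ) ≤ (R1 : ℝ) - R0 := by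
        have : (R0 : ℝ) ≤ R1 := by exact_mod_cast hR
        linarith
      calc MRS.LatG84.kap Q * (R1 : ℝ) - MRS.LatG84.kap Q * (R0 : ℝ) =
          MRS.LatG84.kap Q * ((R1 : ℝ) - R0) := by ring
        _ ≤ 4 * ((R1 : ℝ) - R0) := mul_le_mul_of_nonneg_right hk h9
        _ ≤ _ := by linarith
    have h10 : (s + τ) ^ 2 - (s - τ - 1) ^ 2 = (2 * τ + 1) * (2 * s - 1) := by ring
    rw [h10] at h8
    nlinarith [mul_nonneg hτ hX, mul_nonneg hτ hτ]

/-- sums over translated shells -/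
theorem shift {Q : Form} (hQ : Q.Pos) (a b : ℝ) (ha : 0 ≤ a) (hab : a ≤ b) (τ : ℝ) (hτ : 0 ≤ τ)
    (t : V) (ht : ‖tq Q t‖ ≤ τ) (G : V → ℂ) (hG : ∀ v, ‖G v‖ ≤ 1) :
    ‖∑ v ∈ shQ Q a b, G (v + t) - ∑ v ∈ shQ Q a b, G v‖ ≤
      400 * ((τ + 1) * (√b + τ + 1)) + 2 := by
  classical
  set B : Finset V := shQ Q a b with hB
  set Bt : Finset V := B.image (fun v => v + t) with hBt
  have e1 : ∑ v ∈ B, G (v + t) = ∑ w ∈ Bt, G w := by
    rw [hBt, sum_image (fun x _ y _ h => add_right_cancel h)]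
  have e2 : ∑ w ∈ Bt, G w - ∑ w ∈ B, G w = ∑ w ∈ Bt \ B, G w - ∑ w ∈ B \ Bt, G w := by
    have h1 := sum_inter_add_sum_sdiff Bt B G
    have h2 := sum_inter_add_sum_sdiff B Bt G
    rw [inter_comm] at h2
    rw [← h1, ← h2]
    ring
  rw [e1, e2]
  have hdisj : Disjoint (Bt \ B) (B \ Bt) := by
    rw [disjoint_left]
    intro v h1 h2
    exact (mem_sdiff.1 h1).2 (mem_sdiff.1 h2).1
  have hcard : ‖∑ w ∈ Bt \ B, G w - ∑ w ∈ B \ Bt, G w‖ ≤
      (((Bt \ B) ∪ (B \ Bt)).card : ℝ) := by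
    rw [card_union_of_disjoint hdisj]
    refine (norm_sub_le _ _).trans ?_
    push_cast
    have key : ∀ S : Finset V, ‖∑ w ∈ S, G w‖ ≤ (S.card : ℝ) := by
      intro S
      refine (norm_sum_le _ _).trans ?_
      calc ∑ w ∈ S, ‖G w‖ ≤ ∑ _w ∈ S, (1 : ℝ) := sum_le_sum (fun w _ => hG w)
        _ = _ := by rw [sum_const, nsmul_eq_mul, mul_one]
    exact add_le_add (key _) (key _)
  refine hcard.trans ?_
  have hb0 : 0 ≤ b := ha.trans hab
  have hsab : √a ≤ √b := Real.sqrt_le_sqrt hab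
  have hmem : ∀ v : V, v ∈ B ↔ v ≠ 0 ∧ √a < ‖tq Q v‖ ∧ ‖tq Q v‖ ≤ √b := by
    intro v
    rw [hB, mem_shQ hQ, tq_sqrt hQ]
    refine and_congr_right (fun _ => ?_)
    have hq0 : (0 : ℝ) ≤ Q.q v := by exact_mod_cast hQ.q_nonneg v
    rw [Real.sqrt_lt_sqrt_iff ha, Real.sqrt_le_sqrt_iff hb0]
  have hsub : (Bt \ B) ∪ (B \ Bt) ⊆ (Ann Q a τ ∪ Ann Q b τ) ∪ {0, t} := by
    intro w hw
    rw [mem_union, mem_union, mem_Ann hQ, mem_Ann hQ, mem_insert, mem_singleton]
    rw [mem_union] at hw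
    rcases hw with hw | hw
    · obtain ⟨h1, h2⟩ := mem_sdiff.1 hw
      rw [hBt, mem_image] at h1
      obtain ⟨v, hv, rfl⟩ := h1
      rw [hmem] at hv h2
      by_cases h0 : v + t = 0
      · exact Or.inr (Or.inl h0)
      left
      have h3 : ‖tq Q (v + t)‖ ≤ ‖tq Q v‖ + τ := by
        rw [tq_add]
        exact (norm_add_le _ _).trans (by linarith)
      have h4 : ‖tq Q v‖ - τ ≤ ‖tq Q (v + t)‖ := by
        rw [tq_add]
        have := norm_sub_norm_le (tq Q v) (-(tq Q t))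
        rw [norm_neg, sub_neg_eq_add] at this
        linarith
      by_cases h5 : √a < ‖tq Q (v + t)‖
      · have h6 : √b < ‖tq Q (v + t)‖ := by
          by_contra h7
          exact h2 ⟨h0, h5, not_lt.1 h7⟩
        right
        rw [abs_le]
        constructor <;> linarith [hv.2.2]
      · left
        rw [not_lt] at h5
        rw [abs_le]
        constructor <;> linarith [hv.2.1]
    · obtain ⟨h1, h2⟩ := mem_sdiff.1 hw
      have h3 : w - t ∉ B := by
        intro h4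
        apply h2
        rw [hBt, mem_image]
        exact ⟨w - t, h4, sub_add_cancel _ _⟩
      rw [hmem] at h1 h3
      by_cases h0 : w - t = 0
      · exact Or.inr (Or.inr (sub_eq_zero.1 h0))
      left
      have e3 : tq Q w = tq Q (w - t) + tq Q t := by rw [← tq_add, sub_add_cancel]
      have h4 : ‖tq Q w‖ ≤ ‖tq Q (w - t)‖ + τ := by
        rw [e3]
        exact (norm_add_le _ _).trans (by linarith)
      have h5 : ‖tq Q (w - t)‖ - τ ≤ ‖tq Q w‖ := by
        rw [e3]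
        have := norm_sub_norm_le (tq Q (w - t)) (-(tq Q t))
        rw [norm_neg, sub_neg_eq_add] at this
        linarith
      by_cases h6 : √a < ‖tq Q (w - t)‖
      · have h7 : √b < ‖tq Q (w - t)‖ := by
          by_contra h8
          exact h3 ⟨h0, h6, not_lt.1 h8⟩
        right
        rw [abs_le]
        constructor <;> linarith [h1.2.2]
      · left
        rw [not_lt] at h6
        rw [abs_le]
        constructor <;> linarith [h1.2.1]
  have h1 : ((((Bt \ B) ∪ (B \ Bt)).card : ℕ) : ℝ) ≤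
      ((Ann Q a τ).card : ℝ) + ((Ann Q b τ).card : ℝ) + 2 := by
    have h2 := card_le_card hsub
    have h3 := card_union_le (Ann Q a τ ∪ Ann Q b τ) {0, t}
    have h4 := card_union_le (Ann Q a τ) (Ann Q b τ)
    have h5 : ({0, t} : Finset V).card ≤ 2 := card_le_two
    have h6 : (((Bt \ B) ∪ (B \ Bt)).card) ≤ (Ann Q a τ).card + (Ann Q b τ).card + 2 := by omega
    exact_mod_cast h6
  refine h1.trans ?_
  have h2 := card_Ann hQ a τ hτ
  have h3 := card_Ann hQ b τ hτ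
  have h4 : (τ + 1) * (√a + τ + 1) ≤ (τ + 1) * (√b + τ + 1) :=
    mul_le_mul_of_nonneg_left (by linarith) (by linarith)
  linarith

/-- **vanishing averages over translations give small sums over shells** -/
theorem shift_zero {Q : Form} (hQ : Q.Pos) (a b : ℝ) (ha : 0 ≤ a) (hab : a ≤ b) (τ : ℝ)
    (hτ : 0 ≤ τ) (t : V) (p : ℕ) (hp : 0 < p) (ht : (p : ℝ) * ‖tq Q t‖ ≤ τ) (G : V → ℂ)
    (hG : ∀ v, ‖G v‖ ≤ 1) (h0 : ∀ v, ∑ s ∈ range p, G (v + (s : ℤ) • t) = 0) :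
    ‖∑ v ∈ shQ Q a b, G v‖ ≤ 400 * ((τ + 1) * (√b + τ + 1)) + 2 := by
  set D : ℝ := 400 * ((τ + 1) * (√b + τ + 1)) + 2 with hD
  have hpr : (0 : ℝ) < p := by exact_mod_cast hp
  have e1 : (p : ℂ) * ∑ v ∈ shQ Q a b, G v =
      -∑ s ∈ range p, (∑ v ∈ shQ Q a b, G (v + (s : ℤ) • t) - ∑ v ∈ shQ Q a b, G v) := by
    rw [sum_sub_distrib, sum_comm, sum_congr rfl (fun v _ => h0 v), sum_const_zero, sum_const,
      card_range, nsmul_eq_mul]
    ring
  have h1 : ‖(p : ℂ) * ∑ v ∈ shQ Q a b, G v‖ ≤ p * D := by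
    rw [e1, norm_neg]
    refine (norm_sum_le _ _).trans ?_
    calc ∑ s ∈ range p, ‖∑ v ∈ shQ Q a b, G (v + (s : ℤ) • t) - ∑ v ∈ shQ Q a b, G v‖
        ≤ ∑ _s ∈ range p, D := by
          refine sum_le_sum (fun s hs => ?_)
          apply shift hQ a b ha hab τ hτ _ _ G hG
          rw [tq_zsmul, norm_mul]
          have h2 : ‖((s : ℤ) : ℂ)‖ = s := by
            rw [Int.cast_natCast, Complex.norm_natCast]
          rw [h2]
          have h3 : (s : ℝ) ≤ p := by exact_mod_cast (mem_range.1 hs).le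
          exact (mul_le_mul_of_nonneg_right h3 (norm_nonneg _)).trans ht
      _ = p * D := by rw [sum_const, card_range, nsmul_eq_mul]
  rw [norm_mul, Complex.norm_natCast] at h1
  exact le_of_mul_le_mul_left h1 hpr

end Pool.Agent.Lib.MP_a17b09_nt.MRSG.ShiftG12
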