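import Pool.Agent.Lib.MP_a17b09_nt.MRSG.EigG12
import Pool.Agent.Lib.MP_a17b09_nt.MRSG.StructD29
import Pool.Agent.Lib.MP_a17b09_nt.MRS.HM96

/-!
MRSG (MP_a17b09_nt), module TKHG: Turan - Kubilius and Halasz - Montgomery together, for the
commuting similitudes of the classes of forms. helper12.
-/

set_option autoImplicit false

open Finset

namespace Pool.Agent.Lib.MP_a17b09_nt.MRSG.TkhG12

open CH CH.PE ExpG12 ShiftG12 EigG12

section

variable {d K : ℕ} [NeZero K]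

/-- the weight of two frequencies -/
noncomputable def gw (w w' : Fq d K) (i : Cl d) (v : V) : ℂ :=
  (starRingEnd ℂ) ((bv d K w.1 w.2 : Hs d K) (i, cl K v)) *
    (bv d K w'.1 w'.2 : Hs d K) (i, cl K v)

theorem norm_gw (w w' : Fq d K) (i : Cl d) (v : V) : ‖gw w w' i v‖ ≤ 1 := by
  unfold gw
  rw [norm_mul, RCLike.norm_conj]
  calc _ ≤ (1 : ℝ) * 1 := mul_le_mul (bv_le w _) (bv_le w' _) (norm_nonneg _) (by norm_num)
    _ = 1 := by norm_num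

omit [NeZero K] in
theorem cl_eq {v u : V} (h1 : (K : ℤ) ∣ v.1 - u.1) (h2 : (K : ℤ) ∣ v.2 - u.2) :
    cl K v = cl K u := by
  unfold cl
  rw [(ZMod.intCast_eq_intCast_iff_dvd_sub u.1 v.1 K).2 h1,
    (ZMod.intCast_eq_intCast_iff_dvd_sub u.2 v.2 K).2 h2]

theorem gw_per (w w' : Fq d K) (i : Cl d) {v u : V} (h1 : (K : ℤ) ∣ v.1 - u.1)
    (h2 : (K : ℤ) ∣ v.2 - u.2) : gw w w' i v = gw w w' i u := by
  unfold gw
  rw [cl_eq h1 h2]

theorem ch_conj (w w' : Fq d K) (i : Cl d) {v : V} (hv : v ≠ 0) :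
    ch w i v * (starRingEnd ℂ) (ch w' i v) = gw w w' i v * uu (rep i) v ^ (w.1 - w'.1) := by
  have hn := norm_uu (rep_pos i) hv
  have h1 : (starRingEnd ℂ) (uu (rep i) v) = (uu (rep i) v)⁻¹ := by
    rw [Complex.inv_def, Complex.normSq_eq_norm_sq, hn]
    simp
  unfold ch gw
  rw [map_mul, Complex.conj_conj, map_zpow₀, h1, inv_zpow, zpow_sub₀ (uu_ne (rep_pos i) hv)]
  field_simp

/-- uniform constants for the classes -/
theorem exp_unif (d : ℕ) (A B : ℝ) (hA : 0 < A) (hB : 1 ≤ B) :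
    ∃ c C : ℝ, 0 < c ∧ c ≤ 1 / 8 ∧ 0 < C ∧ ∀ i : Cl d, ∀ N : ℝ, 1 ≤ N → ∀ h : ℤ, h ≠ 0 →
    |(h : ℝ)| ≤ N ^ A → ∀ q : ℕ, 0 < q → (q : ℝ) ≤ B * N ^ c → ∀ (α : V) (a b : ℝ), b ≤ B * N →
    ‖∑ v ∈ cs (rep i) q α a b, uu (rep i) v ^ h‖ ≤ C * N ^ (1 - c) := by
  choose cf Cf hcf hcf8 hCf H using fun i : Cl d => expG (rep i) (rep_pos i) A B hA hB
  set s : ℝ := ∑ i : Cl d, 1 / cf i with hs
  have hs0 : 0 ≤ s := sum_nonneg (fun i _ => (one_div_pos.2 (hcf i)).le)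
  set c : ℝ := 1 / (8 * (1 + s)) with hc
  have hc0 : 0 < c := by positivity
  refine ⟨c, 1 + ∑ i : Cl d, Cf i, hc0, ?_, ?_, ?_⟩
  · rw [hc]
    apply one_div_le_one_div_of_le (by norm_num)
    linarith
  · have : 0 ≤ ∑ i : Cl d, Cf i := sum_nonneg (fun i _ => (hCf i).le)
    linarith
  · intro i N hN h hh hhN q hq hqN α a b hb
    have h1 : 1 / cf i ≤ s :=
      single_le_sum (f := fun i => 1 / cf i) (fun i _ => (one_div_pos.2 (hcf i)).le) (mem_univ i)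
    have h2 : c ≤ cf i := by
      rw [hc, div_le_iff₀ (by positivity)]
      have h3 : 1 ≤ cf i * s := by
        rwa [div_le_iff₀ (hcf i), mul_comm] at h1
      nlinarith [hcf i]
    have h3 : Cf i ≤ 1 + ∑ i : Cl d, Cf i := by
      have := single_le_sum (f := fun i => Cf i) (fun i _ => (hCf i).le) (mem_univ i)
      linarith
    have hB0 : 0 < B := by linarith
    refine (H i N hN h hh hhN q hq (hqN.trans ?_) α a b hb).trans ?_
    · exact mul_le_mul_of_nonneg_left (Real.rpow_le_rpow_of_exponent_le hN h2) hB0.le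
    · apply mul_le_mul h3 (Real.rpow_le_rpow_of_exponent_le hN (by linarith)) (by positivity)
      exact (hCf i).le.trans h3

/-- the vectors of a shell, all classes -/
noncomputable def Sx (d : ℕ) (a b : ℝ) : Finset (Σ _ : Cl d, V) :=
  (univ : Finset (Cl d)).sigma (fun i => shQ (rep i) a b)

theorem sum_Sx (a b : ℝ) (f : (Σ _ : Cl d, V) → ℂ) :
    ∑ x ∈ Sx d a b, f x = ∑ i, ∑ v ∈ shQ (rep i) a b, f ⟨i, v⟩ := by
  unfold Sx
  rw [sum_sigma]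

/-- the functions of the system -/
noncomputable def ph (wP : Fq d K × (ℕ × Bool)) (x : Σ _ : Cl d, V) : ℂ :=
  ((√(wP.2.1 : ℝ) * Dp x.1 wP.2 x.2 : ℝ) : ℂ) * ch wP.1 x.1 x.2

/-- the entries of the Gram matrix -/
theorem entry (a b : ℝ) (w w' : Fq d K) (P P' : ℕ × Bool) :
    ∑ x ∈ Sx d a b, ((1 : ℝ) : ℂ) * (ph (w, P) x * (starRingEnd ℂ) (ph (w', P') x)) =
      ((√(P.1 : ℝ) * √(P'.1 : ℝ) : ℝ) : ℂ) * ∑ i, ∑ v ∈ shQ (rep i) a b,
        ((Dp i P v * Dp i P' v : ℝ) : ℂ) * (gw w w' i v * uu (rep i) v ^ (w.1 - w'.1)) := by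
  rw [sum_Sx, mul_sum]
  refine sum_congr rfl (fun i _ => ?_)
  rw [mul_sum]
  refine sum_congr rfl (fun v hv => ?_)
  rw [mem_shQ (rep_pos i)] at hv
  rw [← ch_conj w w' i hv.1]
  unfold ph
  simp only
  rw [map_mul, Complex.conj_ofReal]
  push_cast
  ring

theorem pp_le {P P' : ℕ × Bool} {n : ℝ} (h1 : (P.1 : ℝ) ≤ n) (h2 : (P'.1 : ℝ) ≤ n) :
    √(P.1 : ℝ) * √(P'.1 : ℝ) ≤ n := by
  have hn : 0 ≤ n := (Nat.cast_nonneg _).trans h1
  rw [← Real.sqrt_mul (by positivity)]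
  apply Real.sqrt_le_iff.2
  refine ⟨hn, ?_⟩
  rw [sq]
  exact mul_le_mul h1 h2 (Nat.cast_nonneg _) hn

/-- same frequency index, different primes -/
theorem entry_off (a b : ℝ) (ha : 0 ≤ a) (hab : a ≤ b) (w w' : Fq d K) (hw : w'.1 = w.1)
    {P P' : ℕ × Bool} (h : Adm d K P) (h' : Adm d K P') (hne : P ≠ P') (n : ℝ)
    (h1 : (P.1 : ℝ) ≤ n) (h2 : (P'.1 : ℝ) ≤ n) (τ : ℝ)
    (hτ : ∀ i : Cl d, (P.1 : ℝ) * (K * ((|((rep i).a : ℝ)| + |((rep i).b : ℝ)| +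
      |((rep i).c : ℝ)| + 1) * (P.1 * P'.1))) ≤ τ) :
    ‖∑ x ∈ Sx d a b, ((1 : ℝ) : ℂ) * (ph (w, P) x * (starRingEnd ℂ) (ph (w', P') x))‖ ≤
      n * (Fintype.card (Cl d) * (400 * ((τ + 1) * (√b + τ + 1)) + 2)) := by
  have hn : 0 ≤ n := (Nat.cast_nonneg _).trans h1
  rw [entry, norm_mul, Complex.norm_real, Real.norm_of_nonneg (by positivity)]
  apply mul_le_mul (pp_le h1 h2) _ (norm_nonneg _) hn
  refine (norm_sum_le _ _).trans ?_
  have key : ∀ i ∈ (univ : Finset (Cl d)), ‖∑ v ∈ shQ (rep i) a b,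
      ((Dp i P v * Dp i P' v : ℝ) : ℂ) * (gw w w' i v * uu (rep i) v ^ (w.1 - w'.1))‖ ≤
      400 * ((τ + 1) * (√b + τ + 1)) + 2 := by
    intro i _
    have e : ∑ v ∈ shQ (rep i) a b,
        ((Dp i P v * Dp i P' v : ℝ) : ℂ) * (gw w w' i v * uu (rep i) v ^ (w.1 - w'.1)) =
        ∑ v ∈ shQ (rep i) a b, ((Dp i P v * Dp i P' v : ℝ) : ℂ) * gw w w' i v := by
      refine sum_congr rfl (fun v _ => ?_)
      rw [hw, sub_self, zpow_zero, mul_one]
    rw [e]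
    exact corr h h' hne (Nat.pos_of_ne_zero (NeZero.ne K)) i a b ha hab _ (norm_gw w w' i)
      (fun v u h3 h4 => gw_per w w' i h3 h4) τ (hτ i)
  refine (sum_le_sum key).trans (le_of_eq ?_)
  rw [sum_const, card_univ, nsmul_eq_mul]

/-- same frequency index, same prime -/
theorem entry_diag (a b : ℝ) (w w' : Fq d K) (hw : w'.1 = w.1)
    {P : ℕ × Bool} (h : Adm d K P) (hb : (P.1 : ℝ) ≤ b) :
    ‖∑ x ∈ Sx d a b, ((1 : ℝ) : ℂ) * (ph (w, P) x * (starRingEnd ℂ) (ph (w', P) x))‖ ≤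
      Fintype.card (Cl d) * (76 * b) := by
  rw [entry, norm_mul, Complex.norm_real, Real.norm_of_nonneg (by positivity),
    Real.mul_self_sqrt (Nat.cast_nonneg _)]
  have key : ∀ i ∈ (univ : Finset (Cl d)), (P.1 : ℝ) * ‖∑ v ∈ shQ (rep i) a b,
      ((Dp i P v * Dp i P v : ℝ) : ℂ) * (gw w w' i v * uu (rep i) v ^ (w.1 - w'.1))‖ ≤
      76 * b := by
    intro i _
    refine le_trans ?_ (diag h i a b hb)
    apply mul_le_mul_of_nonneg_left _ (Nat.cast_nonneg _)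
    refine (norm_sum_le _ _).trans (sum_le_sum (fun v _ => ?_))
    rw [hw, sub_self, zpow_zero, mul_one, norm_mul, Complex.norm_real, Real.norm_eq_abs,
      ← sq, abs_of_nonneg (sq_nonneg _)]
    calc Dp i P v ^ 2 * ‖gw w w' i v‖ ≤ Dp i P v ^ 2 * 1 :=
          mul_le_mul_of_nonneg_left (norm_gw w w' i v) (sq_nonneg _)
      _ = Dp i P v ^ 2 := mul_one _
  calc (P.1 : ℝ) * ‖∑ i, ∑ v ∈ shQ (rep i) a b,
      ((Dp i P v * Dp i P v : ℝ) : ℂ) * (gw w w' i v * uu (rep i) v ^ (w.1 - w'.1))‖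
      ≤ (P.1 : ℝ) * ∑ i, ‖∑ v ∈ shQ (rep i) a b,
      ((Dp i P v * Dp i P v : ℝ) : ℂ) * (gw w w' i v * uu (rep i) v ^ (w.1 - w'.1))‖ :=
        mul_le_mul_of_nonneg_left (norm_sum_le _ _) (Nat.cast_nonneg _)
    _ = ∑ i, (P.1 : ℝ) * ‖∑ v ∈ shQ (rep i) a b,
      ((Dp i P v * Dp i P v : ℝ) : ℂ) * (gw w w' i v * uu (rep i) v ^ (w.1 - w'.1))‖ := by
        rw [mul_sum]
    _ ≤ ∑ _i : Cl d, 76 * b := sum_le_sum key
    _ = Fintype.card (Cl d) * (76 * b) := by rw [sum_const, card_univ, nsmul_eq_mul]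

/-- different frequency indices -/
theorem entry_freq (a b E : ℝ) (w w' : Fq d K)
    {P P' : ℕ × Bool} (h : Adm d K P) (h' : Adm d K P') (n : ℝ)
    (h1 : (P.1 : ℝ) ≤ n) (h2 : (P'.1 : ℝ) ≤ n)
    (hE : ∀ i : Cl d, ∀ α : V, ‖∑ v ∈ cs (rep i) (K * (P.1 * P'.1)) α a b,
      uu (rep i) v ^ (w.1 - w'.1)‖ ≤ E) (hE0 : 0 ≤ E) :
    ‖∑ x ∈ Sx d a b, ((1 : ℝ) : ℂ) * (ph (w, P) x * (starRingEnd ℂ) (ph (w', P') x))‖ ≤
      n * (Fintype.card (Cl d) * ((K * n ^ 2) ^ 2 * E)) := by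
  have hn : 0 ≤ n := (Nat.cast_nonneg _).trans h1
  have hK : 0 < K := Nat.pos_of_ne_zero (NeZero.ne K)
  rw [entry, norm_mul, Complex.norm_real, Real.norm_of_nonneg (by positivity)]
  apply mul_le_mul (pp_le h1 h2) _ (norm_nonneg _) hn
  refine (norm_sum_le _ _).trans ?_
  set q : ℕ := K * (P.1 * P'.1) with hq
  have hq0 : 0 < q := Nat.mul_pos hK (Nat.mul_pos h.1.pos h'.1.pos)
  have hqn : (q : ℝ) ≤ K * n ^ 2 := by
    rw [hq]
    push_cast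
    apply mul_le_mul_of_nonneg_left _ (Nat.cast_nonneg _)
    rw [sq]
    exact mul_le_mul h1 h2 (Nat.cast_nonneg _) hn
  have hdK : (K : ℤ) ∣ (q : ℤ) := by
    rw [hq]
    exact_mod_cast Dvd.intro _ rfl
  have hdP : (P.1 : ℤ) ∣ (q : ℤ) := by
    rw [hq]
    exact_mod_cast Dvd.intro (K * P'.1) (by ring)
  have hdP' : (P'.1 : ℤ) ∣ (q : ℤ) := by
    rw [hq]
    exact_mod_cast Dvd.intro (K * P.1) (by ring)
  have key : ∀ i ∈ (univ : Finset (Cl d)), ‖∑ v ∈ shQ (rep i) a b,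
      ((Dp i P v * Dp i P' v : ℝ) : ℂ) * (gw w w' i v * uu (rep i) v ^ (w.1 - w'.1))‖ ≤
      (K * n ^ 2) ^ 2 * E := by
    intro i _
    have e : ∑ v ∈ shQ (rep i) a b,
        ((Dp i P v * Dp i P' v : ℝ) : ℂ) * (gw w w' i v * uu (rep i) v ^ (w.1 - w'.1)) =
        ∑ v ∈ shQ (rep i) a b, (((Dp i P v * Dp i P' v : ℝ) : ℂ) * gw w w' i v) *
          uu (rep i) v ^ (w.1 - w'.1) := by
      refine sum_congr rfl (fun v _ => ?_)
      ring
    rw [e]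
    have h3 := perG (rep_pos i) q hq0 a b E (fun v => uu (rep i) v ^ (w.1 - w'.1))
      (fun v => ((Dp i P v * Dp i P' v : ℝ) : ℂ) * gw w w' i v)
      (fun v u h4 h5 => by
        rw [Dp_per i P (hdP.trans h4) (hdP.trans h5), Dp_per i P' (hdP'.trans h4) (hdP'.trans h5),
          gw_per w w' i (hdK.trans h4) (hdK.trans h5)])
      (fun v => by
        rw [norm_mul, Complex.norm_real, Real.norm_eq_abs, abs_mul]
        calc |Dp i P v| * |Dp i P' v| * ‖gw w w' i v‖ ≤ 1 * 1 * 1 :=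
              mul_le_mul (mul_le_mul (abs_Dp h i v) (abs_Dp h' i v) (abs_nonneg _) (by norm_num))
                (norm_gw w w' i v) (norm_nonneg _) (by norm_num)
          _ = 1 := by norm_num)
      (hE i)
    refine h3.trans ?_
    apply mul_le_mul_of_nonneg_right _ hE0
    exact pow_le_pow_left₀ (Nat.cast_nonneg _) hqn 2
  refine (sum_le_sum key).trans (le_of_eq ?_)
  rw [sum_const, card_univ, nsmul_eq_mul]

/-- the number of frequencies with a given index -/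
theorem card_fib (U : Finset (Fq d K)) (j : ℤ) :
    (((U.filter (fun w => w.1 = j)).card : ℕ) : ℝ) ≤ (Fintype.card (Cl d) * (K * K) : ℕ) := by
  classical
  have hsub : U.filter (fun w => w.1 = j) ⊆
      (univ : Finset (Fin (mm d K j))).image (fun k => (⟨j, k⟩ : Fq d K)) := by
    rintro ⟨j', k⟩ hw
    rw [mem_filter] at hw
    obtain ⟨-, h2⟩ := hw
    simp only at h2
    subst h2
    exact mem_image_of_mem _ (mem_univ k)
  have h1 := (card_le_card hsub).trans card_image_le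
  rw [card_univ, Fintype.card_fin] at h1
  exact_mod_cast h1.trans (mm_le (d := d) (K := K) j)

/-- **the dual inequality for the system** -/
theorem tkh_sys (a b : ℝ) (U : Finset (Fq d K)) (PP : Finset (ℕ × Bool)) (G0 G1 G2 : ℝ)
    (hG0 : 0 ≤ G0) (hG1 : 0 ≤ G1) (hG2 : 0 ≤ G2)
    (h0 : ∀ w ∈ U, ∀ w' ∈ U, w'.1 = w.1 → ∀ P ∈ PP, ∀ P' ∈ PP, P ≠ P' →
      ‖∑ x ∈ Sx d a b, ((1 : ℝ) : ℂ) * (ph (w, P) x * (starRingEnd ℂ) (ph (w', P') x))‖ ≤ G0)
    (h1 : ∀ w ∈ U, ∀ w' ∈ U, w'.1 = w.1 → ∀ P ∈ PP,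
      ‖∑ x ∈ Sx d a b, ((1 : ℝ) : ℂ) * (ph (w, P) x * (starRingEnd ℂ) (ph (w', P) x))‖ ≤ G1)
    (h2 : ∀ w ∈ U, ∀ w' ∈ U, w'.1 ≠ w.1 → ∀ P ∈ PP, ∀ P' ∈ PP,
      ‖∑ x ∈ Sx d a b, ((1 : ℝ) : ℂ) * (ph (w, P) x * (starRingEnd ℂ) (ph (w', P') x))‖ ≤ G2)
    (g : (Σ _ : Cl d, V) → ℂ) (hg : ∀ x, ‖g x‖ ≤ 1) :
    ∑ w ∈ U, ∑ P ∈ PP, ‖∑ x ∈ Sx d a b, ((1 : ℝ) : ℂ) * g x * ph (w, P) x‖ ^ 2 ≤
      (Sx d a b).card * ((Fintype.card (Cl d) * (K * K) : ℕ) * (G1 + PP.card * G0) +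
        U.card * (PP.card * G2)) := by
  classical
  set m : ℝ := ((Fintype.card (Cl d) * (K * K) : ℕ) : ℝ) with hm
  set G : ℝ := m * (G1 + PP.card * G0) + U.card * (PP.card * G2) with hG
  have hGn : 0 ≤ G := by positivity
  have hrow : ∀ i ∈ U ×ˢ PP, ∑ k ∈ U ×ˢ PP, ‖∑ x ∈ Sx d a b,
      ((1 : ℝ) : ℂ) * (ph i x * (starRingEnd ℂ) (ph k x))‖ ≤ G := by
    rintro ⟨w, P⟩ hwP
    rw [mem_product] at hwP
    obtain ⟨hw, hP⟩ := hwP
    simp only at hw hP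
    have hterm : ∀ w' ∈ U, ∀ P' ∈ PP, ‖∑ x ∈ Sx d a b,
        ((1 : ℝ) : ℂ) * (ph (w, P) x * (starRingEnd ℂ) (ph (w', P') x))‖ ≤
        (if w'.1 = w.1 then (if P' = P then G1 else 0) + G0 else 0) + G2 := by
      intro w' hw' P' hP'
      by_cases hj : w'.1 = w.1
      · rw [if_pos hj]
        by_cases hPP : P' = P
        · subst hPP
          rw [if_pos rfl]
          have := h1 w hw w' hw' hj P' hP'
          linarith
        · rw [if_neg hPP]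
          have := h0 w hw w' hw' hj P hP P' hP' (Ne.symm hPP)
          linarith
      · rw [if_neg hj]
        have := h2 w hw w' hw' hj P hP P' hP'
        linarith
    rw [sum_product]
    refine (sum_le_sum fun w' hw' => sum_le_sum fun P' hP' => hterm w' hw' P' hP').trans ?_
    have e3 : ∀ w' ∈ U, ∑ P' ∈ PP,
        ((if w'.1 = w.1 then (if P' = P then G1 else 0) + G0 else 0) + G2) =
        (if w'.1 = w.1 then G1 + PP.card * G0 else 0) + PP.card * G2 := by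
      intro w' _
      rw [sum_add_distrib, sum_const, nsmul_eq_mul]
      congr 1
      split_ifs
      · rw [sum_add_distrib, sum_ite_eq' PP P, if_pos hP, sum_const, nsmul_eq_mul]
      · rw [sum_const_zero]
    rw [sum_congr rfl e3, sum_add_distrib, ← sum_filter, sum_const, sum_const, nsmul_eq_mul,
      nsmul_eq_mul, hG]
    have h3 := card_fib U w.1
    have h4 : 0 ≤ G1 + PP.card * G0 := by positivity
    have h5 := mul_le_mul_of_nonneg_right h3 h4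
    linarith
  have hmain := MRS.hm_96 (Sx d a b) (U ×ˢ PP) (fun _ => (1 : ℝ)) (fun _ _ => zero_le_one)
    ph g G hGn hrow
  rw [sum_product] at hmain
  have hS : ∑ x ∈ Sx d a b, (1 : ℝ) * ‖g x‖ ^ 2 ≤ (Sx d a b).card := by
    calc ∑ x ∈ Sx d a b, (1 : ℝ) * ‖g x‖ ^ 2
        ≤ ∑ x ∈ Sx d a b, (1 : ℝ) := by
          refine sum_le_sum fun v _ => ?_
          rw [one_mul]
          exact pow_le_one₀ (norm_nonneg _) (hg v)
      _ = _ := by rw [sum_const, nsmul_eq_mul, mul_one]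
  exact hmain.trans (mul_le_mul_of_nonneg_right hS hGn)

/-- the basic identity -/
theorem mag_id (z : ℂ) (r1 r2 N : ℝ) (hN : 0 < N) (w : Fq d K) {P : ℕ × Bool}
    (h : Adm d K P) :
    (1 / (P.1 : ℝ)) * ‖Mag z r1 r2 N w - z * cw P w * Mag z r1 r2 (N / P.1) w‖ ^ 2 =
      (1 / N ^ 2) * ‖∑ x ∈ Sx d (r1 * N) (r2 * N),
        ((1 : ℝ) : ℂ) * gz z (rep x.1) x.2 * ph (w, P) x‖ ^ 2 := by
  classical
  have hp0 : (0 : ℝ) < P.1 := by exact_mod_cast h.1.pos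
  have hpC : (P.1 : ℂ) ≠ 0 := by exact_mod_cast hp0.ne'
  have hNC : (N : ℂ) ≠ 0 := by exact_mod_cast hN.ne'
  have h1 := (stIdG_29 (d := d) (K := K) z (r1 * N) (r2 * N) P w h).2
  set S1 : ℂ := ∑ i, ∑ v ∈ Shg i (r1 * N) (r2 * N), gz z (rep i) v * ch w i v with hS1
  set S2 : ℂ := ∑ i, ∑ u ∈ Shg i (r1 * N / P.1) (r2 * N / P.1), gz z (rep i) u * ch w i u
    with hS2
  have e1 : ∑ x ∈ Sx d (r1 * N) (r2 * N), ((1 : ℝ) : ℂ) * gz z (rep x.1) x.2 * ph (w, P) x =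
      ((√(P.1 : ℝ) : ℝ) : ℂ) * (z * cw P w * S2 - (1 / (P.1 : ℂ)) * S1) := by
    rw [← h1, sum_Sx, hS1, mul_sum (s := univ) (a := (1 / (P.1 : ℂ))), ← sum_sub_distrib, mul_sum]
    refine sum_congr rfl (fun i _ => ?_)
    rw [sum_filter, mul_sum, ← sum_sub_distrib, mul_sum, ← Shg_eq]
    refine sum_congr rfl (fun v _ => ?_)
    unfold ph Dp
    simp only
    by_cases h2 : Eig P.1 (rg d P) (rep i) v
    · rw [if_pos h2, if_pos ((im_iff h i v).2 h2)]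
      push_cast
      ring
    · rw [if_neg h2, if_neg (fun h3 => h2 ((im_iff h i v).1 h3))]
      push_cast
      ring
  have e2 : Mag z r1 r2 N w - z * cw P w * Mag z r1 r2 (N / P.1) w =
      -((P.1 : ℂ) / N) * (z * cw P w * S2 - (1 / (P.1 : ℂ)) * S1) := by
    unfold Mag
    rw [← mul_div_assoc, ← mul_div_assoc, ← hS1, ← hS2]
    push_cast
    field_simp
    ring
  rw [e1, e2, norm_mul, norm_mul, norm_neg, norm_div, Complex.norm_natCast, Complex.norm_real,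
    Complex.norm_real, Real.norm_of_nonneg hN.le, Real.norm_of_nonneg (Real.sqrt_nonneg _),
    mul_pow, mul_pow, Real.sq_sqrt hp0.le]
  field_simp

end

theorem num0 (n s r A hc τ : ℝ) (hn : 1 ≤ n) (hns : n ^ 5 ≤ s) (hr : 0 ≤ r) (hA : 1 ≤ A)
    (hhc : 0 ≤ hc) (hτ0 : 0 ≤ τ) (hτ : τ + 1 ≤ A * n ^ 3) :
    4 * n * (n * (hc * (400 * ((τ + 1) * (r * s + τ + 1)) + 2))) ≤
      1608 * (hc * A * (r + A)) * (s * s) := by
  have hn0 : 0 < n := by linarith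
  have hn3 : n ^ 3 ≤ n ^ 5 := pow_le_pow_right₀ hn (by norm_num)
  have h3 : 1 ≤ n ^ 3 := one_le_pow₀ hn
  have hs1 : 1 ≤ s := h3.trans (hn3.trans hns)
  have h1 : r * s + τ + 1 ≤ (r + A) * s := by
    have : A * n ^ 3 ≤ A * s := mul_le_mul_of_nonneg_left (hn3.trans hns) (by linarith)
    linarith
  have h2 : (τ + 1) * (r * s + τ + 1) ≤ (A * n ^ 3) * ((r + A) * s) :=
    mul_le_mul hτ h1 (by positivity) (by positivity)
  have h4 : 1 ≤ (A * n ^ 3) * ((r + A) * s) := by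
    have k1 : 1 ≤ A * n ^ 3 := one_le_mul_of_one_le_of_one_le hA h3
    have k2 : 1 ≤ (r + A) * s := one_le_mul_of_one_le_of_one_le (by linarith) hs1
    exact one_le_mul_of_one_le_of_one_le k1 k2
  have h5 : 400 * ((τ + 1) * (r * s + τ + 1)) + 2 ≤ 402 * ((A * n ^ 3) * ((r + A) * s)) := by
    linarith
  calc 4 * n * (n * (hc * (400 * ((τ + 1) * (r * s + τ + 1)) + 2)))
      ≤ 4 * n * (n * (hc * (402 * ((A * n ^ 3) * ((r + A) * s))))) := by gcongr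
    _ = 1608 * (hc * A * (r + A)) * (n ^ 5 * s) := by ring
    _ ≤ 1608 * (hc * A * (r + A)) * (s * s) := by gcongr

end Pool.Agent.Lib.MP_a17b09_nt.MRSG.TkhG12
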